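import Pool.Agent.Lib.MP_06b9d2_tls.DefsC

/-!
Module TLS-Dehom. A family with power sums in `HH` consists of integral elements.

`E_m = esymm_m(z)` (in `Fin 4 → ℂ⟦X⟧`) is `ev .. P_m` with `P_m` homogeneous of degree `m` (`esymm_mem`). Component `j` of `E_m` is `esymm_m` of the `z k j` (a ring homomorphism commutes with `esymm`), a sum of products of `m`
of them, so in `(pr ^ (a j)) ^ m`: `In O (E_m j) (pr ^ (m * a j))`. `four` with `m * a j` and `m * g`: `6 (m g) + 18 m ≤ 3 (m a 0) + ..`: all coefficients of `P_m` have valuation `≤ v (pr ^ (m g))`. Let `D = |K|`,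
`Z = z k 0 * A⁻¹ * C ((pr ^ g)⁻¹)`. `∏_{k'} (z k 0 - z k' 0) = 0`, i.e. `∑_m (-1) ^ m esymm_m (z . 0) (z k 0) ^ (D - m) = 0` (`Multiset.prod_X_sub_X_eq_sum_esymm` or
`Multiset.prod_X_sub_C_coeff`); multiply by `(A⁻¹ C (pr ^ g)⁻¹) ^ D`: `∑_m (-1) ^ m (E_m 0 * A⁻¹ ^ m * C (pr ^ (m g))⁻¹) Z ^ (D - m) = 0`, and `E_m 0 * A⁻¹ ^ m = P_m(1, t) = p(t)` where `p` has the coefficients of `P_m`
(`P_m` homogeneous, `A * A⁻¹ = 1` since `constantCoeff A = 1`), so `Ig_root` applies with the polynomials `(-1) ^ m (pr ^ (m g))⁻¹ p`.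
-/

namespace Pool.Agent.Lib.MP_06b9d2_tls

open PowerSeries Pool.Agent.L1

private theorem dh_sum (m : ℕ) (P : MvPolynomial (Fin 2) ℂ) (hP : P.IsHomogeneous m) :
    P = ∑ r ∈ Finset.range (m + 1), MvPolynomial.monomial (Finsupp.single 0 (m - r) + Finsupp.single 1 r)
      (MvPolynomial.coeff (Finsupp.single 0 (m - r) + Finsupp.single 1 r) P) := by
  ext d
  rw [MvPolynomial.coeff_sum]
  simp only [MvPolynomial.coeff_monomial]
  by_cases hd : d 0 + d 1 = m
  · have hmem : d 1 ∈ Finset.range (m + 1) := by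
      rw [Finset.mem_range]; omega
    have hdd : (Finsupp.single (0 : Fin 2) (m - d 1) + Finsupp.single 1 (d 1) : Fin 2 →₀ ℕ) = d := by
      ext i
      fin_cases i
      · simp; omega
      · simp
    rw [Finset.sum_eq_single_of_mem _ hmem]
    · rw [if_pos hdd, hdd]
    · intro r _ hr
      rw [if_neg]
      intro h
      apply hr
      rw [← h]
      simp
  · have h0 : MvPolynomial.coeff d P = 0 := by
      apply hP.coeff_eq_zero
      rw [Finsupp.degree_eq_sum]
      simpa [Fin.sum_univ_two] using hd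
    rw [h0]
    symm
    apply Finset.sum_eq_zero
    intro r hr
    rw [Finset.mem_range] at hr
    rw [if_neg]
    intro h
    apply hd
    rw [← h]
    simp
    omega

/-- homogeneous polynomials divided by `A ^ m` -/
theorem dehom {A : ℂ⟦X⟧} (Y : ℂ⟦X⟧) (hA : constantCoeff A = 1) (m : ℕ) (P : MvPolynomial (Fin 2) ℂ)
    (hP : P.IsHomogeneous m) :
    ∃ p : Polynomial ℂ, (∀ r, r ≤ m → p.coeff r = MvPolynomial.coeff (Finsupp.single 0 (m - r) + Finsupp.single 1 r) P) ∧
      (∀ r, m < r → p.coeff r = 0) ∧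
      MvPolynomial.aeval ![A, Y] P * A⁻¹ ^ m = Polynomial.aeval (tt A Y) p := by
  have hAA : A * A⁻¹ = 1 := PowerSeries.mul_inv_cancel A (by rw [hA]; exact one_ne_zero)
  refine ⟨∑ r ∈ Finset.range (m + 1), Polynomial.monomial r
    (MvPolynomial.coeff (Finsupp.single 0 (m - r) + Finsupp.single 1 r) P), ?_, ?_, ?_⟩
  · intro r hr
    rw [Polynomial.finsetSum_coeff]
    simp only [Polynomial.coeff_monomial]
    rw [Finset.sum_eq_single_of_mem r (by rw [Finset.mem_range]; omega)]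
    · rw [if_pos rfl]
    · intro b _ hb
      rw [if_neg hb]
  · intro r hr
    rw [Polynomial.finsetSum_coeff]
    simp only [Polynomial.coeff_monomial]
    apply Finset.sum_eq_zero
    intro b hb
    rw [Finset.mem_range] at hb
    rw [if_neg (by omega)]
  · conv_lhs => rw [dh_sum m P hP]
    rw [map_sum, map_sum, Finset.sum_mul]
    apply Finset.sum_congr rfl
    intro r hr
    rw [Finset.mem_range] at hr
    rw [MvPolynomial.aeval_monomial, Polynomial.aeval_monomial]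
    rw [Finsupp.prod_add_index' (fun _ => pow_zero _) (fun _ _ _ => pow_add _ _ _)]
    have h5 : ((Finsupp.single (0 : Fin 2) (m - r)).prod fun x => HPow.hPow ((![A, Y] : Fin 2 → ℂ⟦X⟧) x)) =
        A ^ (m - r) := Finsupp.prod_single_index (h := fun x n => ((![A, Y] : Fin 2 → ℂ⟦X⟧) x) ^ n) (pow_zero _)
    have h6 : ((Finsupp.single (1 : Fin 2) r).prod fun x => HPow.hPow ((![A, Y] : Fin 2 → ℂ⟦X⟧) x)) =
        Y ^ r := Finsupp.prod_single_index (h := fun x n => ((![A, Y] : Fin 2 → ℂ⟦X⟧) x) ^ n) (pow_zero _)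
    have h1 : A⁻¹ ^ m = A⁻¹ ^ (m - r) * A⁻¹ ^ r := by
      rw [← pow_add]; congr 1; omega
    have h2 : A ^ (m - r) * A⁻¹ ^ (m - r) = 1 := by
      rw [← mul_pow, hAA, one_pow]
    rw [h5, h6, h1, tt, mul_pow]
    calc _ = (algebraMap ℂ ℂ⟦X⟧) (MvPolynomial.coeff (Finsupp.single 0 (m - r) + Finsupp.single 1 r) P) *
          ((A ^ (m - r) * A⁻¹ ^ (m - r)) * (Y ^ r * A⁻¹ ^ r)) := by ring
      _ = _ := by rw [h2, one_mul]

end Pool.Agent.Lib.MP_06b9d2_tls
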