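import Pool.Agent.Lib.MP_06b9d2_tls.DefsC

/-!
Module TLS-Igc. Series integral over `O[t]`.

Closure properties: `RingHom.IsIntegralElem.add`, `.mul`, `.neg`, `.sub`, `RingHom.isIntegralElem_map`, ...; powers and sums by induction; `C r`, `r ∈ O`, is the image of the constant polynomial,
`t` is the image of `Polynomial.X`. `Ig_root`: a root of a monic polynomial whose coefficients are integral is integral
(`IsIntegral` is transitive: `isIntegral_of_isIntegral_coeff`-type lemmas: let `S` be the integral closure; or use only coefficients of the form `p_i(t)`, `p_i ∈ O[T]`, which is what is stated here: the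
polynomial `Z ^ n + ∑_{i < n} p_i(t) Z ^ i` is the image of a monic polynomial over `O[T]`).
`Ig_desc`: let `φ : O[T] → ℂ⟦X⟧`, `T ↦ t`, and `ψ : ℂ[T] → ℂ⟦X⟧`, `f ↦ f(t)`. `ψ` is injective: `t = X ^ m u` with `m ≥ 1`, `constantCoeff u ≠ 0` (`t ≠ 0`, no constant term), and for `f ≠ 0` with lowest term `a T ^ s`
the coefficient of `X ^ (m s)` of `f(t)` is `a u_0 ^ s ≠ 0`. `φ = ψ ∘ (map O.subtype)`. If `f(t)` is a root of a monic `Q(Z)` over `O[T]` (through `φ`), then `ψ` of `Q(f)` is `0`, so `f` is a root of `Q` in `ℂ[T]`: `f` is integral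
over `O[T]`; `Polynomial.isIntegral_iff_isIntegral_coeff` (`Mathlib/RingTheory/Polynomial/IsIntegral.lean`): all coefficients of `f` are integral over `O`, so in `O` (a valuation subring is integrally closed
in `ℂ`: `ValuationSubring` is `IsIntegrallyClosed` with fraction field `ℂ`, or `O.integer` `Valuation.Integers`).
-/

namespace Pool.Agent.Lib.MP_06b9d2_tls

open PowerSeries Pool.Agent.L1

variable {O : ValuationSubring ℂ} {t : ℂ⟦X⟧}

theorem Ig_add {x y : ℂ⟦X⟧} (hx : Ig O t x) (hy : Ig O t y) : Ig O t (x + y) :=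
  RingHom.IsIntegralElem.add _ hx hy

theorem Ig_sub {x y : ℂ⟦X⟧} (hx : Ig O t x) (hy : Ig O t y) : Ig O t (x - y) :=
  RingHom.IsIntegralElem.sub _ hx hy

theorem Ig_mul {x y : ℂ⟦X⟧} (hx : Ig O t x) (hy : Ig O t y) : Ig O t (x * y) :=
  RingHom.IsIntegralElem.mul _ hx hy

theorem Ig_pow {x : ℂ⟦X⟧} (hx : Ig O t x) (n : ℕ) : Ig O t (x ^ n) := by
  induction n with
  | zero =>
    rw [pow_zero]
    exact RingHom.isIntegralElem_one _
  | succ n ih =>
    rw [pow_succ]
    exact Ig_mul ih hx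

theorem Ig_sum {ι : Type*} (s : Finset ι) {x : ι → ℂ⟦X⟧} (hx : ∀ i ∈ s, Ig O t (x i)) :
    Ig O t (∑ i ∈ s, x i) :=
  Finset.sum_induction x (fun z => Ig O t z) (fun _ _ => Ig_add)
    (RingHom.isIntegralElem_zero _) hx

theorem Ig_C {r : ℂ} (hr : O.valuation r ≤ 1) : Ig O t (C r) := by
  have hr' : r ∈ O := (O.valuation_le_one_iff r).1 hr
  have h := RingHom.isIntegralElem_map
    (f := Polynomial.eval₂RingHom ((C : ℂ →+* ℂ⟦X⟧).comp O.subtype) t) (x := Polynomial.C ⟨r, hr'⟩)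
  rw [Polynomial.coe_eval₂RingHom, Polynomial.eval₂_C] at h
  exact h

theorem Ig_smul {r : ℂ} (hr : O.valuation r ≤ 1) {x : ℂ⟦X⟧} (hx : Ig O t x) : Ig O t (r • x) := by
  rw [PowerSeries.smul_eq_C_mul]
  exact Ig_mul (Ig_C hr) hx

theorem Ig_t : Ig O t t := by
  have h := RingHom.isIntegralElem_map
    (f := Polynomial.eval₂RingHom ((C : ℂ →+* ℂ⟦X⟧).comp O.subtype) t) (x := Polynomial.X)
  rw [Polynomial.coe_eval₂RingHom, Polynomial.eval₂_X] at h
  exact h

private theorem lift_poly (p : Polynomial ℂ) (hp : ∀ r, O.valuation (p.coeff r) ≤ 1) :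
    ∃ P : Polynomial O, Polynomial.eval₂ ((C : ℂ →+* ℂ⟦X⟧).comp O.subtype) t P =
      Polynomial.aeval t p := by
  refine ⟨∑ r ∈ Finset.range (p.natDegree + 1),
    Polynomial.C (⟨p.coeff r, (O.valuation_le_one_iff _).1 (hp r)⟩ : O) * Polynomial.X ^ r, ?_⟩
  rw [Polynomial.eval₂_finsetSum, Polynomial.aeval_eq_sum_range]
  refine Finset.sum_congr rfl fun r _ => ?_
  rw [Polynomial.eval₂_mul, Polynomial.eval₂_C, Polynomial.eval₂_X_pow, PowerSeries.smul_eq_C_mul]
  rfl

theorem Ig_root (n : ℕ) (z : ℂ⟦X⟧) (p : ℕ → Polynomial ℂ)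
    (hp : ∀ i < n, ∀ r, O.valuation ((p i).coeff r) ≤ 1)
    (hz : z ^ n + ∑ i ∈ Finset.range n, Polynomial.aeval t (p i) * z ^ i = 0) : Ig O t z := by
  have hl : ∀ i : ℕ, ∃ P : Polynomial O, i < n →
      Polynomial.eval₂ ((C : ℂ →+* ℂ⟦X⟧).comp O.subtype) t P = Polynomial.aeval t (p i) := by
    intro i
    by_cases hi : i < n
    · obtain ⟨P, hP⟩ := lift_poly (t := t) (p i) (hp i hi)
      exact ⟨P, fun _ => hP⟩
    · exact ⟨0, fun h => absurd h hi⟩
  choose P hP using hl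
  refine ⟨Polynomial.X ^ n + ∑ i ∈ Finset.range n, Polynomial.C (P i) * Polynomial.X ^ i, ?_, ?_⟩
  · apply Polynomial.monic_X_pow_add
    refine (Polynomial.degree_sum_le _ _).trans_lt ?_
    refine (Finset.sup_lt_iff (WithBot.bot_lt_coe n)).2 fun i hi => ?_
    exact (Polynomial.degree_C_mul_X_pow_le _ _).trans_lt
      (WithBot.coe_lt_coe.2 (Finset.mem_range.1 hi))
  · rw [Polynomial.eval₂_add, Polynomial.eval₂_X_pow, Polynomial.eval₂_finsetSum, ← hz]
    congr 1
    refine Finset.sum_congr rfl fun i hi => ?_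
    rw [Polynomial.eval₂_mul, Polynomial.eval₂_C, Polynomial.eval₂_X_pow,
      Polynomial.coe_eval₂RingHom, hP i (Finset.mem_range.1 hi)]

end Pool.Agent.Lib.MP_06b9d2_tls
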