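import Pool.Agent.Lib.L1.Span

/-!
Board TLS, level two. The level one forms in terms of the level two functions `a`, `g`: with
`β = a ^ 2 - g`, `γ = g`: `E4 = β + 4 γ`, `E6 = a (β - 8 γ)`, `64 Δ = β ^ 2 γ`, `a ^ 2 = β + γ`. The forms of
weight `k = 4 N + 2 e` (`e ≤ 1`) are the combinations of `a ^ e β ^ (N - s) γ ^ s`, `s ≤ N`.
-/

namespace Pool.Agent.Lib.MP_06b9d2_tls

open PowerSeries Pool.Agent.L1

/-- `E_4` and `E_6` in terms of the level two functions `a`, `g` -/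
structure Lv2 (a g : ℂ⟦X⟧) : Prop where
  ca : constantCoeff a = 1
  h4 : e4 ℂ = a ^ 2 + 3 * g
  h6 : e6 ℂ = a * (a ^ 2 - 9 * g)

/-- the form `a ^ e (a ^ 2 - g) ^ (N - s) g ^ s` of weight `4 N + 2 e` -/
noncomputable def mo2 (a g : ℂ⟦X⟧) (e N s : ℕ) : ℂ⟦X⟧ :=
  a ^ e * (a ^ 2 - g) ^ (N - s) * g ^ s

private theorem cn (n : ℕ) [n.AtLeastTwo] : constantCoeff (R := ℂ) (OfNat.ofNat n : ℂ⟦X⟧) = OfNat.ofNat n :=
  map_ofNat constantCoeff n

theorem lv2_dl {a g : ℂ⟦X⟧} (h : Lv2 a g) : 64 * dl ℂ = (a ^ 2 - g) ^ 2 * g := by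
  have h1 : e4 ℂ ^ 3 - e6 ℂ ^ 2 = 1728 * dl ℂ := e4_cube
  rw [h.h4, h.h6] at h1
  have h27 : (27 : ℂ⟦X⟧) ≠ 0 := by
    intro h
    have h2 := congrArg constantCoeff h
    rw [cn, map_zero] at h2
    norm_num at h2
  apply mul_left_cancel₀ h27
  linear_combination -h1

theorem lv2_g {a g : ℂ⟦X⟧} (h : Lv2 a g) : ∃ u : ℂ⟦X⟧, constantCoeff u = 64 ∧ g = X * u := by
  have hc0 : constantCoeff g = 0 := by
    have h1 := congrArg constantCoeff h.h4
    rw [constCoeff_e4, map_add, map_mul, map_pow, cn, h.ca] at h1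
    linear_combination (-1 / 3 : ℂ) * h1
  have hb : constantCoeff ((a ^ 2 - g) ^ 2) = 1 := by
    rw [map_pow, map_sub, map_pow, h.ca, hc0]
    norm_num
  have hb0 : constantCoeff ((a ^ 2 - g) ^ 2) ≠ 0 := by
    rw [hb]
    exact one_ne_zero
  have hinv : (a ^ 2 - g) ^ 2 * ((a ^ 2 - g) ^ 2)⁻¹ = 1 :=
    PowerSeries.mul_inv_cancel _ hb0
  have hd := lv2_dl h
  rw [dl_eq] at hd
  refine ⟨64 * (PowerSeries.map (Int.castRingHom ℂ) Ulz * ((a ^ 2 - g) ^ 2)⁻¹), ?_, ?_⟩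
  · have h2 := congrArg constantCoeff hinv
    rw [map_mul, hb, one_mul, map_one] at h2
    rw [map_mul, map_mul, h2, mul_one, ← coeff_zero_eq_constantCoeff_apply (φ := PowerSeries.map _ _),
      coeff_map, coeff_zero_eq_constantCoeff_apply, constCoeff_Ulz, cn]
    simp
  · calc g = g * ((a ^ 2 - g) ^ 2 * ((a ^ 2 - g) ^ 2)⁻¹) := by rw [hinv, mul_one]
      _ = ((a ^ 2 - g) ^ 2 * g) * ((a ^ 2 - g) ^ 2)⁻¹ := by ring
      _ = X * (64 * (PowerSeries.map (Int.castRingHom ℂ) Ulz * ((a ^ 2 - g) ^ 2)⁻¹)) := by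
        rw [← hd]
        ring

/-- `mo2` is `X ^ s` times a series with the constant coefficient `64 ^ s` -/
theorem mo2_eq {a g : ℂ⟦X⟧} (h : Lv2 a g) (e N s : ℕ) :
    ∃ w : ℂ⟦X⟧, constantCoeff w = (64 : ℂ) ^ s ∧ mo2 a g e N s = X ^ s * w := by
  obtain ⟨u, hu1, hu2⟩ := lv2_g h
  refine ⟨a ^ e * (a ^ 2 - g) ^ (N - s) * u ^ s, ?_, ?_⟩
  · have hc : constantCoeff g = 0 := by
      rw [hu2, map_mul, constantCoeff_X, zero_mul]
    simp only [map_mul, map_pow, map_sub, h.ca, hc, hu1]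
    simp
  · calc mo2 a g e N s = a ^ e * (a ^ 2 - g) ^ (N - s) * g ^ s := rfl
      _ = a ^ e * (a ^ 2 - g) ^ (N - s) * (X * u) ^ s := by rw [← hu2]
      _ = X ^ s * (a ^ e * (a ^ 2 - g) ^ (N - s) * u ^ s) := by rw [mul_pow]; ring

theorem ind2 {a g : ℂ⟦X⟧} (h : Lv2 a g) (e N : ℕ) (y : ℕ → ℂ)
    (hy : ∑ s ∈ Finset.range (N + 1), y s • mo2 a g e N s = 0) : ∀ s ≤ N, y s = 0 := by
  intro s
  induction s using Nat.strong_induction_on with
  | _ s ih =>
    intro hs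
    have h1 := congrArg (coeff s) hy
    rw [map_sum, map_zero] at h1
    rw [Finset.sum_eq_single s] at h1
    · obtain ⟨w, hw1, hw⟩ := mo2_eq h e N s
      rw [coeff_smul, hw, coeff_X_pow_mul', if_pos le_rfl, Nat.sub_self,
        coeff_zero_eq_constantCoeff_apply, hw1, smul_eq_mul] at h1
      rcases mul_eq_zero.1 h1 with h2 | h2
      · exact h2
      · exact absurd h2 (pow_ne_zero _ (by norm_num))
    · intro t ht hts
      rw [coeff_smul, smul_eq_mul]
      rcases Nat.lt_or_gt_of_ne hts with h2 | h2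
      · rw [ih t h2 (by omega), zero_mul]
      · obtain ⟨w, _, hw⟩ := mo2_eq h e N t
        rw [hw, coeff_X_pow_mul', if_neg (by omega), mul_zero]
    · intro h2
      exact absurd (Finset.mem_range.2 (by omega)) h2

/-- the polynomial of `rep2` -/
noncomputable def repP2 (j b bb : ℕ) : Polynomial ℂ :=
  Polynomial.X ^ j * (Polynomial.C (((64 : ℂ)⁻¹) ^ j) *
    (1 + Polynomial.C 4 * Polynomial.X) ^ b *
    (1 - Polynomial.C 8 * Polynomial.X) ^ bb)

theorem repP2_deg (j b bb : ℕ) : (repP2 j b bb).natDegree ≤ j + b + bb := by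
  unfold repP2
  have h2 : (1 + Polynomial.C 4 * Polynomial.X : Polynomial ℂ).natDegree ≤ 1 := by compute_degree
  have h3 : (1 - Polynomial.C 8 * Polynomial.X : Polynomial ℂ).natDegree ≤ 1 := by compute_degree
  have e2 := Polynomial.natDegree_pow_le_of_le b h2
  have e3 := Polynomial.natDegree_pow_le_of_le bb h3
  have e0 : (Polynomial.C (((64 : ℂ)⁻¹) ^ j)).natDegree ≤ 0 := by simp
  have e4 := Polynomial.natDegree_mul_le_of_le (Polynomial.natDegree_X_pow_le (R := ℂ) j)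
    (Polynomial.natDegree_mul_le_of_le (Polynomial.natDegree_mul_le_of_le e0 e2) e3)
  refine e4.trans ?_
  nlinarith

theorem rep2 {a g : ℂ⟦X⟧} (h : Lv2 a g) (k N j : ℕ) (hN : 4 * N + 2 * bb k = k) (hj : j < dd k) :
    ∃ y : ℕ → ℂ,
    (∀ s, s < j → y s = 0) ∧ y j ≠ 0 ∧ (∀ s, N - 2 * j < s → y s = 0) ∧ 3 * j ≤ N ∧
      bas ℂ k j = ∑ s ∈ Finset.range (N + 1), y s • mo2 a g (bb k) N s := by
  have hk := ba_eq hj
  have hN' : 2 * j + (j + ba k j + bb k) = N := by omega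
  refine ⟨(repP2 j (ba k j) (bb k)).coeff, ?_, ?_, ?_, by omega, ?_⟩
  · intro s hs
    rw [repP2, Polynomial.coeff_X_pow_mul', if_neg (by omega)]
  · rw [repP2, Polynomial.coeff_X_pow_mul', if_pos le_rfl, Nat.sub_self,
      Polynomial.coeff_zero_eq_eval_zero]
    simp
  · intro s hs
    exact Polynomial.coeff_eq_zero_of_natDegree_lt
      (lt_of_le_of_lt (repP2_deg j (ba k j) (bb k)) (by omega))
  · obtain ⟨u, hu1, hu2⟩ := lv2_g h
    have hb1 : constantCoeff (a ^ 2 - g) = 1 := by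
      rw [map_sub, map_pow, h.ca, hu2, map_mul, constantCoeff_X]
      norm_num
    have hbu : (a ^ 2 - g) * (a ^ 2 - g)⁻¹ = 1 :=
      PowerSeries.mul_inv_cancel _ (by rw [hb1]; exact one_ne_zero)
    have hdl := lv2_dl h
    have h4 := h.h4
    have h6 := h.h6
    have ha2 : a ^ 2 = (a ^ 2 - g) + g := by ring
    generalize hβ : a ^ 2 - g = β at *
    set t := g * β⁻¹ with ht
    have hbt : β * t = g := by rw [ht, mul_left_comm, hbu, mul_one]
    have hdl' : dl ℂ = C ((64 : ℂ)⁻¹) * (β ^ 2 * g) := by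
      rw [← hdl, ← mul_assoc]
      have : (64 : ℂ⟦X⟧) = C (64 : ℂ) := (map_ofNat C 64).symm
      rw [this, ← map_mul]
      norm_num
    have h4' : e4 ℂ = β + 4 * g := by
      rw [h4, ha2]
      ring
    have h6' : e6 ℂ = a * (β - 8 * g) := by
      rw [h6, ha2]
      ring
    have hsum : ∑ s ∈ Finset.range (N + 1),
        (repP2 j (ba k j) (bb k)).coeff s • mo2 a g (bb k) N s
        = a ^ (bb k) * (β ^ N * Polynomial.aeval t (repP2 j (ba k j) (bb k))) := by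
      rw [Polynomial.aeval_eq_sum_range' (n := N + 1)
        (lt_of_le_of_lt (repP2_deg j (ba k j) (bb k)) (by omega)), Finset.mul_sum, Finset.mul_sum]
      refine Finset.sum_congr rfl fun s hs => ?_
      have hs' : s ≤ N := by
        have := Finset.mem_range.1 hs
        omega
      rw [mo2, hβ, mul_smul_comm, mul_smul_comm]
      congr 1
      rw [mul_assoc]
      congr 1
      conv_rhs => rw [← Nat.sub_add_cancel hs', pow_add, mul_assoc, ← mul_pow, hbt]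
    rw [hsum, bas, hdl', h4', h6', repP2]
    simp only [map_mul, map_pow, map_add, map_sub, map_one, Polynomial.aeval_X, Polynomial.aeval_C]
    have hC : ∀ x : ℂ, algebraMap ℂ ℂ⟦X⟧ x = C x := fun x => rfl
    simp only [hC]
    have c4 : C (4 : ℂ) = (4 : ℂ⟦X⟧) := map_ofNat C 4
    have c8 : C (8 : ℂ) = (8 : ℂ⟦X⟧) := map_ofNat C 8
    rw [c4, c8]
    have q2 : β * (1 + 4 * t) = β + 4 * g := by rw [← hbt]; ring
    have q3 : β * (1 - 8 * t) = β - 8 * g := by
      rw [← hbt]; ring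
    have hpow : β ^ N = (β ^ 2) ^ j * β ^ j * β ^ (ba k j) * β ^ (bb k) := by
      rw [← hN']
      ring
    rw [hpow, ← q2, ← q3]
    have e2 : g ^ j = β ^ j * t ^ j := by rw [← mul_pow, hbt]
    simp only [mul_pow] at *
    rw [e2]
    ring

end Pool.Agent.Lib.MP_06b9d2_tls
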