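import Pool.Agent.Lib.MP_06b9d2_tls.KerG
import Pool.Agent.Lib.MP_06b9d2_tls.Lv2

/-!
Board TLS, level two. The eigenspaces of `T_l` on cusp forms have dimension at most one.
-/

namespace Pool.Agent.Lib.MP_06b9d2_tls

open PowerSeries Pool.Agent.L1 UpperHalfPlane Pool.Agent.Lib.MP_06b9d2_nt
open scoped MatrixGroups ModularForm

/-- what is used about the prime `l` (level two) -/
def Hyp2 (l : ℕ) : Prop := ∃ a g : ℂ⟦X⟧, Lv2 a g ∧ ∀ e N : ℕ, e ≤ 1 →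
  ∃ Mx : ℕ → ℕ → ℂ,
    (∀ s ≤ N, Tl l (4 * N + 2 * e) (mo2 a g e N s) =
      ∑ j ∈ Finset.range (N + 1), Mx j s • mo2 a g e N j) ∧
    (∀ j s, j ≤ N → s ≤ N → Mx (N - j) (N - s) = Mx j s) ∧ Two Mx N

theorem ker_le2 (l : ℕ) (hl : l.Prime) (H : Hyp2 l) (k : ℕ) (hk : Even k)
    (T : CuspForm 𝒮ℒ (k : ℤ) →ₗ[ℂ] CuspForm 𝒮ℒ (k : ℤ)) (hT : IsHecke (k : ℤ) l T) (lam : ℂ) :
    Module.finrank ℂ (LinearMap.ker (T - lam • LinearMap.id)) ≤ 1 := by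
  obtain ⟨a, g, h, hM⟩ := H
  by_cases hd : dd k = 0
  · obtain ⟨Φ, hΦb, hΦ⟩ := Pool.Agent.Lib.MP_06b9d2_nt.MU.Phi_ex k
    have : Subsingleton (CuspForm 𝒮ℒ (k : ℤ)) := by
      have : IsEmpty (Fin (dd k - 1)) := by
        rw [hd]
        exact Fin.isEmpty'
      exact hΦb.1.subsingleton
    rw [Module.finrank_zero_of_subsingleton]
    exact Nat.zero_le _
  have hj := ba_eq (Nat.pos_of_ne_zero hd)
  obtain ⟨N, hN⟩ : ∃ N, N = ba k 0 + bb k := ⟨_, rfl⟩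
  have hk4 : 4 * N + 2 * bb k = k := by omega
  obtain ⟨Mx, hMx, hsym, h2⟩ := hM (bb k) N (bb_le_one k)
  rw [hk4] at hMx
  refine ker_gen l hl k N (mo2 a g (bb k) N) Mx hMx hsym h2 (fun x hx => ind2 h _ N x hx) ?_ T hT
    lam
  intro j _ hj
  obtain ⟨y, y1, y2, y3, y4, y5⟩ := rep2 h k N j hk4 hj
  exact ⟨y, y1, y2, fun s hs => y3 s (by omega), by omega, y5⟩

end Pool.Agent.Lib.MP_06b9d2_tls
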