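import Pool.Agent.Lib.MP_06b9d2_nt.MU.Mtx
import Pool.Agent.Lib.MP_06b9d2_nt.ME.HeckeN

/-!
Board TLS. The integral matrix of `T_n` on cusp forms, for all `n > 0` (adapted from `MU/MtxN.lean`).
-/

namespace Pool.Agent.Lib.MP_06b9d2_tls

open UpperHalfPlane Pool.Agent.L1 Pool.Agent.Lib.MP_06b9d2_nt Pool.Agent.Lib.MP_06b9d2_nt.MU
open scoped MatrixGroups ModularForm

/-- the `q`-expansion as a linear map -/
private noncomputable def qL (k : ℤ) : CuspForm 𝒮ℒ k →ₗ[ℂ] PowerSeries ℂ where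
  toFun f := qExpansion 1 f
  map_add' f g := ModularForm.qExpansion_add one_pos one_mem_strictPeriods_SL f g
  map_smul' c f := ModularForm.qExpansion_smul one_pos one_mem_strictPeriods_SL c f

private lemma qL_inj (k : ℤ) : Function.Injective (qL k) := by
  rw [← LinearMap.ker_eq_bot, LinearMap.ker_eq_bot']
  intro f hf
  have h1 : qExpansion 1 (CuspForm.toModularFormₗ f) = 0 := hf
  have h2 := (ModularForm.qExpansion_eq_zero_iff one_pos one_mem_strictPeriods_SL
    (CuspForm.toModularFormₗ f)).1 h1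
  apply CuspForm.toModularFormₗ_injective
  rw [h2, map_zero]

private noncomputable def Psi (R : Type) [CommRing R] (k : ℕ) :
    (Fin (dd k - 1) → R) →ₗ[R] PowerSeries R :=
  Fintype.linearCombination R (fun j : Fin (dd k - 1) => bas R k ((j : ℕ) + 1))

private lemma Psi_apply (R : Type) [CommRing R] (k : ℕ) (c : Fin (dd k - 1) → R) :
    Psi R k c = ∑ j, c j • bas R k ((j : ℕ) + 1) := by
  rw [Psi, Fintype.linearCombination_apply]

private lemma Psi_inj (R : Type) [CommRing R] (k : ℕ) : Function.Injective (Psi R k) := by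
  rw [← LinearMap.ker_eq_bot, LinearMap.ker_eq_bot']
  intro c hc
  rw [Psi_apply] at hc
  have h1 := (linearIndependent_bas (R := R) k).comp
    (fun j : Fin (dd k - 1) => (⟨(j : ℕ) + 1, by have := j.2; omega⟩ : Fin (dd k)))
    (by
      intro a b hab
      have h2 := congrArg Fin.val hab
      apply Fin.ext
      simpa using h2)
  rw [Fintype.linearIndependent_iff] at h1
  funext j
  exact h1 c hc j

private lemma Psi_mem (R : Type) [CommRing R] (k : ℕ) (c : Fin (dd k - 1) → R) :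
    Psi R k c ∈ ML R k := by
  rw [Psi_apply]
  refine Submodule.sum_mem _ fun j _ => Submodule.smul_mem _ _ (Submodule.subset_span ?_)
  exact ⟨⟨(j : ℕ) + 1, by have := j.2; omega⟩, rfl⟩

private lemma Psi_coeff (R : Type) [CommRing R] (k : ℕ) (c : Fin (dd k - 1) → R) :
    PowerSeries.coeff 0 (Psi R k c) = 0 := by
  rw [Psi_apply, map_sum]
  refine Finset.sum_eq_zero fun j _ => ?_
  rw [PowerSeries.coeff_smul, coeff_bas_lt (Nat.succ_pos _), smul_zero]

private lemma Psi_ex (R : Type) [CommRing R] (k : ℕ) {g : PowerSeries R} (hg : g ∈ ML R k)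
    (h0 : PowerSeries.coeff 0 g = 0) : ∃ c : Fin (dd k - 1) → R, g = Psi R k c := by
  obtain ⟨c, hc⟩ := mem_ML_iff.1 hg
  rcases Nat.eq_zero_or_pos (dd k) with hd | hd
  · refine ⟨0, ?_⟩
    rw [hc, map_zero]
    refine Finset.sum_eq_zero fun j hj => ?_
    rw [Finset.mem_range] at hj
    omega
  · refine ⟨fun j => c ((j : ℕ) + 1), ?_⟩
    have h1 : ∑ j ∈ Finset.range (dd k), c j • bas R k j =
        ∑ j ∈ Finset.range (dd k - 1), c (j + 1) • bas R k (j + 1) + c 0 • bas R k 0 := by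
      rw [← Finset.sum_range_succ' (fun j => c j • bas R k j), Nat.sub_add_cancel hd]
    have h2 : c 0 = 0 := by
      rw [hc, h1, map_add, map_sum, Finset.sum_eq_zero, zero_add, PowerSeries.coeff_smul,
        coeff_bas_self, smul_eq_mul, mul_one] at h0
      · exact h0
      · intro j _
        rw [PowerSeries.coeff_smul, coeff_bas_lt (Nat.succ_pos _), smul_zero]
    rw [hc, h1, h2, zero_smul, add_zero, Psi_apply]
    exact (Fin.sum_univ_eq_sum_range (fun j => c (j + 1) • bas R k (j + 1)) (dd k - 1)).symm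

private lemma map_smul_ps {R S : Type} [CommRing R] [CommRing S] (φ : R →+* S) (r : R)
    (f : PowerSeries R) : PowerSeries.map φ (r • f) = φ r • PowerSeries.map φ f := by
  ext n
  rw [PowerSeries.coeff_map, PowerSeries.coeff_smul, PowerSeries.coeff_smul,
    PowerSeries.coeff_map, smul_eq_mul, smul_eq_mul, map_mul]

private lemma Psi_map {S : Type} [CommRing S] (φ : ℤ →+* S) (k : ℕ)
    (c : Fin (dd k - 1) → ℤ) :
    PowerSeries.map φ (Psi ℤ k c) = Psi S k (fun j => φ (c j)) := by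
  rw [Psi_apply, Psi_apply, map_sum]
  refine Finset.sum_congr rfl fun j _ => ?_
  rw [map_smul_ps, map_bas]

private noncomputable def TZ (R : Type) [CommRing R] (k n : ℕ) (f : PowerSeries R) :
    PowerSeries R :=
  PowerSeries.mk fun m => if m = 0 then 0 else
    ∑ d ∈ (Nat.gcd m n).divisors, (d : R) ^ (k - 1) * PowerSeries.coeff (m * n / d ^ 2) f

private lemma map_TZ {S : Type} [CommRing S] (φ : ℤ →+* S) (k n : ℕ)
    (f : PowerSeries ℤ) : PowerSeries.map φ (TZ ℤ k n f) = TZ S k n (PowerSeries.map φ f) := by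
  ext m
  rw [PowerSeries.coeff_map, TZ, TZ, PowerSeries.coeff_mk, PowerSeries.coeff_mk]
  split_ifs
  · rw [map_zero]
  · rw [map_sum]
    refine Finset.sum_congr rfl fun d _ => ?_
    rw [map_mul, map_pow, map_natCast, PowerSeries.coeff_map]

theorem MtxI (k n : ℕ) (hn : 0 < n)
    (T : CuspForm 𝒮ℒ (k : ℤ) →ₗ[ℂ] CuspForm 𝒮ℒ (k : ℤ)) (hT : IsHecke (k : ℤ) n T) :
    ∃ (M : Matrix (Fin (dd k - 1)) (Fin (dd k - 1)) ℤ)
      (Φ : CuspForm 𝒮ℒ (k : ℤ) →ₗ[ℂ] (Fin (dd k - 1) → ℂ)), Function.Bijective Φ ∧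
      ∀ f, Φ (T f) = (M.map (Int.cast : ℤ → ℂ)).mulVec (Φ f) := by
  have : NeZero n := ⟨hn.ne'⟩
  obtain ⟨Φ, hΦ, hq⟩ := Phi_ex k
  have hq' : ∀ f : CuspForm 𝒮ℒ (k : ℤ), qExpansion 1 f = Psi ℂ k (Φ f) := by
    intro f
    rw [hq, Psi_apply]
  have hk12 : ∀ _ : Fin (dd k - 1), 12 ≤ k := by
    intro j
    have h1 := j.2
    have h2 := dd_le k
    omega
  have hTf : ∀ (j : Fin (dd k - 1)) (f : CuspForm 𝒮ℒ (k : ℤ)), Φ f = Pi.single j 1 →
      PowerSeries.map (Int.castRingHom ℂ) (TZ ℤ k n (bas ℤ k ((j : ℕ) + 1))) =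
        qExpansion 1 (T f) := by
    intro j f hf
    have hkj := hk12 j
    have hqf : qExpansion 1 f = bas ℂ k ((j : ℕ) + 1) := by
      rw [hq, hf, Finset.sum_eq_single j]
      · rw [Pi.single_eq_same, one_smul]
      · intro i _ hi
        rw [Pi.single_eq_of_ne hi, zero_smul]
      · intro h
        exact absurd (Finset.mem_univ j) h
    ext m
    rw [map_TZ, map_bas, TZ, PowerSeries.coeff_mk]
    rcases Nat.eq_zero_or_pos m with hm | hm
    · subst hm
      rw [if_pos rfl]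
      exact (CuspFormClass.qExpansion_coeff_zero (T f) one_pos one_mem_strictPeriods_SL).symm
    · rw [if_neg hm.ne', ME.hecke_qn hT f m hm, hqf]
      refine Finset.sum_congr rfl fun d _ => ?_
      have h3 : (k : ℤ) - 1 = ((k - 1 : ℕ) : ℤ) := by omega
      rw [h3, zpow_natCast]
  have hW : ∀ j : Fin (dd k - 1), ∃ c : Fin (dd k - 1) → ℤ,
      TZ ℤ k n (bas ℤ k ((j : ℕ) + 1)) = Psi ℤ k c := by
    intro j
    obtain ⟨f, hf⟩ := hΦ.2 (Pi.single j 1)
    apply Psi_ex
    · exact form_descend (Int.castRingHom ℂ) Int.cast_injective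
        (CuspForm.toModularFormₗ (T f)) (hTf j f hf)
    · rw [TZ, PowerSeries.coeff_mk, if_pos rfl]
  choose c hc using hW
  refine ⟨Matrix.of fun i j => c j i, Φ, hΦ, ?_⟩
  · obtain ⟨e, he⟩ : ∃ e : CuspForm 𝒮ℒ (k : ℤ) ≃ₗ[ℂ] (Fin (dd k - 1) → ℂ), ∀ f, e f = Φ f :=
      ⟨LinearEquiv.ofBijective Φ hΦ, fun _ => rfl⟩
    have hlin : Φ ∘ₗ T ∘ₗ e.symm.toLinearMap =
        Matrix.toLin' ((Matrix.of fun i j => c j i).map (Int.cast : ℤ → ℂ)) := by
      apply (Pi.basisFun ℂ (Fin (dd k - 1))).ext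
      intro j
      rw [Pi.basisFun_apply, LinearMap.comp_apply, LinearMap.comp_apply, LinearEquiv.coe_coe,
        Matrix.toLin'_apply, Matrix.mulVec_single_one]
      have hf : Φ (e.symm (Pi.single j 1)) = Pi.single j 1 := by
        rw [← he, LinearEquiv.apply_symm_apply]
      apply Psi_inj ℂ k
      rw [← hq', ← hTf j _ hf, hc, Psi_map]
      rfl
    intro f
    have h1 := LinearMap.congr_fun hlin (e f)
    rw [LinearMap.comp_apply, LinearMap.comp_apply, LinearEquiv.coe_coe,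
      LinearEquiv.symm_apply_apply, Matrix.toLin'_apply, he] at h1
    exact h1

end Pool.Agent.Lib.MP_06b9d2_tls
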