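import Pool.Agent.Lib.MP_06b9d2_tls.Ker
import Pool.Agent.Lib.MP_06b9d2_tls.Ker2
import Pool.Agent.Lib.MP_06b9d2_tls.MtxI

/-!
Board TLS. Assembly: if the eigenspaces of `T_n` have dimension at most one then the spectrum is simple.
-/

namespace Pool.Agent.Lib.MP_06b9d2_tls

open UpperHalfPlane Pool.Agent.L1 Pool.Agent.Lib.MP_06b9d2_nt
open Pool.Agent.Lib.MP_06b9d2_ssp (sep_charpoly comm_poly)
open scoped MatrixGroups ModularForm

/-- all eigenspaces of `T_n` on cusp forms of even weights `k ≥ 0` are at most one dimensional -/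
def KerOne (n : ℕ) : Prop := ∀ (k : ℕ) (_ : Even k)
  (T : CuspForm 𝒮ℒ (k : ℤ) →ₗ[ℂ] CuspForm 𝒮ℒ (k : ℤ)) (_ : IsHecke (k : ℤ) n T) (lam : ℂ),
    Module.finrank ℂ (LinearMap.ker (T - lam • LinearMap.id)) ≤ 1

theorem ker_leZ {n : ℕ} (H : KerOne n) (k : ℤ) (hk : Even k) [Module.Finite ℂ (CuspForm 𝒮ℒ k)]
    (T : CuspForm 𝒮ℒ k →ₗ[ℂ] CuspForm 𝒮ℒ k) (hT : IsHecke k n T) (lam : ℂ) :
    Module.finrank ℂ (LinearMap.ker (T - lam • LinearMap.id)) ≤ 1 := by
  rcases lt_or_ge k 0 with hneg | hpos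
  · have h1 : Module.finrank ℂ (CuspForm 𝒮ℒ k) = 0 := by
      rw [Module.finrank, CuspForm.rank_eq_zero_of_weight_lt_twelve (by omega)]
      exact Cardinal.zero_toNat
    have h2 := Submodule.finrank_le (LinearMap.ker (T - lam • LinearMap.id))
    rw [h1, Nat.le_zero] at h2
    rw [h2]
    exact Nat.zero_le 1
  · obtain ⟨m, rfl⟩ := Int.eq_ofNat_of_zero_le hpos
    have hm : Even m := by exact_mod_cast hk
    exact H m hm T hT lam

theorem sep {n : ℕ} [NeZero n] (H : KerOne n) (k : ℤ) (hk : Even k)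
    [Module.Finite ℂ (CuspForm 𝒮ℒ k)]
    (T : CuspForm 𝒮ℒ k →ₗ[ℂ] CuspForm 𝒮ℒ k) (hT : IsHecke k n T) :
    (LinearMap.charpoly T).Separable :=
  sep_charpoly (semi_n hT) (ker_leZ H k hk T hT)

theorem comm {n : ℕ} [NeZero n] (H : KerOne n) (k : ℤ) (hk : Even k)
    [Module.Finite ℂ (CuspForm 𝒮ℒ k)]
    (T : CuspForm 𝒮ℒ k →ₗ[ℂ] CuspForm 𝒮ℒ k) (hT : IsHecke k n T)
    (S : CuspForm 𝒮ℒ k →ₗ[ℂ] CuspForm 𝒮ℒ k) (hS : Commute S T) :
    ∃ P : Polynomial ℂ, S = Polynomial.aeval T P :=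
  comm_poly (semi_n hT) (ker_leZ H k hk T hT) S hS

/-- the characteristic polynomial has integral coefficients -/
theorem int_charpoly {n : ℕ} (hn : 0 < n) (k : ℤ) [Module.Finite ℂ (CuspForm 𝒮ℒ k)]
    (T : CuspForm 𝒮ℒ k →ₗ[ℂ] CuspForm 𝒮ℒ k) (hT : IsHecke k n T) :
    ∃ F : Polynomial ℤ, F.Monic ∧ F.map (Int.castRingHom ℂ) = LinearMap.charpoly T := by
  rcases lt_or_ge k 0 with hneg | hpos
  · have h1 : Module.finrank ℂ (CuspForm 𝒮ℒ k) = 0 := by
      rw [Module.finrank, CuspForm.rank_eq_zero_of_weight_lt_twelve (by omega)]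
      exact Cardinal.zero_toNat
    have h2 : LinearMap.charpoly T = 1 := by
      have h3 := LinearMap.charpoly_natDegree T
      rw [h1] at h3
      exact (LinearMap.charpoly_monic T).natDegree_eq_zero.1 h3
    exact ⟨1, Polynomial.monic_one, by rw [h2, Polynomial.map_one]⟩
  · obtain ⟨m, rfl⟩ := Int.eq_ofNat_of_zero_le hpos
    obtain ⟨M, Φ, hΦ, hTM⟩ := MtxI m n hn T hT
    refine ⟨M.charpoly, M.charpoly_monic, ?_⟩
    let e : CuspForm 𝒮ℒ (m : ℤ) ≃ₗ[ℂ] (Fin (dd m - 1) → ℂ) := LinearEquiv.ofBijective Φ hΦ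
    have h1 : e.conj T = Matrix.toLin' (M.map (Int.castRingHom ℂ)) := by
      apply LinearMap.ext
      intro v
      rw [LinearEquiv.conj_apply_apply, Matrix.toLin'_apply]
      have h2 := hTM (e.symm v)
      have h3 : Φ (e.symm v) = v := e.apply_symm_apply v
      rw [h3] at h2
      exact h2
    rw [← LinearEquiv.charpoly_conj e T, h1, Matrix.charpoly_toLin', Matrix.charpoly_map]

theorem main {n : ℕ} [NeZero n] (H : KerOne n) (k : ℤ) (hk : Even k)
    [Module.Finite ℂ (CuspForm 𝒮ℒ k)]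
    (T : CuspForm 𝒮ℒ k →ₗ[ℂ] CuspForm 𝒮ℒ k) (hT : IsHecke k n T) :
    ∃ F : Polynomial ℤ, F.Monic ∧ F.map (Int.castRingHom ℂ) = LinearMap.charpoly T ∧
      Squarefree (F.map (Int.castRingHom ℚ)) ∧
      (LinearMap.charpoly T).roots.toFinset.card = Module.finrank ℂ (CuspForm 𝒮ℒ k) := by
  classical
  obtain ⟨F, hF, hFT⟩ := int_charpoly (Nat.pos_of_ne_zero (NeZero.ne n)) k T hT
  have hsep := sep H k hk T hT
  refine ⟨F, hF, hFT, ?_, ?_⟩
  · have h1 : ((F.map (Int.castRingHom ℚ)).map (algebraMap ℚ ℂ)).Separable := by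
      rw [Polynomial.map_map]
      have h2 : (algebraMap ℚ ℂ).comp (Int.castRingHom ℚ) = Int.castRingHom ℂ :=
        RingHom.ext_int _ _
      rw [h2, hFT]
      exact hsep
    exact ((Polynomial.separable_map (algebraMap ℚ ℂ)).1 h1).squarefree
  · rw [Multiset.toFinset_card_of_nodup (Polynomial.nodup_roots hsep),
      ← LinearMap.charpoly_natDegree T]
    exact IsAlgClosed.card_roots_eq_natDegree

theorem kerOne_of_hypL {l : ℕ} (hl : l.Prime) (H : HypL l) : KerOne l :=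
  fun k hk T hT lam => ker_le l hl H k hk T hT lam

theorem kerOne_of_hyp2 {l : ℕ} (hl : l.Prime) (H : Hyp2 l) : KerOne l :=
  fun k hk T hT lam => ker_le2 l hl H k hk T hT lam

end Pool.Agent.Lib.MP_06b9d2_tls
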