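import Pool.Agent.Lib.MP_06b9d2_tls.DefsB

/-!
Board TLS: definitions for the formal part (from `Core` to the data of `DefsB`).
-/

namespace Pool.Agent.Lib.MP_06b9d2_tls

open PowerSeries Pool.Agent.L1

/-- a twelfth root of `3` -/
noncomputable def pr : ℂ := (((3 : ℝ) ^ ((1 : ℝ) / 12) : ℝ) : ℂ)

/-- all coefficients of `F` are in `r O` -/
def In (O : ValuationSubring ℂ) (F : ℂ⟦X⟧) (r : ℂ) : Prop :=
  ∀ n, O.valuation (coeff n F) ≤ O.valuation r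

/-- `c` is the content of `F` (and the content is attained) -/
def PC (O : ValuationSubring ℂ) (F : ℂ⟦X⟧) (c : ℂ) : Prop :=
  In O F c ∧ ∃ n, O.valuation (coeff n F) = O.valuation c

/-- `A = 1 + 3 (..)`, `Y = 3 κ` with `κ` primitive, no constant terms in `A - 1`, `Y` -/
structure Bs (O : ValuationSubring ℂ) (A Y : ℂ⟦X⟧) : Prop where
  a0 : constantCoeff A = 1
  y0 : constantCoeff Y = 0
  aI : In O (A - 1) 3
  yI : In O Y 3
  yP : ∃ n, O.valuation (coeff n Y) = O.valuation 3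

/-- evaluation of polynomials in two variables at the four cusps -/
noncomputable def ev (F G : Fin 4 → ℂ⟦X⟧) : MvPolynomial (Fin 2) ℂ →ₐ[ℂ] (Fin 4 → ℂ⟦X⟧) :=
  MvPolynomial.aeval ![F, G]

/-- the values at the four cusps of the homogeneous polynomials of degree `m` in `A`, `Y` -/
noncomputable def HH (A Y : ℂ⟦X⟧) (m : ℕ) : Submodule ℂ (Fin 4 → ℂ⟦X⟧) :=
  (MvPolynomial.homogeneousSubmodule (Fin 2) ℂ m).map (ev (cA 1 A Y) (cY 1 om A Y)).toLinearMap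

/-- `z` is integral over `O[t]` -/
def Ig (O : ValuationSubring ℂ) (t z : ℂ⟦X⟧) : Prop :=
  (Polynomial.eval₂RingHom ((C : ℂ →+* ℂ⟦X⟧).comp O.subtype) t).IsIntegralElem z

/-- the parameter `t = Y / A` -/
noncomputable def tt (A Y : ℂ⟦X⟧) : ℂ⟦X⟧ := Y * A⁻¹

/-- the constant `c` -/
noncomputable def cl (l : ℕ) (e : ℂ) : ℂ := l * ((l : ℂ) ^ 2 + e) / (l + 1)

/-- `u_i = (β_i - e c B) / 3` -/
noncomputable def ub (l : ℕ) (e : ℂ) (A Y : ℂ⟦X⟧) (i : Option (Fin l)) : ℂ⟦X⟧ :=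
  (1 / 3 : ℂ) • (br l e i A ^ 3 - br l e i Y ^ 3 - (e * cl l e) • (V l A ^ 3 - V l Y ^ 3))

/-- `v_i = (γ_i - c G) / 3` -/
noncomputable def vb (l : ℕ) (e : ℂ) (Y : ℂ⟦X⟧) (i : Option (Fin l)) : ℂ⟦X⟧ :=
  (1 / 3 : ℂ) • (br l e i Y ^ 3 - cl l e • V l Y ^ 3)

/-- the form `A ^ a B ^ (N - s) G ^ s`, `B = A ^ 3 - Y ^ 3`, `G = Y ^ 3` -/
noncomputable def moX (A Y : ℂ⟦X⟧) (a N s : ℕ) : ℂ⟦X⟧ := A ^ a * (A ^ 3 - Y ^ 3) ^ (N - s) * (Y ^ 3) ^ s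

instance fact_lt0 : Fact (0 < 3) := ⟨by norm_num⟩

instance fact_lt1 : Fact (1 < 3) := ⟨by norm_num⟩

instance fact_lt2 : Fact (2 < 3) := ⟨by norm_num⟩

/-- `M a N j s` is the matrix of `TT l e (3 N + a)` on the forms `moX A Y a N s`, `a = 0, 1, 2` -/
structure MatD (l : ℕ) (e : ℂ) (A Y : ℂ⟦X⟧) (M : ℕ → ℕ → ℕ → ℕ → ℂ) : Prop where
  eq : ∀ (a N s : ℕ) [Fact (a < 3)], s ≤ N → TT l e (3 * N + a) (moX A Y a N s) =
    ∑ j ∈ Finset.range (N + 1), M a N j s • moX A Y a N j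
  sym : ∀ (a N j s : ℕ) [Fact (a < 3)], j ≤ N → s ≤ N → M a N (N - j) (N - s) = e ^ (a + N) * M a N j s
  out : ∀ a N j s, N < j → M a N j s = 0

/-- the coefficients of `∑ x_i ^ a u_i ^ m v_i ^ n` -/
noncomputable def pc (e c : ℂ) (M : ℕ → ℕ → ℕ → ℕ → ℂ) (a m n r : ℕ) : ℂ :=
  (1 / 3) ^ (m + n) * ∑ i ∈ Finset.range (m + 1), ∑ j ∈ Finset.range (n + 1),
    (m.choose i : ℂ) * (n.choose j : ℂ) * (-(e * c)) ^ (m - i) * (-c) ^ (n - j) *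
      (if n ≤ r + j then M a (i + j) (r + j - n) j else 0)

/-- the series in `q` over `ℤ` -/
structure Qd (A Y : ℂ⟦X⟧) (a k c : ℤ⟦X⟧) : Prop where
  hA : A = V 3 (PowerSeries.map (Int.castRingHom ℂ) a)
  hY : Y = 3 * PowerSeries.map (Int.castRingHom ℂ) k
  hY3 : Y ^ 3 = V 3 (27 * PowerSeries.map (Int.castRingHom ℂ) c)
  r1 : a = PowerSeries.expand 3 three_ne_zero a + 6 * k
  r2 : c = k * (PowerSeries.expand 3 three_ne_zero a ^ 2 + 3 * PowerSeries.expand 3 three_ne_zero a * k +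
    9 * k ^ 2)
  r3 : k ^ 3 = PowerSeries.expand 3 three_ne_zero c
  gr : ∀ n, n % 3 ≠ 1 → coeff n k = 0
  k1 : coeff 1 k = 1
  a0 : constantCoeff a = 1
  h4 : e4 ℤ = a * (a ^ 3 + 216 * c)
  h6 : e6 ℤ = a ^ 6 - 540 * a ^ 3 * c - 5832 * c ^ 2

end Pool.Agent.Lib.MP_06b9d2_tls
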