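import Pool.Agent.Lib.MP_06b9d2_tls.HPoly

/-!
MP_06b9d2_nt. The conclusion of the final theorem for a single `n`, from `KerOne n`.
-/

open Matrix
open ModularForm
open scoped MatrixGroups

namespace Pool.Agent.Lib.MP_06b9d2_tls

theorem concl {n : ℕ} (hn : 1 ≤ n) (H : KerOne n) (Γ : Subgroup (GL (Fin 2) ℝ)) (hΓ : Γ = 𝒮ℒ)
    [Γ.HasDetOne] (k : ℤ) (hk : Even k) [Module.Finite ℂ (CuspForm Γ k)]
    (T : CuspForm Γ k →ₗ[ℂ] CuspForm Γ k)
    (hT : ∀ (f : CuspForm Γ k) (τ : UpperHalfPlane),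
      T f τ = ∑ a ∈ n.divisors, ∑ b ∈ Finset.range (n / a),
        ((n : ℂ) ^ (k - 1) * ((n / a : ℕ) : ℂ) ^ (-k)) *
          f (UpperHalfPlane.ofComplex (((a : ℂ) * (τ : ℂ) + (b : ℂ)) / ((n / a : ℕ) : ℂ)))) :
    (∃ F : Polynomial ℤ, F.Monic ∧ F.map (Int.castRingHom ℂ) = LinearMap.charpoly T ∧
        Squarefree (F.map (Int.castRingHom ℚ))) ∧
      (LinearMap.charpoly T).roots.toFinset.card = Module.finrank ℂ (CuspForm Γ k) ∧
      (∀ S : CuspForm Γ k →ₗ[ℂ] CuspForm Γ k, Commute S T →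
        ∃ P : Polynomial ℂ, S = Polynomial.aeval T P) ∧
      ∀ (m : ℕ) (T' : CuspForm Γ k →ₗ[ℂ] CuspForm Γ k), 1 ≤ m →
        (∀ (f : CuspForm Γ k) (τ : UpperHalfPlane),
          T' f τ = ∑ a ∈ m.divisors, ∑ b ∈ Finset.range (m / a),
            ((m : ℂ) ^ (k - 1) * ((m / a : ℕ) : ℂ) ^ (-k)) *
              f (UpperHalfPlane.ofComplex (((a : ℂ) * (τ : ℂ) + (b : ℂ)) / ((m / a : ℕ) : ℂ)))) →
        (∃ P : Polynomial ℚ, T' = Polynomial.aeval T (P.map (algebraMap ℚ ℂ))) ∧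
          ∀ G : Polynomial ℚ, G.map (algebraMap ℚ ℂ) = LinearMap.charpoly T' → Irreducible G →
            ∃ F : Polynomial ℚ, F.map (algebraMap ℚ ℂ) = LinearMap.charpoly T ∧ Irreducible F ∧
              Nonempty (F.Gal ≃* G.Gal) := by
  subst hΓ
  have : NeZero n := ⟨by omega⟩
  obtain ⟨F, h1, h2, h3, h4⟩ := main H k hk T hT
  refine ⟨⟨F, h1, h2, h3⟩, h4, fun S hS => comm H k hk T hT S hS, ?_⟩
  intro m T' hm hT'
  have : NeZero m := ⟨by omega⟩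
  refine ⟨hecke_rat H k hk T T' hT hT', fun G hG hirr => ?_⟩
  exact Pool.Agent.Lib.MP_06b9d2_tl2.trf H k hk T T' hT hT' G hG hirr

end Pool.Agent.Lib.MP_06b9d2_tls
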