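import Pool.Agent.Lib.MP_06b9d2_tls.DefsC
import Pool.Agent.Lib.MP_06b9d2_tls.An.Final

/-!
Module TLS-CoreS: `core_ex` (in `An/Final.lean`).
-/
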