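import Pool.Agent.Lib.MP_06b9d2_tls.DefsC
import Pool.Agent.Lib.MP_06b9d2_ssp.POa

/-!
Module TLS-Val. Valuations of some complex numbers; `O.valuation 3 < 1`.

`int_mem`, `val_int` are in `MP_06b9d2_ssp/POa.lean`. `pr_pow`: real powers. `v_pr`: `(v pr) ^ 12 = v 3`; `v pr < 1` (if `1 ≤ v pr` then `1 ≤ v 3`), `v pr ≠ 0`.
`v_th`: `(v th) ^ 2 = v (-3) = v 3 = (v pr ^ 6) ^ 2`, so `v th = v pr ^ 6` (in a linearly ordered commutative group with zero squares are injective: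
`pow_left_injective` or `pow_left_inj₀`, or: if `x < y` then `x ^ 2 < y ^ 2`). `v_om`: `om ^ 3 = 1` so `(v om) ^ 3 = 1`. `v_root`: `z ^ n = 1`, `n ≠ 0`, gives `v z = 1`.
`v_rat`: `q ≠ 0`: `q = 3 ^ z * (m / n)` with `m`, `n` prime to `3`, `v q = (v 3) ^ z = (v pr) ^ (12 z)`; `(v pr) ^ (12 z) ≤ (v pr) ^ (6 k)` means `6 k ≤ 12 z` (as `v pr < 1`), so
`(k + 1) / 2 ≤ z`. `v_om1`: `v (om - 1) = v (om ^ 2 - 1) = v th` (`om - 1 = th * om ^ 2 * ..`: `(om - 1) = th * (..)`, with `om = (th - 1) / 2`: `om - 1 = (th - 3) / 2 = th (1 + th) / 2`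
as `th ^ 2 = -3`, and `(1 + th) / 2 = - om ^ 2`, a root of unity). `v_le_Z`: integers.
-/

namespace Pool.Agent.Lib.MP_06b9d2_tls

open PowerSeries Pool.Agent.L1

theorem pr_pow : pr ^ 12 = 3 := by
  have h : ((3 : ℝ) ^ ((1 : ℝ) / 12)) ^ 12 = 3 := by
    rw [← Real.rpow_natCast, ← Real.rpow_mul (by norm_num)]
    norm_num
  rw [pr, ← Complex.ofReal_pow, h]
  norm_num

private theorem th_sq : th ^ 2 = -3 := by
  have h : ((Real.sqrt 3 : ℝ) : ℂ) ^ 2 = 3 := by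
    rw [← Complex.ofReal_pow, Real.sq_sqrt (by norm_num)]
    norm_num
  rw [th, mul_pow, h, Complex.I_sq]
  ring

theorem om_cube : om ^ 3 = 1 ∧ om ^ 2 + om + 1 = 0 ∧ th = om - om ^ 2 := by
  have h := th_sq
  refine ⟨?_, ?_, ?_⟩
  · rw [om]
    linear_combination (th / 8 - 3 / 8) * h
  · rw [om]
    linear_combination (1 / 4 : ℂ) * h
  · rw [om]
    linear_combination (1 / 4 : ℂ) * h

theorem v_pr {O : ValuationSubring ℂ} (h3 : O.valuation 3 < 1) :
    O.valuation pr ^ 12 = O.valuation 3 ∧ O.valuation pr < 1 ∧ O.valuation pr ≠ 0 := by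
  have h1 : O.valuation pr ^ 12 = O.valuation 3 := by rw [← map_pow, pr_pow]
  have h0 : O.valuation (3 : ℂ) ≠ 0 := (Valuation.ne_zero_iff _).2 (by norm_num)
  refine ⟨h1, ?_, ?_⟩
  · by_contra hc
    have h2 : 1 ≤ O.valuation pr ^ 12 := one_le_pow₀ (not_lt.1 hc)
    rw [h1] at h2
    exact absurd h3 (not_lt.2 h2)
  · intro h2
    rw [h2, zero_pow (by norm_num)] at h1
    exact h0 h1.symm

theorem v_th {O : ValuationSubring ℂ} (h3 : O.valuation 3 < 1) :
    O.valuation th = O.valuation pr ^ 6 := by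
  obtain ⟨h1, -, -⟩ := v_pr h3
  have h2 : O.valuation th ^ 2 = (O.valuation pr ^ 6) ^ 2 := by
    rw [← map_pow, th_sq, Valuation.map_neg, ← pow_mul, h1]
  exact (pow_left_inj₀ zero_le zero_le (by norm_num)).1 h2

theorem v_root (O : ValuationSubring ℂ) (z : ℂ) (n : ℕ) (hn : n ≠ 0) (hz : z ^ n = 1) :
    O.valuation z = 1 := by
  have h : O.valuation z ^ n = 1 := by rw [← map_pow, hz, map_one]
  exact (pow_eq_one_iff_of_nonneg zero_le hn).1 h

theorem v_om (O : ValuationSubring ℂ) : O.valuation om = 1 :=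
  v_root O om 3 (by norm_num) om_cube.1

theorem v_om1 (O : ValuationSubring ℂ) : O.valuation (om - 1) = O.valuation th ∧
    O.valuation (om ^ 2 - 1) = O.valuation th := by
  obtain ⟨h1, h2, h3⟩ := om_cube
  have hn : O.valuation (-(om ^ 2)) = 1 := by
    rw [Valuation.map_neg, map_pow, v_om, one_pow]
  have e1 : om - 1 = th * (-(om ^ 2)) := by
    rw [h3]
    linear_combination (1 - om) * h1
  have e2 : om ^ 2 - 1 = th * om := by
    rw [h3]
    linear_combination h1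
  constructor
  · rw [e1, map_mul, hn, mul_one]
  · rw [e2, map_mul, v_om, mul_one]

theorem v_rat {O : ValuationSubring ℂ} (h3 : O.valuation 3 < 1) (q : ℚ) (k : ℕ)
    (h : O.valuation (q : ℂ) ≤ O.valuation pr ^ (6 * k)) :
    O.valuation (q : ℂ) ≤ O.valuation 3 ^ ((k + 1) / 2) := by
  obtain ⟨h12, hlt, hne⟩ := v_pr h3
  have h30 : O.valuation (3 : ℂ) ≠ 0 := (Valuation.ne_zero_iff _).2 (by norm_num)
  rcases eq_or_ne q 0 with rfl | hq
  · rw [Rat.cast_zero, map_zero]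
    exact zero_le
  have hnum : q.num ≠ 0 := Rat.num_ne_zero.2 hq
  have key : ∀ x : ℤ, x ≠ 0 → ∃ a : ℕ, O.valuation (x : ℂ) = O.valuation pr ^ (12 * a) := by
    intro x hx
    have hf : FiniteMultiplicity (3 : ℤ) x := Int.finiteMultiplicity_iff.2 ⟨by norm_num, hx⟩
    obtain ⟨m, hm, hm3⟩ := hf.exists_eq_pow_mul_and_not_dvd
    refine ⟨multiplicity (3 : ℤ) x, ?_⟩
    have e : (x : ℂ) = (3 : ℂ) ^ multiplicity (3 : ℤ) x * (m : ℂ) := by exact_mod_cast hm
    rw [e, map_mul, MP_06b9d2_ssp.val_int h3 m hm3, mul_one, map_pow, pow_mul, h12]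
  obtain ⟨a, ha⟩ := key q.num hnum
  obtain ⟨b, hb⟩ := key (q.den : ℤ) (by exact_mod_cast q.den_ne_zero)
  have hq2 : O.valuation (q : ℂ) * O.valuation pr ^ (12 * b) = O.valuation pr ^ (12 * a) := by
    rw [← ha, ← hb, ← map_mul]
    congr 1
    exact_mod_cast Rat.mul_den_eq_num q
  have hpos : 0 < O.valuation pr := zero_lt_iff.2 hne
  have hpb : 0 < O.valuation pr ^ (12 * b) := zero_lt_iff.2 (pow_ne_zero _ hne)
  have h1 : O.valuation pr ^ (12 * a) ≤ O.valuation pr ^ (6 * k + 12 * b) := by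
    rw [← hq2, pow_add]
    exact mul_le_mul_left h _
  rw [pow_le_pow_iff_right_of_lt_one₀ hpos hlt] at h1
  have h2 : O.valuation (q : ℂ) * O.valuation pr ^ (12 * b) ≤
      O.valuation 3 ^ ((k + 1) / 2) * O.valuation pr ^ (12 * b) := by
    rw [hq2, ← h12, ← pow_mul, ← pow_add, pow_le_pow_iff_right_of_lt_one₀ hpos hlt]
    omega
  exact (mul_le_mul_iff_left₀ hpb).1 h2

theorem v_prime {O : ValuationSubring ℂ} (h3 : O.valuation 3 < 1) (n : ℕ) (hn : ¬ 3 ∣ n) :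
    O.valuation (n : ℂ) = 1 := by
  have h := MP_06b9d2_ssp.val_int h3 (n : ℤ) (by exact_mod_cast hn)
  exact_mod_cast h

end Pool.Agent.Lib.MP_06b9d2_tls
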