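import Pool.Agent.Lib.MP_06b9d2_tls.Cm
import Pool.Agent.Lib.MP_06b9d2_tls.Val

/-!
Module TLS-CmV. Coefficients of polynomials in `a'`, `k` at `n ≡ 2` modulo `3`; the congruences for `e = -1`.

`a' = expand 3 a` has only exponents divisible by `3`, `k` only exponents `≡ 1`: `coeff n (k ^ i * a' ^ j) = 0` if `n % 3 ≠ i % 3` (`mono_co`). With `a = a' + 6 k`, `c = k (a' ^ 2 + 3 a' k + 9 k ^ 2)`, `a ^ 3 - 27 c = (a' - 3 k) ^ 3` expand everything (`ring`):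
`(a ^ 3 - 27 c) c = k a'^5 - 6 k^2 a'^4 + 9 k^3 a'^3 - 27 k^4 a'^2 + 162 k^5 a' - 243 k^6`; `a ^ 2` times this has the part `6 k^2 a'^6 + 162 k^5 a'^3 - 8748 k^8` with exponents `≡ 2`;
`e6` (`h6`): the part `-504 (33 k^2 a'^4 + 2268 k^5 a')`; `e4 ^ 2` (`h4`): the part `480 (129 k^2 a'^6 + 73224 k^5 a'^3 + 349920 k^8)`. So at a prime `l ≡ 2`:
`11 t_6 + 2 (1 + l^5) = 6318 [k^5 a']_l`, `6318 = 26 * 243`; `43 t_8 - 2 (1 + l^7) = -139482 [k^5 a'^3]_l - 1076004 [k^8]_l`, both divisible by `243`.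
`cm_v`: `M a 2 0 0 = l + (-l) ^ (6 + a) = l (1 + l ^ (5 + a))` (`mat_00`, `a` even), `M a 2 1 1 = l t` (`q_t`): `11 (1 + l^5 + t_6) = 9 (1 + l^5) + 243 y`, `43 (1 + l^7 + t_8) = 45 (1 + l^7) + 243 y`; `1 + l^5` and `1 + l^7` are `3` times a number prime to `3`
for `l ≡ 2, 5` modulo `9`. (`v` of integers: `val_int`, `v_prime`.)
-/

namespace Pool.Agent.Lib.MP_06b9d2_tls

open PowerSeries Pool.Agent.L1

private theorem fin_v {O : ValuationSubring ℂ} (h3 : O.valuation 3 < 1) {S : ℂ} (p w : ℤ)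
    (hp : ¬ (3 : ℤ) ∣ p) (hw : ¬ (3 : ℤ) ∣ w) (h : (p : ℂ) * S = 27 * (w : ℂ)) :
    O.valuation S = O.valuation 27 := by
  have h1 := congrArg O.valuation h
  rw [map_mul, map_mul, MP_06b9d2_ssp.val_int h3 p hp, MP_06b9d2_ssp.val_int h3 w hw, one_mul,
    mul_one] at h1
  exact h1

private theorem pw5 (l : ℕ) (h9 : l % 9 = 2 ∨ l % 9 = 5) :
    ∃ m : ℤ, 1 + (l : ℤ) ^ 5 = 3 * m ∧ ¬ (3 : ℤ) ∣ m := by
  have h : (1 + (l : ℤ) ^ 5) % 9 = 3 ∨ (1 + (l : ℤ) ^ 5) % 9 = 6 := by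
    rcases h9 with h | h
    · have e : (l : ℤ) ≡ 2 [ZMOD 9] := by
        unfold Int.ModEq
        omega
      have e5 := e.pow 5
      unfold Int.ModEq at e5
      norm_num at e5
      omega
    · have e : (l : ℤ) ≡ 5 [ZMOD 9] := by
        unfold Int.ModEq
        omega
      have e5 := e.pow 5
      unfold Int.ModEq at e5
      norm_num at e5
      omega
  exact ⟨(1 + (l : ℤ) ^ 5) / 3, by omega, by omega⟩

private theorem pw7 (l : ℕ) (h9 : l % 9 = 2 ∨ l % 9 = 5) :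
    ∃ m : ℤ, 1 + (l : ℤ) ^ 7 = 3 * m ∧ ¬ (3 : ℤ) ∣ m := by
  have h : (1 + (l : ℤ) ^ 7) % 9 = 3 ∨ (1 + (l : ℤ) ^ 7) % 9 = 6 := by
    rcases h9 with h | h
    · have e : (l : ℤ) ≡ 2 [ZMOD 9] := by
        unfold Int.ModEq
        omega
      have e5 := e.pow 7
      unfold Int.ModEq at e5
      norm_num at e5
      omega
    · have e : (l : ℤ) ≡ 5 [ZMOD 9] := by
        unfold Int.ModEq
        omega
      have e5 := e.pow 7
      unfold Int.ModEq at e5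
      norm_num at e5
      omega
  exact ⟨(1 + (l : ℤ) ^ 7) / 3, by omega, by omega⟩

theorem cm_v {A Y : ℂ⟦X⟧} (h : Core A Y) {O : ValuationSubring ℂ} (h3 : O.valuation 3 < 1) {l : ℕ} {s0 : ℂ}
    (hl : PL l (-1) s0) (h9 : l % 9 = 2 ∨ l % 9 = 5) {M : ℕ → ℕ → ℕ → ℕ → ℂ} (hM : MatD l (-1) A Y M)
    (a : ℕ) (ha : a = 0 ∨ a = 2) :
    O.valuation (M a 2 0 0 + M a 2 1 1) = O.valuation 27 := by
  obtain ⟨α, k, c, q⟩ := qd_ex h
  have hp : l.Prime := hl.1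
  have h2 : l % 3 = 2 := by omega
  have hl3 : ¬ (3 : ℤ) ∣ (l : ℤ) := by omega
  have : Fact (a < 3) := ⟨by omega⟩
  have h00 := mat_00 h hl hM a 2
  have h11 := q_t h q hl hM a
  rcases ha with rfl | rfl
  · obtain ⟨m, hm, hm3⟩ := pw5 l h9
    obtain ⟨y, hy⟩ := cm6 q l hp h2
    have hw : ¬ (3 : ℤ) ∣ (l : ℤ) * (m + 9 * y) := by
      intro hd
      rcases (Int.prime_three.dvd_mul).1 hd with h | h
      · exact hl3 h
      · exact hm3 (by omega)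
    refine fin_v h3 11 ((l : ℤ) * (m + 9 * y)) (by norm_num) hw ?_
    rw [h00, ← h11, pow_zero, one_mul]
    have e1 : (1 : ℂ) + (l : ℂ) ^ 5 = 3 * (m : ℂ) := by exact_mod_cast hm
    have e2 : 11 * ((coeff l ((α ^ 3 - 27 * c) * c) : ℤ) : ℂ) + 2 * (1 + (l : ℂ) ^ 5) =
        243 * (y : ℂ) := by exact_mod_cast hy
    push_cast
    linear_combination (l : ℂ) * e2 + 9 * (l : ℂ) * e1
  · obtain ⟨m, hm, hm3⟩ := pw7 l h9
    obtain ⟨y, hy⟩ := cm8 q l hp h2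
    have hw : ¬ (3 : ℤ) ∣ (l : ℤ) * (5 * m + 9 * y) := by
      intro hd
      rcases (Int.prime_three.dvd_mul).1 hd with h | h
      · exact hl3 h
      · exact hm3 (by omega)
    refine fin_v h3 43 ((l : ℤ) * (5 * m + 9 * y)) (by norm_num) hw ?_
    rw [h00, ← h11]
    have e1 : (1 : ℂ) + (l : ℂ) ^ 7 = 3 * (m : ℂ) := by exact_mod_cast hm
    have e2 : 43 * ((coeff l (α ^ 2 * (α ^ 3 - 27 * c) * c) : ℤ) : ℂ) - 2 * (1 + (l : ℂ) ^ 7) =
        243 * (y : ℂ) := by exact_mod_cast hy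
    push_cast
    linear_combination (l : ℂ) * e2 + 45 * (l : ℂ) * e1

end Pool.Agent.Lib.MP_06b9d2_tls
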