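import Pool.Agent.Lib.MP_06b9d2_tls.PcJ
import Pool.Agent.Lib.MP_06b9d2_tls.CmV

/-!
Module TLS-DatA. The data for `e = -1`.

`κ m n r = pc (-1) c M a m n r / 3`, `c = cl l (-1) = l (l ^ 2 - 1) / (l + 1) = l (l - 1)`, prime to `3`. `deg`: `pc_deg`. `int`: `pcM`. `h000`: `pc_m00` (`m = 0`): `l + (-l) ^ a = l + l ^ a`; `a = 0`: `l + 1`, `a = 2`: `l (l + 1)`: `3` times a number prime to `3` (`l ≡ 2, 5` modulo `9`).
`h101`, `h010`: `pc_101`. `h202`, `h020`: `pc_202`. `h011`: `pc_sym` with `(m, n, r) = (1, 0, 0)`: `e ^ (a + 1) = -1`; `h022`: `(2, 0, 0)`, `e ^ (a + 2) = 1`; `h033`: `(3, 0, 0)`, `-1`. `h302`: `pc_302`, `mat_int'` (`729 / 27 / 3 = 9`); `h031`: `pc_sym` with `(3, 0, 2)`.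
`ht`: `pc_dif` (`e ^ (a + 3) = -1 = e`): `pc 2 0 0 + pc 1 1 1 = (M a 2 0 0 + M a 2 1 1) / 9`, `cm_v`: `27 / 9 / 3 = 1`.
`a = 1`: `h000`: `l + (-l) = 0`; `h011`: `e ^ 2 = 1`; `hu`: `pc_m00` (`m = 1`): `(1/3) (l (1 + c) + (-l) ((-l) ^ 3 + c))`, `1 + c = l ^ 2 - l + 1`, `(-l) ^ 3 + c = - l (l ^ 2 - l + 1)`: `(1/3) l (l + 1) (l ^ 2 - l + 1)`, `l + 1` and `l ^ 2 - l + 1` are `3` times numbers prime to `3`: `κ 1 0 0` is prime to `3`.
-/

namespace Pool.Agent.Lib.MP_06b9d2_tls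

open PowerSeries Pool.Agent.L1

private theorem DatA_c {l : ℕ} (_h9 : l % 9 = 2 ∨ l % 9 = 5) : cl l (-1) = (l : ℂ) * ((l : ℂ) - 1) := by
  unfold cl
  have h1 : ((l : ℂ) + 1) ≠ 0 := by exact_mod_cast Nat.succ_ne_zero l
  field_simp
  ring

private theorem DatA_hc {O : ValuationSubring ℂ} (h3 : O.valuation 3 < 1) {l : ℕ}
    (h9 : l % 9 = 2 ∨ l % 9 = 5) : O.valuation (cl l (-1)) = 1 := by
  rw [DatA_c h9]
  have hl : 1 ≤ l := by omega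
  have h1 : (l : ℂ) * ((l : ℂ) - 1) = (((l * (l - 1) : ℕ)) : ℂ) := by
    push_cast [Nat.cast_sub hl]
    ring
  rw [h1]
  refine v_prime h3 _ ?_
  intro hd
  rcases (Nat.Prime.dvd_mul Nat.prime_three).1 hd with h | h <;> omega

private theorem DatA_v3 {O : ValuationSubring ℂ} : O.valuation (3 : ℂ) ≠ 0 :=
  (Valuation.ne_zero_iff _).2 (by norm_num)

private theorem DatA_int {A Y : ℂ⟦X⟧} (h : Core A Y) {O : ValuationSubring ℂ} (h3 : O.valuation 3 < 1)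
    {l : ℕ} {s0 : ℂ} (hl : PL l (-1) s0) {M : ℕ → ℕ → ℕ → ℕ → ℂ} (hM : MatD l (-1) A Y M)
    (a m n r : ℕ) [Fact (a < 3)] : O.valuation (pc (-1) (cl l (-1)) M a m n r / 3) ≤ 1 := by
  rw [map_div₀]
  exact div_le_one_of_le₀ (pcM h h3 hl hM a m n r) zero_le

private theorem DatA_l1 {l : ℕ} (h9 : l % 9 = 2 ∨ l % 9 = 5) :
    ∃ m : ℕ, ¬ 3 ∣ m ∧ (l : ℂ) + 1 = 3 * m := by
  refine ⟨(l + 1) / 3, by omega, ?_⟩
  have h1 : l + 1 = 3 * ((l + 1) / 3) := by omega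
  exact_mod_cast h1

private theorem DatA_l2 {l : ℕ} (h9 : l % 9 = 2 ∨ l % 9 = 5) :
    ∃ m : ℕ, ¬ 3 ∣ m ∧ (l : ℂ) ^ 2 - l + 1 = 3 * m := by
  rcases h9 with h | h
  · refine ⟨27 * (l / 9) ^ 2 + 9 * (l / 9) + 1, by omega, ?_⟩
    have h1 : l = 9 * (l / 9) + 2 := by omega
    set q := l / 9
    rw [h1]
    push_cast
    ring
  · refine ⟨27 * (l / 9) ^ 2 + 27 * (l / 9) + 7, by omega, ?_⟩
    have h1 : l = 9 * (l / 9) + 5 := by omega
    set q := l / 9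
    rw [h1]
    push_cast
    ring

private theorem DatA_vl {O : ValuationSubring ℂ} (h3 : O.valuation 3 < 1) {l : ℕ}
    (h9 : l % 9 = 2 ∨ l % 9 = 5) : O.valuation (l : ℂ) = 1 :=
  v_prime h3 l (by omega)

private theorem DatA_zint (O : ValuationSubring ℂ) (z : ℤ) : O.valuation (z : ℂ) ≤ 1 :=
  (O.valuation_le_one_iff _).2 (intCast_mem O z)

theorem datM {A Y : ℂ⟦X⟧} (h : Core A Y) {O : ValuationSubring ℂ} (h3 : O.valuation 3 < 1) {l : ℕ} {s0 : ℂ}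
    (hl : PL l (-1) s0) (h9 : l % 9 = 2 ∨ l % 9 = 5) {M : ℕ → ℕ → ℕ → ℕ → ℂ} (hM : MatD l (-1) A Y M)
    (a : ℕ) (ha : a = 0 ∨ a = 2) :
    DatM O (cl l (-1)) (fun m n r => pc (-1) (cl l (-1)) M a m n r / 3) := by
  have : Fact (a < 3) := ⟨by omega⟩
  have he : (-1 : ℂ) ^ 2 = 1 := by norm_num
  have hea : (-1 : ℂ) ^ a = 1 := by
    rcases ha with h | h <;> subst h <;> norm_num
  have h302 : O.valuation (pc (-1) (cl l (-1)) M a 3 0 2 / 3) ≤ O.valuation 3 := by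
    rw [pc_302 h hl hM a]
    obtain ⟨z, hz⟩ := mat_int' h hl hM a 3 2 0 (by norm_num) (by norm_num)
    rw [hz]
    have e1 : (27 : ℂ) ^ (2 - 0) * (z : ℂ) / 27 / 3 = 3 * (((3 * z : ℤ)) : ℂ) := by
      push_cast
      norm_num
      ring
    rw [e1, map_mul]
    calc O.valuation 3 * O.valuation (((3 * z : ℤ)) : ℂ) ≤ O.valuation 3 * 1 :=
          mul_le_mul' le_rfl (DatA_zint O _)
      _ = O.valuation 3 := mul_one _
  refine ⟨DatA_hc h3 h9, ?_, ?_, ?_, ?_, ?_, ?_, ?_, ?_, ?_, ?_, h302, ?_, ?_⟩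
  · intro m n r hr
    show pc (-1) (cl l (-1)) M a m n r / 3 = 0
    rw [pc_deg _ hM a m n r hr, zero_div]
  · intro m n r
    exact DatA_int h h3 hl hM a m n r
  · show O.valuation (pc (-1) (cl l (-1)) M a 0 0 0 / 3) = 1
    obtain ⟨m, hm, hm'⟩ := DatA_l1 h9
    rw [pc_m00 h hl hM a 0]
    rcases ha with h0 | h0
    · subst h0
      have e1 : (1 / 3 : ℂ) ^ 0 * ((l : ℂ) * (1 - -1 * cl l (-1)) ^ 0 +
          (-1 * (l : ℂ)) ^ 0 * ((-1 * (l : ℂ)) ^ 3 - -1 * cl l (-1)) ^ 0) / 3 = (m : ℂ) := by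
        rw [pow_zero, pow_zero, pow_zero, pow_zero, one_mul, mul_one, one_mul, hm']
        ring
      rw [e1]
      exact v_prime h3 m hm
    · subst h0
      have e1 : (1 / 3 : ℂ) ^ 0 * ((l : ℂ) * (1 - -1 * cl l (-1)) ^ 0 +
          (-1 * (l : ℂ)) ^ 2 * ((-1 * (l : ℂ)) ^ 3 - -1 * cl l (-1)) ^ 0) / 3 = (l : ℂ) * (m : ℂ) := by
        rw [pow_zero, pow_zero, pow_zero]
        have : (l : ℂ) * ((l : ℂ) + 1) = (l : ℂ) * (3 * m) := by rw [hm']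
        linear_combination this / 3
      rw [e1, map_mul, v_prime h3 m hm, DatA_vl h3 h9, one_mul]
  · show pc (-1) (cl l (-1)) M a 1 0 1 / 3 = 0
    rw [(pc_101 h hl hM a).1, zero_div]
  · show pc (-1) (cl l (-1)) M a 0 1 0 / 3 = 0
    rw [(pc_101 h hl hM a).2, zero_div]
  · show pc (-1) (cl l (-1)) M a 0 1 1 / 3 = -(pc (-1) (cl l (-1)) M a 1 0 0 / 3)
    have h1 := pc_sym he (cl l (-1)) hM a 1 0 0 (by norm_num)
    have h2 : (-1 : ℂ) ^ (a + 1 + 0) = -1 := by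
      rw [pow_add, pow_add, hea]
      norm_num
    rw [h2] at h1
    have h3' : 1 + 0 - 0 = 1 := rfl
    rw [h3'] at h1
    rw [h1]
    ring
  · show pc (-1) (cl l (-1)) M a 2 0 2 / 3 = 0
    rw [(pc_202 h hl hM a).1, zero_div]
  · show pc (-1) (cl l (-1)) M a 0 2 0 / 3 = 0
    rw [(pc_202 h hl hM a).2, zero_div]
  · show pc (-1) (cl l (-1)) M a 0 2 2 / 3 = pc (-1) (cl l (-1)) M a 2 0 0 / 3
    have h1 := pc_sym he (cl l (-1)) hM a 2 0 0 (by norm_num)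
    have h2 : (-1 : ℂ) ^ (a + 2 + 0) = 1 := by
      rw [pow_add, pow_add, hea]
      norm_num
    rw [h2] at h1
    have h3' : 2 + 0 - 0 = 2 := rfl
    rw [h3'] at h1
    rw [h1]
    ring
  · show pc (-1) (cl l (-1)) M a 0 3 3 / 3 = -(pc (-1) (cl l (-1)) M a 3 0 0 / 3)
    have h1 := pc_sym he (cl l (-1)) hM a 3 0 0 (by norm_num)
    have h2 : (-1 : ℂ) ^ (a + 3 + 0) = -1 := by
      rw [pow_add, pow_add, hea]
      norm_num
    rw [h2] at h1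
    have h3' : 3 + 0 - 0 = 3 := rfl
    rw [h3'] at h1
    rw [h1]
    ring
  · show O.valuation (pc (-1) (cl l (-1)) M a 0 3 1 / 3) ≤ O.valuation 3
    have h1 := pc_sym he (cl l (-1)) hM a 3 0 2 (by norm_num)
    have h2 : (-1 : ℂ) ^ (a + 3 + 0) = -1 := by
      rw [pow_add, pow_add, hea]
      norm_num
    rw [h2] at h1
    have h3' : 3 + 0 - 2 = 1 := rfl
    rw [h3'] at h1
    rw [h1, neg_one_mul, neg_div, Valuation.map_neg]
    exact h302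
  · show O.valuation (pc (-1) (cl l (-1)) M a 2 0 0 / 3 + pc (-1) (cl l (-1)) M a 1 1 1 / 3) = 1
    have hd := pc_dif h hl hM a (by rw [pow_add, hea]; norm_num)
    have h1 := cm_v h h3 hl h9 hM a ha
    have e1 : pc (-1) (cl l (-1)) M a 2 0 0 / 3 + pc (-1) (cl l (-1)) M a 1 1 1 / 3 =
        (M a 2 0 0 + M a 2 1 1) / 27 := by
      linear_combination hd / 3
    rw [e1, map_div₀, h1]
    exact div_self ((Valuation.ne_zero_iff _).2 (by norm_num))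

theorem datM1 {A Y : ℂ⟦X⟧} (h : Core A Y) {O : ValuationSubring ℂ} (h3 : O.valuation 3 < 1) {l : ℕ} {s0 : ℂ}
    (hl : PL l (-1) s0) (h9 : l % 9 = 2 ∨ l % 9 = 5) {M : ℕ → ℕ → ℕ → ℕ → ℂ} (hM : MatD l (-1) A Y M) :
    DatM1 O (cl l (-1)) (fun m n r => pc (-1) (cl l (-1)) M 1 m n r / 3) := by
  have he : (-1 : ℂ) ^ 2 = 1 := by norm_num
  refine ⟨DatA_hc h3 h9, ?_, ?_, ?_, ?_, ?_, ?_, ?_⟩
  · intro m n r hr
    show pc (-1) (cl l (-1)) M 1 m n r / 3 = 0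
    rw [pc_deg _ hM 1 m n r hr, zero_div]
  · intro m n r
    exact DatA_int h h3 hl hM 1 m n r
  · show pc (-1) (cl l (-1)) M 1 0 0 0 / 3 = 0
    rw [pc_m00 h hl hM 1 0, pow_zero, pow_zero, pow_zero]
    ring
  · show pc (-1) (cl l (-1)) M 1 1 0 1 / 3 = 0
    rw [(pc_101 h hl hM 1).1, zero_div]
  · show pc (-1) (cl l (-1)) M 1 0 1 0 / 3 = 0
    rw [(pc_101 h hl hM 1).2, zero_div]
  · show pc (-1) (cl l (-1)) M 1 0 1 1 / 3 = pc (-1) (cl l (-1)) M 1 1 0 0 / 3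
    have h1 := pc_sym he (cl l (-1)) hM 1 1 0 0 (by norm_num)
    have h2 : (-1 : ℂ) ^ (1 + 1 + 0) = 1 := by norm_num
    rw [h2] at h1
    have h3' : 1 + 0 - 0 = 1 := rfl
    rw [h3'] at h1
    rw [h1]
    ring
  · show O.valuation (pc (-1) (cl l (-1)) M 1 1 0 0 / 3) = 1
    obtain ⟨m, hm, hm'⟩ := DatA_l1 h9
    obtain ⟨n, hn, hn'⟩ := DatA_l2 h9
    have e1 : pc (-1) (cl l (-1)) M 1 1 0 0 / 3 = (l : ℂ) * m * n := by
      rw [pc_m00 h hl hM 1 1, DatA_c h9]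
      have h1 : (l : ℂ) * ((l : ℂ) + 1) * ((l : ℂ) ^ 2 - l + 1) = (l : ℂ) * (3 * m) * (3 * n) := by
        rw [hm', hn']
      linear_combination h1 / 9
    rw [e1, map_mul, map_mul, v_prime h3 m hm, v_prime h3 n hn, DatA_vl h3 h9, one_mul, one_mul]

end Pool.Agent.Lib.MP_06b9d2_tls
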