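import Pool.Agent.Lib.MP_06b9d2_tls.Pc

/-!
Module TLS-Low. Explicit values of `pc`.

All from the definition of `pc` (finite sums) and `mat_00`, `mat_low`, `mat_top`, `mat_NN`, `hM.out`, `pc_sym`.
`pc_m00`: only `j = 0`, `r = 0`: `pc a m 0 0 = 3 ^ (-m) ∑_i C(m, i) (-e c) ^ (m - i) (l + (e l) ^ (3 i + a))`, two binomial sums.
`pc_m0r`: `pc a m 0 r = 3 ^ (-m) ∑_i C(m, i) (-e c) ^ (m - i) M a i r 0`. So `pc a 1 0 1 = (M a 1 1 0 - ..) / 3 = 0` (`M a 1 1 0 = 0`: `mat_top`; `M a 0 1 0 = 0`: `hM.out`),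
`pc a 2 0 2 = M a 2 2 0 / 9 = 0`, `pc a 2 0 1 = M a 2 1 0 / 9` (`M a 1 1 0 = 0`), `pc a 3 0 1 = (M a 3 1 0 - 3 e c M a 2 1 0) / 27`, `pc a 3 0 2 = M a 3 2 0 / 27` (`M a 2 2 0 = 0`),
`pc a 3 0 3 = 0`.
`pc a 1 1 r = (1 / 9) (e c ^ 2 [r = 1] M a 0 0 0 - c [r ≥ 1] M a 1 (r - 1) 0 - e c M a 1 r 1 + M a 2 r 1)` (the factors: `(i, j) = (0, 0)`: `e c ^ 2`, index `r + 0 - 1`; `(1, 0)`: `- c M a 1 (r - 1) 0`;
`(0, 1)`: `- e c M a 1 r 1`; `(1, 1)`: `M a 2 r 1`). `r = 0`: `- e c M a 1 0 1 + M a 2 0 1 = 0` (`mat_low`); `r = 2`: `- c M a 1 1 0 - e c M a 1 2 1 + M a 2 2 1 = 0`.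
`r = 1`: `M a 1 1 1 = e ^ (a + 1) M a 1 0 0`, `pc a 2 0 0 = (1 / 9) (M a 2 0 0 - 2 e c M a 1 0 0 + c ^ 2 M a 0 0 0)`:
`9 (pc a 2 0 0 - e pc a 1 1 1) = M a 2 0 0 - e M a 2 1 1 + (- 2 e c + e c + e ^ (a + 3) c) M a 1 0 0`, and `e ^ (a + 3) = e` if `a` is even or `e = 1`.
-/

namespace Pool.Agent.Lib.MP_06b9d2_tls

open PowerSeries Pool.Agent.L1

variable {A Y : ℂ⟦X⟧} {l : ℕ} {e s0 : ℂ} {M : ℕ → ℕ → ℕ → ℕ → ℂ}

theorem pc_m00 (h : Core A Y) (hl : PL l e s0) (hM : MatD l e A Y M) (a m : ℕ) [Fact (a < 3)] :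
    pc e (cl l e) M a m 0 0 =
      (1 / 3) ^ m * (l * (1 - e * cl l e) ^ m + (e * l) ^ a * ((e * l) ^ 3 - e * cl l e) ^ m) := by
  unfold pc
  rw [add_zero]
  congr 1
  have h1 : ∀ x : ℂ, (x - e * cl l e) ^ m =
      ∑ i ∈ Finset.range (m + 1), (m.choose i : ℂ) * (-(e * cl l e)) ^ (m - i) * x ^ i := by
    intro x
    rw [sub_eq_add_neg, add_pow]
    exact Finset.sum_congr rfl fun i _ => by ring
  rw [h1, h1, Finset.mul_sum, Finset.mul_sum, ← Finset.sum_add_distrib]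
  apply Finset.sum_congr rfl
  intro i _
  rw [zero_add, Finset.sum_range_one, if_pos (Nat.zero_le _)]
  rw [Nat.choose_self, Nat.sub_zero, pow_zero, add_zero, mat_00 h hl hM a i]
  push_cast
  ring

theorem pc_101 (h : Core A Y) (hl : PL l e s0) (hM : MatD l e A Y M) (a : ℕ) [Fact (a < 3)] :
    pc e (cl l e) M a 1 0 1 = 0 ∧ pc e (cl l e) M a 0 1 0 = 0 := by
  have h1 : M a 0 1 0 = 0 := hM.out _ _ _ _ (by omega)
  have h2 : M a 1 1 0 = 0 := mat_top h hl hM a 1 0 (by omega)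
  have h3 : M a 1 0 1 = 0 := mat_low h hl hM a 1 1 (by omega) (by omega)
  constructor
  · simp [pc, Finset.sum_range_succ, h1, h2]
  · simp [pc, Finset.sum_range_succ, h3]

theorem pc_202 (h : Core A Y) (hl : PL l e s0) (hM : MatD l e A Y M) (a : ℕ) [Fact (a < 3)] :
    pc e (cl l e) M a 2 0 2 = 0 ∧ pc e (cl l e) M a 0 2 0 = 0 := by
  have h1 : M a 0 2 0 = 0 := hM.out _ _ _ _ (by omega)
  have h2 : M a 1 2 0 = 0 := hM.out _ _ _ _ (by omega)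
  have h3 : M a 2 2 0 = 0 := mat_top h hl hM a 2 0 (by omega)
  have h4 : M a 2 0 2 = 0 := mat_low h hl hM a 2 2 (by omega) (by omega)
  constructor
  · simp [pc, Finset.sum_range_succ, h1, h2, h3]
  · simp [pc, Finset.sum_range_succ, h4]

theorem pc_110 (h : Core A Y) (hl : PL l e s0) (hM : MatD l e A Y M) (a : ℕ) [Fact (a < 3)] :
    pc e (cl l e) M a 1 1 0 = 0 ∧ pc e (cl l e) M a 1 1 2 = 0 := by
  have h1 : M a 1 0 1 = 0 := mat_low h hl hM a 1 1 (by omega) (by omega)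
  have h2 : M a 2 0 1 = 0 := mat_low h hl hM a 2 1 (by omega) (by omega)
  have h3 : M a 0 1 0 = 0 := hM.out _ _ _ _ (by omega)
  have h4 : M a 1 1 0 = 0 := mat_top h hl hM a 1 0 (by omega)
  have h5 : M a 1 2 1 = 0 := hM.out _ _ _ _ (by omega)
  have h6 : M a 2 2 1 = 0 := mat_top h hl hM a 2 1 (by omega)
  constructor
  · simp [pc, Finset.sum_range_succ, h1, h2]
  · simp [pc, Finset.sum_range_succ, h3, h4, h5, h6]

theorem pc_201 (h : Core A Y) (hl : PL l e s0) (hM : MatD l e A Y M) (a : ℕ) [Fact (a < 3)] :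
    pc e (cl l e) M a 2 0 1 = M a 2 1 0 / 9 := by
  have h1 : M a 0 1 0 = 0 := hM.out _ _ _ _ (by omega)
  have h2 : M a 1 1 0 = 0 := mat_top h hl hM a 1 0 (by omega)
  simp [pc, Finset.sum_range_succ, h1, h2]
  ring

theorem pc_301 (h : Core A Y) (hl : PL l e s0) (hM : MatD l e A Y M) (a : ℕ) [Fact (a < 3)] :
    pc e (cl l e) M a 3 0 1 = (M a 3 1 0 - 3 * (e * cl l e) * M a 2 1 0) / 27 := by
  have h1 : M a 0 1 0 = 0 := hM.out _ _ _ _ (by omega)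
  have h2 : M a 1 1 0 = 0 := mat_top h hl hM a 1 0 (by omega)
  simp [pc, Finset.sum_range_succ, h1, h2, Nat.choose]
  ring

theorem pc_302 (h : Core A Y) (hl : PL l e s0) (hM : MatD l e A Y M) (a : ℕ) [Fact (a < 3)] :
    pc e (cl l e) M a 3 0 2 = M a 3 2 0 / 27 := by
  have h1 : M a 0 2 0 = 0 := hM.out _ _ _ _ (by omega)
  have h2 : M a 1 2 0 = 0 := hM.out _ _ _ _ (by omega)
  have h3 : M a 2 2 0 = 0 := mat_top h hl hM a 2 0 (by omega)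
  simp [pc, Finset.sum_range_succ, h1, h2, h3]
  ring

theorem pc_303 (h : Core A Y) (hl : PL l e s0) (hM : MatD l e A Y M) (a : ℕ) [Fact (a < 3)] :
    pc e (cl l e) M a 3 0 3 = 0 := by
  have h1 : M a 0 3 0 = 0 := hM.out _ _ _ _ (by omega)
  have h2 : M a 1 3 0 = 0 := hM.out _ _ _ _ (by omega)
  have h3 : M a 2 3 0 = 0 := hM.out _ _ _ _ (by omega)
  have h4 : M a 3 3 0 = 0 := mat_top h hl hM a 3 0 (by omega)
  simp [pc, Finset.sum_range_succ, h1, h2, h3, h4]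

theorem pc_dif (h : Core A Y) (hl : PL l e s0) (hM : MatD l e A Y M) (a : ℕ) [Fact (a < 3)] (ha : e ^ (a + 3) = e) :
    pc e (cl l e) M a 2 0 0 - e * pc e (cl l e) M a 1 1 1 = (M a 2 0 0 - e * M a 2 1 1) / 9 := by
  have h1 : M a 1 1 1 = e ^ (a + 1) * M a 1 0 0 := by
    rw [mat_NN h hl hM a 1, mat_00 h hl hM a 1]
  have h2 : e ^ 2 * M a 1 1 1 = e * M a 1 0 0 := by
    rw [h1, ← mul_assoc, ← pow_add, show 2 + (a + 1) = a + 3 by ring, ha]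
  have h3 : pc e (cl l e) M a 2 0 0 = (1 / 9) * ((e * cl l e) ^ 2 * M a 0 0 0
      - 2 * (e * cl l e) * M a 1 0 0 + M a 2 0 0) := by
    simp [pc, Finset.sum_range_succ]
    ring
  have h4 : pc e (cl l e) M a 1 1 1 = (1 / 9) * (e * cl l e ^ 2 * M a 0 0 0
      - cl l e * M a 1 0 0 - e * cl l e * M a 1 1 1 + M a 2 1 1) := by
    simp [pc, Finset.sum_range_succ]
    ring
  rw [h3, h4]
  linear_combination (1 / 9) * cl l e * h2

end Pool.Agent.Lib.MP_06b9d2_tls
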