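import Pool.Agent.Lib.MP_06b9d2_tls.Cv
import Pool.Agent.Lib.MP_06b9d2_tls.Low
import Pool.Agent.Lib.MP_06b9d2_tls.Val

/-!
Module TLS-P31. `e = 1`: the third order coefficients are divisible by `27`.

`p30_1` (`a = 1`): `r = 0`: `pc_m00`: `(1 - c) = (1 - l ^ 3) / (l + 1)`, `l ^ 3 - c = l (l ^ 3 - 1) / (l + 1)`, both in `9 O`: `(1 / 27) 9 ^ 3 = 27`. `r = 1`: `pc_301`, `mp_310`, `mp_10` (`729 / 27 = 27`, `3 * 243 / 27 = 27`). `r = 2`: `pc_302`, `mat_int'` with `(j, s) = (2, 0)`: `729 / 27`. `r = 3`: `pc_303`. `r > 3`: `pc_deg`.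
`p30_0`, `p30_2`: let `t = tt (V l A) (V l Y)`, `w = (V l A)⁻¹`, `ρ = C (pr ^ 6)`, `ρ ^ 2 = 3`, `u_i w ^ 3 = ρ u'_i` with `u'_i` integral (`intP_u`). `∑ u_i = 0`: `pc_sum 0 1 0`, `pc_m00` (`l (1 - c) + (l ^ 3 - c) = 0`), `pc_101`. In any commutative ring `(∑ x_i) ^ 3 - ∑ x_i ^ 3` is `3` times an element of the subring generated by the `x_i`
(induction), so `∑ u'_i ^ 3 = 3 y` with `y` integral, `∑ u_i ^ 3 w ^ 9 = ρ ^ 3 3 y = C (pr ^ 30) y`: `pc_bd` with `la = pr ^ 30`, `pc_rat`, `v_rat` with `k = 5`: `≤ (v 3) ^ 3`. (`p30_0`)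
`a = 2`: fix a branch `i₀`, `x_i = br i A * w = x₀ + ρ δ_i` (`intP_A` for `i` and `i₀`), `δ_i` integral. `∑ x_i ^ 2 (u_i w ^ 3) ^ 3 = x₀ ^ 2 S_0 + 2 x₀ ρ ∑ δ_i (u_i w ^ 3) ^ 3 + ρ ^ 2 ∑ δ_i ^ 2 (u_i w ^ 3) ^ 3`; `S_0 = ∑ (u_i w ^ 3) ^ 3` and `S_1 = ∑ x_i (u_i w ^ 3) ^ 3` are `27` times integral elements (`pc_sum` and `p30_0`,
`p30_1`: `∑_r pc_r (1 - t ^ 3) ^ (3 - r) t ^ (3 r)`), `ρ ∑ δ_i (..) = S_1 - x₀ S_0`, and `ρ ^ 2 δ_i ^ 2 (ρ u'_i) ^ 3 = C (pr ^ 30) (..)`. So the sum is `C (pr ^ 30)` times an integral element, and the conclusion is as before.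
-/

namespace Pool.Agent.Lib.MP_06b9d2_tls

open PowerSeries Pool.Agent.L1

open Pool.Agent.Lib.MP_06b9d2_ssp in
private theorem p31_c {O : ValuationSubring ℂ} (h3 : O.valuation 3 < 1) {l : ℕ} (h : l % 3 = 1) :
    O.valuation (cl l 1) ≤ 1 := by
  have e : cl l 1 = (((l : ℤ) * ((l : ℤ) ^ 2 + 1) : ℤ) : ℂ) / (((l : ℤ) + 1 : ℤ) : ℂ) := by
    unfold cl
    push_cast
    ring
  rw [e]
  exact val_rat h3 _ _ (by omega)

theorem p30_1 {A Y : ℂ⟦X⟧} (h : Core A Y) {O : ValuationSubring ℂ} (h3 : O.valuation 3 < 1) {l : ℕ} {s0 : ℂ}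
    (hl : PL l 1 s0) (h9 : l % 9 = 4 ∨ l % 9 = 7) {M : ℕ → ℕ → ℕ → ℕ → ℂ} (hM : MatD l 1 A Y M) (r : ℕ) :
    O.valuation (pc 1 (cl l 1) M 1 3 0 r) ≤ O.valuation 27 := by
  have hl3 : l % 3 = 1 := by omega
  have v27 : O.valuation (27 : ℂ) ≠ 0 := by
    rw [Ne, _root_.map_eq_zero]
    norm_num
  rcases Nat.lt_or_ge 3 r with hr | hr
  · rw [pc_deg (cl l 1) hM 1 3 0 r (by omega), map_zero]
    exact zero_le
  · interval_cases r
    · -- `r = 0`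
      rw [pc_m00 h hl hM 1 3]
      obtain ⟨z, hz⟩ : ∃ z : ℤ, (l : ℤ) ^ 3 - 1 = 9 * z := by
        obtain ⟨m, hm⟩ : ∃ m : ℤ, (l : ℤ) = 3 * m + 1 := ⟨(l : ℤ) / 3, by omega⟩
        exact ⟨3 * m ^ 3 + 3 * m ^ 2 + m, by rw [hm]; ring⟩
      have hzc : (l : ℂ) ^ 3 - 1 = 9 * (z : ℂ) := by exact_mod_cast hz
      have hl1 : (l : ℂ) + 1 ≠ 0 := by
        have : ((l + 1 : ℕ) : ℂ) ≠ 0 := Nat.cast_ne_zero.2 (Nat.succ_ne_zero l)
        push_cast at this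
        exact this
      have e1 : (1 / 3 : ℂ) ^ 3 * ((l : ℂ) * (1 - 1 * cl l 1) ^ 3 +
          (1 * (l : ℂ)) ^ 1 * ((1 * (l : ℂ)) ^ 3 - 1 * cl l 1) ^ 3) =
          27 * ((((9 * (l : ℤ) * z ^ 4 : ℤ) : ℂ)) / ((((l : ℤ) + 1) ^ 3 : ℤ) : ℂ)) := by
        have a1 : 1 - 1 * cl l 1 = -(((l : ℂ) ^ 3 - 1) / ((l : ℂ) + 1)) := by
          unfold cl
          field_simp
          ring
        have a2 : (1 * (l : ℂ)) ^ 3 - 1 * cl l 1 = (l : ℂ) * (((l : ℂ) ^ 3 - 1) / ((l : ℂ) + 1)) := by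
          unfold cl
          field_simp
          ring
        rw [a1, a2]
        push_cast
        have a3 : (l : ℂ) * (-(((l : ℂ) ^ 3 - 1) / ((l : ℂ) + 1))) ^ 3 +
            (1 * (l : ℂ)) ^ 1 * ((l : ℂ) * (((l : ℂ) ^ 3 - 1) / ((l : ℂ) + 1))) ^ 3 =
            (l : ℂ) * ((l : ℂ) ^ 3 - 1) ^ 4 / ((l : ℂ) + 1) ^ 3 := by
          field_simp
          ring
        rw [a3, hzc]
        field_simp
        ring
      rw [e1, map_mul]
      refine mul_le_of_le_one_right' (Pool.Agent.Lib.MP_06b9d2_ssp.val_rat h3 _ _ ?_)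
      intro hd
      have := Int.prime_three.dvd_of_dvd_pow hd
      omega
    · -- `r = 1`
      rw [pc_301 h hl hM 1, map_div₀]
      have h1 : O.valuation (M 1 3 1 0) ≤ O.valuation 729 := mp_310 h h3 hl hM
      have h2 : O.valuation (3 * (1 * cl l 1) * M 1 2 1 0) ≤ O.valuation 729 := by
        have a1 : O.valuation (M 1 2 1 0) ≤ O.valuation 243 := mp_10 h h3 hl h9 hM 1 (by norm_num)
        have a2 : (729 : ℂ) = 3 * (1 * 1) * 243 := by norm_num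
        rw [a2, map_mul, map_mul, map_mul, map_mul, map_mul, map_mul, map_one]
        exact mul_le_mul' (mul_le_mul' le_rfl (mul_le_mul' le_rfl (p31_c h3 hl3))) a1
      have h4 : O.valuation (M 1 3 1 0 - 3 * (1 * cl l 1) * M 1 2 1 0) ≤ O.valuation 729 :=
        (Valuation.map_sub O.valuation _ _).trans (max_le h1 h2)
      have h5 : O.valuation (729 : ℂ) = O.valuation 27 * O.valuation 27 := by
        rw [← map_mul]
        norm_num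
      rw [div_le_iff₀ (zero_lt_iff.2 v27), ← h5]
      exact h4
    · -- `r = 2`
      rw [pc_302 h hl hM 1]
      obtain ⟨z, hz⟩ := mat_int' h hl hM 1 3 2 0 (by norm_num) (by norm_num)
      rw [hz]
      have e1 : (27 : ℂ) ^ (2 - 0) * (z : ℂ) / 27 = 27 * (z : ℂ) := by
        norm_num
        ring
      rw [e1, map_mul]
      exact mul_le_of_le_one_right' (Pool.Agent.Lib.MP_06b9d2_ssp.int_mem O z)
    · -- `r = 3`
      rw [pc_303 h hl hM 1, map_zero]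
      exact zero_le

end Pool.Agent.Lib.MP_06b9d2_tls
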