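import Pool.Agent.Lib.MP_06b9d2_tls.P30

/-!
Module TLS-P32. `e = 1`: the third order coefficients are divisible by `27`.

`p30_1` (`a = 1`): `r = 0`: `pc_m00`: `(1 - c) = (1 - l ^ 3) / (l + 1)`, `l ^ 3 - c = l (l ^ 3 - 1) / (l + 1)`, both in `9 O`: `(1 / 27) 9 ^ 3 = 27`. `r = 1`: `pc_301`, `mp_310`, `mp_10` (`729 / 27 = 27`, `3 * 243 / 27 = 27`). `r = 2`: `pc_302`, `mat_int'` with `(j, s) = (2, 0)`: `729 / 27`. `r = 3`: `pc_303`. `r > 3`: `pc_deg`.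
`p30_0`, `p30_2`: let `t = tt (V l A) (V l Y)`, `w = (V l A)⁻¹`, `ρ = C (pr ^ 6)`, `ρ ^ 2 = 3`, `u_i w ^ 3 = ρ u'_i` with `u'_i` integral (`intP_u`). `∑ u_i = 0`: `pc_sum 0 1 0`, `pc_m00` (`l (1 - c) + (l ^ 3 - c) = 0`), `pc_101`. In any commutative ring `(∑ x_i) ^ 3 - ∑ x_i ^ 3` is `3` times an element of the subring generated by the `x_i`
(induction), so `∑ u'_i ^ 3 = 3 y` with `y` integral, `∑ u_i ^ 3 w ^ 9 = ρ ^ 3 3 y = C (pr ^ 30) y`: `pc_bd` with `la = pr ^ 30`, `pc_rat`, `v_rat` with `k = 5`: `≤ (v 3) ^ 3`. (`p30_0`)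
`a = 2`: fix a branch `i₀`, `x_i = br i A * w = x₀ + ρ δ_i` (`intP_A` for `i` and `i₀`), `δ_i` integral. `∑ x_i ^ 2 (u_i w ^ 3) ^ 3 = x₀ ^ 2 S_0 + 2 x₀ ρ ∑ δ_i (u_i w ^ 3) ^ 3 + ρ ^ 2 ∑ δ_i ^ 2 (u_i w ^ 3) ^ 3`; `S_0 = ∑ (u_i w ^ 3) ^ 3` and `S_1 = ∑ x_i (u_i w ^ 3) ^ 3` are `27` times integral elements (`pc_sum` and `p30_0`,
`p30_1`: `∑_r pc_r (1 - t ^ 3) ^ (3 - r) t ^ (3 r)`), `ρ ∑ δ_i (..) = S_1 - x₀ S_0`, and `ρ ^ 2 δ_i ^ 2 (ρ u'_i) ^ 3 = C (pr ^ 30) (..)`. So the sum is `C (pr ^ 30)` times an integral element, and the conclusion is as before.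
-/

namespace Pool.Agent.Lib.MP_06b9d2_tls

open PowerSeries Pool.Agent.L1

private theorem p32_pr : (pr : ℂ) ≠ 0 := by
  intro h
  have h1 := pr_pow
  rw [h] at h1
  norm_num at h1

private theorem p32_27 {O : ValuationSubring ℂ} (h3 : O.valuation 3 < 1) :
    O.valuation (27 * (pr ^ 30)⁻¹) ≤ 1 := by
  have h1 : (27 : ℂ) * (pr ^ 30)⁻¹ = pr ^ 6 := by
    have h2 : (27 : ℂ) = (pr ^ 12) ^ 3 := by rw [pr_pow]; norm_num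
    rw [h2, ← pow_mul]
    field_simp [p32_pr]
  rw [h1, map_pow]
  exact pow_le_one' (v_pr h3).2.1.le 6

private theorem p32_int {A Y : ℂ⟦X⟧} (h : Core A Y) {O : ValuationSubring ℂ} (h3 : O.valuation 3 < 1)
    {l : ℕ} {s0 : ℂ} (hl : PL l 1 s0) {M : ℕ → ℕ → ℕ → ℕ → ℂ} (hM : MatD l 1 A Y M) (a : ℕ) [Fact (a < 3)]
    (h1 : ∀ r, O.valuation (pc 1 (cl l 1) M a 3 0 r) ≤ O.valuation 27) :
    Ig O (tt (V l A) (V l Y)) ((∑ i : Option (Fin l), br l 1 i A ^ a * ub l 1 A Y i ^ 3 * vb l 1 Y i ^ 0) *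
      (V l A)⁻¹ ^ (a + 9) * C ((pr ^ 30)⁻¹)) := by
  have hW : V l A * (V l A)⁻¹ = 1 := by
    refine PowerSeries.mul_inv_cancel _ ?_
    rw [(bs_V h O hl.1.ne_zero).a0]
    exact one_ne_zero
  rw [pc_sum h hl hM a 3 0, Finset.sum_mul, Finset.sum_mul]
  refine Ig_sum _ fun r hr => ?_
  have hr3 : r ≤ 3 := by
    have := Finset.mem_range.1 hr
    omega
  have hv : O.valuation (pc 1 (cl l 1) M a 3 0 r * (pr ^ 30)⁻¹) ≤ 1 := by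
    refine le_trans ?_ (p32_27 h3)
    rw [map_mul, map_mul]
    exact mul_le_mul_left (h1 r) _
  obtain ⟨n, hn⟩ : ∃ n, 3 = n + r := ⟨3 - r, by omega⟩
  have e1 : (3 + 0 - r) = n := by omega
  have e2 : a + 9 = a + 3 * n + 3 * r := by omega
  have key : pc 1 (cl l 1) M a 3 0 r • moX (V l A) (V l Y) a (3 + 0) r * (V l A)⁻¹ ^ (a + 9) *
      C ((pr ^ 30)⁻¹) = C (pc 1 (cl l 1) M a 3 0 r * (pr ^ 30)⁻¹) *
        ((1 - tt (V l A) (V l Y) ^ 3) ^ n * (tt (V l A) (V l Y) ^ 3) ^ r) := by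
    unfold moX
    rw [e1, e2, PowerSeries.smul_eq_C_mul, map_mul]
    have e3 : (1 : ℂ⟦X⟧) - tt (V l A) (V l Y) ^ 3 = (V l A ^ 3 - V l Y ^ 3) * (V l A)⁻¹ ^ 3 := by
      unfold tt
      calc (1 : ℂ⟦X⟧) - (V l Y * (V l A)⁻¹) ^ 3 = 1 ^ 3 - (V l Y * (V l A)⁻¹) ^ 3 := by ring
        _ = (V l A * (V l A)⁻¹) ^ 3 - (V l Y * (V l A)⁻¹) ^ 3 := by rw [hW]
        _ = _ := by ring
    have e4 : tt (V l A) (V l Y) ^ 3 = V l Y ^ 3 * (V l A)⁻¹ ^ 3 := by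
      unfold tt
      ring
    rw [e3, e4, mul_pow, mul_pow]
    have e5 : V l A ^ a * (V l A)⁻¹ ^ a = 1 := by rw [← mul_pow, hW, one_pow]
    have e6 : (V l A)⁻¹ ^ (a + 3 * n + 3 * r) =
        (V l A)⁻¹ ^ a * ((V l A)⁻¹ ^ 3) ^ n * ((V l A)⁻¹ ^ 3) ^ r := by
      rw [pow_add, pow_add, pow_mul, pow_mul]
    rw [e6]
    linear_combination (C (pc 1 (cl l 1) M a 3 0 r) * C ((pr ^ 30)⁻¹) *
      ((V l A ^ 3 - V l Y ^ 3) ^ n * ((V l A)⁻¹ ^ 3) ^ n * ((V l Y ^ 3) ^ r * ((V l A)⁻¹ ^ 3) ^ r))) * e5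
  rw [key]
  have h11 : Ig O (tt (V l A) (V l Y)) (1 : ℂ⟦X⟧) := by
    have := Ig_pow (Ig_t (O := O) (t := tt (V l A) (V l Y))) 0
    rwa [pow_zero] at this
  exact Ig_mul (Ig_C hv) (Ig_mul (Ig_pow (Ig_sub h11 (Ig_pow Ig_t 3)) n) (Ig_pow (Ig_pow Ig_t 3) r))

theorem p30_2 {A Y : ℂ⟦X⟧} (h : Core A Y) {O : ValuationSubring ℂ} (h3 : O.valuation 3 < 1) {l : ℕ} {s0 : ℂ}
    (hl : PL l 1 s0) {M : ℕ → ℕ → ℕ → ℕ → ℂ} (hM : MatD l 1 A Y M)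
    (h1 : ∀ r, O.valuation (pc 1 (cl l 1) M 1 3 0 r) ≤ O.valuation 27) (r : ℕ) :
    O.valuation (pc 1 (cl l 1) M 2 3 0 r) ≤ O.valuation 27 := by
  obtain ⟨q, hq⟩ := pc_rat h hl hM 2 3 0 r
  have key : O.valuation (pc 1 (cl l 1) M 2 3 0 r) ≤ O.valuation (pr ^ 30) := by
    refine pc_bd h h3 hl hM 2 3 0 (pr ^ 30) (pow_ne_zero _ p32_pr) ?_ r
    have hW : V l A * (V l A)⁻¹ = 1 := by
      refine PowerSeries.mul_inv_cancel _ ?_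
      rw [(bs_V h O hl.1.ne_zero).a0]
      exact one_ne_zero
    have i0 := p32_int h h3 hl hM 0 (fun r => p30_0 h h3 hl hM r)
    have i1 := p32_int h h3 hl hM 1 h1
    have hc1 : (C ((pr ^ 6)⁻¹) : ℂ⟦X⟧) * C (pr ^ 6) = 1 := by
      rw [← map_mul, inv_mul_cancel₀ (pow_ne_zero _ p32_pr), map_one]
    have hc2 : (C (pr ^ 6) : ℂ⟦X⟧) ^ 5 * C ((pr ^ 30)⁻¹) = 1 := by
      rw [← map_pow, ← pow_mul, ← map_mul, mul_inv_cancel₀ (pow_ne_zero _ p32_pr), map_one]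
    have hW' : (V l A)⁻¹ ^ 11 = (V l A)⁻¹ ^ 11 := rfl
    obtain ⟨W, hWd⟩ : ∃ W, W = (V l A)⁻¹ := ⟨_, rfl⟩
    obtain ⟨ρ, hρ⟩ : ∃ ρ : ℂ⟦X⟧, ρ = C (pr ^ 6) := ⟨_, rfl⟩
    obtain ⟨ρ', hρ'⟩ : ∃ ρ' : ℂ⟦X⟧, ρ' = C ((pr ^ 6)⁻¹) := ⟨_, rfl⟩
    obtain ⟨κ, hκ⟩ : ∃ κ : ℂ⟦X⟧, κ = C ((pr ^ 30)⁻¹) := ⟨_, rfl⟩
    have hd : ∀ i : Option (Fin l), Ig O (tt (V l A) (V l Y)) ((br l 1 i A - V l A) * W * ρ') := by
      intro i
      rw [hWd, hρ']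
      exact intP_A h h3 hl i
    have hu : ∀ i : Option (Fin l), Ig O (tt (V l A) (V l Y)) (ub l 1 A Y i * W ^ 3 * ρ') := by
      intro i
      rw [hWd, hρ']
      exact intP_u h h3 hl i
    rw [← hWd] at i0 i1 hW ⊢
    rw [← hκ] at i0 i1 hc2 ⊢
    rw [← hρ] at hc1 hc2
    rw [← hρ'] at hc1
    have hterm : ∀ i : Option (Fin l),
        br l 1 i A ^ 2 * ub l 1 A Y i ^ 3 * vb l 1 Y i ^ 0 * W ^ (2 + 3 * (3 + 0)) * κ =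
        2 * (br l 1 i A ^ 1 * ub l 1 A Y i ^ 3 * vb l 1 Y i ^ 0 * W ^ (1 + 9) * κ) -
        br l 1 i A ^ 0 * ub l 1 A Y i ^ 3 * vb l 1 Y i ^ 0 * W ^ (0 + 9) * κ +
        ((br l 1 i A - V l A) * W * ρ') ^ 2 * (ub l 1 A Y i * W ^ 3 * ρ') ^ 3 := by
      intro i
      have a1 : ((br l 1 i A - V l A) * W * ρ') ^ 2 * (ub l 1 A Y i * W ^ 3 * ρ') ^ 3 =
          ((br l 1 i A - V l A) * W) ^ 2 * (ub l 1 A Y i * W ^ 3) ^ 3 * κ := by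
        have a2 : ρ' ^ 5 = κ := by
          calc ρ' ^ 5 = ρ' ^ 5 * (ρ ^ 5 * κ) := by rw [hc2, mul_one]
            _ = (ρ' * ρ) ^ 5 * κ := by ring
            _ = κ := by rw [hc1, one_pow, one_mul]
        rw [← a2]
        ring
      rw [a1]
      have a3 : (br l 1 i A - V l A) * W = br l 1 i A * W - 1 := by
        rw [sub_mul, hW]
      rw [a3]
      ring
    have hsum : (∑ i : Option (Fin l), br l 1 i A ^ 2 * ub l 1 A Y i ^ 3 * vb l 1 Y i ^ 0) *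
        W ^ (2 + 3 * (3 + 0)) * κ =
        2 * ((∑ i : Option (Fin l), br l 1 i A ^ 1 * ub l 1 A Y i ^ 3 * vb l 1 Y i ^ 0) * W ^ (1 + 9) * κ) -
        (∑ i : Option (Fin l), br l 1 i A ^ 0 * ub l 1 A Y i ^ 3 * vb l 1 Y i ^ 0) * W ^ (0 + 9) * κ +
        ∑ i : Option (Fin l),
          ((br l 1 i A - V l A) * W * ρ') ^ 2 * (ub l 1 A Y i * W ^ 3 * ρ') ^ 3 := by
      simp only [Finset.sum_mul, Finset.mul_sum]
      rw [← Finset.sum_sub_distrib, ← Finset.sum_add_distrib]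
      exact Finset.sum_congr rfl fun i _ => hterm i
    rw [hsum]
    refine Ig_add (Ig_sub ?_ i0) (Ig_sum _ fun i _ => Ig_mul (Ig_pow (hd i) 2) (Ig_pow (hu i) 3))
    rw [two_mul]
    exact Ig_add i1 i1
  rw [hq] at key ⊢
  have h9 : O.valuation ((q : ℚ) : ℂ) ≤ O.valuation pr ^ (6 * 5) := by
    rw [← map_pow]
    exact key
  refine (v_rat h3 q 5 h9).trans (le_of_eq ?_)
  rw [← map_pow]
  norm_num

end Pool.Agent.Lib.MP_06b9d2_tls
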