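import Pool.Agent.Lib.MP_06b9d2_tls.PcI
import Pool.Agent.Lib.MP_06b9d2_tls.P31
import Pool.Agent.Lib.MP_06b9d2_tls.P32

/-!
Module TLS-DatB. The data for `e = 1`.

`κ m n r = pc 1 c M a m n r`, `c = cl l 1 = l (l ^ 2 + 1) / (l + 1)`, prime to `3` (`l ≡ 1`). `deg`: `pc_deg`. `int`: `pcP`. `h101`, `h010`: `pc_101`; `h011`, `h022`: `pc_sym` (`e = 1`); `h202`, `h020`: `pc_202`; `h110`, `h112`: `pc_110`; `h201`: `pc_201`, `mp_10` (`243 / 9 = 27`); `h021`: `pc_sym` with `(2, 0, 1)`.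
`h30`: `p30_0`, `p30_1`, `p30_2`; `h03`: `pc_sym` with `(3, 0, 3 - r)` for `r ≤ 3`, `pc_deg` otherwise. `ht`: `pc_dif` (`e = 1`), `mp_d`: `81 / 9 = 9`.
-/

namespace Pool.Agent.Lib.MP_06b9d2_tls

open PowerSeries Pool.Agent.L1

private theorem cl_v {O : ValuationSubring ℂ} (h3 : O.valuation 3 < 1) {l : ℕ}
    (h9 : l % 9 = 4 ∨ l % 9 = 7) : O.valuation (cl l 1) = 1 := by
  have h1 : O.valuation ((l : ℕ) : ℂ) = 1 := v_prime h3 l (by omega)
  have h2 : O.valuation (((l ^ 2 + 1 : ℕ)) : ℂ) = 1 := by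
    refine v_prime h3 _ fun h => ?_
    have h4 : (l ^ 2 + 1) % 3 = 0 := Nat.mod_eq_zero_of_dvd h
    have h5 : l % 3 = 1 := by omega
    rw [Nat.add_mod, Nat.pow_mod, h5] at h4
    exact absurd h4 (by decide)
  have h4 : O.valuation (((l + 1 : ℕ)) : ℂ) = 1 := v_prime h3 _ (by omega)
  have h5 : cl l 1 = (l : ℂ) * ((l ^ 2 + 1 : ℕ) : ℂ) / ((l + 1 : ℕ) : ℂ) := by
    unfold cl
    push_cast
    ring
  rw [h5, map_div₀, map_mul, h1, h2, h4, one_mul, div_one]

private theorem v_div {O : ValuationSubring ℂ} (x : ℂ) (a b : ℂ) (hb : b ≠ 0)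
    (h : O.valuation x ≤ O.valuation (a * b)) : O.valuation (x / b) ≤ O.valuation a := by
  have h1 : O.valuation b ≠ 0 := (map_ne_zero _).mpr hb
  rw [map_div₀, div_le_iff₀ (zero_lt_iff.mpr h1), ← map_mul]
  exact h

theorem datP {A Y : ℂ⟦X⟧} (h : Core A Y) {O : ValuationSubring ℂ} (h3 : O.valuation 3 < 1) {l : ℕ} {s0 : ℂ}
    (hl : PL l 1 s0) (h9 : l % 9 = 4 ∨ l % 9 = 7) {M : ℕ → ℕ → ℕ → ℕ → ℂ} (hM : MatD l 1 A Y M)
    (a : ℕ) (ha : a ≤ 2) :
    DatP O (cl l 1) (fun m n r => pc 1 (cl l 1) M a m n r) := by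
  have : Fact (a < 3) := ⟨by omega⟩
  have he : (1 : ℂ) ^ 2 = 1 := one_pow 2
  have sym : ∀ m n r : ℕ, r ≤ m + n → pc 1 (cl l 1) M a n m (m + n - r) = pc 1 (cl l 1) M a m n r := by
    intro m n r hr
    have h1 := pc_sym he (cl l 1) hM a m n r hr
    rwa [one_pow, one_mul] at h1
  have h201 : O.valuation (pc 1 (cl l 1) M a 2 0 1) ≤ O.valuation 27 := by
    rw [pc_201 h hl hM a]
    refine v_div _ _ _ (by norm_num) ?_
    have h1 := mp_10 h h3 hl h9 hM a ha
    have h2 : (27 : ℂ) * 9 = 243 := by norm_num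
    rw [h2]
    exact h1
  have h30 : ∀ r, O.valuation (pc 1 (cl l 1) M a 3 0 r) ≤ O.valuation 27 := by
    intro r
    interval_cases a
    · exact p30_0 h h3 hl hM r
    · exact p30_1 h h3 hl h9 hM r
    · exact p30_2 h h3 hl hM (fun r => p30_1 h h3 hl h9 hM r) r
  exact
    { hc := cl_v h3 h9
      deg := fun m n r hr => pc_deg (cl l 1) hM a m n r hr
      int := fun m n r => pcP h h3 hl hM a m n r
      h101 := (pc_101 h hl hM a).1
      h010 := (pc_101 h hl hM a).2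
      h011 := sym 1 0 0 (by omega)
      h202 := (pc_202 h hl hM a).1
      h020 := (pc_202 h hl hM a).2
      h022 := sym 2 0 0 (by omega)
      h110 := (pc_110 h hl hM a).1
      h112 := (pc_110 h hl hM a).2
      h201 := h201
      h021 := by
        have h1 := sym 2 0 1 (by omega)
        show O.valuation (pc 1 (cl l 1) M a 0 2 1) ≤ _
        have h2 : 2 + 0 - 1 = 1 := rfl
        rw [h2] at h1
        rw [h1]
        exact h201
      h30 := h30
      h03 := by
        intro r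
        show O.valuation (pc 1 (cl l 1) M a 0 3 r) ≤ _
        by_cases hr : r ≤ 3
        · have h1 := sym 3 0 (3 - r) (by omega)
          have h2 : 3 + 0 - (3 - r) = r := by omega
          rw [h2] at h1
          rw [h1]
          exact h30 (3 - r)
        · rw [pc_deg (cl l 1) hM a 0 3 r (by omega), map_zero]
          exact zero_le
      ht := by
        show O.valuation (pc 1 (cl l 1) M a 2 0 0 - pc 1 (cl l 1) M a 1 1 1) = _
        have h1 := pc_dif h hl hM a (by rw [one_pow])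
        rw [one_mul, one_mul] at h1
        rw [h1, map_div₀, mp_d h h3 hl h9 hM a ha]
        have h2 : (81 : ℂ) = 9 * 9 := by norm_num
        have h4 : O.valuation (9 : ℂ) ≠ 0 := (map_ne_zero _).mpr (by norm_num)
        rw [h2, map_mul, mul_div_assoc, div_self h4, mul_one] }

end Pool.Agent.Lib.MP_06b9d2_tls
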