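import Pool.Agent.Lib.MP_06b9d2_tls.PrK
import Pool.Agent.Lib.MP_06b9d2_tls.MainL
import Pool.Agent.Lib.MP_06b9d2_p2.Pow
import Pool.Agent.Lib.MP_06b9d2_p2.LinP
import Pool.Agent.Lib.MP_06b9d2_p2.Cheb1

/-!
Board TLS: the eigenspaces of `T_(l^j)`, `j ≥ 1`, have dimension at most one.
-/

namespace Pool.Agent.Lib.MP_06b9d2_tls

open PowerSeries Pool.Agent.L1 UpperHalfPlane Pool.Agent.Lib.MP_06b9d2_nt
open Pool.Agent.Lib.MP_06b9d2_ssp (Lv mo rep ind val_int int_mem)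
open Pool.Agent.Lib.MP_06b9d2_p2 (Up Up_eval hecke_pow hecke_ex ker_of_inj Uc Uc_inj Uc_inj1)
open scoped MatrixGroups ModularForm

/-- what is used about the matrix of `T_l` in weight `k` for the operators `T_(l^j)` -/
def PosM (O : ValuationSubring ℂ) (l k N : ℕ) (Mx : ℕ → ℕ → ℂ) : Prop :=
  (TwoPm Mx N ∧ ∀ j ≤ N, ∀ s ≤ N, O.valuation (Mx j s) ≤ O.valuation 3) ∨
  (∃ d : ℂ, (∀ j ≤ N, ∀ s ≤ N, O.valuation (Mx j s - if j = s then d else 0) ≤
      O.valuation 3 ^ 2) ∧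
    O.valuation (d - (1 + (l : ℂ) ^ k / l)) ≤ O.valuation 3 ^ 2 ∧ l % 3 = 1)

/-- what is used about the prime `l` for the operators `T_(l^j)` -/
def HypM (l : ℕ) : Prop := ∃ (O : ValuationSubring ℂ) (a c : ℂ⟦X⟧), O.valuation 3 < 1 ∧ Lv a c ∧
  ∀ eps N : ℕ, eps ≤ 2 → Even (N + eps) → ∃ Mx : ℕ → ℕ → ℂ,
    (∀ s ≤ N, Tl l (3 * N + eps) (mo a c eps N s) =
      ∑ j ∈ Finset.range (N + 1), Mx j s • mo a c eps N j) ∧
    (∀ j s, j ≤ N → s ≤ N → Mx (N - j) (N - s) = Mx j s) ∧ PosM O l (3 * N + eps) N Mx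

private theorem root_ex {O : ValuationSubring ℂ} (h3 : O.valuation 3 < 1) {M : ℂ}
    (hM : O.valuation (M - 1) ≤ O.valuation 3) :
    ∃ r : ℂ, r ^ 2 = M ∧ O.valuation (r - 1) ≤ O.valuation 3 := by
  obtain ⟨r, hr⟩ : ∃ r : ℂ, M = r * r := IsAlgClosed.exists_eq_mul_self M
  have h2 : O.valuation (2 : ℂ) = 1 := by
    have := val_int h3 2 (by norm_num)
    simpa using this
  have hfac : O.valuation (r - 1) * O.valuation (r + 1) ≤ O.valuation 3 := by
    rw [← map_mul]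
    have : (r - 1) * (r + 1) = M - 1 := by rw [hr]; ring
    rw [this]
    exact hM
  have hr1 : O.valuation r ≤ 1 := by
    by_contra hc
    rw [not_le] at hc
    have h4 : O.valuation (r * r) ≤ 1 := by
      rw [← hr]
      have h5 : M = (M - 1) + 1 := by ring
      rw [h5]
      exact Valuation.map_add_le _ (hM.trans h3.le) (by rw [map_one])
    rw [map_mul] at h4
    exact absurd h4 (not_le.2 (one_lt_mul'' hc hc))
  by_cases hc : O.valuation (r + 1) = 1
  · refine ⟨r, by rw [hr]; ring, ?_⟩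
    rw [hc, mul_one] at hfac
    exact hfac
  · have h5 : O.valuation (r + 1) < 1 :=
      lt_of_le_of_ne (Valuation.map_add_le _ hr1 (by rw [map_one])) hc
    have h6 : O.valuation (r - 1) = 1 := by
      have e1 : r - 1 = (r + 1) - 2 := by ring
      rw [e1, Valuation.map_sub_eq_of_lt_right _ (by rw [h2]; exact h5), h2]
    refine ⟨-r, by rw [hr]; ring, ?_⟩
    rw [h6, one_mul] at hfac
    have e2 : -r - 1 = -(r + 1) := by ring
    rw [e2, Valuation.map_neg]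
    exact hfac

/-- `U_j` is injective on the eigenvalues of `T_l` -/
theorem eig_inj {l : ℕ} (hl : l.Prime) (hl3 : l ≠ 3) (H : HypM l) (k : ℕ) (hk : Even k)
    (T : CuspForm 𝒮ℒ (k : ℤ) →ₗ[ℂ] CuspForm 𝒮ℒ (k : ℤ)) (hT : IsHecke (k : ℤ) l T) (i : ℕ)
    (hi : 1 ≤ i) (a b : ℂ) (ha : Module.End.HasEigenvalue T a) (hb : Module.End.HasEigenvalue T b)
    (hab : Uc ((l : ℂ) ^ ((k : ℤ) - 1)) a i = Uc ((l : ℂ) ^ ((k : ℤ) - 1)) b i) : a = b := by
  obtain ⟨O, a', c', h3, h, hM⟩ := H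
  have hl0 : (l : ℂ) ≠ 0 := by exact_mod_cast hl.ne_zero
  have hl3' : ¬ (3 : ℤ) ∣ (l : ℤ) := by
    intro hd
    have h1 : 3 ∣ l := by exact_mod_cast hd
    exact hl3 ((Nat.prime_dvd_prime_iff_eq Nat.prime_three hl).1 h1).symm
  have hlv : O.valuation (l : ℂ) = 1 := by
    have := val_int h3 (l : ℤ) hl3'
    simpa using this
  obtain ⟨K, hK⟩ : ∃ K : ℂ, K = (l : ℂ) ^ k / l := ⟨_, rfl⟩
  have hKz : (l : ℂ) ^ ((k : ℤ) - 1) = K := by
    rw [zpow_sub_one₀ hl0, zpow_natCast, hK, div_eq_mul_inv]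
  rw [hKz] at hab
  have hKv : O.valuation K = 1 := by
    rw [hK, map_div₀, map_pow, hlv, one_pow, div_one]
  obtain ⟨N, hN⟩ : ∃ N, N = k / 3 := ⟨_, rfl⟩
  obtain ⟨e, he⟩ : ∃ e, e = k % 3 := ⟨_, rfl⟩
  have hk3 : 3 * N + e = k := by omega
  have he2 : e ≤ 2 := by omega
  have hev : Even (N + e) := by
    rw [Nat.even_iff] at hk ⊢
    omega
  obtain ⟨Mx, hMx, hsym, hpos⟩ := hM e N he2 hev
  rw [hk3] at hMx hpos
  obtain ⟨X, hX0, lead, hEg⟩ := coord_gen l hl k N (mo a' c' e N) Mx hMx (fun x hx => ind h e N x hx)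
    (by
      intro j _ hj
      have := rep h k j hj
      rw [← hN, ← he] at this
      obtain ⟨y, y1, y2, y3, y4, y5⟩ := this
      exact ⟨y, y1, y2, fun s hs => y3 s (by omega), by omega, y5⟩) T hT
  obtain ⟨f, hf⟩ := ha.exists_hasEigenvector
  obtain ⟨g, hg⟩ := hb.exists_hasEigenvector
  have hf1 : T f = a • f := Module.End.mem_eigenspace_iff.1 hf.1
  have hg1 : T g = b • g := Module.End.mem_eigenspace_iff.1 hg.1
  have hex : ∀ f : CuspForm 𝒮ℒ (k : ℤ), f ≠ 0 → ∃ s ≤ N, X f s ≠ 0 := by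
    intro f hf
    obtain ⟨p, hp1, hp2, _, hp4, _⟩ := lead f hf
    exact ⟨p, by omega, hp4⟩
  rcases hpos with ⟨h2, hv⟩ | ⟨d, hv, hd, hl1⟩
  · have hv' : ∀ j ≤ N, ∀ s ≤ N, O.valuation (Mx j s - if j = s then 0 else 0) ≤ O.valuation 3 := by
      intro j hj s hs
      rw [ite_self, sub_zero]
      exact hv j hj s hs
    have va := eig_small (O.valuation 3) hv' (hEg a f hf1) (hex f hf.2)
    have vb := eig_small (O.valuation 3) hv' (hEg b g hg1) (hex g hg.2)
    rw [sub_zero] at va vb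
    rcases Uc_inj h3 hKv i hi va vb hab with h4 | h4
    · exact h4
    · exfalso
      rw [h4] at hf1
      exact no_pm T N Mx hsym h2 X hX0 lead hEg b g f hg1 hf1 hg.2 hf.2
  · have va := eig_small (O.valuation 3 ^ 2) hv (hEg a f hf1) (hex f hf.2)
    have vb := eig_small (O.valuation 3 ^ 2) hv (hEg b g hg1) (hex g hg.2)
    have hK1 : O.valuation (K - 1) ≤ O.valuation 3 := by
      have h5 : (3 : ℤ) ∣ (l : ℤ) ^ k - (l : ℤ) := by
        have h6 : (l : ℤ) ≡ 1 [ZMOD 3] := by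
          have : (l : ℤ) % 3 = 1 := by exact_mod_cast hl1
          rw [Int.ModEq, this]
          rfl
        have h7 : (l : ℤ) ^ k ≡ (l : ℤ) [ZMOD 3] := by
          have := h6.pow k
          rw [one_pow] at this
          exact this.trans h6.symm
        exact (Int.modEq_iff_dvd.1 h7.symm)
      obtain ⟨z, hz⟩ := h5
      have h6 : K - 1 = 3 * ((z : ℂ) / l) := by
        have h7 : (l : ℂ) ^ k - l = 3 * (z : ℂ) := by exact_mod_cast hz
        rw [hK]
        field_simp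
        exact h7
      rw [h6, map_mul, map_div₀, hlv, div_one]
      calc O.valuation 3 * O.valuation (z : ℂ) ≤ O.valuation 3 * 1 :=
            mul_le_mul' le_rfl (int_mem O z)
        _ = O.valuation 3 := mul_one _
    obtain ⟨r, hr, hr1⟩ := root_ex h3 hK1
    have hrv : O.valuation r = 1 := by
      have h5 : O.valuation r ^ 2 = 1 := by rw [← map_pow, hr, hKv]
      exact (pow_eq_one_iff.1 h5).resolve_right (by norm_num)
    have hkey : ∀ x : ℂ, O.valuation (x - d) ≤ O.valuation 3 ^ 2 →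
        O.valuation (x - 2 * r) ≤ O.valuation 3 ^ 2 := by
      intro x hx
      have h5 : x - 2 * r = ((x - d) + (d - (1 + (l : ℂ) ^ k / l))) + (r - 1) ^ 2 := by
        rw [← hK, ← hr]
        ring
      rw [h5]
      refine Valuation.map_add_le _ (Valuation.map_add_le _ hx hd) ?_
      rw [map_pow]
      exact pow_le_pow_left' hr1 2
    rw [← hr] at hab
    exact Uc_inj1 h3 hrv i hi (hkey a va) (hkey b vb) hab

theorem kerOne_pow {l : ℕ} (hl : l.Prime) (hl3 : l ≠ 3) (H1 : KerOne l) (H : HypM l) (i : ℕ)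
    (hi : 1 ≤ i) : KerOne (l ^ i) := by
  classical
  intro k hk T' hT' lam
  have := fin_cusp (k : ℤ)
  have : NeZero l := ⟨hl.ne_zero⟩
  obtain ⟨T, hT⟩ := hecke_ex (k : ℤ) l hl.ne_zero
  obtain ⟨F, _, _, _, hcard⟩ := main H1 (k : ℤ) (by exact_mod_cast hk) T hT
  rw [hecke_pow hl hT i T' hT']
  refine ker_of_inj (by convert hcard) _ (fun a b ha hb hab => ?_) lam
  rw [Up_eval, Up_eval] at hab
  exact eig_inj hl hl3 H k hk T hT i hi a b ha hb hab

end Pool.Agent.Lib.MP_06b9d2_tls
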