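import Pool.Agent.Lib.MP_06b9d2_tls.PcMat
import Pool.Agent.Lib.MP_06b9d2_tls.DatA
import Pool.Agent.Lib.MP_06b9d2_tls.DatB
import Pool.Agent.Lib.MP_06b9d2_tls.CoreS
import Pool.Agent.Lib.MP_06b9d2_tls.PrZ

/-!
Board TLS: what is used about the prime `l` for the operators `T_(l^j)` (as in TwoL).
-/

namespace Pool.Agent.Lib.MP_06b9d2_tls

open PowerSeries Pool.Agent.L1 Pool.Agent.Lib.MP_06b9d2_ssp

private theorem two_scale {Mx My : ℕ → ℕ → ℂ} {N : ℕ} (r : ℂ) (hr : r ≠ 0)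
    (h : ∀ j ≤ N, ∀ s ≤ N, Mx j s = r * My j s) (hy : TwoPm My N) : TwoPm Mx N := by
  have key : ∀ (lam : ℂ) (x : ℕ → ℂ), EgG Mx N lam x → EgG My N (lam / r) x := by
    intro lam x hx j hj
    have h1 := hx j hj
    have h2 : ∑ s ∈ Finset.range (N + 1), Mx j s * x s =
        r * ∑ s ∈ Finset.range (N + 1), My j s * x s := by
      rw [Finset.mul_sum]
      refine Finset.sum_congr rfl fun s hs => ?_
      rw [h j hj s (Nat.lt_succ_iff.1 (Finset.mem_range.1 hs))]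
      ring
    rw [h2] at h1
    apply mul_left_cancel₀ hr
    rw [h1, ← mul_assoc, mul_div_cancel₀ _ hr]
  intro lam
  obtain ⟨L, hL⟩ := hy (lam / r)
  refine ⟨L, fun x y hx hy' hxs hys h0 => hL x y (key _ _ hx) ?_ hxs hys h0⟩
  rw [← neg_div]
  exact key _ _ hy'

private theorem MG_third (e c : ℂ) (κ : ℕ → ℕ → ℕ → ℂ) (N j s : ℕ) :
    MG e c κ N j s = 3 * MG e c (fun m n r => κ m n r / 3) N j s := by
  unfold MG
  rw [Finset.mul_sum]
  refine Finset.sum_congr rfl fun m _ => ?_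
  rw [Finset.mul_sum]
  refine Finset.sum_congr rfl fun n _ => ?_
  split_ifs
  · ring
  · ring

private theorem map_e4 : PowerSeries.map (Int.castRingHom ℂ) (e4 ℤ) = e4 ℂ := by
  unfold e4
  ext n
  simp

private theorem map_e6 : PowerSeries.map (Int.castRingHom ℂ) (e6 ℤ) = e6 ℂ := by
  unfold e6
  ext n
  simp

private theorem V_mo {A Y : ℂ⟦X⟧} {a k c : ℤ⟦X⟧} (q : Qd A Y a k c) (ε N s : ℕ) :
    V 3 (mo (PowerSeries.map (Int.castRingHom ℂ) a) (PowerSeries.map (Int.castRingHom ℂ) c) ε N s) =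
      moX A Y ε N s := by
  have h3 : (3 : ℕ) ≠ 0 := three_ne_zero
  unfold mo moX
  rw [V_mul h3, V_mul h3, V_pow h3, V_pow h3, V_pow h3, V_sub h3, V_pow h3, ← q.hA, ← q.hY3]

private theorem TT_Tl {l : ℕ} (hl : l ≠ 0) {e : ℂ} (he : e ^ 2 = 1) {w : ℕ} (hw : Even w) (f : ℂ⟦X⟧) :
    TT l e w f = (l : ℂ) • Tl l w f := by
  obtain ⟨v, rfl⟩ := hw
  have h1 : (e * l) ^ (v + v) = (l : ℂ) ^ (v + v) := by
    rw [mul_pow, ← two_mul, pow_mul, he, one_pow, one_mul]
  have h2 : (l : ℂ) ≠ 0 := by exact_mod_cast hl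
  rw [TT, Tl, h1, smul_add, smul_smul, mul_div_cancel₀ _ h2]

theorem hypM_l (l : ℕ) (hl : l.Prime) (h9 : l % 9 = 2 ∨ l % 9 = 4 ∨ l % 9 = 5 ∨ l % 9 = 7) :
    HypM l := by
  obtain ⟨A, Y, h⟩ := core_ex
  obtain ⟨a, k, c, q⟩ := qd_ex h
  obtain ⟨O, h3⟩ := exists_O
  have hl0 : (l : ℂ) ≠ 0 := by exact_mod_cast hl.ne_zero
  have hl3 : l ≠ 3 := by
    rintro rfl
    omega
  have hlv : O.valuation (l : ℂ) = 1 := by
    have := val_int h3 (l : ℤ) (by omega)
    simpa using this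
  -- the sign
  obtain ⟨e, s0, hPL, hcase⟩ : ∃ e s0 : ℂ, PL l e s0 ∧
      ((e = -1 ∧ (l % 9 = 2 ∨ l % 9 = 5)) ∨ (e = 1 ∧ (l % 9 = 4 ∨ l % 9 = 7))) := by
    by_cases h2 : l % 9 = 2 ∨ l % 9 = 5
    · exact ⟨-1, om ^ 2, ⟨hl, Or.inr ⟨by omega, rfl, rfl⟩⟩, Or.inl ⟨rfl, h2⟩⟩
    · exact ⟨1, om, ⟨hl, Or.inl ⟨by omega, rfl, rfl⟩⟩, Or.inr ⟨rfl, by omega⟩⟩
  have he := e_sq hPL
  have hc := cl_ne hPL
  have he0 : e ≠ 0 := by
    rintro rfl
    norm_num at he
  obtain ⟨M, hM⟩ := matD_ex h hPL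
  refine ⟨O, PowerSeries.map (Int.castRingHom ℂ) a, PowerSeries.map (Int.castRingHom ℂ) c, h3,
    ⟨?_, ?_, ?_⟩, ?_⟩
  · rw [← PowerSeries.coeff_zero_eq_constantCoeff_apply, PowerSeries.coeff_map,
      PowerSeries.coeff_zero_eq_constantCoeff_apply, q.a0]
    simp
  · rw [← map_e4, q.h4]
    simp only [map_mul, map_add, map_pow, map_ofNat]
  · rw [← map_e6, q.h6]
    simp only [map_mul, map_sub, map_pow, map_ofNat]
  intro ε N hε hN
  have : Fact (ε < 3) := ⟨by omega⟩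
  have hk : Even (3 * N + ε) := by
    rw [Nat.even_iff] at hN ⊢
    omega
  refine ⟨fun j s => M ε N j s / l, ?_, ?_, ?_⟩
  · intro s hs
    have h1 : V 3 (TT l e (3 * N + ε) (mo (PowerSeries.map (Int.castRingHom ℂ) a)
        (PowerSeries.map (Int.castRingHom ℂ) c) ε N s)) =
        V 3 (∑ j ∈ Finset.range (N + 1), M ε N j s • mo (PowerSeries.map (Int.castRingHom ℂ) a)
        (PowerSeries.map (Int.castRingHom ℂ) c) ε N j) := by
      rw [← TT_V3 hl hl3, V_mo q, hM.eq ε N s hs, V_sum three_ne_zero]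
      refine Finset.sum_congr rfl fun j _ => ?_
      rw [V_smul three_ne_zero, V_mo q]
    have h2 := V_inj three_ne_zero h1
    rw [TT_Tl hl.ne_zero he hk] at h2
    have h3 := congrArg (fun f => (l : ℂ)⁻¹ • f) h2
    simp only [smul_smul, inv_mul_cancel₀ hl0, one_smul, Finset.smul_sum] at h3
    rw [h3]
    refine Finset.sum_congr rfl fun j _ => ?_
    simp only [div_eq_inv_mul]
  · intro j s hj hs
    have h1 : e ^ (ε + N) = 1 := by
      obtain ⟨v, hv⟩ := hN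
      rw [show ε + N = 2 * v by omega, pow_mul, he, one_pow]
    simp only
    rw [hM.sym ε N j s hj hs, h1, one_mul]
  · have hr : (e * cl l e) ^ N / l ≠ 0 := div_ne_zero (pow_ne_zero _ (mul_ne_zero he0 hc)) hl0
    rcases hcase with ⟨rfl, h25⟩ | ⟨rfl, h47⟩
    · left
      have hr3 : (-1 * cl l (-1)) ^ N / l * 3 ≠ 0 := mul_ne_zero hr (by norm_num)
      have key : ∀ j ≤ N, ∀ s ≤ N, M ε N j s / l = (-1 * cl l (-1)) ^ N / l * 3 *
          MG (-1) (cl l (-1)) (fun m n r => pc (-1) (cl l (-1)) M ε m n r / 3) N j s := by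
        intro j hj s hs
        rw [pc_mat h hPL hM ε N j s hj hs, MG_third]
        ring
      have hint : ∀ (hcv : O.valuation (cl l (-1)) = 1)
          (hκ : ∀ m n r, O.valuation (pc (-1) (cl l (-1)) M ε m n r / 3) ≤ 1),
          ∀ j ≤ N, ∀ s ≤ N, O.valuation (M ε N j s / l) ≤ O.valuation 3 := by
        intro hcv hκ j hj s hs
        rw [key j hj s hs, map_mul, map_mul, map_div₀, map_pow, map_mul, v_neg_one, hcv, hlv, one_mul,
          one_pow, div_one, one_mul]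
        calc O.valuation 3 * _ ≤ O.valuation 3 * 1 :=
              mul_le_mul' le_rfl (MG_int h3 (v_neg_one O) hcv hκ N j s)
          _ = O.valuation 3 := mul_one _
      rcases (show ε = 1 ∨ ε = 0 ∨ ε = 2 by omega) with rfl | h02
      · have hD := datM1 h h3 hPL h25 hM
        exact ⟨two_scale _ hr3 key (twoPm1 O h3 N _ _ hD), hint hD.hc hD.int⟩
      · have hD := datM h h3 hPL h25 hM ε h02
        exact ⟨two_scale _ hr3 key (twoPm O h3 N _ _ hD), hint hD.hc hD.int⟩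
    · right
      have hD := datP h h3 hPL h47 hM ε hε
      have hrv : O.valuation ((1 * cl l 1) ^ N / l) = 1 := by
        rw [map_div₀, map_pow, one_mul, hD.hc, hlv, one_pow, div_one]
      have key : ∀ j ≤ N, ∀ s ≤ N, M ε N j s / l = (1 * cl l 1) ^ N / l *
          MG 1 (cl l 1) (fun m n r => pc 1 (cl l 1) M ε m n r) N j s := by
        intro j hj s hs
        rw [pc_mat h hPL hM ε N j s hj hs]
        ring
      obtain ⟨d, hd⟩ : ∃ d : ℂ, d = (1 * cl l 1) ^ N / l * pc 1 (cl l 1) M ε 0 0 0 := ⟨_, rfl⟩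
      have hv : ∀ j ≤ N, ∀ s ≤ N, O.valuation (M ε N j s / l - if j = s then d else 0) ≤
          O.valuation 3 ^ 2 := by
        intro j hj s hs
        have h4 : M ε N j s / l - (if j = s then d else 0) = (1 * cl l 1) ^ N / l *
            (MG 1 (cl l 1) (fun m n r => pc 1 (cl l 1) M ε m n r) N j s -
              if j = s then pc 1 (cl l 1) M ε 0 0 0 else 0) := by
          rw [key j hj s hs, mul_sub, mul_ite, mul_zero, hd]
        rw [h4, map_mul, hrv, one_mul]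
        exact MG_P h3 hD N j s
      refine ⟨d, hv, ?_, by omega⟩
      have h5 := hv 0 (Nat.zero_le _) 0 (Nat.zero_le _)
      rw [if_pos rfl, mat_00 h hPL hM, one_mul] at h5
      have h6 : d - (1 + (l : ℂ) ^ (3 * N + ε) / l) =
          -(((l : ℂ) + (l : ℂ) ^ (3 * N + ε)) / l - d) := by
        field_simp
        ring
      rw [h6, Valuation.map_neg]
      exact h5

end Pool.Agent.Lib.MP_06b9d2_tls
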