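import Pool.Agent.Lib.MP_06b9d2_tls.TwoL
import Pool.Agent.Lib.MP_06b9d2_tls.PrL

/-!
Board TLS: the eigenspaces of `T_(l^i)`, `i ≥ 1`, `l ≡ 2, 4, 5, 7` modulo `9`, have dimension at most one.
-/

namespace Pool.Agent.Lib.MP_06b9d2_tls

theorem kerOne_ppow (l : ℕ) (hl : l.Prime) (h9 : l % 9 = 2 ∨ l % 9 = 4 ∨ l % 9 = 5 ∨ l % 9 = 7)
    (i : ℕ) (hi : 1 ≤ i) : KerOne (l ^ i) := by
  refine kerOne_pow hl ?_ (kerOne_of_hypL hl ?_) (hypM_l l hl h9) i hi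
  · rintro rfl
    omega
  · obtain ⟨a, c, h, hM⟩ := two_l l hl h9
    refine ⟨a, c, h, fun eps N heps hN => ?_⟩
    obtain ⟨Mx, h1, h2, h3⟩ := hM eps heps N hN
    exact ⟨Mx, h1, fun j s hj hs => h2 j hj s hs, h3⟩

end Pool.Agent.Lib.MP_06b9d2_tls
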