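import Pool.Agent.Lib.MP_06b9d2_tls.KerG
import Pool.Agent.Lib.MP_06b9d2_ssp.Rep

/-!
Board TLS, algebra part. The eigenspaces of `T_l` on cusp forms have dimension at most one (level three).
-/

namespace Pool.Agent.Lib.MP_06b9d2_tls

open PowerSeries Pool.Agent.L1 UpperHalfPlane Pool.Agent.Lib.MP_06b9d2_nt
open Pool.Agent.Lib.MP_06b9d2_ssp (Lv mo rep ind)
open scoped MatrixGroups ModularForm

/-- what is used about the prime `l` -/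
def HypL (l : ℕ) : Prop := ∃ a c : ℂ⟦X⟧, Lv a c ∧ ∀ eps N : ℕ, eps ≤ 2 → Even (N + eps) →
  ∃ Mx : ℕ → ℕ → ℂ,
    (∀ s ≤ N, Tl l (3 * N + eps) (mo a c eps N s) =
      ∑ j ∈ Finset.range (N + 1), Mx j s • mo a c eps N j) ∧
    (∀ j s, j ≤ N → s ≤ N → Mx (N - j) (N - s) = Mx j s) ∧ Two Mx N

theorem ker_le (l : ℕ) (hl : l.Prime) (H : HypL l) (k : ℕ) (hk : Even k)
    (T : CuspForm 𝒮ℒ (k : ℤ) →ₗ[ℂ] CuspForm 𝒮ℒ (k : ℤ)) (hT : IsHecke (k : ℤ) l T) (lam : ℂ) :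
    Module.finrank ℂ (LinearMap.ker (T - lam • LinearMap.id)) ≤ 1 := by
  obtain ⟨a, c, h, hM⟩ := H
  obtain ⟨N, hN⟩ : ∃ N, N = k / 3 := ⟨_, rfl⟩
  obtain ⟨e, he⟩ : ∃ e, e = k % 3 := ⟨_, rfl⟩
  have hk3 : 3 * N + e = k := by omega
  have he2 : e ≤ 2 := by omega
  have hev : Even (N + e) := by
    rw [Nat.even_iff] at hk ⊢
    omega
  obtain ⟨Mx, hMx, hsym, h2⟩ := hM e N he2 hev
  rw [hk3] at hMx
  refine ker_gen l hl k N (mo a c e N) Mx hMx hsym h2 (fun x hx => ind h e N x hx) ?_ T hT lam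
  intro j _ hj
  obtain ⟨y, y1, y2, y3, y4, y5⟩ := rep h k j hj
  rw [← hN] at y3 y4 y5
  rw [← he] at y5
  exact ⟨y, y1, y2, fun s hs => y3 s (by omega), by omega, y5⟩

end Pool.Agent.Lib.MP_06b9d2_tls
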