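import Pool.Agent.Lib.MP_06b9d2_tls.DefsC

/-!
Module TLS-New. Newton's identities in the graded ring `HH`.

`HH_mul`: homogeneous polynomials multiply (`MvPolynomial.IsHomogeneous.mul`), `ev` is a ring homomorphism. `HH_one`, `HH_C`: `1` is homogeneous of degree `0`.
`esymm_mem`: strong induction on `m`: `MvPolynomial.mul_esymm_eq_sum` (`Mathlib/RingTheory/MvPolynomial/Symmetric/NewtonIdentities.lean`)
for `σ = K`, `R = ℂ`, mapped by `MvPolynomial.aeval z`: `m * esymm_m(z) = (-1) ^ (m + 1) ∑_{i < m} (-1) ^ i esymm_i(z) p_{m - i}(z)`;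
divide by `m` (the `HH` are subspaces over `ℂ`); `MvPolynomial.aeval_esymm_eq_multiset_esymm`; `psum` maps to `∑ k, z k ^ m`. `m = 0`: `esymm_0 = 1`.
-/

namespace Pool.Agent.Lib.MP_06b9d2_tls

open PowerSeries Pool.Agent.L1

theorem HH_mul {A Y : ℂ⟦X⟧} {m n : ℕ} {r s : Fin 4 → ℂ⟦X⟧} (hr : r ∈ HH A Y m) (hs : s ∈ HH A Y n) :
    r * s ∈ HH A Y (m + n) := by
  obtain ⟨P, hP, rfl⟩ := hr
  obtain ⟨Q, hQ, rfl⟩ := hs
  refine ⟨P * Q, ?_, ?_⟩
  · exact MvPolynomial.IsHomogeneous.mul hP hQ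
  · simp

theorem HH_one (A Y : ℂ⟦X⟧) : (1 : Fin 4 → ℂ⟦X⟧) ∈ HH A Y 0 := by
  refine ⟨1, ?_, ?_⟩
  · exact MvPolynomial.isHomogeneous_one _ _
  · simp

theorem HH_pow {A Y : ℂ⟦X⟧} {m : ℕ} {r : Fin 4 → ℂ⟦X⟧} (hr : r ∈ HH A Y m) (n : ℕ) :
    r ^ n ∈ HH A Y (m * n) := by
  induction n with
  | zero => simpa using HH_one A Y
  | succ n ih =>
    rw [pow_succ, Nat.mul_succ]
    exact HH_mul ih hr

theorem HH_A (A Y : ℂ⟦X⟧) : cA 1 A Y ∈ HH A Y 1 ∧ cY 1 om A Y ∈ HH A Y 1 := by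
  refine ⟨⟨MvPolynomial.X 0, ?_, ?_⟩, ⟨MvPolynomial.X 1, ?_, ?_⟩⟩
  · exact MvPolynomial.isHomogeneous_X _ _
  · simp [ev]
  · exact MvPolynomial.isHomogeneous_X _ _
  · simp [ev]

theorem esymm_mem {K : Type} [Fintype K] (A Y : ℂ⟦X⟧) (z : K → Fin 4 → ℂ⟦X⟧)
    (hz : ∀ m, ∑ k, z k ^ m ∈ HH A Y m) (m : ℕ) :
    (Finset.univ.val.map z).esymm m ∈ HH A Y m := by
  classical
  induction m using Nat.strong_induction_on with
  | _ m ih =>
    rcases Nat.eq_zero_or_pos m with rfl | hm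
    · simpa [Multiset.esymm] using HH_one A Y
    have h := congrArg (MvPolynomial.aeval z) (MvPolynomial.mul_esymm_eq_sum K ℂ m)
    rw [map_mul, map_natCast, MvPolynomial.aeval_esymm_eq_multiset_esymm, map_mul, map_pow, map_neg, map_one,
      map_sum] at h
    have h1 : (m : Fin 4 → ℂ⟦X⟧) * (Finset.univ.val.map z).esymm m ∈ HH A Y m := by
      rw [h]
      have h2 : ∑ a ∈ (Finset.HasAntidiagonal.antidiagonal m).filter (fun a : ℕ × ℕ => a.1 < m),
          (MvPolynomial.aeval z) ((-1 : MvPolynomial K ℂ) ^ a.1 * MvPolynomial.esymm K ℂ a.1 *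
            MvPolynomial.psum K ℂ a.2) ∈ HH A Y m := by
        refine Submodule.sum_mem _ fun a ha => ?_
        rw [Finset.mem_filter, Finset.HasAntidiagonal.mem_antidiagonal] at ha
        have hlt : a.1 < m := ha.2
        rw [map_mul, map_mul, map_pow, map_neg, map_one, MvPolynomial.aeval_esymm_eq_multiset_esymm]
        have h3 : (MvPolynomial.aeval z) (MvPolynomial.psum K ℂ a.2) = ∑ k, z k ^ a.2 := by
          simp [MvPolynomial.psum]
        rw [h3]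
        have h4 := HH_mul (ih a.1 hlt) (hz a.2)
        rw [ha.1] at h4
        rcases neg_one_pow_eq_or (Fin 4 → ℂ⟦X⟧) a.1 with h5 | h5
        · rw [h5, one_mul]; exact h4
        · rw [h5, neg_one_mul, neg_mul]; exact Submodule.neg_mem _ h4
      rcases neg_one_pow_eq_or (Fin 4 → ℂ⟦X⟧) (m + 1) with h5 | h5
      · rw [h5, one_mul]; exact h2
      · rw [h5, neg_one_mul]; exact Submodule.neg_mem _ h2
    have h6 : (m : Fin 4 → ℂ⟦X⟧) * (Finset.univ.val.map z).esymm m =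
        (m : ℂ) • (Finset.univ.val.map z).esymm m := by
      rw [← nsmul_eq_mul, ← Nat.cast_smul_eq_nsmul ℂ]
    rw [h6] at h1
    have hne : (m : ℂ) ≠ 0 := Nat.cast_ne_zero.2 hm.ne'
    have h7 := Submodule.smul_mem _ ((m : ℂ)⁻¹) h1
    rwa [smul_smul, inv_mul_cancel₀ hne, one_smul] at h7

end Pool.Agent.Lib.MP_06b9d2_tls
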