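import Pool.Agent.Lib.MP_06b9d2_tls.Fam
import Pool.Agent.Lib.MP_06b9d2_tls.Root

/-!
Module TLS-IntP. `e = 1`: the branches are congruent to the base modulo `pr ^ 6`.

`t = tt (V l A) (V l Y)`. `root` for `K = Option (Fin l)`, `z_i = zx i - bA` (`fam_sum` with `α = 1, β = 0, α' = -1, β' = 0`), `a = ![12, 6, 6, 6]`, `g = 6`. Bounds: component `0`: `(br i A - 1) - (V l A - 1)` in `3 = pr ^ 12` (`near_A`, `bs_V`).
Components `j + 1`: `cA 1 F G (j+1) = (1 / th) • (F + 2 G)`: `(1 / th) • ((br A + 2 br Y) - (V l A + 2 V l Y))`, in `(1 / th) 3`, of valuation `(v pr) ^ 6` (`v_th`). For `Y`: `z_i = zy i - bY` (`α = 0, β = 1, α' = 0, β' = -1`):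
component `0`: `br i Y - V l Y`; components `j + 1`: `(om ^ j / th) • ((br A - br Y) - (V l A - V l Y))` (`s = om` for `e = 1`).
`intP_x`: `br i A / V l A = 1 + (br i A - V l A) / V l A`. `intP_u`: write `x = br i A * (V l A)⁻¹`, `y = br i Y * (V l A)⁻¹`, `t`, `ρ = pr ^ 6`, `x = 1 + ρ x'`, `y = t + ρ y'` with `x'`, `y'` integral. `ub * (V l A)⁻¹ ^ 3 = (x ^ 3 - y ^ 3 - c (1 - t ^ 3)) / 3`,
`x ^ 3 = 1 + 3 ρ x' + 3 ρ ^ 2 x' ^ 2 + ρ ^ 3 x' ^ 3`, `ρ ^ 2 = 3`: `x ^ 3 - 1 = 3 ρ (x' + ρ x' ^ 2 + x' ^ 3)`, `y ^ 3 - t ^ 3 = 3 ρ (t ^ 2 y' + ρ t y' ^ 2 + y' ^ 3)`, and `1 - c = (1 - l ^ 3) / (l + 1)` is in `9 O` (`l ≡ 1` mod `3`: `9 ∣ l ^ 3 - 1`, `l + 1` prime to `3`), so in `3 ρ O`. Hence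
`ub * .. = ρ (..)` with an integral factor. `vb` the same with `(y ^ 3 - c t ^ 3) / 3`.
-/

namespace Pool.Agent.Lib.MP_06b9d2_tls

open PowerSeries Pool.Agent.L1

variable {A Y : ℂ⟦X⟧} {O : ValuationSubring ℂ} {l : ℕ} {s : ℂ}

private theorem In_mono {F : ℂ⟦X⟧} {r r' : ℂ} (hF : In O F r) (hr : O.valuation r ≤ O.valuation r') :
    In O F r' := fun n => (hF n).trans hr

private theorem v_pr6 (h3 : O.valuation 3 < 1) (z : ℂ) (hz : O.valuation z ≤ 1) :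
    O.valuation (z / th * 3) ≤ O.valuation (pr ^ 6) := by
  obtain ⟨h1, h2, h4⟩ := v_pr h3
  rw [map_mul, map_div₀, v_th h3, map_pow, ← h1]
  have h5 : O.valuation pr ^ 12 = O.valuation pr ^ 6 * O.valuation pr ^ 6 := by
    rw [← pow_add]
  have h6 : O.valuation pr ^ 6 ≠ 0 := pow_ne_zero _ h4
  rw [h5, div_mul_eq_mul_div, ← mul_assoc, mul_div_assoc, div_self h6, mul_one]
  calc O.valuation z * O.valuation pr ^ 6 ≤ 1 * O.valuation pr ^ 6 := mul_le_mul_left hz _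
    _ = O.valuation pr ^ 6 := one_mul _

private theorem s_eq (hl : PL l 1 s) : s = om := by
  rcases hl.2 with h | h
  · exact h.2.2
  · exfalso
    have := h.2.1
    norm_num at this

private theorem l_mod (hl : PL l 1 s) : l % 3 = 1 := by
  rcases hl.2 with h | h
  · exact h.1
  · exfalso
    have := h.2.1
    norm_num at this

private theorem inv_mul' (h : Core A Y) (hl : PL l 1 s) : V l A * (V l A)⁻¹ = 1 := by
  apply PowerSeries.mul_inv_cancel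
  have := (bs_V h (⊤ : ValuationSubring ℂ) hl.1.ne_zero).a0
  rw [this]
  exact one_ne_zero

theorem intP_A (h : Core A Y) (h3 : O.valuation 3 < 1) (hl : PL l 1 s) (i : Option (Fin l)) :
    Ig O (tt (V l A) (V l Y)) ((br l 1 i A - V l A) * (V l A)⁻¹ * C ((pr ^ 6)⁻¹)) := by
  have hB := bs_V h O hl.1.ne_zero
  have key : ∀ k : Option (Fin l), In O (br l 1 k A - V l A) 3 := by
    intro k
    have e : br l 1 k A - V l A = (br l 1 k A - 1) - (V l A - 1) := by ring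
    rw [e]
    exact In_sub (near_A h O hl k) hB.aI
  have key2 : ∀ k : Option (Fin l), In O ((br l 1 k A + 2 * br l 1 k Y) - (V l A + 2 * V l Y)) 3 := by
    intro k
    have e : (br l 1 k A + 2 * br l 1 k Y) - (V l A + 2 * V l Y) =
        (br l 1 k A - V l A) + ((br l 1 k Y + br l 1 k Y) - (V l Y + V l Y)) := by ring
    rw [e]
    exact In_add (key k) (In_sub (In_add (near_Y h O hl k) (near_Y h O hl k)) (In_add hB.yI hB.yI))
  have key3 : ∀ k : Option (Fin l), In O ((1 / th) • (br l 1 k A + 2 * br l 1 k Y) -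
      (1 / th) • (V l A + 2 * V l Y)) (pr ^ 6) := by
    intro k
    rw [← smul_sub]
    exact In_mono (In_smul (key2 k) _) (v_pr6 h3 1 (by rw [map_one]))
  have hr := root h3 hB (K := Option (Fin l))
    (fun k => cA 1 (br l 1 k A) (br l 1 k Y) - cA 1 (V l A) (V l Y)) ?_ ![12, 6, 6, 6] ?_ 6 ?_ i
  · exact hr
  · intro m
    have := fam_sum h hl 1 0 (-1) 0 m
    simpa [sub_eq_add_neg] using this
  · intro k j
    fin_cases j
    · change In O (br l 1 k A - V l A) (pr ^ 12)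
      rw [pr_pow]
      exact key k
    · exact key3 k
    · exact key3 k
    · exact key3 k
  · decide

theorem intP_Y (h : Core A Y) (h3 : O.valuation 3 < 1) (hl : PL l 1 s) (i : Option (Fin l)) :
    Ig O (tt (V l A) (V l Y)) ((br l 1 i Y - V l Y) * (V l A)⁻¹ * C ((pr ^ 6)⁻¹)) := by
  have hB := bs_V h O hl.1.ne_zero
  have hs := s_eq hl
  subst hs
  have key : ∀ k : Option (Fin l), In O (br l 1 k Y - V l Y) 3 := fun k =>
    In_sub (near_Y h O hl k) hB.yI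
  have key2 : ∀ k : Option (Fin l), In O ((br l 1 k A - br l 1 k Y) - (V l A - V l Y)) 3 := by
    intro k
    have e : (br l 1 k A - br l 1 k Y) - (V l A - V l Y) =
        ((br l 1 k A - 1) - (V l A - 1)) - (br l 1 k Y - V l Y) := by ring
    rw [e]
    exact In_sub (In_sub (near_A h O hl k) hB.aI) (key k)
  have key3 : ∀ (k : Option (Fin l)) (z : ℂ), O.valuation z ≤ 1 →
      In O ((z / th) • (br l 1 k A - br l 1 k Y) - (z / th) • (V l A - V l Y)) (pr ^ 6) := by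
    intro k z hz
    rw [← smul_sub]
    exact In_mono (In_smul (key2 k) _) (v_pr6 h3 z hz)
  have ho : O.valuation om ≤ 1 := (v_om O).le
  have hr := root h3 hB (K := Option (Fin l))
    (fun k => cY 1 om (br l 1 k A) (br l 1 k Y) - cY 1 om (V l A) (V l Y)) ?_ ![12, 6, 6, 6] ?_ 6 ?_ i
  · exact hr
  · intro m
    have := fam_sum h hl 0 1 0 (-1) m
    simpa [sub_eq_add_neg] using this
  · intro k j
    fin_cases j
    · change In O (br l 1 k Y - V l Y) (pr ^ 12)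
      rw [pr_pow]
      exact key k
    · exact key3 k 1 (by rw [map_one])
    · exact key3 k (1 * om) (by rw [one_mul]; exact ho)
    · exact key3 k (1 * om ^ 2) (by rw [one_mul, map_pow]; exact pow_le_one' ho 2)
  · decide

private theorem v_pr6' (h3 : O.valuation 3 < 1) : O.valuation (pr ^ 6) ≤ 1 := by
  obtain ⟨-, h2, -⟩ := v_pr h3
  rw [map_pow]
  exact pow_le_one' h2.le 6

private theorem rr (h3 : O.valuation 3 < 1) : (C (pr ^ 6) : ℂ⟦X⟧) * C ((pr ^ 6)⁻¹) = 1 := by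
  rw [← map_mul, mul_inv_cancel₀, map_one]
  have := (v_pr h3).2.2
  intro h0
  apply this
  have h1 : pr = 0 := pow_eq_zero_iff (n := 6) (by norm_num) |>.1 h0
  rw [h1, map_zero]

theorem intP_x (h : Core A Y) (h3 : O.valuation 3 < 1) (hl : PL l 1 s) (i : Option (Fin l)) :
    Ig O (tt (V l A) (V l Y)) (br l 1 i A * (V l A)⁻¹) := by
  have e : br l 1 i A * (V l A)⁻¹ =
      1 + C (pr ^ 6) * ((br l 1 i A - V l A) * (V l A)⁻¹ * C ((pr ^ 6)⁻¹)) := by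
    linear_combination (-(br l 1 i A - V l A) * (V l A)⁻¹) * rr h3 + inv_mul' h hl
  rw [e]
  have h1 : Ig O (tt (V l A) (V l Y)) 1 := by
    have := Ig_pow (Ig_t (O := O) (t := tt (V l A) (V l Y))) 0
    rwa [pow_zero] at this
  exact Ig_add h1 (Ig_mul (Ig_C (v_pr6' h3)) (intP_A h h3 hl i))

private theorem cube_id (T R R' p d : ℂ⟦X⟧) (e1 : 3 * T = 1) (e2 : R * R' = 1) (e3 : R ^ 2 = 3) :
    T * R' * ((p + R * d) ^ 3 - p ^ 3) = p ^ 2 * d + R * p * d ^ 2 + d ^ 3 := by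
  linear_combination (p ^ 2 * d + R * p * d ^ 2) * (R * R' * e1 + e2) +
    d ^ 3 * (T * R ^ 2 * e2 + T * e3 + e1)

private theorem third : (3 : ℂ⟦X⟧) * C (1 / 3 : ℂ) = 1 := by
  rw [← map_ofNat (C : ℂ →+* ℂ⟦X⟧) 3, ← map_mul, mul_one_div_cancel (by norm_num), map_one]

private theorem r_sq : (C (pr ^ 6) : ℂ⟦X⟧) ^ 2 = 3 := by
  rw [← map_pow, ← pow_mul, pr_pow]
  exact map_ofNat (C : ℂ →+* ℂ⟦X⟧) 3

private theorem C_split (a c r : ℂ) : (C (a * (1 - c) * r) : ℂ⟦X⟧) = C a * (1 - C c) * C r := by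
  rw [map_mul, map_mul, map_sub, map_one]

private theorem v_c (h3 : O.valuation 3 < 1) (hl : PL l 1 s) :
    O.valuation ((1 / 3) * (1 - cl l 1) * (pr ^ 6)⁻¹) ≤ 1 := by
  obtain ⟨h1, h2, h4⟩ := v_pr h3
  have hm := l_mod hl
  obtain ⟨k, rfl⟩ : ∃ k, l = 3 * k + 1 := ⟨l / 3, by omega⟩
  have hne : ((3 * k + 1 : ℕ) : ℂ) + 1 ≠ 0 := by
    have : ((3 * k + 1 : ℕ) : ℂ) + 1 = ((3 * k + 2 : ℕ) : ℂ) := by push_cast; ring
    rw [this]
    exact_mod_cast (by omega : (3 * k + 2 : ℕ) ≠ 0)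
  have e1 : 1 - cl (3 * k + 1) 1 = -(9 * ((3 * k ^ 3 + 3 * k ^ 2 + k : ℕ) : ℂ)) / ((3 * k + 2 : ℕ) : ℂ) := by
    have e2 : ((3 * k + 2 : ℕ) : ℂ) = ((3 * k + 1 : ℕ) : ℂ) + 1 := by push_cast; ring
    rw [e2, cl, eq_div_iff hne, sub_mul, div_mul_cancel₀ _ hne]
    push_cast
    ring
  have hv : O.valuation (1 - cl (3 * k + 1) 1) ≤ O.valuation 3 * O.valuation 3 := by
    rw [e1, map_div₀, Valuation.map_neg, v_prime h3 (3 * k + 2) (by omega), div_one, map_mul,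
      show (9 : ℂ) = 3 * 3 by norm_num, map_mul]
    have : O.valuation ((3 * k ^ 3 + 3 * k ^ 2 + k : ℕ) : ℂ) ≤ 1 :=
      (O.valuation_le_one_iff _).2 (natCast_mem O _)
    calc O.valuation 3 * O.valuation 3 * O.valuation ((3 * k ^ 3 + 3 * k ^ 2 + k : ℕ) : ℂ)
        ≤ O.valuation 3 * O.valuation 3 * 1 := mul_le_mul_right this _
      _ = _ := mul_one _
  have h6 : O.valuation pr ^ 6 ≠ 0 := pow_ne_zero _ h4
  have h30 : O.valuation 3 ≠ 0 := by rw [← h1]; exact pow_ne_zero _ h4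
  rw [map_mul, map_mul, map_div₀, map_one, one_div, map_inv₀, map_pow]
  calc (O.valuation 3)⁻¹ * O.valuation (1 - cl (3 * k + 1) 1) * (O.valuation pr ^ 6)⁻¹
      ≤ (O.valuation 3)⁻¹ * (O.valuation 3 * O.valuation 3) * (O.valuation pr ^ 6)⁻¹ := by gcongr
    _ = O.valuation 3 * (O.valuation pr ^ 6)⁻¹ := by rw [← mul_assoc, inv_mul_cancel₀ h30, one_mul]
    _ = O.valuation pr ^ 6 * (O.valuation pr ^ 6 * (O.valuation pr ^ 6)⁻¹) := by
        rw [← h1, ← mul_assoc, ← pow_add]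
    _ = O.valuation pr ^ 6 := by rw [mul_inv_cancel₀ h6, mul_one]
    _ ≤ 1 := pow_le_one' h2.le 6

private theorem ig_cube (h3 : O.valuation 3 < 1) {t p d : ℂ⟦X⟧} (hp : Ig O t p) (hd : Ig O t d) :
    Ig O t (p ^ 2 * d + C (pr ^ 6) * p * d ^ 2 + d ^ 3) :=
  Ig_add (Ig_add (Ig_mul (Ig_pow hp 2) hd)
    (Ig_mul (Ig_mul (Ig_C (v_pr6' h3)) hp) (Ig_pow hd 2))) (Ig_pow hd 3)

theorem intP_u (h : Core A Y) (h3 : O.valuation 3 < 1) (hl : PL l 1 s) (i : Option (Fin l)) :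
    Ig O (tt (V l A) (V l Y)) (ub l 1 A Y i * (V l A)⁻¹ ^ 3 * C ((pr ^ 6)⁻¹)) := by
  have hw := inv_mul' h hl
  have hr := rr h3
  have hx := intP_A h h3 hl i
  have hy := intP_Y h h3 hl i
  have c1 := cube_id (C (1 / 3 : ℂ)) (C (pr ^ 6)) (C ((pr ^ 6)⁻¹)) 1
    ((br l 1 i A - V l A) * (V l A)⁻¹ * C ((pr ^ 6)⁻¹)) third hr r_sq
  have c2 := cube_id (C (1 / 3 : ℂ)) (C (pr ^ 6)) (C ((pr ^ 6)⁻¹)) (V l Y * (V l A)⁻¹)
    ((br l 1 i Y - V l Y) * (V l A)⁻¹ * C ((pr ^ 6)⁻¹)) third hr r_sq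
  have ex : 1 + C (pr ^ 6) * ((br l 1 i A - V l A) * (V l A)⁻¹ * C ((pr ^ 6)⁻¹)) =
      br l 1 i A * (V l A)⁻¹ := by
    linear_combination ((br l 1 i A - V l A) * (V l A)⁻¹) * hr - hw
  have ey : V l Y * (V l A)⁻¹ + C (pr ^ 6) * ((br l 1 i Y - V l Y) * (V l A)⁻¹ * C ((pr ^ 6)⁻¹)) =
      br l 1 i Y * (V l A)⁻¹ := by
    linear_combination ((br l 1 i Y - V l Y) * (V l A)⁻¹) * hr
  rw [ex] at c1
  rw [ey] at c2
  have hw3 : V l A ^ 3 * (V l A)⁻¹ ^ 3 = 1 := by rw [← mul_pow, hw, one_pow]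
  have e : ub l 1 A Y i * (V l A)⁻¹ ^ 3 * C ((pr ^ 6)⁻¹) =
      C (1 / 3 : ℂ) * C ((pr ^ 6)⁻¹) * ((br l 1 i A * (V l A)⁻¹) ^ 3 - 1 ^ 3) -
      C (1 / 3 : ℂ) * C ((pr ^ 6)⁻¹) * ((br l 1 i Y * (V l A)⁻¹) ^ 3 - (V l Y * (V l A)⁻¹) ^ 3) +
      C ((1 / 3) * (1 - cl l 1) * (pr ^ 6)⁻¹) * (1 - (V l Y * (V l A)⁻¹) ^ 3) := by
    rw [C_split, ub, PowerSeries.smul_eq_C_mul, PowerSeries.smul_eq_C_mul, one_mul]
    linear_combination (-C (1 / 3 : ℂ) * C ((pr ^ 6)⁻¹) * C (cl l 1)) * hw3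
  rw [e, c1, c2]
  have h1 : Ig O (tt (V l A) (V l Y)) 1 := by
    have := Ig_pow (Ig_t (O := O) (t := tt (V l A) (V l Y))) 0
    rwa [pow_zero] at this
  have ht : Ig O (tt (V l A) (V l Y)) (V l Y * (V l A)⁻¹) := Ig_t
  exact Ig_add (Ig_sub (ig_cube h3 h1 hx) (ig_cube h3 ht hy))
    (Ig_mul (Ig_C (v_c h3 hl)) (Ig_sub h1 (Ig_pow ht 3)))

theorem intP_v (h : Core A Y) (h3 : O.valuation 3 < 1) (hl : PL l 1 s) (i : Option (Fin l)) :
    Ig O (tt (V l A) (V l Y)) (vb l 1 Y i * (V l A)⁻¹ ^ 3 * C ((pr ^ 6)⁻¹)) := by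
  have hr := rr h3
  have hy := intP_Y h h3 hl i
  have c2 := cube_id (C (1 / 3 : ℂ)) (C (pr ^ 6)) (C ((pr ^ 6)⁻¹)) (V l Y * (V l A)⁻¹)
    ((br l 1 i Y - V l Y) * (V l A)⁻¹ * C ((pr ^ 6)⁻¹)) third hr r_sq
  have ey : V l Y * (V l A)⁻¹ + C (pr ^ 6) * ((br l 1 i Y - V l Y) * (V l A)⁻¹ * C ((pr ^ 6)⁻¹)) =
      br l 1 i Y * (V l A)⁻¹ := by
    linear_combination ((br l 1 i Y - V l Y) * (V l A)⁻¹) * hr
  rw [ey] at c2
  have e : vb l 1 Y i * (V l A)⁻¹ ^ 3 * C ((pr ^ 6)⁻¹) =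
      C (1 / 3 : ℂ) * C ((pr ^ 6)⁻¹) * ((br l 1 i Y * (V l A)⁻¹) ^ 3 - (V l Y * (V l A)⁻¹) ^ 3) +
      C ((1 / 3) * (1 - cl l 1) * (pr ^ 6)⁻¹) * (V l Y * (V l A)⁻¹) ^ 3 := by
    rw [C_split, vb, PowerSeries.smul_eq_C_mul, PowerSeries.smul_eq_C_mul]
    ring
  rw [e, c2]
  have ht : Ig O (tt (V l A) (V l Y)) (V l Y * (V l A)⁻¹) := Ig_t
  exact Ig_add (ig_cube h3 ht hy) (Ig_mul (Ig_C (v_c h3 hl)) (Ig_pow ht 3))

end Pool.Agent.Lib.MP_06b9d2_tls
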