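import Pool.Agent.Lib.MP_06b9d2_tls.PcB
import Pool.Agent.Lib.MP_06b9d2_tls.IntP

/-!
Module TLS-PcI. The coefficients `pc` are divisible by `3` (`e = -1`), by `pr ^ (6 (m + n))` (`e = 1`).

`t = tt (V l A) (V l Y)` (`constantCoeff t = 0`, `t ≠ 0`). `tri`: `moX (V l A) (V l Y) a K r * (V l A)⁻¹ ^ (a + 3 K) = (1 - t ^ 3) ^ (K - r) t ^ (3 r)` for `r ≤ K`. So `pc_sum` times `(V l A)⁻¹ ^ (a + 3 (m + n))` is `f(t)`,
`f = ∑_r pc_r (1 - T ^ 3) ^ (m + n - r) T ^ (3 r)`. If `λ⁻¹ f(t)` is integral then all coefficients of `λ⁻¹ f` have valuation `≤ 1` (`Ig_desc`), and then all `λ⁻¹ pc_r` (induction on `r`: the coefficient of `T ^ (3 r)` of `f` is `pc_r` plus an integral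
combination of the `pc_{r'}`, `r' < r`). (`pc_bd`.)
`e = 1`: `λ = pr ^ (6 (m + n))`: each summand `x ^ a u ^ m v ^ n` of the left side of `pc_sum` times the power of `(V l A)⁻¹` is `pr ^ (6 (m + n))` times an integral element (`intP_x`, `intP_u`, `intP_v`).
`pcP`: with `pc_rat` and `v_rat` (`k = m + n`). `e = -1`: `λ = 3`: `tay` in the ring `S` of the integral elements (a subring of `ℂ⟦X⟧`: `Ig_add`, `Ig_mul`, ..; construct it as `Subring`), `ρ = C (pr ^ 6)`, `ρ ^ 2 = 3`,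
`x i = br i A * (V l A)⁻¹`, ...: `∑ x i = 0`: `br_sum` for `P = X 0`, `hM.eq 1 0 0` and `mat_00`: `M 1 0 0 0 = l + e l = 0`; `∑ u i = ∑ v i = 0`: `pc_sum` for `(0, 1, 0)`, `(0, 0, 1)`: `pc_m00` (`1 - e c = 1 + c = l ^ 2 - l + 1`, `(e l) ^ 3 - e c = - l (1 + c)`: `l - l = 0`),
`pc_101`, `pc_sym`. `card = l + 1 = 3 (..)`.
-/

namespace Pool.Agent.Lib.MP_06b9d2_tls

open PowerSeries Pool.Agent.L1

theorem pcP {A Y : ℂ⟦X⟧} (h : Core A Y) {O : ValuationSubring ℂ} (h3 : O.valuation 3 < 1) {l : ℕ} {s0 : ℂ}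
    (hl : PL l 1 s0) {M : ℕ → ℕ → ℕ → ℕ → ℂ} (hM : MatD l 1 A Y M) (a m n r : ℕ) [Fact (a < 3)] :
    O.valuation (pc 1 (cl l 1) M a m n r) ≤ O.valuation 3 ^ ((m + n + 1) / 2) := by
  have hpr : pr ≠ 0 := by
    intro h0
    have h1 := pr_pow
    rw [h0] at h1
    norm_num at h1
  have hb : O.valuation (pc 1 (cl l 1) M a m n r) ≤ O.valuation (pr ^ (6 * (m + n))) := by
    refine pc_bd h h3 hl hM a m n _ (pow_ne_zero _ hpr) ?_ r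
    have hC : (C ((pr ^ (6 * (m + n)))⁻¹) : ℂ⟦X⟧) = C ((pr ^ 6)⁻¹) ^ m * C ((pr ^ 6)⁻¹) ^ n := by
      rw [← map_pow, ← map_pow, ← map_mul, pow_mul, ← inv_pow, pow_add]
    rw [hC, Finset.sum_mul, Finset.sum_mul]
    refine Ig_sum _ fun i _ => ?_
    have he : br l 1 i A ^ a * ub l 1 A Y i ^ m * vb l 1 Y i ^ n * (V l A)⁻¹ ^ (a + 3 * (m + n)) *
        (C ((pr ^ 6)⁻¹) ^ m * C ((pr ^ 6)⁻¹) ^ n) =
        (br l 1 i A * (V l A)⁻¹) ^ a * (ub l 1 A Y i * (V l A)⁻¹ ^ 3 * C ((pr ^ 6)⁻¹)) ^ m *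
          (vb l 1 Y i * (V l A)⁻¹ ^ 3 * C ((pr ^ 6)⁻¹)) ^ n := by
      rw [mul_pow, mul_pow, mul_pow, mul_pow, mul_pow, ← pow_mul, ← pow_mul, pow_add, mul_add, pow_add]
      ring
    rw [he]
    exact Ig_mul (Ig_mul (Ig_pow (intP_x h h3 hl i) a) (Ig_pow (intP_u h h3 hl i) m))
      (Ig_pow (intP_v h h3 hl i) n)
  obtain ⟨q, hq⟩ := pc_rat h hl hM a m n r
  rw [hq] at hb ⊢
  rw [map_pow] at hb
  exact v_rat h3 q (m + n) hb

end Pool.Agent.Lib.MP_06b9d2_tls
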