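import Pool.Agent.Lib.MP_06b9d2_tls.IntM

/-!
Module TLS-IntMu. `e = -1`: `u_i`, `v_i` are integral and congruent modulo `pr ^ 6`.

Let `x_i = br i A * (V l A)⁻¹`, `y_i = br i Y * (V l A)⁻¹`, `t = tt ..` (`V l Y * (V l A)⁻¹`), `σ = pr ^ 4`, `ρ = pr ^ 6`, `σ ^ 3 = 3 = ρ ^ 2`, `c = cl l (-1) = l (l - 1)`, `c ≡ -1` modulo `3` (`l ≡ 2`).
`intM_Y4`: `y_i = - t + σ y'`; `intM_A4`: `x_i = 1 - 2 t + σ x'` (`x'`, `y'` integral). So `x_i`, `y_i` are integral; `y_i ^ 3 = - t ^ 3 + 3 (t ^ 2 σ y' - t σ ^ 2 y' ^ 2) + 3 y' ^ 3`;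
`x_i ^ 3 = (1 - 2 t) ^ 3 + 3 (..)`, `(1 - 2 t) ^ 3 = 1 + t ^ 3 + 3 (- 2 t + 4 t ^ 2 - 3 t ^ 3)`. `ub * (V l A)⁻¹ ^ 3 = (x_i ^ 3 - y_i ^ 3 + c (1 - t ^ 3)) / 3` with
`x ^ 3 - y ^ 3 + c (1 - t ^ 3) = (1 + t ^ 3) + t ^ 3 + c (1 - t ^ 3) + 3 (..) = (1 + c) + (2 - c) t ^ 3 + 3 (..)`, `3 ∣ 1 + c`, `3 ∣ 2 - c`. `vb * .. = (y_i ^ 3 - c t ^ 3) / 3 = (- (1 + c) t ^ 3 + 3 (..)) / 3`.
Differences: `x_i - x_j = ρ d` with `d` integral (`intM_A`): `x_i ^ 3 - x_j ^ 3 = (x_i - x_j) ^ 3 + 3 x_i x_j (x_i - x_j) = 3 ρ (d ^ 3 + x_i x_j d)`; the same for `y`; `ub_i - ub_j = ρ (..)`.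
-/

namespace Pool.Agent.Lib.MP_06b9d2_tls

open PowerSeries Pool.Agent.L1

variable {A Y : ℂ⟦X⟧} {O : ValuationSubring ℂ} {l : ℕ} {s : ℂ}

/-- the constants: `(V l A) (V l A)⁻¹ = 1` -/
private theorem mu_inv (h : Core A Y) (hl : PL l (-1) s) : V l A * (V l A)⁻¹ = 1 := by
  have hl0 : l ≠ 0 := hl.1.ne_zero
  have h1 : constantCoeff (V l A) = 1 := by
    rw [V_cc hl0]
    obtain ⟨A₁, κ, hA, -, hA0, -, -⟩ := h.int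
    rw [hA, map_add, map_mul, map_one]
    have : constantCoeff (PowerSeries.map (Int.castRingHom ℂ) A₁) = 0 := by
      rw [← coeff_zero_eq_constantCoeff_apply, coeff_map, coeff_zero_eq_constantCoeff_apply, hA0, map_zero]
    rw [this, mul_zero, add_zero]
  exact PowerSeries.mul_inv_cancel _ (by rw [h1]; exact one_ne_zero)

private theorem mu_pr {O : ValuationSubring ℂ} (h3 : O.valuation 3 < 1) :
    pr ≠ 0 ∧ O.valuation (pr ^ 4) ≤ 1 := by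
  obtain ⟨-, h1, h2⟩ := v_pr h3
  refine ⟨fun h => h2 (by rw [h, map_zero]), ?_⟩
  rw [map_pow]
  exact pow_le_one₀ zero_le h1.le

private theorem mu_CC {r : ℂ} (hr : r ≠ 0) : (C r : ℂ⟦X⟧) * C (r⁻¹) = 1 := by
  rw [← map_mul, mul_inv_cancel₀ hr, map_one]

private theorem mu_s3 : (C (pr ^ 4) : ℂ⟦X⟧) ^ 3 = 3 := by
  rw [← map_pow, ← pow_mul]
  have : pr ^ (4 * 3) = 3 := pr_pow
  rw [this]
  exact map_ofNat _ _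

private theorem mu_r2 : (C (pr ^ 6) : ℂ⟦X⟧) ^ 2 = 3 := by
  rw [← map_pow, ← pow_mul]
  have : pr ^ (6 * 2) = 3 := pr_pow
  rw [this]
  exact map_ofNat _ _

private theorem mu_one : Ig O (tt (V l A) (V l Y)) 1 := by
  rw [← map_one (C : ℂ →+* ℂ⟦X⟧)]
  exact Ig_C (by rw [map_one])

private theorem mu_nat (n : ℕ) : Ig O (tt (V l A) (V l Y)) (C (n : ℂ)) :=
  Ig_C (by exact_mod_cast Pool.Agent.Lib.MP_06b9d2_ssp.int_mem O (n : ℤ))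

private theorem mu_int (n : ℤ) : Ig O (tt (V l A) (V l Y)) (C (n : ℂ)) := Ig_C (Pool.Agent.Lib.MP_06b9d2_ssp.int_mem O n)

/-- `x_i = 1 - 2 t + σ x'` -/
private theorem mu_x (h : Core A Y) (h3 : O.valuation 3 < 1) (hl : PL l (-1) s) (i : Option (Fin l)) :
    ∃ x' : ℂ⟦X⟧, Ig O (tt (V l A) (V l Y)) x' ∧
      br l (-1) i A * (V l A)⁻¹ = 1 - 2 * tt (V l A) (V l Y) + C (pr ^ 4) * x' := by
  refine ⟨_, intM_A4 h h3 hl i, ?_⟩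
  have h1 := mu_inv h hl
  have h2 := mu_CC (pow_ne_zero 4 (mu_pr h3).1)
  unfold tt
  linear_combination h1 - ((br l (-1) i A - V l A + 2 * V l Y) * (V l A)⁻¹) * h2

/-- `y_i = - t + σ y'` -/
private theorem mu_y (h : Core A Y) (h3 : O.valuation 3 < 1) (hl : PL l (-1) s) (i : Option (Fin l)) :
    ∃ y' : ℂ⟦X⟧, Ig O (tt (V l A) (V l Y)) y' ∧
      br l (-1) i Y * (V l A)⁻¹ = - tt (V l A) (V l Y) + C (pr ^ 4) * y' := by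
  refine ⟨_, intM_Y4 h h3 hl i, ?_⟩
  have h2 := mu_CC (pow_ne_zero 4 (mu_pr h3).1)
  unfold tt
  linear_combination (-((br l (-1) i Y + V l Y) * (V l A)⁻¹)) * h2

theorem intM_x (h : Core A Y) (h3 : O.valuation 3 < 1) (hl : PL l (-1) s) (i : Option (Fin l)) :
    Ig O (tt (V l A) (V l Y)) (br l (-1) i A * (V l A)⁻¹) := by
  obtain ⟨x', h1, h2⟩ := mu_x h h3 hl i
  rw [h2]
  have e : (2 : ℂ⟦X⟧) = C ((2 : ℕ) : ℂ) := by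
    push_cast
    exact (map_ofNat _ _).symm
  rw [e]
  exact Ig_add (Ig_sub mu_one (Ig_mul (mu_nat 2) Ig_t)) (Ig_mul (Ig_C (mu_pr h3).2) h1)

private theorem mu_yI (h : Core A Y) (h3 : O.valuation 3 < 1) (hl : PL l (-1) s) (i : Option (Fin l)) :
    Ig O (tt (V l A) (V l Y)) (br l (-1) i Y * (V l A)⁻¹) := by
  obtain ⟨y', h1, h2⟩ := mu_y h h3 hl i
  rw [h2, neg_add_eq_sub]
  exact Ig_sub (Ig_mul (Ig_C (mu_pr h3).2) h1) Ig_t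

/-- the constant `c = l (l - 1)` -/
private theorem mu_c (hl : PL l (-1) s) : ∃ q : ℤ, 1 + cl l (-1) = 3 * ((3 * q ^ 2 + 3 * q + 1 : ℤ) : ℂ) ∧
    2 - cl l (-1) = 3 * ((-(3 * q ^ 2 + 3 * q) : ℤ) : ℂ) := by
  obtain ⟨hp, h1 | h1⟩ := hl
  · exfalso
    have := h1.2.1
    norm_num at this
  · obtain ⟨q, hq⟩ : ∃ q : ℕ, l = 3 * q + 2 := ⟨l / 3, by omega⟩
    refine ⟨(q : ℤ), ?_⟩
    have h2 : ((l : ℂ) + 1) ≠ 0 := by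
      exact_mod_cast Nat.succ_ne_zero l
    have h3 : cl l (-1) = (l : ℂ) * ((l : ℂ) - 1) := by
      unfold cl
      field_simp
      ring
    rw [h3, hq]
    push_cast
    constructor <;> ring

theorem intM_u (h : Core A Y) (h3 : O.valuation 3 < 1) (hl : PL l (-1) s) (i : Option (Fin l)) :
    Ig O (tt (V l A) (V l Y)) (ub l (-1) A Y i * (V l A)⁻¹ ^ 3) := by
  obtain ⟨x', hx1, hx2⟩ := mu_x h h3 hl i
  obtain ⟨y', hy1, hy2⟩ := mu_y h h3 hl i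
  obtain ⟨q, hq1, hq2⟩ := mu_c hl
  obtain ⟨t, ht⟩ : ∃ t, t = tt (V l A) (V l Y) := ⟨_, rfl⟩
  rw [← ht] at hx1 hx2 hy1 hy2 ⊢
  have hs := mu_s3
  have hinv := mu_inv h hl
  have k1 : (1 : ℂ⟦X⟧) + C (cl l (-1)) = 3 * C ((3 * q ^ 2 + 3 * q + 1 : ℤ) : ℂ) := by
    have := congrArg (C : ℂ →+* ℂ⟦X⟧) hq1
    rw [map_add, map_one, map_mul] at this
    rw [this]
    congr 1
  have k2 : (2 : ℂ⟦X⟧) - C (cl l (-1)) = 3 * C ((-(3 * q ^ 2 + 3 * q) : ℤ) : ℂ) := by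
    have := congrArg (C : ℂ →+* ℂ⟦X⟧) hq2
    rw [map_sub, map_mul] at this
    have e2 : (C (2 : ℂ) : ℂ⟦X⟧) = 2 := map_ofNat _ _
    have e3 : (C (3 : ℂ) : ℂ⟦X⟧) = 3 := map_ofNat _ _
    rwa [e2, e3] at this
  have h13 : (C (1 / 3 : ℂ) : ℂ⟦X⟧) * 3 = 1 := by
    have e3 : (3 : ℂ⟦X⟧) = C (3 : ℂ) := (map_ofNat _ _).symm
    rw [e3, ← map_mul]
    norm_num
  have e1 : ub l (-1) A Y i * (V l A)⁻¹ ^ 3 = C (1 / 3 : ℂ) *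
      ((br l (-1) i A * (V l A)⁻¹) ^ 3 - (br l (-1) i Y * (V l A)⁻¹) ^ 3 + C (cl l (-1)) * (1 - t ^ 3)) := by
    unfold ub
    rw [smul_eq_C_mul, smul_eq_C_mul, ht]
    have e4 : (C (-1 * cl l (-1)) : ℂ⟦X⟧) = -C (cl l (-1)) := by rw [neg_one_mul, map_neg]
    rw [e4]
    unfold tt
    have e5 : (V l A) ^ 3 * (V l A)⁻¹ ^ 3 = 1 := by rw [← mul_pow, hinv, one_pow]
    linear_combination (C (1 / 3 : ℂ) * C (cl l (-1))) * e5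
  have e2 : ub l (-1) A Y i * (V l A)⁻¹ ^ 3 = C ((3 * q ^ 2 + 3 * q + 1 : ℤ) : ℂ) +
      C ((-(3 * q ^ 2 + 3 * q) : ℤ) : ℂ) * t ^ 3 + (C ((4 : ℤ) : ℂ) * t ^ 2 - C ((2 : ℤ) : ℂ) * t - C ((3 : ℤ) : ℂ) * t ^ 3) +
      ((1 - C ((2 : ℤ) : ℂ) * t) ^ 2 * C (pr ^ 4) * x' + (1 - C ((2 : ℤ) : ℂ) * t) * C (pr ^ 4) ^ 2 * x' ^ 2 + x' ^ 3) -
      (t ^ 2 * C (pr ^ 4) * y' - t * C (pr ^ 4) ^ 2 * y' ^ 2 + y' ^ 3) := by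
    have e6 : (C ((2 : ℤ) : ℂ) : ℂ⟦X⟧) = 2 := by push_cast; exact map_ofNat _ _
    have e7 : (C ((4 : ℤ) : ℂ) : ℂ⟦X⟧) = 4 := by push_cast; exact map_ofNat _ _
    have e8 : (C ((3 : ℤ) : ℂ) : ℂ⟦X⟧) = 3 := by push_cast; exact map_ofNat _ _
    rw [e1, hx2, hy2, e6, e7, e8]
    have key : ((1 - 2 * t + C (pr ^ 4) * x') ^ 3 - (-t + C (pr ^ 4) * y') ^ 3 + C (cl l (-1)) * (1 - t ^ 3)) =
        3 * (C ((3 * q ^ 2 + 3 * q + 1 : ℤ) : ℂ) + C ((-(3 * q ^ 2 + 3 * q) : ℤ) : ℂ) * t ^ 3 +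
        (4 * t ^ 2 - 2 * t - 3 * t ^ 3) +
        ((1 - 2 * t) ^ 2 * C (pr ^ 4) * x' + (1 - 2 * t) * C (pr ^ 4) ^ 2 * x' ^ 2 + x' ^ 3) -
        (t ^ 2 * C (pr ^ 4) * y' - t * C (pr ^ 4) ^ 2 * y' ^ 2 + y' ^ 3)) := by
      linear_combination (x' ^ 3 - y' ^ 3) * hs + k1 + t ^ 3 * k2
    rw [key, ← mul_assoc, h13, one_mul]
  rw [e2]
  subst ht
  have hσ : Ig O (tt (V l A) (V l Y)) (C (pr ^ 4)) := Ig_C (mu_pr h3).2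
  have hT : Ig O (tt (V l A) (V l Y)) (tt (V l A) (V l Y)) := Ig_t
  have h12 : Ig O (tt (V l A) (V l Y)) (1 - C ((2 : ℤ) : ℂ) * tt (V l A) (V l Y)) :=
    Ig_sub mu_one (Ig_mul (mu_int 2) hT)
  refine Ig_sub (Ig_add (Ig_add (Ig_add (mu_int _) (Ig_mul (mu_int _) (Ig_pow hT 3)))
    (Ig_sub (Ig_sub (Ig_mul (mu_int _) (Ig_pow hT 2)) (Ig_mul (mu_int _) hT)) (Ig_mul (mu_int _) (Ig_pow hT 3))))
    (Ig_add (Ig_add (Ig_mul (Ig_mul (Ig_pow h12 2) hσ) hx1) (Ig_mul (Ig_mul h12 (Ig_pow hσ 2)) (Ig_pow hx1 2)))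
      (Ig_pow hx1 3))) ?_
  exact Ig_add (Ig_sub (Ig_mul (Ig_mul (Ig_pow hT 2) hσ) hy1) (Ig_mul (Ig_mul hT (Ig_pow hσ 2)) (Ig_pow hy1 2)))
    (Ig_pow hy1 3)

theorem intM_v (h : Core A Y) (h3 : O.valuation 3 < 1) (hl : PL l (-1) s) (i : Option (Fin l)) :
    Ig O (tt (V l A) (V l Y)) (vb l (-1) Y i * (V l A)⁻¹ ^ 3) := by
  obtain ⟨y', hy1, hy2⟩ := mu_y h h3 hl i
  obtain ⟨q, hq1, -⟩ := mu_c hl
  obtain ⟨t, ht⟩ : ∃ t, t = tt (V l A) (V l Y) := ⟨_, rfl⟩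
  rw [← ht] at hy1 hy2 ⊢
  have hs := mu_s3
  have k1 : (1 : ℂ⟦X⟧) + C (cl l (-1)) = 3 * C ((3 * q ^ 2 + 3 * q + 1 : ℤ) : ℂ) := by
    have := congrArg (C : ℂ →+* ℂ⟦X⟧) hq1
    rw [map_add, map_one, map_mul] at this
    rw [this]
    congr 1
  have h13 : (C (1 / 3 : ℂ) : ℂ⟦X⟧) * 3 = 1 := by
    have e3 : (3 : ℂ⟦X⟧) = C (3 : ℂ) := (map_ofNat _ _).symm
    rw [e3, ← map_mul]
    norm_num
  have e1 : vb l (-1) Y i * (V l A)⁻¹ ^ 3 = C (1 / 3 : ℂ) *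
      ((br l (-1) i Y * (V l A)⁻¹) ^ 3 - C (cl l (-1)) * t ^ 3) := by
    unfold vb
    rw [smul_eq_C_mul, smul_eq_C_mul, ht]
    unfold tt
    ring
  have e2 : vb l (-1) Y i * (V l A)⁻¹ ^ 3 = (t ^ 2 * C (pr ^ 4) * y' - t * C (pr ^ 4) ^ 2 * y' ^ 2 + y' ^ 3) -
      C ((3 * q ^ 2 + 3 * q + 1 : ℤ) : ℂ) * t ^ 3 := by
    rw [e1, hy2]
    have key : ((-t + C (pr ^ 4) * y') ^ 3 - C (cl l (-1)) * t ^ 3) =
        3 * ((t ^ 2 * C (pr ^ 4) * y' - t * C (pr ^ 4) ^ 2 * y' ^ 2 + y' ^ 3) -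
      C ((3 * q ^ 2 + 3 * q + 1 : ℤ) : ℂ) * t ^ 3) := by
      linear_combination y' ^ 3 * hs - t ^ 3 * k1
    rw [key, ← mul_assoc, h13, one_mul]
  rw [e2]
  subst ht
  have hσ : Ig O (tt (V l A) (V l Y)) (C (pr ^ 4)) := Ig_C (mu_pr h3).2
  have hT : Ig O (tt (V l A) (V l Y)) (tt (V l A) (V l Y)) := Ig_t
  exact Ig_sub (Ig_add (Ig_sub (Ig_mul (Ig_mul (Ig_pow hT 2) hσ) hy1) (Ig_mul (Ig_mul hT (Ig_pow hσ 2)) (Ig_pow hy1 2)))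
    (Ig_pow hy1 3)) (Ig_mul (mu_int _) (Ig_pow hT 3))

/-- differences of cubes -/
private theorem mu_dcube (h3 : O.valuation 3 < 1) {x y z : ℂ⟦X⟧} (hd : (x - y) * C ((pr ^ 6)⁻¹) = z) :
    C (1 / 3 : ℂ) * (x ^ 3 - y ^ 3) * C ((pr ^ 6)⁻¹) = z ^ 3 + x * y * z := by
  have h2 := mu_CC (pow_ne_zero 6 (mu_pr h3).1)
  have hr := mu_r2
  have h13 : (C (1 / 3 : ℂ) : ℂ⟦X⟧) * 3 = 1 := by
    have e3 : (3 : ℂ⟦X⟧) = C (3 : ℂ) := (map_ofNat _ _).symm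
    rw [e3, ← map_mul]
    norm_num
  obtain ⟨r, hr'⟩ : ∃ r, r = (C (pr ^ 6) : ℂ⟦X⟧) := ⟨_, rfl⟩
  obtain ⟨w, hw'⟩ : ∃ w, w = (C ((pr ^ 6)⁻¹) : ℂ⟦X⟧) := ⟨_, rfl⟩
  rw [← hr'] at h2 hr
  rw [← hw'] at h2 hd ⊢
  have hxy : x - y = r * z := by
    rw [← hd]
    linear_combination (-(x - y)) * h2
  have hx : x = y + r * z := by rw [← hxy]; ring
  have e : x ^ 3 - y ^ 3 = 3 * (r * (z ^ 3 + x * y * z)) := by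
    rw [hx]
    linear_combination (r * z ^ 3) * hr
  rw [e, ← mul_assoc, h13, one_mul]
  linear_combination (z ^ 3 + x * y * z) * h2

theorem intM_du (h : Core A Y) (h3 : O.valuation 3 < 1) (hl : PL l (-1) s) (i j : Option (Fin l)) :
    Ig O (tt (V l A) (V l Y)) ((ub l (-1) A Y i - ub l (-1) A Y j) * (V l A)⁻¹ ^ 3 * C ((pr ^ 6)⁻¹)) := by
  have ha := intM_A h h3 hl i j
  have hb := intM_Y h h3 hl i j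
  have e : (ub l (-1) A Y i - ub l (-1) A Y j) * (V l A)⁻¹ ^ 3 * C ((pr ^ 6)⁻¹) =
      C (1 / 3 : ℂ) * ((br l (-1) i A * (V l A)⁻¹) ^ 3 - (br l (-1) j A * (V l A)⁻¹) ^ 3) * C ((pr ^ 6)⁻¹) -
      C (1 / 3 : ℂ) * ((br l (-1) i Y * (V l A)⁻¹) ^ 3 - (br l (-1) j Y * (V l A)⁻¹) ^ 3) * C ((pr ^ 6)⁻¹) := by
    unfold ub
    simp only [smul_eq_C_mul]
    ring
  rw [e, mu_dcube h3 (z := (br l (-1) i A - br l (-1) j A) * (V l A)⁻¹ * C ((pr ^ 6)⁻¹)) (by ring),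
    mu_dcube h3 (z := (br l (-1) i Y - br l (-1) j Y) * (V l A)⁻¹ * C ((pr ^ 6)⁻¹)) (by ring)]
  exact Ig_sub (Ig_add (Ig_pow ha 3) (Ig_mul (Ig_mul (intM_x h h3 hl i) (intM_x h h3 hl j)) ha))
    (Ig_add (Ig_pow hb 3) (Ig_mul (Ig_mul (mu_yI h h3 hl i) (mu_yI h h3 hl j)) hb))

theorem intM_dv (h : Core A Y) (h3 : O.valuation 3 < 1) (hl : PL l (-1) s) (i j : Option (Fin l)) :
    Ig O (tt (V l A) (V l Y)) ((vb l (-1) Y i - vb l (-1) Y j) * (V l A)⁻¹ ^ 3 * C ((pr ^ 6)⁻¹)) := by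
  have hb := intM_Y h h3 hl i j
  have e : (vb l (-1) Y i - vb l (-1) Y j) * (V l A)⁻¹ ^ 3 * C ((pr ^ 6)⁻¹) =
      C (1 / 3 : ℂ) * ((br l (-1) i Y * (V l A)⁻¹) ^ 3 - (br l (-1) j Y * (V l A)⁻¹) ^ 3) * C ((pr ^ 6)⁻¹) := by
    unfold vb
    simp only [smul_eq_C_mul]
    ring
  rw [e, mu_dcube h3 (z := (br l (-1) i Y - br l (-1) j Y) * (V l A)⁻¹ * C ((pr ^ 6)⁻¹)) (by ring)]
  exact Ig_add (Ig_pow hb 3) (Ig_mul (Ig_mul (mu_yI h h3 hl i) (mu_yI h h3 hl j)) hb)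

end Pool.Agent.Lib.MP_06b9d2_tls
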