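import Mathlib

/-!
Module TLS-Tay. A sum over branches is divisible by `ρ ^ 2`.

`R` a commutative ring, `I : x ↦ S x` a subring given as a predicate is avoided: everything is in a commutative ring `S`. For all `i`, `j`: `x i - x j`, `u i - u j`, `v i - v j` are multiples of `ρ`, the sums `∑ x i`, `∑ u i`, `∑ v i` and `(card ι : S)` are multiples of
`ρ ^ 2`. Fix `i₀`. Claim: for all `a m n` there are `L₁ L₂ L₃ : S` (independent of `i`) with
`x i ^ a u i ^ m v i ^ n - x₀ ^ a u₀ ^ m v₀ ^ n - L₁ (x i - x₀) - L₂ (u i - u₀) - L₃ (v i - v₀)` a multiple of `ρ ^ 2` for all `i`: induction on `a + m + n` (multiply by `x i = x₀ + (x i - x₀)`; products of two differences are multiples of `ρ ^ 2`).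
Sum over `i`: `∑ (x i - x₀) = ∑ x i - card x₀` is a multiple of `ρ ^ 2`.
-/

namespace Pool.Agent.Lib.MP_06b9d2_tls

/-- `f` is linear in `x`, `u`, `v` modulo `ρ ^ 2` -/
private def Lin {S : Type*} [CommRing S] {ι : Type*} (ρ : S) (x u v : ι → S) (i₀ : ι) (f : ι → S) : Prop :=
  ∃ a b c : S, ∀ i, ρ ^ 2 ∣ f i - (f i₀ + a * (x i - x i₀) + b * (u i - u i₀) + c * (v i - v i₀))

private theorem lin_mul {S : Type*} [CommRing S] {ι : Type*} {ρ : S} {x u v y f : ι → S} {i₀ : ι}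
    (hx : ∀ i, ρ ∣ x i - x i₀) (hu : ∀ i, ρ ∣ u i - u i₀) (hv : ∀ i, ρ ∣ v i - v i₀)
    (hy : Lin ρ x u v i₀ y) (hyr : ∀ i, ρ ∣ y i - y i₀) (hf : Lin ρ x u v i₀ f) :
    Lin ρ x u v i₀ (fun i => f i * y i) := by
  obtain ⟨a, b, c, h⟩ := hf
  obtain ⟨a', b', c', h'⟩ := hy
  refine ⟨a * y i₀ + f i₀ * a', b * y i₀ + f i₀ * b', c * y i₀ + f i₀ * c', fun i => ?_⟩
  obtain ⟨e, he⟩ := h i
  obtain ⟨e', he'⟩ := h' i
  obtain ⟨p, hp⟩ := hx i
  obtain ⟨q, hq⟩ := hu i
  obtain ⟨r, hr⟩ := hv i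
  obtain ⟨t, ht⟩ := hyr i
  have h1 : f i = f i₀ + a * (x i - x i₀) + b * (u i - u i₀) + c * (v i - v i₀) + ρ ^ 2 * e := by
    rw [← he]; ring
  have h2 : y i = y i₀ + ρ * t := by rw [← ht]; ring
  have h3 : y i₀ + a' * (x i - x i₀) + b' * (u i - u i₀) + c' * (v i - v i₀) + ρ ^ 2 * e' = y i := by
    rw [← he']; ring
  refine ⟨(a * p + b * q + c * r) * t + e * y i + f i₀ * e', ?_⟩
  have h4 : f i * y i - (f i₀ * y i₀ + (a * y i₀ + f i₀ * a') * (x i - x i₀) + (b * y i₀ + f i₀ * b') * (u i - u i₀)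
      + (c * y i₀ + f i₀ * c') * (v i - v i₀))
      = (f i - (f i₀ + a * (x i - x i₀) + b * (u i - u i₀) + c * (v i - v i₀))) * y i
        + (a * (x i - x i₀) + b * (u i - u i₀) + c * (v i - v i₀)) * (y i - y i₀)
        + f i₀ * (y i - (y i₀ + a' * (x i - x i₀) + b' * (u i - u i₀) + c' * (v i - v i₀))) := by ring
  rw [h4, he, he', hp, hq, hr, ht]
  ring

theorem tay {S : Type*} [CommRing S] {ι : Type*} [Fintype ι] (ρ : S) (x u v : ι → S)
    (hx : ∀ i j, ρ ∣ x i - x j) (hu : ∀ i j, ρ ∣ u i - u j) (hv : ∀ i j, ρ ∣ v i - v j)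
    (sx : ρ ^ 2 ∣ ∑ i, x i) (su : ρ ^ 2 ∣ ∑ i, u i) (sv : ρ ^ 2 ∣ ∑ i, v i)
    (hc : ρ ^ 2 ∣ (Fintype.card ι : S)) (a m n : ℕ) :
    ρ ^ 2 ∣ ∑ i, x i ^ a * u i ^ m * v i ^ n := by
  classical
  rcases isEmpty_or_nonempty ι with hE | ⟨⟨i₀⟩⟩
  · simp
  · have one : Lin ρ x u v i₀ (fun _ => (1 : S)) := ⟨0, 0, 0, fun i => by simp⟩
    have lx : Lin ρ x u v i₀ x := ⟨1, 0, 0, fun i => by
      have : x i - (x i₀ + 1 * (x i - x i₀) + 0 * (u i - u i₀) + 0 * (v i - v i₀)) = 0 := by ring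
      rw [this]; exact dvd_zero _⟩
    have lu : Lin ρ x u v i₀ u := ⟨0, 1, 0, fun i => by
      have : u i - (u i₀ + 0 * (x i - x i₀) + 1 * (u i - u i₀) + 0 * (v i - v i₀)) = 0 := by ring
      rw [this]; exact dvd_zero _⟩
    have lv : Lin ρ x u v i₀ v := ⟨0, 0, 1, fun i => by
      have : v i - (v i₀ + 0 * (x i - x i₀) + 0 * (u i - u i₀) + 1 * (v i - v i₀)) = 0 := by ring
      rw [this]; exact dvd_zero _⟩
    have key : ∀ (f y : ι → S), Lin ρ x u v i₀ y → (∀ i, ρ ∣ y i - y i₀) → Lin ρ x u v i₀ f → ∀ k : ℕ,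
        Lin ρ x u v i₀ (fun i => f i * y i ^ k) := by
      intro f y hy hyr hf k
      induction k with
      | zero => simpa using hf
      | succ k ih =>
        have := lin_mul (fun i => hx i i₀) (fun i => hu i i₀) (fun i => hv i i₀) hy hyr ih
        have e : (fun i => f i * y i ^ (k + 1)) = fun i => f i * y i ^ k * y i := by
          funext i; ring
        rw [e]; exact this
    have h1 := key _ x lx (fun i => hx i i₀) one a
    have h2 := key _ u lu (fun i => hu i i₀) h1 m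
    have h3 := key _ v lv (fun i => hv i i₀) h2 n
    obtain ⟨A, B, C, h⟩ := h3
    set F : ι → S := fun i => x i ^ a * u i ^ m * v i ^ n with hF
    have h' : ∀ i, ρ ^ 2 ∣ F i - (F i₀ + A * (x i - x i₀) + B * (u i - u i₀) + C * (v i - v i₀)) := by
      intro i
      have := h i
      simpa [hF] using this
    have hsum : ∑ i, F i = ∑ i, (F i - (F i₀ + A * (x i - x i₀) + B * (u i - u i₀) + C * (v i - v i₀)))
        + ((Fintype.card ι : S) * (F i₀ - A * x i₀ - B * u i₀ - C * v i₀) + A * ∑ i, x i + B * ∑ i, u i + C * ∑ i, v i) := by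
      have : ∑ i, (F i₀ + A * (x i - x i₀) + B * (u i - u i₀) + C * (v i - v i₀))
          = (Fintype.card ι : S) * (F i₀ - A * x i₀ - B * u i₀ - C * v i₀) + A * ∑ i, x i + B * ∑ i, u i + C * ∑ i, v i := by
        have e : ∀ i, F i₀ + A * (x i - x i₀) + B * (u i - u i₀) + C * (v i - v i₀)
            = (F i₀ - A * x i₀ - B * u i₀ - C * v i₀) + A * x i + B * u i + C * v i := by intro i; ring
        rw [Finset.sum_congr rfl fun i _ => e i]
        rw [Finset.sum_add_distrib, Finset.sum_add_distrib, Finset.sum_add_distrib, Finset.sum_const,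
          ← Finset.mul_sum, ← Finset.mul_sum, ← Finset.mul_sum, Finset.card_univ, nsmul_eq_mul]
      rw [Finset.sum_sub_distrib, this]; ring
    rw [hsum]
    refine dvd_add (Finset.dvd_sum fun i _ => h' i) (dvd_add (dvd_add (dvd_add ?_ ?_) ?_) ?_)
    · exact Dvd.dvd.mul_right hc _
    · exact Dvd.dvd.mul_left sx _
    · exact Dvd.dvd.mul_left su _
    · exact Dvd.dvd.mul_left sv _

end Pool.Agent.Lib.MP_06b9d2_tls
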