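import Pool.Agent.Lib.MP_06b9d2_tls.PcB
import Pool.Agent.Lib.MP_06b9d2_tls.IntMu
import Pool.Agent.Lib.MP_06b9d2_tls.Tay
import Pool.Agent.Lib.MP_06b9d2_tls.Low

/-!
Module TLS-PcJ. The coefficients `pc` are divisible by `3` (`e = -1`), by `pr ^ (6 (m + n))` (`e = 1`).

`t = tt (V l A) (V l Y)` (`constantCoeff t = 0`, `t ≠ 0`). `tri`: `moX (V l A) (V l Y) a K r * (V l A)⁻¹ ^ (a + 3 K) = (1 - t ^ 3) ^ (K - r) t ^ (3 r)` for `r ≤ K`. So `pc_sum` times `(V l A)⁻¹ ^ (a + 3 (m + n))` is `f(t)`,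
`f = ∑_r pc_r (1 - T ^ 3) ^ (m + n - r) T ^ (3 r)`. If `λ⁻¹ f(t)` is integral then all coefficients of `λ⁻¹ f` have valuation `≤ 1` (`Ig_desc`), and then all `λ⁻¹ pc_r` (induction on `r`: the coefficient of `T ^ (3 r)` of `f` is `pc_r` plus an integral
combination of the `pc_{r'}`, `r' < r`). (`pc_bd`.)
`e = 1`: `λ = pr ^ (6 (m + n))`: each summand `x ^ a u ^ m v ^ n` of the left side of `pc_sum` times the power of `(V l A)⁻¹` is `pr ^ (6 (m + n))` times an integral element (`intP_x`, `intP_u`, `intP_v`).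
`pcP`: with `pc_rat` and `v_rat` (`k = m + n`). `e = -1`: `λ = 3`: `tay` in the ring `S` of the integral elements (a subring of `ℂ⟦X⟧`: `Ig_add`, `Ig_mul`, ..; construct it as `Subring`), `ρ = C (pr ^ 6)`, `ρ ^ 2 = 3`,
`x i = br i A * (V l A)⁻¹`, ...: `∑ x i = 0`: `br_sum` for `P = X 0`, `hM.eq 1 0 0` and `mat_00`: `M 1 0 0 0 = l + e l = 0`; `∑ u i = ∑ v i = 0`: `pc_sum` for `(0, 1, 0)`, `(0, 0, 1)`: `pc_m00` (`1 - e c = 1 + c = l ^ 2 - l + 1`, `(e l) ^ 3 - e c = - l (1 + c)`: `l - l = 0`),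
`pc_101`, `pc_sym`. `card = l + 1 = 3 (..)`.
-/

namespace Pool.Agent.Lib.MP_06b9d2_tls

open PowerSeries Pool.Agent.L1

/-- the subring of the integral elements -/
private def pcjS (O : ValuationSubring ℂ) (t : ℂ⟦X⟧) : Subring ℂ⟦X⟧ where
  carrier := {z | Ig O t z}
  mul_mem' := fun hx hy => Ig_mul hx hy
  one_mem' := by
    have h : Ig O t (C (1 : ℂ)) := Ig_C (by rw [map_one])
    rwa [map_one] at h
  add_mem' := fun hx hy => Ig_add hx hy
  zero_mem' := by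
    have h : Ig O t (C (0 : ℂ)) := Ig_C (by rw [map_zero]; exact zero_le)
    rwa [map_zero] at h
  neg_mem' := by
    intro x hx
    have h0 : Ig O t (C (0 : ℂ)) := Ig_C (by rw [map_zero]; exact zero_le)
    rw [map_zero] at h0
    have h := Ig_sub h0 hx
    rwa [zero_sub] at h

private theorem pcj_cc {r : ℂ} (hr : r ≠ 0) : (C r : ℂ⟦X⟧) * C (r⁻¹) = 1 := by
  rw [← map_mul, mul_inv_cancel₀ hr, map_one]

private theorem pcj_dvd {O : ValuationSubring ℂ} {t : ℂ⟦X⟧} {r : ℂ} (hr0 : r ≠ 0) (hr : Ig O t (C r))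
    {x y : ℂ⟦X⟧} (hx : Ig O t x) (hy : Ig O t y) (hd : Ig O t ((x - y) * C (r⁻¹))) :
    (⟨C r, hr⟩ : pcjS O t) ∣ (⟨x, hx⟩ : pcjS O t) - ⟨y, hy⟩ := by
  refine ⟨⟨_, hd⟩, ?_⟩
  apply Subtype.ext
  change x - y = C r * ((x - y) * C (r⁻¹))
  have := pcj_cc hr0
  linear_combination (-(x - y)) * this

theorem pcM {A Y : ℂ⟦X⟧} (h : Core A Y) {O : ValuationSubring ℂ} (h3 : O.valuation 3 < 1) {l : ℕ} {s0 : ℂ}
    (hl : PL l (-1) s0) {M : ℕ → ℕ → ℕ → ℕ → ℂ} (hM : MatD l (-1) A Y M) (a m n r : ℕ) [Fact (a < 3)] :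
    O.valuation (pc (-1) (cl l (-1)) M a m n r) ≤ O.valuation 3 := by
  have hl2 : l % 3 = 2 := by
    rcases hl.2 with h1 | h1
    · exfalso
      have := h1.2.1
      norm_num at this
    · exact h1.1
  have hl1 : ((l : ℂ) + 1) ≠ 0 := by exact_mod_cast Nat.succ_ne_zero l
  have hcl : cl l (-1) = (l : ℂ) ^ 2 - l := by
    unfold cl
    field_simp
    ring
  have hpr0 : pr ≠ 0 := by
    obtain ⟨-, -, h2⟩ := v_pr h3
    exact fun h0 => h2 (by rw [h0, map_zero])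
  have hr0 : pr ^ 6 ≠ 0 := pow_ne_zero _ hpr0
  have hvr : O.valuation (pr ^ 6) ≤ 1 := by
    rw [map_pow]
    exact pow_le_one₀ zero_le (v_pr h3).2.1.le
  -- the sums
  have sx : ∑ i : Option (Fin l), br l (-1) i A = 0 := by
    have h1 := pc_sum h hl hM 1 0 0
    simp only [pow_zero, mul_one, pow_one, add_zero, zero_add, Finset.sum_range_one] at h1
    rw [h1, pc_m00 h hl hM 1 0]
    simp
  have hu0 : pc (-1) (cl l (-1)) M 0 1 0 0 = 0 := by
    rw [pc_m00 h hl hM 0 1, hcl]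
    ring
  have su : ∑ i : Option (Fin l), ub l (-1) A Y i = 0 := by
    have h1 := pc_sum h hl hM 0 1 0
    simp only [pow_zero, mul_one, one_mul, pow_one, add_zero, Finset.sum_range_succ,
      Finset.sum_range_zero, zero_add] at h1
    rw [h1, hu0, (pc_101 h hl hM 0).1]
    simp
  have sv : ∑ i : Option (Fin l), vb l (-1) Y i = 0 := by
    have h1 := pc_sum h hl hM 0 0 1
    simp only [pow_zero, mul_one, one_mul, pow_one, zero_add, Finset.sum_range_succ,
      Finset.sum_range_zero] at h1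
    have h2 := pc_sym (e_sq hl) (cl l (-1)) hM 0 1 0 0 (by omega)
    simp only [add_zero, Nat.sub_zero, zero_add] at h2
    rw [hu0, mul_zero] at h2
    rw [h1, (pc_101 h hl hM 0).2, h2]
    simp
  -- the ring
  set t := tt (V l A) (V l Y) with ht
  set W := (V l A)⁻¹ with hW
  have hC : Ig O t (C (pr ^ 6)) := Ig_C hvr
  let ρ : pcjS O t := ⟨C (pr ^ 6), hC⟩
  let x : Option (Fin l) → pcjS O t := fun i => ⟨br l (-1) i A * W, intM_x h h3 hl i⟩
  let u : Option (Fin l) → pcjS O t := fun i => ⟨ub l (-1) A Y i * W ^ 3, intM_u h h3 hl i⟩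
  let v : Option (Fin l) → pcjS O t := fun i => ⟨vb l (-1) Y i * W ^ 3, intM_v h h3 hl i⟩
  have hρ : ((ρ ^ 2 : pcjS O t) : ℂ⟦X⟧) = 3 := by
    change (C (pr ^ 6) : ℂ⟦X⟧) ^ 2 = 3
    rw [← map_pow, ← pow_mul]
    have : pr ^ (6 * 2) = 3 := pr_pow
    rw [this, map_ofNat]
  have key : ρ ^ 2 ∣ ∑ i, x i ^ a * u i ^ m * v i ^ n := by
    refine tay ρ x u v ?_ ?_ ?_ ?_ ?_ ?_ ?_ a m n
    · intro i j
      refine pcj_dvd hr0 hC _ _ ?_
      have := intM_A h h3 hl i j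
      rwa [sub_mul] at this
    · intro i j
      refine pcj_dvd hr0 hC _ _ ?_
      have := intM_du h h3 hl i j
      rwa [sub_mul] at this
    · intro i j
      refine pcj_dvd hr0 hC _ _ ?_
      have := intM_dv h h3 hl i j
      rwa [sub_mul] at this
    · have : ∑ i, x i = 0 := by
        apply Subtype.ext
        rw [AddSubmonoidClass.coe_finsetSum]
        change ∑ i : Option (Fin l), br l (-1) i A * W = 0
        rw [← Finset.sum_mul, sx, zero_mul]
      rw [this]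
      exact dvd_zero _
    · have : ∑ i, u i = 0 := by
        apply Subtype.ext
        rw [AddSubmonoidClass.coe_finsetSum]
        change ∑ i : Option (Fin l), ub l (-1) A Y i * W ^ 3 = 0
        rw [← Finset.sum_mul, su, zero_mul]
      rw [this]
      exact dvd_zero _
    · have : ∑ i, v i = 0 := by
        apply Subtype.ext
        rw [AddSubmonoidClass.coe_finsetSum]
        change ∑ i : Option (Fin l), vb l (-1) Y i * W ^ 3 = 0
        rw [← Finset.sum_mul, sv, zero_mul]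
      rw [this]
      exact dvd_zero _
    · rw [Fintype.card_option, Fintype.card_fin]
      obtain ⟨k, hk⟩ : 3 ∣ l + 1 := by omega
      refine ⟨(k : pcjS O t), ?_⟩
      have h33 : (3 : pcjS O t) = ρ ^ 2 := by
        apply Subtype.ext
        rw [hρ]
        rfl
      rw [hk, Nat.cast_mul, ← h33]
      norm_num
  refine pc_bd h h3 hl hM a m n 3 (by norm_num) ?_ r
  obtain ⟨y, hy⟩ := key
  have hy2 := congrArg (fun z : pcjS O t => (z : ℂ⟦X⟧)) hy
  simp only [AddSubmonoidClass.coe_finsetSum, MulMemClass.coe_mul, SubmonoidClass.coe_pow] at hy2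
  have hy3 : (∑ i : Option (Fin l), br l (-1) i A ^ a * ub l (-1) A Y i ^ m * vb l (-1) Y i ^ n) *
      W ^ (a + 3 * (m + n)) * C (3 : ℂ)⁻¹ = (y : ℂ⟦X⟧) := by
    have e1 : (∑ i : Option (Fin l), br l (-1) i A ^ a * ub l (-1) A Y i ^ m * vb l (-1) Y i ^ n) *
      W ^ (a + 3 * (m + n)) = ∑ i : Option (Fin l), (br l (-1) i A * W) ^ a *
        (ub l (-1) A Y i * W ^ 3) ^ m * (vb l (-1) Y i * W ^ 3) ^ n := by
      rw [Finset.sum_mul]
      refine Finset.sum_congr rfl fun i _ => ?_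
      rw [mul_pow, mul_pow, mul_pow]
      ring
    have e2 : ∑ i : Option (Fin l), (br l (-1) i A * W) ^ a *
        (ub l (-1) A Y i * W ^ 3) ^ m * (vb l (-1) Y i * W ^ 3) ^ n = 3 * (y : ℂ⟦X⟧) := by
      rw [← hρ]
      exact hy2
    rw [e1, e2]
    have e3 : (C (3 : ℂ) : ℂ⟦X⟧) * C (3 : ℂ)⁻¹ = 1 := pcj_cc (by norm_num)
    have e4 : (C (3 : ℂ) : ℂ⟦X⟧) = 3 := map_ofNat _ _
    rw [e4] at e3
    linear_combination (y : ℂ⟦X⟧) * e3
  rw [hy3]
  exact y.2

end Pool.Agent.Lib.MP_06b9d2_tls
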