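import Pool.Agent.Lib.MP_06b9d2_tls.DefsC

/-!
Module TLS-Vb. The operators `V n`, `U n`, `TT`.

`V n f = PowerSeries.expand n hn f` (`PowerSeries.coeff_expand` or the like), so `V n` is additive, multiplicative, `ℂ`-linear:
derive all the `V_..` lemmas from `V_eq`. `V_V`: coefficients, `m ∣ r ∧ n ∣ r / m ↔ m * n ∣ r`. `U_V`: coefficient `n * m` of `V n f`.
`TT_V3`: coefficient `r`: `U l (V 3 f)`: `3 ∣ l r ↔ 3 ∣ r` (`l` prime, `l ≠ 3`) and `(l r) / 3 = l (r / 3)`; `V l (V 3 f) = V (3 l) f = V 3 (V l f)`.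
-/

namespace Pool.Agent.Lib.MP_06b9d2_tls

open PowerSeries Pool.Agent.L1

theorem V_eq (n : ℕ) (hn : n ≠ 0) (f : ℂ⟦X⟧) : V n f = PowerSeries.expand n hn f := by
  ext m
  unfold V
  rw [PowerSeries.coeff_mk, PowerSeries.coeff_expand]

theorem V_coeff (n m : ℕ) (f : ℂ⟦X⟧) : coeff m (V n f) = if n ∣ m then coeff (m / n) f else 0 := by
  unfold V
  rw [PowerSeries.coeff_mk]

theorem V_add {n : ℕ} (hn : n ≠ 0) (f g : ℂ⟦X⟧) : V n (f + g) = V n f + V n g := by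
  rw [V_eq n hn, V_eq n hn, V_eq n hn, map_add]

theorem V_sub {n : ℕ} (hn : n ≠ 0) (f g : ℂ⟦X⟧) : V n (f - g) = V n f - V n g := by
  rw [V_eq n hn, V_eq n hn, V_eq n hn, map_sub]

theorem V_mul {n : ℕ} (hn : n ≠ 0) (f g : ℂ⟦X⟧) : V n (f * g) = V n f * V n g := by
  rw [V_eq n hn, V_eq n hn, V_eq n hn, map_mul]

theorem V_pow {n : ℕ} (hn : n ≠ 0) (f : ℂ⟦X⟧) (m : ℕ) : V n (f ^ m) = V n f ^ m := by
  rw [V_eq n hn, V_eq n hn, map_pow]

theorem V_smul {n : ℕ} (hn : n ≠ 0) (r : ℂ) (f : ℂ⟦X⟧) : V n (r • f) = r • V n f := by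
  rw [V_eq n hn, V_eq n hn, map_smul]

theorem V_C {n : ℕ} (hn : n ≠ 0) (r : ℂ) : V n (C r) = C r := by
  rw [V_eq n hn, PowerSeries.expand_C]

theorem V_ofNat {n : ℕ} (hn : n ≠ 0) (m : ℕ) [m.AtLeastTwo] : V n (OfNat.ofNat m : ℂ⟦X⟧) = OfNat.ofNat m := by
  rw [V_eq n hn, map_ofNat]

theorem V_one {n : ℕ} (hn : n ≠ 0) : V n 1 = 1 := by
  rw [V_eq n hn, map_one]

theorem V_sum {n : ℕ} (hn : n ≠ 0) {ι : Type*} (s : Finset ι) (f : ι → ℂ⟦X⟧) :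
    V n (∑ i ∈ s, f i) = ∑ i ∈ s, V n (f i) := by
  rw [V_eq n hn, map_sum]
  exact Finset.sum_congr rfl fun i _ => (V_eq n hn _).symm

theorem V_inj {n : ℕ} (hn : n ≠ 0) {f g : ℂ⟦X⟧} (h : V n f = V n g) : f = g := by
  ext m
  have h1 := congrArg (coeff (n * m)) h
  rw [V_coeff, V_coeff, if_pos (Dvd.intro m rfl), if_pos (Dvd.intro m rfl),
    Nat.mul_div_cancel_left m (Nat.pos_of_ne_zero hn)] at h1
  exact h1

theorem V_V {m n : ℕ} (hm : m ≠ 0) (hn : n ≠ 0) (f : ℂ⟦X⟧) : V m (V n f) = V (m * n) f := by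
  rw [V_eq m hm, V_eq n hn, V_eq (m * n) (mul_ne_zero hm hn), PowerSeries.expand_mul]

theorem U_V {n : ℕ} (hn : n ≠ 0) (f : ℂ⟦X⟧) : U n (V n f) = f := by
  ext m
  unfold U
  rw [PowerSeries.coeff_mk, V_coeff, if_pos (Dvd.intro m rfl),
    Nat.mul_div_cancel_left m (Nat.pos_of_ne_zero hn)]

theorem V_cc {n : ℕ} (hn : n ≠ 0) (f : ℂ⟦X⟧) : constantCoeff (V n f) = constantCoeff f := by
  rw [V_eq n hn, PowerSeries.constantCoeff_expand]

private theorem U_add' (l : ℕ) (f g : ℂ⟦X⟧) : U l (f + g) = U l f + U l g := by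
  ext m
  simp [U]

private theorem U_smul' (l : ℕ) (r : ℂ) (f : ℂ⟦X⟧) : U l (r • f) = r • U l f := by
  ext m
  simp [U]

theorem TT_add (l : ℕ) (hl : l ≠ 0) (e : ℂ) (w : ℕ) (f g : ℂ⟦X⟧) : TT l e w (f + g) = TT l e w f + TT l e w g := by
  unfold TT
  rw [U_add', V_add hl, smul_add, smul_add]
  abel

theorem TT_smul (l : ℕ) (hl : l ≠ 0) (e : ℂ) (w : ℕ) (r : ℂ) (f : ℂ⟦X⟧) : TT l e w (r • f) = r • TT l e w f := by
  unfold TT
  rw [U_smul', V_smul hl, smul_add, smul_comm r, smul_comm r ((e * (l : ℂ)) ^ w)]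

theorem TT_sum (l : ℕ) (hl : l ≠ 0) (e : ℂ) (w : ℕ) {ι : Type*} (s : Finset ι) (f : ι → ℂ⟦X⟧) :
    TT l e w (∑ i ∈ s, f i) = ∑ i ∈ s, TT l e w (f i) := by
  classical
  induction s using Finset.induction_on with
  | empty =>
    have h := TT_smul l hl e w 0 (0 : ℂ⟦X⟧)
    rw [zero_smul, zero_smul] at h
    rw [Finset.sum_empty, Finset.sum_empty, h]
  | insert a s ha ih => rw [Finset.sum_insert ha, Finset.sum_insert ha, TT_add l hl, ih]

theorem TT_coeff (l : ℕ) (e : ℂ) (w n : ℕ) (f : ℂ⟦X⟧) :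
    coeff n (TT l e w f) = l * coeff (l * n) f + (e * l) ^ w * (if l ∣ n then coeff (n / l) f else 0) := by
  unfold TT
  rw [map_add, PowerSeries.coeff_smul, PowerSeries.coeff_smul, V_coeff]
  unfold U
  rw [PowerSeries.coeff_mk, smul_eq_mul, smul_eq_mul]

theorem TT_V3 {l : ℕ} (hl : l.Prime) (h3 : l ≠ 3) (e : ℂ) (w : ℕ) (f : ℂ⟦X⟧) :
    TT l e w (V 3 f) = V 3 (TT l e w f) := by
  have hU : U l (V 3 f) = V 3 (U l f) := by
    ext m
    unfold U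
    rw [PowerSeries.coeff_mk, V_coeff, V_coeff, PowerSeries.coeff_mk]
    have hc : Nat.Coprime 3 l := (Nat.coprime_primes Nat.prime_three hl).2 (Ne.symm h3)
    by_cases h : 3 ∣ m
    · rw [if_pos (Dvd.dvd.mul_left h l), if_pos h, Nat.mul_div_assoc l h]
    · rw [if_neg h, if_neg]
      intro h'
      exact h (hc.dvd_of_dvd_mul_left h')
  unfold TT
  rw [hU, V_V hl.ne_zero (by norm_num), mul_comm l 3, ← V_V (by norm_num) hl.ne_zero,
    V_add (by norm_num), V_smul (by norm_num), V_smul (by norm_num)]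

end Pool.Agent.Lib.MP_06b9d2_tls
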