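import Pool.Agent.Lib.MP_06b9d2_tls.DefsB
import Pool.Agent.Lib.MP_06b9d2_ssp.POa

/-!
Board TLS, algebra part. The eigenvalue equation tested against functions.

`muM M N x π f` is the sum of `x s * f s` over the `s ≤ N` with `s ≡ π` modulo `M` (`M = 1` or `M = 2`).
`star`: multiply the equation for `j` by `f j` and sum over the `j ≤ N` with `j ≡ π` modulo `M`.
For fixed `s ≤ N`, `m ≤ N - s`, `n ≤ s` (otherwise the binomial coefficients are `0`) substitute `j = s - n + l`.
-/

namespace Pool.Agent.Lib.MP_06b9d2_tls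

open PowerSeries Pool.Agent.L1
open Pool.Agent.Lib.MP_06b9d2_ssp (PO PO_const PO_id PO_add PO_mul PO_shift int_mem val_int val_rat)

/-- `∑ x_s f(s)` over the `s ≤ N` with `s ≡ π` modulo `M` -/
noncomputable def muM (M N : ℕ) (x : ℕ → ℂ) (π : ℕ) (f : ℤ → ℂ) : ℂ :=
  ∑ s ∈ (Finset.range (N + 1)).filter (fun s => s % M = π % M), x s * f s

/-- the function `(3e/c) ^ m (3/c) ^ n C(N - s, m) C(s, n)` -/
noncomputable def dmG (e c : ℂ) (N m n : ℕ) (s : ℤ) : ℂ :=
  (3 * e / c) ^ m * (3 / c) ^ n / ((m.factorial : ℂ) * (n.factorial : ℂ)) *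
    ((∏ i ∈ Finset.range m, ((N : ℂ) - (s : ℂ) - (i : ℂ))) *
      ∏ i ∈ Finset.range n, ((s : ℂ) - (i : ℂ)))

theorem prod_desc (r m : ℕ) : ∏ i ∈ Finset.range m, ((r : ℂ) - (i : ℂ)) =
    (m.factorial : ℂ) * (r.choose m : ℂ) := by
  have h : ∏ i ∈ Finset.range m, ((r : ℂ) - (i : ℂ)) = (r.descFactorial m : ℂ) := by
    induction m with
    | zero => simp
    | succ m ih =>
      rw [Finset.prod_range_succ, ih, Nat.descFactorial_succ]
      rcases Nat.lt_or_ge r m with h | h
      · have h0 : r.descFactorial m = 0 := Nat.descFactorial_eq_zero_iff_lt.2 h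
        rw [h0]; simp
      · push_cast [Nat.cast_sub h]; ring
  rw [h, Nat.descFactorial_eq_factorial_mul_choose]
  push_cast
  ring

theorem dmG_nat (e c : ℂ) (N m n s : ℕ) (hs : s ≤ N) : dmG e c N m n (s : ℤ) =
    (3 * e / c) ^ m * (3 / c) ^ n * (((N - s).choose m : ℂ) * (s.choose n : ℂ)) := by
  unfold dmG
  have h1 : ∏ i ∈ Finset.range m, ((N : ℂ) - (((s : ℤ) : ℤ) : ℂ) - (i : ℂ)) =
      (m.factorial : ℂ) * ((N - s).choose m : ℂ) := by
    rw [← prod_desc]
    apply Finset.prod_congr rfl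
    intro i _
    push_cast [Nat.cast_sub hs]
    ring
  have h2 : ∏ i ∈ Finset.range n, ((((s : ℤ) : ℤ) : ℂ) - (i : ℂ)) =
      (n.factorial : ℂ) * (s.choose n : ℂ) := by
    rw [← prod_desc]
    apply Finset.prod_congr rfl
    intro i _
    push_cast
    ring
  rw [h1, h2]
  have hm : (m.factorial : ℂ) ≠ 0 := by exact_mod_cast Nat.factorial_ne_zero m
  have hn : (n.factorial : ℂ) ≠ 0 := by exact_mod_cast Nat.factorial_ne_zero n
  field_simp

section star

variable {M : ℕ} (hM : M = 1 ∨ M = 2) {e : ℂ} (he : e ^ M = 1) (c : ℂ) (κ : ℕ → ℕ → ℕ → ℂ)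
  (hdeg : ∀ m n r, m + n < r → κ m n r = 0)

include hM he hdeg in
theorem star_aux (N m n π s : ℕ) (hs : s ≤ N) (f : ℤ → ℂ) :
    ∑ j ∈ (Finset.range (N + 1)).filter (fun j => j % M = π % M),
      (if s ≤ j + n then
        e ^ s * ((N - s).choose m : ℂ) * (s.choose n : ℂ) * (3 * e / c) ^ m * (3 / c) ^ n *
          κ m n (j + n - s)
      else 0) * f j =
    ∑ l ∈ Finset.range (m + n + 1), e ^ (π + n + l) * κ m n l *
      (if s % M = (π + n + l) % M then dmG e c N m n (s : ℤ) * f ((s : ℤ) - n + l) else 0) := by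
  by_cases hD : m ≤ N - s ∧ n ≤ s
  · obtain ⟨hm, hn⟩ := hD
    rw [dmG_nat e c N m n s hs, Finset.sum_filter]
    obtain ⟨t, ht⟩ : ∃ t, s = n + t := ⟨s - n, by omega⟩
    obtain ⟨u, hu⟩ : ∃ u, N + 1 = t + (m + n + 1) + u := ⟨N + 1 - (t + (m + n + 1)), by omega⟩
    rw [hu, add_assoc t, Finset.sum_range_add _ t, Finset.sum_range_add _ (m + n + 1)]
    rw [Finset.sum_eq_zero (s := Finset.range t), zero_add,
      Finset.sum_eq_zero (s := Finset.range u), add_zero]
    · apply Finset.sum_congr rfl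
      intro l _
      have e1 : (t + l) + n - s = l := by omega
      have e2 : s ≤ t + l + n := by omega
      have e3 : ((t + l) % M = π % M) ↔ (s % M = (π + n + l) % M) := by
        rcases hM with rfl | rfl
        · simp [Nat.mod_one]
        · omega
      have e4 : ((t + l : ℕ) : ℤ) = (s : ℤ) - n + l := by omega
      rw [if_pos e2, e1, e4]
      by_cases hc : s % M = (π + n + l) % M
      · rw [if_pos (e3.2 hc), if_pos hc]
        have e5 : e ^ (π + n + l) = e ^ s := by
          rw [pow_eq_pow_mod (π + n + l) he, ← hc, ← pow_eq_pow_mod s he]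
        rw [e5]
        ring
      · rw [if_neg (fun h => hc (e3.1 h)), if_neg hc, mul_zero]
    · intro l _
      have e1 : t + (m + n + 1 + l) + n - s = m + n + 1 + l := by omega
      rw [e1, hdeg m n _ (by omega)]
      simp
    · intro j hj
      have hj' := Finset.mem_range.1 hj
      rw [if_neg (show ¬ s ≤ j + n by omega)]
      simp
  · have h0 : ((N - s).choose m : ℂ) * (s.choose n : ℂ) = 0 := by
      rcases not_and_or.1 hD with h | h
      · rw [Nat.choose_eq_zero_of_lt (by omega)]; simp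
      · rw [Nat.choose_eq_zero_of_lt (show s < n by omega)]; simp
    rw [dmG_nat e c N m n s hs, h0]
    rw [Finset.sum_eq_zero, Finset.sum_eq_zero]
    · intro l _
      simp
    · intro j _
      rw [mul_assoc (e ^ s), h0]
      simp

/-- the terms of `star` -/
noncomputable def tm (M : ℕ) (e c : ℂ) (κ : ℕ → ℕ → ℕ → ℂ) (N : ℕ) (x : ℕ → ℂ) (π : ℕ) (f : ℤ → ℂ)
    (m n l : ℕ) : ℂ :=
  e ^ (π + n + l) * κ m n l * muM M N x (π + n + l) (fun s => dmG e c N m n s * f (s - n + l))

include hM he hdeg in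
theorem star0 (N : ℕ) (lam : ℂ) (x : ℕ → ℂ) (h : EgG (MG e c κ N) N lam x) (π : ℕ) (f : ℤ → ℂ) :
    lam * muM M N x π f = ∑ m ∈ Finset.range (N + 1), ∑ n ∈ Finset.range (N + 1),
      ∑ l ∈ Finset.range (m + n + 1), tm M e c κ N x π f m n l := by
  have h1 : lam * muM M N x π f = ∑ j ∈ (Finset.range (N + 1)).filter (fun j => j % M = π % M),
      ∑ s ∈ Finset.range (N + 1), MG e c κ N j s * x s * f j := by
    unfold muM
    rw [Finset.mul_sum]
    apply Finset.sum_congr rfl
    intro j hj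
    have hj' := Finset.mem_range.1 (Finset.mem_filter.1 hj).1
    rw [← mul_assoc, ← h j (by omega), Finset.sum_mul]
  rw [h1, Finset.sum_comm]
  have h2 : ∀ s ∈ Finset.range (N + 1),
      ∑ j ∈ (Finset.range (N + 1)).filter (fun j => j % M = π % M), MG e c κ N j s * x s * f j =
      ∑ m ∈ Finset.range (N + 1), ∑ n ∈ Finset.range (N + 1), x s *
        ∑ l ∈ Finset.range (m + n + 1), e ^ (π + n + l) * κ m n l *
        (if s % M = (π + n + l) % M then dmG e c N m n (s : ℤ) * f ((s : ℤ) - n + l) else 0) := by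
    intro s hs
    have hs' : s ≤ N := by have := Finset.mem_range.1 hs; omega
    simp only [← star_aux hM he c κ hdeg N _ _ π s hs' f]
    unfold MG
    simp only [Finset.sum_mul, Finset.mul_sum]
    rw [Finset.sum_comm]
    apply Finset.sum_congr rfl
    intro m _
    rw [Finset.sum_comm]
    apply Finset.sum_congr rfl
    intro n _
    apply Finset.sum_congr rfl
    intro j _
    ring
  rw [Finset.sum_congr rfl h2, Finset.sum_comm]
  apply Finset.sum_congr rfl
  intro m _
  rw [Finset.sum_comm]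
  apply Finset.sum_congr rfl
  intro n _
  simp only [Finset.mul_sum]
  rw [Finset.sum_comm]
  apply Finset.sum_congr rfl
  intro l _
  unfold tm muM
  rw [Finset.mul_sum, Finset.sum_filter]
  apply Finset.sum_congr rfl
  intro s _
  by_cases hc : s % M = (π + n + l) % M
  · rw [if_pos hc, if_pos hc]
    ring
  · rw [if_neg hc, if_neg hc]
    ring

end star

/-! ### properties of `muM` -/

theorem muM_cg {M N : ℕ} {x : ℕ → ℂ} {p : ℕ} {f g : ℤ → ℂ} (h : ∀ s : ℕ, s ≤ N → f s = g s) :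
    muM M N x p f = muM M N x p g := by
  unfold muM
  refine Finset.sum_congr rfl fun s hs => ?_
  have := Finset.mem_range.1 (Finset.mem_filter.1 hs).1
  rw [h s (by omega)]

theorem muM_mul {M N : ℕ} {x : ℕ → ℂ} {p : ℕ} (c : ℂ) (f : ℤ → ℂ) :
    muM M N x p (fun s => c * f s) = c * muM M N x p f := by
  unfold muM
  rw [Finset.mul_sum]
  exact Finset.sum_congr rfl fun s _ => by ring

theorem muM_add {M N : ℕ} {x : ℕ → ℂ} {p : ℕ} (f g : ℤ → ℂ) :
    muM M N x p (fun s => f s + g s) = muM M N x p f + muM M N x p g := by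
  unfold muM
  rw [← Finset.sum_add_distrib]
  exact Finset.sum_congr rfl fun s _ => by ring

theorem muM_mod {M N : ℕ} {x : ℕ → ℂ} {p q : ℕ} (f : ℤ → ℂ) (h : p % M = q % M) :
    muM M N x p f = muM M N x q f := by
  unfold muM
  rw [h]

theorem PO_cg {O : ValuationSubring ℂ} {f g : ℤ → ℂ} (hf : PO O f) (h : ∀ s, f s = g s) :
    PO O g := by
  have : f = g := funext h
  rwa [← this]

theorem tm_zero (M : ℕ) (e c : ℂ) (κ : ℕ → ℕ → ℕ → ℂ) (N : ℕ) (x : ℕ → ℂ) (π : ℕ) (f : ℤ → ℂ)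
    (m n l : ℕ) (h : N < m ∨ N < n) : tm M e c κ N x π f m n l = 0 := by
  unfold tm
  have h1 : muM M N x (π + n + l) (fun s => dmG e c N m n s * f (s - n + l)) =
      muM M N x (π + n + l) (fun s => 0 * f s) := by
    refine muM_cg fun s hs => ?_
    rw [dmG_nat e c N m n s hs]
    rcases h with h | h
    · rw [Nat.choose_eq_zero_of_lt (show N - s < m by omega)]; simp
    · rw [Nat.choose_eq_zero_of_lt (show s < n by omega)]; simp
  rw [h1, muM_mul]
  ring

/-- `star` with extended ranges and a finite set of exceptional pairs: all other terms are in the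
subgroup `J` -/
theorem star {M : ℕ} (hM : M = 1 ∨ M = 2) {e : ℂ} (he : e ^ M = 1) (c : ℂ) (κ : ℕ → ℕ → ℕ → ℂ)
    (hdeg : ∀ m n r, m + n < r → κ m n r = 0) (N : ℕ) (lam : ℂ) (x : ℕ → ℂ)
    (h : EgG (MG e c κ N) N lam x) (π : ℕ) (f : ℤ → ℂ) (J : AddSubgroup ℂ) (S : Finset (ℕ × ℕ))
    (hS : ∀ m n l, (m, n) ∉ S → l ≤ m + n → tm M e c κ N x π f m n l ∈ J) :
    ∃ z ∈ J, lam * muM M N x π f =
      ∑ p ∈ S, ∑ l ∈ Finset.range (p.1 + p.2 + 1), tm M e c κ N x π f p.1 p.2 l + z := by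
  classical
  obtain ⟨K, hK⟩ : ∃ K, ∀ p ∈ S, p.1 < K ∧ p.2 < K := by
    refine ⟨∑ p ∈ S, (p.1 + p.2) + 1, fun p hp => ?_⟩
    have := Finset.single_le_sum (f := fun p : ℕ × ℕ => p.1 + p.2) (fun _ _ => Nat.zero_le _) hp
    omega
  set Q := Finset.range (K + (N + 1)) with hQ
  set F : ℕ × ℕ → ℂ := fun p => ∑ l ∈ Finset.range (p.1 + p.2 + 1), tm M e c κ N x π f p.1 p.2 l
    with hF
  have h0 := star0 hM he c κ hdeg N lam x h π f
  have hsub : Finset.range (N + 1) ⊆ Q := by
    intro a ha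
    have := Finset.mem_range.1 ha
    exact Finset.mem_range.2 (by omega)
  have h1 : lam * muM M N x π f = ∑ m ∈ Q, ∑ n ∈ Q, F (m, n) := by
    rw [h0]
    rw [← Finset.sum_subset hsub (f := fun m => ∑ n ∈ Q, F (m, n))]
    · refine Finset.sum_congr rfl fun m _ => ?_
      refine Finset.sum_subset hsub fun n _ hn' => ?_
      have : ¬ n < N + 1 := fun hh => hn' (Finset.mem_range.2 hh)
      exact Finset.sum_eq_zero fun l _ => tm_zero _ _ _ _ _ _ _ _ _ _ _ (Or.inr (by omega))
    · intro m _ hm'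
      have : ¬ m < N + 1 := fun hh => hm' (Finset.mem_range.2 hh)
      exact Finset.sum_eq_zero fun n _ => Finset.sum_eq_zero fun l _ =>
        tm_zero _ _ _ _ _ _ _ _ _ _ _ (Or.inl (by omega))
  rw [← Finset.sum_product'] at h1
  have hSQ : S ⊆ Q ×ˢ Q := by
    intro p hp
    have := hK p hp
    exact Finset.mem_product.2 ⟨Finset.mem_range.2 (by omega), Finset.mem_range.2 (by omega)⟩
  refine ⟨∑ p ∈ (Q ×ˢ Q) \ S, F p, AddSubgroup.sum_mem _ fun p hp => ?_, ?_⟩
  · refine AddSubgroup.sum_mem _ fun l hl => ?_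
    have hl' := Finset.mem_range.1 hl
    exact hS p.1 p.2 l (Finset.mem_sdiff.1 hp).2 (by omega)
  · rw [h1, add_comm, Finset.sum_sdiff hSQ]

end Pool.Agent.Lib.MP_06b9d2_tls
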