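import Pool.Agent.Lib.MP_06b9d2_tls.Vb

/-!
Module TLS-Cub. Existence of the matrix and its symmetry.

`cubA`: `h.b1`. `cubB`: `V 3 ((A - Y) ^ 3) = A ^ 3 - Y ^ 3`: with `A' = V 3 A`, `Y' = V 3 Y`: `A = A' + 2 Y'`, `Y ^ 3 = 9 (A' ^ 2 Y' + A' Y' ^ 2 + Y' ^ 3)`, so
`A ^ 3 - Y ^ 3 = (A' + 2 Y') ^ 3 - 9 (..) = (A' - Y') ^ 3`. `moX_ind`: the least `j` with `y_j ≠ 0`: coefficient of `x ^ (3 j)`: `27 ^ j y_j`
(`Y ^ 3 = 27 x ^ 3 (1 + ..)`, `A`, `A ^ 3 - Y ^ 3` have the constant coefficient `1`).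
`cubM`: `V 3 (moX (A + 2 Y) (A - Y) a N j) = moX A Y a N (N - j)` for `j ≤ N`: `(A + 2 Y) ^ 3 - (A - Y) ^ 3` goes to `A ^ 3 - (A ^ 3 - Y ^ 3) = Y ^ 3`.
`matD_ex`: `M a N j s = g j` from `mat1` (choice; `0` if `s > N` or `j > N`). Symmetry: apply `V 3` to the second statement of `mat1`: the left side is
`∑ i, moX (V 3 (br i (A + 2 Y))) (V 3 (br i (A - Y))) a N s = ∑ i, moX (br i (V 3 (A + 2 Y))) (br i (V 3 (A - Y))) a N s` (`br_V3`, `br_add`),
`br i (V 3 (A + 2 Y)) = br i A`; and `(br i (V 3 (A - Y))) ^ 3 = br i A ^ 3 - br i Y ^ 3` (from `cubB`; for `some b` a ring homomorphism,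
for `none` the factor `(e l) ^ 3` on both sides), so each summand is `moX (br i A) (br i Y) a N (N - s)`, and the sum is
`V l (TT l e k (moX A Y a N (N - s))) = ∑ j, M a N j (N - s) • V l (moX A Y a N j)` (`br_sum`). The right side: `V 3 (V l ..) = V l (V 3 ..)`, `cubM`:
`e ^ k ∑ j, M a N j s • V l (moX A Y a N (N - j))`. Compare coefficients (`V_inj`, `moX_ind`); `e ^ (3 N + a) = e ^ (a + N)` as `e ^ 2 = 1`.
-/

namespace Pool.Agent.Lib.MP_06b9d2_tls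

open PowerSeries Pool.Agent.L1

theorem cubA {A Y : ℂ⟦X⟧} (h : Core A Y) : V 3 (A + 2 * Y) = A := h.b1.symm

private theorem V3_two_mul (Y : ℂ⟦X⟧) : V 3 (2 * Y) = 2 * V 3 Y := by
  rw [V_mul (by norm_num)]
  congr 1
  exact V_ofNat (by norm_num) 2

theorem cubB {A Y : ℂ⟦X⟧} (h : Core A Y) : V 3 ((A - Y) ^ 3) = A ^ 3 - Y ^ 3 := by
  have h3 : (3 : ℕ) ≠ 0 := by norm_num
  have h1 : A = V 3 A + 2 * V 3 Y := by
    conv_lhs => rw [h.b1]
    rw [V_add h3, V3_two_mul]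
  have h2 : Y ^ 3 = 9 * (V 3 A ^ 2 * V 3 Y + V 3 A * V 3 Y ^ 2 + V 3 Y ^ 3) := by
    rw [h.b2]
    simp only [V_add h3, V_mul h3, V_pow h3]
  rw [V_pow h3, V_sub h3, h2]
  have h4 : A ^ 3 = (V 3 A + 2 * V 3 Y) ^ 3 := congrArg (fun z => z ^ 3) h1
  rw [h4]
  ring

private theorem core_Y {A Y : ℂ⟦X⟧} (h : Core A Y) :
    constantCoeff A = 1 ∧ ∃ W : ℂ⟦X⟧, Y = X * W ∧ constantCoeff W = 3 := by
  obtain ⟨A₁, κ, hA, hY, ha, hk, hk1⟩ := h.int
  constructor
  · rw [hA, map_add, map_mul, map_one]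
    have : constantCoeff (PowerSeries.map (Int.castRingHom ℂ) A₁) = 0 := by
      rw [← coeff_zero_eq_constantCoeff_apply, coeff_map, coeff_zero_eq_constantCoeff_apply, ha]
      simp
    rw [this]
    simp
  · have h0 : constantCoeff Y = 0 := by
      rw [hY, map_mul]
      have : constantCoeff (PowerSeries.map (Int.castRingHom ℂ) κ) = 0 := by
        rw [← coeff_zero_eq_constantCoeff_apply, coeff_map, coeff_zero_eq_constantCoeff_apply, hk]
        simp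
      rw [this]
      simp
    obtain ⟨W, hW⟩ := X_dvd_iff.mpr h0
    refine ⟨W, hW, ?_⟩
    have h1 : coeff 1 Y = 3 := by
      rw [hY]
      have : (3 : ℂ⟦X⟧) = C (3 : ℂ) := by
        rw [map_ofNat]
      rw [this, coeff_C_mul, coeff_map, hk1]
      simp
    rw [hW] at h1
    have h2 : coeff (0 + 1) (X * W) = coeff 0 W := coeff_succ_X_mul 0 W
    rw [zero_add] at h2
    rw [h2, coeff_zero_eq_constantCoeff_apply] at h1
    exact h1

theorem moX_ind {A Y : ℂ⟦X⟧} (h : Core A Y) (a N : ℕ) (y : ℕ → ℂ)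
    (hy : ∑ j ∈ Finset.range (N + 1), y j • moX A Y a N j = 0) : ∀ j ≤ N, y j = 0 := by
  obtain ⟨hA, W, hW, hW0⟩ := core_Y h
  have hmo : ∀ j, moX A Y a N j = X ^ (3 * j) * (A ^ a * (A ^ 3 - Y ^ 3) ^ (N - j) * (W ^ 3) ^ j) := by
    intro j
    unfold moX
    have : (Y ^ 3) ^ j = X ^ (3 * j) * (W ^ 3) ^ j := by
      rw [hW, mul_pow, mul_pow, ← pow_mul]
    rw [this]
    ring
  have hY0 : constantCoeff Y = 0 := by
    rw [hW, map_mul, constantCoeff_X, zero_mul]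
  have hcc : ∀ j, constantCoeff (A ^ a * (A ^ 3 - Y ^ 3) ^ (N - j) * (W ^ 3) ^ j) = (27 : ℂ) ^ j := by
    intro j
    simp only [map_mul, map_pow, map_sub, hA, hY0, hW0]
    norm_num
  intro j
  induction j using Nat.strong_induction_on with
  | _ j ih =>
    intro hj
    have h1 := congrArg (coeff (3 * j)) hy
    rw [map_sum, map_zero] at h1
    rw [Finset.sum_eq_single j] at h1
    · rw [coeff_smul, hmo, coeff_X_pow_mul' , if_pos le_rfl, Nat.sub_self,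
        coeff_zero_eq_constantCoeff_apply, hcc, smul_eq_mul] at h1
      rcases mul_eq_zero.mp h1 with h2 | h2
      · exact h2
      · exact absurd h2 (pow_ne_zero _ (by norm_num))
    · intro i hi hij
      rw [coeff_smul]
      rcases lt_or_gt_of_ne hij with h2 | h2
      · rw [ih i h2 (by omega), zero_smul]
      · rw [hmo, coeff_X_pow_mul', if_neg (by omega), smul_zero]
    · intro hni
      exact absurd (Finset.mem_range.mpr (by omega)) hni

theorem cubM {A Y : ℂ⟦X⟧} (h : Core A Y) (a N j : ℕ) (hj : j ≤ N) :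
    V 3 (moX (A + 2 * Y) (A - Y) a N j) = moX A Y a N (N - j) := by
  have h3 : (3 : ℕ) ≠ 0 := by norm_num
  unfold moX
  rw [V_mul h3, V_mul h3, V_pow h3, V_pow h3, V_sub h3, V_pow h3 (A + 2 * Y), cubA h, cubB h,
    V_pow h3 _ j, cubB h, Nat.sub_sub_self hj]
  have : A ^ 3 - (A ^ 3 - Y ^ 3) = Y ^ 3 := by ring
  rw [this]
  ring

end Pool.Agent.Lib.MP_06b9d2_tls
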