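import Pool.Agent.Lib.MP_06b9d2_tls.Mat1
import Pool.Agent.Lib.MP_06b9d2_tls.Cub

/-!
Module TLS-Mat2. Existence of the matrix and its symmetry.

`cubA`: `h.b1`. `cubB`: `V 3 ((A - Y) ^ 3) = A ^ 3 - Y ^ 3`: with `A' = V 3 A`, `Y' = V 3 Y`: `A = A' + 2 Y'`, `Y ^ 3 = 9 (A' ^ 2 Y' + A' Y' ^ 2 + Y' ^ 3)`, so
`A ^ 3 - Y ^ 3 = (A' + 2 Y') ^ 3 - 9 (..) = (A' - Y') ^ 3`. `moX_ind`: the least `j` with `y_j ≠ 0`: coefficient of `x ^ (3 j)`: `27 ^ j y_j`
(`Y ^ 3 = 27 x ^ 3 (1 + ..)`, `A`, `A ^ 3 - Y ^ 3` have the constant coefficient `1`).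
`cubM`: `V 3 (moX (A + 2 Y) (A - Y) a N j) = moX A Y a N (N - j)` for `j ≤ N`: `(A + 2 Y) ^ 3 - (A - Y) ^ 3` goes to `A ^ 3 - (A ^ 3 - Y ^ 3) = Y ^ 3`.
`matD_ex`: `M a N j s = g j` from `mat1` (choice; `0` if `s > N` or `j > N`). Symmetry: apply `V 3` to the second statement of `mat1`: the left side is
`∑ i, moX (V 3 (br i (A + 2 Y))) (V 3 (br i (A - Y))) a N s = ∑ i, moX (br i (V 3 (A + 2 Y))) (br i (V 3 (A - Y))) a N s` (`br_V3`, `br_add`),
`br i (V 3 (A + 2 Y)) = br i A`; and `(br i (V 3 (A - Y))) ^ 3 = br i A ^ 3 - br i Y ^ 3` (from `cubB`; for `some b` a ring homomorphism,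
for `none` the factor `(e l) ^ 3` on both sides), so each summand is `moX (br i A) (br i Y) a N (N - s)`, and the sum is
`V l (TT l e k (moX A Y a N (N - s))) = ∑ j, M a N j (N - s) • V l (moX A Y a N j)` (`br_sum`). The right side: `V 3 (V l ..) = V l (V 3 ..)`, `cubM`:
`e ^ k ∑ j, M a N j s • V l (moX A Y a N (N - j))`. Compare coefficients (`V_inj`, `moX_ind`); `e ^ (3 N + a) = e ^ (a + N)` as `e ^ 2 = 1`.
-/

namespace Pool.Agent.Lib.MP_06b9d2_tls

open PowerSeries Pool.Agent.L1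

private theorem mat2_br {l : ℕ} (hl0 : l ≠ 0) (e : ℂ) (A Y : ℂ⟦X⟧) (a N s : ℕ) (hs : s ≤ N) :
    ∑ i : Option (Fin l), moX (br l e i A) (br l e i Y) a N s =
      V l (TT l e (3 * N + a) (moX A Y a N s)) := by
  set P : MvPolynomial (Fin 2) ℂ :=
    MvPolynomial.X 0 ^ a * (MvPolynomial.X 0 ^ 3 - MvPolynomial.X 1 ^ 3) ^ (N - s) *
      (MvPolynomial.X 1 ^ 3) ^ s with hP
  have hX : ∀ i : Fin 2, (MvPolynomial.X i : MvPolynomial (Fin 2) ℂ).IsHomogeneous 1 := fun i =>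
    MvPolynomial.isHomogeneous_X ℂ i
  have h3 : ∀ i : Fin 2, ((MvPolynomial.X i : MvPolynomial (Fin 2) ℂ) ^ 3).IsHomogeneous 3 :=
    fun i => by simpa using (hX i).pow 3
  have hhom : P.IsHomogeneous (3 * N + a) := by
    have h1 : P.IsHomogeneous (1 * a + 3 * (N - s) + 3 * s) :=
      (((hX 0).pow a).mul (((h3 0).sub (h3 1)).pow (N - s))).mul ((h3 1).pow s)
    have h2 : 1 * a + 3 * (N - s) + 3 * s = 3 * N + a := by omega
    rwa [h2] at h1
  have hev : ∀ F G : ℂ⟦X⟧, MvPolynomial.aeval ![F, G] P = moX F G a N s := by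
    intro F G
    rw [hP]
    unfold moX
    simp [map_mul, map_pow, map_sub, MvPolynomial.aeval_X]
  have h1 := br_sum l hl0 e (3 * N + a) A Y P hhom
  simp only [hev] at h1
  exact h1

private theorem mat2_cub {A Y : ℂ⟦X⟧} (h : Core A Y) {l : ℕ} (hl0 : l ≠ 0) (e : ℂ)
    (i : Option (Fin l)) :
    br l e i (V 3 A) + 2 * br l e i (V 3 Y) = br l e i A ∧
      (br l e i (V 3 A) - br l e i (V 3 Y)) ^ 3 = br l e i A ^ 3 - br l e i Y ^ 3 := by
  have h3 : (3 : ℕ) ≠ 0 := by norm_num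
  have hl2 : l ^ 2 ≠ 0 := pow_ne_zero 2 hl0
  have e1 : V 3 A + 2 * V 3 Y = A := by
    have h1 := cubA h
    rw [V_add h3, V_mul h3, V_ofNat h3 2] at h1
    exact h1
  have e2 : (V 3 A - V 3 Y) ^ 3 = A ^ 3 - Y ^ 3 := by
    have h1 := cubB h
    rw [V_pow h3, V_sub h3] at h1
    exact h1
  have htwo : ∀ f : ℂ⟦X⟧, 2 * br l e i f = br l e i (2 * f) := by
    intro f
    rw [two_mul, two_mul, br_add]
  constructor
  · rw [htwo, ← br_add, e1]
  · cases i with
    | none =>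
      simp only [br]
      rw [← smul_sub, ← V_sub hl2, smul_pow, ← V_pow hl2, e2, V_sub hl2, V_pow hl2, V_pow hl2,
        smul_sub, ← smul_pow, ← smul_pow]
    | some b =>
      simp only [br]
      rw [← map_sub, ← map_pow, e2, map_sub, map_pow, map_pow]

theorem matD_ex {A Y : ℂ⟦X⟧} (h : Core A Y) {l : ℕ} {e s0 : ℂ} (hl : PL l e s0) :
    ∃ M : ℕ → ℕ → ℕ → ℕ → ℂ, MatD l e A Y M := by
  have h3 : (3 : ℕ) ≠ 0 := by norm_num
  have hl0 : l ≠ 0 := hl.1.ne_zero
  have hl3 : l ≠ 3 := by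
    rintro rfl
    rcases hl.2 with ⟨h1, -⟩ | ⟨h1, -⟩ <;> norm_num at h1
  have he : e ^ 2 = 1 := by
    rcases hl.2 with ⟨_, he, _⟩ | ⟨_, he, _⟩ <;> rw [he] <;> norm_num
  have hex : ∀ a N s : ℕ, ∃ g : ℕ → ℂ, Fact (a < 3) → s ≤ N →
      TT l e (3 * N + a) (moX A Y a N s) = ∑ j ∈ Finset.range (N + 1), g j • moX A Y a N j ∧
      ∑ i : Option (Fin l), moX (br l e i A + 2 * br l e i Y) (br l e i A - br l e i Y) a N s =
        e ^ (3 * N + a) • ∑ j ∈ Finset.range (N + 1),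
          g j • moX (V l A + 2 * V l Y) (V l A - V l Y) a N j := by
    intro a N s
    by_cases hfa : a < 3
    · by_cases hs : s ≤ N
      · have : Fact (a < 3) := ⟨hfa⟩
        obtain ⟨g, hg⟩ := mat1 h hl a N s hs
        exact ⟨g, fun _ _ => hg⟩
      · exact ⟨0, fun _ h' => absurd h' hs⟩
    · exact ⟨0, fun h' => absurd h'.out hfa⟩
  choose g hg using hex
  refine ⟨fun a N j s => if s ≤ N ∧ j ≤ N then g a N s j else 0, ?_, ?_, ?_⟩
  · intro a N s hfa hs
    rw [(hg a N s hfa hs).1]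
    refine Finset.sum_congr rfl fun j hj => ?_
    rw [Finset.mem_range] at hj
    rw [if_pos ⟨hs, by omega⟩]
  · intro a N j s hfa hj hs
    rw [if_pos ⟨by omega, by omega⟩, if_pos ⟨hs, hj⟩]
    obtain ⟨-, h2⟩ := hg a N s hfa hs
    have hL : V 3 (∑ i : Option (Fin l), moX (br l e i A + 2 * br l e i Y)
        (br l e i A - br l e i Y) a N s) = V l (TT l e (3 * N + a) (moX A Y a N (N - s))) := by
      rw [V_sum h3, ← mat2_br hl0 e A Y a N (N - s) (by omega)]
      have h4 := br_V3 l hl.1 hl3 e A Y (fun F G => moX (F + 2 * G) (F - G) a N s)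
      have h5 : ∀ i : Option (Fin l), V 3 (moX (br l e i A + 2 * br l e i Y)
          (br l e i A - br l e i Y) a N s) =
          moX (V 3 (br l e i A) + 2 * V 3 (br l e i Y)) (V 3 (br l e i A) - V 3 (br l e i Y))
            a N s := by
        intro i
        unfold moX
        rw [V_mul h3, V_mul h3, V_pow h3, V_pow h3, V_pow h3, V_sub h3, V_pow h3, V_pow h3,
          V_sub h3, V_add h3, V_mul h3, V_ofNat h3 2]
      rw [Finset.sum_congr rfl fun i _ => h5 i, ← h4]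
      refine Finset.sum_congr rfl fun i _ => ?_
      obtain ⟨c1, c2⟩ := mat2_cub h hl0 e i
      unfold moX
      rw [c1, c2, Nat.sub_sub_self hs]
      have : br l e i A ^ 3 - (br l e i A ^ 3 - br l e i Y ^ 3) = br l e i Y ^ 3 := by ring
      rw [this]
      ring
    have hR : V 3 (e ^ (3 * N + a) • ∑ j ∈ Finset.range (N + 1),
          g a N s j • moX (V l A + 2 * V l Y) (V l A - V l Y) a N j) =
        V l (∑ j ∈ Finset.range (N + 1), (e ^ (3 * N + a) * g a N s (N - j)) • moX A Y a N j) := by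
      rw [V_smul h3, V_sum h3, V_sum hl0, ← Finset.sum_flip, Finset.smul_sum]
      refine Finset.sum_congr rfl fun j hj => ?_
      rw [Finset.mem_range] at hj
      rw [V_smul h3, V_smul hl0, smul_smul]
      congr 1
      have h6 : moX (V l A + 2 * V l Y) (V l A - V l Y) a N (N - j) =
          V l (moX (A + 2 * Y) (A - Y) a N (N - j)) := by
        unfold moX
        rw [V_mul hl0, V_mul hl0, V_pow hl0, V_pow hl0, V_pow hl0, V_sub hl0, V_pow hl0,
          V_pow hl0, V_sub hl0, V_add hl0, V_mul hl0, V_ofNat hl0 2]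
      rw [h6, V_V h3 hl0, mul_comm 3 l, ← V_V hl0 h3, cubM h a N (N - j) (by omega),
        Nat.sub_sub_self (by omega)]
    have h7 := congrArg (V 3) h2
    rw [hL, hR] at h7
    have h8 := V_inj hl0 h7
    rw [(hg a N (N - s) hfa (by omega)).1] at h8
    have h9 : ∑ j ∈ Finset.range (N + 1),
        (g a N (N - s) j - e ^ (3 * N + a) * g a N s (N - j)) • moX A Y a N j = 0 := by
      simp only [sub_smul, Finset.sum_sub_distrib]
      rw [h8, sub_self]
    have h10 := moX_ind h a N _ h9 (N - j) (by omega)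
    rw [Nat.sub_sub_self hj, sub_eq_zero] at h10
    rw [h10]
    congr 1
    have h11 : 3 * N + a = (a + N) + 2 * N := by ring
    rw [h11, pow_add, pow_mul, he, one_pow, mul_one]
  · intro a N j s hj
    rw [if_neg]
    rintro ⟨-, h1⟩
    omega

end Pool.Agent.Lib.MP_06b9d2_tls
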