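import Pool.Agent.Lib.MP_06b9d2_tls.Pc

/-!
Module TLS-PcMat. The coefficients `pc` of the power sums, and the matrix in terms of `pc`.

Write `x_i = br l e i A`, `y_i = br l e i Y`, `β_i = x_i ^ 3 - y_i ^ 3`, `γ_i = y_i ^ 3`, `B = V l A ^ 3 - V l Y ^ 3`, `G = V l Y ^ 3`, `c = cl l e`.
`mo_br`: `∑ i, x_i ^ a β_i ^ m γ_i ^ n = ∑_{j ≤ m + n} M a (m + n) j n • V l A ^ a B ^ (m + n - j) G ^ j` (`br_sum` for the homogeneous polynomial of `moX`, `hM.eq` with
`N = m + n`, `s = n`, `V_mul`, ...).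
`pc_sum`: `ub = (β_i - e c B) / 3`, `vb = (γ_i - c G) / 3`: expand `(β_i - e c B) ^ m` and `(γ_i - c G) ^ n` by the binomial theorem, use `mo_br` for `(i, j)` in the place of
`(m, n)`: the term is `M a (i + j) r' j • V l A ^ a B ^ (i + j - r') G ^ r' * B ^ (m - i) G ^ (n - j)`, and `r = r' + n - j`. (Reindex `r' = r + j - n`, terms with
`r' > i + j` vanish by `hM.out`.)
`pc_mat`: conversely `β_i = e c B + 3 ub`, `γ_i = c G + 3 vb`: `∑ i, x_i ^ a β_i ^ (N - s) γ_i ^ s =
∑_{m ≤ N - s, n ≤ s} C(N - s, m) C(s, n) (e c B) ^ (N - s - m) (c G) ^ (s - n) 3 ^ (m + n) ∑ i, x_i ^ a ub ^ m vb ^ n`, insert `pc_sum`, compare the coefficients of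
`V l A ^ a B ^ (N - j) G ^ j` (`moX_ind` with `V_inj`): `j = s - n + r`. `(e c) ^ (N - s - m) c ^ (s - n) = (e c) ^ N e ^ s (e / c) ^ m (1 / c) ^ n` (`e ^ 2 = 1`, `c ≠ 0`). Alternatively a purely algebraic
proof by the binomial inversion. `pc_sym`: `hM.sym` in the definition of `pc` and `i + j - (r + j - n) = (m + n - r) + i - m` (the roles of `(i, m)` and `(j, n)` are exchanged).
`pc_deg`: `hM.out`. `pc_rat`: `mat_int`, `mat_int'`, `hM.out` and `c`, `e` are rational.
-/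

namespace Pool.Agent.Lib.MP_06b9d2_tls

open PowerSeries Pool.Agent.L1

private lemma pm_expand (x β γ B G : ℂ⟦X⟧) (p q : ℂ) (m n : ℕ) :
    x * ((3 : ℂ) • β + p • B) ^ m * ((3 : ℂ) • γ + q • G) ^ n =
      ∑ i ∈ Finset.range (m + 1), ∑ j ∈ Finset.range (n + 1),
        ((3 : ℂ) ^ (i + j) * ((m.choose i : ℂ) * (n.choose j : ℂ) * p ^ (m - i) * q ^ (n - j))) •
          ((x * β ^ i * γ ^ j) * (B ^ (m - i) * G ^ (n - j))) := by
  have h1 : ∀ (p : ℂ) (β B : ℂ⟦X⟧) (m : ℕ), ((3 : ℂ) • β + p • B) ^ m =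
      ∑ i ∈ Finset.range (m + 1), C ((3 : ℂ) ^ i * (p ^ (m - i) * (m.choose i : ℂ))) *
        (β ^ i * B ^ (m - i)) := by
    intro p β B m
    rw [add_pow]
    refine Finset.sum_congr rfl fun i _ => ?_
    rw [PowerSeries.smul_eq_C_mul, PowerSeries.smul_eq_C_mul, mul_pow, mul_pow, map_mul, map_mul,
      map_pow, map_pow, map_natCast]
    ring
  rw [h1 p β B m, h1 q γ G n, mul_assoc, Finset.sum_mul_sum, Finset.mul_sum]
  refine Finset.sum_congr rfl fun i _ => ?_
  rw [Finset.mul_sum]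
  refine Finset.sum_congr rfl fun j _ => ?_
  rw [PowerSeries.smul_eq_C_mul, pow_add]
  simp only [map_mul]
  ring

private lemma pm_shift (F G : ℂ⟦X⟧) (a m n i j r : ℕ) (hi : i ≤ m) (hj : j ≤ n) (hr : r ≤ i + j) :
    moX F G a (i + j) r * ((F ^ 3 - G ^ 3) ^ (m - i) * (G ^ 3) ^ (n - j)) =
      moX F G a (m + n) (n - j + r) := by
  unfold moX
  have h1 : m + n - (n - j + r) = (i + j - r) + (m - i) := by omega
  rw [h1, pow_add, pow_add (G ^ 3)]
  ring

private lemma pm_sum_shift (F G : ℂ⟦X⟧) (a m n i j : ℕ) (hi : i ≤ m) (hj : j ≤ n) (f : ℕ → ℂ)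
    (hf : ∀ r, i + j < r → f r = 0) :
    (∑ r ∈ Finset.range (i + j + 1), f r • moX F G a (i + j) r) *
        ((F ^ 3 - G ^ 3) ^ (m - i) * (G ^ 3) ^ (n - j)) =
      ∑ r ∈ Finset.range (m + n + 1), (if n ≤ r + j then f (r + j - n) else 0) •
        moX F G a (m + n) r := by
  have h1 : m + n + 1 = (n - j) + (m + j + 1) := by omega
  rw [h1, Finset.sum_range_add _ (n - j) (m + j + 1), Finset.sum_mul]
  have h2 : ∑ x ∈ Finset.range (n - j), (if n ≤ x + j then f (x + j - n) else 0) •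
      moX F G a (m + n) x = 0 := by
    refine Finset.sum_eq_zero fun x hx => ?_
    rw [Finset.mem_range] at hx
    rw [if_neg (by omega), zero_smul]
  rw [h2, zero_add]
  have h3 : Finset.range (i + j + 1) ⊆ Finset.range (m + j + 1) := by
    intro x hx
    rw [Finset.mem_range] at hx ⊢
    omega
  rw [← Finset.sum_subset h3]
  · refine Finset.sum_congr rfl fun r hr => ?_
    rw [Finset.mem_range] at hr
    rw [if_pos (by omega), smul_mul_assoc, pm_shift F G a m n i j r hi hj (by omega)]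
    congr 2
    omega
  · intro x hx hx'
    rw [Finset.mem_range] at hx hx'
    rw [if_pos (by omega)]
    have h4 : n - j + x + j - n = x := by omega
    rw [h4, hf x (by omega), zero_smul]

private lemma pm_sum3 (s t u : Finset ℕ) (f : ℕ → ℕ → ℕ → ℂ⟦X⟧) :
    ∑ p ∈ s, ∑ q ∈ t, ∑ r ∈ u, f p q r = ∑ r ∈ u, ∑ p ∈ s, ∑ q ∈ t, f p q r := by
  calc _ = ∑ p ∈ s, ∑ r ∈ u, ∑ q ∈ t, f p q r :=
        Finset.sum_congr rfl (fun p _ => Finset.sum_comm)
    _ = _ := Finset.sum_comm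

private lemma pm_V_moX {l : ℕ} (hl : l ≠ 0) (A Y : ℂ⟦X⟧) (a N j : ℕ) :
    V l (moX A Y a N j) = moX (V l A) (V l Y) a N j := by
  unfold moX
  rw [V_mul hl, V_mul hl, V_pow hl, V_pow hl, V_pow hl, V_sub hl, V_pow hl, V_pow hl]

private lemma pm_coef {e c : ℂ} (he : e ^ 2 = 1) (hc : c ≠ 0) (p q m n : ℕ) :
    (e * c) ^ (p + (q + n) + m) * (e ^ (q + n) * (3 * e / c) ^ m * (3 / c) ^ n) =
      3 ^ (m + n) * ((e * c) ^ p * c ^ q) := by
  have h1 : (e * c) ^ (q + n) * e ^ (q + n) = c ^ (q + n) := by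
    rw [← mul_pow]
    congr 1
    linear_combination c * he
  have h2 : (e * c) ^ m * (3 * e / c) ^ m = 3 ^ m := by
    rw [← mul_pow]
    congr 1
    field_simp
    linear_combination he
  have h3 : c ^ n * (3 / c) ^ n = 3 ^ n := by
    rw [← mul_pow]
    congr 1
    field_simp
  calc (e * c) ^ (p + (q + n) + m) * (e ^ (q + n) * (3 * e / c) ^ m * (3 / c) ^ n)
      = (e * c) ^ p * ((e * c) ^ (q + n) * e ^ (q + n)) * ((e * c) ^ m * (3 * e / c) ^ m) *
          (3 / c) ^ n := by rw [pow_add, pow_add (e * c) p]; ring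
    _ = (e * c) ^ p * c ^ q * 3 ^ m * (c ^ n * (3 / c) ^ n) := by
          rw [h1, h2, pow_add c]; ring
    _ = _ := by rw [h3, pow_add]; ring

theorem pc_mat {A Y : ℂ⟦X⟧} (h : Core A Y) {l : ℕ} {e s0 : ℂ} (hl : PL l e s0)
    {M : ℕ → ℕ → ℕ → ℕ → ℂ} (hM : MatD l e A Y M) (a N j s : ℕ) [Fact (a < 3)] (hj : j ≤ N) (hs : s ≤ N) :
    M a N j s = (e * cl l e) ^ N * MG e (cl l e) (pc e (cl l e) M a) N j s := by
  have hl0 : l ≠ 0 := hl.1.ne_zero
  have he := e_sq hl
  have hc0 := cl_ne hl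
  obtain ⟨c, hc⟩ : ∃ c, c = cl l e := ⟨_, rfl⟩
  rw [← hc] at hc0 ⊢
  obtain ⟨F, hF⟩ : ∃ F, F = V l A := ⟨_, rfl⟩
  obtain ⟨G, hG⟩ : ∃ G, G = V l Y := ⟨_, rfl⟩
  -- the first expression
  have h1 := mo_br h hl hM a (N - s) s
  rw [Nat.sub_add_cancel hs, ← hF, ← hG] at h1
  -- the second expression
  have hexp : ∀ i : Option (Fin l), br l e i A ^ a * (br l e i A ^ 3 - br l e i Y ^ 3) ^ (N - s) *
      (br l e i Y ^ 3) ^ s =
      ∑ p ∈ Finset.range (N - s + 1), ∑ q ∈ Finset.range (s + 1),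
        ((3 : ℂ) ^ (p + q) * (((N - s).choose p : ℂ) * (s.choose q : ℂ) *
          (e * c) ^ (N - s - p) * c ^ (s - q))) •
          ((br l e i A ^ a * ub l e A Y i ^ p * vb l e Y i ^ q) *
            ((F ^ 3 - G ^ 3) ^ (N - s - p) * (G ^ 3) ^ (s - q))) := by
    intro i
    rw [← pm_expand]
    have hu : (3 : ℂ) • ub l e A Y i + (e * c) • (F ^ 3 - G ^ 3) =
        br l e i A ^ 3 - br l e i Y ^ 3 := by
      unfold ub
      rw [smul_smul, ← hc, ← hF, ← hG]
      norm_num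
    have hv : (3 : ℂ) • vb l e Y i + c • G ^ 3 = br l e i Y ^ 3 := by
      unfold vb
      rw [smul_smul, ← hc, ← hG]
      norm_num
    rw [hu, hv]
  have h2 : ∑ i : Option (Fin l), br l e i A ^ a * (br l e i A ^ 3 - br l e i Y ^ 3) ^ (N - s) *
      (br l e i Y ^ 3) ^ s =
      ∑ r ∈ Finset.range (N + 1), (∑ p ∈ Finset.range (N - s + 1), ∑ q ∈ Finset.range (s + 1),
        (3 : ℂ) ^ (p + q) * (((N - s).choose p : ℂ) * (s.choose q : ℂ) *
          (e * c) ^ (N - s - p) * c ^ (s - q)) *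
          (if s ≤ r + q then pc e c M a p q (r + q - s) else 0)) • moX F G a N r := by
    rw [Finset.sum_congr rfl fun i _ => hexp i, Finset.sum_comm]
    have hstep : ∀ p ∈ Finset.range (N - s + 1),
        ∑ i : Option (Fin l), ∑ q ∈ Finset.range (s + 1),
        ((3 : ℂ) ^ (p + q) * (((N - s).choose p : ℂ) * (s.choose q : ℂ) *
          (e * c) ^ (N - s - p) * c ^ (s - q))) •
          ((br l e i A ^ a * ub l e A Y i ^ p * vb l e Y i ^ q) *
            ((F ^ 3 - G ^ 3) ^ (N - s - p) * (G ^ 3) ^ (s - q))) =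
        ∑ q ∈ Finset.range (s + 1), ∑ r ∈ Finset.range (N + 1),
        ((3 : ℂ) ^ (p + q) * (((N - s).choose p : ℂ) * (s.choose q : ℂ) *
          (e * c) ^ (N - s - p) * c ^ (s - q)) *
          (if s ≤ r + q then pc e c M a p q (r + q - s) else 0)) • moX F G a N r := by
      intro p hp
      rw [Finset.mem_range] at hp
      rw [Finset.sum_comm]
      refine Finset.sum_congr rfl fun q hq => ?_
      rw [Finset.mem_range] at hq
      have h3 := pc_sum h hl hM a p q
      have h4 := pm_sum_shift F G a (N - s) s p q (by omega) (by omega)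
        (fun r => pc e c M a p q r) (fun r hr => pc_deg c hM a p q r hr)
      rw [Nat.sub_add_cancel hs] at h4
      rw [← Finset.smul_sum, ← Finset.sum_mul, h3, ← hc, ← hF, ← hG, h4, Finset.smul_sum]
      refine Finset.sum_congr rfl fun r _ => ?_
      rw [smul_smul]
    rw [Finset.sum_congr rfl hstep, pm_sum3]
    refine Finset.sum_congr rfl fun r _ => ?_
    rw [Finset.sum_smul]
    refine Finset.sum_congr rfl fun p _ => ?_
    rw [Finset.sum_smul]
  rw [h1] at h2
  have h5 : ∑ r ∈ Finset.range (N + 1), (M a N r s - ∑ p ∈ Finset.range (N - s + 1),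
      ∑ q ∈ Finset.range (s + 1),
        (3 : ℂ) ^ (p + q) * (((N - s).choose p : ℂ) * (s.choose q : ℂ) *
          (e * c) ^ (N - s - p) * c ^ (s - q)) *
          (if s ≤ r + q then pc e c M a p q (r + q - s) else 0)) • moX A Y a N r = 0 := by
    apply V_inj hl0
    rw [V_sum hl0]
    have h0 : V l (0 : ℂ⟦X⟧) = 0 := by
      rw [V_eq l hl0, map_zero]
    rw [h0, ← sub_eq_zero.2 h2, ← Finset.sum_sub_distrib]
    refine Finset.sum_congr rfl fun r _ => ?_
    rw [V_smul hl0, pm_V_moX hl0, sub_smul, hF, hG]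
  have h6 := moX_ind h a N _ h5 j hj
  rw [sub_eq_zero] at h6
  rw [h6]
  unfold MG
  -- cut the sums
  have hsub1 : Finset.range (N - s + 1) ⊆ Finset.range (N + 1) := by
    intro x hx
    rw [Finset.mem_range] at hx ⊢
    omega
  have hsub2 : Finset.range (s + 1) ⊆ Finset.range (N + 1) := by
    intro x hx
    rw [Finset.mem_range] at hx ⊢
    omega
  rw [Finset.mul_sum, ← Finset.sum_subset hsub1]
  · refine Finset.sum_congr rfl fun p hp => ?_
    rw [Finset.mem_range] at hp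
    rw [Finset.mul_sum, ← Finset.sum_subset hsub2]
    · refine Finset.sum_congr rfl fun q hq => ?_
      rw [Finset.mem_range] at hq
      split_ifs with hsq
      · have h7 := pm_coef he hc0 (N - s - p) (s - q) p q
        have e1 : N - s - p + (s - q + q) + p = N := by omega
        have e2 : s - q + q = s := by omega
        rw [e1, e2] at h7
        linear_combination -(((N - s).choose p : ℂ) * (s.choose q : ℂ) *
          pc e c M a p q (j + q - s)) * h7
      · ring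
    · intro q _ hq
      rw [Finset.mem_range] at hq
      rw [Nat.choose_eq_zero_of_lt (by omega : s < q)]
      simp
  · intro p _ hp
    rw [Finset.mem_range] at hp
    rw [Nat.choose_eq_zero_of_lt (by omega : N - s < p)]
    simp

end Pool.Agent.Lib.MP_06b9d2_tls
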