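import Pool.Agent.Lib.MP_06b9d2_tls.Mat3

/-!
Module TLS-Qd. The integral series in `q`.

`qd_ex`: `k = κ` and `A₁` from `h.int`. `A = 1 + 3 A₁` has only exponents divisible by `3`: `a = mk fun n => coeff (3 n) (1 + 3 A₁)`, `A = V 3 (map a)`. `k` has only exponents `≡ 1` modulo `3` (`h.grY`, injectivity of `ℤ → ℂ`), so `k ^ 3` has only exponents
divisible by `3`: `c = mk fun n => coeff (3 n) (k ^ 3)`, `r3`. `hY3`: `Y ^ 3 = 27 map (k ^ 3)`. `r1`: `h.b1`: `V 3 (map a) = V 3 (V 3 (map a) + 6 map k)`, `V_inj`, and `map` is injective, `V 3 (map f) = map (expand 3 f)`. `r2`: `h.b2`: `27 V 3 (map c) = 9 V 3 (3 κ A ^ 2 + 9 κ ^ 2 A + 27 κ ^ 3)`,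
cancel `27` and `V 3`. `h4`, `h6`: from `h.h4`, `h.h6` (`V_inj`; `e4 ℂ = map (e4 ℤ)`).
`qd_B`: `a ^ 3 - 27 c = (a' - 3 k) ^ 3`, `a' = expand 3 a` (`ring` after `r1`, `r2`). `qd_a6`: `a = 1 + 6 α`: coefficients of `r1`: `coeff n a = [3 ∣ n] coeff (n / 3) a + 6 coeff n k`, strong induction on `n ≥ 1`.
`q_M`: coefficient of `x ^ 3` of `hM.eq i N 0` (`TT_coeff`; `l ∣ 3` is false): `l coeff (3 l) (A ^ i B ^ N) = ∑_j M i N j 0 coeff 3 (moX A Y i N j)`; `coeff 3 (moX .. 0) = 6 i - 9 N` (`A = 1 + 6 x ^ 3 + .., B = 1 - 9 x ^ 3 + ..`),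
`coeff 3 (moX .. 1) = 27`, `0` for `j ≥ 2`; if `N = 0` then `M i 0 1 0 = 0` (`hM.out`). `q_t`: `hM.eq i 2 1`, `mat_low`, `mat_top`: `TT (moX A Y i 2 1) = M i 2 1 1 • moX A Y i 2 1`, `moX A Y i 2 1 = V 3 (27 map (a ^ i (a ^ 3 - 27 c) c))`, coefficient of `x ^ 3`.
-/

namespace Pool.Agent.Lib.MP_06b9d2_tls

open PowerSeries Pool.Agent.L1

private lemma qd_inj {f g : ℤ⟦X⟧}
    (h : PowerSeries.map (Int.castRingHom ℂ) f = PowerSeries.map (Int.castRingHom ℂ) g) : f = g := by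
  ext n
  have h1 := congrArg (coeff n) h
  rw [PowerSeries.coeff_map, PowerSeries.coeff_map] at h1
  simpa using h1

private lemma qd_V (f : ℤ⟦X⟧) : V 3 (PowerSeries.map (Int.castRingHom ℂ) f) =
    PowerSeries.map (Int.castRingHom ℂ) (PowerSeries.expand 3 three_ne_zero f) := by
  rw [V_eq 3 three_ne_zero, PowerSeries.map_expand]

private lemma qd_e4 : e4 ℂ = PowerSeries.map (Int.castRingHom ℂ) (e4 ℤ) := by
  ext n
  simp [e4]

private lemma qd_e6 : e6 ℂ = PowerSeries.map (Int.castRingHom ℂ) (e6 ℤ) := by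
  ext n
  simp [e6]

theorem qd_ex {A Y : ℂ⟦X⟧} (h : Core A Y) : ∃ a k c : ℤ⟦X⟧, Qd A Y a k c := by
  obtain ⟨A₁, κ, hA, hY, hA0, hκ0, hκ1⟩ := h.int
  have hV0 : (3 : ℕ) ≠ 0 := three_ne_zero
  set g : ℤ⟦X⟧ := 1 + 3 * A₁ with hg
  have hAg : A = PowerSeries.map (Int.castRingHom ℂ) g := by
    rw [hA, hg]
    simp only [map_add, map_mul, map_one, map_ofNat]
  have hgr : ∀ n, n % 3 ≠ 0 → coeff n g = 0 := by
    intro n hn
    have h1 := h.grA n hn
    rw [hAg, PowerSeries.coeff_map] at h1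
    simpa using h1
  have hkr : ∀ n, n % 3 ≠ 1 → coeff n κ = 0 := by
    intro n hn
    have h1 := h.grY n hn
    rw [hY, show (3 : ℂ⟦X⟧) = C 3 from (map_ofNat (C : ℂ →+* ℂ⟦X⟧) 3).symm, PowerSeries.coeff_C_mul,
      PowerSeries.coeff_map] at h1
    simpa using h1
  set a : ℤ⟦X⟧ := PowerSeries.mk fun n => coeff (3 * n) g with ha
  have hga : g = PowerSeries.expand 3 three_ne_zero a := by
    ext n
    rw [PowerSeries.coeff_expand]
    split_ifs with h3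
    · obtain ⟨m, rfl⟩ := h3
      rw [Nat.mul_div_cancel_left m (by norm_num), ha, PowerSeries.coeff_mk]
    · exact hgr n (by omega)
  set κ₂ : ℤ⟦X⟧ := PowerSeries.mk fun n => coeff (3 * n + 1) κ with hκ₂
  have hk2 : κ = PowerSeries.X * PowerSeries.expand 3 three_ne_zero κ₂ := by
    ext n
    rcases n with _ | n
    · rw [PowerSeries.coeff_zero_X_mul]
      exact hkr 0 (by norm_num)
    · rw [PowerSeries.coeff_succ_X_mul, PowerSeries.coeff_expand]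
      split_ifs with h3
      · obtain ⟨m, rfl⟩ := h3
        rw [Nat.mul_div_cancel_left m (by norm_num), hκ₂, PowerSeries.coeff_mk]
      · exact hkr (n + 1) (by omega)
  set c : ℤ⟦X⟧ := PowerSeries.X * κ₂ ^ 3 with hc
  have r3 : κ ^ 3 = PowerSeries.expand 3 three_ne_zero c := by
    rw [hc, hk2, map_mul, map_pow, PowerSeries.expand_X, mul_pow]
  have hAa : A = V 3 (PowerSeries.map (Int.castRingHom ℂ) a) := by
    rw [qd_V, ← hga, hAg]
  have hY3 : Y ^ 3 = V 3 (27 * PowerSeries.map (Int.castRingHom ℂ) c) := by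
    rw [V_mul hV0, qd_V, ← r3, V_ofNat hV0, hY, map_pow]
    ring
  have r1 : a = PowerSeries.expand 3 three_ne_zero a + 6 * κ := by
    apply qd_inj
    have h1 := h.b1
    rw [hAa] at h1
    have h2 := V_inj hV0 h1
    rw [h2, qd_V, hY]
    simp only [map_add, map_mul, map_ofNat]
    ring
  have r2 : c = κ * (PowerSeries.expand 3 three_ne_zero a ^ 2 +
      3 * PowerSeries.expand 3 three_ne_zero a * κ + 9 * κ ^ 2) := by
    apply qd_inj
    have h1 : V 3 (27 * PowerSeries.map (Int.castRingHom ℂ) c) =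
        9 * V 3 (A ^ 2 * Y + A * Y ^ 2 + Y ^ 3) := hY3.symm.trans h.b2
    have h9 : (9 : ℂ⟦X⟧) = V 3 9 := (V_ofNat hV0 9).symm
    rw [h9, ← V_mul hV0] at h1
    have h2 := V_inj hV0 h1
    rw [hAg, hga, hY] at h2
    have h3 : (27 : ℂ⟦X⟧) ≠ 0 := by
      rw [show (27 : ℂ⟦X⟧) = C 27 from (map_ofNat (C : ℂ →+* ℂ⟦X⟧) 27).symm]
      intro h0
      have := congrArg (coeff 0) h0
      rw [PowerSeries.coeff_zero_C] at this
      simp at this
    apply mul_left_cancel₀ h3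
    rw [h2]
    simp only [map_add, map_mul, map_pow, map_ofNat]
    ring
  have a0 : constantCoeff a = 1 := by
    rw [← PowerSeries.coeff_zero_eq_constantCoeff_apply, ha, PowerSeries.coeff_mk, mul_zero,
      PowerSeries.coeff_zero_eq_constantCoeff_apply, hg]
    simp [hA0]
  have h4 : e4 ℤ = a * (a ^ 3 + 216 * c) := by
    apply qd_inj
    have h1 := h.h4
    rw [hY3, hAa, show (8 : ℂ⟦X⟧) = V 3 8 from (V_ofNat hV0 8).symm, ← V_mul hV0, ← V_pow hV0,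
      ← V_add hV0, ← V_mul hV0] at h1
    rw [← qd_e4, V_inj hV0 h1]
    simp only [map_add, map_mul, map_pow, map_ofNat]
    ring
  have h6 : e6 ℤ = a ^ 6 - 540 * a ^ 3 * c - 5832 * c ^ 2 := by
    apply qd_inj
    have h1 := h.h6
    rw [show Y ^ 6 = (Y ^ 3) ^ 2 by ring, hY3, hAa, show (8 : ℂ⟦X⟧) = V 3 8 from (V_ofNat hV0 8).symm,
      show (20 : ℂ⟦X⟧) = V 3 20 from (V_ofNat hV0 20).symm, ← V_pow hV0, ← V_pow hV0, ← V_pow hV0,
      ← V_mul hV0, ← V_mul hV0, ← V_mul hV0, ← V_sub hV0, ← V_sub hV0] at h1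
    rw [← qd_e6, V_inj hV0 h1]
    simp only [map_sub, map_mul, map_pow, map_ofNat]
    ring
  exact ⟨a, κ, c, hAa, hY, hY3, r1, r2, r3, hkr, hκ1, a0, h4, h6⟩

theorem qd_B {A Y : ℂ⟦X⟧} {a k c : ℤ⟦X⟧} (q : Qd A Y a k c) :
    a ^ 3 - 27 * c = (PowerSeries.expand 3 three_ne_zero a - 3 * k) ^ 3 := by
  have h1 := q.r1
  have h2 := q.r2
  rw [h2]
  generalize PowerSeries.expand 3 three_ne_zero a = E at h1 ⊢
  rw [h1]
  ring

theorem qd_a6 {A Y : ℂ⟦X⟧} {a k c : ℤ⟦X⟧} (q : Qd A Y a k c) :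
    ∃ α : ℤ⟦X⟧, a = 1 + 6 * α ∧ constantCoeff α = 0 ∧ α = PowerSeries.expand 3 three_ne_zero α + k := by
  have hc : ∀ n, coeff n a = (if 3 ∣ n then coeff (n / 3) a else 0) + 6 * coeff n k := by
    intro n
    have h1 := congrArg (coeff n) q.r1
    rw [map_add, PowerSeries.coeff_expand, show (6 : ℤ⟦X⟧) = C 6 from (map_ofNat (C : ℤ →+* ℤ⟦X⟧) 6).symm,
      PowerSeries.coeff_C_mul] at h1
    exact h1
  have hd : ∀ n, 1 ≤ n → (6 : ℤ) ∣ coeff n a := by
    intro n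
    induction n using Nat.strong_induction_on with
    | _ n ih =>
      intro hn
      rw [hc n]
      refine dvd_add ?_ (dvd_mul_right _ _)
      split_ifs with h3
      · exact ih (n / 3) (by omega) (by omega)
      · exact dvd_zero _
  have h6 : (6 : ℤ⟦X⟧) ≠ 0 := by
    rw [show (6 : ℤ⟦X⟧) = C 6 from (map_ofNat (C : ℤ →+* ℤ⟦X⟧) 6).symm]
    intro h0
    have := congrArg (coeff 0) h0
    rw [PowerSeries.coeff_zero_C] at this
    simp at this
  set α : ℤ⟦X⟧ := PowerSeries.mk fun n => if n = 0 then 0 else coeff n a / 6 with hα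
  have ha : a = 1 + 6 * α := by
    ext n
    rw [map_add, show (6 : ℤ⟦X⟧) = C 6 from (map_ofNat (C : ℤ →+* ℤ⟦X⟧) 6).symm,
      PowerSeries.coeff_C_mul, hα, PowerSeries.coeff_mk, PowerSeries.coeff_one]
    split_ifs with h0
    · subst h0
      rw [PowerSeries.coeff_zero_eq_constantCoeff_apply, q.a0]
      norm_num
    · rw [Int.mul_ediv_cancel' (hd n (by omega))]
      ring
  refine ⟨α, ha, ?_, ?_⟩
  · rw [← PowerSeries.coeff_zero_eq_constantCoeff_apply, hα, PowerSeries.coeff_mk, if_pos rfl]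
  · apply mul_left_cancel₀ h6
    have h1 := q.r1
    have h2 : PowerSeries.expand 3 three_ne_zero a =
        1 + 6 * PowerSeries.expand 3 three_ne_zero α := by
      conv_lhs => rw [ha]
      simp only [map_add, map_mul, map_one, map_ofNat]
    rw [h2, ha] at h1
    linear_combination h1

private lemma qd_mul1 (f g : ℤ⟦X⟧) :
    coeff 1 (f * g) = coeff 1 f * constantCoeff g + constantCoeff f * coeff 1 g := by
  rw [PowerSeries.coeff_mul, Finset.Nat.antidiagonal_succ]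
  simp
  ring

private lemma qd_pow1 (f : ℤ⟦X⟧) (n : ℕ) :
    coeff 1 (f ^ n) = n * constantCoeff f ^ (n - 1) * coeff 1 f := by
  induction n with
  | zero => simp [PowerSeries.coeff_one]
  | succ n ih =>
    rw [pow_succ, qd_mul1, ih, map_pow]
    rcases n with _ | n
    · simp
    · simp only [Nat.add_sub_cancel]
      push_cast
      ring

private lemma qd_c {A Y : ℂ⟦X⟧} {a k c : ℤ⟦X⟧} (q : Qd A Y a k c) :
    constantCoeff a = 1 ∧ constantCoeff c = 0 ∧ coeff 1 a = 6 ∧ coeff 1 c = 1 := by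
  have k0 : constantCoeff k = 0 := by
    rw [← PowerSeries.coeff_zero_eq_constantCoeff_apply]
    exact q.gr 0 (by norm_num)
  have E0 : constantCoeff (PowerSeries.expand 3 three_ne_zero a) = 1 := by
    rw [PowerSeries.constantCoeff_expand, q.a0]
  have E1 : coeff 1 (PowerSeries.expand 3 three_ne_zero a) = 0 := by
    rw [PowerSeries.coeff_expand, if_neg (by norm_num)]
  refine ⟨q.a0, ?_, ?_, ?_⟩
  · rw [q.r2, map_mul, k0, zero_mul]
  · rw [q.r1, map_add, E1, qd_mul1, q.k1, k0]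
    simp [map_ofNat]
  · rw [q.r2, qd_mul1, k0, q.k1]
    simp [E0, k0, map_ofNat]

private lemma qd_b0 {A Y : ℂ⟦X⟧} {a k c : ℤ⟦X⟧} (q : Qd A Y a k c) :
    constantCoeff (a ^ 3 - 27 * c) = 1 := by
  obtain ⟨ca, cc, a1, c1⟩ := qd_c q
  simp [ca, cc]

private lemma qd_b1 {A Y : ℂ⟦X⟧} {a k c : ℤ⟦X⟧} (q : Qd A Y a k c) :
    coeff 1 (a ^ 3 - 27 * c) = -9 := by
  obtain ⟨ca, cc, a1, c1⟩ := qd_c q
  rw [map_sub, qd_pow1, qd_mul1, ca, cc, a1, c1]
  simp [map_ofNat]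

private lemma qd_mo {A Y : ℂ⟦X⟧} {a k c : ℤ⟦X⟧} (q : Qd A Y a k c) (i N j : ℕ) :
    moX A Y i N j = V 3 (PowerSeries.map (Int.castRingHom ℂ)
      (a ^ i * (a ^ 3 - 27 * c) ^ (N - j) * (27 * c) ^ j)) := by
  have hV0 : (3 : ℕ) ≠ 0 := three_ne_zero
  rw [moX, q.hY3, q.hA, ← V_pow hV0, ← V_pow hV0, ← V_pow hV0, ← V_sub hV0, ← V_pow hV0,
    ← V_mul hV0, ← V_mul hV0]
  simp only [map_sub, map_mul, map_pow, map_ofNat]

private lemma qd_cV (n : ℕ) (f : ℂ⟦X⟧) : coeff n (V 3 f) = if 3 ∣ n then coeff (n / 3) f else 0 :=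
  V_coeff 3 n f

private lemma qd_l3 {l : ℕ} {e s0 : ℂ} (hl : PL l e s0) : ¬ l ∣ 3 := by
  intro h
  rcases (Nat.dvd_prime Nat.prime_three).1 h with h1 | h1
  · exact hl.1.one_lt.ne' h1
  · subst h1
    rcases hl.2 with h2 | h2
    · exact absurd h2.1 (by norm_num)
    · exact absurd h2.1 (by norm_num)

theorem q_M {A Y : ℂ⟦X⟧} (h : Core A Y) {a k c : ℤ⟦X⟧} (q : Qd A Y a k c) {l : ℕ} {e s0 : ℂ} (hl : PL l e s0)
    {M : ℕ → ℕ → ℕ → ℕ → ℂ} (hM : MatD l e A Y M) (i N : ℕ) [Fact (i < 3)] :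
    (l : ℂ) * ((coeff l (a ^ i * (a ^ 3 - 27 * c) ^ N) : ℤ) : ℂ) =
      (6 * i - 9 * N) * M i N 0 0 + 27 * M i N 1 0 := by
  obtain ⟨ca, cc, a1, c1⟩ := qd_c q
  have hl3 : ¬ l ∣ 3 := qd_l3 hl
  have heq := congrArg (coeff 3) (hM.eq i N 0 (Nat.zero_le N))
  rw [TT_coeff, if_neg hl3, mul_zero, add_zero, qd_mo q, qd_cV, if_pos (Dvd.intro_left l rfl),
    Nat.mul_div_cancel l (by norm_num), Nat.sub_zero, pow_zero, mul_one, map_sum] at heq
  rw [PowerSeries.coeff_map] at heq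
  have hco : ∀ j, coeff 3 (M i N j 0 • moX A Y i N j) =
      M i N j 0 * ((coeff 1 (a ^ i * (a ^ 3 - 27 * c) ^ (N - j) * (27 * c) ^ j) : ℤ) : ℂ) := by
    intro j
    rw [PowerSeries.coeff_smul, qd_mo q, qd_cV, if_pos (dvd_refl 3), Nat.div_self (by norm_num),
      PowerSeries.coeff_map, smul_eq_mul]
    simp
  have hj0 : coeff 1 (a ^ i * (a ^ 3 - 27 * c) ^ N) = 6 * (i : ℤ) - 9 * N := by
    rw [qd_mul1, qd_pow1, qd_pow1, qd_b0 q, qd_b1 q, map_pow (constantCoeff (R := ℤ)), map_pow (constantCoeff (R := ℤ)), qd_b0 q, ca, a1]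
    simp
    ring
  have hj1 : ∀ n, coeff 1 (a ^ i * (a ^ 3 - 27 * c) ^ n * (27 * c) ^ 1) = 27 := by
    intro n
    rw [pow_one, qd_mul1, qd_mul1 27 c, map_mul (constantCoeff (R := ℤ)), map_mul (constantCoeff (R := ℤ)), map_pow (constantCoeff (R := ℤ)), map_pow (constantCoeff (R := ℤ)), qd_b0 q, ca, cc, c1]
    simp [map_ofNat]
  have hj2 : ∀ n j, coeff 1 (a ^ i * (a ^ 3 - 27 * c) ^ n * (27 * c) ^ (j + 2)) = 0 := by
    intro n j
    rw [qd_mul1, qd_pow1, map_pow (constantCoeff (R := ℤ)) _ (j + 2), map_mul (constantCoeff (R := ℤ)) 27 c, cc]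
    simp
  simp_rw [hco] at heq
  have hsum : ∑ j ∈ Finset.range (N + 1), M i N j 0 *
      ((coeff 1 (a ^ i * (a ^ 3 - 27 * c) ^ (N - j) * (27 * c) ^ j) : ℤ) : ℂ) =
      (6 * i - 9 * N) * M i N 0 0 + 27 * M i N 1 0 := by
    rw [Finset.sum_range_succ', Nat.sub_zero, pow_zero, mul_one, hj0]
    rcases N with _ | N
    · rw [Finset.sum_range_zero, hM.out i 0 1 0 (by norm_num)]
      push_cast
      ring
    · rw [Finset.sum_range_succ', zero_add, hj1]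
      rw [Finset.sum_eq_zero]
      · push_cast
        ring
      · intro j _
        rw [show j + 1 + 1 = j + 2 from rfl, hj2]
        simp
  rw [← hsum, ← heq]
  simp

theorem q_t {A Y : ℂ⟦X⟧} (h : Core A Y) {a k c : ℤ⟦X⟧} (q : Qd A Y a k c) {l : ℕ} {e s0 : ℂ} (hl : PL l e s0)
    {M : ℕ → ℕ → ℕ → ℕ → ℂ} (hM : MatD l e A Y M) (i : ℕ) [Fact (i < 3)] :
    (l : ℂ) * ((coeff l (a ^ i * (a ^ 3 - 27 * c) * c) : ℤ) : ℂ) = M i 2 1 1 := by
  obtain ⟨ca, cc, a1, c1⟩ := qd_c q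
  have hl3 : ¬ l ∣ 3 := qd_l3 hl
  have heq := hM.eq i 2 1 (by norm_num)
  rw [Finset.sum_range_succ, Finset.sum_range_succ, Finset.sum_range_succ, Finset.sum_range_zero,
    mat_low h hl hM i 2 1 (by norm_num) (by norm_num), mat_top h hl hM i 2 1 (by norm_num), zero_smul,
    zero_smul, zero_add, zero_add, add_zero] at heq
  have h2 := congrArg (coeff 3) heq
  rw [TT_coeff, if_neg hl3, mul_zero, add_zero, PowerSeries.coeff_smul, qd_mo q, qd_cV, qd_cV,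
    if_pos (Dvd.intro_left l rfl), if_pos (dvd_refl 3), Nat.mul_div_cancel l (by norm_num),
    Nat.div_self (by norm_num), PowerSeries.coeff_map, PowerSeries.coeff_map] at h2
  have e1 : a ^ i * (a ^ 3 - 27 * c) ^ (2 - 1) * (27 * c) ^ 1 =
      27 * (a ^ i * (a ^ 3 - 27 * c) * c) := by
    rw [show 2 - 1 = 1 from rfl]
    ring
  have e2 : coeff 1 (a ^ i * (a ^ 3 - 27 * c) * c) = 1 := by
    rw [qd_mul1, map_mul (constantCoeff (R := ℤ)), map_pow (constantCoeff (R := ℤ)), qd_b0 q, ca, cc, c1]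
    simp
  have e3 : ∀ (n : ℕ) (f : ℤ⟦X⟧), coeff n (27 * f) = 27 * coeff n f := by
    intro n f
    rw [show (27 : ℤ⟦X⟧) = C 27 from (map_ofNat (C : ℤ →+* ℤ⟦X⟧) 27).symm,
      PowerSeries.coeff_C_mul]
  rw [e1, e3, e3, e2] at h2
  have h3 : (27 : ℂ) ≠ 0 := by norm_num
  apply mul_left_cancel₀ h3
  simp at h2
  linear_combination h2

end Pool.Agent.Lib.MP_06b9d2_tls
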