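import Pool.Agent.Lib.MP_06b9d2_tls.DefsB
import Pool.Agent.Lib.MP_06b9d2_ssp.POa

/-!
Board TLS, algebra part: the position of the eigenvalues.
-/

namespace Pool.Agent.Lib.MP_06b9d2_tls

variable {O : ValuationSubring ℂ}

/-- if the matrix is near `d` then the eigenvalues are near `d` -/
theorem eig_small {Mx : ℕ → ℕ → ℂ} {N : ℕ} {lam d : ℂ} (g : O.ValueGroup)
    (hM : ∀ j ≤ N, ∀ s ≤ N, O.valuation (Mx j s - if j = s then d else 0) ≤ g) {x : ℕ → ℂ}
    (hx : EgG Mx N lam x) (hne : ∃ s ≤ N, x s ≠ 0) : O.valuation (lam - d) ≤ g := by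
  obtain ⟨s0, hs0, hx0⟩ := hne
  obtain ⟨j0, hj0, hmax⟩ := Finset.exists_max_image (Finset.range (N + 1))
    (fun s => O.valuation (x s)) ⟨s0, Finset.mem_range.2 (Nat.lt_succ_of_le hs0)⟩
  have hj0' : j0 ≤ N := Nat.lt_succ_iff.1 (Finset.mem_range.1 hj0)
  have hv0 : O.valuation (x j0) ≠ 0 := by
    intro h0
    have h1 := hmax s0 (Finset.mem_range.2 (Nat.lt_succ_of_le hs0))
    rw [h0, le_zero_iff, map_eq_zero] at h1
    exact hx0 h1
  have h1 : (lam - d) * x j0 =
      ∑ s ∈ Finset.range (N + 1), (Mx j0 s - if j0 = s then d else 0) * x s := by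
    have h2 : ∑ s ∈ Finset.range (N + 1), (Mx j0 s - if j0 = s then d else 0) * x s =
        ∑ s ∈ Finset.range (N + 1), Mx j0 s * x s -
          ∑ s ∈ Finset.range (N + 1), if j0 = s then d * x s else 0 := by
      rw [← Finset.sum_sub_distrib]
      refine Finset.sum_congr rfl fun s _ => ?_
      by_cases h : j0 = s
      · rw [if_pos h, if_pos h]
        ring
      · rw [if_neg h, if_neg h]
        ring
    rw [h2, hx j0 hj0', Finset.sum_ite_eq, if_pos hj0]
    ring
  have h3 : O.valuation ((lam - d) * x j0) ≤ g * O.valuation (x j0) := by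
    rw [h1]
    refine Valuation.map_sum_le _ fun s hs => ?_
    rw [map_mul]
    exact mul_le_mul' (hM j0 hj0' s (Nat.lt_succ_iff.1 (Finset.mem_range.1 hs))) (hmax s hs)
  rw [map_mul] at h3
  exact (mul_le_mul_iff_left₀ (zero_lt_iff.2 hv0)).1 h3

theorem MG_int (h3 : O.valuation 3 < 1) {e c : ℂ} (he : O.valuation e = 1) (hc : O.valuation c = 1)
    {κ : ℕ → ℕ → ℕ → ℂ} (hκ : ∀ m n r, O.valuation (κ m n r) ≤ 1) (N j s : ℕ) :
    O.valuation (MG e c κ N j s) ≤ 1 := by
  have hn : ∀ n : ℕ, O.valuation (n : ℂ) ≤ 1 := fun n => by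
    have := Pool.Agent.Lib.MP_06b9d2_ssp.int_mem O (n : ℤ)
    simpa using this
  unfold MG
  refine Valuation.map_sum_le _ fun m _ => Valuation.map_sum_le _ fun n _ => ?_
  by_cases h : s ≤ j + n
  · rw [if_pos h]
    simp only [map_mul, map_pow, map_div₀, he, hc, one_pow, one_mul, mul_one, div_one]
    have p1 : O.valuation (3 : ℂ) ^ m ≤ 1 := pow_le_one' h3.le m
    have p2 : O.valuation (3 : ℂ) ^ n ≤ 1 := pow_le_one' h3.le n
    exact mul_le_one' (mul_le_one' (mul_le_one' (mul_le_one' (hn _) (hn _)) p1) p2) (hκ _ _ _)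
  · rw [if_neg h, map_zero]
    exact zero_le

theorem MG_P (h3 : O.valuation 3 < 1) {c : ℂ} {κ : ℕ → ℕ → ℕ → ℂ} (h : DatP O c κ) (N j s : ℕ) :
    O.valuation (MG 1 c κ N j s - if j = s then κ 0 0 0 else 0) ≤ O.valuation 3 ^ 2 := by
  have hn : ∀ n : ℕ, O.valuation (n : ℂ) ≤ 1 := fun n => by
    have := Pool.Agent.Lib.MP_06b9d2_ssp.int_mem O (n : ℤ)
    simpa using this
  obtain ⟨F, hF⟩ : ∃ F : ℕ → ℕ → ℂ, F = fun m n => if s ≤ j + n then
      (1 : ℂ) ^ s * ((N - s).choose m : ℂ) * (s.choose n : ℂ) * (3 * 1 / c) ^ m * (3 / c) ^ n *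
        κ m n (j + n - s)
    else 0 := ⟨_, rfl⟩
  have hMG : MG 1 c κ N j s = ∑ m ∈ Finset.range (N + 1), ∑ n ∈ Finset.range (N + 1), F m n := by
    rw [hF]
    rfl
  have h00 : F 0 0 = if j = s then κ 0 0 0 else 0 := by
    rw [hF]
    simp only [Nat.add_zero, Nat.choose_zero_right, Nat.cast_one, pow_zero, one_pow, mul_one, one_mul]
    rcases lt_trichotomy j s with hjs | hjs | hjs
    · rw [if_neg (by omega), if_neg (by omega)]
    · rw [if_pos (by omega), if_pos hjs, hjs, Nat.sub_self]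
    · rw [if_pos (by omega), if_neg (by omega), h.deg 0 0 (j - s) (by omega)]
  have hb : ∀ m n, 1 ≤ m + n → O.valuation (F m n) ≤ O.valuation 3 ^ 2 := by
    intro m n hmn
    rw [hF]
    beta_reduce
    by_cases hs : s ≤ j + n
    · rw [if_pos hs]
      simp only [map_mul, map_pow, map_div₀, h.hc, one_pow, one_mul, mul_one, div_one]
      have e1 : O.valuation (3 : ℂ) ^ m * O.valuation (3 : ℂ) ^ n *
          O.valuation 3 ^ ((m + n + 1) / 2) ≤ O.valuation 3 ^ 2 := by
        rw [← pow_add, ← pow_add]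
        exact pow_le_pow_right_of_le_one' h3.le (by omega)
      refine le_trans ?_ e1
      refine mul_le_mul' (mul_le_mul' ?_ le_rfl) (h.int _ _ _)
      calc O.valuation ((N - s).choose m : ℂ) * O.valuation (s.choose n : ℂ) * O.valuation 3 ^ m
          ≤ 1 * O.valuation 3 ^ m := mul_le_mul' (mul_le_one' (hn _) (hn _)) le_rfl
        _ = O.valuation 3 ^ m := one_mul _
    · rw [if_neg hs, map_zero]
      exact zero_le
  have hsplit : ∑ m ∈ Finset.range (N + 1), ∑ n ∈ Finset.range (N + 1), F m n =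
      (∑ m ∈ Finset.range N, ∑ n ∈ Finset.range (N + 1), F (m + 1) n +
        ∑ n ∈ Finset.range N, F 0 (n + 1)) + F 0 0 := by
    rw [Finset.sum_range_succ' (fun m => ∑ n ∈ Finset.range (N + 1), F m n) N,
      Finset.sum_range_succ' (fun n => F 0 n) N, ← add_assoc]
  rw [hMG, hsplit, h00, add_sub_cancel_right]
  refine Valuation.map_add_le _ ?_ ?_
  · exact Valuation.map_sum_le _ fun m _ => Valuation.map_sum_le _ fun n _ => hb _ _ (by omega)
  · exact Valuation.map_sum_le _ fun n _ => hb _ _ (by omega)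

end Pool.Agent.Lib.MP_06b9d2_tls
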