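import Pool.Agent.Lib.MP_06b9d2_tls.TwoQ
import Pool.Agent.Lib.MP_06b9d2_tls.PrE

/-!
The matrix `MQ` of the data `DatQ` is near a scalar.
-/

namespace Pool.Agent.Lib.MP_06b9d2_tls

variable {O : ValuationSubring ℂ}

theorem MQ_near {p : ℂ} {κ : ℕ → ℕ → ℕ → ℂ} (h : DatQ O p κ) (N j s : ℕ) (hj : j ≤ N) (hs : s ≤ N) :
    O.valuation (MQ κ N j s -
      if j = s then κ 0 0 0 + N * κ 1 0 0 + (N.choose 2 : ℂ) * κ 2 0 0 else 0) ≤
      O.valuation (κ 2 0 0 - κ 1 1 1) := by
  classical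
  have hn : ∀ n : ℕ, O.valuation (n : ℂ) ≤ 1 := fun n => by
    have := Pool.Agent.Lib.MP_06b9d2_ssp.int_mem O (n : ℤ)
    rwa [Int.cast_natCast] at this
  obtain ⟨W, hW⟩ : ∃ W : ℂ, W = κ 2 0 0 - κ 1 1 1 := ⟨_, rfl⟩
  obtain ⟨F, hF⟩ : ∃ F : ℕ → ℕ → ℂ, F = fun m n => if s ≤ j + n then
      ((N - s).choose m : ℂ) * (s.choose n : ℂ) * κ m n (j + n - s) else 0 := ⟨_, rfl⟩
  have hpW : O.valuation (p * W) ≤ O.valuation W := by
    rw [map_mul]
    exact mul_le_of_le_one_left' h.hp.le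
  have hbig : ∀ m n r : ℕ, (r ≠ n ∨ 3 ≤ m + n) → O.valuation (κ m n r) ≤ O.valuation W := by
    intro m n r hmn
    have c3 : O.valuation (κ 3 0 0) ≤ O.valuation W := by
      refine h.h300.trans ?_
      rw [← hW, map_mul]
      exact (mul_le_of_le_one_left' (by have := hn 2; simpa using this)).trans hpW
    have c4 : O.valuation (κ 4 0 0) ≤ O.valuation W := by
      refine h.h400.trans ?_
      rw [← hW, map_mul]
      exact (mul_le_of_le_one_left' (by have := hn 12; simpa using this)).trans hpW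
    by_cases h1 : m = 3 ∧ n = 0 ∧ r = 0
    · obtain ⟨rfl, rfl, rfl⟩ := h1
      exact c3
    by_cases h2 : m = 0 ∧ n = 3 ∧ r = 3
    · obtain ⟨rfl, rfl, rfl⟩ := h2
      rw [h.h033]
      exact c3
    by_cases h3 : m = 4 ∧ n = 0 ∧ r = 0
    · obtain ⟨rfl, rfl, rfl⟩ := h3
      exact c4
    by_cases h4 : m = 0 ∧ n = 4 ∧ r = 4
    · obtain ⟨rfl, rfl, rfl⟩ := h4
      rw [h.h044]
      exact c4
    refine (h.big m n r hmn h1 h2 h3 h4).trans ?_
    rw [← hW, map_mul]
    exact (mul_le_of_le_one_left' (hn _)).trans hpW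
  have hFv : ∀ m n, (j ≠ s ∨ 3 ≤ m + n) → O.valuation (F m n) ≤ O.valuation W := by
    intro m n hmn
    rw [hF]
    beta_reduce
    by_cases hsj : s ≤ j + n
    · rw [if_pos hsj, map_mul, map_mul]
      refine (mul_le_of_le_one_left' (mul_le_one' (hn _) (hn _))).trans (hbig _ _ _ ?_)
      rcases hmn with h1 | h1
      · exact Or.inl (by omega)
      · exact Or.inr h1
    · rw [if_neg hsj, map_zero]
      exact zero_le
  have hMQ : MQ κ N j s = ∑ m ∈ Finset.range (N + 1), ∑ n ∈ Finset.range (N + 1), F m n := by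
    rw [hF]
    rfl
  rw [← hW]
  by_cases hjs : j = s
  · -- the diagonal
    subst hjs
    rw [if_pos rfl]
    have hF0 : ∀ m n, N - j < m ∨ j < n → F m n = 0 := by
      intro m n hmn
      rw [hF]
      beta_reduce
      rw [if_pos (by omega)]
      rcases hmn with h1 | h1
      · rw [Nat.choose_eq_zero_of_lt h1]; simp
      · rw [Nat.choose_eq_zero_of_lt h1]; simp
    obtain ⟨Q, hQ⟩ : ∃ Q, Q = Finset.range (N + 3) := ⟨_, rfl⟩
    have hsub : Finset.range (N + 1) ⊆ Q := by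
      intro a ha
      have := Finset.mem_range.1 ha
      rw [hQ]
      exact Finset.mem_range.2 (by omega)
    have h1 : MQ κ N j j = ∑ q ∈ Q ×ˢ Q, F q.1 q.2 := by
      rw [hMQ, Finset.sum_product']
      rw [← Finset.sum_subset hsub (f := fun m => ∑ n ∈ Q, F m n)]
      · refine Finset.sum_congr rfl fun m _ => ?_
        refine Finset.sum_subset hsub fun n _ hn' => ?_
        have : ¬ n < N + 1 := fun hh => hn' (Finset.mem_range.2 hh)
        exact hF0 m n (Or.inr (by omega))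
      · intro m _ hm'
        have : ¬ m < N + 1 := fun hh => hm' (Finset.mem_range.2 hh)
        exact Finset.sum_eq_zero fun n _ => hF0 m n (Or.inl (by omega))
    obtain ⟨S, hS⟩ : ∃ S : Finset (ℕ × ℕ), S = {(0, 0), (1, 0), (0, 1), (2, 0), (1, 1), (0, 2)} :=
      ⟨_, rfl⟩
    have hSQ : S ⊆ Q ×ˢ Q := by
      intro q hq
      rw [hS] at hq
      simp only [Finset.mem_insert, Finset.mem_singleton] at hq
      rw [Finset.mem_product, hQ, Finset.mem_range, Finset.mem_range]
      rcases hq with rfl | rfl | rfl | rfl | rfl | rfl <;> simp <;> omega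
    have h2 : ∑ q ∈ S, F q.1 q.2 = κ 0 0 0 + N * κ 1 0 0 + (N.choose 2 : ℂ) * κ 2 0 0 -
        (j : ℂ) * ((N : ℂ) - j) * W := by
      have hFd : ∀ m n, F m n = ((N - j).choose m : ℂ) * (j.choose n : ℂ) * κ m n n := by
        intro m n
        rw [hF]
        beta_reduce
        rw [if_pos (by omega), show j + n - j = n by omega]
      rw [hS, Finset.sum_insert (by decide), Finset.sum_insert (by decide),
        Finset.sum_insert (by decide), Finset.sum_insert (by decide),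
        Finset.sum_insert (by decide), Finset.sum_singleton]
      simp only [hFd]
      rw [h.h011, h.h022, hW, Nat.cast_choose_two, Nat.cast_choose_two, Nat.cast_choose_two]
      have hc : ((N - j : ℕ) : ℂ) = (N : ℂ) - j := by
        rw [Nat.cast_sub hj]
      simp only [Nat.choose_zero_right, Nat.choose_one_right, Nat.cast_one, hc]
      ring
    rw [h1, ← Finset.sum_sdiff hSQ, h2]
    have h3 : ∀ x y z : ℂ, x + (y - z) - y = x - z := fun x y z => by ring
    rw [h3]
    refine Valuation.map_sub_le _ (Valuation.map_sum_le _ fun q hq => hFv _ _ (Or.inr ?_)) ?_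
    · have hq2 := (Finset.mem_sdiff.1 hq).2
      by_contra hlt
      apply hq2
      obtain ⟨m, n⟩ := q
      simp only at hlt
      have : (m = 0 ∧ n = 0) ∨ (m = 1 ∧ n = 0) ∨ (m = 0 ∧ n = 1) ∨ (m = 2 ∧ n = 0) ∨
        (m = 1 ∧ n = 1) ∨ (m = 0 ∧ n = 2) := by omega
      rw [hS]
      rcases this with ⟨rfl, rfl⟩ | ⟨rfl, rfl⟩ | ⟨rfl, rfl⟩ | ⟨rfl, rfl⟩ | ⟨rfl, rfl⟩ |
        ⟨rfl, rfl⟩ <;> simp
    · rw [map_mul, map_mul]
      have hc : ((N - j : ℕ) : ℂ) = (N : ℂ) - j := by
        rw [Nat.cast_sub hj]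
      rw [← hc]
      exact mul_le_of_le_one_left' (mul_le_one' (hn _) (hn _))
  · rw [if_neg hjs, sub_zero, hMQ]
    exact Valuation.map_sum_le _ fun m _ => Valuation.map_sum_le _ fun n _ => hFv _ _ (Or.inl hjs)

end Pool.Agent.Lib.MP_06b9d2_tls
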