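import Pool.Agent.Lib.MP_06b9d2_tls.PrZ
import Pool.Agent.Lib.MP_06b9d2_tls.Lv2
import Pool.Agent.Lib.MP_06b9d2_p2.Cheb2

/-!
The eigenspaces of `T_(l^j)`, `j ≥ 1`, for the primes `l` treated modulo powers of `2`.
-/

namespace Pool.Agent.Lib.MP_06b9d2_tls

open PowerSeries Pool.Agent.L1 UpperHalfPlane Pool.Agent.Lib.MP_06b9d2_nt
open Pool.Agent.Lib.MP_06b9d2_ssp (int_mem)
open Pool.Agent.Lib.MP_06b9d2_p2 (Up Up_eval hecke_pow hecke_ex ker_of_inj Uc Uc_inj2 Uc_inj3 val_odd)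
open scoped MatrixGroups ModularForm

/-- the matrix is near a scalar -/
def PosM2 (O : ValuationSubring ℂ) (l k N : ℕ) (Mx : ℕ → ℕ → ℂ) : Prop :=
  ∃ d : ℂ, (∀ j ≤ N, ∀ s ≤ N, O.valuation (Mx j s - if j = s then d else 0) ≤
      O.valuation 2 ^ 6) ∧
    O.valuation (d - (1 + (l : ℂ) ^ k / l)) ≤ O.valuation 2 ^ 6

/-- what is used about the prime `l` for the operators `T_(l^j)` -/
def HypM2 (l : ℕ) : Prop := ∃ (O : ValuationSubring ℂ) (a g : ℂ⟦X⟧), O.valuation 2 < 1 ∧ Lv2 a g ∧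
  ∀ e N : ℕ, e ≤ 1 → ∃ Mx : ℕ → ℕ → ℂ,
    (∀ s ≤ N, Tl l (4 * N + 2 * e) (mo2 a g e N s) =
      ∑ j ∈ Finset.range (N + 1), Mx j s • mo2 a g e N j) ∧ PosM2 O l (4 * N + 2 * e) N Mx

private theorem root_ex2 {O : ValuationSubring ℂ} (h2 : O.valuation 2 < 1) {M : ℂ}
    (hM : O.valuation (M - 1) ≤ O.valuation 2 ^ 2) :
    ∃ r : ℂ, r ^ 2 = M ∧ O.valuation (r - 1) ≤ O.valuation 2 := by
  obtain ⟨r, hr⟩ : ∃ r : ℂ, M = r * r := IsAlgClosed.exists_eq_mul_self M
  refine ⟨r, by rw [hr]; ring, ?_⟩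
  by_contra hc
  rw [not_le] at hc
  have h4 : O.valuation (r + 1) = O.valuation (r - 1) := by
    have e1 : r + 1 = (r - 1) + 2 := by ring
    rw [e1, Valuation.map_add_eq_of_lt_left _ hc]
  have h5 : O.valuation (r - 1) * O.valuation (r - 1) ≤ O.valuation 2 ^ 2 := by
    have e1 : (r - 1) * (r + 1) = M - 1 := by rw [hr]; ring
    have e2 : O.valuation (r - 1) * O.valuation (r + 1) = O.valuation (M - 1) := by
      rw [← map_mul, e1]
    rw [h4] at e2
    rw [e2]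
    exact hM
  have h6 : O.valuation 2 * O.valuation 2 < O.valuation (r - 1) * O.valuation (r - 1) :=
    mul_lt_mul'' hc hc zero_le zero_le
  rw [← sq] at h6
  exact absurd h5 (not_le.2 h6)

/-- the valuation of `1 + l ^ (k - 1)` -/
private theorem v_plus {O : ValuationSubring ℂ} (h2 : O.valuation 2 < 1) (l k : ℕ) (hl : l % 2 = 1)
    (hk : Even k) : O.valuation (1 + (l : ℂ) ^ k / l) = O.valuation ((l : ℂ) + 1) := by
  have hlv : O.valuation (l : ℂ) = 1 := by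
    have := val_odd h2 (l : ℤ) (by omega)
    simpa using this
  have hl0 : (l : ℂ) ≠ 0 := by
    intro h
    rw [h, map_zero] at hlv
    exact zero_ne_one hlv
  obtain ⟨m, hm⟩ := hk
  -- `l ^ k + l = (l + 1) (1 + (l - 1) c)`
  obtain ⟨c, hc⟩ : ((l : ℤ) ^ 2 - 1) ∣ ((l : ℤ) ^ 2) ^ m - 1 ^ m := sub_dvd_pow_sub_pow _ _ m
  have h3 : (1 : ℂ) + (l : ℂ) ^ k / l = ((l : ℂ) + 1) * (((1 + ((l : ℤ) - 1) * c : ℤ) : ℂ) / l) := by
    have h4 : ((l : ℤ) ^ k + l : ℤ) = ((l : ℤ) + 1) * (1 + ((l : ℤ) - 1) * c) := by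
      have h5 : (l : ℤ) ^ k = ((l : ℤ) ^ 2) ^ m := by
        rw [← pow_mul, hm]
        congr 1
        ring
      rw [one_pow] at hc
      rw [h5]
      linear_combination hc
    have h6 : ((l : ℂ) ^ k + l : ℂ) = ((l : ℂ) + 1) * ((1 + ((l : ℤ) - 1) * c : ℤ) : ℂ) := by
      exact_mod_cast h4
    field_simp
    linear_combination h6
  have h7 : O.valuation (((1 + ((l : ℤ) - 1) * c : ℤ) : ℂ) / l) = 1 := by
    rw [map_div₀, hlv, div_one]
    refine val_odd h2 _ ?_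
    intro hd
    have h8 : (2 : ℤ) ∣ ((l : ℤ) - 1) * c := Dvd.dvd.mul_right (by omega) c
    have h9 := (Int.dvd_add_left h8).1 hd
    norm_num at h9
  rw [h3, map_mul, h7, mul_one]

/-- `U_j` is injective on the eigenvalues of `T_l` -/
theorem eig_inj2 {l : ℕ} (hl : l.Prime) (hl2 : l % 2 = 1) (hl32 : l % 32 ≠ 31) (H : HypM2 l) (k : ℕ)
    (hk : Even k)
    (T : CuspForm 𝒮ℒ (k : ℤ) →ₗ[ℂ] CuspForm 𝒮ℒ (k : ℤ)) (hT : IsHecke (k : ℤ) l T) (i : ℕ)
    (hi : 1 ≤ i) (a b : ℂ) (ha : Module.End.HasEigenvalue T a) (hb : Module.End.HasEigenvalue T b)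
    (hab : Uc ((l : ℂ) ^ ((k : ℤ) - 1)) a i = Uc ((l : ℂ) ^ ((k : ℤ) - 1)) b i) : a = b := by
  obtain ⟨O, a', g', h2, h, hM⟩ := H
  have hl0 : (l : ℂ) ≠ 0 := by exact_mod_cast hl.ne_zero
  have hlv : O.valuation (l : ℂ) = 1 := by
    have := val_odd h2 (l : ℤ) (by omega)
    simpa using this
  obtain ⟨K, hK⟩ : ∃ K : ℂ, K = (l : ℂ) ^ k / l := ⟨_, rfl⟩
  have hKz : (l : ℂ) ^ ((k : ℤ) - 1) = K := by
    rw [zpow_sub_one₀ hl0, zpow_natCast, hK, div_eq_mul_inv]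
  rw [hKz] at hab
  have hKv : O.valuation K = 1 := by
    rw [hK, map_div₀, map_pow, hlv, one_pow, div_one]
  obtain ⟨f, hf⟩ := ha.exists_hasEigenvector
  obtain ⟨g, hg⟩ := hb.exists_hasEigenvector
  have hf1 : T f = a • f := Module.End.mem_eigenspace_iff.1 hf.1
  have hg1 : T g = b • g := Module.End.mem_eigenspace_iff.1 hg.1
  by_cases hd : dd k = 0
  · exfalso
    obtain ⟨Φ, hΦb, hΦ⟩ := Pool.Agent.Lib.MP_06b9d2_nt.MU.Phi_ex k
    have : Subsingleton (CuspForm 𝒮ℒ (k : ℤ)) := by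
      have : IsEmpty (Fin (dd k - 1)) := by
        rw [hd]
        exact Fin.isEmpty'
      exact hΦb.1.subsingleton
    exact hf.2 (Subsingleton.elim _ _)
  have hj := ba_eq (Nat.pos_of_ne_zero hd)
  obtain ⟨N, hN⟩ : ∃ N, N = ba k 0 + bb k := ⟨_, rfl⟩
  have hk4 : 4 * N + 2 * bb k = k := by omega
  obtain ⟨Mx, hMx, d, hv, hdd⟩ := hM (bb k) N (bb_le_one k)
  rw [hk4] at hMx hdd
  obtain ⟨X, hX0, lead, hEg⟩ := coord_gen l hl k N (mo2 a' g' (bb k) N) Mx hMx
    (fun x hx => ind2 h _ N x hx)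
    (by
      intro j _ hj
      obtain ⟨y, y1, y2, y3, y4, y5⟩ := rep2 h k N j hk4 hj
      exact ⟨y, y1, y2, fun s hs => y3 s (by omega), by omega, y5⟩) T hT
  have hex : ∀ f : CuspForm 𝒮ℒ (k : ℤ), f ≠ 0 → ∃ s ≤ N, X f s ≠ 0 := by
    intro f hf
    obtain ⟨p, hp1, hp2, _, hp4, _⟩ := lead f hf
    exact ⟨p, by omega, hp4⟩
  have va := eig_small (O.valuation 2 ^ 6) hv (hEg a f hf1) (hex f hf.2)
  have vb := eig_small (O.valuation 2 ^ 6) hv (hEg b g hg1) (hex g hg.2)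
  rw [← hK] at hdd
  have hnear : ∀ x : ℂ, O.valuation (x - d) ≤ O.valuation 2 ^ 6 →
      O.valuation (x - (1 + K)) ≤ O.valuation 2 ^ 6 := by
    intro x hx
    have e : x - (1 + K) = (x - d) + (d - (1 + K)) := by ring
    rw [e]
    exact Valuation.map_add_le _ hx hdd
  have na := hnear a va
  have nb := hnear b vb
  have hpow : ∀ m : ℕ, m ≤ 6 → O.valuation (2 : ℂ) ^ 6 ≤ O.valuation 2 ^ m :=
    fun m hm => pow_le_pow_right_of_le_one' h2.le hm
  have hz0 : (2 : ℂ) ≠ 0 := two_ne_zero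
  have hv2 : O.valuation (2 : ℂ) ≠ 0 := (map_ne_zero _).mpr hz0
  by_cases hl4 : l % 4 = 1
  · have hK1 : O.valuation (K - 1) ≤ O.valuation 2 ^ 2 := by
      have h5 : (4 : ℤ) ∣ (l : ℤ) ^ k - (l : ℤ) := by
        have h6 : (l : ℤ) ≡ 1 [ZMOD 4] := by
          have : (l : ℤ) % 4 = 1 := by exact_mod_cast hl4
          rw [Int.ModEq, this]
          rfl
        have h7 : (l : ℤ) ^ k ≡ (l : ℤ) [ZMOD 4] := by
          have := h6.pow k
          rw [one_pow] at this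
          exact this.trans h6.symm
        exact (Int.modEq_iff_dvd.1 h7.symm)
      obtain ⟨z, hz⟩ := h5
      have h6 : K - 1 = 2 ^ 2 * ((z : ℂ) / l) := by
        have h7 : (l : ℂ) ^ k - l = 4 * (z : ℂ) := by exact_mod_cast hz
        rw [hK]
        field_simp
        rw [h7]
        norm_num
      rw [h6, map_mul, map_div₀, hlv, div_one, map_pow]
      calc O.valuation 2 ^ 2 * O.valuation (z : ℂ) ≤ O.valuation 2 ^ 2 * 1 :=
            mul_le_mul' le_rfl (int_mem O z)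
        _ = O.valuation 2 ^ 2 := mul_one _
    obtain ⟨r, hr, hr1⟩ := root_ex2 h2 hK1
    have hrv : O.valuation r = 1 := by
      have h5 : O.valuation r ^ 2 = 1 := by rw [← map_pow, hr, hKv]
      exact (pow_eq_one_iff.1 h5).resolve_right (by norm_num)
    have hkey : ∀ x : ℂ, O.valuation (x - (1 + K)) ≤ O.valuation 2 ^ 6 →
        O.valuation (x - 2 * r) ≤ O.valuation 2 ^ 2 := by
      intro x hx
      have h5 : x - 2 * r = (x - (1 + K)) + (r - 1) ^ 2 := by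
        rw [← hr]
        ring
      rw [h5]
      refine Valuation.map_add_le _ (hx.trans (hpow 2 (by norm_num))) ?_
      rw [map_pow]
      exact pow_le_pow_left' hr1 2
    have hdif : O.valuation (a - b) ≤ O.valuation 2 ^ 3 := by
      have e : a - b = (a - (1 + K)) - (b - (1 + K)) := by ring
      rw [e]
      exact Valuation.map_sub_le _ (na.trans (hpow 3 (by norm_num))) (nb.trans (hpow 3 (by norm_num)))
    rw [← hr] at hab
    exact Uc_inj3 h2 hrv i hi (hkey a na) (hkey b nb) hdif hab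
  · have hl3 : l % 4 = 3 := by omega
    have hplus := v_plus h2 l k hl2 hk
    rw [← hK] at hplus
    -- `|16| ≤ |l + 1| ≤ |4|`
    have hup : O.valuation ((l : ℂ) + 1) ≤ O.valuation 2 ^ 2 := by
      obtain ⟨m, hm⟩ : ∃ m : ℕ, l + 1 = 4 * m := ⟨(l + 1) / 4, by omega⟩
      have e : (l : ℂ) + 1 = 2 ^ 2 * ((m : ℤ) : ℂ) := by
        have : ((l + 1 : ℕ) : ℂ) = ((4 * m : ℕ) : ℂ) := by rw [hm]
        push_cast at this ⊢
        rw [this]
        norm_num
      rw [e, map_mul, map_pow]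
      calc O.valuation 2 ^ 2 * O.valuation (((m : ℤ) : ℂ)) ≤ O.valuation 2 ^ 2 * 1 :=
            mul_le_mul' le_rfl (int_mem O m)
        _ = O.valuation 2 ^ 2 := mul_one _
    have hlow : O.valuation 2 ^ 4 ≤ O.valuation ((l : ℂ) + 1) := by
      obtain ⟨e, m, hm, he, hodd⟩ : ∃ e m : ℕ, l + 1 = 2 ^ e * m ∧ e ≤ 4 ∧ m % 2 = 1 := by
        by_cases h8 : l % 8 = 3
        · exact ⟨2, (l + 1) / 4, by omega, by norm_num, by omega⟩
        · by_cases h16 : l % 16 = 7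
          · exact ⟨3, (l + 1) / 8, by omega, by norm_num, by omega⟩
          · exact ⟨4, (l + 1) / 16, by omega, by norm_num, by omega⟩
      have e1 : (l : ℂ) + 1 = 2 ^ e * ((m : ℤ) : ℂ) := by
        have : ((l + 1 : ℕ) : ℂ) = ((2 ^ e * m : ℕ) : ℂ) := by rw [hm]
        push_cast at this ⊢
        exact this
      have e2 : O.valuation (((m : ℤ) : ℂ)) = 1 := val_odd h2 _ (by omega)
      rw [e1, map_mul, map_pow, e2, mul_one]
      exact pow_le_pow_right_of_le_one' h2.le he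
    have hsm : ∀ x : ℂ, O.valuation (x - (1 + K)) ≤ O.valuation 2 ^ 6 →
        O.valuation x ≤ O.valuation 2 ^ 2 := by
      intro x hx
      have e : x = (x - (1 + K)) + (1 + K) := by ring
      rw [e]
      exact Valuation.map_add_le _ (hx.trans (hpow 2 (by norm_num))) (by rw [hplus]; exact hup)
    rcases Uc_inj2 h2 hKv i hi (hsm a na) (hsm b nb) hab with h4 | h4
    · exact h4
    · exfalso
      have e : 2 * (1 + K) = -((a - (1 + K)) + (b - (1 + K))) := by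
        rw [h4]
        ring
      have h5 : O.valuation (2 * (1 + K)) ≤ O.valuation 2 ^ 6 := by
        rw [e, Valuation.map_neg]
        exact Valuation.map_add_le _ na nb
      rw [map_mul, hplus] at h5
      have h6 : O.valuation 2 ^ 5 ≤ O.valuation 2 ^ 6 := by
        refine le_trans ?_ h5
        rw [pow_succ' (O.valuation 2) 4]
        exact mul_le_mul' le_rfl hlow
      have h7 : O.valuation (2 : ℂ) ^ 6 < O.valuation 2 ^ 5 := by
        rw [pow_succ (O.valuation 2) 5]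
        calc O.valuation (2 : ℂ) ^ 5 * O.valuation 2 < O.valuation 2 ^ 5 * 1 :=
              mul_lt_mul_of_pos_left h2 (zero_lt_iff.2 (pow_ne_zero _ hv2))
          _ = O.valuation 2 ^ 5 := mul_one _
      exact absurd h6 (not_le.2 h7)

theorem kerOne_pow2 {l : ℕ} (hl : l.Prime) (hl2 : l % 2 = 1) (hl32 : l % 32 ≠ 31) (H1 : KerOne l)
    (H : HypM2 l) (i : ℕ) (hi : 1 ≤ i) : KerOne (l ^ i) := by
  classical
  intro k hk T' hT' lam
  have := fin_cusp (k : ℤ)
  have : NeZero l := ⟨hl.ne_zero⟩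
  obtain ⟨T, hT⟩ := hecke_ex (k : ℤ) l hl.ne_zero
  obtain ⟨F, _, _, _, hcard⟩ := main H1 (k : ℤ) (by exact_mod_cast hk) T hT
  rw [hecke_pow hl hT i T' hT']
  refine ker_of_inj (by convert hcard) _ (fun a b ha hb hab => ?_) lam
  rw [Up_eval, Up_eval] at hab
  exact eig_inj2 hl hl2 hl32 H k hk T hT i hi a b ha hb hab

end Pool.Agent.Lib.MP_06b9d2_tls
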