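import Pool.Agent.Lib.MP_06b9d2_tls.StM

/-!
Board TLS, algebra part. Normalization of the vectors (as in SSP-Nrm) and the bounds for `dmG`.
-/

namespace Pool.Agent.Lib.MP_06b9d2_tls

open PowerSeries Pool.Agent.L1
open Pool.Agent.Lib.MP_06b9d2_ssp (PO PO_const PO_id PO_add PO_mul PO_shift int_mem val_int val_rat)

/-- normalized vectors: all `muM M N x π f`, `f` a polynomial function over `O`, are in `O`, and one of
them is a unit -/
structure NmM (O : ValuationSubring ℂ) (M N : ℕ) (x : ℕ → ℂ) : Prop where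
  mem : ∀ (π : ℕ) (f : ℤ → ℂ), PO O f → O.valuation (muM M N x π f) ≤ 1
  unit : ∃ π n : ℕ, O.valuation (muM M N x π fun s => (s : ℂ) ^ n) = 1

private theorem muM_mod' (M N : ℕ) (x : ℕ → ℂ) (π : ℕ) (f : ℤ → ℂ) :
    muM M N x (π % M) f = muM M N x π f := by
  unfold muM
  rw [Nat.mod_mod]

private theorem muM_smul (M N : ℕ) (x : ℕ → ℂ) (r : ℂ) (π : ℕ) (f : ℤ → ℂ) :
    muM M N (fun s => r * x s) π f = r * muM M N x π f := by
  unfold muM
  rw [Finset.mul_sum]
  exact Finset.sum_congr rfl fun s _ => by ring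

private theorem muM_comb (M N : ℕ) (x : ℕ → ℂ) (π : ℕ) (f : ℤ → ℂ) (c : ℕ → ℂ)
    (h : ∀ s : ℕ, s ≤ N → f (s : ℤ) = ∑ i ∈ Finset.range (N + 1), c i * (((s : ℕ) : ℤ) : ℂ) ^ i) :
    muM M N x π f = ∑ i ∈ Finset.range (N + 1), c i * muM M N x π (fun s => (s : ℂ) ^ i) := by
  unfold muM
  simp_rw [Finset.mul_sum]
  rw [Finset.sum_comm]
  refine Finset.sum_congr rfl fun s hs => ?_
  have hs' : s ≤ N := by
    have := (Finset.mem_filter.mp hs).1
    exact Nat.lt_succ_iff.mp (Finset.mem_range.mp this)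
  rw [h s hs', Finset.mul_sum]
  exact Finset.sum_congr rfl fun i _ => by ring

private theorem exists_ne (M : ℕ) (hM : 0 < M) (N : ℕ) (x : ℕ → ℂ) (hx : ∃ s ≤ N, x s ≠ 0) :
    ∃ π < M, ∃ n ≤ N, muM M N x π (fun s => (s : ℂ) ^ n) ≠ 0 := by
  obtain ⟨s0, hs0, hx0⟩ := hx
  by_contra hcon
  push Not at hcon
  set p : Polynomial ℂ := ∏ t ∈ (Finset.range (N + 1)).erase s0,
    (Polynomial.X - Polynomial.C (t : ℂ)) with hp
  have hdeg : p.natDegree < N + 1 := by
    rw [hp, Polynomial.natDegree_prod_of_monic _ _ (fun t _ => Polynomial.monic_X_sub_C _)]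
    simp only [Polynomial.natDegree_X_sub_C, Finset.sum_const, smul_eq_mul, mul_one]
    rw [Finset.card_erase_of_mem (Finset.mem_range.mpr (Nat.lt_succ_of_le hs0)), Finset.card_range]
    omega
  have h1 := muM_comb M N x (s0 % M) (fun s => p.eval (s : ℂ)) (fun i => p.coeff i)
    (fun s _ => by
      show p.eval (((s : ℕ) : ℤ) : ℂ) = _
      rw [Polynomial.eval_eq_sum_range' hdeg])
  have h2 : muM M N x (s0 % M) (fun s => p.eval (s : ℂ)) = 0 := by
    rw [h1]
    refine Finset.sum_eq_zero fun i hi => ?_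
    rw [hcon (s0 % M) (Nat.mod_lt _ hM) i (Nat.lt_succ_iff.mp (Finset.mem_range.mp hi)),
      mul_zero]
  unfold muM at h2
  rw [Finset.sum_eq_single s0] at h2
  · rcases mul_eq_zero.mp h2 with h | h
    · exact hx0 h
    · beta_reduce at h
      rw [hp, Polynomial.eval_prod] at h
      obtain ⟨t, ht, h0⟩ := Finset.prod_eq_zero_iff.mp h
      simp only [Polynomial.eval_sub, Polynomial.eval_X, Polynomial.eval_C, Int.cast_natCast] at h0
      have : (s0 : ℂ) = (t : ℂ) := sub_eq_zero.mp h0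
      exact (Finset.mem_erase.mp ht).1 (Nat.cast_injective this).symm
  · intro s hs hne
    have hz : p.eval (((s : ℕ) : ℤ) : ℂ) = 0 := by
      rw [hp, Polynomial.eval_prod]
      refine Finset.prod_eq_zero (i := s) (Finset.mem_erase.mpr ⟨hne, (Finset.mem_filter.mp hs).1⟩) ?_
      simp
    show x s * p.eval (((s : ℕ) : ℤ) : ℂ) = 0
    rw [hz, mul_zero]
  · intro h
    exact absurd (Finset.mem_filter.mpr ⟨Finset.mem_range.mpr (Nat.lt_succ_of_le hs0), by simp⟩) h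

private theorem reduce (O : ValuationSubring ℂ) (N : ℕ) (p : Polynomial O) :
    ∃ c : ℕ → O, ∀ s : ℕ, s ≤ N →
      Polynomial.aeval (((s : ℕ) : ℤ) : ℂ) p =
        ∑ i ∈ Finset.range (N + 1), (c i : ℂ) * (((s : ℕ) : ℤ) : ℂ) ^ i := by
  set Q : Polynomial O := ∏ t ∈ Finset.range (N + 1),
    (Polynomial.X - Polynomial.C (t : O)) with hQ
  have hmon : Q.Monic := Polynomial.monic_prod_of_monic _ _ fun t _ => Polynomial.monic_X_sub_C _
  have hdQ : Q.natDegree = N + 1 := by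
    rw [hQ, Polynomial.natDegree_prod_of_monic _ _ (fun t _ => Polynomial.monic_X_sub_C _)]
    simp only [Polynomial.natDegree_X_sub_C, Finset.sum_const, smul_eq_mul, mul_one,
      Finset.card_range]
  have hdeg : (p %ₘ Q).natDegree < N + 1 := by
    have hne : Q ≠ 1 := by
      intro h
      rw [h, Polynomial.natDegree_one] at hdQ
      omega
    have := Polynomial.natDegree_modByMonic_lt p hmon hne
    omega
  refine ⟨fun i => (p %ₘ Q).coeff i, fun s hs => ?_⟩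
  have hQ0 : Polynomial.aeval (((s : ℕ) : ℤ) : ℂ) Q = 0 := by
    rw [hQ, map_prod]
    refine Finset.prod_eq_zero (i := s) (Finset.mem_range.mpr (Nat.lt_succ_of_le hs)) ?_
    simp
  conv_lhs => rw [← Polynomial.modByMonic_add_div p Q]
  rw [map_add, map_mul, hQ0, zero_mul, add_zero, Polynomial.aeval_eq_sum_range' hdeg]
  refine Finset.sum_congr rfl fun i _ => ?_
  rw [Algebra.smul_def]
  rfl

theorem nrmM (O : ValuationSubring ℂ) (M : ℕ) (hM : 0 < M) (N : ℕ) (x : ℕ → ℂ)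
    (hx : ∃ s ≤ N, x s ≠ 0) : ∃ r : ℂ, r ≠ 0 ∧ NmM O M N (fun s => r * x s) := by
  obtain ⟨π1, hπ1, n1, hn1, hne⟩ := exists_ne M hM N x hx
  obtain ⟨⟨π0, n0⟩, hmem0, hmax⟩ := Finset.exists_max_image
    (Finset.range M ×ˢ Finset.range (N + 1))
    (fun q : ℕ × ℕ => O.valuation (muM M N x q.1 (fun s => (s : ℂ) ^ q.2)))
    ⟨(π1, n1), Finset.mem_product.mpr
      ⟨Finset.mem_range.mpr hπ1, Finset.mem_range.mpr (Nat.lt_succ_of_le hn1)⟩⟩
  have hmax' : ∀ π n : ℕ, n ≤ N → O.valuation (muM M N x π (fun s => (s : ℂ) ^ n)) ≤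
      O.valuation (muM M N x π0 (fun s => (s : ℂ) ^ n0)) := by
    intro π n hn
    rw [← muM_mod' M N x π]
    exact hmax (π % M, n) (Finset.mem_product.mpr
      ⟨Finset.mem_range.mpr (Nat.mod_lt _ hM),
        Finset.mem_range.mpr (Nat.lt_succ_of_le hn)⟩)
  set w : ℂ := muM M N x π0 (fun s => (s : ℂ) ^ n0) with hw
  have hw0 : w ≠ 0 := by
    intro h0
    have h1 := hmax' π1 n1 hn1
    rw [h0, map_zero, le_zero_iff, _root_.map_eq_zero] at h1
    exact hne h1
  have hvw : O.valuation w ≠ 0 := (map_ne_zero _).mpr hw0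
  have hsmall : ∀ π n : ℕ, n ≤ N →
      O.valuation (w⁻¹ * muM M N x π (fun s => (s : ℂ) ^ n)) ≤ 1 := by
    intro π n hn
    rw [map_mul, map_inv₀, ← inv_mul_cancel₀ hvw]
    exact mul_le_mul_right (hmax' π n hn) _
  refine ⟨w⁻¹, inv_ne_zero hw0, ⟨?_, ?_⟩⟩
  · rintro π f ⟨p, hp⟩
    obtain ⟨c, hc⟩ := reduce O N p
    rw [muM_smul, muM_comb M N x π f (fun i => (c i : ℂ)) (fun s hs => by rw [hp, hc s hs]),
      Finset.mul_sum]
    refine Valuation.map_sum_le _ fun i hi => ?_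
    have hi' : i ≤ N := Nat.lt_succ_iff.mp (Finset.mem_range.mp hi)
    have heq : w⁻¹ * ((c i : ℂ) * muM M N x π (fun s => (s : ℂ) ^ i)) =
        (c i : ℂ) * (w⁻¹ * muM M N x π (fun s => (s : ℂ) ^ i)) := by ring
    rw [heq, map_mul]
    exact mul_le_one' (O.valuation_le_one (c i)) (hsmall π i hi')
  · refine ⟨π0, n0, ?_⟩
    rw [muM_smul, ← hw, inv_mul_cancel₀ hw0, map_one]

/-! ### bounds for `dmG` -/

section dm

variable {O : ValuationSubring ℂ}

theorem PO_prod {f : ℕ → ℤ → ℂ} (hf : ∀ i, PO O (f i)) (m : ℕ) :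
    PO O (fun s => ∏ i ∈ Finset.range m, f i s) := by
  induction m with
  | zero =>
    have h := PO_const (O := O) 1 (by rw [map_one])
    simpa using h
  | succ m ih =>
    have h := PO_mul ih (hf m)
    simpa only [Finset.prod_range_succ] using h

theorem PO_int (O : ValuationSubring ℂ) (n : ℤ) : PO O (fun _ => (n : ℂ)) :=
  PO_const _ (int_mem O n)

theorem PO_desc (O : ValuationSubring ℂ) (N m n : ℕ) :
    PO O (fun s => (∏ i ∈ Finset.range m, ((N : ℂ) - (s : ℂ) - (i : ℂ))) *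
      ∏ i ∈ Finset.range n, ((s : ℂ) - (i : ℂ))) := by
  refine PO_mul (PO_prod (f := fun i s => (N : ℂ) - (s : ℂ) - (i : ℂ)) (fun i => ?_) m)
    (PO_prod (f := fun i s => (s : ℂ) - (i : ℂ)) (fun i => ?_) n)
  · have h := PO_add (PO_int O ((N : ℤ) - i)) (PO_mul (PO_int O (-1)) (PO_id (O := O)))
    have e : (fun s : ℤ => (((N : ℤ) - i : ℤ) : ℂ) + ((-1 : ℤ) : ℂ) * (s : ℂ)) =
        fun s : ℤ => (N : ℂ) - (s : ℂ) - (i : ℂ) := by
      funext s; push_cast; ring
    rwa [e] at h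
  · have h := PO_add (PO_int O (-(i : ℤ))) (PO_id (O := O))
    have e : (fun s : ℤ => ((-(i : ℤ) : ℤ) : ℂ) + (s : ℂ)) = fun s : ℤ => (s : ℂ) - (i : ℂ) := by
      funext s; push_cast; ring
    rwa [e] at h

theorem val_fact (m : ℕ) : 2 * padicValNat 3 m.factorial ≤ m - 1 := by
  have : Fact (Nat.Prime 3) := ⟨Nat.prime_three⟩
  have h := sub_one_mul_padicValNat_factorial (p := 3) m
  rcases Nat.eq_zero_or_pos m with h0 | h0
  · subst h0; simp
  · have h1 : 1 ≤ (Nat.digits 3 m).sum := by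
      by_contra hc
      have h2 : (Nat.digits 3 m).sum = 0 := by omega
      have h4 : m ≠ 0 := by omega
      have h5 := Nat.getLast_digit_ne_zero 3 h4
      have h6 := List.getLast_mem (l := Nat.digits 3 m) (Nat.digits_ne_nil_iff_ne_zero.2 h4)
      exact h5 (List.sum_eq_zero_iff.1 h2 _ h6)
    omega

/-- `dmG` is `3 ^ a` times a polynomial function over `O` -/
theorem dmG_pow (h3 : O.valuation 3 < 1) {e c : ℂ} (he : O.valuation e = 1) (hc : O.valuation c = 1)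
    (N m n a : ℕ) (ha : padicValNat 3 (m.factorial * n.factorial) + a ≤ m + n) :
    ∃ g : ℤ → ℂ, PO O g ∧ ∀ s, dmG e c N m n s = 3 ^ a * g s := by
  have : Fact (Nat.Prime 3) := ⟨Nat.prime_three⟩
  set v := padicValNat 3 (m.factorial * n.factorial) with hv
  have hne : m.factorial * n.factorial ≠ 0 :=
    mul_ne_zero (Nat.factorial_ne_zero m) (Nat.factorial_ne_zero n)
  obtain ⟨b, hb⟩ : 3 ^ v ∣ m.factorial * n.factorial := pow_padicValNat_dvd
  have hb3 : ¬ 3 ∣ b := by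
    intro hd
    have h1 : 3 ^ (v + 1) ∣ m.factorial * n.factorial := by
      rw [hb, pow_succ]
      exact mul_dvd_mul_left _ hd
    exact pow_succ_padicValNat_not_dvd hne h1
  have hb0 : b ≠ 0 := fun h => hb3 (h ▸ dvd_zero 3)
  obtain ⟨t, ht⟩ : ∃ t, m + n = v + a + t := ⟨m + n - (v + a), by omega⟩
  have hc0 : c ≠ 0 := by
    rintro rfl
    rw [map_zero] at hc
    exact zero_ne_one hc
  have hb' : (b : ℂ) ≠ 0 := by exact_mod_cast hb0
  have hb1 : O.valuation (((3 ^ t : ℤ) : ℂ) / ((b : ℤ) : ℂ)) ≤ 1 :=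
    val_rat h3 _ _ (by exact_mod_cast hb3)
  have hq : O.valuation ((e / c) ^ m * (1 / c) ^ n * ((((3 ^ t : ℤ) : ℂ)) / ((b : ℤ) : ℂ))) ≤ 1 := by
    rw [map_mul, map_mul, map_pow, map_pow, map_div₀, map_div₀, he, hc, map_one]
    simpa using hb1
  refine ⟨fun s => ((e / c) ^ m * (1 / c) ^ n * ((((3 ^ t : ℤ) : ℂ)) / ((b : ℤ) : ℂ))) *
    ((∏ i ∈ Finset.range m, ((N : ℂ) - (s : ℂ) - (i : ℂ))) *
      ∏ i ∈ Finset.range n, ((s : ℂ) - (i : ℂ))),
    PO_mul (PO_const _ hq) (PO_desc O N m n), fun s => ?_⟩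
  unfold dmG
  have hmn : ((m.factorial : ℂ) * (n.factorial : ℂ)) = 3 ^ v * b := by exact_mod_cast hb
  rw [hmn, ← mul_assoc ((3 : ℂ) ^ a)]
  congr 1
  have h3' : (3 : ℂ) ^ (m + n) = 3 ^ v * 3 ^ a * 3 ^ t := by rw [ht, pow_add, pow_add]
  have h4 : (3 * e / c) ^ m * (3 / c) ^ n = (e / c) ^ m * (1 / c) ^ n * 3 ^ (m + n) := by
    rw [pow_add, div_pow, div_pow, div_pow, div_pow, mul_pow, one_pow]
    field_simp
  rw [h4, h3']
  push_cast
  field_simp

theorem fact_bound (m n : ℕ) :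
    padicValNat 3 (m.factorial * n.factorial) + (m + n + 1) / 2 ≤ m + n := by
  have : Fact (Nat.Prime 3) := ⟨Nat.prime_three⟩
  rw [padicValNat.mul (Nat.factorial_ne_zero m) (Nat.factorial_ne_zero n)]
  have h1 := val_fact m
  have h2 := val_fact n
  omega

end dm

end Pool.Agent.Lib.MP_06b9d2_tls
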