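import Pool.Agent.Lib.MP_06b9d2_tls.Pc9

/-!
Board TLS, `l ≡ 8, 17` modulo `27`. The data for `e = -1`: `κ m n r = pc (-1) c M a m n r / 9`.

As in TLS-DatA, with `pcM9` in the place of `pcM`, and `l + 1` is `9` times a number prime to `3`.
-/

namespace Pool.Agent.Lib.MP_06b9d2_tls

open PowerSeries Pool.Agent.L1

private theorem DatC_c {l : ℕ} : cl l (-1) = (l : ℂ) * ((l : ℂ) - 1) := by
  unfold cl
  have h1 : ((l : ℂ) + 1) ≠ 0 := by exact_mod_cast Nat.succ_ne_zero l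
  field_simp
  ring

private theorem DatC_hc {O : ValuationSubring ℂ} (h3 : O.valuation 3 < 1) {l : ℕ}
    (h27 : l % 27 = 8 ∨ l % 27 = 17) : O.valuation (cl l (-1)) = 1 := by
  rw [DatC_c]
  have hl : 1 ≤ l := by omega
  have h1 : (l : ℂ) * ((l : ℂ) - 1) = (((l * (l - 1) : ℕ)) : ℂ) := by
    push_cast [Nat.cast_sub hl]
    ring
  rw [h1]
  refine v_prime h3 _ ?_
  intro hd
  rcases (Nat.Prime.dvd_mul Nat.prime_three).1 hd with h | h <;> omega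

private theorem DatC_l1 {l : ℕ} (h27 : l % 27 = 8 ∨ l % 27 = 17) :
    ∃ m : ℕ, ¬ 3 ∣ m ∧ (l : ℂ) + 1 = 9 * m := by
  refine ⟨(l + 1) / 9, by omega, ?_⟩
  have h1 : l + 1 = 9 * ((l + 1) / 9) := by omega
  exact_mod_cast h1

private theorem DatC_l2 {l : ℕ} (h27 : l % 27 = 8 ∨ l % 27 = 17) :
    ∃ m : ℕ, ¬ 3 ∣ m ∧ (l : ℂ) ^ 2 - l + 1 = 3 * m := by
  refine ⟨27 * (l / 9) ^ 2 + 45 * (l / 9) + 19, by omega, ?_⟩
  have h1 : l = 9 * (l / 9) + 8 := by omega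
  set q := l / 9
  rw [h1]
  push_cast
  ring

private theorem DatC_vl {O : ValuationSubring ℂ} (h3 : O.valuation 3 < 1) {l : ℕ}
    (h27 : l % 27 = 8 ∨ l % 27 = 17) : O.valuation (l : ℂ) = 1 :=
  v_prime h3 l (by omega)

private theorem DatC_zint (O : ValuationSubring ℂ) (z : ℤ) : O.valuation (z : ℂ) ≤ 1 :=
  (O.valuation_le_one_iff _).2 (intCast_mem O z)

private theorem fin_v81 {O : ValuationSubring ℂ} (h3 : O.valuation 3 < 1) {S : ℂ} (p w : ℤ)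
    (hp : ¬ (3 : ℤ) ∣ p) (hw : ¬ (3 : ℤ) ∣ w) (h : (p : ℂ) * S = 81 * (w : ℂ)) :
    O.valuation S = O.valuation 81 := by
  have h1 := congrArg O.valuation h
  rw [map_mul, map_mul, MP_06b9d2_ssp.val_int h3 p hp, MP_06b9d2_ssp.val_int h3 w hw, one_mul,
    mul_one] at h1
  exact h1

private theorem pw5' (l : ℕ) (h27 : l % 27 = 8 ∨ l % 27 = 17) :
    ∃ m : ℤ, 1 + (l : ℤ) ^ 5 = 9 * m ∧ ¬ (3 : ℤ) ∣ m := by
  have h : (1 + (l : ℤ) ^ 5) % 27 = 9 ∨ (1 + (l : ℤ) ^ 5) % 27 = 18 := by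
    rcases h27 with h | h
    · have e : (l : ℤ) ≡ 8 [ZMOD 27] := by
        unfold Int.ModEq
        omega
      have e5 := e.pow 5
      unfold Int.ModEq at e5
      norm_num at e5
      omega
    · have e : (l : ℤ) ≡ 17 [ZMOD 27] := by
        unfold Int.ModEq
        omega
      have e5 := e.pow 5
      unfold Int.ModEq at e5
      norm_num at e5
      omega
  exact ⟨(1 + (l : ℤ) ^ 5) / 9, by omega, by omega⟩

private theorem pw7' (l : ℕ) (h27 : l % 27 = 8 ∨ l % 27 = 17) :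
    ∃ m : ℤ, 1 + (l : ℤ) ^ 7 = 9 * m ∧ ¬ (3 : ℤ) ∣ m := by
  have h : (1 + (l : ℤ) ^ 7) % 27 = 9 ∨ (1 + (l : ℤ) ^ 7) % 27 = 18 := by
    rcases h27 with h | h
    · have e : (l : ℤ) ≡ 8 [ZMOD 27] := by
        unfold Int.ModEq
        omega
      have e5 := e.pow 7
      unfold Int.ModEq at e5
      norm_num at e5
      omega
    · have e : (l : ℤ) ≡ 17 [ZMOD 27] := by
        unfold Int.ModEq
        omega
      have e5 := e.pow 7
      unfold Int.ModEq at e5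
      norm_num at e5
      omega
  exact ⟨(1 + (l : ℤ) ^ 7) / 9, by omega, by omega⟩

theorem cm_v81 {A Y : ℂ⟦X⟧} (h : Core A Y) {O : ValuationSubring ℂ} (h3 : O.valuation 3 < 1) {l : ℕ} {s0 : ℂ}
    (hl : PL l (-1) s0) (h27 : l % 27 = 8 ∨ l % 27 = 17) {M : ℕ → ℕ → ℕ → ℕ → ℂ} (hM : MatD l (-1) A Y M)
    (a : ℕ) (ha : a = 0 ∨ a = 2) :
    O.valuation (M a 2 0 0 + M a 2 1 1) = O.valuation 81 := by
  have : Fact (a < 3) := ⟨by omega⟩
  obtain ⟨α, k, c, q⟩ := qd_ex h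
  have hp : l.Prime := hl.1
  have h2 : l % 3 = 2 := by omega
  have hl3 : ¬ (3 : ℤ) ∣ (l : ℤ) := by omega
  have h00 := mat_00 h hl hM a 2
  have h11 := q_t h q hl hM a
  rcases ha with rfl | rfl
  · obtain ⟨m, hm, hm3⟩ := pw5' l h27
    obtain ⟨y, hy⟩ := cm6 q l hp h2
    have hw : ¬ (3 : ℤ) ∣ (l : ℤ) * (m + 3 * y) := by
      intro hd
      rcases (Int.prime_three.dvd_mul).1 hd with h | h
      · exact hl3 h
      · exact hm3 (by omega)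
    refine fin_v81 h3 11 ((l : ℤ) * (m + 3 * y)) (by norm_num) hw ?_
    rw [h00, ← h11, pow_zero, one_mul]
    have e1 : (1 : ℂ) + (l : ℂ) ^ 5 = 9 * (m : ℂ) := by exact_mod_cast hm
    have e2 : 11 * ((coeff l ((α ^ 3 - 27 * c) * c) : ℤ) : ℂ) + 2 * (1 + (l : ℂ) ^ 5) =
        243 * (y : ℂ) := by exact_mod_cast hy
    push_cast
    linear_combination (l : ℂ) * e2 + 9 * (l : ℂ) * e1
  · obtain ⟨m, hm, hm3⟩ := pw7' l h27
    obtain ⟨y, hy⟩ := cm8 q l hp h2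
    have hw : ¬ (3 : ℤ) ∣ (l : ℤ) * (5 * m + 3 * y) := by
      intro hd
      rcases (Int.prime_three.dvd_mul).1 hd with h | h
      · exact hl3 h
      · exact hm3 (by omega)
    refine fin_v81 h3 43 ((l : ℤ) * (5 * m + 3 * y)) (by norm_num) hw ?_
    rw [h00, ← h11]
    have e1 : (1 : ℂ) + (l : ℂ) ^ 7 = 9 * (m : ℂ) := by exact_mod_cast hm
    have e2 : 43 * ((coeff l (α ^ 2 * (α ^ 3 - 27 * c) * c) : ℤ) : ℂ) - 2 * (1 + (l : ℂ) ^ 7) =
        243 * (y : ℂ) := by exact_mod_cast hy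
    push_cast
    linear_combination (l : ℂ) * e2 + 45 * (l : ℂ) * e1

private theorem DatC_int {A Y : ℂ⟦X⟧} (h : Core A Y) {O : ValuationSubring ℂ} (h3 : O.valuation 3 < 1)
    {l : ℕ} {s0 : ℂ} (hl : PL l (-1) s0) (h27 : l % 27 = 8 ∨ l % 27 = 17)
    {M : ℕ → ℕ → ℕ → ℕ → ℂ} (hM : MatD l (-1) A Y M)
    (a m n r : ℕ) [Fact (a < 3)] : O.valuation (pc (-1) (cl l (-1)) M a m n r / 9) ≤ 1 := by
  rw [map_div₀]
  exact div_le_one_of_le₀ (pcM9 h h3 hl (by omega) hM a m n r) zero_le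

theorem datM9 {A Y : ℂ⟦X⟧} (h : Core A Y) {O : ValuationSubring ℂ} (h3 : O.valuation 3 < 1) {l : ℕ} {s0 : ℂ}
    (hl : PL l (-1) s0) (h27 : l % 27 = 8 ∨ l % 27 = 17) {M : ℕ → ℕ → ℕ → ℕ → ℂ} (hM : MatD l (-1) A Y M)
    (a : ℕ) (ha : a = 0 ∨ a = 2) :
    DatM O (cl l (-1)) (fun m n r => pc (-1) (cl l (-1)) M a m n r / 9) := by
  have : Fact (a < 3) := ⟨by omega⟩
  have he : (-1 : ℂ) ^ 2 = 1 := by norm_num
  have hea : (-1 : ℂ) ^ a = 1 := by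
    rcases ha with h | h <;> subst h <;> norm_num
  have h302 : O.valuation (pc (-1) (cl l (-1)) M a 3 0 2 / 9) ≤ O.valuation 3 := by
    rw [pc_302 h hl hM a]
    obtain ⟨z, hz⟩ := mat_int' h hl hM a 3 2 0 (by norm_num) (by norm_num)
    rw [hz]
    have e1 : (27 : ℂ) ^ (2 - 0) * (z : ℂ) / 27 / 9 = 3 * ((z : ℤ) : ℂ) := by
      push_cast
      norm_num
      ring
    rw [e1, map_mul]
    calc O.valuation 3 * O.valuation ((z : ℤ) : ℂ) ≤ O.valuation 3 * 1 :=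
          mul_le_mul' le_rfl (DatC_zint O _)
      _ = O.valuation 3 := mul_one _
  refine ⟨DatC_hc h3 h27, ?_, ?_, ?_, ?_, ?_, ?_, ?_, ?_, ?_, ?_, h302, ?_, ?_⟩
  · intro m n r hr
    show pc (-1) (cl l (-1)) M a m n r / 9 = 0
    rw [pc_deg _ hM a m n r hr, zero_div]
  · intro m n r
    exact DatC_int h h3 hl h27 hM a m n r
  · show O.valuation (pc (-1) (cl l (-1)) M a 0 0 0 / 9) = 1
    obtain ⟨m, hm, hm'⟩ := DatC_l1 h27
    rw [pc_m00 h hl hM a 0]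
    rcases ha with h0 | h0
    · subst h0
      have e1 : (1 / 3 : ℂ) ^ 0 * ((l : ℂ) * (1 - -1 * cl l (-1)) ^ 0 +
          (-1 * (l : ℂ)) ^ 0 * ((-1 * (l : ℂ)) ^ 3 - -1 * cl l (-1)) ^ 0) / 9 = (m : ℂ) := by
        rw [pow_zero, pow_zero, pow_zero, pow_zero, one_mul, mul_one, one_mul, hm']
        ring
      rw [e1]
      exact v_prime h3 m hm
    · subst h0
      have e1 : (1 / 3 : ℂ) ^ 0 * ((l : ℂ) * (1 - -1 * cl l (-1)) ^ 0 +
          (-1 * (l : ℂ)) ^ 2 * ((-1 * (l : ℂ)) ^ 3 - -1 * cl l (-1)) ^ 0) / 9 = (l : ℂ) * (m : ℂ) := by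
        rw [pow_zero, pow_zero, pow_zero]
        have : (l : ℂ) * ((l : ℂ) + 1) = (l : ℂ) * (9 * m) := by rw [hm']
        linear_combination this / 9
      rw [e1, map_mul, v_prime h3 m hm, DatC_vl h3 h27, one_mul]
  · show pc (-1) (cl l (-1)) M a 1 0 1 / 9 = 0
    rw [(pc_101 h hl hM a).1, zero_div]
  · show pc (-1) (cl l (-1)) M a 0 1 0 / 9 = 0
    rw [(pc_101 h hl hM a).2, zero_div]
  · show pc (-1) (cl l (-1)) M a 0 1 1 / 9 = -(pc (-1) (cl l (-1)) M a 1 0 0 / 9)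
    have h1 := pc_sym he (cl l (-1)) hM a 1 0 0 (by norm_num)
    have h2 : (-1 : ℂ) ^ (a + 1 + 0) = -1 := by
      rw [pow_add, pow_add, hea]
      norm_num
    rw [h2] at h1
    have h3' : 1 + 0 - 0 = 1 := rfl
    rw [h3'] at h1
    rw [h1]
    ring
  · show pc (-1) (cl l (-1)) M a 2 0 2 / 9 = 0
    rw [(pc_202 h hl hM a).1, zero_div]
  · show pc (-1) (cl l (-1)) M a 0 2 0 / 9 = 0
    rw [(pc_202 h hl hM a).2, zero_div]
  · show pc (-1) (cl l (-1)) M a 0 2 2 / 9 = pc (-1) (cl l (-1)) M a 2 0 0 / 9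
    have h1 := pc_sym he (cl l (-1)) hM a 2 0 0 (by norm_num)
    have h2 : (-1 : ℂ) ^ (a + 2 + 0) = 1 := by
      rw [pow_add, pow_add, hea]
      norm_num
    rw [h2] at h1
    have h3' : 2 + 0 - 0 = 2 := rfl
    rw [h3'] at h1
    rw [h1]
    ring
  · show pc (-1) (cl l (-1)) M a 0 3 3 / 9 = -(pc (-1) (cl l (-1)) M a 3 0 0 / 9)
    have h1 := pc_sym he (cl l (-1)) hM a 3 0 0 (by norm_num)
    have h2 : (-1 : ℂ) ^ (a + 3 + 0) = -1 := by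
      rw [pow_add, pow_add, hea]
      norm_num
    rw [h2] at h1
    have h3' : 3 + 0 - 0 = 3 := rfl
    rw [h3'] at h1
    rw [h1]
    ring
  · show O.valuation (pc (-1) (cl l (-1)) M a 0 3 1 / 9) ≤ O.valuation 3
    have h1 := pc_sym he (cl l (-1)) hM a 3 0 2 (by norm_num)
    have h2 : (-1 : ℂ) ^ (a + 3 + 0) = -1 := by
      rw [pow_add, pow_add, hea]
      norm_num
    rw [h2] at h1
    have h3' : 3 + 0 - 2 = 1 := rfl
    rw [h3'] at h1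
    rw [h1, neg_one_mul, neg_div, Valuation.map_neg]
    exact h302
  · show O.valuation (pc (-1) (cl l (-1)) M a 2 0 0 / 9 + pc (-1) (cl l (-1)) M a 1 1 1 / 9) = 1
    have hd := pc_dif h hl hM a (by rw [pow_add, hea]; norm_num)
    have h1 := cm_v81 h h3 hl h27 hM a ha
    have e1 : pc (-1) (cl l (-1)) M a 2 0 0 / 9 + pc (-1) (cl l (-1)) M a 1 1 1 / 9 =
        (M a 2 0 0 + M a 2 1 1) / 81 := by
      linear_combination hd / 9
    rw [e1, map_div₀, h1]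
    exact div_self ((Valuation.ne_zero_iff _).2 (by norm_num))

theorem datM19 {A Y : ℂ⟦X⟧} (h : Core A Y) {O : ValuationSubring ℂ} (h3 : O.valuation 3 < 1) {l : ℕ} {s0 : ℂ}
    (hl : PL l (-1) s0) (h27 : l % 27 = 8 ∨ l % 27 = 17) {M : ℕ → ℕ → ℕ → ℕ → ℂ} (hM : MatD l (-1) A Y M) :
    DatM1 O (cl l (-1)) (fun m n r => pc (-1) (cl l (-1)) M 1 m n r / 9) := by
  have he : (-1 : ℂ) ^ 2 = 1 := by norm_num
  refine ⟨DatC_hc h3 h27, ?_, ?_, ?_, ?_, ?_, ?_, ?_⟩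
  · intro m n r hr
    show pc (-1) (cl l (-1)) M 1 m n r / 9 = 0
    rw [pc_deg _ hM 1 m n r hr, zero_div]
  · intro m n r
    exact DatC_int h h3 hl h27 hM 1 m n r
  · show pc (-1) (cl l (-1)) M 1 0 0 0 / 9 = 0
    rw [pc_m00 h hl hM 1 0, pow_zero, pow_zero, pow_zero]
    ring
  · show pc (-1) (cl l (-1)) M 1 1 0 1 / 9 = 0
    rw [(pc_101 h hl hM 1).1, zero_div]
  · show pc (-1) (cl l (-1)) M 1 0 1 0 / 9 = 0
    rw [(pc_101 h hl hM 1).2, zero_div]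
  · show pc (-1) (cl l (-1)) M 1 0 1 1 / 9 = pc (-1) (cl l (-1)) M 1 1 0 0 / 9
    have h1 := pc_sym he (cl l (-1)) hM 1 1 0 0 (by norm_num)
    have h2 : (-1 : ℂ) ^ (1 + 1 + 0) = 1 := by norm_num
    rw [h2] at h1
    have h3' : 1 + 0 - 0 = 1 := rfl
    rw [h3'] at h1
    rw [h1]
    ring
  · show O.valuation (pc (-1) (cl l (-1)) M 1 1 0 0 / 9) = 1
    obtain ⟨m, hm, hm'⟩ := DatC_l1 h27
    obtain ⟨n, hn, hn'⟩ := DatC_l2 h27
    have e1 : pc (-1) (cl l (-1)) M 1 1 0 0 / 9 = (l : ℂ) * m * n := by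
      rw [pc_m00 h hl hM 1 1, DatC_c]
      have h1 : (l : ℂ) * ((l : ℂ) + 1) * ((l : ℂ) ^ 2 - l + 1) = (l : ℂ) * (9 * m) * (3 * n) := by
        rw [hm', hn']
      linear_combination h1 / 27
    rw [e1, map_mul, map_mul, v_prime h3 m hm, v_prime h3 n hn, DatC_vl h3 h27, one_mul, one_mul]

end Pool.Agent.Lib.MP_06b9d2_tls
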