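import Pool.Agent.Lib.MP_06b9d2_tls.FnM

/-!
Board TLS, algebra part. Every eigenspace of the matrix has dimension at most two.
-/

namespace Pool.Agent.Lib.MP_06b9d2_tls

open PowerSeries Pool.Agent.L1
open Pool.Agent.Lib.MP_06b9d2_ssp (PO)

/-- `muM M N x π f` as a linear form in `x` -/
private noncomputable def muL (M N π : ℕ) (f : ℤ → ℂ) : (ℕ → ℂ) →ₗ[ℂ] ℂ where
  toFun x := muM M N x π f
  map_add' x y := by
    simp only [muM, Pi.add_apply, add_mul, Finset.sum_add_distrib]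
  map_smul' r x := by
    simp only [muM, Pi.smul_apply, smul_eq_mul, RingHom.id_apply, Finset.mul_sum, mul_assoc]

private theorem muM_smul (M N : ℕ) (x : ℕ → ℂ) (r : ℂ) (π : ℕ) (f : ℤ → ℂ) :
    muM M N (fun s => r * x s) π f = r * muM M N x π f := by
  simp only [muM, Finset.mul_sum, mul_assoc]

theorem EgG_smul {Mx : ℕ → ℕ → ℂ} {N : ℕ} {lam : ℂ} {x : ℕ → ℂ} (h : EgG Mx N lam x) (r : ℂ) :
    EgG Mx N lam (fun s => r * x s) := by
  intro j hj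
  have h1 := h j hj
  calc ∑ s ∈ Finset.range (N + 1), Mx j s * (r * x s)
      = r * ∑ s ∈ Finset.range (N + 1), Mx j s * x s := by
        rw [Finset.mul_sum]
        refine Finset.sum_congr rfl fun s _ => ?_
        ring
    _ = lam * (r * x j) := by rw [h1]; ring

theorem twoKey {O : ValuationSubring ℂ} {Mx : ℕ → ℕ → ℂ} (M : ℕ) (hM : 0 < M) (N : ℕ) (lam : ℂ)
    (π₁ π₂ : ℕ) (f₁ f₂ : ℤ → ℂ)
    (hfin : ∀ y : ℕ → ℂ, NmM O M N y → EgG Mx N lam y → muM M N y π₁ f₁ = 0 →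
      muM M N y π₂ f₂ = 0 → False) :
    ∃ L : (ℕ → ℂ) →ₗ[ℂ] (Fin 2 → ℂ),
      ∀ x : ℕ → ℂ, EgG Mx N lam x → (∀ s, N < s → x s = 0) → L x = 0 → x = 0 := by
  refine ⟨LinearMap.pi ![muL M N π₁ f₁, muL M N π₂ f₂], fun x hx hN hL => ?_⟩
  by_contra hne
  have hex : ∃ s ≤ N, x s ≠ 0 := by
    by_contra hcon
    push Not at hcon
    refine hne (funext fun s => ?_)
    rcases Nat.lt_or_ge N s with h | h
    · exact hN s h
    · exact hcon s h
  obtain ⟨r, -, hr⟩ := nrmM O M hM N x hex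
  have h0 : muM M N x π₁ f₁ = 0 := congrFun hL 0
  have h1 : muM M N x π₂ f₂ = 0 := congrFun hL 1
  refine hfin _ hr (EgG_smul hx r) ?_ ?_
  · rw [muM_smul, h0, mul_zero]
  · rw [muM_smul, h1, mul_zero]

theorem twoM (O : ValuationSubring ℂ) (h3 : O.valuation 3 < 1) (N : ℕ) (c : ℂ)
    (κ : ℕ → ℕ → ℕ → ℂ) (h : DatM O c κ) : Two (MG (-1) c κ N) N := by
  intro lam
  obtain ⟨d, t, hd, ht, hc⟩ := cgM h3 N c κ h
  obtain ⟨π, hπ⟩ := finM h3 N lam d t hd ht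
  exact twoKey 2 (by norm_num) N lam π π _ _ fun y hy hE h1 h2 => hπ y hy (hc lam y hE hy) h1 h2

theorem twoM1 (O : ValuationSubring ℂ) (h3 : O.valuation 3 < 1) (N : ℕ) (c : ℂ)
    (κ : ℕ → ℕ → ℕ → ℂ) (h : DatM1 O c κ) : Two (MG (-1) c κ N) N := by
  intro lam
  obtain ⟨q, hq, hc⟩ := cgM1 h3 N c κ h
  exact twoKey 2 (by norm_num) N lam 0 1 _ _ fun y hy hE h1 h2 =>
    finM1 h3 N lam q hq y hy (hc lam y hE hy) h1 h2

theorem twoP (O : ValuationSubring ℂ) (h3 : O.valuation 3 < 1) (N : ℕ) (c : ℂ)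
    (κ : ℕ → ℕ → ℕ → ℂ) (h : DatP O c κ) : Two (MG 1 c κ N) N := by
  intro lam
  obtain ⟨d, t, hd, ht, hc⟩ := cgP h3 N c κ h
  exact twoKey 1 (by norm_num) N lam 0 0 _ _ fun y hy hE h1 h2 =>
    finP h3 N lam d t ht y hy (hc lam y hE hy) h1 h2

end Pool.Agent.Lib.MP_06b9d2_tls
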