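import Pool.Agent.Lib.MP_06b9d2_tls.TwoM

/-!
Board TLS, algebra part, for general residue characteristics (used at the prime `2`): every eigenspace of a
matrix which is close to a diagonal matrix with the entries `d + W (s ^ 2 - N s)` has dimension at most two.
-/

namespace Pool.Agent.Lib.MP_06b9d2_tls

open PowerSeries Pool.Agent.L1
open Pool.Agent.Lib.MP_06b9d2_ssp (PO PO_const PO_id PO_add PO_mul PO_shift int_mem val_int val_rat)

/-- the matrix `∑ C(N - s, m) C(s, n) κ m n (j + n - s)` -/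
noncomputable def MQ (κ : ℕ → ℕ → ℕ → ℂ) (N j s : ℕ) : ℂ :=
  ∑ m ∈ Finset.range (N + 1), ∑ n ∈ Finset.range (N + 1),
    if s ≤ j + n then ((N - s).choose m : ℂ) * (s.choose n : ℂ) * κ m n (j + n - s) else 0

/-- the data: `W = κ 2 0 0 - κ 1 1 1` -/
structure DatQ (O : ValuationSubring ℂ) (p : ℂ) (κ : ℕ → ℕ → ℕ → ℂ) : Prop where
  hp : O.valuation p < 1
  hW : κ 2 0 0 - κ 1 1 1 ≠ 0
  deg : ∀ m n r, m + n < r → κ m n r = 0
  h011 : κ 0 1 1 = κ 1 0 0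
  h022 : κ 0 2 2 = κ 2 0 0
  h033 : κ 0 3 3 = κ 3 0 0
  h044 : κ 0 4 4 = κ 4 0 0
  h300 : O.valuation (κ 3 0 0) ≤ O.valuation (2 * (p * (κ 2 0 0 - κ 1 1 1)))
  h400 : O.valuation (κ 4 0 0) ≤ O.valuation (12 * (p * (κ 2 0 0 - κ 1 1 1)))
  big : ∀ m n r, (r ≠ n ∨ 3 ≤ m + n) → ¬ (m = 3 ∧ n = 0 ∧ r = 0) → ¬ (m = 0 ∧ n = 3 ∧ r = 3) →
    ¬ (m = 4 ∧ n = 0 ∧ r = 0) → ¬ (m = 0 ∧ n = 4 ∧ r = 4) → O.valuation (κ m n r) ≤
      O.valuation (((m.factorial * n.factorial : ℕ) : ℂ) * (p * (κ 2 0 0 - κ 1 1 1)))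

variable {O : ValuationSubring ℂ}

theorem MQ_eq (κ : ℕ → ℕ → ℕ → ℂ) (N : ℕ) : MG 1 3 κ N = MQ κ N := by
  funext j s
  unfold MG MQ
  refine Finset.sum_congr rfl fun m _ => Finset.sum_congr rfl fun n _ => ?_
  norm_num

theorem dmG_one (N m n : ℕ) (s : ℤ) : dmG 1 3 N m n s =
    ((∏ i ∈ Finset.range m, ((N : ℂ) - (s : ℂ) - (i : ℂ))) *
      ∏ i ∈ Finset.range n, ((s : ℂ) - (i : ℂ))) / ((m.factorial * n.factorial : ℕ) : ℂ) := by
  unfold dmG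
  push_cast
  norm_num
  ring

/-- the set `w O` -/
noncomputable def JW (O : ValuationSubring ℂ) (w : ℂ) : AddSubgroup ℂ :=
  O.toSubring.toAddSubgroup.map (AddMonoidHom.mulLeft w)

theorem JW_mk {w v : ℂ} (h : ∃ z ∈ O, v = w * z) : v ∈ JW O w := by
  obtain ⟨z, hz, h⟩ := h
  exact ⟨z, hz, h.symm⟩

theorem JW_ex {w v : ℂ} (h : v ∈ JW O w) : ∃ z ∈ O, v = w * z := by
  obtain ⟨z, hz, h⟩ := h
  exact ⟨z, hz, h.symm⟩

private theorem val_div {a b : ℂ} (hb : b ≠ 0) (h : O.valuation a ≤ O.valuation b) :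
    O.valuation (a / b) ≤ 1 := by
  rw [map_div₀, div_le_iff₀ (zero_lt_iff.2 ((map_ne_zero _).2 hb)), one_mul]
  exact h

theorem tm_W {N : ℕ} {x : ℕ → ℂ} (hn : NmM O 1 N x) (κ : ℕ → ℕ → ℕ → ℂ)
    {f : ℤ → ℂ} (hf : PO O f) (m n l : ℕ) (w : ℂ) (hw : w ≠ 0)
    (hκ : O.valuation (κ m n l) ≤ O.valuation (((m.factorial * n.factorial : ℕ) : ℂ) * w)) :
    tm 1 1 3 κ N x 0 f m n l ∈ JW O w := by
  have hm : ((m.factorial * n.factorial : ℕ) : ℂ) ≠ 0 := by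
    exact_mod_cast mul_ne_zero (Nat.factorial_ne_zero m) (Nat.factorial_ne_zero n)
  apply JW_mk
  refine ⟨κ m n l / (((m.factorial * n.factorial : ℕ) : ℂ) * w) *
    muM 1 N x (0 + n + l) (fun s => ((∏ i ∈ Finset.range m, ((N : ℂ) - (s : ℂ) - (i : ℂ))) *
      ∏ i ∈ Finset.range n, ((s : ℂ) - (i : ℂ))) * f (s + (-n + l))), ?_, ?_⟩
  · rw [← ValuationSubring.valuation_le_one_iff, map_mul]
    exact mul_le_one' (val_div (mul_ne_zero hm hw) hκ)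
      (hn.mem _ _ (PO_mul (PO_desc O N m n) (PO_shift hf _)))
  · unfold tm
    have h1 : muM 1 N x (0 + n + l) (fun s => dmG 1 3 N m n s * f (s - n + l)) =
        (((m.factorial * n.factorial : ℕ) : ℂ))⁻¹ *
        muM 1 N x (0 + n + l) (fun s => ((∏ i ∈ Finset.range m, ((N : ℂ) - (s : ℂ) - (i : ℂ))) *
      ∏ i ∈ Finset.range n, ((s : ℂ) - (i : ℂ))) * f (s + (-n + l))) := by
      rw [← muM_mul]
      refine muM_cg fun s _ => ?_
      rw [dmG_one, show ((s : ℤ) - n + l) = (s : ℤ) + (-n + l) by ring]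
      ring
    rw [h1, one_pow]
    field_simp

/-- the congruence modulo `W p` -/
def CgQ (O : ValuationSubring ℂ) (N : ℕ) (x : ℕ → ℂ) (lam d W p : ℂ) : Prop :=
  ∀ (f : ℤ → ℂ), PO O f → ∃ z : ℂ, z ∈ O ∧
    lam * muM 1 N x 0 f =
      muM 1 N x 0 (fun s => (d + W * ((s : ℂ) ^ 2 - (N : ℂ) * (s : ℂ))) * f s) + p * W * z

private theorem PO_pow {g : ℤ → ℂ} (hg : PO O g) (n : ℕ) : PO O (fun s => g s ^ n) := by
  have h := PO_prod (f := fun _ => g) (fun _ => hg) n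
  simpa only [Finset.prod_const, Finset.card_range] using h

private theorem PO_pw (O : ValuationSubring ℂ) (n : ℕ) : PO O (fun s => (s : ℂ) ^ n) :=
  PO_pow PO_id n

private theorem PO_sig (O : ValuationSubring ℂ) (N : ℕ) :
    PO O (fun s => (N : ℂ) * (s : ℂ) - (s : ℂ) ^ 2) := by
  have h1 := PO_mul (PO_int O (N : ℤ)) (PO_id (O := O))
  have h2 := PO_mul (PO_int O (-1)) (PO_pw O 2)
  have h3 := PO_add h1 h2
  refine PO_cg h3 fun s => ?_
  push_cast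
  ring

/-- the general form: `S` the set of the pairs whose diagonal terms are collected, `R` the remainder of
the diagonal -/
theorem cgR (N : ℕ) (p W d : ℂ) (hpW : p * W ≠ 0) (κ : ℕ → ℕ → ℕ → ℂ)
    (deg : ∀ m n r, m + n < r → κ m n r = 0) (S : Finset (ℕ × ℕ))
    (big : ∀ m n r, r ≤ m + n → ((m, n) ∉ S ∨ r ≠ n) → O.valuation (κ m n r) ≤
      O.valuation (((m.factorial * n.factorial : ℕ) : ℂ) * (p * W)))
    (R : ℤ → ℂ) (hRO : PO O R)
    (diag : ∀ s : ℤ, ∑ q ∈ S, κ q.1 q.2 q.2 * dmG 1 3 N q.1 q.2 s =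
      d + W * ((s : ℂ) ^ 2 - (N : ℂ) * (s : ℂ)) + p * W * R s)
    (lam : ℂ) (x : ℕ → ℂ) (hE : EgG (MQ κ N) N lam x) (hn : NmM O 1 N x) :
    CgQ O N x lam d W p := by
  intro f hf
  rw [← MQ_eq] at hE
  obtain ⟨z, hz, h1⟩ := starD (Or.inl rfl) (by norm_num : (1 : ℂ) ^ 1 = 1) 3 κ deg N lam x hE 0 f
    (JW O (p * W)) S (fun m n l hl hmn => tm_W hn κ hf m n l _ hpW (big m n l hl hmn))
  obtain ⟨z', hz', hzz⟩ := JW_ex hz
  have hRm : muM 1 N x 0 (fun s => R s * f s) ∈ O :=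
    (O.valuation_le_one_iff _).1 (hn.mem _ _ (PO_mul hRO hf))
  refine ⟨z' + muM 1 N x 0 (fun s => R s * f s), add_mem hz' hRm, ?_⟩
  rw [h1, hzz]
  have e5 : muM 1 N x 0 (fun s => (∑ q ∈ S, κ q.1 q.2 q.2 * dmG 1 3 N q.1 q.2 s) * f s) =
      muM 1 N x 0 (fun s => (d + W * ((s : ℂ) ^ 2 - (N : ℂ) * (s : ℂ))) * f s) +
      muM 1 N x 0 (fun s => p * W * (R s * f s)) := by
    rw [← muM_add]
    refine muM_cg fun s _ => ?_
    rw [diag]
    ring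
  rw [e5, muM_mul]
  norm_num
  ring

theorem cgQ (N : ℕ) (p : ℂ) (κ : ℕ → ℕ → ℕ → ℂ) (hp0 : p ≠ 0) (h : DatQ O p κ) :
    ∃ d : ℂ, ∀ (lam : ℂ) (x : ℕ → ℂ),
      EgG (MQ κ N) N lam x → NmM O 1 N x → CgQ O N x lam d (κ 2 0 0 - κ 1 1 1) p := by
  set W := κ 2 0 0 - κ 1 1 1 with hWdef
  have hW0 : W ≠ 0 := h.hW
  have hpW : p * W ≠ 0 := mul_ne_zero hp0 hW0
  have hW2 : O.valuation (κ 3 0 0 / (2 * (p * W))) ≤ 1 :=
    val_div (mul_ne_zero two_ne_zero hpW) h.h300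
  have hW12 : O.valuation (κ 4 0 0 / (12 * (p * W))) ≤ 1 :=
    val_div (mul_ne_zero (by norm_num) hpW) h.h400
  -- the remainder of the diagonal
  set R : ℤ → ℂ := fun s =>
    κ 3 0 0 / (2 * (p * W)) * ((2 - (N : ℂ)) * ((N : ℂ) * (s : ℂ) - (s : ℂ) ^ 2)) +
    κ 4 0 0 / (12 * (p * W)) * ((((N : ℂ) * (s : ℂ) - (s : ℂ) ^ 2)) ^ 2 +
      (-2 * (N : ℂ) ^ 2 + 9 * N - 11) * ((N : ℂ) * (s : ℂ) - (s : ℂ) ^ 2)) with hR
  have hRO : PO O R := by
    have hs := PO_sig O N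
    have hc1 : PO O (fun _ => (2 - (N : ℂ))) :=
      PO_cg (PO_int O (2 - (N : ℤ))) fun s => by push_cast; ring
    have hc2 : PO O (fun _ => (-2 * (N : ℂ) ^ 2 + 9 * N - 11)) :=
      PO_cg (PO_int O (-2 * (N : ℤ) ^ 2 + 9 * N - 11)) fun s => by push_cast; ring
    exact PO_add (PO_mul (PO_const _ hW2) (PO_mul hc1 hs))
      (PO_mul (PO_const _ hW12) (PO_add (PO_pow hs 2) (PO_mul hc2 hs)))
  refine ⟨κ 0 0 0 + κ 1 0 0 * N + κ 2 0 0 * (N * (N - 1) / 2) + κ 3 0 0 * (N * (N - 1) * (N - 2) / 6) +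
    κ 4 0 0 * (N * (N - 1) * (N - 2) * (N - 3) / 24), fun lam x hE hn =>
    cgR N p W _ hpW κ h.deg {(0, 0), (1, 0), (0, 1), (2, 0), (1, 1), (0, 2), (3, 0), (0, 3), (4, 0), (0, 4)}
      ?_ R hRO ?_ lam x hE hn⟩
  · intro m n l hl hmn
    refine h.big m n l ?_ ?_ ?_ ?_ ?_
    · rcases hmn with hmn | hmn
      · right
        by_contra h3
        apply hmn
        have : (m = 0 ∧ n = 0) ∨ (m = 1 ∧ n = 0) ∨ (m = 0 ∧ n = 1) ∨ (m = 2 ∧ n = 0) ∨
          (m = 1 ∧ n = 1) ∨ (m = 0 ∧ n = 2) := by omega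
        rcases this with ⟨rfl, rfl⟩ | ⟨rfl, rfl⟩ | ⟨rfl, rfl⟩ | ⟨rfl, rfl⟩ | ⟨rfl, rfl⟩ |
          ⟨rfl, rfl⟩ <;> simp
      · exact Or.inl hmn
    · rintro ⟨rfl, rfl, rfl⟩
      rcases hmn with hmn | hmn
      · exact hmn (by simp)
      · exact hmn rfl
    · rintro ⟨rfl, rfl, rfl⟩
      rcases hmn with hmn | hmn
      · exact hmn (by simp)
      · exact hmn rfl
    · rintro ⟨rfl, rfl, rfl⟩
      rcases hmn with hmn | hmn
      · exact hmn (by simp)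
      · exact hmn rfl
    · rintro ⟨rfl, rfl, rfl⟩
      rcases hmn with hmn | hmn
      · exact hmn (by simp)
      · exact hmn rfl
  · intro s
    have hRp : p * W * R s = κ 3 0 0 / 2 * ((2 - (N : ℂ)) * ((N : ℂ) * (s : ℂ) - (s : ℂ) ^ 2)) +
      κ 4 0 0 / 12 * ((((N : ℂ) * (s : ℂ) - (s : ℂ) ^ 2)) ^ 2 +
      (-2 * (N : ℂ) ^ 2 + 9 * N - 11) * ((N : ℂ) * (s : ℂ) - (s : ℂ) ^ 2)) := by
      rw [hR]
      field_simp
    rw [hRp]
    rw [Finset.sum_insert (by decide), Finset.sum_insert (by decide),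
      Finset.sum_insert (by decide), Finset.sum_insert (by decide),
      Finset.sum_insert (by decide), Finset.sum_insert (by decide),
      Finset.sum_insert (by decide), Finset.sum_insert (by decide),
      Finset.sum_insert (by decide), Finset.sum_singleton]
    simp only [dmG_one, Finset.prod_range_succ, Finset.prod_range_zero, Nat.factorial, h.h011, h.h022,
      h.h033, h.h044, hWdef]
    push_cast
    ring

/-- without exceptional pairs -/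
theorem cgS (N : ℕ) (p : ℂ) (κ : ℕ → ℕ → ℕ → ℂ) (hp0 : p ≠ 0) (hW0 : κ 2 0 0 - κ 1 1 1 ≠ 0)
    (deg : ∀ m n r, m + n < r → κ m n r = 0) (h011 : κ 0 1 1 = κ 1 0 0) (h022 : κ 0 2 2 = κ 2 0 0)
    (big : ∀ m n r, (r ≠ n ∨ 3 ≤ m + n) → O.valuation (κ m n r) ≤
      O.valuation (((m.factorial * n.factorial : ℕ) : ℂ) * (p * (κ 2 0 0 - κ 1 1 1)))) :
    ∃ d : ℂ, ∀ (lam : ℂ) (x : ℕ → ℂ),
      EgG (MQ κ N) N lam x → NmM O 1 N x → CgQ O N x lam d (κ 2 0 0 - κ 1 1 1) p := by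
  set W := κ 2 0 0 - κ 1 1 1 with hWdef
  have hpW : p * W ≠ 0 := mul_ne_zero hp0 hW0
  refine ⟨κ 0 0 0 + κ 1 0 0 * N + κ 2 0 0 * (N * (N - 1) / 2), fun lam x hE hn =>
    cgR N p W _ hpW κ deg {(0, 0), (1, 0), (0, 1), (2, 0), (1, 1), (0, 2)}
      ?_ (fun _ => 0) (PO_const 0 (by rw [map_zero]; exact zero_le_one)) ?_ lam x hE hn⟩
  · intro m n l hl hmn
    refine big m n l ?_
    rcases hmn with hmn | hmn
    · right
      by_contra h3
      apply hmn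
      have : (m = 0 ∧ n = 0) ∨ (m = 1 ∧ n = 0) ∨ (m = 0 ∧ n = 1) ∨ (m = 2 ∧ n = 0) ∨
        (m = 1 ∧ n = 1) ∨ (m = 0 ∧ n = 2) := by omega
      rcases this with ⟨rfl, rfl⟩ | ⟨rfl, rfl⟩ | ⟨rfl, rfl⟩ | ⟨rfl, rfl⟩ | ⟨rfl, rfl⟩ |
        ⟨rfl, rfl⟩ <;> simp
    · exact Or.inl hmn
  · intro s
    rw [Finset.sum_insert (by decide), Finset.sum_insert (by decide),
      Finset.sum_insert (by decide), Finset.sum_insert (by decide),
      Finset.sum_insert (by decide), Finset.sum_singleton]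
    simp only [dmG_one, Finset.prod_range_succ, Finset.prod_range_zero, Nat.factorial, h011, h022, hWdef]
    push_cast
    ring

theorem finQ (N : ℕ) (lam d W p : ℂ) (hp : O.valuation p < 1) (hW : W ≠ 0)
    (x : ℕ → ℂ) (hn : NmM O 1 N x) (hc : CgQ O N x lam d W p)
    (hx0 : muM 1 N x 0 (fun _ => 1) = 0) (hx1 : muM 1 N x 0 (fun s => (s : ℂ)) = 0) : False := by
  have hvW : O.valuation W ≠ 0 := (map_ne_zero _).mpr hW
  -- the unit
  obtain ⟨π', n0, hu⟩ := hn.unit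
  have hu' : O.valuation (muM 1 N x 0 fun s => (s : ℂ) ^ n0) = 1 := by
    rw [← hu]
    congr 1
    exact muM_mod _ (by simp [Nat.mod_one])
  -- the congruence for powers
  have hpow : ∀ n : ℕ, ∃ z : ℂ, O.valuation z ≤ 1 ∧
      (lam - d) * muM 1 N x 0 (fun s => (s : ℂ) ^ n) =
        W * (muM 1 N x 0 (fun s => (s : ℂ) ^ (n + 2)) -
          N * muM 1 N x 0 (fun s => (s : ℂ) ^ (n + 1))) + p * W * z := by
    intro n
    obtain ⟨z, hz, h⟩ := hc _ (PO_pw O n)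
    refine ⟨z, (O.valuation_le_one_iff z).2 hz, ?_⟩
    have e1 : muM 1 N x 0 (fun s => (d + W * ((s : ℂ) ^ 2 - (N : ℂ) * (s : ℂ))) * (s : ℂ) ^ n) =
        d * muM 1 N x 0 (fun s => (s : ℂ) ^ n) +
          W * (muM 1 N x 0 (fun s => (s : ℂ) ^ (n + 2)) -
          N * muM 1 N x 0 (fun s => (s : ℂ) ^ (n + 1))) := by
      have e2 : muM 1 N x 0 (fun s => (d + W * ((s : ℂ) ^ 2 - (N : ℂ) * (s : ℂ))) *
          (s : ℂ) ^ n) = muM 1 N x 0 (fun s => d * (s : ℂ) ^ n + (W * (s : ℂ) ^ (n + 2) +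
            (-(W * N)) * (s : ℂ) ^ (n + 1))) := by
        refine muM_cg fun s _ => ?_
        ring
      rw [e2, muM_add (fun s => d * (s : ℂ) ^ n) (fun s => W * (s : ℂ) ^ (n + 2) +
            (-(W * N)) * (s : ℂ) ^ (n + 1)), muM_add (fun s => W * (s : ℂ) ^ (n + 2))
            (fun s => (-(W * N)) * (s : ℂ) ^ (n + 1)), muM_mul, muM_mul, muM_mul]
      ring
    rw [e1] at h
    linear_combination h
  have iN : O.valuation (N : ℂ) ≤ 1 := by
    have := int_mem O (N : ℤ)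
    simpa using this
  -- `lam - d` is divisible by `W`
  obtain ⟨τ, hτ⟩ : ∃ τ : ℂ, lam - d = W * τ := ⟨(lam - d) / W, by field_simp⟩
  have hτp : ∀ n : ℕ, ∃ z : ℂ, O.valuation z ≤ 1 ∧
      τ * muM 1 N x 0 (fun s => (s : ℂ) ^ n) =
        (muM 1 N x 0 (fun s => (s : ℂ) ^ (n + 2)) -
          N * muM 1 N x 0 (fun s => (s : ℂ) ^ (n + 1))) + p * z := by
    intro n
    obtain ⟨z, hz, h⟩ := hpow n
    refine ⟨z, hz, mul_left_cancel₀ hW ?_⟩
    rw [hτ] at h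
    linear_combination h
  have hτv : O.valuation τ ≤ 1 := by
    obtain ⟨z, hz, h⟩ := hτp n0
    have h1 : O.valuation (τ * muM 1 N x 0 (fun s => (s : ℂ) ^ n0)) = O.valuation τ := by
      rw [map_mul, hu', mul_one]
    rw [← h1, h]
    refine Valuation.map_add_le _ ?_ ?_
    · refine Valuation.map_sub_le _ (hn.mem _ _ (PO_pw O _)) ?_
      rw [map_mul]
      exact mul_le_one' iN (hn.mem _ _ (PO_pw O _))
    · rw [map_mul]
      exact mul_le_one' hp.le hz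
  have hstep : ∀ n : ℕ, O.valuation (muM 1 N x 0 (fun s => (s : ℂ) ^ n)) ≤ O.valuation p →
      O.valuation (muM 1 N x 0 (fun s => (s : ℂ) ^ (n + 1))) ≤ O.valuation p →
      O.valuation (muM 1 N x 0 (fun s => (s : ℂ) ^ (n + 2))) ≤ O.valuation p := by
    intro n e0 e1
    obtain ⟨z, hz, h⟩ := hτp n
    set A := muM 1 N x 0 (fun s => (s : ℂ) ^ n)
    set B := muM 1 N x 0 (fun s => (s : ℂ) ^ (n + 1))
    set C := muM 1 N x 0 (fun s => (s : ℂ) ^ (n + 2))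
    have h11 : C = N * B + τ * A - p * z := by
      linear_combination -h
    rw [h11]
    refine Valuation.map_sub_le _ (Valuation.map_add_le _ ?_ ?_) ?_
    · rw [map_mul]
      exact (mul_le_mul' iN e1).trans (one_mul _).le
    · rw [map_mul]
      exact (mul_le_mul' hτv e0).trans (one_mul _).le
    · rw [map_mul]
      exact (mul_le_mul_right hz _).trans (mul_one _).le
  have hall : ∀ n : ℕ, O.valuation (muM 1 N x 0 (fun s => (s : ℂ) ^ n)) ≤ O.valuation p ∧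
      O.valuation (muM 1 N x 0 (fun s => (s : ℂ) ^ (n + 1))) ≤ O.valuation p := by
    intro n
    induction n with
    | zero =>
      constructor
      · have h5 : muM 1 N x 0 (fun s => (s : ℂ) ^ 0) = 0 := by
          simp only [pow_zero]
          exact hx0
        rw [h5, map_zero]
        exact zero_le
      · have h5 : muM 1 N x 0 (fun s => (s : ℂ) ^ (0 + 1)) = 0 := by
          simp only [zero_add, pow_one]
          exact hx1
        rw [h5, map_zero]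
        exact zero_le
    | succ n ih => exact ⟨ih.2, hstep n ih.1 ih.2⟩
  have := (hall n0).1
  rw [hu'] at this
  exact absurd hp (not_lt.2 this)

theorem twoQ (O : ValuationSubring ℂ) (N : ℕ) (p : ℂ) (hp : p ≠ 0)
    (κ : ℕ → ℕ → ℕ → ℂ) (h : DatQ O p κ) : Two (MQ κ N) N := by
  intro lam
  obtain ⟨d, hc⟩ := cgQ N p κ hp h
  exact twoKey 1 (by norm_num) N lam 0 0 _ _ fun y hy hE h1 h2 =>
    finQ N lam d _ p h.hp h.hW y hy (hc lam y hE hy) h1 h2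

theorem twoS' (O : ValuationSubring ℂ) (N : ℕ) (p : ℂ) (κ : ℕ → ℕ → ℕ → ℂ) (hp0 : p ≠ 0)
    (hp : O.valuation p < 1) (hW0 : κ 2 0 0 - κ 1 1 1 ≠ 0)
    (deg : ∀ m n r, m + n < r → κ m n r = 0) (h011 : κ 0 1 1 = κ 1 0 0) (h022 : κ 0 2 2 = κ 2 0 0)
    (big : ∀ m n r, (r ≠ n ∨ 3 ≤ m + n) → O.valuation (κ m n r) ≤
      O.valuation (((m.factorial * n.factorial : ℕ) : ℂ) * (p * (κ 2 0 0 - κ 1 1 1)))) :
    Two (MQ κ N) N := by
  intro lam
  obtain ⟨d, hc⟩ := cgS N p κ hp0 hW0 deg h011 h022 big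
  exact twoKey 1 (by norm_num) N lam 0 0 _ _ fun y hy hE h1 h2 =>
    finQ N lam d _ p hp hW0 y hy (hc lam y hE hy) h1 h2

end Pool.Agent.Lib.MP_06b9d2_tls
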