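import Pool.Agent.Lib.MP_06b9d2_tls.PcMat
import Pool.Agent.Lib.MP_06b9d2_tls.DatC
import Pool.Agent.Lib.MP_06b9d2_tls.CoreS
import Pool.Agent.Lib.MP_06b9d2_tls.PrZ

/-!
Board TLS, `l ≡ 8, 17` modulo `27`: what is used about the prime `l` for the operators `T_(l^j)` (as PrL).
-/

namespace Pool.Agent.Lib.MP_06b9d2_tls

open PowerSeries Pool.Agent.L1 Pool.Agent.Lib.MP_06b9d2_ssp

private theorem two_scale {Mx My : ℕ → ℕ → ℂ} {N : ℕ} (r : ℂ) (hr : r ≠ 0)
    (h : ∀ j ≤ N, ∀ s ≤ N, Mx j s = r * My j s) (hy : TwoPm My N) : TwoPm Mx N := by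
  have key : ∀ (lam : ℂ) (x : ℕ → ℂ), EgG Mx N lam x → EgG My N (lam / r) x := by
    intro lam x hx j hj
    have h1 := hx j hj
    have h2 : ∑ s ∈ Finset.range (N + 1), Mx j s * x s =
        r * ∑ s ∈ Finset.range (N + 1), My j s * x s := by
      rw [Finset.mul_sum]
      refine Finset.sum_congr rfl fun s hs => ?_
      rw [h j hj s (Nat.lt_succ_iff.1 (Finset.mem_range.1 hs))]
      ring
    rw [h2] at h1
    apply mul_left_cancel₀ hr
    rw [h1, ← mul_assoc, mul_div_cancel₀ _ hr]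
  intro lam
  obtain ⟨L, hL⟩ := hy (lam / r)
  refine ⟨L, fun x y hx hy' hxs hys h0 => hL x y (key _ _ hx) ?_ hxs hys h0⟩
  rw [← neg_div]
  exact key _ _ hy'

private theorem MG_ninth (e c : ℂ) (κ : ℕ → ℕ → ℕ → ℂ) (N j s : ℕ) :
    MG e c κ N j s = 9 * MG e c (fun m n r => κ m n r / 9) N j s := by
  unfold MG
  rw [Finset.mul_sum]
  refine Finset.sum_congr rfl fun m _ => ?_
  rw [Finset.mul_sum]
  refine Finset.sum_congr rfl fun n _ => ?_
  split_ifs
  · ring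
  · ring

private theorem map_e4 : PowerSeries.map (Int.castRingHom ℂ) (e4 ℤ) = e4 ℂ := by
  unfold e4
  ext n
  simp

private theorem map_e6 : PowerSeries.map (Int.castRingHom ℂ) (e6 ℤ) = e6 ℂ := by
  unfold e6
  ext n
  simp

private theorem V_mo {A Y : ℂ⟦X⟧} {a k c : ℤ⟦X⟧} (q : Qd A Y a k c) (ε N s : ℕ) :
    V 3 (mo (PowerSeries.map (Int.castRingHom ℂ) a) (PowerSeries.map (Int.castRingHom ℂ) c) ε N s) =
      moX A Y ε N s := by
  have h3 : (3 : ℕ) ≠ 0 := three_ne_zero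
  unfold mo moX
  rw [V_mul h3, V_mul h3, V_pow h3, V_pow h3, V_pow h3, V_sub h3, V_pow h3, ← q.hA, ← q.hY3]

private theorem TT_Tl {l : ℕ} (hl : l ≠ 0) {e : ℂ} (he : e ^ 2 = 1) {w : ℕ} (hw : Even w) (f : ℂ⟦X⟧) :
    TT l e w f = (l : ℂ) • Tl l w f := by
  obtain ⟨v, rfl⟩ := hw
  have h1 : (e * l) ^ (v + v) = (l : ℂ) ^ (v + v) := by
    rw [mul_pow, ← two_mul, pow_mul, he, one_pow, one_mul]
  have h2 : (l : ℂ) ≠ 0 := by exact_mod_cast hl
  rw [TT, Tl, h1, smul_add, smul_smul, mul_div_cancel₀ _ h2]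

theorem hypM_l9 (l : ℕ) (hl : l.Prime) (h27 : l % 27 = 8 ∨ l % 27 = 17) :
    HypM l := by
  obtain ⟨A, Y, h⟩ := core_ex
  obtain ⟨a, k, c, q⟩ := qd_ex h
  obtain ⟨O, h3⟩ := exists_O
  have hl0 : (l : ℂ) ≠ 0 := by exact_mod_cast hl.ne_zero
  have hl3 : l ≠ 3 := by
    rintro rfl
    omega
  have hlv : O.valuation (l : ℂ) = 1 := by
    have := val_int h3 (l : ℤ) (by omega)
    simpa using this
  -- the sign
  obtain ⟨e, s0, hPL, he1⟩ : ∃ e s0 : ℂ, PL l e s0 ∧ e = -1 :=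
    ⟨-1, om ^ 2, ⟨hl, Or.inr ⟨by omega, rfl, rfl⟩⟩, rfl⟩
  have he := e_sq hPL
  have hc := cl_ne hPL
  have he0 : e ≠ 0 := by
    rintro rfl
    norm_num at he
  obtain ⟨M, hM⟩ := matD_ex h hPL
  refine ⟨O, PowerSeries.map (Int.castRingHom ℂ) a, PowerSeries.map (Int.castRingHom ℂ) c, h3,
    ⟨?_, ?_, ?_⟩, ?_⟩
  · rw [← PowerSeries.coeff_zero_eq_constantCoeff_apply, PowerSeries.coeff_map,
      PowerSeries.coeff_zero_eq_constantCoeff_apply, q.a0]
    simp
  · rw [← map_e4, q.h4]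
    simp only [map_mul, map_add, map_pow, map_ofNat]
  · rw [← map_e6, q.h6]
    simp only [map_mul, map_sub, map_pow, map_ofNat]
  intro ε N hε hN
  have : Fact (ε < 3) := ⟨by omega⟩
  have hk : Even (3 * N + ε) := by
    rw [Nat.even_iff] at hN ⊢
    omega
  refine ⟨fun j s => M ε N j s / l, ?_, ?_, ?_⟩
  · intro s hs
    have h1 : V 3 (TT l e (3 * N + ε) (mo (PowerSeries.map (Int.castRingHom ℂ) a)
        (PowerSeries.map (Int.castRingHom ℂ) c) ε N s)) =
        V 3 (∑ j ∈ Finset.range (N + 1), M ε N j s • mo (PowerSeries.map (Int.castRingHom ℂ) a)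
        (PowerSeries.map (Int.castRingHom ℂ) c) ε N j) := by
      rw [← TT_V3 hl hl3, V_mo q, hM.eq ε N s hs, V_sum three_ne_zero]
      refine Finset.sum_congr rfl fun j _ => ?_
      rw [V_smul three_ne_zero, V_mo q]
    have h2 := V_inj three_ne_zero h1
    rw [TT_Tl hl.ne_zero he hk] at h2
    have h3 := congrArg (fun f => (l : ℂ)⁻¹ • f) h2
    simp only [smul_smul, inv_mul_cancel₀ hl0, one_smul, Finset.smul_sum] at h3
    rw [h3]
    refine Finset.sum_congr rfl fun j _ => ?_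
    simp only [div_eq_inv_mul]
  · intro j s hj hs
    have h1 : e ^ (ε + N) = 1 := by
      obtain ⟨v, hv⟩ := hN
      rw [show ε + N = 2 * v by omega, pow_mul, he, one_pow]
    simp only
    rw [hM.sym ε N j s hj hs, h1, one_mul]
  · have hr : (e * cl l e) ^ N / l ≠ 0 := div_ne_zero (pow_ne_zero _ (mul_ne_zero he0 hc)) hl0
    subst he1
    left
    have hr3 : (-1 * cl l (-1)) ^ N / l * 9 ≠ 0 := mul_ne_zero hr (by norm_num)
    have key : ∀ j ≤ N, ∀ s ≤ N, M ε N j s / l = (-1 * cl l (-1)) ^ N / l * 9 *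
        MG (-1) (cl l (-1)) (fun m n r => pc (-1) (cl l (-1)) M ε m n r / 9) N j s := by
      intro j hj s hs
      rw [pc_mat h hPL hM ε N j s hj hs, MG_ninth]
      ring
    have h93 : O.valuation 9 ≤ O.valuation 3 := by
      have h1 : (9 : ℂ) = 3 * 3 := by norm_num
      rw [h1, map_mul]
      exact mul_le_of_le_one_left' h3.le
    have hint : ∀ (hcv : O.valuation (cl l (-1)) = 1)
        (hκ : ∀ m n r, O.valuation (pc (-1) (cl l (-1)) M ε m n r / 9) ≤ 1),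
        ∀ j ≤ N, ∀ s ≤ N, O.valuation (M ε N j s / l) ≤ O.valuation 3 := by
      intro hcv hκ j hj s hs
      rw [key j hj s hs, map_mul, map_mul, map_div₀, map_pow, map_mul, v_neg_one, hcv, hlv, one_mul,
        one_pow, div_one, one_mul]
      calc O.valuation 9 * _ ≤ O.valuation 9 * 1 :=
            mul_le_mul' le_rfl (MG_int h3 (v_neg_one O) hcv hκ N j s)
        _ = O.valuation 9 := mul_one _
        _ ≤ O.valuation 3 := h93
    rcases (show ε = 1 ∨ ε = 0 ∨ ε = 2 by omega) with rfl | h02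
    · have hD := datM19 h h3 hPL h27 hM
      exact ⟨two_scale _ hr3 key (twoPm1 O h3 N _ _ hD), hint hD.hc hD.int⟩
    · have hD := datM9 h h3 hPL h27 hM ε h02
      exact ⟨two_scale _ hr3 key (twoPm O h3 N _ _ hD), hint hD.hc hD.int⟩

end Pool.Agent.Lib.MP_06b9d2_tls
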