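import Pool.Agent.Lib.MP_06b9d2_tls.Vb

/-!
Module TLS-Br. The branches.

`ζ = exp (2 π i / l)`. `br_sum0`: coefficient `n`: `∑_{b < l} ζ ^ (b n) = l` if `l ∣ n`, `0` otherwise (`IsPrimitiveRoot`,
`Complex.isPrimitiveRoot_exp`, `IsPrimitiveRoot.geom_sum_eq_zero` applied to `ζ ^ n`), `coeff n (rescale r f) = r ^ n * coeff n f`, `V l (V l f) = V (l ^ 2) f`.
`br_hom`: for `some b` both sides: `rescale` is a ring homomorphism and `ℂ`-linear (`MvPolynomial.aeval` and algebra homomorphisms: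
`MvPolynomial.comp_aeval` or induction); for `none`: `P` homogeneous of degree `w`:
`aeval ![r • F, r • G] P = r ^ w • aeval ![F, G] P` (a sum of monomials of degree `w`; `MvPolynomial.IsHomogeneous` lemmas, or
`MvPolynomial.aeval_def`, `eval₂` and `Finsupp.degree`), and `V (l ^ 2)` is an algebra homomorphism (`V_eq`).
`br_sum`: from the two. `br_V3`: `br l e (some b) (V 3 f) = V 3 (br l e (some b') f)` with `b' = 3 b` modulo `l` (`coeff`: `ζ ^ (b n)` for `3 ∣ n` is
`ζ ^ (3 b (n / 3))`), `br l e none (V 3 f) = V 3 (br l e none f)`; `b ↦ 3 b` is a bijection of `Fin l` (`l` prime, `l ≠ 3`):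
`Equiv.sum_comp`.
-/

namespace Pool.Agent.Lib.MP_06b9d2_tls

open PowerSeries Pool.Agent.L1

private theorem exp_eq (l b : ℕ) :
    Complex.exp (2 * Real.pi * Complex.I * (b : ℕ) / l) = Complex.exp (2 * Real.pi * Complex.I / l) ^ b := by
  rw [← Complex.exp_nat_mul]
  congr 1
  ring

private theorem root_sum (l : ℕ) (hl : l ≠ 0) (n : ℕ) :
    ∑ b : Fin l, (Complex.exp (2 * Real.pi * Complex.I * ((b : ℕ) : ℂ) / l)) ^ n = if l ∣ n then (l : ℂ) else 0 := by
  have hζ := Complex.isPrimitiveRoot_exp l hl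
  have h1 : ∀ b : Fin l, (Complex.exp (2 * Real.pi * Complex.I * ((b : ℕ) : ℂ) / l)) ^ n =
      (Complex.exp (2 * Real.pi * Complex.I / l) ^ n) ^ (b : ℕ) := by
    intro b
    rw [exp_eq, ← pow_mul, ← pow_mul, mul_comm (b : ℕ) n]
  rw [Finset.sum_congr rfl (fun b _ => h1 b), Fin.sum_univ_eq_sum_range
    (fun b => (Complex.exp (2 * Real.pi * Complex.I / l) ^ n) ^ b)]
  split_ifs with h
  · rw [(hζ.pow_eq_one_iff_dvd n).2 h]
    simp
  · have hne : Complex.exp (2 * Real.pi * Complex.I / l) ^ n ≠ 1 := fun h' => h ((hζ.pow_eq_one_iff_dvd n).1 h')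
    rw [geom_sum_eq hne, ← pow_mul, mul_comm n l, pow_mul, hζ.pow_eq_one, one_pow, sub_self, zero_div]

theorem br_sum0 (l : ℕ) (hl : l ≠ 0) (e : ℂ) (w : ℕ) (f : ℂ⟦X⟧) :
    V l (TT l e w f) = ∑ b : Fin l, br l e (some b) f + ((e * l) ^ w) • V (l ^ 2) f := by
  have h0 : TT l e w f = (l : ℂ) • U l f + ((e * l) ^ w) • V l f := rfl
  rw [h0, V_add hl, V_smul hl, V_smul hl, V_V hl hl, ← pow_two]
  congr 1
  ext n
  rw [map_sum]
  have h1 : ∀ b : Fin l, coeff n (br l e (some b) f) =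
      (Complex.exp (2 * Real.pi * Complex.I * ((b : ℕ) : ℂ) / l)) ^ n * coeff n f := by
    intro b
    simp only [br, PowerSeries.coeff_rescale]
  rw [Finset.sum_congr rfl (fun b _ => h1 b), ← Finset.sum_mul, root_sum l hl n, PowerSeries.coeff_smul,
    V_coeff, smul_eq_mul]
  split_ifs with h
  · congr 1
    simp only [U, PowerSeries.coeff_mk]
    rw [Nat.mul_div_cancel' h]
  · simp

theorem hom_smul (w : ℕ) (r : ℂ) (F G : ℂ⟦X⟧) (P : MvPolynomial (Fin 2) ℂ) (hP : P.IsHomogeneous w) :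
    MvPolynomial.aeval ![r • F, r • G] P = r ^ w • MvPolynomial.aeval ![F, G] P := by
  have h0 : (![r • F, r • G] : Fin 2 → ℂ⟦X⟧) = fun i => r • (![F, G] : Fin 2 → ℂ⟦X⟧) i := by
    funext i
    fin_cases i <;> simp
  rw [h0]
  simp only [MvPolynomial.aeval_def, MvPolynomial.eval₂_eq', Finset.smul_sum]
  refine Finset.sum_congr rfl (fun d hd => ?_)
  have hdeg : ∑ i, d i = w := by
    have := hP (MvPolynomial.mem_support_iff.1 hd)
    rw [← this, Finsupp.weight_apply, Finsupp.sum_fintype]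
    · simp
    · simp
  simp only [smul_pow, Fin.prod_univ_two, ← hdeg, Fin.sum_univ_two, pow_add]
  simp only [Algebra.smul_def, map_mul]
  ring

private theorem br_hom (l : ℕ) (e : ℂ) (A Y : ℂ⟦X⟧) (P : MvPolynomial (Fin 2) ℂ) (b : Fin l) :
    MvPolynomial.aeval ![br l e (some b) A, br l e (some b) Y] P = br l e (some b) (MvPolynomial.aeval ![A, Y] P) := by
  simp only [br]
  generalize Complex.exp (2 * Real.pi * Complex.I * (b : ℕ) / l) = r
  induction P using MvPolynomial.induction_on with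
  | C a =>
    simp only [MvPolynomial.aeval_C]
    ext n
    simp only [PowerSeries.algebraMap_apply, Algebra.algebraMap_self, RingHom.id_apply, PowerSeries.coeff_rescale,
      PowerSeries.coeff_C]
    split_ifs with h
    · simp [h]
    · simp
  | add p q hp hq => simp only [map_add, hp, hq]
  | mul_X p i hp =>
    simp only [map_mul, hp, MvPolynomial.aeval_X]
    congr 1
    fin_cases i <;> simp

private theorem V_hom (n : ℕ) (hn : n ≠ 0) (A Y : ℂ⟦X⟧) (P : MvPolynomial (Fin 2) ℂ) :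
    MvPolynomial.aeval ![V n A, V n Y] P = V n (MvPolynomial.aeval ![A, Y] P) := by
  induction P using MvPolynomial.induction_on with
  | C a =>
    simp only [MvPolynomial.aeval_C]
    simp only [PowerSeries.algebraMap_apply, Algebra.algebraMap_self, RingHom.id_apply]
    rw [V_C hn]
  | add p q hp hq => simp only [map_add, hp, hq, V_add hn]
  | mul_X p i hp =>
    simp only [map_mul, hp, MvPolynomial.aeval_X, V_mul hn]
    congr 1
    fin_cases i <;> simp

theorem br_sum (l : ℕ) (hl : l ≠ 0) (e : ℂ) (w : ℕ) (A Y : ℂ⟦X⟧) (P : MvPolynomial (Fin 2) ℂ)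
    (hP : P.IsHomogeneous w) :
    ∑ i : Option (Fin l), MvPolynomial.aeval ![br l e i A, br l e i Y] P =
      V l (TT l e w (MvPolynomial.aeval ![A, Y] P)) := by
  rw [br_sum0 l hl, Fintype.sum_option, add_comm]
  congr 1
  · exact Finset.sum_congr rfl (fun b _ => br_hom l e A Y P b)
  · have h1 : MvPolynomial.aeval ![br l e none A, br l e none Y] P =
        MvPolynomial.aeval ![(e * l) • V (l ^ 2) A, (e * l) • V (l ^ 2) Y] P := rfl
    rw [h1, hom_smul w _ _ _ P hP, V_hom _ (pow_ne_zero 2 hl)]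

theorem br_V3 (l : ℕ) (hl : l.Prime) (h3 : l ≠ 3) (e : ℂ) (f g : ℂ⟦X⟧) (Φ : ℂ⟦X⟧ → ℂ⟦X⟧ → ℂ⟦X⟧) :
    ∑ i : Option (Fin l), Φ (br l e i (V 3 f)) (br l e i (V 3 g)) =
      ∑ i : Option (Fin l), Φ (V 3 (br l e i f)) (V 3 (br l e i g)) := by
  have hl0 : l ≠ 0 := hl.ne_zero
  have hn : ∀ f : ℂ⟦X⟧, br l e none (V 3 f) = V 3 (br l e none f) := by
    intro f
    simp only [br]
    rw [V_smul (by norm_num), V_V (pow_ne_zero 2 hl0) (by norm_num), V_V (by norm_num) (pow_ne_zero 2 hl0),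
      mul_comm (l ^ 2) 3]
  let σ : Fin l → Fin l := fun b => ⟨(3 * (b : ℕ)) % l, Nat.mod_lt _ hl.pos⟩
  have hσ : Function.Bijective σ := by
    rw [← Finite.injective_iff_bijective]
    intro b c hbc
    have h1 : (3 * (b : ℕ)) % l = (3 * (c : ℕ)) % l := by
      have := congrArg Fin.val hbc
      simpa [σ] using this
    have h2 : (3 * (b : ℕ)) ≡ (3 * (c : ℕ)) [MOD l] := h1
    have hcop : Nat.gcd l 3 = 1 := by
      rw [← Nat.coprime_iff_gcd_eq_one]
      exact (Nat.coprime_primes hl Nat.prime_three).2 h3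
    have h4 : (b : ℕ) ≡ (c : ℕ) [MOD l] := Nat.ModEq.cancel_left_of_coprime hcop h2
    have h5 : (b : ℕ) = (c : ℕ) := by
      have := h4
      unfold Nat.ModEq at this
      rwa [Nat.mod_eq_of_lt b.2, Nat.mod_eq_of_lt c.2] at this
    exact Fin.ext h5
  have hs : ∀ (b : Fin l) (f : ℂ⟦X⟧), br l e (some b) (V 3 f) = V 3 (br l e (some (σ b)) f) := by
    intro b f
    have hζ := Complex.isPrimitiveRoot_exp l hl0
    ext n
    simp only [br, V_coeff, PowerSeries.coeff_rescale]
    split_ifs with h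
    · congr 1
      obtain ⟨m, rfl⟩ := h
      rw [Nat.mul_div_cancel_left m (by norm_num), exp_eq, exp_eq, pow_mul]
      congr 1
      rw [← pow_mul]
      have : ((σ b : Fin l) : ℕ) = (3 * (b : ℕ)) % l := rfl
      rw [this, mul_comm (b : ℕ) 3]
      exact pow_eq_pow_mod _ hζ.pow_eq_one
    · simp
  rw [Fintype.sum_option, Fintype.sum_option, hn f, hn g]
  congr 1
  refine (Finset.sum_congr rfl (fun b _ => by rw [hs, hs])).trans
    (hσ.sum_comp (fun b => Φ (V 3 (br l e (some b) f)) (V 3 (br l e (some b) g))))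

theorem br_add (l : ℕ) (e : ℂ) (i : Option (Fin l)) (f g : ℂ⟦X⟧) : br l e i (f + g) = br l e i f + br l e i g := by
  cases i with
  | none =>
    simp only [br]
    by_cases hl : l = 0
    · subst hl
      simp
    · rw [V_add (pow_ne_zero 2 hl), smul_add]
  | some b => simp only [br, map_add]

theorem br_smul (l : ℕ) (e : ℂ) (i : Option (Fin l)) (r : ℂ) (f : ℂ⟦X⟧) : br l e i (r • f) = r • br l e i f := by
  cases i with
  | none =>
    simp only [br]
    by_cases hl : l = 0
    · subst hl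
      simp
    · rw [V_smul (pow_ne_zero 2 hl), smul_comm]
  | some b =>
    simp only [br]
    ext n
    simp only [PowerSeries.coeff_rescale, PowerSeries.coeff_smul, smul_eq_mul]
    ring

end Pool.Agent.Lib.MP_06b9d2_tls
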