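import Pool.Agent.Lib.MP_06b9d2_tls.Val

/-!
Module TLS-PCm. Contents of power series.

`In_mul`: the coefficients of a product are sums of products (`coeff_mul`, `Valuation.map_sum_le`). `PC_mul`: if `v c = 0` then `F = 0`, so `F G = 0`, trivial; the same for `d`.
Otherwise let `n₀` be the least index with `v (coeff n₀ F) = v c` (`Nat.find`), `m₀` the least with `v (coeff m₀ G) = v d`. In the coefficient `n₀ + m₀` of `F G` the term
`(n₀, m₀)` has valuation `v c v d`, all the others are strictly smaller (one of the indices is smaller than `n₀` or `m₀`, there the valuation is `<`);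
`Valuation.map_add_eq_of_lt_left` and `Valuation.map_sum_lt`. `PC_prod`: induction. `PC_lin`: the constant coefficient of `α • A + β • Y` is `α`; for `n ≠ 0` the coefficient is
`α coeff n (A - 1) + β coeff n Y`, of valuation `≤ max (v α v 3) (v β v 3)`. If `v (3 β) ≤ v α` take `c = α` (attained at `n = 0`); if `v α < v (3 β)` take `c = 3 β`, attained at
the `n` of `hB.yP` (`n ≠ 0` since `v 3 ≠ 0` and `y0`; there `v (β coeff n Y) = v (3 β)` and `v (α coeff n (A - 1)) ≤ v α v 3 < v (3 β)`).
-/

namespace Pool.Agent.Lib.MP_06b9d2_tls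

open PowerSeries Pool.Agent.L1

theorem In_mul {O : ValuationSubring ℂ} {F G : ℂ⟦X⟧} {r s : ℂ} (hF : In O F r) (hG : In O G s) :
    In O (F * G) (r * s) := by
  intro n
  rw [coeff_mul]
  refine Valuation.map_sum_le _ fun i _ => ?_
  rw [map_mul, map_mul]
  exact mul_le_mul' (hF i.1) (hG i.2)

private theorem PCm_one (O : ValuationSubring ℂ) : PC O (1 : ℂ⟦X⟧) 1 := by
  refine ⟨fun n => ?_, 0, ?_⟩
  · rw [coeff_one]
    split_ifs
    · exact le_rfl
    · rw [map_zero]
      exact zero_le
  · rw [coeff_one, if_pos rfl]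

theorem In_pow {O : ValuationSubring ℂ} {F : ℂ⟦X⟧} {r : ℂ} (hF : In O F r) (m : ℕ) :
    In O (F ^ m) (r ^ m) := by
  induction m with
  | zero =>
    rw [pow_zero, pow_zero]
    exact (PCm_one O).1
  | succ m ih =>
    rw [pow_succ, pow_succ]
    exact In_mul ih hF

theorem In_add {O : ValuationSubring ℂ} {F G : ℂ⟦X⟧} {r : ℂ} (hF : In O F r) (hG : In O G r) :
    In O (F + G) r := by
  intro n
  rw [map_add]
  exact Valuation.map_add_le _ (hF n) (hG n)

theorem In_sub {O : ValuationSubring ℂ} {F G : ℂ⟦X⟧} {r : ℂ} (hF : In O F r) (hG : In O G r) :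
    In O (F - G) r := by
  intro n
  rw [map_sub]
  exact Valuation.map_sub_le _ (hF n) (hG n)

theorem In_sum {O : ValuationSubring ℂ} {ι : Type*} (s : Finset ι) {F : ι → ℂ⟦X⟧} {r : ℂ}
    (hF : ∀ i ∈ s, In O (F i) r) : In O (∑ i ∈ s, F i) r := by
  intro n
  rw [map_sum]
  exact Valuation.map_sum_le _ fun i hi => hF i hi n

theorem In_smul {O : ValuationSubring ℂ} {F : ℂ⟦X⟧} {r : ℂ} (hF : In O F r) (x : ℂ) :
    In O (x • F) (x * r) := by
  intro n
  rw [coeff_smul, smul_eq_mul, map_mul, map_mul]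
  exact mul_le_mul' le_rfl (hF n)

theorem PC_mul {O : ValuationSubring ℂ} {F G : ℂ⟦X⟧} {c d : ℂ} (hF : PC O F c) (hG : PC O G d) :
    PC O (F * G) (c * d) := by
  classical
  refine ⟨In_mul hF.1 hG.1, ?_⟩
  by_cases hc : O.valuation c = 0
  · refine ⟨0, ?_⟩
    have h := In_mul hF.1 hG.1 0
    have h0 : O.valuation (c * d) = 0 := by rw [map_mul, hc, zero_mul]
    rw [h0] at h ⊢
    exact le_antisymm h zero_le
  by_cases hd : O.valuation d = 0
  · refine ⟨0, ?_⟩
    have h := In_mul hF.1 hG.1 0
    have h0 : O.valuation (c * d) = 0 := by rw [map_mul, hd, mul_zero]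
    rw [h0] at h ⊢
    exact le_antisymm h zero_le
  have hc0 : 0 < O.valuation c := zero_lt_iff.2 hc
  have hd0 : 0 < O.valuation d := zero_lt_iff.2 hd
  set n₀ := Nat.find hF.2 with hn₀
  set m₀ := Nat.find hG.2 with hm₀
  have hn : O.valuation (coeff n₀ F) = O.valuation c := Nat.find_spec hF.2
  have hm : O.valuation (coeff m₀ G) = O.valuation d := Nat.find_spec hG.2
  have hn' : ∀ i, i < n₀ → O.valuation (coeff i F) < O.valuation c := fun i hi =>
    lt_of_le_of_ne (hF.1 i) (Nat.find_min hF.2 hi)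
  have hm' : ∀ i, i < m₀ → O.valuation (coeff i G) < O.valuation d := fun i hi =>
    lt_of_le_of_ne (hG.1 i) (Nat.find_min hG.2 hi)
  refine ⟨n₀ + m₀, ?_⟩
  have hmem : (n₀, m₀) ∈ Finset.HasAntidiagonal.antidiagonal (n₀ + m₀) :=
    Finset.HasAntidiagonal.mem_antidiagonal.2 rfl
  rw [coeff_mul, ← Finset.add_sum_erase _ _ hmem]
  have hmain : O.valuation (coeff n₀ F * coeff m₀ G) = O.valuation (c * d) := by
    rw [map_mul, map_mul, hn, hm]
  have hne : O.valuation (c * d) ≠ 0 := by
    rw [map_mul]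
    exact mul_ne_zero hc hd
  have hrest : O.valuation (∑ x ∈ (Finset.HasAntidiagonal.antidiagonal (n₀ + m₀)).erase (n₀, m₀),
      coeff x.1 F * coeff x.2 G) < O.valuation (c * d) := by
    refine Valuation.map_sum_lt _ hne fun x hx => ?_
    rw [Finset.mem_erase, Finset.HasAntidiagonal.mem_antidiagonal] at hx
    rw [map_mul, map_mul]
    have hx1 : x.1 < n₀ ∨ x.2 < m₀ := by
      by_contra hcon
      rw [not_or, not_lt, not_lt] at hcon
      apply hx.1
      apply Prod.ext
      · show x.1 = n₀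
        omega
      · show x.2 = m₀
        omega
    rcases hx1 with h1 | h1
    · calc O.valuation (coeff x.1 F) * O.valuation (coeff x.2 G)
          ≤ O.valuation (coeff x.1 F) * O.valuation d := mul_le_mul' le_rfl (hG.1 _)
        _ < O.valuation c * O.valuation d := mul_lt_mul_of_pos_right (hn' _ h1) hd0
    · calc O.valuation (coeff x.1 F) * O.valuation (coeff x.2 G)
          ≤ O.valuation c * O.valuation (coeff x.2 G) := mul_le_mul' (hF.1 _) le_rfl
        _ < O.valuation c * O.valuation d := mul_lt_mul_of_pos_left (hm' _ h1) hc0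
  rw [Valuation.map_add_eq_of_lt_left _ (by rw [hmain]; exact hrest)]
  exact hmain

theorem PC_prod {O : ValuationSubring ℂ} {ι : Type*} (s : Finset ι) {F : ι → ℂ⟦X⟧} {c : ι → ℂ}
    (hF : ∀ i ∈ s, PC O (F i) (c i)) : PC O (∏ i ∈ s, F i) (∏ i ∈ s, c i) := by
  classical
  induction s using Finset.induction_on with
  | empty =>
    rw [Finset.prod_empty, Finset.prod_empty]
    exact PCm_one O
  | insert a s ha ih =>
    rw [Finset.prod_insert ha, Finset.prod_insert ha]
    exact PC_mul (hF a (Finset.mem_insert_self a s))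
      (ih fun i hi => hF i (Finset.mem_insert_of_mem hi))

theorem PC_lin {O : ValuationSubring ℂ} (h3 : O.valuation 3 < 1) {A Y : ℂ⟦X⟧} (hB : Bs O A Y) (α β : ℂ) :
    ∃ c : ℂ, PC O (α • A + β • Y) c ∧ O.valuation c = max (O.valuation α) (O.valuation (3 * β)) := by
  have h30 : O.valuation (3 : ℂ) ≠ 0 := (Valuation.ne_zero_iff _).2 (by norm_num)
  have h3p : 0 < O.valuation (3 : ℂ) := zero_lt_iff.2 h30
  have hA0 : coeff 0 A = 1 := by
    rw [coeff_zero_eq_constantCoeff_apply]
    exact hB.a0
  have hY0 : coeff 0 Y = 0 := by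
    rw [coeff_zero_eq_constantCoeff_apply]
    exact hB.y0
  have e0 : coeff 0 (α • A + β • Y) = α := by
    rw [map_add, coeff_smul, coeff_smul, hA0, hY0, smul_eq_mul, smul_eq_mul, mul_one, mul_zero,
      add_zero]
  have en : ∀ n, n ≠ 0 → coeff n (α • A + β • Y) = α * coeff n (A - 1) + β * coeff n Y := by
    intro n hn
    rw [map_add, coeff_smul, coeff_smul, smul_eq_mul, smul_eq_mul, map_sub, coeff_one, if_neg hn,
      sub_zero]
  have bA : ∀ n, O.valuation (α * coeff n (A - 1)) ≤ O.valuation α * O.valuation 3 := by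
    intro n
    rw [map_mul]
    exact mul_le_mul' le_rfl (hB.aI n)
  have bY : ∀ n, O.valuation (β * coeff n Y) ≤ O.valuation (3 * β) := by
    intro n
    rw [map_mul, map_mul, mul_comm (O.valuation (3 : ℂ))]
    exact mul_le_mul' le_rfl (hB.yI n)
  have bA' : O.valuation α * O.valuation 3 ≤ O.valuation α := by
    calc O.valuation α * O.valuation 3 ≤ O.valuation α * 1 := mul_le_mul' le_rfl h3.le
      _ = O.valuation α := mul_one _
  have hle : ∀ n, O.valuation (coeff n (α • A + β • Y)) ≤
      max (O.valuation α) (O.valuation (3 * β)) := by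
    intro n
    by_cases hn : n = 0
    · subst hn
      rw [e0]
      exact le_max_left _ _
    · rw [en n hn]
      exact Valuation.map_add_le _ (((bA n).trans bA').trans (le_max_left _ _))
        ((bY n).trans (le_max_right _ _))
  rcases le_or_gt (O.valuation (3 * β)) (O.valuation α) with h | h
  · refine ⟨α, ⟨fun n => ?_, 0, ?_⟩, ?_⟩
    · have := hle n
      rwa [max_eq_left h] at this
    · rw [e0]
    · rw [max_eq_left h]
  · obtain ⟨n, hn⟩ := hB.yP
    have hn0 : n ≠ 0 := by
      intro h0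
      rw [h0, hY0, map_zero] at hn
      exact h30 hn.symm
    refine ⟨3 * β, ⟨fun m => ?_, n, ?_⟩, ?_⟩
    · have := hle m
      rwa [max_eq_right h.le] at this
    · rw [en n hn0]
      have h1 : O.valuation (β * coeff n Y) = O.valuation (3 * β) := by
        rw [map_mul, hn, map_mul, mul_comm]
      rw [Valuation.map_add_eq_of_lt_right _ (by rw [h1]; exact ((bA n).trans bA').trans_lt h)]
      exact h1
    · rw [max_eq_right h.le]

end Pool.Agent.Lib.MP_06b9d2_tls
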