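import Pool.Agent.Lib.MP_06b9d2_tls.DefsC

/-!
Module TLS-Igd. Series integral over `O[t]`.

Closure properties: `RingHom.IsIntegralElem.add`, `.mul`, `.neg`, `.sub`, `RingHom.isIntegralElem_map`, ...; powers and sums by induction; `C r`, `r ∈ O`, is the image of the constant polynomial,
`t` is the image of `Polynomial.X`. `Ig_root`: a root of a monic polynomial whose coefficients are integral is integral
(`IsIntegral` is transitive: `isIntegral_of_isIntegral_coeff`-type lemmas: let `S` be the integral closure; or use only coefficients of the form `p_i(t)`, `p_i ∈ O[T]`, which is what is stated here: the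
polynomial `Z ^ n + ∑_{i < n} p_i(t) Z ^ i` is the image of a monic polynomial over `O[T]`).
`Ig_desc`: let `φ : O[T] → ℂ⟦X⟧`, `T ↦ t`, and `ψ : ℂ[T] → ℂ⟦X⟧`, `f ↦ f(t)`. `ψ` is injective: `t = X ^ m u` with `m ≥ 1`, `constantCoeff u ≠ 0` (`t ≠ 0`, no constant term), and for `f ≠ 0` with lowest term `a T ^ s`
the coefficient of `X ^ (m s)` of `f(t)` is `a u_0 ^ s ≠ 0`. `φ = ψ ∘ (map O.subtype)`. If `f(t)` is a root of a monic `Q(Z)` over `O[T]` (through `φ`), then `ψ` of `Q(f)` is `0`, so `f` is a root of `Q` in `ℂ[T]`: `f` is integral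
over `O[T]`; `Polynomial.isIntegral_iff_isIntegral_coeff` (`Mathlib/RingTheory/Polynomial/IsIntegral.lean`): all coefficients of `f` are integral over `O`, so in `O` (a valuation subring is integrally closed
in `ℂ`: `ValuationSubring` is `IsIntegrallyClosed` with fraction field `ℂ`, or `O.integer` `Valuation.Integers`).
-/

namespace Pool.Agent.Lib.MP_06b9d2_tls

open PowerSeries Pool.Agent.L1

variable {O : ValuationSubring ℂ} {t : ℂ⟦X⟧}

private theorem aeval_ne_zero (h0 : constantCoeff t = 0) (ht : t ≠ 0) (f : Polynomial ℂ) (hf : f ≠ 0) :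
    Polynomial.aeval t f ≠ 0 := by
  obtain ⟨q, hq, hnd⟩ := Polynomial.exists_eq_pow_rootMultiplicity_mul_and_not_dvd f hf 0
  rw [Polynomial.C_0, sub_zero] at hq hnd
  rw [Polynomial.X_dvd_iff] at hnd
  rw [hq, map_mul, map_pow, Polynomial.aeval_X]
  refine mul_ne_zero (pow_ne_zero _ ht) ?_
  intro h
  apply hnd
  have h1 := congrArg (constantCoeff (R := ℂ)) h
  rw [Polynomial.aeval_def, Polynomial.hom_eval₂, map_zero, h0, Polynomial.eval₂_at_zero] at h1
  simpa [PowerSeries.algebraMap_apply] using h1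

theorem Ig_desc (h0 : constantCoeff t = 0) (ht : t ≠ 0) (f : Polynomial ℂ)
    (hf : Ig O t (Polynomial.aeval t f)) (n : ℕ) : O.valuation (f.coeff n) ≤ 1 := by
  obtain ⟨Q, hQ, hQ0⟩ := hf
  have hφ : Polynomial.eval₂RingHom ((C : ℂ →+* ℂ⟦X⟧).comp O.subtype) t =
      ((Polynomial.aeval t : Polynomial ℂ →ₐ[ℂ] ℂ⟦X⟧) : Polynomial ℂ →+* ℂ⟦X⟧).comp
        (Polynomial.mapRingHom O.subtype) := by
    refine Polynomial.ringHom_ext ?_ ?_
    · intro a
      simp
    · simp
  rw [hφ] at hQ0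
  have h1 : (Polynomial.aeval t : Polynomial ℂ →ₐ[ℂ] ℂ⟦X⟧)
      (Polynomial.eval₂ (Polynomial.mapRingHom O.subtype) f Q) = 0 := by
    have := Polynomial.hom_eval₂ Q (Polynomial.mapRingHom O.subtype)
      ((Polynomial.aeval t : Polynomial ℂ →ₐ[ℂ] ℂ⟦X⟧) : Polynomial ℂ →+* ℂ⟦X⟧) f
    exact this.trans hQ0
  have h2 : Polynomial.eval₂ (Polynomial.mapRingHom O.subtype) f Q = 0 := by
    by_contra h3
    exact aeval_ne_zero h0 ht _ h3 h1
  let _ : Algebra (Polynomial O) (Polynomial ℂ) := Polynomial.algebra O ℂ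
  have h3 : IsIntegral (Polynomial O) f := ⟨Q, hQ, h2⟩
  have h4 := (Polynomial.isIntegral_iff_isIntegral_coeff (R := O)).1 h3 n
  obtain ⟨y, hy⟩ := (IsIntegrallyClosed.isIntegral_iff (R := O) (K := ℂ)).1 h4
  rw [← hy]
  exact (O.valuation_le_one_iff _).2 y.2

end Pool.Agent.Lib.MP_06b9d2_tls
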