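import Pool.Agent.Lib.MP_06b9d2_tls.DefsC

/-!
Module TLS-Fac. Homogeneous polynomials in two variables over `ℂ` are products of linear forms.

`P = 0`: `c = 0`. Otherwise `P = ∑_{r ≤ m} f_r X 0 ^ (m - r) X 1 ^ r` (`P.IsHomogeneous m`: the monomials `d` with `d 0 + d 1 = m`). Let `f = ∑ f_r T ^ r`, `f ≠ 0`, `d = natDegree f ≤ m`,
`f = f_d ∏_{k < d} (T - r_k)` (`Polynomial.Splits`, `IsAlgClosed.splits`, `Polynomial.eq_prod_roots_of_splits_id`, the multiset of roots as a list). Then
`P = C f_d * X 0 ^ (m - d) * ∏_{k < d} (X 1 - C r_k * X 0)`: both sides are homogeneous of degree `m` with the same dehomogenization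
(the map `X 0 ↦ 1`, `X 1 ↦ T` is injective on the forms of degree `m`: compare the coefficients of `X 0 ^ (m - r) X 1 ^ r`). Alternatively: induction on `m`: `f` has a root `r` if `d ≥ 1`, `P = (X 1 - C r X 0) * P₁`,
and if `d = 0` then `P = C f_0 X 0 ^ m`. The linear forms: `(α, β) = (1, 0)` for the `m - d` factors `X 0`, `(-r_k, 1)` for the others.
-/

namespace Pool.Agent.Lib.MP_06b9d2_tls

open PowerSeries Pool.Agent.L1

private theorem fac_aux (m : ℕ) : ∀ f : Polynomial ℂ, f.natDegree ≤ m →
    ∃ (c : ℂ) (α β : Fin m → ℂ), f.homogenize m = MvPolynomial.C c *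
      ∏ k, (MvPolynomial.C (α k) * MvPolynomial.X 0 + MvPolynomial.C (β k) * MvPolynomial.X 1) := by
  induction m with
  | zero =>
    intro f hf
    refine ⟨f.coeff 0, fun _ => 0, fun _ => 0, ?_⟩
    have h : f = Polynomial.C (f.coeff 0) := Polynomial.eq_C_of_natDegree_le_zero hf
    rw [h, Polynomial.homogenize_C]
    simp
  | succ n ih =>
    intro f hf
    by_cases hd : f.natDegree = 0
    · obtain ⟨c, α, β, h⟩ := ih f (by omega)
      refine ⟨c, Fin.cons 0 α, Fin.cons 1 β, ?_⟩
      have h1 : f = Polynomial.C (f.coeff 0) := Polynomial.eq_C_of_natDegree_eq_zero hd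
      have h2 : f.homogenize (n + 1) = f.homogenize n * MvPolynomial.X 1 := by
        rw [h1, Polynomial.homogenize_C, Polynomial.homogenize_C, pow_succ, mul_assoc]
      rw [h2, h, Fin.prod_univ_succ]
      simp only [Fin.cons_zero, Fin.cons_succ, map_zero, map_one, zero_mul, one_mul, zero_add]
      ring
    · have hdeg : f.degree ≠ 0 := by
        intro h0
        exact hd (Polynomial.natDegree_eq_of_degree_eq_some h0)
      obtain ⟨r, hr⟩ := IsAlgClosed.exists_root f hdeg
      obtain ⟨g, hg⟩ := Polynomial.dvd_iff_isRoot.mpr hr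
      have hf0 : f ≠ 0 := by
        rintro rfl
        exact hd Polynomial.natDegree_zero
      have hg0 : g ≠ 0 := by
        rintro rfl
        exact hf0 (by rw [hg, mul_zero])
      have hdg : f.natDegree = 1 + g.natDegree := by
        conv_lhs => rw [hg]
        rw [Polynomial.natDegree_mul (Polynomial.X_sub_C_ne_zero r) hg0, Polynomial.natDegree_X_sub_C]
      obtain ⟨c, α, β, h⟩ := ih g (by omega)
      refine ⟨c, Fin.cons 1 α, Fin.cons (-r) β, ?_⟩
      have h2 : f.homogenize (n + 1) =
          (MvPolynomial.X 0 - MvPolynomial.C r * MvPolynomial.X 1) * g.homogenize n := by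
        conv_lhs => rw [hg, add_comm n 1]
        rw [Polynomial.homogenize_mul _ _ (Polynomial.natDegree_X_sub_C_le r) (by omega)]
        rw [Polynomial.homogenize_sub, Polynomial.homogenize_C, Polynomial.homogenize_X one_ne_zero]
        simp
      rw [h2, h, Fin.prod_univ_succ]
      simp only [Fin.cons_zero, Fin.cons_succ, map_neg, map_one, one_mul]
      ring

private theorem deg_aux (m : ℕ) (P : MvPolynomial (Fin 2) ℂ) (hP : P.IsHomogeneous m) :
    (MvPolynomial.aeval ![Polynomial.X, (1 : Polynomial ℂ)] P).natDegree ≤ m := by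
  rw [P.as_sum, map_sum]
  refine Polynomial.natDegree_sum_le_of_forall_le _ _ ?_
  intro d hd
  rw [MvPolynomial.aeval_monomial, Finsupp.prod_fintype _ _ (fun i => pow_zero _), Fin.prod_univ_two]
  have h : d 0 + d 1 = m := by
    have h1 : Finsupp.weight (1 : Fin 2 → ℕ) d = m := hP (by simpa using hd)
    rw [Finsupp.weight_apply, Finsupp.sum_fintype _ _ (by intro i; simp), Fin.sum_univ_two] at h1
    simpa using h1
  simp only [Matrix.cons_val_zero, Matrix.cons_val_one, one_pow, mul_one]
  have h3 : ((algebraMap ℂ (Polynomial ℂ)) (MvPolynomial.coeff d P) * Polynomial.X ^ (d 0)).natDegree ≤ d 0 := by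
    rw [← Polynomial.C_eq_algebraMap]
    exact Polynomial.natDegree_C_mul_X_pow_le _ _
  exact h3.trans (by omega)

theorem hom_fac (m : ℕ) (P : MvPolynomial (Fin 2) ℂ) (hP : P.IsHomogeneous m) :
    ∃ (c : ℂ) (α β : Fin m → ℂ), P = MvPolynomial.C c *
      ∏ k, (MvPolynomial.C (α k) * MvPolynomial.X 0 + MvPolynomial.C (β k) * MvPolynomial.X 1) := by
  obtain ⟨c, α, β, h⟩ := fac_aux m _ (deg_aux m P hP)
  refine ⟨c, α, β, ?_⟩
  rw [← h]
  exact (Polynomial.homogenize_eq_of_isHomogeneous hP rfl).symm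

end Pool.Agent.Lib.MP_06b9d2_tls
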