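import Pool.Agent.Lib.MP_06b9d2_tls.PcMat
import Pool.Agent.Lib.MP_06b9d2_tls.DatA
import Pool.Agent.Lib.MP_06b9d2_tls.DatB
import Pool.Agent.Lib.MP_06b9d2_tls.TwoM
import Pool.Agent.Lib.MP_06b9d2_tls.CoreS

/-!
Module TLS-TwoL. The matrix of `T_l` on the level three forms has eigenspaces of dimension at most two.

`core_ex`, `qd_ex`: `A, Y`, `a, k, c`; over `ℂ`: `a' = map a`, `c' = map c`: `Lv a' c'` from `h4`, `h6`, `a0`. `V 3 (mo a' c' ε N s) = moX A Y ε N s` (`hA`, `hY3`). `PL l e s0`: `l % 9 = 2, 5`: `l % 3 = 2`, `e = -1`; `4, 7`: `e = 1`. `matD_ex` gives `M`; `N + ε` even, so `3 N + ε` is even and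
`(e l) ^ (3 N + ε) = l ^ (3 N + ε)`: `TT l e k f = l • Tl l k f`. `TT_V3`, `V_inj`: `Tl l k (mo a' c' ε N s) = ∑ j, (M ε N j s / l) • mo a' c' ε N j`. `Mx j s = M ε N j s / l`. Symmetry: `e ^ (ε + N) = 1`. `Two`: for `j, s ≤ N`: `M ε N j s = (e c) ^ N MG e c (pc e c M ε) N j s` (`pc_mat`);
for `e = -1` `MG e c κ' = 3 MG e c (κ' / 3)`. So `Mx = r * MG ..` on the indices `≤ N` with `r ≠ 0`: `EgG Mx N lam x ↔ EgG (MG ..) N (lam / r) x`. `exists_O` (`ssp/POa`), `datM`, `datM1`, `datP`, `twoM`, `twoM1`, `twoP`.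
-/

namespace Pool.Agent.Lib.MP_06b9d2_tls

open PowerSeries Pool.Agent.L1 Pool.Agent.Lib.MP_06b9d2_ssp

private theorem two_scale {Mx My : ℕ → ℕ → ℂ} {N : ℕ} (r : ℂ) (hr : r ≠ 0)
    (h : ∀ j ≤ N, ∀ s ≤ N, Mx j s = r * My j s) (hy : Two My N) : Two Mx N := by
  intro lam
  obtain ⟨L, hL⟩ := hy (lam / r)
  refine ⟨L, fun x hx hs h0 => hL x ?_ hs h0⟩
  intro j hj
  have h1 := hx j hj
  have h2 : ∑ s ∈ Finset.range (N + 1), Mx j s * x s =
      r * ∑ s ∈ Finset.range (N + 1), My j s * x s := by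
    rw [Finset.mul_sum]
    refine Finset.sum_congr rfl fun s hs => ?_
    rw [h j hj s (Nat.lt_succ_iff.1 (Finset.mem_range.1 hs))]
    ring
  rw [h2] at h1
  apply mul_left_cancel₀ hr
  rw [h1, ← mul_assoc, mul_div_cancel₀ _ hr]

private theorem MG_third (e c : ℂ) (κ : ℕ → ℕ → ℕ → ℂ) (N j s : ℕ) :
    MG e c κ N j s = 3 * MG e c (fun m n r => κ m n r / 3) N j s := by
  unfold MG
  rw [Finset.mul_sum]
  refine Finset.sum_congr rfl fun m _ => ?_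
  rw [Finset.mul_sum]
  refine Finset.sum_congr rfl fun n _ => ?_
  split_ifs
  · ring
  · ring

private theorem map_e4 : PowerSeries.map (Int.castRingHom ℂ) (e4 ℤ) = e4 ℂ := by
  unfold e4
  ext n
  simp

private theorem map_e6 : PowerSeries.map (Int.castRingHom ℂ) (e6 ℤ) = e6 ℂ := by
  unfold e6
  ext n
  simp

private theorem V_mo {A Y : ℂ⟦X⟧} {a k c : ℤ⟦X⟧} (q : Qd A Y a k c) (ε N s : ℕ) :
    V 3 (mo (PowerSeries.map (Int.castRingHom ℂ) a) (PowerSeries.map (Int.castRingHom ℂ) c) ε N s) =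
      moX A Y ε N s := by
  have h3 : (3 : ℕ) ≠ 0 := three_ne_zero
  unfold mo moX
  rw [V_mul h3, V_mul h3, V_pow h3, V_pow h3, V_pow h3, V_sub h3, V_pow h3, ← q.hA, ← q.hY3]

private theorem TT_Tl {l : ℕ} (hl : l ≠ 0) {e : ℂ} (he : e ^ 2 = 1) {w : ℕ} (hw : Even w) (f : ℂ⟦X⟧) :
    TT l e w f = (l : ℂ) • Tl l w f := by
  obtain ⟨v, rfl⟩ := hw
  have h1 : (e * l) ^ (v + v) = (l : ℂ) ^ (v + v) := by
    rw [mul_pow, ← two_mul, pow_mul, he, one_pow, one_mul]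
  have h2 : (l : ℂ) ≠ 0 := by exact_mod_cast hl
  rw [TT, Tl, h1, smul_add, smul_smul, mul_div_cancel₀ _ h2]

theorem two_l (l : ℕ) (hl : l.Prime) (h9 : l % 9 = 2 ∨ l % 9 = 4 ∨ l % 9 = 5 ∨ l % 9 = 7) :
    ∃ a c : ℂ⟦X⟧, Lv a c ∧ ∀ ε ≤ 2, ∀ N : ℕ, Even (N + ε) → ∃ Mx : ℕ → ℕ → ℂ,
      (∀ s ≤ N, Tl l (3 * N + ε) (mo a c ε N s) = ∑ j ∈ Finset.range (N + 1), Mx j s • mo a c ε N j) ∧
      (∀ j ≤ N, ∀ s ≤ N, Mx (N - j) (N - s) = Mx j s) ∧ Two Mx N := by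
  obtain ⟨A, Y, h⟩ := core_ex
  obtain ⟨a, k, c, q⟩ := qd_ex h
  obtain ⟨O, h3⟩ := exists_O
  have hl0 : (l : ℂ) ≠ 0 := by exact_mod_cast hl.ne_zero
  have hl3 : l ≠ 3 := by
    rintro rfl
    omega
  -- the sign
  obtain ⟨e, s0, hPL, hcase⟩ : ∃ e s0 : ℂ, PL l e s0 ∧
      ((e = -1 ∧ (l % 9 = 2 ∨ l % 9 = 5)) ∨ (e = 1 ∧ (l % 9 = 4 ∨ l % 9 = 7))) := by
    by_cases h2 : l % 9 = 2 ∨ l % 9 = 5
    · exact ⟨-1, om ^ 2, ⟨hl, Or.inr ⟨by omega, rfl, rfl⟩⟩, Or.inl ⟨rfl, h2⟩⟩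
    · exact ⟨1, om, ⟨hl, Or.inl ⟨by omega, rfl, rfl⟩⟩, Or.inr ⟨rfl, by omega⟩⟩
  have he := e_sq hPL
  have hc := cl_ne hPL
  have he0 : e ≠ 0 := by
    rintro rfl
    norm_num at he
  obtain ⟨M, hM⟩ := matD_ex h hPL
  refine ⟨PowerSeries.map (Int.castRingHom ℂ) a, PowerSeries.map (Int.castRingHom ℂ) c, ⟨?_, ?_, ?_⟩, ?_⟩
  · rw [← PowerSeries.coeff_zero_eq_constantCoeff_apply, PowerSeries.coeff_map,
      PowerSeries.coeff_zero_eq_constantCoeff_apply, q.a0]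
    simp
  · rw [← map_e4, q.h4]
    simp only [map_mul, map_add, map_pow, map_ofNat]
  · rw [← map_e6, q.h6]
    simp only [map_mul, map_sub, map_pow, map_ofNat]
  intro ε hε N hN
  have : Fact (ε < 3) := ⟨by omega⟩
  have hk : Even (3 * N + ε) := by
    rw [Nat.even_iff] at hN ⊢
    omega
  refine ⟨fun j s => M ε N j s / l, ?_, ?_, ?_⟩
  · intro s hs
    have h1 : V 3 (TT l e (3 * N + ε) (mo (PowerSeries.map (Int.castRingHom ℂ) a)
        (PowerSeries.map (Int.castRingHom ℂ) c) ε N s)) =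
        V 3 (∑ j ∈ Finset.range (N + 1), M ε N j s • mo (PowerSeries.map (Int.castRingHom ℂ) a)
        (PowerSeries.map (Int.castRingHom ℂ) c) ε N j) := by
      rw [← TT_V3 hl hl3, V_mo q, hM.eq ε N s hs, V_sum three_ne_zero]
      refine Finset.sum_congr rfl fun j _ => ?_
      rw [V_smul three_ne_zero, V_mo q]
    have h2 := V_inj three_ne_zero h1
    rw [TT_Tl hl.ne_zero he hk] at h2
    have h3 := congrArg (fun f => (l : ℂ)⁻¹ • f) h2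
    simp only [smul_smul, inv_mul_cancel₀ hl0, one_smul, Finset.smul_sum] at h3
    rw [h3]
    refine Finset.sum_congr rfl fun j _ => ?_
    simp only [div_eq_inv_mul]
  · intro j hj s hs
    have h1 : e ^ (ε + N) = 1 := by
      obtain ⟨v, hv⟩ := hN
      rw [show ε + N = 2 * v by omega, pow_mul, he, one_pow]
    simp only
    rw [hM.sym ε N j s hj hs, h1, one_mul]
  · have hr : (e * cl l e) ^ N / l ≠ 0 := div_ne_zero (pow_ne_zero _ (mul_ne_zero he0 hc)) hl0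
    rcases hcase with ⟨rfl, h25⟩ | ⟨rfl, h47⟩
    · have hr3 : (-1 * cl l (-1)) ^ N / l * 3 ≠ 0 := mul_ne_zero hr (by norm_num)
      have key : ∀ j ≤ N, ∀ s ≤ N, M ε N j s / l = (-1 * cl l (-1)) ^ N / l * 3 *
          MG (-1) (cl l (-1)) (fun m n r => pc (-1) (cl l (-1)) M ε m n r / 3) N j s := by
        intro j hj s hs
        rw [pc_mat h hPL hM ε N j s hj hs, MG_third]
        ring
      rcases (show ε = 1 ∨ ε = 0 ∨ ε = 2 by omega) with rfl | h02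
      · exact two_scale _ hr3 key (twoM1 O h3 N _ _ (datM1 h h3 hPL h25 hM))
      · exact two_scale _ hr3 key (twoM O h3 N _ _ (datM h h3 hPL h25 hM ε h02))
    · have key : ∀ j ≤ N, ∀ s ≤ N, M ε N j s / l = (1 * cl l 1) ^ N / l *
          MG 1 (cl l 1) (fun m n r => pc 1 (cl l 1) M ε m n r) N j s := by
        intro j hj s hs
        rw [pc_mat h hPL hM ε N j s hj hs]
        ring
      exact two_scale _ hr key (twoP O h3 N _ _ (datP h h3 hPL h47 hM ε hε))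

end Pool.Agent.Lib.MP_06b9d2_tls
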