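import Pool.Agent.Lib.MP_06b9d2_tls.CgP

/-!
Board TLS, algebra part, pairs of eigenvectors for `lam` and `-lam` (`e = -1`).

The functionals with independent vectors `x 0`, `x 1` for the two parities. The equation of an
eigenvector for `-lam`, with the parities exchanged, is the equation for `lam`.
-/

namespace Pool.Agent.Lib.MP_06b9d2_tls

open PowerSeries Pool.Agent.L1
open Pool.Agent.Lib.MP_06b9d2_ssp (PO PO_const PO_id PO_add PO_mul PO_shift int_mem val_int val_rat)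

/-- `∑ x_{π, s} f(s)` over the `s ≤ N`; `π` counts modulo `2` -/
noncomputable def mq (N : ℕ) (x : ℕ → ℕ → ℂ) (π : ℕ) (f : ℤ → ℂ) : ℂ :=
  ∑ s ∈ Finset.range (N + 1), x (π % 2) s * f s

/-- the terms of the equation -/
noncomputable def tq (c : ℂ) (κ : ℕ → ℕ → ℕ → ℂ) (N : ℕ) (x : ℕ → ℕ → ℂ) (π : ℕ) (f : ℤ → ℂ)
    (m n l : ℕ) : ℂ :=
  (-1) ^ (π + n + l) * κ m n l * mq N x (π + n + l) (fun s => dmG (-1) c N m n s * f (s - n + l))

/-- the equation of an eigenvector, tested against functions -/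
def StPr (c : ℂ) (κ : ℕ → ℕ → ℕ → ℂ) (N : ℕ) (lam : ℂ) (x : ℕ → ℕ → ℂ) : Prop :=
  ∀ (π : ℕ) (f : ℤ → ℂ), lam * mq N x π f =
    ∑ m ∈ Finset.range (N + 1), ∑ n ∈ Finset.range (N + 1),
      ∑ l ∈ Finset.range (m + n + 1), tq c κ N x π f m n l

/-- the part of `x` at the `s ≡ π + r` modulo `2`, for the parity `π` -/
noncomputable def emb (r : ℕ) : (ℕ → ℂ) →ₗ[ℂ] (ℕ → ℕ → ℂ) where
  toFun x := fun π s => if s % 2 = (π + r) % 2 then x s else 0
  map_add' x y := by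
    funext π s
    by_cases h : s % 2 = (π + r) % 2
    · simp only [Pi.add_apply, if_pos h]
    · simp only [Pi.add_apply, if_neg h, add_zero]
  map_smul' c x := by
    funext π s
    by_cases h : s % 2 = (π + r) % 2
    · simp only [Pi.smul_apply, if_pos h, RingHom.id_apply]
    · simp only [Pi.smul_apply, if_neg h, RingHom.id_apply, smul_zero]

theorem emb_apply (r : ℕ) (x : ℕ → ℂ) (π s : ℕ) :
    emb r x π s = if s % 2 = (π + r) % 2 then x s else 0 := rfl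

theorem mq_emb (r N : ℕ) (x : ℕ → ℂ) (π : ℕ) (f : ℤ → ℂ) :
    mq N (emb r x) π f = muM 2 N x (π + r) f := by
  unfold mq muM
  rw [Finset.sum_filter]
  refine Finset.sum_congr rfl fun s _ => ?_
  rw [emb_apply]
  have h : (π % 2 + r) % 2 = (π + r) % 2 := by omega
  rw [h]
  by_cases hs : s % 2 = (π + r) % 2
  · rw [if_pos hs, if_pos hs]
  · rw [if_neg hs, if_neg hs, zero_mul]

theorem StPr_emb (c : ℂ) (κ : ℕ → ℕ → ℕ → ℂ) (hdeg : ∀ m n r, m + n < r → κ m n r = 0)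
    {N : ℕ} {lam : ℂ} {x : ℕ → ℂ} (h : EgG (MG (-1) c κ N) N lam x) :
    StPr c κ N lam (emb 0 x) := by
  intro π f
  have h1 := star0 (Or.inr rfl) (by norm_num : (-1 : ℂ) ^ 2 = 1) c κ hdeg N lam x h π f
  simp only [tq, mq_emb, add_zero]
  exact h1

theorem StPr_emb' (c : ℂ) (κ : ℕ → ℕ → ℕ → ℂ) (hdeg : ∀ m n r, m + n < r → κ m n r = 0)
    {N : ℕ} {lam : ℂ} {x : ℕ → ℂ} (h : EgG (MG (-1) c κ N) N (-lam) x) :
    StPr c κ N lam (emb 1 x) := by
  intro π f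
  have h1 := star0 (Or.inr rfl) (by norm_num : (-1 : ℂ) ^ 2 = 1) c κ hdeg N (-lam) x h (π + 1) f
  simp only [tq, mq_emb]
  have h2 : lam * muM 2 N x (π + 1) f = -(-lam * muM 2 N x (π + 1) f) := by ring
  rw [h2, h1, ← Finset.sum_neg_distrib]
  refine Finset.sum_congr rfl fun m _ => ?_
  rw [← Finset.sum_neg_distrib]
  refine Finset.sum_congr rfl fun n _ => ?_
  rw [← Finset.sum_neg_distrib]
  refine Finset.sum_congr rfl fun l _ => ?_
  unfold tm
  have e1 : π + 1 + n + l = π + n + l + 1 := by ring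
  rw [e1, pow_succ]
  ring

theorem mq_add' (N : ℕ) (x y : ℕ → ℕ → ℂ) (π : ℕ) (f : ℤ → ℂ) :
    mq N (x + y) π f = mq N x π f + mq N y π f := by
  unfold mq
  rw [← Finset.sum_add_distrib]
  refine Finset.sum_congr rfl fun s _ => ?_
  rw [Pi.add_apply, Pi.add_apply, add_mul]

theorem mq_smul' (N : ℕ) (x : ℕ → ℕ → ℂ) (r : ℂ) (π : ℕ) (f : ℤ → ℂ) :
    mq N (fun π s => r * x π s) π f = r * mq N x π f := by
  unfold mq
  rw [Finset.mul_sum]
  refine Finset.sum_congr rfl fun s _ => ?_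
  ring

theorem StPr_add {c : ℂ} {κ : ℕ → ℕ → ℕ → ℂ} {N : ℕ} {lam : ℂ} {x y : ℕ → ℕ → ℂ}
    (hx : StPr c κ N lam x) (hy : StPr c κ N lam y) : StPr c κ N lam (x + y) := by
  intro π f
  rw [mq_add', mul_add, hx π f, hy π f, ← Finset.sum_add_distrib]
  refine Finset.sum_congr rfl fun m _ => ?_
  rw [← Finset.sum_add_distrib]
  refine Finset.sum_congr rfl fun n _ => ?_
  rw [← Finset.sum_add_distrib]
  refine Finset.sum_congr rfl fun l _ => ?_
  unfold tq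
  rw [mq_add', mul_add]

theorem StPr_smul {c : ℂ} {κ : ℕ → ℕ → ℕ → ℂ} {N : ℕ} {lam : ℂ} {x : ℕ → ℕ → ℂ}
    (hx : StPr c κ N lam x) (r : ℂ) : StPr c κ N lam (fun π s => r * x π s) := by
  intro π f
  rw [mq_smul']
  have h1 : lam * (r * mq N x π f) = r * (lam * mq N x π f) := by ring
  rw [h1, hx π f, Finset.mul_sum]
  refine Finset.sum_congr rfl fun m _ => ?_
  rw [Finset.mul_sum]
  refine Finset.sum_congr rfl fun n _ => ?_
  rw [Finset.mul_sum]
  refine Finset.sum_congr rfl fun l _ => ?_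
  unfold tq
  rw [mq_smul']
  ring

/-! ### properties of `mq` -/

theorem mq_cg {N : ℕ} {x : ℕ → ℕ → ℂ} {p : ℕ} {f g : ℤ → ℂ} (h : ∀ s : ℕ, s ≤ N → f s = g s) :
    mq N x p f = mq N x p g := by
  unfold mq
  refine Finset.sum_congr rfl fun s hs => ?_
  have := Finset.mem_range.1 hs
  rw [h s (by omega)]

theorem mq_mul {N : ℕ} {x : ℕ → ℕ → ℂ} {p : ℕ} (c : ℂ) (f : ℤ → ℂ) :
    mq N x p (fun s => c * f s) = c * mq N x p f := by
  unfold mq
  rw [Finset.mul_sum]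
  exact Finset.sum_congr rfl fun s _ => by ring

theorem mq_add {N : ℕ} {x : ℕ → ℕ → ℂ} {p : ℕ} (f g : ℤ → ℂ) :
    mq N x p (fun s => f s + g s) = mq N x p f + mq N x p g := by
  unfold mq
  rw [← Finset.sum_add_distrib]
  exact Finset.sum_congr rfl fun s _ => by ring

theorem mq_mod {N : ℕ} {x : ℕ → ℕ → ℂ} {p q : ℕ} (f : ℤ → ℂ) (h : p % 2 = q % 2) :
    mq N x p f = mq N x q f := by
  unfold mq
  rw [h]

theorem tq_zero (c : ℂ) (κ : ℕ → ℕ → ℕ → ℂ) (N : ℕ) (x : ℕ → ℕ → ℂ) (π : ℕ) (f : ℤ → ℂ)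
    (m n l : ℕ) (h : N < m ∨ N < n) : tq c κ N x π f m n l = 0 := by
  unfold tq
  have h1 : mq N x (π + n + l) (fun s => dmG (-1) c N m n s * f (s - n + l)) =
      mq N x (π + n + l) (fun s => 0 * f s) := by
    refine mq_cg fun s hs => ?_
    rw [dmG_nat (-1) c N m n s hs]
    rcases h with h | h
    · rw [Nat.choose_eq_zero_of_lt (show N - s < m by omega)]; simp
    · rw [Nat.choose_eq_zero_of_lt (show s < n by omega)]; simp
  rw [h1, mq_mul]
  ring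

/-- the equation with extended ranges and a finite set of exceptional pairs: all other terms are in
the subgroup `J` -/
theorem starPr (c : ℂ) (κ : ℕ → ℕ → ℕ → ℂ) (N : ℕ) (lam : ℂ) (x : ℕ → ℕ → ℂ)
    (h : StPr c κ N lam x) (π : ℕ) (f : ℤ → ℂ) (J : AddSubgroup ℂ) (S : Finset (ℕ × ℕ))
    (hS : ∀ m n l, (m, n) ∉ S → l ≤ m + n → tq c κ N x π f m n l ∈ J) :
    ∃ z ∈ J, lam * mq N x π f =
      ∑ p ∈ S, ∑ l ∈ Finset.range (p.1 + p.2 + 1), tq c κ N x π f p.1 p.2 l + z := by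
  classical
  obtain ⟨K, hK⟩ : ∃ K, ∀ p ∈ S, p.1 < K ∧ p.2 < K := by
    refine ⟨∑ p ∈ S, (p.1 + p.2) + 1, fun p hp => ?_⟩
    have := Finset.single_le_sum (f := fun p : ℕ × ℕ => p.1 + p.2) (fun _ _ => Nat.zero_le _) hp
    omega
  set Q := Finset.range (K + (N + 1)) with hQ
  set F : ℕ × ℕ → ℂ := fun p => ∑ l ∈ Finset.range (p.1 + p.2 + 1), tq c κ N x π f p.1 p.2 l
    with hF
  have h0 := h π f
  have hsub : Finset.range (N + 1) ⊆ Q := by
    intro a ha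
    have := Finset.mem_range.1 ha
    exact Finset.mem_range.2 (by omega)
  have h1 : lam * mq N x π f = ∑ m ∈ Q, ∑ n ∈ Q, F (m, n) := by
    rw [h0]
    rw [← Finset.sum_subset hsub (f := fun m => ∑ n ∈ Q, F (m, n))]
    · refine Finset.sum_congr rfl fun m _ => ?_
      refine Finset.sum_subset hsub fun n _ hn' => ?_
      have : ¬ n < N + 1 := fun hh => hn' (Finset.mem_range.2 hh)
      exact Finset.sum_eq_zero fun l _ => tq_zero _ _ _ _ _ _ _ _ _ (Or.inr (by omega))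
    · intro m _ hm'
      have : ¬ m < N + 1 := fun hh => hm' (Finset.mem_range.2 hh)
      exact Finset.sum_eq_zero fun n _ => Finset.sum_eq_zero fun l _ =>
        tq_zero _ _ _ _ _ _ _ _ _ (Or.inl (by omega))
  rw [← Finset.sum_product'] at h1
  have hSQ : S ⊆ Q ×ˢ Q := by
    intro p hp
    have := hK p hp
    exact Finset.mem_product.2 ⟨Finset.mem_range.2 (by omega), Finset.mem_range.2 (by omega)⟩
  refine ⟨∑ p ∈ (Q ×ˢ Q) \ S, F p, AddSubgroup.sum_mem _ fun p hp => ?_, ?_⟩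
  · refine AddSubgroup.sum_mem _ fun l hl => ?_
    have hl' := Finset.mem_range.1 hl
    exact hS p.1 p.2 l (Finset.mem_sdiff.1 hp).2 (by omega)
  · rw [h1, add_comm, Finset.sum_sdiff hSQ]

/-- `starPr` with the diagonal terms collected -/
theorem starDPr (c : ℂ) (κ : ℕ → ℕ → ℕ → ℂ) (N : ℕ) (lam : ℂ) (x : ℕ → ℕ → ℂ)
    (h : StPr c κ N lam x) (π : ℕ) (f : ℤ → ℂ) (J : AddSubgroup ℂ) (S : Finset (ℕ × ℕ))
    (hS : ∀ m n l, l ≤ m + n → ((m, n) ∉ S ∨ l ≠ n) → tq c κ N x π f m n l ∈ J) :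
    ∃ z ∈ J, lam * mq N x π f =
      (-1) ^ π * mq N x π (fun s => (∑ p ∈ S, κ p.1 p.2 p.2 * dmG (-1) c N p.1 p.2 s) * f s) + z := by
  obtain ⟨z, hz, h1⟩ := starPr c κ N lam x h π f J S
    (fun m n l hmn hl => hS m n l hl (Or.inl hmn))
  have h2 : ∀ p : ℕ × ℕ, ∑ l ∈ Finset.range (p.1 + p.2 + 1), tq c κ N x π f p.1 p.2 l =
      tq c κ N x π f p.1 p.2 p.2 +
        ∑ l ∈ (Finset.range (p.1 + p.2 + 1)).erase p.2, tq c κ N x π f p.1 p.2 l := by
    intro p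
    exact (Finset.add_sum_erase _ _ (Finset.mem_range.2 (by omega))).symm
  have h3 : ∀ p : ℕ × ℕ, tq c κ N x π f p.1 p.2 p.2 =
      (-1) ^ π * mq N x π (fun s => (κ p.1 p.2 p.2 * dmG (-1) c N p.1 p.2 s) * f s) := by
    intro p
    unfold tq
    have e1 : (-1 : ℂ) ^ (π + p.2 + p.2) = (-1) ^ π := by
      rw [add_assoc, pow_add, ← two_mul, pow_mul]
      norm_num
    have e2 : (π + p.2 + p.2) % 2 = π % 2 := by omega
    rw [e1, mq_mod _ e2, mul_assoc, ← mq_mul]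
    congr 1
    refine mq_cg fun s _ => ?_
    have : ((s : ℕ) : ℤ) - (p.2 : ℤ) + (p.2 : ℤ) = (s : ℤ) := by ring
    rw [this]
    ring
  refine ⟨∑ p ∈ S, ∑ l ∈ (Finset.range (p.1 + p.2 + 1)).erase p.2, tq c κ N x π f p.1 p.2 l + z,
    add_mem (AddSubgroup.sum_mem _ fun p _ => AddSubgroup.sum_mem _ fun l hl => ?_) hz, ?_⟩
  · have hl1 := (Finset.mem_erase.1 hl).1
    have hl2 := Finset.mem_range.1 (Finset.mem_erase.1 hl).2
    exact hS p.1 p.2 l (by omega) (Or.inr hl1)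
  · rw [h1, Finset.sum_congr rfl fun p _ => h2 p, Finset.sum_add_distrib,
      Finset.sum_congr rfl fun p _ => h3 p, ← Finset.mul_sum, ← add_assoc]
    congr 3
    unfold mq
    rw [Finset.sum_comm]
    refine Finset.sum_congr rfl fun s _ => ?_
    rw [← Finset.mul_sum, ← Finset.sum_mul]

/-- normalized vectors -/
structure NmPr (O : ValuationSubring ℂ) (N : ℕ) (x : ℕ → ℕ → ℂ) : Prop where
  mem : ∀ (π : ℕ) (f : ℤ → ℂ), PO O f → O.valuation (mq N x π f) ≤ 1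
  unit : ∃ π n : ℕ, O.valuation (mq N x π fun s => (s : ℂ) ^ n) = 1

/-- the congruence modulo `27` -/
def CgPr (O : ValuationSubring ℂ) (N : ℕ) (x : ℕ → ℕ → ℂ) (lam d t : ℂ) : Prop :=
  ∀ (π : ℕ) (f : ℤ → ℂ), PO O f → ∃ (w : ℤ → ℂ) (z : ℂ), PO O w ∧ z ∈ O ∧
    lam * mq N x π f =
      (-1) ^ π * mq N x π (fun s => (d + 9 * t * ((s : ℂ) ^ 2 - (N : ℂ) * (s : ℂ))) * f s) +
        9 * mq N x (π + 1) w + 27 * z

/-- the congruence modulo `9` -/
def CgPr1 (O : ValuationSubring ℂ) (N : ℕ) (x : ℕ → ℕ → ℂ) (lam q : ℂ) : Prop :=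
  ∀ (π : ℕ) (f : ℤ → ℂ), PO O f → ∃ z : ℂ, z ∈ O ∧
    lam * mq N x π f =
      (-1) ^ π * mq N x π (fun s => 3 * q * (2 * (s : ℂ) - (N : ℂ)) * f s) + 9 * z

end Pool.Agent.Lib.MP_06b9d2_tls
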