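import Pool.Agent.Lib.MP_06b9d2_tls.PrC

/-!
Board TLS, algebra part, pairs: normalization (as in NrM).
-/

namespace Pool.Agent.Lib.MP_06b9d2_tls

open PowerSeries Pool.Agent.L1
open Pool.Agent.Lib.MP_06b9d2_ssp (PO PO_const PO_id PO_add PO_mul PO_shift int_mem val_int val_rat)

private theorem mqn_mod (N : ℕ) (x : ℕ → ℕ → ℂ) (π : ℕ) (f : ℤ → ℂ) : mq N x (π % 2) f = mq N x π f := by
  unfold mq
  rw [Nat.mod_mod]

private theorem mq_comb (N : ℕ) (x : ℕ → ℕ → ℂ) (π : ℕ) (f : ℤ → ℂ) (c : ℕ → ℂ)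
    (h : ∀ s : ℕ, s ≤ N → f (s : ℤ) = ∑ i ∈ Finset.range (N + 1), c i * (((s : ℕ) : ℤ) : ℂ) ^ i) :
    mq N x π f = ∑ i ∈ Finset.range (N + 1), c i * mq N x π (fun s => (s : ℂ) ^ i) := by
  unfold mq
  simp_rw [Finset.mul_sum]
  rw [Finset.sum_comm]
  refine Finset.sum_congr rfl fun s hs => ?_
  have hs' : s ≤ N := Nat.lt_succ_iff.mp (Finset.mem_range.mp hs)
  rw [h s hs', Finset.mul_sum]
  exact Finset.sum_congr rfl fun i _ => by ring

private theorem exists_ne (N : ℕ) (x : ℕ → ℕ → ℂ) (hx : ∃ π < 2, ∃ s ≤ N, x π s ≠ 0) :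
    ∃ π < 2, ∃ n ≤ N, mq N x π (fun s => (s : ℂ) ^ n) ≠ 0 := by
  obtain ⟨π0, hπ0, s0, hs0, hx0⟩ := hx
  by_contra hcon
  push Not at hcon
  set p : Polynomial ℂ := ∏ t ∈ (Finset.range (N + 1)).erase s0,
    (Polynomial.X - Polynomial.C (t : ℂ)) with hp
  have hdeg : p.natDegree < N + 1 := by
    rw [hp, Polynomial.natDegree_prod_of_monic _ _ (fun t _ => Polynomial.monic_X_sub_C _)]
    simp only [Polynomial.natDegree_X_sub_C, Finset.sum_const, smul_eq_mul, mul_one]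
    rw [Finset.card_erase_of_mem (Finset.mem_range.mpr (Nat.lt_succ_of_le hs0)), Finset.card_range]
    omega
  have h1 := mq_comb N x π0 (fun s => p.eval (s : ℂ)) (fun i => p.coeff i)
    (fun s _ => by
      show p.eval (((s : ℕ) : ℤ) : ℂ) = _
      rw [Polynomial.eval_eq_sum_range' hdeg])
  have h2 : mq N x π0 (fun s => p.eval (s : ℂ)) = 0 := by
    rw [h1]
    refine Finset.sum_eq_zero fun i hi => ?_
    rw [hcon π0 hπ0 i (Nat.lt_succ_iff.mp (Finset.mem_range.mp hi)), mul_zero]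
  unfold mq at h2
  rw [Nat.mod_eq_of_lt hπ0, Finset.sum_eq_single s0] at h2
  · rcases mul_eq_zero.mp h2 with h | h
    · exact hx0 h
    · beta_reduce at h
      rw [hp, Polynomial.eval_prod] at h
      obtain ⟨t, ht, h0⟩ := Finset.prod_eq_zero_iff.mp h
      simp only [Polynomial.eval_sub, Polynomial.eval_X, Polynomial.eval_C, Int.cast_natCast] at h0
      have : (s0 : ℂ) = (t : ℂ) := sub_eq_zero.mp h0
      exact (Finset.mem_erase.mp ht).1 (Nat.cast_injective this).symm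
  · intro s hs hne
    have hz : p.eval (((s : ℕ) : ℤ) : ℂ) = 0 := by
      rw [hp, Polynomial.eval_prod]
      refine Finset.prod_eq_zero (i := s) (Finset.mem_erase.mpr ⟨hne, hs⟩) ?_
      simp
    show x π0 s * p.eval (((s : ℕ) : ℤ) : ℂ) = 0
    rw [hz, mul_zero]
  · intro h
    exact absurd (Finset.mem_range.mpr (Nat.lt_succ_of_le hs0)) h

private theorem reduce (O : ValuationSubring ℂ) (N : ℕ) (p : Polynomial O) :
    ∃ c : ℕ → O, ∀ s : ℕ, s ≤ N →
      Polynomial.aeval (((s : ℕ) : ℤ) : ℂ) p =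
        ∑ i ∈ Finset.range (N + 1), (c i : ℂ) * (((s : ℕ) : ℤ) : ℂ) ^ i := by
  set Q : Polynomial O := ∏ t ∈ Finset.range (N + 1),
    (Polynomial.X - Polynomial.C (t : O)) with hQ
  have hmon : Q.Monic := Polynomial.monic_prod_of_monic _ _ fun t _ => Polynomial.monic_X_sub_C _
  have hdQ : Q.natDegree = N + 1 := by
    rw [hQ, Polynomial.natDegree_prod_of_monic _ _ (fun t _ => Polynomial.monic_X_sub_C _)]
    simp only [Polynomial.natDegree_X_sub_C, Finset.sum_const, smul_eq_mul, mul_one,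
      Finset.card_range]
  have hdeg : (p %ₘ Q).natDegree < N + 1 := by
    have hne : Q ≠ 1 := by
      intro h
      rw [h, Polynomial.natDegree_one] at hdQ
      omega
    have := Polynomial.natDegree_modByMonic_lt p hmon hne
    omega
  refine ⟨fun i => (p %ₘ Q).coeff i, fun s hs => ?_⟩
  have hQ0 : Polynomial.aeval (((s : ℕ) : ℤ) : ℂ) Q = 0 := by
    rw [hQ, map_prod]
    refine Finset.prod_eq_zero (i := s) (Finset.mem_range.mpr (Nat.lt_succ_of_le hs)) ?_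
    simp
  conv_lhs => rw [← Polynomial.modByMonic_add_div p Q]
  rw [map_add, map_mul, hQ0, zero_mul, add_zero, Polynomial.aeval_eq_sum_range' hdeg]
  refine Finset.sum_congr rfl fun i _ => ?_
  rw [Algebra.smul_def]
  rfl

theorem nrmPr (O : ValuationSubring ℂ) (N : ℕ) (x : ℕ → ℕ → ℂ)
    (hx : ∃ π < 2, ∃ s ≤ N, x π s ≠ 0) :
    ∃ r : ℂ, r ≠ 0 ∧ NmPr O N (fun π s => r * x π s) := by
  obtain ⟨π1, hπ1, n1, hn1, hne⟩ := exists_ne N x hx
  obtain ⟨⟨π0, n0⟩, hmem0, hmax⟩ := Finset.exists_max_image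
    (Finset.range 2 ×ˢ Finset.range (N + 1))
    (fun q : ℕ × ℕ => O.valuation (mq N x q.1 (fun s => (s : ℂ) ^ q.2)))
    ⟨(π1, n1), Finset.mem_product.mpr
      ⟨Finset.mem_range.mpr hπ1, Finset.mem_range.mpr (Nat.lt_succ_of_le hn1)⟩⟩
  have hmax' : ∀ π n : ℕ, n ≤ N → O.valuation (mq N x π (fun s => (s : ℂ) ^ n)) ≤
      O.valuation (mq N x π0 (fun s => (s : ℂ) ^ n0)) := by
    intro π n hn
    rw [← mqn_mod N x π]
    exact hmax (π % 2, n) (Finset.mem_product.mpr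
      ⟨Finset.mem_range.mpr (Nat.mod_lt _ (by norm_num)),
        Finset.mem_range.mpr (Nat.lt_succ_of_le hn)⟩)
  set w : ℂ := mq N x π0 (fun s => (s : ℂ) ^ n0) with hw
  have hw0 : w ≠ 0 := by
    intro h0
    have h1 := hmax' π1 n1 hn1
    rw [h0, map_zero, le_zero_iff, _root_.map_eq_zero] at h1
    exact hne h1
  have hvw : O.valuation w ≠ 0 := (map_ne_zero _).mpr hw0
  have hsmall : ∀ π n : ℕ, n ≤ N →
      O.valuation (w⁻¹ * mq N x π (fun s => (s : ℂ) ^ n)) ≤ 1 := by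
    intro π n hn
    rw [map_mul, map_inv₀, ← inv_mul_cancel₀ hvw]
    exact mul_le_mul_right (hmax' π n hn) _
  refine ⟨w⁻¹, inv_ne_zero hw0, ⟨?_, ?_⟩⟩
  · rintro π f ⟨p, hp⟩
    obtain ⟨c, hc⟩ := reduce O N p
    rw [mq_smul', mq_comb N x π f (fun i => (c i : ℂ)) (fun s hs => by rw [hp, hc s hs]),
      Finset.mul_sum]
    refine Valuation.map_sum_le _ fun i hi => ?_
    have hi' : i ≤ N := Nat.lt_succ_iff.mp (Finset.mem_range.mp hi)
    have heq : w⁻¹ * ((c i : ℂ) * mq N x π (fun s => (s : ℂ) ^ i)) =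
        (c i : ℂ) * (w⁻¹ * mq N x π (fun s => (s : ℂ) ^ i)) := by ring
    rw [heq, map_mul]
    exact mul_le_one' (O.valuation_le_one (c i)) (hsmall π i hi')
  · refine ⟨π0, n0, ?_⟩
    rw [mq_smul', ← hw, inv_mul_cancel₀ hw0, map_one]

end Pool.Agent.Lib.MP_06b9d2_tls
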