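import Pool.Agent.Lib.MP_06b9d2_tls.Vb

/-!
Module TLS-Ayi. The matrix of `TT l e k` on the forms `moX` and the statement at the cusp `S`.

`k = 3 N + a`, `P = X 0 ^ a * (X 0 ^ 3 - X 1 ^ 3) ^ (N - s) * (X 1 ^ 3) ^ s` is homogeneous of degree `k` and `aeval ![A, Y] P = moX A Y a N s`.
`h.hecke` gives `P'`. Component `0` (evaluation of a `Pi` ring at `0` is an algebra homomorphism, `cA e F G 0 = F`, `cY e s F G 0 = G`):
`∑ i, aeval ![br i A, br i Y] P = aeval ![V l A, V l Y] P' = V l (aeval ![A, Y] P')`; with `br_sum` and `V_inj`: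
`TT l e k (moX A Y a N s) = aeval ![A, Y] P'`. Write `P' = ∑_{r ≤ k} f_r X 0 ^ (k - r) X 1 ^ r`. Grading: `moX A Y a N s` has only coefficients with `3 ∣ n`
(`grA`, `grY`: `A`, `Y ^ 3`), so has `TT` of it (`l` prime, `l ≠ 3`); and `A ^ (k - r) Y ^ r` has only coefficients with `n ≡ r` modulo `3`. So the part of `aeval ![A, Y] P'`
with exponents `≡ 1, 2` modulo `3` vanishes: `∑_{r ≡ 1} f_r A ^ (k - r) Y ^ r = 0`, hence `f_r = 0` for `r ≡ 1, 2` modulo `3`
(independence of the `A ^ (k - r) Y ^ r`: lemma `AY_ind`, least `r` and the coefficient of `x ^ r`, which is `3 ^ r f_r`).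
So `P' = ∑_{j ≤ N} f_{3 j} X 0 ^ a (X 0 ^ 3) ^ (N - j) (X 1 ^ 3) ^ j`, and `X 0 ^ 3 = (X 0 ^ 3 - X 1 ^ 3) + X 1 ^ 3`: expand by the binomial theorem:
`P' = ∑_j g_j X 0 ^ a (X 0 ^ 3 - X 1 ^ 3) ^ (N - j) (X 1 ^ 3) ^ j`. Component `1` of `h.hecke`: `cA e F G 1 = (e / th) • (F + 2 G)`, `cY e s F G 1 = (e / th) • (F - G)`, `hom_smul`:
`(e / th) ^ k ∑ i, aeval ![x + 2 y, x - y] P = (1 / th) ^ k aeval ![V l A + 2 V l Y, V l A - V l Y] P'`, `e ^ 2 = 1`, `th ≠ 0`.
-/

namespace Pool.Agent.Lib.MP_06b9d2_tls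

open PowerSeries Pool.Agent.L1

theorem th_sq : th ^ 2 = -3 := by
  unfold th
  rw [mul_pow, Complex.I_sq, ← Complex.ofReal_pow, Real.sq_sqrt (by norm_num)]
  push_cast
  ring

private theorem cA_one {A Y : ℂ⟦X⟧} (h : Core A Y) : constantCoeff A = 1 := by
  obtain ⟨A₁, κ, hA, -, h1, -, -⟩ := h.int
  have h2 : constantCoeff (PowerSeries.map (Int.castRingHom ℂ) A₁) = 0 := by
    rw [← PowerSeries.coeff_zero_eq_constantCoeff_apply, PowerSeries.coeff_map,
      PowerSeries.coeff_zero_eq_constantCoeff_apply, h1, map_zero]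
  rw [hA, map_add, map_mul, h2, map_one, mul_zero, add_zero]

private theorem Y_fac {A Y : ℂ⟦X⟧} (h : Core A Y) :
    ∃ Z : ℂ⟦X⟧, Y = PowerSeries.X * Z ∧ constantCoeff Z = 3 := by
  obtain ⟨A₁, κ, -, hY, -, h0, h1⟩ := h.int
  obtain ⟨μ, hμ⟩ := PowerSeries.X_dvd_iff.mpr h0
  refine ⟨3 * PowerSeries.map (Int.castRingHom ℂ) μ, ?_, ?_⟩
  · rw [hY, hμ, map_mul, PowerSeries.map_X]
    ring
  · have h2 : constantCoeff μ = 1 := by
      have h3 := h1
      rw [hμ, show (1 : ℕ) = 0 + 1 from rfl, PowerSeries.coeff_succ_X_mul,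
        PowerSeries.coeff_zero_eq_constantCoeff_apply] at h3
      exact h3
    have h4 : constantCoeff (PowerSeries.map (Int.castRingHom ℂ) μ) = 1 := by
      rw [← PowerSeries.coeff_zero_eq_constantCoeff_apply, PowerSeries.coeff_map,
        PowerSeries.coeff_zero_eq_constantCoeff_apply, h2, map_one]
    rw [map_mul, h4, mul_one, map_ofNat]

theorem AY_ind {A Y : ℂ⟦X⟧} (h : Core A Y) (k : ℕ) (f : ℕ → ℂ)
    (hf : ∑ r ∈ Finset.range (k + 1), f r • (A ^ (k - r) * Y ^ r) = 0) : ∀ r ≤ k, f r = 0 := by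
  obtain ⟨Z, hYZ, hZ⟩ := Y_fac h
  have hA := cA_one h
  intro r
  induction r using Nat.strong_induction_on with
  | _ r ih =>
    intro hr
    have h1 := congrArg (PowerSeries.coeff r) hf
    rw [map_sum, map_zero, Finset.sum_eq_single r] at h1
    · rw [map_smul, smul_eq_mul, hYZ, mul_pow,
        show A ^ (k - r) * (PowerSeries.X ^ r * Z ^ r) = PowerSeries.X ^ r * (A ^ (k - r) * Z ^ r) by ring,
        PowerSeries.coeff_X_pow_mul', if_pos le_rfl, Nat.sub_self,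
        PowerSeries.coeff_zero_eq_constantCoeff_apply, map_mul, map_pow, map_pow, hA, hZ, one_pow,
        one_mul] at h1
      rcases mul_eq_zero.mp h1 with h2 | h2
      · exact h2
      · exact absurd h2 (pow_ne_zero _ (by norm_num))
    · intro j hj hjr
      rcases lt_or_gt_of_ne hjr with h2 | h2
      · rw [ih j h2 (by omega), zero_smul, map_zero]
      · rw [map_smul, smul_eq_mul, hYZ, mul_pow,
          show A ^ (k - j) * (PowerSeries.X ^ j * Z ^ j) = PowerSeries.X ^ j * (A ^ (k - j) * Z ^ j) by ring,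
          PowerSeries.coeff_X_pow_mul', if_neg (by omega), mul_zero]
    · intro h2
      exact absurd (Finset.mem_range.mpr (by omega)) h2

end Pool.Agent.Lib.MP_06b9d2_tls
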