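import Pool.Agent.Lib.MP_06b9d2_tls.Qd

/-!
Module TLS-C7. Weight `7`: commutation with `T_2`; valuations of some entries for `e = 1`.

`TT_comm`: `U 2 (U l f) = U (2 l) f = U l (U 2 f)`, `V 2 (V l f) = V l (V 2 f)`, `U 2 (V l f) = V l (U 2 f)`, `U l (V 2 f) = V 2 (U l f)` (coefficients; `l` odd).
`m7`: `N := M'` from `matD_ex` for `PL 2 (-1) (om ^ 2)`. `N 1 2 0 0 = 2 + (-2) ^ 7 = -126` (`mat_00`); `N 1 2 1 1 = (-1) ^ 3 N 1 2 1 1` (`sym` with `j = s = 1`), so `0`; `N 1 2 1 0`: `q_M` for `l = 2`, `i = 1`, `N = 2`: `2 coeff 2 (a (a^3-27c)^2) = -12 (-126) + 27 N 1 2 1 0`;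
`coeff 2`: from `r1`, `r2`, `gr`, `k1`: `a = 1 + 6 q + 0 q^2`, `c = q + 3 q^2`, `a^3 - 27 c = 1 - 9 q + 27 q^2`, `a (..)^2 = 1 - 12 q + 27 q^2` modulo `q^3`: `N 1 2 1 0 = (54 - 1512) / 27 = -54`. With `f_j = moX A Y 1 2 j`: `TT l 1 7 f_0 = λ f_0 + p f_1` (`M 1 2 2 0 = 0`: `mat_top`),
`TT l 1 7 f_1 = t f_1` (`mat_low`, `mat_top`), `TT 2 (-1) 7 f_0 = -126 f_0 - 54 f_1`, `TT 2 (-1) 7 f_1 = 0`. Apply `TT_comm` to `f_0` and compare the coefficients of `f_1` (`moX_ind`): `-126 p - 54 t = -54 λ`, so `p = (54 / 126) (λ - t) = (3 / 7) (λ - t)`.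
`mp_d`: `M a 2 0 0 = l + l ^ (6 + a)`, `M a 2 1 1 = l t` (`q_t`): the difference is `l (1 + l ^ (5 + a) - t) = l (81 z + 243 y)` (`cp6`, `cz7`, `cp8`), `z ≡ ((l - 1) / 3) ^ 2` is prime to `3` for `l ≡ 4, 7` modulo `9`.
`mp_10`: `a = 0, 2`: `q_M`: `27 M a 2 1 0 = l (coeff + (18 - 6 a) (1 + l ^ (5 + a)))` and `cp20`, `cp22`; `a = 1`: `m7` and `mp_d` (`3 * 81 = 243`). `mp_310`: `27 M 1 3 1 0 = l (coeff + 21 (1 + l ^ 9))`, `cp31`.
-/

namespace Pool.Agent.Lib.MP_06b9d2_tls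

open PowerSeries Pool.Agent.L1

private theorem coeff_TT' (l : ℕ) (e : ℂ) (w : ℕ) (f : ℂ⟦X⟧) (n : ℕ) :
    coeff n (TT l e w f) = (l : ℂ) * coeff (l * n) f +
      (e * l) ^ w * (if l ∣ n then coeff (n / l) f else 0) := by
  simp [TT, U, V, PowerSeries.coeff_mk]

private theorem TT_add' (l : ℕ) (e : ℂ) (w : ℕ) (f g : ℂ⟦X⟧) :
    TT l e w (f + g) = TT l e w f + TT l e w g := by
  ext n
  rw [map_add, coeff_TT', coeff_TT', coeff_TT']
  split_ifs <;> simp only [map_add] <;> ring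

private theorem TT_smul' (l : ℕ) (e : ℂ) (w : ℕ) (c : ℂ) (f : ℂ⟦X⟧) :
    TT l e w (c • f) = c • TT l e w f := by
  ext n
  rw [PowerSeries.coeff_smul, coeff_TT', coeff_TT']
  split_ifs <;> simp only [PowerSeries.coeff_smul, smul_eq_mul] <;> ring

theorem TT_comm (l : ℕ) (hl : l.Prime) (h2 : l ≠ 2) (e : ℂ) (w : ℕ) (f : ℂ⟦X⟧) :
    TT 2 (-1) w (TT l e w f) = TT l e w (TT 2 (-1) w f) := by
  have hcop : Nat.Coprime l 2 := (Nat.coprime_primes hl Nat.prime_two).2 h2
  have hlpos : 0 < l := hl.pos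
  ext n
  rw [coeff_TT', coeff_TT', coeff_TT', coeff_TT', coeff_TT', coeff_TT']
  have e1 : l ∣ 2 * n ↔ l ∣ n := by
    constructor
    · intro h; exact hcop.dvd_of_dvd_mul_left h
    · intro h; exact Dvd.dvd.mul_left h 2
  have e2 : 2 ∣ l * n ↔ 2 ∣ n := by
    constructor
    · intro h; exact hcop.symm.dvd_of_dvd_mul_left h
    · intro h; exact Dvd.dvd.mul_left h l
  by_cases ha : 2 ∣ n
  · by_cases hb : l ∣ n
    · obtain ⟨m, hm⟩ : 2 * l ∣ n := hcop.symm.mul_dvd_of_dvd_of_dvd ha hb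
      subst hm
      have f1 : 2 * l * m / 2 = l * m := by
        rw [mul_assoc]; exact Nat.mul_div_cancel_left _ (by norm_num)
      have f2 : 2 * l * m / l = 2 * m := by
        rw [show 2 * l * m = l * (2 * m) by ring]; exact Nat.mul_div_cancel_left _ hlpos
      have f3 : 2 * (2 * l * m) / l = 2 * (2 * m) := by
        rw [show 2 * (2 * l * m) = l * (2 * (2 * m)) by ring]; exact Nat.mul_div_cancel_left _ hlpos
      have f4 : l * (2 * l * m) / 2 = l * (l * m) := by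
        rw [show l * (2 * l * m) = 2 * (l * (l * m)) by ring]; exact Nat.mul_div_cancel_left _ (by norm_num)
      have f5 : l * m / l = m := Nat.mul_div_cancel_left _ hlpos
      have f6 : 2 * m / 2 = m := Nat.mul_div_cancel_left _ (by norm_num)
      rw [if_pos (e1.2 hb), if_pos ha, if_pos hb, if_pos (e2.2 ha), f1, f2, f3, f4,
        if_pos (Dvd.intro m rfl), if_pos (Dvd.intro m rfl), f5, f6,
        show l * (2 * (2 * l * m)) = 2 * (l * (2 * l * m)) by ring]
      push_cast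
      ring
    · have hc : ¬ l ∣ n / 2 := by
        intro h
        apply hb
        obtain ⟨m, rfl⟩ := ha
        rw [Nat.mul_div_cancel_left _ (by norm_num)] at h
        exact Dvd.dvd.mul_left h 2
      obtain ⟨m, rfl⟩ := ha
      have f4 : l * (2 * m) / 2 = l * m := by
        rw [show l * (2 * m) = 2 * (l * m) by ring]; exact Nat.mul_div_cancel_left _ (by norm_num)
      have f6 : 2 * m / 2 = m := Nat.mul_div_cancel_left _ (by norm_num)
      rw [if_neg (fun h => hb (e1.1 h)), if_pos (Dvd.intro m rfl), if_neg hc, if_neg hb,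
        if_pos (e2.2 (Dvd.intro m rfl)), f4, f6,
        show l * (2 * (2 * m)) = 2 * (l * (2 * m)) by ring]
      push_cast
      ring
  · by_cases hb : l ∣ n
    · have hc : ¬ 2 ∣ n / l := by
        intro h
        apply ha
        obtain ⟨m, rfl⟩ := hb
        rw [Nat.mul_div_cancel_left _ hlpos] at h
        exact Dvd.dvd.mul_left h l
      obtain ⟨m, rfl⟩ := hb
      have f3 : 2 * (l * m) / l = 2 * m := by
        rw [show 2 * (l * m) = l * (2 * m) by ring]; exact Nat.mul_div_cancel_left _ hlpos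
      have f5 : l * m / l = m := Nat.mul_div_cancel_left _ hlpos
      rw [if_pos (e1.2 (Dvd.intro m rfl)), if_neg ha, if_pos (Dvd.intro m rfl), if_neg hc,
        if_neg (fun h => ha (e2.1 h)), f3, f5,
        show l * (2 * (l * m)) = 2 * (l * (l * m)) by ring]
      push_cast
      ring
    · rw [if_neg (fun h => hb (e1.1 h)), if_neg ha, if_neg hb, if_neg (fun h => ha (e2.1 h)),
        show l * (2 * n) = 2 * (l * n) by ring]
      push_cast
      ring

private theorem cm1 (f g : ℤ⟦X⟧) : coeff 1 (f * g) = coeff 0 f * coeff 1 g + coeff 1 f * coeff 0 g := by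
  rw [PowerSeries.coeff_mul]
  rw [Finset.Nat.sum_antidiagonal_eq_sum_range_succ (fun i j => coeff i f * coeff j g) 1]
  simp [Finset.sum_range_succ]

private theorem cm2 (f g : ℤ⟦X⟧) : coeff 2 (f * g) =
    coeff 0 f * coeff 2 g + coeff 1 f * coeff 1 g + coeff 2 f * coeff 0 g := by
  rw [PowerSeries.coeff_mul]
  rw [Finset.Nat.sum_antidiagonal_eq_sum_range_succ (fun i j => coeff i f * coeff j g) 2]
  simp [Finset.sum_range_succ]

private theorem cm0 (f g : ℤ⟦X⟧) : coeff 0 (f * g) = coeff 0 f * coeff 0 g := by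
  simp

private theorem coef2 {A Y : ℂ⟦X⟧} {a k c : ℤ⟦X⟧} (q : Qd A Y a k c) :
    coeff 2 (a ^ 1 * (a ^ 3 - 27 * c) ^ 2) = 27 := by
  have hk0 : coeff 0 k = 0 := q.gr 0 (by norm_num)
  have hk1 : coeff 1 k = 1 := q.k1
  have hk2 : coeff 2 k = 0 := q.gr 2 (by norm_num)
  have ha0 : coeff 0 a = 1 := by
    rw [PowerSeries.coeff_zero_eq_constantCoeff_apply]; exact q.a0
  have hE0 : coeff 0 (PowerSeries.expand 3 three_ne_zero a) = 1 := by
    rw [PowerSeries.coeff_expand]; simp [ha0]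
  have hE1 : coeff 1 (PowerSeries.expand 3 three_ne_zero a) = 0 := by
    rw [PowerSeries.coeff_expand]; simp
  have hE2 : coeff 2 (PowerSeries.expand 3 three_ne_zero a) = 0 := by
    rw [PowerSeries.coeff_expand]; norm_num
  have h6 : ∀ n, coeff n (6 * k) = 6 * coeff n k := by
    intro n
    rw [show (6 : ℤ⟦X⟧) = C (6 : ℤ) from (map_ofNat (C : ℤ →+* ℤ⟦X⟧) 6).symm, PowerSeries.coeff_C_mul]
  have h3 : ∀ n, coeff n (3 * k) = 3 * coeff n k := by
    intro n
    rw [show (3 : ℤ⟦X⟧) = C (3 : ℤ) from (map_ofNat (C : ℤ →+* ℤ⟦X⟧) 3).symm, PowerSeries.coeff_C_mul]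
  have ha1 : coeff 1 a = 6 := by
    have := congrArg (coeff 1) q.r1
    rw [map_add, h6, hE1, hk1] at this
    simpa using this
  have ha2 : coeff 2 a = 0 := by
    have := congrArg (coeff 2) q.r1
    rw [map_add, h6, hE2, hk2] at this
    simpa using this
  rw [qd_B q]
  generalize hb : PowerSeries.expand 3 three_ne_zero a - 3 * k = b
  have hb0 : coeff 0 b = 1 := by rw [← hb, map_sub, h3, hE0, hk0]; norm_num
  have hb1 : coeff 1 b = -3 := by rw [← hb, map_sub, h3, hE1, hk1]; norm_num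
  have hb2 : coeff 2 b = 0 := by rw [← hb, map_sub, h3, hE2, hk2]; norm_num
  have e : a ^ 1 * (b ^ 3) ^ 2 = a * (((b * b) * b) * ((b * b) * b)) := by ring
  rw [e]
  simp only [cm2, cm1, cm0, hb0, hb1, hb2, ha0, ha1, ha2]
  norm_num

theorem m7 {A Y : ℂ⟦X⟧} (h : Core A Y) {l : ℕ} {s0 : ℂ} (hl : PL l 1 s0)
    {M : ℕ → ℕ → ℕ → ℕ → ℂ} (hM : MatD l 1 A Y M) :
    M 1 2 1 0 = 3 / 7 * (M 1 2 0 0 - M 1 2 1 1) := by
  have hl2 : l ≠ 2 := by
    rcases hl.2 with ⟨h1, -, -⟩ | ⟨-, h1, -⟩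
    · intro h2; rw [h2] at h1; norm_num at h1
    · exfalso
      norm_num at h1
  have hPL2 : PL 2 (-1) (om ^ 2) := ⟨Nat.prime_two, Or.inr ⟨by norm_num, rfl, rfl⟩⟩
  obtain ⟨N, hN⟩ := matD_ex h hPL2
  obtain ⟨a, k, c, q⟩ := qd_ex h
  have n00 : N 1 2 0 0 = -126 := by
    rw [mat_00 h hPL2 hN]; norm_num
  have n11 : N 1 2 1 1 = 0 := by
    have h1 := hN.sym 1 2 1 1 (by norm_num) (by norm_num)
    norm_num at h1
    have h2 : (2 : ℂ) * N 1 2 1 1 = 0 := by linear_combination h1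
    rcases mul_eq_zero.1 h2 with h3 | h3
    · norm_num at h3
    · exact h3
  have n10 : N 1 2 1 0 = -54 := by
    have h1 := q_M h q hPL2 hN 1 2
    rw [coef2 q, n00] at h1
    norm_num at h1
    have h2 : (27 : ℂ) * N 1 2 1 0 = 27 * (-54) := by linear_combination -h1
    exact mul_left_cancel₀ (by norm_num) h2
  have T0 : TT l 1 7 (moX A Y 1 2 0) = M 1 2 0 0 • moX A Y 1 2 0 + M 1 2 1 0 • moX A Y 1 2 1 := by
    have h1 := hM.eq 1 2 0 (by norm_num)
    rw [Finset.sum_range_succ, Finset.sum_range_succ, Finset.sum_range_succ, Finset.sum_range_zero,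
      mat_top h hl hM 1 2 0 (by norm_num)] at h1
    simpa using h1
  have T1 : TT l 1 7 (moX A Y 1 2 1) = M 1 2 1 1 • moX A Y 1 2 1 := by
    have h1 := hM.eq 1 2 1 (by norm_num)
    rw [Finset.sum_range_succ, Finset.sum_range_succ, Finset.sum_range_succ, Finset.sum_range_zero,
      mat_top h hl hM 1 2 1 (by norm_num), mat_low h hl hM 1 2 1 (by norm_num) (by norm_num)] at h1
    simpa using h1
  have S0 : TT 2 (-1) 7 (moX A Y 1 2 0) =
      (-126 : ℂ) • moX A Y 1 2 0 + (-54 : ℂ) • moX A Y 1 2 1 := by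
    have h1 := hN.eq 1 2 0 (by norm_num)
    rw [Finset.sum_range_succ, Finset.sum_range_succ, Finset.sum_range_succ, Finset.sum_range_zero,
      mat_top h hPL2 hN 1 2 0 (by norm_num), n00, n10] at h1
    simpa using h1
  have S1 : TT 2 (-1) 7 (moX A Y 1 2 1) = 0 := by
    have h1 := hN.eq 1 2 1 (by norm_num)
    rw [Finset.sum_range_succ, Finset.sum_range_succ, Finset.sum_range_succ, Finset.sum_range_zero,
      mat_top h hPL2 hN 1 2 1 (by norm_num), mat_low h hPL2 hN 1 2 1 (by norm_num) (by norm_num),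
      n11] at h1
    simpa using h1
  have hc := TT_comm l hl.1 hl2 1 7 (moX A Y 1 2 0)
  rw [T0, S0, TT_add', TT_add', TT_smul', TT_smul', TT_smul', TT_smul', T0, T1, S0, S1] at hc
  have hf1 : moX A Y 1 2 1 ≠ 0 := by
    obtain ⟨A₁, κ, hA, hY, hA0, hk0, hk1⟩ := h.int
    have hA' : constantCoeff A = 1 := by
      rw [hA, map_add, map_mul, map_one, ← PowerSeries.coeff_zero_eq_constantCoeff_apply
        (PowerSeries.map (Int.castRingHom ℂ) A₁), PowerSeries.coeff_map,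
        PowerSeries.coeff_zero_eq_constantCoeff_apply, hA0]
      simp
    have hY' : constantCoeff Y = 0 := by
      rw [hY, map_mul, ← PowerSeries.coeff_zero_eq_constantCoeff_apply
        (PowerSeries.map (Int.castRingHom ℂ) κ), PowerSeries.coeff_map,
        PowerSeries.coeff_zero_eq_constantCoeff_apply, hk0]
      simp
    have hYn : Y ≠ 0 := by
      intro h0
      rw [hY] at h0
      have h3 : (3 : ℂ⟦X⟧) ≠ 0 := by
        intro h3
        have := congrArg (constantCoeff (R := ℂ)) h3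
        rw [map_ofNat, map_zero] at this
        norm_num at this
      rcases mul_eq_zero.1 h0 with h4 | h4
      · exact h3 h4
      · have := congrArg (coeff 1) h4
        rw [PowerSeries.coeff_map, hk1] at this
        simp at this
    have hAn : A ≠ 0 := by
      intro h0; rw [h0, map_zero] at hA'; exact zero_ne_one hA'
    have hBn : A ^ 3 - Y ^ 3 ≠ 0 := by
      intro h0
      have := congrArg (constantCoeff (R := ℂ)) h0
      rw [map_sub, map_pow, map_pow, hA', hY', map_zero] at this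
      norm_num at this
    exact mul_ne_zero (mul_ne_zero (pow_ne_zero _ hAn) (pow_ne_zero _ hBn))
      (pow_ne_zero _ (pow_ne_zero _ hYn))
  have h5 : (-54 * M 1 2 0 0 + 126 * M 1 2 1 0 + 54 * M 1 2 1 1) • moX A Y 1 2 1 = 0 := by
    have h6 : (-54 * M 1 2 0 0 + 126 * M 1 2 1 0 + 54 * M 1 2 1 1) • moX A Y 1 2 1 =
        (M 1 2 0 0 • ((-126 : ℂ) • moX A Y 1 2 0 + (-54 : ℂ) • moX A Y 1 2 1) + M 1 2 1 0 • (0 : ℂ⟦X⟧)) -
        ((-126 : ℂ) • (M 1 2 0 0 • moX A Y 1 2 0 + M 1 2 1 0 • moX A Y 1 2 1) +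
          (-54 : ℂ) • (M 1 2 1 1 • moX A Y 1 2 1)) := by
      module
    rw [h6, hc, sub_self]
  rcases smul_eq_zero.1 h5 with h6 | h6
  · have h7 : (126 : ℂ) * M 1 2 1 0 = 126 * (3 / 7 * (M 1 2 0 0 - M 1 2 1 1)) := by
      linear_combination h6
    exact mul_left_cancel₀ (by norm_num) h7
  · exact absurd h6 hf1

end Pool.Agent.Lib.MP_06b9d2_tls
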