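import Pool.Agent.Lib.MP_06b9d2_tls.CgM

/-!
Board TLS, algebra part. The congruences for the eigenvectors: `e = -1`, `a = 1` and `e = 1`.
-/

namespace Pool.Agent.Lib.MP_06b9d2_tls

open PowerSeries Pool.Agent.L1
open Pool.Agent.Lib.MP_06b9d2_ssp (PO PO_const PO_id PO_add PO_mul PO_shift int_mem val_int val_rat)

variable {O : ValuationSubring ℂ}

private theorem pf2 (m n : ℕ) (h : 2 ≤ m + n) :
    padicValNat 3 (m.factorial * n.factorial) + 2 ≤ m + n := by
  have : Fact (Nat.Prime 3) := ⟨Nat.prime_three⟩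
  rw [padicValNat.mul (Nat.factorial_ne_zero m) (Nat.factorial_ne_zero n)]
  have h1 := val_fact m
  have h2 := val_fact n
  omega

private theorem pf5 (m n : ℕ) (h : 4 ≤ m + n) : ∃ a b, a + b = 5 ∧
    padicValNat 3 (m.factorial * n.factorial) + a ≤ m + n ∧ b ≤ (m + n + 1) / 2 := by
  have : Fact (Nat.Prime 3) := ⟨Nat.prime_three⟩
  rw [padicValNat.mul (Nat.factorial_ne_zero m) (Nat.factorial_ne_zero n)]
  have h1 := val_fact m
  have h2 := val_fact n
  by_cases h5 : m + n ≤ 9
  · refine ⟨5 - (m + n + 1) / 2, (m + n + 1) / 2, by omega, ?_, le_refl _⟩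
    omega
  · exact ⟨5, 0, rfl, by omega, Nat.zero_le _⟩

theorem cgM1 (h3 : O.valuation 3 < 1) (N : ℕ) (c : ℂ) (κ : ℕ → ℕ → ℕ → ℂ) (h : DatM1 O c κ) :
    ∃ q : ℂ, O.valuation q = 1 ∧ ∀ (lam : ℂ) (x : ℕ → ℂ),
      EgG (MG (-1) c κ N) N lam x → NmM O 2 N x → CgM1 O N x lam q := by
  have hc0 : c ≠ 0 := by
    rintro rfl
    have := h.hc
    rw [map_zero] at this
    exact zero_ne_one this
  have hc1 := h.hc
  refine ⟨κ 1 0 0 / c, by rw [map_div₀, h.hu, hc1, div_one], ?_⟩
  intro lam x hE hn π f hf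
  obtain ⟨z, hz, h1⟩ := starD (Or.inr rfl) (by norm_num : (-1 : ℂ) ^ 2 = 1) c κ h.deg N lam x hE π f
    (J3 O 2) {(0, 0), (1, 0), (0, 1)} (by
      intro m n l hl hmn
      by_cases h2 : 2 ≤ m + n
      · exact J3_mk (tm_mem h3 (v_neg_one O) hc1 κ hn π hf m n l 2 0 2 rfl (pf2 m n h2)
          (by rw [pow_zero]; exact h.int _ _ _))
      · have hz0 : ∀ m n l, κ m n l = 0 → tm 2 (-1) c κ N x π f m n l ∈ J3 O 2 := by
          intro m n l hk
          unfold tm
          rw [hk, mul_zero, zero_mul]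
          exact zero_mem _
        have hS : (m = 0 ∧ n = 0) ∨ (m = 1 ∧ n = 0) ∨ (m = 0 ∧ n = 1) := by omega
        rcases hS with ⟨rfl, rfl⟩ | ⟨rfl, rfl⟩ | ⟨rfl, rfl⟩
        · have : l = 0 := by omega
          subst this
          exact hz0 _ _ _ h.h000
        · have hln : l ≠ 0 := hmn.resolve_left (fun hh => hh (by simp))
          have : l = 1 := by omega
          subst this
          exact hz0 _ _ _ h.h101
        · have hln : l ≠ 1 := hmn.resolve_left (fun hh => hh (by simp))
          have : l = 0 := by omega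
          subst this
          exact hz0 _ _ _ h.h010)
  obtain ⟨z', hz', hzz⟩ := J3_ex hz
  refine ⟨z', hz', ?_⟩
  rw [h1, hzz]
  have e5 : muM 2 N x π (fun s => (∑ p ∈ ({(0, 0), (1, 0), (0, 1)} : Finset (ℕ × ℕ)),
      κ p.1 p.2 p.2 * dmG (-1) c N p.1 p.2 s) * f s) =
      muM 2 N x π (fun s => 3 * (κ 1 0 0 / c) * (2 * (s : ℂ) - (N : ℂ)) * f s) := by
    refine muM_cg fun s _ => ?_
    rw [Finset.sum_insert (by decide), Finset.sum_insert (by decide), Finset.sum_singleton]
    simp only [dmG, Finset.prod_range_succ, Finset.prod_range_zero, Nat.factorial, h.h000, h.h011]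
    push_cast
    field_simp
    ring
  rw [e5]
  norm_num

theorem cgP (h3 : O.valuation 3 < 1) (N : ℕ) (c : ℂ) (κ : ℕ → ℕ → ℕ → ℂ) (h : DatP O c κ) :
    ∃ d t : ℂ, O.valuation d ≤ 1 ∧ O.valuation t = 1 ∧ ∀ (lam : ℂ) (x : ℕ → ℂ),
      EgG (MG 1 c κ N) N lam x → NmM O 1 N x → CgP O N x lam d t := by
  have hc0 : c ≠ 0 := by
    rintro rfl
    have := h.hc
    rw [map_zero] at this
    exact zero_ne_one this
  have hc1 := h.hc
  have v3le : O.valuation (3 : ℂ) ≤ 1 := h3.le
  have hv9 : O.valuation (9 : ℂ) ≠ 0 := (map_ne_zero _).mpr (by norm_num)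
  have v27 : O.valuation (27 : ℂ) = O.valuation 3 ^ 3 := by
    rw [← map_pow]
    norm_num
  have hN : ∀ n : ℕ, O.valuation (n : ℂ) ≤ 1 := fun n => by
    have := int_mem O (n : ℤ)
    simpa using this
  have hint : ∀ m n r, O.valuation (κ m n r) ≤ 1 := fun m n r =>
    (h.int m n r).trans (pow_le_one₀ zero_le v3le)
  have hch2 : O.valuation ((N : ℂ) * (N - 1) / 2) ≤ 1 := by
    have := hN (N.choose 2)
    rwa [Nat.cast_choose_two] at this
  have hdc : ∀ (y : ℂ) (k : ℕ), O.valuation y ≤ 1 → O.valuation (y / c ^ k) ≤ 1 := by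
    intro y k hy
    rw [map_div₀, map_pow, hc1, one_pow, div_one]
    exact hy
  set d : ℂ := κ 0 0 0 + 3 * (κ 1 0 0 / c ^ 1 * N) + 9 * (κ 2 0 0 / c ^ 2 * (N * (N - 1) / 2)) with hd
  set t : ℂ := (κ 2 0 0 - κ 1 1 1) / 9 / c ^ 2 with ht
  refine ⟨d, t, ?_, ?_, ?_⟩
  · rw [hd]
    have i9 : O.valuation (9 : ℂ) ≤ 1 := by simpa using int_mem O 9
    refine Valuation.map_add_le _ (Valuation.map_add_le _ (hint _ _ _) ?_) ?_
    · rw [map_mul, map_mul]
      exact mul_le_one' v3le (mul_le_one' (hdc _ _ (hint _ _ _)) (hN N))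
    · rw [map_mul, map_mul]
      exact mul_le_one' i9 (mul_le_one' (hdc _ _ (hint _ _ _)) hch2)
  · rw [ht, map_div₀, map_div₀, map_pow, hc1, one_pow, div_one, h.ht, div_self hv9]
  · intro lam x hE hn f hf
    have v1 : O.valuation (1 : ℂ) = 1 := map_one _
    obtain ⟨z, hz, h1⟩ := starD (Or.inl rfl) (by norm_num : (1 : ℂ) ^ 1 = 1) c κ h.deg N lam x hE 0 f
      (J3 O 5) {(0, 0), (1, 0), (0, 1), (2, 0), (1, 1), (0, 2)} (by
        intro m n l hl hmn
        have hz0 : ∀ m n l, κ m n l = 0 → tm 1 1 c κ N x 0 f m n l ∈ J3 O 5 := by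
          intro m n l hk
          unfold tm
          rw [hk, mul_zero, zero_mul]
          exact zero_mem _
        have hab : ∀ m n l a b, a + b = 5 →
            padicValNat 3 (m.factorial * n.factorial) + a ≤ m + n →
            O.valuation (κ m n l) ≤ O.valuation 3 ^ b → tm 1 1 c κ N x 0 f m n l ∈ J3 O 5 :=
          fun m n l a b hab h1 h2 =>
            J3_mk (tm_mem h3 v1 hc1 κ hn 0 hf m n l a b 5 hab h1 h2)
        by_cases h4 : 4 ≤ m + n
        · obtain ⟨a, b, h5, h6, h7⟩ := pf5 m n h4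
          refine hab m n l a b h5 h6 ((h.int m n l).trans ?_)
          exact pow_le_pow_right_of_le_one' v3le h7
        by_cases h33 : m + n = 3
        · have : Fact (Nat.Prime 3) := ⟨Nat.prime_three⟩
          have f3 : padicValNat 3 (m.factorial * n.factorial) + 2 ≤ m + n := pf2 m n (by omega)
          by_cases h21 : m = 3 ∨ n = 3
          · rcases h21 with rfl | rfl
            · have : n = 0 := by omega
              subst this
              exact hab _ _ _ 2 3 rfl f3 ((h.h30 l).trans v27.le)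
            · have : m = 0 := by omega
              subst this
              exact hab _ _ _ 2 3 rfl f3 ((h.h03 l).trans v27.le)
          · refine hab _ _ _ 3 2 rfl ?_ ((h.int m n l).trans ?_)
            · rw [padicValNat.mul (Nat.factorial_ne_zero m) (Nat.factorial_ne_zero n)]
              have h1 := val_fact m
              have h2 := val_fact n
              omega
            · rw [show (m + n + 1) / 2 = 2 by omega]
        have hth : ∀ m n l, m + n = 2 → O.valuation (κ m n l) ≤ O.valuation 27 →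
            tm 1 1 c κ N x 0 f m n l ∈ J3 O 5 := by
          intro m n l hh hk
          exact hab _ _ _ 2 3 rfl (pf2 m n (by omega)) (hk.trans v27.le)
        have hS : (m = 0 ∧ n = 0) ∨ (m = 1 ∧ n = 0) ∨ (m = 0 ∧ n = 1) ∨ (m = 2 ∧ n = 0) ∨
          (m = 1 ∧ n = 1) ∨ (m = 0 ∧ n = 2) := by omega
        rcases hS with ⟨rfl, rfl⟩ | ⟨rfl, rfl⟩ | ⟨rfl, rfl⟩ | ⟨rfl, rfl⟩ | ⟨rfl, rfl⟩ | ⟨rfl, rfl⟩
        · have hln : l ≠ 0 := hmn.resolve_left (fun hh => hh (by simp))
          omega
        · have hln : l ≠ 0 := hmn.resolve_left (fun hh => hh (by simp))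
          have : l = 1 := by omega
          subst this
          exact hz0 _ _ _ h.h101
        · have hln : l ≠ 1 := hmn.resolve_left (fun hh => hh (by simp))
          have : l = 0 := by omega
          subst this
          exact hz0 _ _ _ h.h010
        · have hln : l ≠ 0 := hmn.resolve_left (fun hh => hh (by simp))
          have : l = 1 ∨ l = 2 := by omega
          rcases this with rfl | rfl
          · exact hth _ _ _ rfl h.h201
          · exact hz0 _ _ _ h.h202
        · have hln : l ≠ 1 := hmn.resolve_left (fun hh => hh (by simp))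
          have : l = 0 ∨ l = 2 := by omega
          rcases this with rfl | rfl
          · exact hz0 _ _ _ h.h110
          · exact hz0 _ _ _ h.h112
        · have hln : l ≠ 2 := hmn.resolve_left (fun hh => hh (by simp))
          have : l = 0 ∨ l = 1 := by omega
          rcases this with rfl | rfl
          · exact hz0 _ _ _ h.h020
          · exact hth _ _ _ rfl h.h021)
    obtain ⟨z', hz', hzz⟩ := J3_ex hz
    refine ⟨z', hz', ?_⟩
    rw [h1, hzz]
    have e5 : muM 1 N x 0 (fun s => (∑ p ∈ ({(0, 0), (1, 0), (0, 1), (2, 0), (1, 1), (0, 2)} :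
        Finset (ℕ × ℕ)), κ p.1 p.2 p.2 * dmG 1 c N p.1 p.2 s) * f s) =
        muM 1 N x 0 (fun s => (d + 81 * t * ((s : ℂ) ^ 2 - (N : ℂ) * (s : ℂ))) * f s) := by
      refine muM_cg fun s _ => ?_
      rw [Finset.sum_insert (by decide), Finset.sum_insert (by decide),
        Finset.sum_insert (by decide), Finset.sum_insert (by decide),
        Finset.sum_insert (by decide), Finset.sum_singleton]
      simp only [dmG, Finset.prod_range_succ, Finset.prod_range_zero, Nat.factorial, h.h011, h.h022,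
        hd, ht]
      push_cast
      field_simp
      ring
    rw [e5]
    norm_num

end Pool.Agent.Lib.MP_06b9d2_tls
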