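import Pool.Agent.Lib.MP_06b9d2_tls.DefsC

/-!
Module TLS-Eco. Coefficients of `E4`, `E6` at primes.
-/

namespace Pool.Agent.Lib.MP_06b9d2_tls

open PowerSeries Pool.Agent.L1

theorem e4_co (l : ℕ) (hl : l.Prime) : coeff l (e4 ℤ) = 240 * (1 + (l : ℤ) ^ 3) := by
  have h1 : e4 ℤ = E4z := by
    unfold e4
    ext n
    simp
  rw [h1, coeff_E4z, if_neg hl.ne_zero, ← pow_one l, ArithmeticFunction.sigma_apply_prime_pow hl]
  simp [Finset.sum_range_succ]

theorem e6_co (l : ℕ) (hl : l.Prime) : coeff l (e6 ℤ) = -504 * (1 + (l : ℤ) ^ 5) := by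
  have h1 : e6 ℤ = E6z := by
    unfold e6
    ext n
    simp
  rw [h1, coeff_E6z, if_neg hl.ne_zero, ← pow_one l, ArithmeticFunction.sigma_apply_prime_pow hl]
  simp [Finset.sum_range_succ]

end Pool.Agent.Lib.MP_06b9d2_tls
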