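import Pool.Agent.Lib.MP_06b9d2_tls.DefsC
import Pool.Agent.Lib.L1.SpanC

/-!
Module TLS-Eco8. Coefficients of `E4 ^ 2`, `E4 E6` at primes: the spaces of modular forms of weights
`8`, `10` are one dimensional (`form_mem_ML`), so `E4 ^ 2 = E8`, `E4 E6 = E10`.
-/

namespace Pool.Agent.Lib.MP_06b9d2_tls

open PowerSeries Pool.Agent.L1 UpperHalfPlane ModularForm EisensteinSeries
open scoped MatrixGroups ArithmeticFunction.sigma

private theorem eco8_one {k : ℕ} (hd : dd k = 1) (f : ModularForm 𝒮ℒ (k : ℤ))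
    (h0 : (qExpansion 1 f).coeff 0 = 1) : qExpansion 1 f = bas ℂ k 0 := by
  have h1 := form_mem_ML k (k : ℤ) rfl f
  unfold ML at h1
  have h2 : Set.range (fun j : Fin (dd k) => bas ℂ k j) = {bas ℂ k 0} := by
    ext x
    simp only [Set.mem_range, Set.mem_singleton_iff]
    constructor
    · rintro ⟨j, rfl⟩
      have : (j : ℕ) = 0 := by have := j.2; omega
      rw [this]
    · rintro rfl
      exact ⟨⟨0, by omega⟩, rfl⟩
  rw [h2, Submodule.mem_span_singleton] at h1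
  obtain ⟨c, hc⟩ := h1
  have h3 := congrArg (coeff 0) hc
  rw [coeff_smul, coeff_bas_self, h0, smul_eq_mul, mul_one] at h3
  rw [← hc, h3, one_smul]

private theorem eco8_map_e4 : PowerSeries.map (Int.castRingHom ℂ) (e4 ℤ) = e4 ℂ := map_e4 _

private theorem eco8_map_e6 : PowerSeries.map (Int.castRingHom ℂ) (e6 ℤ) = e6 ℂ := map_e6 _

private theorem eco8_sigma (k l : ℕ) (hl : l.Prime) : ((σ k l : ℕ) : ℂ) = 1 + (l : ℂ) ^ k := by
  rw [← pow_one l, ArithmeticFunction.sigma_apply_prime_pow hl]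
  simp [Finset.sum_range_succ]

theorem e8_co (l : ℕ) (hl : l.Prime) : coeff l (e4 ℤ ^ 2) = 480 * (1 + (l : ℤ) ^ 7) := by
  have h1 : bas ℂ 8 0 = e4 ℂ ^ 2 := by
    simp [bas, ba, bb]
  have h0 : (qExpansion 1 (E (by norm_num : 3 ≤ 8))).coeff 0 = 1 :=
    E_qExpansion_coeff_zero _ ⟨4, rfl⟩
  have h2 := eco8_one (k := 8) (by decide) (E (by norm_num : 3 ≤ 8)) h0
  have h3 := congrArg (coeff l) h2
  rw [E_qExpansion_coeff _ ⟨4, rfl⟩, if_neg hl.ne_zero, h1, ← eco8_map_e4, ← map_pow, coeff_map,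
    eco8_sigma _ l hl, show bernoulli 8 = -1 / 30 by decide +kernel] at h3
  have h4 : ((coeff l (e4 ℤ ^ 2) : ℤ) : ℂ) = ((480 * (1 + (l : ℤ) ^ 7) : ℤ) : ℂ) := by
    rw [eq_intCast] at h3
    rw [← h3]
    push_cast
    norm_num
  exact_mod_cast h4

theorem e10_co (l : ℕ) (hl : l.Prime) : coeff l (e4 ℤ * e6 ℤ) = -264 * (1 + (l : ℤ) ^ 9) := by
  have h1 : bas ℂ 10 0 = e4 ℂ * e6 ℂ := by
    simp [bas, ba, bb]
  have h0 : (qExpansion 1 (E (by norm_num : 3 ≤ 10))).coeff 0 = 1 :=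
    E_qExpansion_coeff_zero _ ⟨5, rfl⟩
  have h2 := eco8_one (k := 10) (by decide) (E (by norm_num : 3 ≤ 10)) h0
  have h3 := congrArg (coeff l) h2
  rw [E_qExpansion_coeff _ ⟨5, rfl⟩, if_neg hl.ne_zero, h1, ← eco8_map_e4, ← eco8_map_e6, ← map_mul,
    coeff_map, eco8_sigma _ l hl, show bernoulli 10 = 5 / 66 by decide +kernel] at h3
  have h4 : ((coeff l (e4 ℤ * e6 ℤ) : ℤ) : ℂ) = ((-264 * (1 + (l : ℤ) ^ 9) : ℤ) : ℂ) := by
    rw [eq_intCast] at h3
    rw [← h3]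
    push_cast
    norm_num
  exact_mod_cast h4

end Pool.Agent.Lib.MP_06b9d2_tls
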