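import Pool.Agent.Lib.MP_06b9d2_tls.Mono
import Pool.Agent.Lib.MP_06b9d2_tls.Eco
import Pool.Agent.Lib.MP_06b9d2_tls.Eco8

/-!
Module TLS-Cm. Coefficients of polynomials in `a'`, `k` at `n ≡ 2` modulo `3`; the congruences for `e = -1`.

`a' = expand 3 a` has only exponents divisible by `3`, `k` only exponents `≡ 1`: `coeff n (k ^ i * a' ^ j) = 0` if `n % 3 ≠ i % 3` (`mono_co`). With `a = a' + 6 k`, `c = k (a' ^ 2 + 3 a' k + 9 k ^ 2)`, `a ^ 3 - 27 c = (a' - 3 k) ^ 3` expand everything (`ring`):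
`(a ^ 3 - 27 c) c = k a'^5 - 6 k^2 a'^4 + 9 k^3 a'^3 - 27 k^4 a'^2 + 162 k^5 a' - 243 k^6`; `a ^ 2` times this has the part `6 k^2 a'^6 + 162 k^5 a'^3 - 8748 k^8` with exponents `≡ 2`;
`e6` (`h6`): the part `-504 (33 k^2 a'^4 + 2268 k^5 a')`; `e4 ^ 2` (`h4`): the part `480 (129 k^2 a'^6 + 73224 k^5 a'^3 + 349920 k^8)`. So at a prime `l ≡ 2`:
`11 t_6 + 2 (1 + l^5) = 6318 [k^5 a']_l`, `6318 = 26 * 243`; `43 t_8 - 2 (1 + l^7) = -139482 [k^5 a'^3]_l - 1076004 [k^8]_l`, both divisible by `243`.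
`cm_v`: `M a 2 0 0 = l + (-l) ^ (6 + a) = l (1 + l ^ (5 + a))` (`mat_00`, `a` even), `M a 2 1 1 = l t` (`q_t`): `11 (1 + l^5 + t_6) = 9 (1 + l^5) + 243 y`, `43 (1 + l^7 + t_8) = 45 (1 + l^7) + 243 y`; `1 + l^5` and `1 + l^7` are `3` times a number prime to `3`
for `l ≡ 2, 5` modulo `9`. (`v` of integers: `val_int`, `v_prime`.)
-/

namespace Pool.Agent.Lib.MP_06b9d2_tls

open PowerSeries Pool.Agent.L1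

private theorem cmx_int (l : ℕ) (n : ℤ) (f : ℤ⟦X⟧) : coeff l (((n : ℤ) : ℤ⟦X⟧) * f) = n * coeff l f := by
  rw [← zsmul_eq_mul, map_zsmul, smul_eq_mul]

private theorem cmx_t6 {A Y : ℂ⟦X⟧} {a k c : ℤ⟦X⟧} (q : Qd A Y a k c) (l : ℕ) (h2 : l % 3 = 2) :
    coeff l ((a ^ 3 - 27 * c) * c) =
      (-6 : ℤ) * coeff l (k ^ 2 * PowerSeries.expand 3 three_ne_zero a ^ 4) + (162 : ℤ) * coeff l (k ^ 5 * PowerSeries.expand 3 three_ne_zero a ^ 1) := by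
  have h1 := q.r1
  have h3 := q.r2
  have hz := mono_co q l
  set b : ℤ⟦X⟧ := PowerSeries.expand 3 three_ne_zero a with hb
  have hs : ((a ^ 3 - 27 * c) * c : ℤ⟦X⟧) =
      ((1 : ℤ) : ℤ⟦X⟧) * (k ^ 1 * b ^ 5) +
      ((-6 : ℤ) : ℤ⟦X⟧) * (k ^ 2 * b ^ 4) +
      ((9 : ℤ) : ℤ⟦X⟧) * (k ^ 3 * b ^ 3) +
      ((-27 : ℤ) : ℤ⟦X⟧) * (k ^ 4 * b ^ 2) +
      ((162 : ℤ) : ℤ⟦X⟧) * (k ^ 5 * b ^ 1) +
      ((-243 : ℤ) : ℤ⟦X⟧) * (k ^ 6 * b ^ 0) := by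
    clear_value b
    subst h3
    subst h1
    push_cast
    ring
  rw [hs]
  simp only [map_add, cmx_int]
  rw [hz 1 5 (by omega)]
  rw [hz 3 3 (by omega)]
  rw [hz 4 2 (by omega)]
  rw [hz 6 0 (by omega)]
  ring

private theorem cmx_t8 {A Y : ℂ⟦X⟧} {a k c : ℤ⟦X⟧} (q : Qd A Y a k c) (l : ℕ) (h2 : l % 3 = 2) :
    coeff l (a ^ 2 * (a ^ 3 - 27 * c) * c) =
      (6 : ℤ) * coeff l (k ^ 2 * PowerSeries.expand 3 three_ne_zero a ^ 6) + (162 : ℤ) * coeff l (k ^ 5 * PowerSeries.expand 3 three_ne_zero a ^ 3) + (-8748 : ℤ) * coeff l (k ^ 8 * PowerSeries.expand 3 three_ne_zero a ^ 0) := by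
  have h1 := q.r1
  have h3 := q.r2
  have hz := mono_co q l
  set b : ℤ⟦X⟧ := PowerSeries.expand 3 three_ne_zero a with hb
  have hs : (a ^ 2 * (a ^ 3 - 27 * c) * c : ℤ⟦X⟧) =
      ((1 : ℤ) : ℤ⟦X⟧) * (k ^ 1 * b ^ 7) +
      ((6 : ℤ) : ℤ⟦X⟧) * (k ^ 2 * b ^ 6) +
      ((-27 : ℤ) : ℤ⟦X⟧) * (k ^ 3 * b ^ 5) +
      ((-135 : ℤ) : ℤ⟦X⟧) * (k ^ 4 * b ^ 4) +
      ((162 : ℤ) : ℤ⟦X⟧) * (k ^ 5 * b ^ 3) +
      ((729 : ℤ) : ℤ⟦X⟧) * (k ^ 6 * b ^ 2) +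
      ((2916 : ℤ) : ℤ⟦X⟧) * (k ^ 7 * b ^ 1) +
      ((-8748 : ℤ) : ℤ⟦X⟧) * (k ^ 8 * b ^ 0) := by
    clear_value b
    subst h3
    subst h1
    push_cast
    ring
  rw [hs]
  simp only [map_add, cmx_int]
  rw [hz 1 7 (by omega)]
  rw [hz 3 5 (by omega)]
  rw [hz 4 4 (by omega)]
  rw [hz 6 2 (by omega)]
  rw [hz 7 1 (by omega)]
  ring

private theorem cmx_e6 {A Y : ℂ⟦X⟧} {a k c : ℤ⟦X⟧} (q : Qd A Y a k c) (l : ℕ) (h2 : l % 3 = 2) :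
    coeff l (a ^ 6 - 540 * a ^ 3 * c - 5832 * c ^ 2) =
      (-16632 : ℤ) * coeff l (k ^ 2 * PowerSeries.expand 3 three_ne_zero a ^ 4) + (-1143072 : ℤ) * coeff l (k ^ 5 * PowerSeries.expand 3 three_ne_zero a ^ 1) := by
  have h1 := q.r1
  have h3 := q.r2
  have hz := mono_co q l
  set b : ℤ⟦X⟧ := PowerSeries.expand 3 three_ne_zero a with hb
  have hs : (a ^ 6 - 540 * a ^ 3 * c - 5832 * c ^ 2 : ℤ⟦X⟧) =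
      ((1 : ℤ) : ℤ⟦X⟧) * (k ^ 0 * b ^ 6) +
      ((-504 : ℤ) : ℤ⟦X⟧) * (k ^ 1 * b ^ 5) +
      ((-16632 : ℤ) : ℤ⟦X⟧) * (k ^ 2 * b ^ 4) +
      ((-123012 : ℤ) : ℤ⟦X⟧) * (k ^ 3 * b ^ 3) +
      ((-517104 : ℤ) : ℤ⟦X⟧) * (k ^ 4 * b ^ 2) +
      ((-1143072 : ℤ) : ℤ⟦X⟧) * (k ^ 5 * b ^ 1) +
      ((-1475496 : ℤ) : ℤ⟦X⟧) * (k ^ 6 * b ^ 0) := by
    clear_value b
    subst h3
    subst h1
    push_cast
    ring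
  rw [hs]
  simp only [map_add, cmx_int]
  rw [hz 0 6 (by omega)]
  rw [hz 1 5 (by omega)]
  rw [hz 3 3 (by omega)]
  rw [hz 4 2 (by omega)]
  rw [hz 6 0 (by omega)]
  ring

private theorem cmx_e8 {A Y : ℂ⟦X⟧} {a k c : ℤ⟦X⟧} (q : Qd A Y a k c) (l : ℕ) (h2 : l % 3 = 2) :
    coeff l ((a * (a ^ 3 + 216 * c)) ^ 2) =
      (61920 : ℤ) * coeff l (k ^ 2 * PowerSeries.expand 3 three_ne_zero a ^ 6) + (35147520 : ℤ) * coeff l (k ^ 5 * PowerSeries.expand 3 three_ne_zero a ^ 3) + (167961600 : ℤ) * coeff l (k ^ 8 * PowerSeries.expand 3 three_ne_zero a ^ 0) := by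
  have h1 := q.r1
  have h3 := q.r2
  have hz := mono_co q l
  set b : ℤ⟦X⟧ := PowerSeries.expand 3 three_ne_zero a with hb
  have hs : ((a * (a ^ 3 + 216 * c)) ^ 2 : ℤ⟦X⟧) =
      ((1 : ℤ) : ℤ⟦X⟧) * (k ^ 0 * b ^ 8) +
      ((480 : ℤ) : ℤ⟦X⟧) * (k ^ 1 * b ^ 7) +
      ((61920 : ℤ) : ℤ⟦X⟧) * (k ^ 2 * b ^ 6) +
      ((1050192 : ℤ) : ℤ⟦X⟧) * (k ^ 3 * b ^ 5) +
      ((7905600 : ℤ) : ℤ⟦X⟧) * (k ^ 4 * b ^ 4) +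
      ((35147520 : ℤ) : ℤ⟦X⟧) * (k ^ 5 * b ^ 3) +
      ((100823616 : ℤ) : ℤ⟦X⟧) * (k ^ 6 * b ^ 2) +
      ((173560320 : ℤ) : ℤ⟦X⟧) * (k ^ 7 * b ^ 1) +
      ((167961600 : ℤ) : ℤ⟦X⟧) * (k ^ 8 * b ^ 0) := by
    clear_value b
    subst h3
    subst h1
    push_cast
    ring
  rw [hs]
  simp only [map_add, cmx_int]
  rw [hz 0 8 (by omega)]
  rw [hz 1 7 (by omega)]
  rw [hz 3 5 (by omega)]
  rw [hz 4 4 (by omega)]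
  rw [hz 6 2 (by omega)]
  rw [hz 7 1 (by omega)]
  ring

theorem cm6 {A Y : ℂ⟦X⟧} {a k c : ℤ⟦X⟧} (q : Qd A Y a k c) (l : ℕ) (hl : l.Prime) (h2 : l % 3 = 2) :
    ∃ y : ℤ, 11 * coeff l ((a ^ 3 - 27 * c) * c) + 2 * (1 + (l : ℤ) ^ 5) = 243 * y := by
  have h6 := e6_co l hl
  rw [q.h6, cmx_e6 q l h2] at h6
  rw [cmx_t6 q l h2]
  refine ⟨26 * coeff l (k ^ 5 * PowerSeries.expand 3 three_ne_zero a ^ 1), ?_⟩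
  linarith

theorem cm8 {A Y : ℂ⟦X⟧} {a k c : ℤ⟦X⟧} (q : Qd A Y a k c) (l : ℕ) (hl : l.Prime) (h2 : l % 3 = 2) :
    ∃ y : ℤ, 43 * coeff l (a ^ 2 * (a ^ 3 - 27 * c) * c) - 2 * (1 + (l : ℤ) ^ 7) = 243 * y := by
  have h8 := e8_co l hl
  rw [q.h4, cmx_e8 q l h2] at h8
  rw [cmx_t8 q l h2]
  refine ⟨-574 * coeff l (k ^ 5 * PowerSeries.expand 3 three_ne_zero a ^ 3) -
    4428 * coeff l (k ^ 8 * PowerSeries.expand 3 three_ne_zero a ^ 0), ?_⟩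
  linarith

end Pool.Agent.Lib.MP_06b9d2_tls
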