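import Pool.Agent.Lib.MP_06b9d2_tls.Mono
import Pool.Agent.Lib.MP_06b9d2_tls.Eco
import Pool.Agent.Lib.MP_06b9d2_tls.Eco8

/-!
Module TLS-Cp. Congruences for `l ≡ 1` modulo `3`, from `E6`, `E8`, `E10`.

Notation of module `Cm`; the parts with exponents `≡ 1` modulo `3` (`k`, `k^4`, `k^7`, `k^10`):
`(a^3 - 27c) c`: `k a'^5 - 27 k^4 a'^2`; `a^2 (a^3 - 27c) c`: `k a'^7 - 135 k^4 a'^4 + 2916 k^7 a'`; `e6`: `-504 (k a'^5 + 1026 k^4 a'^2)`; `e4^2`: `480 (k a'^7 + 16470 k^4 a'^4 + 361584 k^7 a')`;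
`e4 e6`: `-264 (k a'^9 + 262602 k^4 a'^6 + 29848176 k^7 a'^3 + 72433440 k^10)`.
`cp6`: `1 + l^5 - t_6 = 1053 [k^4 a'^2] = 81 [k^4] + 243 (..)`: `1053 = 81 * 13`, and `[k^4 a'^j] ≡ [k^4]` modulo `3` (`a' = 1 + 6 ..`: `qd_a6`). `cp8`: `16605 [k^4 a'^4] + 358668 [k^7 a']`, `16605 = 81 * 205`, `358668 = 729 * 492`.
`cp20`: `(a^3-27c)^2`: the part `-18 k a'^5 + 1215 k^4 a'^2`; sum with `18 (1 + l^5)`: `19683 [k^4 a'^2]`. `cp22`: `a^2 (a^3-27c)^2`, sum with `6 (1 + l^7)`: `27 (3645 [k^4 a'^4] + 78732 [k^7 a'])`, `3645 = 15 * 243`.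
`cp31`: `a (a^3-27c)^3`, sum with `21 (1 + l^9)`: `27 (204120 [k^4 a'^6] + 23225940 [k^7 a'^3] + 56332746 [k^10])`, `204120 = 280 * 729`, `23225940 = 31860 * 729`, `56332746 = 77274 * 729`.
(Expand with `qd_B`, `r1`, `r2`, `h4`, `h6` and `ring`; the other parts vanish at `l` by `mono_co`.)
-/

namespace Pool.Agent.Lib.MP_06b9d2_tls

open PowerSeries Pool.Agent.L1

variable {A Y : ℂ⟦X⟧} {a k c : ℤ⟦X⟧}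

private theorem Cp_P6 (a b k c : ℤ⟦X⟧) (h1 : a = b + 6 * k)
    (h2 : c = k * (b ^ 2 + 3 * b * k + 9 * k ^ 2)) :
    (a ^ 3 - 27 * c) * c = (1 : ℤ) • (k ^ 1 * b ^ 5) + (-6 : ℤ) • (k ^ 2 * b ^ 4) + (9 : ℤ) • (k ^ 3 * b ^ 3) + (-27 : ℤ) • (k ^ 4 * b ^ 2) + (162 : ℤ) • (k ^ 5 * b ^ 1) + (-243 : ℤ) • (k ^ 6 * b ^ 0) := by
  subst h1 h2
  simp only [zsmul_eq_mul]
  push_cast
  ring

private theorem Cp_P8 (a b k c : ℤ⟦X⟧) (h1 : a = b + 6 * k)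
    (h2 : c = k * (b ^ 2 + 3 * b * k + 9 * k ^ 2)) :
    a ^ 2 * (a ^ 3 - 27 * c) * c = (1 : ℤ) • (k ^ 1 * b ^ 7) + (6 : ℤ) • (k ^ 2 * b ^ 6) + (-27 : ℤ) • (k ^ 3 * b ^ 5) + (-135 : ℤ) • (k ^ 4 * b ^ 4) + (162 : ℤ) • (k ^ 5 * b ^ 3) + (729 : ℤ) • (k ^ 6 * b ^ 2) + (2916 : ℤ) • (k ^ 7 * b ^ 1) + (-8748 : ℤ) • (k ^ 8 * b ^ 0) := by
  subst h1 h2
  simp only [zsmul_eq_mul]
  push_cast
  ring

private theorem Cp_E6 (a b k c : ℤ⟦X⟧) (h1 : a = b + 6 * k)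
    (h2 : c = k * (b ^ 2 + 3 * b * k + 9 * k ^ 2)) :
    a ^ 6 - 540 * a ^ 3 * c - 5832 * c ^ 2 = (1 : ℤ) • (k ^ 0 * b ^ 6) + (-504 : ℤ) • (k ^ 1 * b ^ 5) + (-16632 : ℤ) • (k ^ 2 * b ^ 4) + (-123012 : ℤ) • (k ^ 3 * b ^ 3) + (-517104 : ℤ) • (k ^ 4 * b ^ 2) + (-1143072 : ℤ) • (k ^ 5 * b ^ 1) + (-1475496 : ℤ) • (k ^ 6 * b ^ 0) := by
  subst h1 h2
  simp only [zsmul_eq_mul]
  push_cast
  ring

private theorem Cp_E8 (a b k c : ℤ⟦X⟧) (h1 : a = b + 6 * k)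
    (h2 : c = k * (b ^ 2 + 3 * b * k + 9 * k ^ 2)) :
    (a * (a ^ 3 + 216 * c)) ^ 2 = (1 : ℤ) • (k ^ 0 * b ^ 8) + (480 : ℤ) • (k ^ 1 * b ^ 7) + (61920 : ℤ) • (k ^ 2 * b ^ 6) + (1050192 : ℤ) • (k ^ 3 * b ^ 5) + (7905600 : ℤ) • (k ^ 4 * b ^ 4) + (35147520 : ℤ) • (k ^ 5 * b ^ 3) + (100823616 : ℤ) • (k ^ 6 * b ^ 2) + (173560320 : ℤ) • (k ^ 7 * b ^ 1) + (167961600 : ℤ) • (k ^ 8 * b ^ 0) := by
  subst h1 h2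
  simp only [zsmul_eq_mul]
  push_cast
  ring

private theorem Cp_b (a k : ℤ⟦X⟧) {A Y : ℂ⟦X⟧} {c : ℤ⟦X⟧} (q : Qd A Y a k c) :
    ∃ β : ℤ⟦X⟧, PowerSeries.expand 3 three_ne_zero a = 1 + 6 * β := by
  obtain ⟨α, h1, -, -⟩ := qd_a6 q
  refine ⟨PowerSeries.expand 3 three_ne_zero α, ?_⟩
  conv_lhs => rw [h1]
  rw [map_add, map_one, map_mul, map_ofNat]

private theorem Cp_pow (b k β : ℤ⟦X⟧) (hb : b = 1 + 6 * β) (l j : ℕ) :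
    ∃ z : ℤ, coeff l (k ^ 4 * b ^ j) = coeff l (k ^ 4) + 3 * z := by
  have h : ∃ γ : ℤ⟦X⟧, b ^ j = 1 + (3 : ℤ) • γ := by
    induction j with
    | zero => exact ⟨0, by simp⟩
    | succ j ih =>
      obtain ⟨γ, hγ⟩ := ih
      refine ⟨γ + 2 * β + 6 * (γ * β), ?_⟩
      rw [pow_succ, hγ, hb]
      simp only [zsmul_eq_mul]
      push_cast
      ring
  obtain ⟨γ, hγ⟩ := h
  refine ⟨coeff l (k ^ 4 * γ), ?_⟩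
  rw [hγ, mul_add, mul_one, map_add, mul_smul_comm, map_smul, smul_eq_mul]

theorem cp6 (q : Qd A Y a k c) (l : ℕ) (hl : l.Prime) (h1 : l % 3 = 1) :
    ∃ y : ℤ, 1 + (l : ℤ) ^ 5 - coeff l ((a ^ 3 - 27 * c) * c) = 81 * coeff l (k ^ 4) + 243 * y := by
  obtain ⟨β, hβ⟩ := Cp_b a k q
  have m := fun i j (hi : l % 3 ≠ i % 3) => mono_co q l i j hi
  have e6 := e6_co l hl
  rw [q.h6, Cp_E6 a _ k c q.r1 q.r2] at e6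
  rw [Cp_P6 a _ k c q.r1 q.r2]
  simp only [map_add, map_smul, smul_eq_mul] at e6 ⊢
  rw [m 0 6 (by omega), m 2 4 (by omega), m 3 3 (by omega), m 5 1 (by omega), m 6 0 (by omega)] at e6
  rw [m 2 4 (by omega), m 3 3 (by omega), m 5 1 (by omega), m 6 0 (by omega)]
  obtain ⟨z, hz⟩ := Cp_pow _ k β hβ l 2
  rw [hz] at e6 ⊢
  refine ⟨4 * coeff l (k ^ 4) + 13 * z, ?_⟩
  linarith

theorem cp8 (q : Qd A Y a k c) (l : ℕ) (hl : l.Prime) (h1 : l % 3 = 1) :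
    ∃ y : ℤ, 1 + (l : ℤ) ^ 7 - coeff l (a ^ 2 * (a ^ 3 - 27 * c) * c) = 81 * coeff l (k ^ 4) + 243 * y := by
  obtain ⟨β, hβ⟩ := Cp_b a k q
  have m := fun i j (hi : l % 3 ≠ i % 3) => mono_co q l i j hi
  have e8 := e8_co l hl
  rw [q.h4, Cp_E8 a _ k c q.r1 q.r2] at e8
  rw [Cp_P8 a _ k c q.r1 q.r2]
  simp only [map_add, map_smul, smul_eq_mul] at e8 ⊢
  rw [m 0 8 (by omega), m 2 6 (by omega), m 3 5 (by omega), m 5 3 (by omega), m 6 2 (by omega),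
    m 8 0 (by omega)] at e8
  rw [m 2 6 (by omega), m 3 5 (by omega), m 5 3 (by omega), m 6 2 (by omega), m 8 0 (by omega)]
  obtain ⟨z, hz⟩ := Cp_pow _ k β hβ l 4
  rw [hz] at e8 ⊢
  refine ⟨68 * coeff l (k ^ 4) + 205 * z +
    1476 * coeff l (k ^ 7 * PowerSeries.expand 3 three_ne_zero a ^ 1), ?_⟩
  linarith

end Pool.Agent.Lib.MP_06b9d2_tls
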