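import Pool.Agent.Lib.MP_06b9d2_tls.Mono
import Pool.Agent.Lib.MP_06b9d2_tls.Eco
import Pool.Agent.Lib.MP_06b9d2_tls.Eco8

/-!
Module TLS-Cq. Congruences for `l ≡ 1` modulo `3`, from `E6`, `E8`, `E10`.

Notation of module `Cm`; the parts with exponents `≡ 1` modulo `3` (`k`, `k^4`, `k^7`, `k^10`):
`(a^3 - 27c) c`: `k a'^5 - 27 k^4 a'^2`; `a^2 (a^3 - 27c) c`: `k a'^7 - 135 k^4 a'^4 + 2916 k^7 a'`; `e6`: `-504 (k a'^5 + 1026 k^4 a'^2)`; `e4^2`: `480 (k a'^7 + 16470 k^4 a'^4 + 361584 k^7 a')`;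
`e4 e6`: `-264 (k a'^9 + 262602 k^4 a'^6 + 29848176 k^7 a'^3 + 72433440 k^10)`.
`cp6`: `1 + l^5 - t_6 = 1053 [k^4 a'^2] = 81 [k^4] + 243 (..)`: `1053 = 81 * 13`, and `[k^4 a'^j] ≡ [k^4]` modulo `3` (`a' = 1 + 6 ..`: `qd_a6`). `cp8`: `16605 [k^4 a'^4] + 358668 [k^7 a']`, `16605 = 81 * 205`, `358668 = 729 * 492`.
`cp20`: `(a^3-27c)^2`: the part `-18 k a'^5 + 1215 k^4 a'^2`; sum with `18 (1 + l^5)`: `19683 [k^4 a'^2]`. `cp22`: `a^2 (a^3-27c)^2`, sum with `6 (1 + l^7)`: `27 (3645 [k^4 a'^4] + 78732 [k^7 a'])`, `3645 = 15 * 243`.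
`cp31`: `a (a^3-27c)^3`, sum with `21 (1 + l^9)`: `27 (204120 [k^4 a'^6] + 23225940 [k^7 a'^3] + 56332746 [k^10])`, `204120 = 280 * 729`, `23225940 = 31860 * 729`, `56332746 = 77274 * 729`.
(Expand with `qd_B`, `r1`, `r2`, `h4`, `h6` and `ring`; the other parts vanish at `l` by `mono_co`.)
-/

namespace Pool.Agent.Lib.MP_06b9d2_tls

open PowerSeries Pool.Agent.L1

private lemma cq20 (p k a c : ℤ⟦X⟧) (l : ℕ) (h1 : l % 3 = 1)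
    (hm : ∀ i j, l % 3 ≠ i % 3 → coeff l (k ^ i * p ^ j) = 0) (ha : a = p + 6 * k)
    (hc : c = k * (p ^ 2 + 3 * p * k + 9 * k ^ 2))
    (he : coeff l (a ^ 6 - 540 * a ^ 3 * c - 5832 * c ^ 2) = -504 * (1 + (l : ℤ) ^ 5)) :
    coeff l ((a ^ 3 - 27 * c) ^ 2) + 18 * (1 + (l : ℤ) ^ 5) = 27 * 243 * (3 * coeff l (k ^ 4 * p ^ 2)) := by
  subst ha hc
  have e1 : ((p + 6 * k) ^ 6 - 540 * (p + 6 * k) ^ 3 * (k * (p ^ 2 + 3 * p * k + 9 * k ^ 2)) - 5832 * (k * (p ^ 2 + 3 * p * k + 9 * k ^ 2)) ^ 2 : ℤ⟦X⟧) =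
      C (1 : ℤ) * (k ^ 0 * p ^ 6) +
      C (-504 : ℤ) * (k ^ 1 * p ^ 5) +
      C (-16632 : ℤ) * (k ^ 2 * p ^ 4) +
      C (-123012 : ℤ) * (k ^ 3 * p ^ 3) +
      C (-517104 : ℤ) * (k ^ 4 * p ^ 2) +
      C (-1143072 : ℤ) * (k ^ 5 * p ^ 1) +
      C (-1475496 : ℤ) * (k ^ 6 * p ^ 0) := by
    simp only [map_neg, map_ofNat, map_one]
    ring
  have e2 : (((p + 6 * k) ^ 3 - 27 * (k * (p ^ 2 + 3 * p * k + 9 * k ^ 2))) ^ 2 : ℤ⟦X⟧) =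
      C (1 : ℤ) * (k ^ 0 * p ^ 6) +
      C (-18 : ℤ) * (k ^ 1 * p ^ 5) +
      C (135 : ℤ) * (k ^ 2 * p ^ 4) +
      C (-540 : ℤ) * (k ^ 3 * p ^ 3) +
      C (1215 : ℤ) * (k ^ 4 * p ^ 2) +
      C (-1458 : ℤ) * (k ^ 5 * p ^ 1) +
      C (729 : ℤ) * (k ^ 6 * p ^ 0) := by
    simp only [map_neg, map_ofNat, map_one]
    ring
  rw [e1] at he
  rw [e2]
  have z0 := hm 0 6 (by omega)
  have z2 := hm 2 4 (by omega)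
  have z3 := hm 3 3 (by omega)
  have z5 := hm 5 1 (by omega)
  have z6 := hm 6 0 (by omega)
  simp only [map_add, PowerSeries.coeff_C_mul, z0, z2, z3, z5, z6, mul_zero, add_zero, zero_add] at he ⊢
  linarith

private lemma cq22 (p k a c : ℤ⟦X⟧) (l : ℕ) (h1 : l % 3 = 1)
    (hm : ∀ i j, l % 3 ≠ i % 3 → coeff l (k ^ i * p ^ j) = 0) (ha : a = p + 6 * k)
    (hc : c = k * (p ^ 2 + 3 * p * k + 9 * k ^ 2))
    (he : coeff l ((a * (a ^ 3 + 216 * c)) ^ 2) = 480 * (1 + (l : ℤ) ^ 7)) :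
    coeff l (a ^ 2 * (a ^ 3 - 27 * c) ^ 2) + 6 * (1 + (l : ℤ) ^ 7) =
      27 * 243 * (15 * coeff l (k ^ 4 * p ^ 4) + 324 * coeff l (k ^ 7 * p ^ 1)) := by
  subst ha hc
  have e1 : (((p + 6 * k) * ((p + 6 * k) ^ 3 + 216 * (k * (p ^ 2 + 3 * p * k + 9 * k ^ 2)))) ^ 2 : ℤ⟦X⟧) =
      C (1 : ℤ) * (k ^ 0 * p ^ 8) +
      C (480 : ℤ) * (k ^ 1 * p ^ 7) +
      C (61920 : ℤ) * (k ^ 2 * p ^ 6) +
      C (1050192 : ℤ) * (k ^ 3 * p ^ 5) +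
      C (7905600 : ℤ) * (k ^ 4 * p ^ 4) +
      C (35147520 : ℤ) * (k ^ 5 * p ^ 3) +
      C (100823616 : ℤ) * (k ^ 6 * p ^ 2) +
      C (173560320 : ℤ) * (k ^ 7 * p ^ 1) +
      C (167961600 : ℤ) * (k ^ 8 * p ^ 0) := by
    simp only [map_neg, map_ofNat, map_one]
    ring
  have e2 : ((p + 6 * k) ^ 2 * ((p + 6 * k) ^ 3 - 27 * (k * (p ^ 2 + 3 * p * k + 9 * k ^ 2))) ^ 2 : ℤ⟦X⟧) =
      C (1 : ℤ) * (k ^ 0 * p ^ 8) +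
      C (-6 : ℤ) * (k ^ 1 * p ^ 7) +
      C (-45 : ℤ) * (k ^ 2 * p ^ 6) +
      C (432 : ℤ) * (k ^ 3 * p ^ 5) +
      C (-405 : ℤ) * (k ^ 4 * p ^ 4) +
      C (-6318 : ℤ) * (k ^ 5 * p ^ 3) +
      C (26973 : ℤ) * (k ^ 6 * p ^ 2) +
      C (-43740 : ℤ) * (k ^ 7 * p ^ 1) +
      C (26244 : ℤ) * (k ^ 8 * p ^ 0) := by
    simp only [map_neg, map_ofNat, map_one]
    ring
  rw [e1] at he
  rw [e2]
  have z0 := hm 0 8 (by omega)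
  have z2 := hm 2 6 (by omega)
  have z3 := hm 3 5 (by omega)
  have z5 := hm 5 3 (by omega)
  have z6 := hm 6 2 (by omega)
  have z8 := hm 8 0 (by omega)
  simp only [map_add, PowerSeries.coeff_C_mul, z0, z2, z3, z5, z6, z8, mul_zero, add_zero, zero_add] at he ⊢
  linarith

private lemma cq31 (p k a c : ℤ⟦X⟧) (l : ℕ) (h1 : l % 3 = 1)
    (hm : ∀ i j, l % 3 ≠ i % 3 → coeff l (k ^ i * p ^ j) = 0) (ha : a = p + 6 * k)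
    (hc : c = k * (p ^ 2 + 3 * p * k + 9 * k ^ 2))
    (he : coeff l (a * (a ^ 3 + 216 * c) * (a ^ 6 - 540 * a ^ 3 * c - 5832 * c ^ 2)) = -264 * (1 + (l : ℤ) ^ 9)) :
    coeff l (a * (a ^ 3 - 27 * c) ^ 3) + 21 * (1 + (l : ℤ) ^ 9) =
      27 * 729 * (280 * coeff l (k ^ 4 * p ^ 6) + 31860 * coeff l (k ^ 7 * p ^ 3) + 77274 * coeff l (k ^ 10 * p ^ 0)) := by
  subst ha hc
  have e1 : ((p + 6 * k) * ((p + 6 * k) ^ 3 + 216 * (k * (p ^ 2 + 3 * p * k + 9 * k ^ 2))) * ((p + 6 * k) ^ 6 - 540 * (p + 6 * k) ^ 3 * (k * (p ^ 2 + 3 * p * k + 9 * k ^ 2)) - 5832 * (k * (p ^ 2 + 3 * p * k + 9 * k ^ 2)) ^ 2) : ℤ⟦X⟧) =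
      C (1 : ℤ) * (k ^ 0 * p ^ 10) +
      C (-264 : ℤ) * (k ^ 1 * p ^ 9) +
      C (-135432 : ℤ) * (k ^ 2 * p ^ 8) +
      C (-5196636 : ℤ) * (k ^ 3 * p ^ 7) +
      C (-69326928 : ℤ) * (k ^ 4 * p ^ 6) +
      C (-508853664 : ℤ) * (k ^ 5 * p ^ 5) +
      C (-2431996488 : ℤ) * (k ^ 6 * p ^ 4) +
      C (-7879918464 : ℤ) * (k ^ 7 * p ^ 3) +
      C (-17542749312 : ℤ) * (k ^ 8 * p ^ 2) +
      C (-24694134336 : ℤ) * (k ^ 9 * p ^ 1) +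
      C (-19122428160 : ℤ) * (k ^ 10 * p ^ 0) := by
    simp only [map_neg, map_ofNat, map_one]
    ring
  have e2 : ((p + 6 * k) * ((p + 6 * k) ^ 3 - 27 * (k * (p ^ 2 + 3 * p * k + 9 * k ^ 2))) ^ 3 : ℤ⟦X⟧) =
      C (1 : ℤ) * (k ^ 0 * p ^ 10) +
      C (-21 : ℤ) * (k ^ 1 * p ^ 9) +
      C (162 : ℤ) * (k ^ 2 * p ^ 8) +
      C (-324 : ℤ) * (k ^ 3 * p ^ 7) +
      C (-3402 : ℤ) * (k ^ 4 * p ^ 6) +
      C (30618 : ℤ) * (k ^ 5 * p ^ 5) +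
      C (-122472 : ℤ) * (k ^ 6 * p ^ 4) +
      C (288684 : ℤ) * (k ^ 7 * p ^ 3) +
      C (-413343 : ℤ) * (k ^ 8 * p ^ 2) +
      C (334611 : ℤ) * (k ^ 9 * p ^ 1) +
      C (-118098 : ℤ) * (k ^ 10 * p ^ 0) := by
    simp only [map_neg, map_ofNat, map_one]
    ring
  rw [e1] at he
  rw [e2]
  have z0 := hm 0 10 (by omega)
  have z2 := hm 2 8 (by omega)
  have z3 := hm 3 7 (by omega)
  have z5 := hm 5 5 (by omega)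
  have z6 := hm 6 4 (by omega)
  have z8 := hm 8 2 (by omega)
  have z9 := hm 9 1 (by omega)
  simp only [map_add, PowerSeries.coeff_C_mul, z0, z2, z3, z5, z6, z8, z9, mul_zero, add_zero, zero_add] at he ⊢
  linarith

variable {A Y : ℂ⟦X⟧} {a k c : ℤ⟦X⟧}

theorem cp20 (q : Qd A Y a k c) (l : ℕ) (hl : l.Prime) (h1 : l % 3 = 1) :
    ∃ y : ℤ, coeff l ((a ^ 3 - 27 * c) ^ 2) + 18 * (1 + (l : ℤ) ^ 5) = 27 * 243 * y :=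
  ⟨_, cq20 _ k a c l h1 (mono_co q l) q.r1 q.r2 (by rw [← q.h6]; exact e6_co l hl)⟩

theorem cp22 (q : Qd A Y a k c) (l : ℕ) (hl : l.Prime) (h1 : l % 3 = 1) :
    ∃ y : ℤ, coeff l (a ^ 2 * (a ^ 3 - 27 * c) ^ 2) + 6 * (1 + (l : ℤ) ^ 7) = 27 * 243 * y :=
  ⟨_, cq22 _ k a c l h1 (mono_co q l) q.r1 q.r2 (by rw [← q.h4]; exact e8_co l hl)⟩

theorem cp31 (q : Qd A Y a k c) (l : ℕ) (hl : l.Prime) (h1 : l % 3 = 1) :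
    ∃ y : ℤ, coeff l (a * (a ^ 3 - 27 * c) ^ 3) + 21 * (1 + (l : ℤ) ^ 9) = 27 * 729 * y :=
  ⟨_, cq31 _ k a c l h1 (mono_co q l) q.r1 q.r2 (by rw [← q.h4, ← q.h6]; exact e10_co l hl)⟩

end Pool.Agent.Lib.MP_06b9d2_tls
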