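import Pool.Agent.Lib.MP_06b9d2_tls.Mono

/-!
Module TLS-Cz1. `[q ^ l] k ^ 4` modulo `3` and the congruence of weight `7`, for `l ≡ 1` modulo `3`, `e = 1`.

`cz_k`: `q_M` with `(i, N) = (1, 0), (2, 0), (0, 1)` and `mat_00` (`M i N 1 0 = 0`: `hM.out` for `N = 0`, `mat_top` for `N = 1`): `[q^l] a = 12`, `[q^l] a^2 = 12 (1 + l)`, `[q^l] (a^3 - 27c) = -9 (1 + l^2)`. Parts with exponents `≡ 1`: `6 k`, `12 k a'`, `-9 k a'^2`.
So `[k] = 2`, `[k a'] = 1 + l`, `[k a'^2] = 1 + l^2`, and from `E4`: `[k a'^3] + 54 [k^4] = 1 + l^3` (the part of `e4`: `240 (k a'^3 + 54 k^4)`).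
`cz_z`: let `a = 1 + 6 α`, `α' = expand 3 α`, `z = [k^4]`. In `ℤ⟦X⟧` write `D f = X f'`. `k = X K(X^3)`, so `D k = k + 3 k g` for some `g` with only exponents divisible by `3` and constant coefficient `0` (`k = X * unit`; `(n - 1) coeff n k` is divisible by `3`). Modulo `9`: `c ≡ k a'^2 + 3 k^2`, `D a' ≡ 0`
(`a' = 1 + 6 α(X^3)`), so `D c ≡ D k (a'^2 + 6 k)`; from `r3`: `k^2 D k = expand 3 (D c)`. Insert `D k = k (1 + 3 g)`, `k^3 = expand 3 c`: `3 k^3 g = expand 3 (D c - c) ≡ expand 3 (k (a'^2 + 6 k) + 3 k g (a'^2 + 6k) - k a'^2 - 3 k^2) ≡ 3 expand 3 (k^2 + k g)` modulo `9` (`a'^2 ≡ 1` mod `3`), so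
`k^3 g ≡ expand 3 (k (k + g))` modulo `3`, and `k^3 = expand 3 c ≡ expand 3 k` modulo `3`: `g ≡ expand 3 (k + g)`. Also `α' = expand 3 (k + α')` (`qd_a6`), so `g - α'` is invariant under `expand 3` modulo `3` and has no constant term: `g ≡ α'` modulo `3`.
Hence for `d f = (D f - f) / 3` (on series with exponents `≡ 1`): `d k ≡ k α'`; `d (k α') = (d k) α' + k expand 3 (D α)`-type Leibniz rule: `D (k α') - k α' = (D k - k) α' + k D α'`, `D α' = 3 expand 3 (D α)`: `d (k α') ≡ k α'^2 + k expand 3 (D α)`, and `D α ≡ k ≡ c` modulo `3`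
(`α = α' + k`, `D α' ≡ 0`, `D k ≡ k`, `c ≡ k`), so `k expand 3 (D α) ≡ k expand 3 c = k^4`. Coefficient of `q^l` of `d (d k) ≡ k α'^2 + k^4`: with `m = (l - 1) / 3`: `m^2 [k] ≡ [k α'^2] + z`. `[k] = 2`, `36 [k α'^2] = [k a'^2] - 2 [k a'] + [k] = (l - 1)^2 = 9 m^2`, so `4 [k α'^2] = m^2`: `z ≡ 2 m^2 - m^2 = m^2` modulo `3`.
`cz7`: the part of `a (a^3 - 27c) c` with exponents `≡ 1`: `k a'^6 + 27 k^4 a'^3 - 1458 k^7`. `[k a'^6] = ∑_i C(6, i) 6^i [k α'^i]`; `E_i := (l - 1)^i - 6^i [k α'^i]` for `i = 1, 2` is `0`, for `i = 3`: `216 [k α'^3] = [k a'^3] - 3 [k a'^2] + 3 [k a'] - [k] = (l - 1)^3 - 54 z`, and for `i ≥ 4` `E_i` is divisible by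
`3^i` (`6 ∣ l - 1`? only `3 ∣ l - 1`, `3^i ∣ (l-1)^i`). So `1 + l^6 - [k a'^6] = 2 + ∑_{i ≥ 1} C(6, i) (l-1)^i - .. = 20 * 54 z + 15 E_4 + 6 E_5 + E_6 ≡ 108 z` modulo `243`, and `27 [k^4 a'^3] ≡ 27 z` modulo `243` needs `[k^4 a'^3] ≡ z` modulo `9`: `a'^3 = (1 + 6 α')^3 ≡ 1` modulo `9`.
Total `1 + l^6 - t_7 ≡ 81 z`.
-/

namespace Pool.Agent.Lib.MP_06b9d2_tls

open PowerSeries Pool.Agent.L1

private theorem Dq_exp (f : ℤ⟦X⟧) : Dq (PowerSeries.expand 3 three_ne_zero f) =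
    3 * PowerSeries.expand 3 three_ne_zero (Dq f) := by
  ext n
  rw [show (3 : ℤ⟦X⟧) = C (3 : ℤ) by simp, PowerSeries.coeff_C_mul]
  simp only [Dq, PowerSeries.coeff_mk]
  by_cases h : 3 ∣ n
  · obtain ⟨m, rfl⟩ := h
    rw [PowerSeries.coeff_expand_mul, PowerSeries.coeff_expand_mul, PowerSeries.coeff_mk]
    push_cast
    ring
  · rw [PowerSeries.coeff_expand_of_not_dvd 3 three_ne_zero _ h,
      PowerSeries.coeff_expand_of_not_dvd 3 three_ne_zero _ h]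
    simp

private theorem inv3 {f z : ℤ⟦X⟧} (h : f = PowerSeries.expand 3 three_ne_zero f + 3 * z)
    (h0 : constantCoeff f = 0) : ∃ y : ℤ⟦X⟧, f = 3 * y := by
  have key : ∀ n, (3 : ℤ) ∣ coeff n f := by
    intro n
    induction n using Nat.strong_induction_on with
    | _ n ih =>
      rcases Nat.eq_zero_or_pos n with rfl | hn
      · rw [PowerSeries.coeff_zero_eq_constantCoeff_apply, h0]
        exact dvd_zero _
      · have h1 := congrArg (coeff n) h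
        rw [map_add, show (3 : ℤ⟦X⟧) = C (3 : ℤ) by simp, PowerSeries.coeff_C_mul] at h1
        rw [h1]
        refine dvd_add ?_ (dvd_mul_right _ _)
        by_cases hd : 3 ∣ n
        · obtain ⟨m, rfl⟩ := hd
          rw [PowerSeries.coeff_expand_mul]
          exact ih m (by omega)
        · rw [PowerSeries.coeff_expand_of_not_dvd 3 three_ne_zero _ hd]
          exact dvd_zero _
  choose y hy using key
  refine ⟨PowerSeries.mk y, ?_⟩
  ext n
  rw [show (3 : ℤ⟦X⟧) = C (3 : ℤ) by simp, PowerSeries.coeff_C_mul, PowerSeries.coeff_mk, hy]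

theorem cz_g {A Y : ℂ⟦X⟧} {a k c : ℤ⟦X⟧} (q : Qd A Y a k c) (α : ℤ⟦X⟧) (hα : a = 1 + 6 * α)
    (h0 : constantCoeff α = 0) (n : ℕ) :
    ∃ y : ℤ, (n : ℤ) * coeff (3 * n + 1) k =
      coeff (3 * n + 1) (k * PowerSeries.expand 3 three_ne_zero α) + 3 * y := by
  obtain ⟨α₀, h1, -, h3⟩ := qd_a6 q
  have hαα : α = α₀ := by
    have h6 : (6 : ℤ⟦X⟧) * α = 6 * α₀ := by linear_combination h1 - hα
    have t6 : (6 : ℤ⟦X⟧) ≠ 0 := fun h => by
      have := congrArg constantCoeff h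
      rw [map_ofNat, map_zero] at this
      norm_num at this
    exact mul_left_cancel₀ t6 h6
  rw [← hαα] at h3
  have t3 : (3 : ℤ⟦X⟧) ≠ 0 := fun h => by
    have := congrArg constantCoeff h
    rw [map_ofNat, map_zero] at this
    norm_num at this
  -- the series `(D k - k) / 3`
  obtain ⟨k₁, hk₁⟩ : ∃ k₁ : ℤ⟦X⟧, k₁ = PowerSeries.mk fun m => ((m / 3 : ℕ) : ℤ) * coeff m k := ⟨_, rfl⟩
  have hk0 : constantCoeff k = 0 := by
    rw [← PowerSeries.coeff_zero_eq_constantCoeff_apply]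
    exact q.gr 0 (by norm_num)
  have hk10 : constantCoeff k₁ = 0 := by
    rw [← PowerSeries.coeff_zero_eq_constantCoeff_apply, hk₁, PowerSeries.coeff_mk]
    simp
  have hk11 : coeff 1 k₁ = 0 := by
    rw [hk₁, PowerSeries.coeff_mk]
    simp
  have hDk1 : Dq k = k + 3 * k₁ := by
    ext m
    rw [map_add, show (3 : ℤ⟦X⟧) = C (3 : ℤ) by simp, PowerSeries.coeff_C_mul, hk₁, PowerSeries.coeff_mk]
    simp only [Dq, PowerSeries.coeff_mk]
    by_cases hm : m % 3 = 1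
    · have hm' : (m : ℤ) = 3 * ((m / 3 : ℕ) : ℤ) + 1 := by omega
      rw [hm']
      push_cast
      ring
    · rw [q.gr m hm]
      ring
  obtain ⟨K, hK⟩ := PowerSeries.X_dvd_iff.2 hk0
  obtain ⟨K₁, hK₁⟩ := PowerSeries.X_dvd_iff.2 hk10
  have hKc : constantCoeff K = 1 := by
    have := q.k1
    rw [hK, show (1 : ℕ) = 0 + 1 by rfl, PowerSeries.coeff_succ_X_mul,
      PowerSeries.coeff_zero_eq_constantCoeff_apply] at this
    exact this
  have hK₁c : constantCoeff K₁ = 0 := by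
    have := hk11
    rw [hK₁, show (1 : ℕ) = 0 + 1 by rfl, PowerSeries.coeff_succ_X_mul,
      PowerSeries.coeff_zero_eq_constantCoeff_apply] at this
    exact this
  have hKu : IsUnit K := PowerSeries.isUnit_iff_constantCoeff.2 (by rw [hKc]; exact isUnit_one)
  obtain ⟨u, hu⟩ := hKu
  obtain ⟨g, hg⟩ : ∃ g : ℤ⟦X⟧, g = K₁ * ((u⁻¹ : ℤ⟦X⟧ˣ) : ℤ⟦X⟧) := ⟨_, rfl⟩
  have hkg : k₁ = k * g := by
    have : (K : ℤ⟦X⟧) * ((u⁻¹ : ℤ⟦X⟧ˣ) : ℤ⟦X⟧) = 1 := by rw [← hu]; exact u.mul_inv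
    rw [hK₁, hK, hg]
    linear_combination (-(X : ℤ⟦X⟧) * K₁) * this
  have hg0 : constantCoeff g = 0 := by rw [hg, map_mul, hK₁c, zero_mul]
  have hDk : Dq k = k + 3 * (k * g) := by rw [hDk1, hkg]
  have hkne : k ≠ 0 := by
    intro hk
    have := q.k1
    rw [hk] at this
    simp at this
  -- the expanded series
  obtain ⟨a', ha'⟩ : ∃ a' : ℤ⟦X⟧, a' = PowerSeries.expand 3 three_ne_zero a := ⟨_, rfl⟩
  obtain ⟨α', hα'⟩ : ∃ α' : ℤ⟦X⟧, α' = PowerSeries.expand 3 three_ne_zero α := ⟨_, rfl⟩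
  obtain ⟨E, hE⟩ : ∃ E : ℤ⟦X⟧, E = PowerSeries.expand 3 three_ne_zero (Dq α) := ⟨_, rfl⟩
  have haα : a' = 1 + 6 * α' := by rw [ha', hα, hα', map_add, map_mul, map_one, map_ofNat]
  have hDα' : Dq α' = 3 * E := by rw [hα', hE, Dq_exp]
  have hDa' : Dq a' = 18 * E := by
    rw [haα, Dq_add, Dq_mul, hDα', Dq_one, show (6 : ℤ⟦X⟧) = C (6 : ℤ) by simp, Dq_C]
    simp only [map_ofNat]
    ring
  have hr2 : c = k * (a' ^ 2 + 3 * a' * k + 9 * k ^ 2) := by rw [ha']; exact q.r2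
  have hDc : Dq c = Dq k * (a' ^ 2 + 3 * a' * k + 9 * k ^ 2) +
      k * (2 * a' * Dq a' + 3 * Dq a' * k + 3 * a' * Dq k + 18 * k * Dq k) := by
    rw [hr2, Dq_mul, Dq_add, Dq_add, pow_two, pow_two, Dq_mul, Dq_mul (3 * a') k, Dq_mul 3 a',
      Dq_mul 9 (k * k), Dq_mul k k, show (3 : ℤ⟦X⟧) = C (3 : ℤ) by simp,
      show (9 : ℤ⟦X⟧) = C (9 : ℤ) by simp, Dq_C, Dq_C]
    simp only [map_ofNat]
    ring
  obtain ⟨w, hw⟩ : ∃ w : ℤ⟦X⟧, w = g * (4 * α' + 12 * α' ^ 2) + g * (a' * k + 3 * k ^ 2) +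
    (4 * a' * E + 6 * E * k + a' * k * g + 2 * k * (k + 3 * k * g)) + 2 * α' * k := ⟨_, rfl⟩
  have hc9 : Dq c - c = 3 * k ^ 2 + 3 * (k * g) + 9 * (k * w) := by
    rw [hDc, hDa', hDk, hr2, hw, haα]
    ring
  obtain ⟨v, hv⟩ : ∃ v : ℤ⟦X⟧, v = 4 * α' + 12 * α' ^ 2 + a' * k + 3 * k ^ 2 := ⟨_, rfl⟩
  have hc3 : c = k + 3 * (k * v) := by
    rw [hr2, hv, haα]
    ring
  have hDk3 : k ^ 2 * Dq k = PowerSeries.expand 3 three_ne_zero (Dq c) := by
    have e1 : Dq (k ^ 3) = 3 * PowerSeries.expand 3 three_ne_zero (Dq c) := by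
      rw [q.r3, Dq_exp]
    rw [Dq_pow] at e1
    have e2 : (3 : ℤ⟦X⟧) * (k ^ 2 * Dq k) = 3 * PowerSeries.expand 3 three_ne_zero (Dq c) := by
      rw [← e1]
      push_cast
      ring
    exact mul_left_cancel₀ t3 e2
  have hk3 := q.r3
  have m1 : PowerSeries.expand 3 three_ne_zero (Dq c) - PowerSeries.expand 3 three_ne_zero c =
      3 * PowerSeries.expand 3 three_ne_zero k ^ 2 +
      3 * (PowerSeries.expand 3 three_ne_zero k * PowerSeries.expand 3 three_ne_zero g) +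
      9 * (PowerSeries.expand 3 three_ne_zero k * PowerSeries.expand 3 three_ne_zero w) := by
    rw [← map_sub, hc9]
    simp only [map_add, map_mul, map_pow, map_ofNat]
  have m2 : k ^ 3 = PowerSeries.expand 3 three_ne_zero k +
      3 * (PowerSeries.expand 3 three_ne_zero k * PowerSeries.expand 3 three_ne_zero v) := by
    rw [hk3]
    nth_rewrite 1 [hc3]
    simp only [map_add, map_mul, map_ofNat]
  have m3 : g = PowerSeries.expand 3 three_ne_zero k + PowerSeries.expand 3 three_ne_zero g +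
      3 * (PowerSeries.expand 3 three_ne_zero w - PowerSeries.expand 3 three_ne_zero v * g) := by
    have hek : PowerSeries.expand 3 three_ne_zero k ≠ 0 := by
      intro he
      apply hkne
      have : k ^ 3 = 0 := by rw [m2, he]; ring
      exact pow_eq_zero_iff (three_ne_zero) |>.1 this
    have e1 : (3 * PowerSeries.expand 3 three_ne_zero k) * g = (3 * PowerSeries.expand 3 three_ne_zero k) *
      (PowerSeries.expand 3 three_ne_zero k + PowerSeries.expand 3 three_ne_zero g +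
      3 * (PowerSeries.expand 3 three_ne_zero w - PowerSeries.expand 3 three_ne_zero v * g)) := by
      rw [hDk] at hDk3
      linear_combination (-3 * g) * m2 + m1 + hDk3 - hk3
    exact mul_left_cancel₀ (mul_ne_zero t3 hek) e1
  have m4 : α' = PowerSeries.expand 3 three_ne_zero α' + PowerSeries.expand 3 three_ne_zero k := by
    nth_rewrite 1 [hα']
    nth_rewrite 1 [h3]
    rw [map_add, ← hα']
  obtain ⟨y, hy⟩ := inv3 (f := g - α')
    (z := PowerSeries.expand 3 three_ne_zero w - PowerSeries.expand 3 three_ne_zero v * g) (by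
      rw [map_sub]
      linear_combination m3 - m4) (by
      rw [map_sub, hg0, hα', ← PowerSeries.coeff_zero_eq_constantCoeff_apply,
        show (0 : ℕ) = 3 * 0 by rfl, PowerSeries.coeff_expand_mul,
        PowerSeries.coeff_zero_eq_constantCoeff_apply, h0, sub_zero])
  refine ⟨coeff (3 * n + 1) (k * y), ?_⟩
  have e1 : (n : ℤ) * coeff (3 * n + 1) k = coeff (3 * n + 1) k₁ := by
    rw [hk₁, PowerSeries.coeff_mk, show (3 * n + 1) / 3 = n by omega]
  rw [e1, hkg, ← hα', show g = α' + 3 * y by linear_combination hy, mul_add, map_add,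
    show k * (3 * y) = C (3 : ℤ) * (k * y) by simp only [map_ofNat]; ring, PowerSeries.coeff_C_mul]

end Pool.Agent.Lib.MP_06b9d2_tls
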