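import Pool.Agent.Lib.MP_06b9d2_tls.Cz0
import Pool.Agent.Lib.MP_06b9d2_tls.Cz1

/-!
Module TLS-Cz. `[q ^ l] k ^ 4` modulo `3` and the congruence of weight `7`, for `l ≡ 1` modulo `3`, `e = 1`.

`cz_k`: `q_M` with `(i, N) = (1, 0), (2, 0), (0, 1)` and `mat_00` (`M i N 1 0 = 0`: `hM.out` for `N = 0`, `mat_top` for `N = 1`): `[q^l] a = 12`, `[q^l] a^2 = 12 (1 + l)`, `[q^l] (a^3 - 27c) = -9 (1 + l^2)`. Parts with exponents `≡ 1`: `6 k`, `12 k a'`, `-9 k a'^2`.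
So `[k] = 2`, `[k a'] = 1 + l`, `[k a'^2] = 1 + l^2`, and from `E4`: `[k a'^3] + 54 [k^4] = 1 + l^3` (the part of `e4`: `240 (k a'^3 + 54 k^4)`).
`cz_z`: let `a = 1 + 6 α`, `α' = expand 3 α`, `z = [k^4]`. In `ℤ⟦X⟧` write `D f = X f'`. `k = X K(X^3)`, so `D k = k + 3 k g` for some `g` with only exponents divisible by `3` and constant coefficient `0` (`k = X * unit`; `(n - 1) coeff n k` is divisible by `3`). Modulo `9`: `c ≡ k a'^2 + 3 k^2`, `D a' ≡ 0`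
(`a' = 1 + 6 α(X^3)`), so `D c ≡ D k (a'^2 + 6 k)`; from `r3`: `k^2 D k = expand 3 (D c)`. Insert `D k = k (1 + 3 g)`, `k^3 = expand 3 c`: `3 k^3 g = expand 3 (D c - c) ≡ expand 3 (k (a'^2 + 6 k) + 3 k g (a'^2 + 6k) - k a'^2 - 3 k^2) ≡ 3 expand 3 (k^2 + k g)` modulo `9` (`a'^2 ≡ 1` mod `3`), so
`k^3 g ≡ expand 3 (k (k + g))` modulo `3`, and `k^3 = expand 3 c ≡ expand 3 k` modulo `3`: `g ≡ expand 3 (k + g)`. Also `α' = expand 3 (k + α')` (`qd_a6`), so `g - α'` is invariant under `expand 3` modulo `3` and has no constant term: `g ≡ α'` modulo `3`.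
Hence for `d f = (D f - f) / 3` (on series with exponents `≡ 1`): `d k ≡ k α'`; `d (k α') = (d k) α' + k expand 3 (D α)`-type Leibniz rule: `D (k α') - k α' = (D k - k) α' + k D α'`, `D α' = 3 expand 3 (D α)`: `d (k α') ≡ k α'^2 + k expand 3 (D α)`, and `D α ≡ k ≡ c` modulo `3`
(`α = α' + k`, `D α' ≡ 0`, `D k ≡ k`, `c ≡ k`), so `k expand 3 (D α) ≡ k expand 3 c = k^4`. Coefficient of `q^l` of `d (d k) ≡ k α'^2 + k^4`: with `m = (l - 1) / 3`: `m^2 [k] ≡ [k α'^2] + z`. `[k] = 2`, `36 [k α'^2] = [k a'^2] - 2 [k a'] + [k] = (l - 1)^2 = 9 m^2`, so `4 [k α'^2] = m^2`: `z ≡ 2 m^2 - m^2 = m^2` modulo `3`.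
`cz7`: the part of `a (a^3 - 27c) c` with exponents `≡ 1`: `k a'^6 + 27 k^4 a'^3 - 1458 k^7`. `[k a'^6] = ∑_i C(6, i) 6^i [k α'^i]`; `E_i := (l - 1)^i - 6^i [k α'^i]` for `i = 1, 2` is `0`, for `i = 3`: `216 [k α'^3] = [k a'^3] - 3 [k a'^2] + 3 [k a'] - [k] = (l - 1)^3 - 54 z`, and for `i ≥ 4` `E_i` is divisible by
`3^i` (`6 ∣ l - 1`? only `3 ∣ l - 1`, `3^i ∣ (l-1)^i`). So `1 + l^6 - [k a'^6] = 2 + ∑_{i ≥ 1} C(6, i) (l-1)^i - .. = 20 * 54 z + 15 E_4 + 6 E_5 + E_6 ≡ 108 z` modulo `243`, and `27 [k^4 a'^3] ≡ 27 z` modulo `243` needs `[k^4 a'^3] ≡ z` modulo `9`: `a'^3 = (1 + 6 α')^3 ≡ 1` modulo `9`.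
Total `1 + l^6 - t_7 ≡ 81 z`.
-/

namespace Pool.Agent.Lib.MP_06b9d2_tls

open PowerSeries Pool.Agent.L1

/-- the operator `X d / dX` -/
private noncomputable def Dx (f : ℤ⟦X⟧) : ℤ⟦X⟧ := PowerSeries.X * PowerSeries.derivative ℤ f

private theorem Dx_coeff (f : ℤ⟦X⟧) (n : ℕ) : coeff n (Dx f) = n * coeff n f := by
  rcases n with _ | n
  · rw [Dx, coeff_zero_X_mul]
    simp
  · rw [Dx, coeff_succ_X_mul, PowerSeries.coeff_derivative]
    push_cast
    ring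

private theorem Dx_mul (f g : ℤ⟦X⟧) : Dx (f * g) = Dx f * g + f * Dx g := by
  rw [Dx, Dx, Dx, Derivation.leibniz]
  simp only [smul_eq_mul]
  ring

private theorem Dx_add (f g : ℤ⟦X⟧) : Dx (f + g) = Dx f + Dx g := by
  rw [Dx, Dx, Dx, map_add, mul_add]

private theorem Dx_expand (f : ℤ⟦X⟧) : Dx (PowerSeries.expand 3 three_ne_zero f) =
    3 * PowerSeries.expand 3 three_ne_zero (Dx f) := by
  have h3 : (3 : ℤ⟦X⟧) = PowerSeries.C 3 := by simp
  ext n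
  rw [Dx_coeff, h3, coeff_C_mul, PowerSeries.coeff_expand, PowerSeries.coeff_expand]
  by_cases h : 3 ∣ n
  · obtain ⟨m, rfl⟩ := h
    rw [if_pos (Dvd.intro _ rfl), if_pos (Dvd.intro _ rfl), Nat.mul_div_cancel_left _ (by norm_num), Dx_coeff]
    push_cast
    ring
  · rw [if_neg h, if_neg h]
    ring

/-- series of coefficients -/
private theorem ex_series {f g : ℤ⟦X⟧} {r : ℤ} (h : ∀ n, ∃ y : ℤ, coeff n f = coeff n g + r * y) :
    ∃ w : ℤ⟦X⟧, f = g + PowerSeries.C r * w := by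
  choose y hy using h
  refine ⟨PowerSeries.mk y, ?_⟩
  ext n
  rw [map_add, coeff_C_mul, coeff_mk, hy]

theorem cz_z {A Y : ℂ⟦X⟧} (h : Core A Y) {a k c : ℤ⟦X⟧} (q : Qd A Y a k c) {l : ℕ} {s0 : ℂ} (hl : PL l 1 s0)
    {M : ℕ → ℕ → ℕ → ℕ → ℂ} (hM : MatD l 1 A Y M) :
    ∃ y : ℤ, coeff l (k ^ 4) = (((l : ℤ) - 1) / 3) ^ 2 + 3 * y := by
  have hl3 : l % 3 = 1 := by
    rcases hl.2 with h1 | h1
    · exact h1.1
    · exfalso
      have h2 := h1.2.1
      norm_num at h2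
  obtain ⟨m, hm⟩ : ∃ m, l = 3 * m + 1 := ⟨l / 3, by omega⟩
  have hdiv : (((l : ℤ) - 1) / 3) = m := by omega
  obtain ⟨α, ha, hα0, hαk⟩ := qd_a6 q
  obtain ⟨c1, c2, c3, -⟩ := cz_k h q hl hM
  have C3 : PowerSeries.C (3 : ℤ) = 3 := by simp
  have C9 : PowerSeries.C (9 : ℤ) = 9 := by simp
  have ha' : PowerSeries.expand 3 three_ne_zero a = 1 + 6 * PowerSeries.expand 3 three_ne_zero α := by
    rw [ha, map_add, map_one, map_mul, map_ofNat]
  set α' := PowerSeries.expand 3 three_ne_zero α with hα'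
  -- the derivative of `k`
  have hgr : ∀ n, n % 3 ≠ 1 → coeff n (k * α') = 0 := by
    intro n hn
    rw [coeff_mul]
    apply Finset.sum_eq_zero
    rintro ⟨i, j⟩ hij
    rw [Finset.HasAntidiagonal.mem_antidiagonal] at hij
    simp only at hij ⊢
    by_cases hi : i % 3 = 1
    · rw [hα', PowerSeries.coeff_expand_of_not_dvd, mul_zero]
      omega
    · rw [q.gr i hi, zero_mul]
  obtain ⟨y, hy⟩ : ∃ y : ℤ⟦X⟧, Dx k = k + 3 * (k * α') + 9 * y := by
    have := ex_series (f := Dx k) (g := k + 3 * (k * α')) (r := 9) (by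
      intro n
      rw [Dx_coeff, map_add, ← C3, coeff_C_mul]
      by_cases hn : n % 3 = 1
      · obtain ⟨u, rfl⟩ : ∃ u, n = 3 * u + 1 := ⟨n / 3, by omega⟩
        obtain ⟨y, hy⟩ := cz_g q α ha hα0 u
        refine ⟨y, ?_⟩
        push_cast
        linear_combination 3 * hy
      · exact ⟨0, by rw [q.gr n hn, hgr n hn]; ring⟩)
    rwa [C9] at this
  -- the derivative of `α`
  obtain ⟨w, hw⟩ : ∃ w : ℤ⟦X⟧, Dx α = k + 3 * w := by
    refine ⟨PowerSeries.expand 3 three_ne_zero (Dx α) + k * α' + 3 * y, ?_⟩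
    have h1 : Dx α = Dx α' + Dx k := by
      conv_lhs => rw [hαk]
      rw [Dx_add]
    have h2 : Dx α' = 3 * PowerSeries.expand 3 three_ne_zero (Dx α) := by rw [hα', Dx_expand]
    linear_combination h1 + h2 + hy
  -- `k ^ 3 = expand 3 k` modulo `3`
  obtain ⟨v, hv⟩ : ∃ v : ℤ⟦X⟧, k ^ 3 = PowerSeries.expand 3 three_ne_zero k + 3 * v := by
    have hc : c = k + 3 * (k * (4 * α' + 12 * α' ^ 2 + (1 + 6 * α') * k + 3 * k ^ 2)) := by
      rw [q.r2, ha']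
      ring
    refine ⟨PowerSeries.expand 3 three_ne_zero (k * (4 * α' + 12 * α' ^ 2 + (1 + 6 * α') * k + 3 * k ^ 2)), ?_⟩
    rw [q.r3]
    conv_lhs => rw [hc]
    rw [map_add, map_mul, map_ofNat]
  have hD : Dx (k * α') = k * α' + 3 * (k * α' ^ 2 + k ^ 4) +
      9 * (y * α' + k * (PowerSeries.expand 3 three_ne_zero w) - k * v) := by
    rw [Dx_mul, hy, hα', Dx_expand, ← hα', hw, map_add, map_mul, map_ofNat]
    have h4 : k ^ 4 = k * (PowerSeries.expand 3 three_ne_zero k + 3 * v) := by rw [← hv]; ring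
    rw [h4]
    ring
  have e1 := congrArg (coeff l) hD
  rw [Dx_coeff, map_add, map_add, ← C3, ← C9, coeff_C_mul, coeff_C_mul, map_add] at e1
  obtain ⟨y1, hy1⟩ := cz_g q α ha hα0 m
  rw [← hm] at hy1
  have e2 : 36 * coeff l (k * α' ^ 2) = ((l : ℤ) - 1) ^ 2 := by
    have h1 : k * PowerSeries.expand 3 three_ne_zero a ^ 2 = PowerSeries.C 36 * (k * α' ^ 2) +
        2 * (k * PowerSeries.expand 3 three_ne_zero a) - k := by
      have C36 : PowerSeries.C (36 : ℤ) = 36 := by simp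
      rw [ha', C36]
      ring
    have h2 := congrArg (coeff l) h1
    have C2 : (2 : ℤ⟦X⟧) = PowerSeries.C 2 := by simp
    rw [map_sub, map_add, coeff_C_mul, C2, coeff_C_mul, c3, c2, c1] at h2
    linear_combination -h2
  set Z := coeff l (k ^ 4)
  set K2 := coeff l (k * α' ^ 2)
  set K1 := coeff l (k * α')
  rw [hdiv]
  rw [c1] at hy1
  have hl' : (l : ℤ) = 3 * m + 1 := by rw [hm]; push_cast; ring
  rw [hl'] at e1 e2
  generalize coeff l (y * α' + k * (PowerSeries.expand 3 three_ne_zero w) - k * v) = W at e1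
  have e3 : 4 * K2 = (m : ℤ) ^ 2 := by
    have : 9 * (4 * K2) = 9 * (m : ℤ) ^ 2 := by linear_combination e2
    exact mul_left_cancel₀ (by norm_num) this
  have e4 : (m : ℤ) * K1 = K2 + Z + 3 * W := by
    have : 3 * ((m : ℤ) * K1) = 3 * (K2 + Z + 3 * W) := by linear_combination e1
    exact mul_left_cancel₀ (by norm_num) this
  refine ⟨K2 - W - m * y1, ?_⟩
  have hy1' : K1 = 2 * m - 3 * y1 := by linear_combination -hy1
  rw [hy1'] at e4
  linear_combination -e4 - e3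

end Pool.Agent.Lib.MP_06b9d2_tls
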