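import Pool.Agent.Lib.MP_06b9d2_tls.Cz0
import Pool.Agent.Lib.MP_06b9d2_tls.Cz1

/-!
Module TLS-Cz7. `[q ^ l] k ^ 4` modulo `3` and the congruence of weight `7`, for `l ≡ 1` modulo `3`, `e = 1`.

`cz_k`: `q_M` with `(i, N) = (1, 0), (2, 0), (0, 1)` and `mat_00` (`M i N 1 0 = 0`: `hM.out` for `N = 0`, `mat_top` for `N = 1`): `[q^l] a = 12`, `[q^l] a^2 = 12 (1 + l)`, `[q^l] (a^3 - 27c) = -9 (1 + l^2)`. Parts with exponents `≡ 1`: `6 k`, `12 k a'`, `-9 k a'^2`.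
So `[k] = 2`, `[k a'] = 1 + l`, `[k a'^2] = 1 + l^2`, and from `E4`: `[k a'^3] + 54 [k^4] = 1 + l^3` (the part of `e4`: `240 (k a'^3 + 54 k^4)`).
`cz_z`: let `a = 1 + 6 α`, `α' = expand 3 α`, `z = [k^4]`. In `ℤ⟦X⟧` write `D f = X f'`. `k = X K(X^3)`, so `D k = k + 3 k g` for some `g` with only exponents divisible by `3` and constant coefficient `0` (`k = X * unit`; `(n - 1) coeff n k` is divisible by `3`). Modulo `9`: `c ≡ k a'^2 + 3 k^2`, `D a' ≡ 0`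
(`a' = 1 + 6 α(X^3)`), so `D c ≡ D k (a'^2 + 6 k)`; from `r3`: `k^2 D k = expand 3 (D c)`. Insert `D k = k (1 + 3 g)`, `k^3 = expand 3 c`: `3 k^3 g = expand 3 (D c - c) ≡ expand 3 (k (a'^2 + 6 k) + 3 k g (a'^2 + 6k) - k a'^2 - 3 k^2) ≡ 3 expand 3 (k^2 + k g)` modulo `9` (`a'^2 ≡ 1` mod `3`), so
`k^3 g ≡ expand 3 (k (k + g))` modulo `3`, and `k^3 = expand 3 c ≡ expand 3 k` modulo `3`: `g ≡ expand 3 (k + g)`. Also `α' = expand 3 (k + α')` (`qd_a6`), so `g - α'` is invariant under `expand 3` modulo `3` and has no constant term: `g ≡ α'` modulo `3`.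
Hence for `d f = (D f - f) / 3` (on series with exponents `≡ 1`): `d k ≡ k α'`; `d (k α') = (d k) α' + k expand 3 (D α)`-type Leibniz rule: `D (k α') - k α' = (D k - k) α' + k D α'`, `D α' = 3 expand 3 (D α)`: `d (k α') ≡ k α'^2 + k expand 3 (D α)`, and `D α ≡ k ≡ c` modulo `3`
(`α = α' + k`, `D α' ≡ 0`, `D k ≡ k`, `c ≡ k`), so `k expand 3 (D α) ≡ k expand 3 c = k^4`. Coefficient of `q^l` of `d (d k) ≡ k α'^2 + k^4`: with `m = (l - 1) / 3`: `m^2 [k] ≡ [k α'^2] + z`. `[k] = 2`, `36 [k α'^2] = [k a'^2] - 2 [k a'] + [k] = (l - 1)^2 = 9 m^2`, so `4 [k α'^2] = m^2`: `z ≡ 2 m^2 - m^2 = m^2` modulo `3`.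
`cz7`: the part of `a (a^3 - 27c) c` with exponents `≡ 1`: `k a'^6 + 27 k^4 a'^3 - 1458 k^7`. `[k a'^6] = ∑_i C(6, i) 6^i [k α'^i]`; `E_i := (l - 1)^i - 6^i [k α'^i]` for `i = 1, 2` is `0`, for `i = 3`: `216 [k α'^3] = [k a'^3] - 3 [k a'^2] + 3 [k a'] - [k] = (l - 1)^3 - 54 z`, and for `i ≥ 4` `E_i` is divisible by
`3^i` (`6 ∣ l - 1`? only `3 ∣ l - 1`, `3^i ∣ (l-1)^i`). So `1 + l^6 - [k a'^6] = 2 + ∑_{i ≥ 1} C(6, i) (l-1)^i - .. = 20 * 54 z + 15 E_4 + 6 E_5 + E_6 ≡ 108 z` modulo `243`, and `27 [k^4 a'^3] ≡ 27 z` modulo `243` needs `[k^4 a'^3] ≡ z` modulo `9`: `a'^3 = (1 + 6 α')^3 ≡ 1` modulo `9`.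
Total `1 + l^6 - t_7 ≡ 81 z`.
-/

namespace Pool.Agent.Lib.MP_06b9d2_tls

open PowerSeries Pool.Agent.L1

private theorem cz7_l {l : ℕ} {s0 : ℂ} (hl : PL l 1 s0) : l % 3 = 1 := by
  rcases hl.2 with h | h
  · exact h.1
  · exfalso
    have h2 : (1 : ℂ) = -1 := h.2.1
    norm_num at h2

private theorem cz7_ring (P k : ℤ⟦X⟧) :
    (P + 6 * k) * (P - 3 * k) ^ 3 * (k * (P ^ 2 + 3 * P * k + 9 * k ^ 2)) =
      k ^ 1 * P ^ 6 - C (27 : ℤ) * (k ^ 3 * P ^ 4) + C (27 : ℤ) * (k ^ 4 * P ^ 3) +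
        C (729 : ℤ) * (k ^ 6 * P ^ 1) - C (1458 : ℤ) * k ^ 7 := by
  have h1 : (C (27 : ℤ) : ℤ⟦X⟧) = 27 := by simp
  have h2 : (C (729 : ℤ) : ℤ⟦X⟧) = 729 := by simp
  have h3 : (C (1458 : ℤ) : ℤ⟦X⟧) = 1458 := by simp
  rw [h1, h2, h3]
  ring

private theorem cz7_p1 (k b : ℤ⟦X⟧) (l : ℕ) :
    coeff l (k * (1 + 6 * b)) = coeff l k + 6 * coeff l (k * b) := by
  have : k * (1 + 6 * b) = k + C (6 : ℤ) * (k * b) := by
    have h1 : (C (6 : ℤ) : ℤ⟦X⟧) = 6 := by simp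
    rw [h1]; ring
  rw [this, map_add, PowerSeries.coeff_C_mul]

private theorem cz7_p2 (k b : ℤ⟦X⟧) (l : ℕ) :
    coeff l (k * (1 + 6 * b) ^ 2) =
      coeff l k + 12 * coeff l (k * b) + 36 * coeff l (k * b ^ 2) := by
  have : k * (1 + 6 * b) ^ 2 = k + C (12 : ℤ) * (k * b) + C (36 : ℤ) * (k * b ^ 2) := by
    have h1 : (C (12 : ℤ) : ℤ⟦X⟧) = 12 := by simp
    have h2 : (C (36 : ℤ) : ℤ⟦X⟧) = 36 := by simp
    rw [h1, h2]; ring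
  rw [this, map_add, map_add, PowerSeries.coeff_C_mul, PowerSeries.coeff_C_mul]

private theorem cz7_p3 (k b : ℤ⟦X⟧) (l : ℕ) :
    coeff l (k * (1 + 6 * b) ^ 3) =
      coeff l k + 18 * coeff l (k * b) + 108 * coeff l (k * b ^ 2) +
        216 * coeff l (k * b ^ 3) := by
  have : k * (1 + 6 * b) ^ 3 = k + C (18 : ℤ) * (k * b) + C (108 : ℤ) * (k * b ^ 2) +
      C (216 : ℤ) * (k * b ^ 3) := by
    have h1 : (C (18 : ℤ) : ℤ⟦X⟧) = 18 := by simp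
    have h2 : (C (108 : ℤ) : ℤ⟦X⟧) = 108 := by simp
    have h3 : (C (216 : ℤ) : ℤ⟦X⟧) = 216 := by simp
    rw [h1, h2, h3]; ring
  rw [this, map_add, map_add, map_add, PowerSeries.coeff_C_mul, PowerSeries.coeff_C_mul,
    PowerSeries.coeff_C_mul]

private theorem cz7_p6 (k b : ℤ⟦X⟧) (l : ℕ) :
    coeff l (k * (1 + 6 * b) ^ 6) =
      coeff l k + 36 * coeff l (k * b) + 540 * coeff l (k * b ^ 2) +
        4320 * coeff l (k * b ^ 3) + 19440 * coeff l (k * b ^ 4) +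
        46656 * coeff l (k * b ^ 5) + 46656 * coeff l (k * b ^ 6) := by
  have : k * (1 + 6 * b) ^ 6 = k + C (36 : ℤ) * (k * b) + C (540 : ℤ) * (k * b ^ 2) +
      C (4320 : ℤ) * (k * b ^ 3) + C (19440 : ℤ) * (k * b ^ 4) +
      C (46656 : ℤ) * (k * b ^ 5) + C (46656 : ℤ) * (k * b ^ 6) := by
    have h1 : (C (36 : ℤ) : ℤ⟦X⟧) = 36 := by simp
    have h2 : (C (540 : ℤ) : ℤ⟦X⟧) = 540 := by simp
    have h3 : (C (4320 : ℤ) : ℤ⟦X⟧) = 4320 := by simp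
    have h4 : (C (19440 : ℤ) : ℤ⟦X⟧) = 19440 := by simp
    have h5 : (C (46656 : ℤ) : ℤ⟦X⟧) = 46656 := by simp
    rw [h1, h2, h3, h4, h5]; ring
  rw [this]
  simp only [map_add, PowerSeries.coeff_C_mul]

theorem cz7 {A Y : ℂ⟦X⟧} (h : Core A Y) {a k c : ℤ⟦X⟧} (q : Qd A Y a k c) {l : ℕ} {s0 : ℂ} (hl : PL l 1 s0)
    {M : ℕ → ℕ → ℕ → ℕ → ℂ} (hM : MatD l 1 A Y M) :
    ∃ y : ℤ, 1 + (l : ℤ) ^ 6 - coeff l (a * (a ^ 3 - 27 * c) * c) = 81 * coeff l (k ^ 4) + 243 * y := by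
  have hl3 := cz7_l hl
  obtain ⟨hk0, hk1, hk2, hk3⟩ := cz_k h q hl hM
  obtain ⟨α, hα, -, -⟩ := qd_a6 q
  set P : ℤ⟦X⟧ := PowerSeries.expand 3 three_ne_zero a with hP
  set b : ℤ⟦X⟧ := PowerSeries.expand 3 three_ne_zero α with hb
  have hPb : P = 1 + 6 * b := by
    rw [hP, hb, hα, map_add, map_one, map_mul, map_ofNat]
  have hF : a * (a ^ 3 - 27 * c) * c =
      k ^ 1 * P ^ 6 - C (27 : ℤ) * (k ^ 3 * P ^ 4) + C (27 : ℤ) * (k ^ 4 * P ^ 3) +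
        C (729 : ℤ) * (k ^ 6 * P ^ 1) - C (1458 : ℤ) * k ^ 7 := by
    rw [qd_B q, ← hP, ← cz7_ring]
    have h1 : a = P + 6 * k := q.r1
    have h2 : c = k * (P ^ 2 + 3 * P * k + 9 * k ^ 2) := q.r2
    rw [← h1, ← h2]
  have e3 : coeff l (k ^ 3 * P ^ 4) = 0 := mono_co q l 3 4 (by omega)
  have e6 : coeff l (k ^ 6 * P ^ 1) = 0 := mono_co q l 6 1 (by omega)
  have hc : coeff l (a * (a ^ 3 - 27 * c) * c) =
      coeff l (k * P ^ 6) + 27 * coeff l (k ^ 4 * P ^ 3) - 1458 * coeff l (k ^ 7) := by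
    rw [hF]
    simp only [map_add, map_sub, PowerSeries.coeff_C_mul, e3, e6]
    rw [pow_one]
    ring
  rw [hc, hPb, cz7_p6, cz7_p3]
  rw [hPb, cz7_p1] at hk1
  rw [hPb, cz7_p2] at hk2
  rw [hPb, cz7_p3] at hk3
  obtain ⟨m, hm⟩ : ∃ m : ℕ, l = 3 * m + 1 := ⟨l / 3, by omega⟩
  have hlm : (l : ℤ) = 3 * (m : ℤ) + 1 := by exact_mod_cast hm
  generalize coeff l (k ^ 4) = z at *
  generalize coeff l (k * b) = t1 at *
  generalize coeff l (k * b ^ 2) = t2 at *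
  generalize coeff l (k * b ^ 3) = t3 at *
  generalize coeff l (k * b ^ 4) = t4 at *
  generalize coeff l (k * b ^ 5) = t5 at *
  generalize coeff l (k * b ^ 6) = t6 at *
  generalize coeff l (k ^ 4 * b) = s1 at *
  generalize coeff l (k ^ 4 * b ^ 2) = s2 at *
  generalize coeff l (k ^ 4 * b ^ 3) = s3 at *
  generalize coeff l (k ^ 7) = w at *
  generalize (l : ℤ) = L at *
  generalize (m : ℤ) = N at *
  rw [hk0] at hk1 hk2 hk3 ⊢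
  subst hlm
  refine ⟨4 * z + 5 * N ^ 4 + 6 * N ^ 5 + 3 * N ^ 6 - 80 * t4 - 192 * t5 - 192 * t6 - 2 * s1 - 12 * s2 - 24 * s3 + 6 * w, ?_⟩
  have h1 : 6 * t1 = 3 * N := by linarith
  have h2 : 36 * t2 = 9 * N ^ 2 := by linear_combination hk2 - 2 * h1
  have h3 : 216 * t3 = 27 * N ^ 3 - 54 * z := by linear_combination hk3 - 3 * h1 - 3 * h2
  linear_combination (-6) * h1 - 15 * h2 - 20 * h3

end Pool.Agent.Lib.MP_06b9d2_tls
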