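import Pool.Agent.Lib.MP_06b9d2_tls.C7
import Pool.Agent.Lib.MP_06b9d2_tls.Cp
import Pool.Agent.Lib.MP_06b9d2_tls.Cq
import Pool.Agent.Lib.MP_06b9d2_tls.Cz
import Pool.Agent.Lib.MP_06b9d2_tls.Cz7
import Pool.Agent.Lib.MP_06b9d2_tls.Val

/-!
Module TLS-Cv. Weight `7`: commutation with `T_2`; valuations of some entries for `e = 1`.

`TT_comm`: `U 2 (U l f) = U (2 l) f = U l (U 2 f)`, `V 2 (V l f) = V l (V 2 f)`, `U 2 (V l f) = V l (U 2 f)`, `U l (V 2 f) = V 2 (U l f)` (coefficients; `l` odd).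
`m7`: `N := M'` from `matD_ex` for `PL 2 (-1) (om ^ 2)`. `N 1 2 0 0 = 2 + (-2) ^ 7 = -126` (`mat_00`); `N 1 2 1 1 = (-1) ^ 3 N 1 2 1 1` (`sym` with `j = s = 1`), so `0`; `N 1 2 1 0`: `q_M` for `l = 2`, `i = 1`, `N = 2`: `2 coeff 2 (a (a^3-27c)^2) = -12 (-126) + 27 N 1 2 1 0`;
`coeff 2`: from `r1`, `r2`, `gr`, `k1`: `a = 1 + 6 q + 0 q^2`, `c = q + 3 q^2`, `a^3 - 27 c = 1 - 9 q + 27 q^2`, `a (..)^2 = 1 - 12 q + 27 q^2` modulo `q^3`: `N 1 2 1 0 = (54 - 1512) / 27 = -54`. With `f_j = moX A Y 1 2 j`: `TT l 1 7 f_0 = λ f_0 + p f_1` (`M 1 2 2 0 = 0`: `mat_top`),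
`TT l 1 7 f_1 = t f_1` (`mat_low`, `mat_top`), `TT 2 (-1) 7 f_0 = -126 f_0 - 54 f_1`, `TT 2 (-1) 7 f_1 = 0`. Apply `TT_comm` to `f_0` and compare the coefficients of `f_1` (`moX_ind`): `-126 p - 54 t = -54 λ`, so `p = (54 / 126) (λ - t) = (3 / 7) (λ - t)`.
`mp_d`: `M a 2 0 0 = l + l ^ (6 + a)`, `M a 2 1 1 = l t` (`q_t`): the difference is `l (1 + l ^ (5 + a) - t) = l (81 z + 243 y)` (`cp6`, `cz7`, `cp8`), `z ≡ ((l - 1) / 3) ^ 2` is prime to `3` for `l ≡ 4, 7` modulo `9`.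
`mp_10`: `a = 0, 2`: `q_M`: `27 M a 2 1 0 = l (coeff + (18 - 6 a) (1 + l ^ (5 + a)))` and `cp20`, `cp22`; `a = 1`: `m7` and `mp_d` (`3 * 81 = 243`). `mp_310`: `27 M 1 3 1 0 = l (coeff + 21 (1 + l ^ 9))`, `cp31`.
-/

namespace Pool.Agent.Lib.MP_06b9d2_tls

open PowerSeries Pool.Agent.L1

private theorem cv_l {l : ℕ} {s0 : ℂ} (hl : PL l 1 s0) : l.Prime ∧ l % 3 = 1 := by
  obtain ⟨hp, h | h⟩ := hl
  · exact ⟨hp, h.1⟩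
  · exfalso
    have h1 : (1 : ℂ) = -1 := h.2.1
    norm_num at h1

private theorem cv_int {O : ValuationSubring ℂ} (n : ℤ) (c : ℂ) :
    O.valuation (c * (n : ℂ)) ≤ O.valuation c := by
  rw [map_mul]
  exact mul_le_of_le_one_right' (Pool.Agent.Lib.MP_06b9d2_ssp.int_mem O n)

private theorem cv_d {A Y : ℂ⟦X⟧} (h : Core A Y) {l : ℕ} {s0 : ℂ}
    (hl : PL l 1 s0) (h9 : l % 9 = 4 ∨ l % 9 = 7) {M : ℕ → ℕ → ℕ → ℕ → ℂ} (hM : MatD l 1 A Y M)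
    (a : ℕ) (ha : a ≤ 2) :
    ∃ n : ℤ, M a 2 0 0 - M a 2 1 1 = 81 * (n : ℂ) ∧ ¬ (3 : ℤ) ∣ n := by
  obtain ⟨b, k, c, q⟩ := qd_ex h
  obtain ⟨hp, h1⟩ := cv_l hl
  have : Fact (a < 3) := ⟨by omega⟩
  have e0 := mat_00 h hl hM a 2
  have e1 := q_t h q hl hM a
  obtain ⟨y0, hy0⟩ := cz_z h q hl hM
  have key : ∃ y : ℤ, 1 + (l : ℤ) ^ (5 + a) - coeff l (b ^ a * (b ^ 3 - 27 * c) * c) =
      81 * coeff l (k ^ 4) + 243 * y := by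
    interval_cases a
    · obtain ⟨y, hy⟩ := cp6 q l hp h1
      exact ⟨y, by rw [pow_zero, one_mul]; exact hy⟩
    · obtain ⟨y, hy⟩ := cz7 h q hl hM
      exact ⟨y, by rw [pow_one]; exact hy⟩
    · exact cp8 q l hp h1
  obtain ⟨y, hy⟩ := key
  have hm : ∃ m t : ℤ, ((l : ℤ) - 1) / 3 = m ∧ (l : ℤ) = 3 * m + 1 ∧ (m = 3 * t + 1 ∨ m = 3 * t + 2) := by
    rcases h9 with h9 | h9
    · refine ⟨3 * ((l : ℤ) / 9) + 1, (l : ℤ) / 9, ?_, ?_, Or.inl rfl⟩ <;> omega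
    · refine ⟨3 * ((l : ℤ) / 9) + 2, (l : ℤ) / 9, ?_, ?_, Or.inr rfl⟩ <;> omega
  obtain ⟨m, t, hm1, hm2, hm3⟩ := hm
  rw [hm1] at hy0
  refine ⟨(l : ℤ) * (m ^ 2 + 3 * (y0 + y)), ?_, ?_⟩
  · have hy' : (((1 + (l : ℤ) ^ (5 + a) - coeff l (b ^ a * (b ^ 3 - 27 * c) * c) : ℤ)) : ℂ) =
        ((81 * (m ^ 2 + 3 * y0) + 243 * y : ℤ) : ℂ) := by
      rw [hy, hy0]
    rw [e0, ← e1]
    push_cast at hy' ⊢
    have e3 : (l : ℂ) + (1 * (l : ℂ)) ^ (3 * 2 + a) = (l : ℂ) * (1 + (l : ℂ) ^ (5 + a)) := by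
      rw [one_mul, mul_add, mul_one, ← pow_succ']
      congr 2
      omega
    rw [e3]
    linear_combination (l : ℂ) * hy'
  · intro hd
    rcases Int.prime_three.dvd_or_dvd hd with hd | hd
    · omega
    · have hd2 : (3 : ℤ) ∣ m ^ 2 := by
        have h5 : m ^ 2 = (m ^ 2 + 3 * (y0 + y)) - 3 * (y0 + y) := by ring
        rw [h5]
        exact dvd_sub hd (dvd_mul_right _ _)
      have hd3 := Int.prime_three.dvd_of_dvd_pow hd2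
      omega

theorem mp_d {A Y : ℂ⟦X⟧} (h : Core A Y) {O : ValuationSubring ℂ} (h3 : O.valuation 3 < 1) {l : ℕ} {s0 : ℂ}
    (hl : PL l 1 s0) (h9 : l % 9 = 4 ∨ l % 9 = 7) {M : ℕ → ℕ → ℕ → ℕ → ℂ} (hM : MatD l 1 A Y M)
    (a : ℕ) (ha : a ≤ 2) :
    O.valuation (M a 2 0 0 - M a 2 1 1) = O.valuation 81 := by
  obtain ⟨n, hn, h3n⟩ := cv_d h hl h9 hM a ha
  rw [hn, map_mul, Pool.Agent.Lib.MP_06b9d2_ssp.val_int h3 n h3n, mul_one]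

private theorem cv_0 {A Y : ℂ⟦X⟧} (h : Core A Y) {l : ℕ} {s0 : ℂ}
    (hl : PL l 1 s0) {M : ℕ → ℕ → ℕ → ℕ → ℂ} (hM : MatD l 1 A Y M) :
    ∃ y : ℤ, M 0 2 1 0 = 243 * (y : ℂ) := by
  obtain ⟨b, k, c, q⟩ := qd_ex h
  obtain ⟨hp, h1⟩ := cv_l hl
  have e0 := mat_00 h hl hM 0 2
  have e1 := q_M h q hl hM 0 2
  obtain ⟨y, hy⟩ := cp20 q l hp h1
  rw [pow_zero, one_mul, e0] at e1
  have hy' : (((coeff l ((b ^ 3 - 27 * c) ^ 2) + 18 * (1 + (l : ℤ) ^ 5) : ℤ)) : ℂ) =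
        ((27 * 243 * y : ℤ) : ℂ) := by
    rw [hy]
  push_cast at e1 hy'
  refine ⟨l * y, ?_⟩
  push_cast
  linear_combination ((l : ℂ) * hy' - e1) / 27

private theorem cv_2 {A Y : ℂ⟦X⟧} (h : Core A Y) {l : ℕ} {s0 : ℂ}
    (hl : PL l 1 s0) {M : ℕ → ℕ → ℕ → ℕ → ℂ} (hM : MatD l 1 A Y M) :
    ∃ y : ℤ, M 2 2 1 0 = 243 * (y : ℂ) := by
  obtain ⟨b, k, c, q⟩ := qd_ex h
  obtain ⟨hp, h1⟩ := cv_l hl
  have e0 := mat_00 h hl hM 2 2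
  have e1 := q_M h q hl hM 2 2
  obtain ⟨y, hy⟩ := cp22 q l hp h1
  rw [e0] at e1
  have hy' : (((coeff l (b ^ 2 * (b ^ 3 - 27 * c) ^ 2) + 6 * (1 + (l : ℤ) ^ 7) : ℤ)) : ℂ) =
        ((27 * 243 * y : ℤ) : ℂ) := by
    rw [hy]
  push_cast at e1 hy'
  refine ⟨l * y, ?_⟩
  push_cast
  linear_combination ((l : ℂ) * hy' - e1) / 27

private theorem cv_3 {A Y : ℂ⟦X⟧} (h : Core A Y) {l : ℕ} {s0 : ℂ}
    (hl : PL l 1 s0) {M : ℕ → ℕ → ℕ → ℕ → ℂ} (hM : MatD l 1 A Y M) :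
    ∃ y : ℤ, M 1 3 1 0 = 729 * (y : ℂ) := by
  obtain ⟨b, k, c, q⟩ := qd_ex h
  obtain ⟨hp, h1⟩ := cv_l hl
  have e0 := mat_00 h hl hM 1 3
  have e1 := q_M h q hl hM 1 3
  obtain ⟨y, hy⟩ := cp31 q l hp h1
  rw [pow_one, e0] at e1
  have hy' : (((coeff l (b * (b ^ 3 - 27 * c) ^ 3) + 21 * (1 + (l : ℤ) ^ 9) : ℤ)) : ℂ) =
        ((27 * 729 * y : ℤ) : ℂ) := by
    rw [hy]
  push_cast at e1 hy'
  refine ⟨l * y, ?_⟩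
  push_cast
  linear_combination ((l : ℂ) * hy' - e1) / 27

theorem mp_10 {A Y : ℂ⟦X⟧} (h : Core A Y) {O : ValuationSubring ℂ} (h3 : O.valuation 3 < 1) {l : ℕ} {s0 : ℂ}
    (hl : PL l 1 s0) (h9 : l % 9 = 4 ∨ l % 9 = 7) {M : ℕ → ℕ → ℕ → ℕ → ℂ} (hM : MatD l 1 A Y M)
    (a : ℕ) (ha : a ≤ 2) :
    O.valuation (M a 2 1 0) ≤ O.valuation 243 := by
  interval_cases a
  · obtain ⟨y, hy⟩ := cv_0 h hl hM
    rw [hy]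
    exact cv_int y 243
  · rw [m7 h hl hM, map_mul, mp_d h h3 hl h9 hM 1 (by norm_num), map_div₀]
    have h7 : O.valuation (7 : ℂ) = 1 := by
      have h8 := Pool.Agent.Lib.MP_06b9d2_ssp.val_int h3 7 (by norm_num)
      exact_mod_cast h8
    rw [h7, div_one, ← map_mul]
    norm_num
  · obtain ⟨y, hy⟩ := cv_2 h hl hM
    rw [hy]
    exact cv_int y 243

theorem mp_310 {A Y : ℂ⟦X⟧} (h : Core A Y) {O : ValuationSubring ℂ} (h3 : O.valuation 3 < 1) {l : ℕ} {s0 : ℂ}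
    (hl : PL l 1 s0) {M : ℕ → ℕ → ℕ → ℕ → ℂ} (hM : MatD l 1 A Y M) :
    O.valuation (M 1 3 1 0) ≤ O.valuation 729 := by
  obtain ⟨y, hy⟩ := cv_3 h hl hM
  rw [hy]
  exact cv_int y 729

end Pool.Agent.Lib.MP_06b9d2_tls
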