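import Pool.Agent.Lib.MP_06b9d2_tls.Mono
import Pool.Agent.Lib.MP_06b9d2_tls.Eco

/-!
Module TLS-Cz0. `[q ^ l] k ^ 4` modulo `3` and the congruence of weight `7`, for `l ≡ 1` modulo `3`, `e = 1`.

`cz_k`: `q_M` with `(i, N) = (1, 0), (2, 0), (0, 1)` and `mat_00` (`M i N 1 0 = 0`: `hM.out` for `N = 0`, `mat_top` for `N = 1`): `[q^l] a = 12`, `[q^l] a^2 = 12 (1 + l)`, `[q^l] (a^3 - 27c) = -9 (1 + l^2)`. Parts with exponents `≡ 1`: `6 k`, `12 k a'`, `-9 k a'^2`.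
So `[k] = 2`, `[k a'] = 1 + l`, `[k a'^2] = 1 + l^2`, and from `E4`: `[k a'^3] + 54 [k^4] = 1 + l^3` (the part of `e4`: `240 (k a'^3 + 54 k^4)`).
`cz_z`: let `a = 1 + 6 α`, `α' = expand 3 α`, `z = [k^4]`. In `ℤ⟦X⟧` write `D f = X f'`. `k = X K(X^3)`, so `D k = k + 3 k g` for some `g` with only exponents divisible by `3` and constant coefficient `0` (`k = X * unit`; `(n - 1) coeff n k` is divisible by `3`). Modulo `9`: `c ≡ k a'^2 + 3 k^2`, `D a' ≡ 0`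
(`a' = 1 + 6 α(X^3)`), so `D c ≡ D k (a'^2 + 6 k)`; from `r3`: `k^2 D k = expand 3 (D c)`. Insert `D k = k (1 + 3 g)`, `k^3 = expand 3 c`: `3 k^3 g = expand 3 (D c - c) ≡ expand 3 (k (a'^2 + 6 k) + 3 k g (a'^2 + 6k) - k a'^2 - 3 k^2) ≡ 3 expand 3 (k^2 + k g)` modulo `9` (`a'^2 ≡ 1` mod `3`), so
`k^3 g ≡ expand 3 (k (k + g))` modulo `3`, and `k^3 = expand 3 c ≡ expand 3 k` modulo `3`: `g ≡ expand 3 (k + g)`. Also `α' = expand 3 (k + α')` (`qd_a6`), so `g - α'` is invariant under `expand 3` modulo `3` and has no constant term: `g ≡ α'` modulo `3`.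
Hence for `d f = (D f - f) / 3` (on series with exponents `≡ 1`): `d k ≡ k α'`; `d (k α') = (d k) α' + k expand 3 (D α)`-type Leibniz rule: `D (k α') - k α' = (D k - k) α' + k D α'`, `D α' = 3 expand 3 (D α)`: `d (k α') ≡ k α'^2 + k expand 3 (D α)`, and `D α ≡ k ≡ c` modulo `3`
(`α = α' + k`, `D α' ≡ 0`, `D k ≡ k`, `c ≡ k`), so `k expand 3 (D α) ≡ k expand 3 c = k^4`. Coefficient of `q^l` of `d (d k) ≡ k α'^2 + k^4`: with `m = (l - 1) / 3`: `m^2 [k] ≡ [k α'^2] + z`. `[k] = 2`, `36 [k α'^2] = [k a'^2] - 2 [k a'] + [k] = (l - 1)^2 = 9 m^2`, so `4 [k α'^2] = m^2`: `z ≡ 2 m^2 - m^2 = m^2` modulo `3`.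
`cz7`: the part of `a (a^3 - 27c) c` with exponents `≡ 1`: `k a'^6 + 27 k^4 a'^3 - 1458 k^7`. `[k a'^6] = ∑_i C(6, i) 6^i [k α'^i]`; `E_i := (l - 1)^i - 6^i [k α'^i]` for `i = 1, 2` is `0`, for `i = 3`: `216 [k α'^3] = [k a'^3] - 3 [k a'^2] + 3 [k a'] - [k] = (l - 1)^3 - 54 z`, and for `i ≥ 4` `E_i` is divisible by
`3^i` (`6 ∣ l - 1`? only `3 ∣ l - 1`, `3^i ∣ (l-1)^i`). So `1 + l^6 - [k a'^6] = 2 + ∑_{i ≥ 1} C(6, i) (l-1)^i - .. = 20 * 54 z + 15 E_4 + 6 E_5 + E_6 ≡ 108 z` modulo `243`, and `27 [k^4 a'^3] ≡ 27 z` modulo `243` needs `[k^4 a'^3] ≡ z` modulo `9`: `a'^3 = (1 + 6 α')^3 ≡ 1` modulo `9`.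
Total `1 + l^6 - t_7 ≡ 81 z`.
-/

namespace Pool.Agent.Lib.MP_06b9d2_tls

open PowerSeries Pool.Agent.L1

theorem cz_k {A Y : ℂ⟦X⟧} (h : Core A Y) {a k c : ℤ⟦X⟧} (q : Qd A Y a k c) {l : ℕ} {s0 : ℂ} (hl : PL l 1 s0)
    {M : ℕ → ℕ → ℕ → ℕ → ℂ} (hM : MatD l 1 A Y M) :
    coeff l k = 2 ∧ coeff l (k * PowerSeries.expand 3 three_ne_zero a) = 1 + (l : ℤ) ∧
      coeff l (k * PowerSeries.expand 3 three_ne_zero a ^ 2) = 1 + (l : ℤ) ^ 2 ∧
      coeff l (k * PowerSeries.expand 3 three_ne_zero a ^ 3) + 54 * coeff l (k ^ 4) = 1 + (l : ℤ) ^ 3 := by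
  have hl3 : l % 3 = 1 := by
    rcases hl.2 with h1 | h1
    · exact h1.1
    · exact absurd h1.2.1 (by norm_num)
  have hl0 : (l : ℂ) ≠ 0 := Nat.cast_ne_zero.2 hl.1.ne_zero
  have mc := mono_co q l
  have hr1 := q.r1
  have hr2 := q.r2
  have hB := qd_B q
  have h4 := q.h4
  have m10 := q_M h q hl hM 1 0
  have m20 := q_M h q hl hM 2 0
  have m01 := q_M h q hl hM 0 1
  have he4 := e4_co l hl.1
  generalize PowerSeries.expand 3 three_ne_zero a = a' at mc hr1 hr2 hB ⊢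
  -- the three relations
  have c1 : coeff l a = 12 := by
    rw [mat_00 h hl hM, hM.out 1 0 1 0 (by norm_num)] at m10
    have h5 : (l : ℂ) * ((coeff l a : ℤ) : ℂ) = l * 12 := by
      have h6 : a ^ 1 * (a ^ 3 - 27 * c) ^ 0 = a := by ring
      rw [h6] at m10
      rw [m10]
      push_cast
      ring
    exact_mod_cast mul_left_cancel₀ hl0 h5
  have c2 : coeff l (a ^ 2) = 12 * (1 + (l : ℤ)) := by
    rw [mat_00 h hl hM, hM.out 2 0 1 0 (by norm_num)] at m20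
    have h5 : (l : ℂ) * ((coeff l (a ^ 2) : ℤ) : ℂ) = l * (12 * (1 + (l : ℂ))) := by
      have h6 : a ^ 2 * (a ^ 3 - 27 * c) ^ 0 = a ^ 2 := by ring
      rw [h6] at m20
      rw [m20]
      push_cast
      ring
    exact_mod_cast mul_left_cancel₀ hl0 h5
  have c3 : coeff l (a ^ 3 - 27 * c) = -9 * (1 + (l : ℤ) ^ 2) := by
    rw [mat_00 h hl hM, mat_top h hl hM 0 1 0 (by norm_num)] at m01
    have h5 : (l : ℂ) * ((coeff l (a ^ 3 - 27 * c) : ℤ) : ℂ) = l * (-9 * (1 + (l : ℂ) ^ 2)) := by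
      have h6 : a ^ 0 * (a ^ 3 - 27 * c) ^ 1 = a ^ 3 - 27 * c := by ring
      rw [h6] at m01
      rw [m01]
      push_cast
      ring
    exact_mod_cast mul_left_cancel₀ hl0 h5
  -- the vanishing coefficients
  have z01 : coeff l a' = 0 := by simpa using mc 0 1 (by omega)
  have z02 : coeff l (a' ^ 2) = 0 := by simpa using mc 0 2 (by omega)
  have z03 : coeff l (a' ^ 3) = 0 := by simpa using mc 0 3 (by omega)
  have z04 : coeff l (a' ^ 4) = 0 := by simpa using mc 0 4 (by omega)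
  have z20 : coeff l (k ^ 2) = 0 := by simpa using mc 2 0 (by omega)
  have z21 : coeff l (k ^ 2 * a') = 0 := by simpa using mc 2 1 (by omega)
  have z22 : coeff l (k ^ 2 * a' ^ 2) = 0 := by simpa using mc 2 2 (by omega)
  have z30 : coeff l (k ^ 3) = 0 := by simpa using mc 3 0 (by omega)
  have z31 : coeff l (k ^ 3 * a') = 0 := by simpa using mc 3 1 (by omega)
  have e1 : a = a' + C (6 : ℤ) * k := by
    rw [map_ofNat]
    exact hr1
  have e2 : a ^ 2 = a' ^ 2 + C (12 : ℤ) * (k * a') + C (36 : ℤ) * k ^ 2 := by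
    rw [hr1, map_ofNat, map_ofNat]
    ring
  have e3 : a ^ 3 - 27 * c = a' ^ 3 + C (-9 : ℤ) * (k * a' ^ 2) + C (27 : ℤ) * (k ^ 2 * a') + C (-27 : ℤ) * k ^ 3 := by
    rw [hB, map_neg, map_neg, map_ofNat, map_ofNat]
    ring
  have e4' : e4 ℤ = a' ^ 4 + C (240 : ℤ) * (k * a' ^ 3) + C (2160 : ℤ) * (k ^ 2 * a' ^ 2) +
      C (6696 : ℤ) * (k ^ 3 * a') + C (12960 : ℤ) * k ^ 4 := by
    rw [h4, hr2, hr1, map_ofNat, map_ofNat, map_ofNat, map_ofNat]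
    ring
  have d1 := congrArg (coeff l) e1
  have d2 := congrArg (coeff l) e2
  have d3 := congrArg (coeff l) e3
  have d4 := congrArg (coeff l) e4'
  simp only [map_add, PowerSeries.coeff_C_mul, z01, z02, z03, z04, z20, z21, z22, z30, z31] at d1 d2 d3 d4
  refine ⟨?_, ?_, ?_, ?_⟩
  · linarith
  · linarith
  · linarith
  · linarith

end Pool.Agent.Lib.MP_06b9d2_tls
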