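import Pool.Agent.Lib.MP_06b9d2_tls.DefsB

/-!
Board TLS, algebra part. The doubling argument: if the matrix is symmetric under reversal, its eigenspaces
have dimension at most two, and the coordinates of the elements of `V` start at `p ≥ 1` and end before
`N - 2 p`, then the eigenspaces on `V` have dimension at most one.
-/

namespace Pool.Agent.Lib.MP_06b9d2_tls

/-- the reversed vector -/
noncomputable def Rv (N : ℕ) : (ℕ → ℂ) →ₗ[ℂ] (ℕ → ℂ) where
  toFun x := fun s => if s ≤ N then x (N - s) else 0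
  map_add' x y := by
    funext s
    by_cases hs : s ≤ N
    · simp [hs]
    · simp [hs]
  map_smul' r x := by
    funext s
    by_cases hs : s ≤ N
    · simp [hs]
    · simp [hs]

theorem Rv_le {N s : ℕ} (x : ℕ → ℂ) (hs : s ≤ N) : Rv N x s = x (N - s) := by
  show (if s ≤ N then x (N - s) else 0) = _
  rw [if_pos hs]

theorem Rv_gt {N s : ℕ} (x : ℕ → ℂ) (hs : N < s) : Rv N x s = 0 := by
  show (if s ≤ N then x (N - s) else 0) = _
  rw [if_neg (by omega)]

theorem EgG_add {Mx : ℕ → ℕ → ℂ} {N : ℕ} {lam : ℂ} {x y : ℕ → ℂ} (hx : EgG Mx N lam x)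
    (hy : EgG Mx N lam y) : EgG Mx N lam (x + y) := by
  intro j hj
  have h1 := hx j hj
  have h2 := hy j hj
  calc ∑ s ∈ Finset.range (N + 1), Mx j s * (x + y) s
      = ∑ s ∈ Finset.range (N + 1), Mx j s * x s +
        ∑ s ∈ Finset.range (N + 1), Mx j s * y s := by
        rw [← Finset.sum_add_distrib]
        refine Finset.sum_congr rfl fun s _ => ?_
        rw [Pi.add_apply, mul_add]
    _ = lam * (x + y) j := by
        rw [h1, h2, Pi.add_apply, mul_add]

theorem EgG_rev {Mx : ℕ → ℕ → ℂ} {N : ℕ} {lam : ℂ} {x : ℕ → ℂ}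
    (hsym : ∀ j s, j ≤ N → s ≤ N → Mx (N - j) (N - s) = Mx j s)
    (hx : EgG Mx N lam x) : EgG Mx N lam (Rv N x) := by
  intro j hj
  have h1 := hx (N - j) (Nat.sub_le _ _)
  rw [Rv_le x hj, ← h1, ← Finset.sum_range_reflect]
  refine Finset.sum_congr rfl fun s hs => ?_
  have hs' : s ≤ N := Nat.lt_succ_iff.mp (Finset.mem_range.mp hs)
  have e1 : N + 1 - 1 - s = N - s := by omega
  rw [e1, Rv_le x (Nat.sub_le _ _), Nat.sub_sub_self hs']
  have := hsym (N - j) s (Nat.sub_le _ _) hs'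
  rw [Nat.sub_sub_self hj] at this
  rw [this]

theorem double {V : Type*} [AddCommGroup V] [Module ℂ V] [Module.Finite ℂ V] (T : V →ₗ[ℂ] V)
    (lam lam' : ℂ) (N : ℕ) (Mx : ℕ → ℕ → ℂ)
    (hsym : ∀ j s, j ≤ N → s ≤ N → Mx (N - j) (N - s) = Mx j s) (h2 : Two Mx N)
    (X : V →ₗ[ℂ] (ℕ → ℂ)) (hX0 : ∀ f s, N < s → X f s = 0)
    (lead : ∀ f, f ≠ 0 → ∃ p, 1 ≤ p ∧ 2 * p ≤ N ∧ (∀ s, s < p → X f s = 0) ∧ X f p ≠ 0 ∧
      ∀ s, N - 2 * p < s → X f s = 0)
    (hEg : ∀ f, T f = lam • f → EgG Mx N lam' (X f)) :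
    Module.finrank ℂ (LinearMap.ker (T - lam • LinearMap.id)) ≤ 1 := by
  obtain ⟨L, hL⟩ := h2 lam'
  have hker : ∀ f : LinearMap.ker (T - lam • LinearMap.id), T f.1 = lam • f.1 := by
    intro f
    have := LinearMap.mem_ker.mp f.2
    rw [LinearMap.sub_apply, LinearMap.smul_apply, LinearMap.id_apply] at this
    exact sub_eq_zero.mp this
  let ι := (LinearMap.ker (T - lam • (LinearMap.id : V →ₗ[ℂ] _))).subtype
  let Ψ := L ∘ₗ ((X ∘ₗ ι).coprod (Rv N ∘ₗ X ∘ₗ ι))
  have hΨ : Function.Injective Ψ := by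
    rw [← LinearMap.ker_eq_bot, LinearMap.ker_eq_bot']
    rintro ⟨f, g⟩ hfg
    have h1 : L (X f.1 + Rv N (X g.1)) = 0 := hfg
    have h2 : X f.1 + Rv N (X g.1) = 0 := by
      refine hL _ (EgG_add (hEg _ (hker f)) (EgG_rev hsym (hEg _ (hker g)))) ?_ h1
      intro s hs
      rw [Pi.add_apply, hX0 _ s hs, Rv_gt _ hs, add_zero]
    have h3 : ∀ s, s ≤ N → X f.1 s + X g.1 (N - s) = 0 := by
      intro s hs
      have := congrFun h2 s
      rw [Pi.add_apply, Rv_le _ hs] at this
      exact this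
    have hf0 : f.1 = 0 := by
      by_contra hf
      obtain ⟨p, hp1, hp2, hp3, hp4, hp5⟩ := lead _ hf
      have hg : g.1 ≠ 0 := by
        intro hg
        have := h3 p (by omega)
        rw [hg, map_zero, Pi.zero_apply, add_zero] at this
        exact hp4 this
      obtain ⟨q, hq1, hq2, hq3, hq4, hq5⟩ := lead _ hg
      have a1 : ¬ (N - 2 * q < N - p) := by
        intro hh
        have := h3 p (by omega)
        rw [hq5 _ hh, add_zero] at this
        exact hp4 this
      have a2 : ¬ (N - 2 * p < N - q) := by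
        intro hh
        have := h3 (N - q) (by omega)
        rw [hp5 _ hh, zero_add, Nat.sub_sub_self (by omega)] at this
        exact hq4 this
      omega
    have hg0 : g.1 = 0 := by
      by_contra hg
      obtain ⟨q, hq1, hq2, hq3, hq4, hq5⟩ := lead _ hg
      have := h3 (N - q) (by omega)
      rw [hf0, map_zero, Pi.zero_apply, zero_add, Nat.sub_sub_self (by omega)] at this
      exact hq4 this
    exact Prod.ext (Subtype.ext hf0) (Subtype.ext hg0)
  have hfin := LinearMap.finrank_le_finrank_of_injective hΨ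
  rw [Module.finrank_prod, Module.finrank_fin_fun] at hfin
  omega

end Pool.Agent.Lib.MP_06b9d2_tls
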