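import Pool.Agent.Lib.MP_06b9d2_ssp.Defs

/-!
MP_06b9d2_nt, board TLS: simple spectrum of `T_l` for the primes `l` with `l ≢ 0, ±1` modulo `9`. Definitions.

`A`, `Y` are power series in `x = exp (2 π i τ / 3)`: the expansions of the modular forms
`a = X + Y`, `Y` of weight one for `Γ(3)`, `X = η(τ/3) ^ 3 / η(τ)`, `Y = 3 η(3τ) ^ 3 / η(τ)`.
-/

namespace Pool.Agent.Lib.MP_06b9d2_tls

open PowerSeries Pool.Agent.L1

/-- a square root of `-3` -/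
noncomputable def th : ℂ := Complex.I * (Real.sqrt 3 : ℝ)

/-- a primitive cube root of unity, `exp (2 π i / 3)` -/
noncomputable def om : ℂ := (th - 1) / 2

/-- `f (x ^ n)` (for `n ≠ 0`) -/
noncomputable def V (n : ℕ) (f : ℂ⟦X⟧) : ℂ⟦X⟧ :=
  PowerSeries.mk fun m => if n ∣ m then PowerSeries.coeff (m / n) f else 0

/-- the operator `U_n` -/
noncomputable def U (n : ℕ) (f : ℂ⟦X⟧) : ℂ⟦X⟧ := PowerSeries.mk fun m => PowerSeries.coeff (n * m) f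

/-- `l` times the Hecke operator `T_l` in weight `w` (with the character `χ`, `χ(l) = e`) -/
noncomputable def TT (l : ℕ) (e : ℂ) (w : ℕ) (f : ℂ⟦X⟧) : ℂ⟦X⟧ :=
  (l : ℂ) • U l f + ((e * l) ^ w) • V l f

/-- the branches (weight one): `f (ζ ^ b x)`, `b < l`, and `e l f (x ^ (l ^ 2))` -/
noncomputable def br (l : ℕ) (e : ℂ) (i : Option (Fin l)) (f : ℂ⟦X⟧) : ℂ⟦X⟧ :=
  match i with
  | none => (e * l) • V (l ^ 2) f
  | some b => PowerSeries.rescale (Complex.exp (2 * Real.pi * Complex.I * (b : ℕ) / l)) f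

/-- the value of `a` at the cusps `∞`, `S`, `T S`, `T ^ 2 S` (up to the factor `e`) if `a = F`, `Y = G` at `∞` -/
noncomputable def cA (e : ℂ) (F G : ℂ⟦X⟧) : Fin 4 → ℂ⟦X⟧ :=
  ![F, (e / th) • (F + 2 * G), (e / th) • (F + 2 * G), (e / th) • (F + 2 * G)]

/-- the same for `Y`; `s = ω` or `s = ω ^ 2` -/
noncomputable def cY (e s : ℂ) (F G : ℂ⟦X⟧) : Fin 4 → ℂ⟦X⟧ :=
  ![G, (e / th) • (F - G), (e * s / th) • (F - G), (e * s ^ 2 / th) • (F - G)]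

/-- `l` is a prime, `e = χ(l) = ±1`, `s = ω ^ e` -/
def PL (l : ℕ) (e s : ℂ) : Prop :=
  l.Prime ∧ ((l % 3 = 1 ∧ e = 1 ∧ s = om) ∨ (l % 3 = 2 ∧ e = -1 ∧ s = om ^ 2))

/-- the properties of the expansions of `a` and `Y` -/
structure Core (A Y : ℂ⟦X⟧) : Prop where
  int : ∃ A₁ κ : ℤ⟦X⟧, A = 1 + 3 * PowerSeries.map (Int.castRingHom ℂ) A₁ ∧
    Y = 3 * PowerSeries.map (Int.castRingHom ℂ) κ ∧ constantCoeff A₁ = 0 ∧ constantCoeff κ = 0 ∧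
    coeff 1 κ = 1
  grA : ∀ n, n % 3 ≠ 0 → coeff n A = 0
  grY : ∀ n, n % 3 ≠ 1 → coeff n Y = 0
  h4 : V 3 (e4 ℂ) = A * (A ^ 3 + 8 * Y ^ 3)
  h6 : V 3 (e6 ℂ) = A ^ 6 - 20 * A ^ 3 * Y ^ 3 - 8 * Y ^ 6
  b1 : A = V 3 (A + 2 * Y)
  b2 : Y ^ 3 = 9 * V 3 (A ^ 2 * Y + A * Y ^ 2 + Y ^ 3)
  hecke : ∀ (l : ℕ) (e s : ℂ), PL l e s → ∀ (w : ℕ) (P : MvPolynomial (Fin 2) ℂ), P.IsHomogeneous w →
    ∃ P' : MvPolynomial (Fin 2) ℂ, P'.IsHomogeneous w ∧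
      ∑ i : Option (Fin l), MvPolynomial.aeval ![cA e (br l e i A) (br l e i Y),
          cY e s (br l e i A) (br l e i Y)] P =
        MvPolynomial.aeval ![cA 1 (V l A) (V l Y), cY 1 om (V l A) (V l Y)] P'

end Pool.Agent.Lib.MP_06b9d2_tls
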