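import Pool.Agent.Lib.MP_06b9d2_tls.Defs

/-!
Board TLS: definitions for the 3-adic argument (algebra part).
-/

namespace Pool.Agent.Lib.MP_06b9d2_tls

open PowerSeries Pool.Agent.L1

/-- the normalized matrix of `T_l`: `e = χ(l) = ±1`, `c` a 3-adic unit, `κ m n r` the coefficient of
`B ^ (m + n - r) G ^ r` in the power sum `∑ x_i ^ a u_i ^ m v_i ^ n` (divided by `3` if `e = -1`) -/
noncomputable def MG (e c : ℂ) (κ : ℕ → ℕ → ℕ → ℂ) (N j s : ℕ) : ℂ :=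
  ∑ m ∈ Finset.range (N + 1), ∑ n ∈ Finset.range (N + 1),
    if s ≤ j + n then
      e ^ s * ((N - s).choose m : ℂ) * (s.choose n : ℂ) * (3 * e / c) ^ m * (3 / c) ^ n *
        κ m n (j + n - s)
    else 0

/-- `x` is an eigenvector of the matrix `Mx` (indices `≤ N`) -/
def EgG (Mx : ℕ → ℕ → ℂ) (N : ℕ) (lam : ℂ) (x : ℕ → ℂ) : Prop :=
  ∀ j ≤ N, ∑ s ∈ Finset.range (N + 1), Mx j s * x s = lam * x j

/-- all eigenspaces of `Mx` (indices `≤ N`) have dimension at most two -/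
def Two (Mx : ℕ → ℕ → ℂ) (N : ℕ) : Prop :=
  ∀ lam : ℂ, ∃ L : (ℕ → ℂ) →ₗ[ℂ] (Fin 2 → ℂ),
    ∀ x : ℕ → ℂ, EgG Mx N lam x → (∀ s, N < s → x s = 0) → L x = 0 → x = 0

/-- the data for `e = -1`, `a = 0, 2` -/
structure DatM (O : ValuationSubring ℂ) (c : ℂ) (κ : ℕ → ℕ → ℕ → ℂ) : Prop where
  hc : O.valuation c = 1
  deg : ∀ m n r, m + n < r → κ m n r = 0
  int : ∀ m n r, O.valuation (κ m n r) ≤ 1
  h000 : O.valuation (κ 0 0 0) = 1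
  h101 : κ 1 0 1 = 0
  h010 : κ 0 1 0 = 0
  h011 : κ 0 1 1 = -κ 1 0 0
  h202 : κ 2 0 2 = 0
  h020 : κ 0 2 0 = 0
  h022 : κ 0 2 2 = κ 2 0 0
  h033 : κ 0 3 3 = -κ 3 0 0
  h302 : O.valuation (κ 3 0 2) ≤ O.valuation 3
  h031 : O.valuation (κ 0 3 1) ≤ O.valuation 3
  ht : O.valuation (κ 2 0 0 + κ 1 1 1) = 1

/-- the data for `e = -1`, `a = 1` -/
structure DatM1 (O : ValuationSubring ℂ) (c : ℂ) (κ : ℕ → ℕ → ℕ → ℂ) : Prop where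
  hc : O.valuation c = 1
  deg : ∀ m n r, m + n < r → κ m n r = 0
  int : ∀ m n r, O.valuation (κ m n r) ≤ 1
  h000 : κ 0 0 0 = 0
  h101 : κ 1 0 1 = 0
  h010 : κ 0 1 0 = 0
  h011 : κ 0 1 1 = κ 1 0 0
  hu : O.valuation (κ 1 0 0) = 1

/-- the data for `e = 1` -/
structure DatP (O : ValuationSubring ℂ) (c : ℂ) (κ : ℕ → ℕ → ℕ → ℂ) : Prop where
  hc : O.valuation c = 1
  deg : ∀ m n r, m + n < r → κ m n r = 0
  int : ∀ m n r, O.valuation (κ m n r) ≤ O.valuation 3 ^ ((m + n + 1) / 2)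
  h101 : κ 1 0 1 = 0
  h010 : κ 0 1 0 = 0
  h011 : κ 0 1 1 = κ 1 0 0
  h202 : κ 2 0 2 = 0
  h020 : κ 0 2 0 = 0
  h022 : κ 0 2 2 = κ 2 0 0
  h110 : κ 1 1 0 = 0
  h112 : κ 1 1 2 = 0
  h201 : O.valuation (κ 2 0 1) ≤ O.valuation 27
  h021 : O.valuation (κ 0 2 1) ≤ O.valuation 27
  h30 : ∀ r, O.valuation (κ 3 0 r) ≤ O.valuation 27
  h03 : ∀ r, O.valuation (κ 0 3 r) ≤ O.valuation 27
  ht : O.valuation (κ 2 0 0 - κ 1 1 1) = O.valuation 9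

/-- `T_l` in weight `k` on power series in `q` -/
noncomputable def Tl (l k : ℕ) (f : ℂ⟦X⟧) : ℂ⟦X⟧ := U l f + ((l : ℂ) ^ k / l) • V l f

end Pool.Agent.Lib.MP_06b9d2_tls
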