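import Pool.Agent.Lib.MP_06b9d2_tls.New
import Pool.Agent.Lib.MP_06b9d2_tls.Val
import Pool.Agent.Lib.MP_06b9d2_tls.Br
import Pool.Agent.Lib.MP_06b9d2_tls.PCm

/-!
Module TLS-Fam. Families of branches satisfy the hypotheses of `root`.

`hec`: `h.hecke` says: for `P` homogeneous of degree `w`, `∑ i, ev (zx i) (zy i) P ∈ HH (V l A) (V l Y) w`, where `zx i = cA e (br i A) (br i Y)`, `zy i = cY e s (br i A) (br i Y)`.
`fam_sum`: binomial theorem: `(α zx + β zy + α' bA + β' bY) ^ m = ∑_k C(m, k) (α zx + β zy) ^ k (α' bA + β' bY) ^ (m - k)`; `(α zx i + β zy i) ^ k = ev (zx i) (zy i) ((C α X 0 + C β X 1) ^ k)`, homogeneous of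
degree `k`; `(α' bA + β' bY) ^ (m - k) ∈ HH (m - k)` (`HH_A`, `HH_pow`), `HH_mul`, sums (`Submodule.sum_mem`, `smul_mem`).
`fam_pair`: `∑_{i, j} (z_i - z_j) ^ m = ∑_k C(m, k) (-1) ^ (m - k) (∑_i z_i ^ k) (∑_j z_j ^ (m - k))`, `Fintype.sum_prod_type`.
`bs_V`: `A = 1 + 3 A₁`, `Y = 3 κ` with integral `A₁`, `κ` without constant terms, `coeff 1 κ = 1`; `V l` keeps the coefficients (`V_coeff`); `yP`: `n = l`.
`near_A`: `some b`: the coefficients are multiplied by roots of unity (`v_root`), the constant coefficient is `1`; `none`: `(e l) • V A - 1 = (e l - 1) + e l (V A - 1)` and `e l - 1` is `3` times an integer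
(`l ≡ 1`, `e = 1` or `l ≡ 2`, `e = -1`). `near_Y` the same.
-/

namespace Pool.Agent.Lib.MP_06b9d2_tls

open PowerSeries Pool.Agent.L1

theorem hec {A Y : ℂ⟦X⟧} (h : Core A Y) {l : ℕ} {e s : ℂ} (hl : PL l e s) (w : ℕ)
    (P : MvPolynomial (Fin 2) ℂ) (hP : P.IsHomogeneous w) :
    ∑ i : Option (Fin l), ev (cA e (br l e i A) (br l e i Y)) (cY e s (br l e i A) (br l e i Y)) P ∈
      HH (V l A) (V l Y) w := by
  obtain ⟨P', hP', hE⟩ := h.hecke l e s hl w P hP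
  exact ⟨P', (MvPolynomial.mem_homogeneousSubmodule _ _).2 hP', hE.symm⟩

private theorem lin_hom (α β : ℂ) (k : ℕ) :
    ((α • (MvPolynomial.X 0 : MvPolynomial (Fin 2) ℂ) + β • MvPolynomial.X 1) ^ k).IsHomogeneous k := by
  have h0 : (α • (MvPolynomial.X 0 : MvPolynomial (Fin 2) ℂ)).IsHomogeneous 1 := by
    rw [← MvPolynomial.mem_homogeneousSubmodule]
    exact Submodule.smul_mem _ _ ((MvPolynomial.mem_homogeneousSubmodule _ _).2 (MvPolynomial.isHomogeneous_X ℂ 0))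
  have h1 : (β • (MvPolynomial.X 1 : MvPolynomial (Fin 2) ℂ)).IsHomogeneous 1 := by
    rw [← MvPolynomial.mem_homogeneousSubmodule]
    exact Submodule.smul_mem _ _ ((MvPolynomial.mem_homogeneousSubmodule _ _).2 (MvPolynomial.isHomogeneous_X ℂ 1))
  simpa using (h0.add h1).pow k

private theorem ev_lin (F G : Fin 4 → ℂ⟦X⟧) (α β : ℂ) (k : ℕ) :
    ev F G ((α • (MvPolynomial.X 0 : MvPolynomial (Fin 2) ℂ) + β • MvPolynomial.X 1) ^ k) =
      (α • F + β • G) ^ k := by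
  simp [ev]

private theorem nsmul_HH {A Y : ℂ⟦X⟧} {m : ℕ} {r : Fin 4 → ℂ⟦X⟧} (hr : r ∈ HH A Y m) (n : ℕ) :
    r * (n : Fin 4 → ℂ⟦X⟧) ∈ HH A Y m := by
  have h : r * (n : Fin 4 → ℂ⟦X⟧) = n • r := by
    rw [nsmul_eq_mul, mul_comm]
  rw [h]
  exact Submodule.smul_of_tower_mem _ n hr

theorem fam_sum {A Y : ℂ⟦X⟧} (h : Core A Y) {l : ℕ} {e s : ℂ} (hl : PL l e s) (α β α' β' : ℂ) (m : ℕ) :
    ∑ i : Option (Fin l), (α • cA e (br l e i A) (br l e i Y) + β • cY e s (br l e i A) (br l e i Y) +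
      α' • cA 1 (V l A) (V l Y) + β' • cY 1 om (V l A) (V l Y)) ^ m ∈ HH (V l A) (V l Y) m := by
  have h1 : ∑ i : Option (Fin l), (α • cA e (br l e i A) (br l e i Y) + β • cY e s (br l e i A) (br l e i Y) +
      α' • cA 1 (V l A) (V l Y) + β' • cY 1 om (V l A) (V l Y)) ^ m =
      ∑ k ∈ Finset.range (m + 1), (∑ i : Option (Fin l),
        (α • cA e (br l e i A) (br l e i Y) + β • cY e s (br l e i A) (br l e i Y)) ^ k) *
        (α' • cA 1 (V l A) (V l Y) + β' • cY 1 om (V l A) (V l Y)) ^ (m - k) *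
          ((m.choose k : ℕ) : Fin 4 → ℂ⟦X⟧) := by
    simp only [Finset.sum_mul]
    rw [Finset.sum_comm]
    refine Finset.sum_congr rfl fun i _ => ?_
    rw [add_assoc (α • cA e (br l e i A) (br l e i Y) + β • cY e s (br l e i A) (br l e i Y)), add_pow]
  rw [h1]
  refine Submodule.sum_mem _ fun k hk => ?_
  have hk' : k ≤ m := Nat.lt_succ_iff.1 (Finset.mem_range.1 hk)
  refine nsmul_HH ?_ _
  have h2 : ∑ i : Option (Fin l),
        (α • cA e (br l e i A) (br l e i Y) + β • cY e s (br l e i A) (br l e i Y)) ^ k ∈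
        HH (V l A) (V l Y) k := by
    have h3 := hec h hl k _ (lin_hom α β k)
    simpa only [ev_lin] using h3
  have h4 : (α' • cA 1 (V l A) (V l Y) + β' • cY 1 om (V l A) (V l Y)) ^ (m - k) ∈
      HH (V l A) (V l Y) (m - k) := by
    have h5 := HH_pow (Submodule.add_mem _ (Submodule.smul_mem _ α' (HH_A (V l A) (V l Y)).1)
      (Submodule.smul_mem _ β' (HH_A (V l A) (V l Y)).2)) (m - k)
    simpa using h5
  have h6 := HH_mul h2 h4
  rwa [Nat.add_sub_cancel' hk'] at h6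

theorem fam_pair {A Y : ℂ⟦X⟧} {K : Type} [Fintype K] (z : K → Fin 4 → ℂ⟦X⟧)
    (hz : ∀ m, ∑ k, z k ^ m ∈ HH A Y m) (m : ℕ) :
    ∑ p : K × K, (z p.1 - z p.2) ^ m ∈ HH A Y m := by
  have h1 : ∑ p : K × K, (z p.1 - z p.2) ^ m =
      ∑ k ∈ Finset.range (m + 1), (-1 : ℂ) ^ (m - k) • ((∑ i, z i ^ k) * (∑ j, z j ^ (m - k)) *
        ((m.choose k : ℕ) : Fin 4 → ℂ⟦X⟧)) := by
    rw [Fintype.sum_prod_type]
    have h0 : ∀ k, (∑ i, z i ^ k) * (∑ j, z j ^ (m - k)) = ∑ i, ∑ j, z i ^ k * z j ^ (m - k) :=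
      fun k => Finset.sum_mul_sum _ _ _ _
    simp only [h0, Finset.sum_mul, Finset.smul_sum]
    rw [Finset.sum_comm]
    have h2 : ∀ i j : K, (z i - z j) ^ m = ∑ k ∈ Finset.range (m + 1), (-1 : ℂ) ^ (m - k) •
        (z i ^ k * z j ^ (m - k) * ((m.choose k : ℕ) : Fin 4 → ℂ⟦X⟧)) := by
      intro i j
      rw [sub_eq_add_neg, add_pow]
      refine Finset.sum_congr rfl fun k _ => ?_
      have h3 : (-z j) ^ (m - k) = (-1 : ℂ) ^ (m - k) • z j ^ (m - k) := by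
        rw [← smul_pow, neg_one_smul]
      rw [h3, mul_smul_comm, smul_mul_assoc]
    simp only [h2]
    rw [Finset.sum_comm]
    have h5 : ∀ i : K, ∑ j : K, ∑ k ∈ Finset.range (m + 1), (-1 : ℂ) ^ (m - k) •
        (z i ^ k * z j ^ (m - k) * ((m.choose k : ℕ) : Fin 4 → ℂ⟦X⟧)) =
        ∑ k ∈ Finset.range (m + 1), ∑ j : K, (-1 : ℂ) ^ (m - k) •
        (z i ^ k * z j ^ (m - k) * ((m.choose k : ℕ) : Fin 4 → ℂ⟦X⟧)) := fun i => Finset.sum_comm
    simp only [h5]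
    rw [Finset.sum_comm]
  rw [h1]
  refine Submodule.sum_mem _ fun k hk => Submodule.smul_mem _ _ (nsmul_HH ?_ _)
  have hk' : k ≤ m := Nat.lt_succ_iff.1 (Finset.mem_range.1 hk)
  have h6 := HH_mul (hz k) (hz (m - k))
  rwa [Nat.add_sub_cancel' hk'] at h6

private theorem In_V {O : ValuationSubring ℂ} {F : ℂ⟦X⟧} {r : ℂ} (hF : In O F r) (n : ℕ) : In O (V n F) r := by
  intro m
  rw [V_coeff]
  split_ifs
  · exact hF _
  · simp

private theorem In_A {A Y : ℂ⟦X⟧} (h : Core A Y) (O : ValuationSubring ℂ) : In O (A - 1) 3 ∧ In O Y 3 ∧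
    constantCoeff A = 1 ∧ constantCoeff Y = 0 ∧ coeff 1 Y = 3 := by
  obtain ⟨A₁, κ, hA, hY, ha, hk, hk1⟩ := h.int
  have c3 : (3 : ℂ⟦X⟧) = C (3 : ℂ) := (map_ofNat C 3).symm
  refine ⟨?_, ?_, ?_, ?_, ?_⟩
  · intro n
    rw [hA, add_sub_cancel_left, c3, PowerSeries.coeff_C_mul, PowerSeries.coeff_map, map_mul]
    exact mul_le_of_le_one_right' (MP_06b9d2_ssp.int_mem O _)
  · intro n
    rw [hY, c3, PowerSeries.coeff_C_mul, PowerSeries.coeff_map, map_mul]
    exact mul_le_of_le_one_right' (MP_06b9d2_ssp.int_mem O _)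
  · have ha' : coeff 0 A₁ = 0 := by rw [PowerSeries.coeff_zero_eq_constantCoeff_apply]; exact ha
    rw [← PowerSeries.coeff_zero_eq_constantCoeff_apply, hA, c3, map_add, PowerSeries.coeff_C_mul,
      PowerSeries.coeff_map, ha']
    simp
  · have hk' : coeff 0 κ = 0 := by rw [PowerSeries.coeff_zero_eq_constantCoeff_apply]; exact hk
    rw [← PowerSeries.coeff_zero_eq_constantCoeff_apply, hY, c3, PowerSeries.coeff_C_mul,
      PowerSeries.coeff_map, hk']
    simp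
  · rw [hY, c3, PowerSeries.coeff_C_mul, PowerSeries.coeff_map, hk1]
    simp

theorem bs_V {A Y : ℂ⟦X⟧} (h : Core A Y) (O : ValuationSubring ℂ) {l : ℕ} (hl : l ≠ 0) :
    Bs O (V l A) (V l Y) := by
  obtain ⟨h1, h2, h3, h4, h5⟩ := In_A h O
  refine ⟨?_, ?_, ?_, ?_, ?_⟩
  · rw [V_cc hl, h3]
  · rw [V_cc hl, h4]
  · have h6 : V l A - 1 = V l (A - 1) := by rw [V_sub hl, V_one hl]
    rw [h6]
    exact In_V h1 l
  · exact In_V h2 l
  · refine ⟨l, ?_⟩
    rw [V_coeff, if_pos dvd_rfl, Nat.div_self (Nat.pos_of_ne_zero hl), h5]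

private theorem In_rescale {O : ValuationSubring ℂ} {F : ℂ⟦X⟧} {r z : ℂ} (hz : O.valuation z = 1) (hF : In O F r) :
    In O (PowerSeries.rescale z F) r := by
  intro n
  rw [PowerSeries.coeff_rescale, map_mul, map_pow, hz, one_pow, one_mul]
  exact hF n

private theorem v_zeta (O : ValuationSubring ℂ) {l : ℕ} (hl : l ≠ 0) (b : ℕ) :
    O.valuation (Complex.exp (2 * Real.pi * Complex.I * b / l)) = 1 := by
  refine v_root O _ l hl ?_
  rw [← Complex.exp_nat_mul]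
  have hl' : (l : ℂ) ≠ 0 := Nat.cast_ne_zero.2 hl
  have : (l : ℂ) * (2 * Real.pi * Complex.I * b / l) = b * (2 * Real.pi * Complex.I) := by
    field_simp
  rw [this]
  exact Complex.exp_nat_mul_two_pi_mul_I b

private theorem el_int {l : ℕ} {e s : ℂ} (hl : PL l e s) : ∃ n : ℤ, e * l = n ∧ ∃ k : ℤ, n - 1 = 3 * k := by
  obtain ⟨_, ⟨h1, h2, _⟩ | ⟨h1, h2, _⟩⟩ := hl
  · exact ⟨l, by simp [h2], ((l : ℤ) - 1) / 3, by omega⟩
  · exact ⟨-l, by simp [h2], (-(l : ℤ) - 1) / 3, by omega⟩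

theorem near_A {A Y : ℂ⟦X⟧} (h : Core A Y) (O : ValuationSubring ℂ) {l : ℕ} {e s : ℂ} (hl : PL l e s)
    (i : Option (Fin l)) : In O (br l e i A - 1) 3 := by
  obtain ⟨h1, -⟩ := In_A h O
  have hl0 : l ≠ 0 := hl.1.ne_zero
  match i with
  | none =>
    have h2 : br l e none A - 1 = (e * l) • V (l ^ 2) (A - 1) + C (e * l - 1) := by
      have h3 : br l e none A = (e * l) • V (l ^ 2) A := rfl
      rw [h3, V_sub (pow_ne_zero 2 hl0), V_one (pow_ne_zero 2 hl0), smul_sub, map_sub, map_one,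
        PowerSeries.smul_eq_C_mul, PowerSeries.smul_eq_C_mul, mul_one]
      ring
    obtain ⟨n, hn, k, hk⟩ := el_int hl
    have h4 : In O (C (e * l - 1)) 3 := by
      intro m
      rw [PowerSeries.coeff_C]
      split_ifs
      · have h5 : e * l - 1 = 3 * (k : ℂ) := by
          rw [hn]
          exact_mod_cast hk
        rw [h5, map_mul]
        exact mul_le_of_le_one_right' (MP_06b9d2_ssp.int_mem O _)
      · simp
    have h6 : In O ((e * l) • V (l ^ 2) (A - 1)) 3 := by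
      intro m
      rw [PowerSeries.coeff_smul, smul_eq_mul, map_mul, hn]
      exact mul_le_of_le_one_of_le (MP_06b9d2_ssp.int_mem O _) (In_V h1 _ m)
    rw [h2]
    exact In_add h6 h4
  | some b =>
    have h2 : br l e (some b) A - 1 = PowerSeries.rescale (Complex.exp (2 * Real.pi * Complex.I * (b : ℕ) / l)) (A - 1) := by
      rw [map_sub, map_one]
      rfl
    rw [h2]
    exact In_rescale (v_zeta O hl0 _) h1

theorem near_Y {A Y : ℂ⟦X⟧} (h : Core A Y) (O : ValuationSubring ℂ) {l : ℕ} {e s : ℂ} (hl : PL l e s)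
    (i : Option (Fin l)) : In O (br l e i Y) 3 := by
  obtain ⟨-, h1, -⟩ := In_A h O
  have hl0 : l ≠ 0 := hl.1.ne_zero
  match i with
  | none =>
    obtain ⟨n, hn, k, hk⟩ := el_int hl
    intro m
    have h3 : br l e none Y = (e * l) • V (l ^ 2) Y := rfl
    rw [h3, PowerSeries.coeff_smul, smul_eq_mul, map_mul, hn]
    exact mul_le_of_le_one_of_le (MP_06b9d2_ssp.int_mem O _) (In_V h1 _ m)
  | some b =>
    have h2 : br l e (some b) Y = PowerSeries.rescale (Complex.exp (2 * Real.pi * Complex.I * (b : ℕ) / l)) Y := rfl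
    rw [h2]
    exact In_rescale (v_zeta O hl0 _) h1

end Pool.Agent.Lib.MP_06b9d2_tls
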