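import Pool.Agent.Lib.MP_06b9d2_tls.Val

/-!
Module TLS-Lin4. The four cusp inequality for linear forms.

`v = O.valuation`. If `v β < v α`: all four maxima on the right are `v α` (`v (α + w ^ j β) = v α`, `v (3 ..) ≤ v 3 v α < v α`, `v (3 β) < v α`): the claim is
`(v α) ^ 6 (v 3) ^ 3 ≤ (v α) ^ 6`. If `v α < v β`: `v (α + w ^ j β) = v β` so each of the last three maxima is `v β`, the first is `≥ v 3 v β`: `(v β) ^ 6 (v 3) ^ 3`.
If `v α = v β`: divide by `(v β) ^ 6` (replace `α` by `α / β`, `β` by `1`; or work directly; the case `β = 0` is trivial). Then `v α = 1`, the first maximum is `1`, and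
with `M_j = max (v (α + w ^ j)) (v (3 (2 α - w ^ j)))` the claim is `(v 3) ^ 3 ≤ M_0 M_1 M_2`. For `i ≠ j`:
`v (w ^ i - w ^ j) = v th`, `(v th) ^ 2 = v 3`. If all `v (α + w ^ j) ≥ v th`: `M_0 M_1 M_2 ≥ (v th) ^ 3 ≥ (v th) ^ 6 = (v 3) ^ 3`. Otherwise `v (α + w ^ j) < v th` for one `j`; then for `i ≠ j`
`v (α + w ^ i) = v th`, so `M_i ≥ v th` for the two others, and `M_j ≥ (v 3) ^ 2`: otherwise `v (α + w ^ j) < (v 3) ^ 2 < v 3` and `2 α - w ^ j = 3 α - (α + w ^ j)` has
valuation `v 3`, so `M_j ≥ v (3 (2 α - w ^ j)) = (v 3) ^ 2`, a contradiction. Product: `≥ (v th) ^ 2 (v 3) ^ 2 = (v 3) ^ 3`.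
-/

namespace Pool.Agent.Lib.MP_06b9d2_tls

open PowerSeries Pool.Agent.L1

/-- the maximum at the cusp `j` -/
noncomputable def mx (O : ValuationSubring ℂ) (w α β : ℂ) : O.ValueGroup :=
  max (O.valuation (α + w * β)) (O.valuation (3 * (2 * α - w * β)))

private theorem lin4_one {O : ValuationSubring ℂ} (h3 : O.valuation 3 < 1) {x w w' w'' : ℂ}
    (hx : O.valuation x = 1) (h1 : O.valuation (w' - w) = O.valuation th)
    (h2 : O.valuation (w'' - w) = O.valuation th) (hlt : O.valuation (x + w * 1) < O.valuation th) :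
    O.valuation 3 ^ 3 ≤ mx O w x 1 * (mx O w' x 1 * mx O w'' x 1) := by
  obtain ⟨hp, -, hp0⟩ := v_pr h3
  have ht : O.valuation th ^ 2 = O.valuation 3 := by
    rw [v_th h3, ← pow_mul]
    exact hp
  have hM' : ∀ y : ℂ, O.valuation (y - w) = O.valuation th → O.valuation th ≤ mx O y x 1 := by
    intro y hy
    have e : x + y * 1 = (x + w * 1) + (y - w) := by ring
    have h : O.valuation (x + y * 1) = O.valuation th := by
      rw [e, Valuation.map_add_eq_of_lt_right _ (by rw [hy]; exact hlt), hy]
    exact h.symm.le.trans (le_max_left _ _)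
  have hM : O.valuation 3 ^ 2 ≤ mx O w x 1 := by
    rcases le_or_gt (O.valuation 3 ^ 2) (O.valuation (x + w * 1)) with h | h
    · exact h.trans (le_max_left _ _)
    · have e : 2 * x - w * 1 = -(x + w * 1) + 3 * x := by ring
      have h5 : O.valuation (3 * x) = O.valuation 3 := by rw [map_mul, hx, mul_one]
      have h6 : O.valuation (-(x + w * 1)) < O.valuation (3 * x) := by
        rw [Valuation.map_neg, h5]
        refine lt_of_lt_of_le h ?_
        calc O.valuation 3 ^ 2 = O.valuation 3 * O.valuation 3 := pow_two _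
          _ ≤ O.valuation 3 * 1 := mul_le_mul_right h3.le _
          _ = O.valuation 3 := mul_one _
      have h7 : O.valuation (3 * (2 * x - w * 1)) = O.valuation 3 ^ 2 := by
        rw [map_mul, e, Valuation.map_add_eq_of_lt_right _ h6, h5, pow_two]
      exact h7.symm.le.trans (le_max_right _ _)
  calc O.valuation 3 ^ 3 = O.valuation 3 ^ 2 * (O.valuation th * O.valuation th) := by
        rw [← pow_two (O.valuation th), ht, ← pow_succ]
    _ ≤ _ := mul_le_mul' hM (mul_le_mul' (hM' _ h1) (hM' _ h2))

private theorem lin4_unit {O : ValuationSubring ℂ} (h3 : O.valuation 3 < 1) {x : ℂ}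
    (hx : O.valuation x = 1) :
    O.valuation 3 ^ 3 ≤ mx O 1 x 1 * (mx O om x 1 * mx O (om ^ 2) x 1) := by
  obtain ⟨hp, hplt, hp0⟩ := v_pr h3
  have ht : O.valuation th ^ 2 = O.valuation 3 := by
    rw [v_th h3, ← pow_mul]
    exact hp
  have ht1 : O.valuation th ≤ 1 := by
    rw [v_th h3]
    exact pow_le_one' hplt.le _
  obtain ⟨ho1, ho2⟩ := v_om1 O
  have ho3 : O.valuation (om ^ 2 - om) = O.valuation th := by
    have : om ^ 2 - om = om * (om - 1) := by ring
    rw [this, map_mul, v_om, one_mul, ho1]
  have neg : ∀ a b : ℂ, O.valuation (a - b) = O.valuation th → O.valuation (b - a) = O.valuation th := by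
    intro a b h
    rw [← neg_sub, Valuation.map_neg]
    exact h
  rcases lt_or_ge (O.valuation (x + 1 * 1)) (O.valuation th) with h0 | h0
  · exact lin4_one h3 hx ho1 ho2 h0
  rcases lt_or_ge (O.valuation (x + om * 1)) (O.valuation th) with h1 | h1
  · have := lin4_one h3 hx (neg _ _ ho1) ho3 h1
    rwa [mul_left_comm] at this
  rcases lt_or_ge (O.valuation (x + om ^ 2 * 1)) (O.valuation th) with h2 | h2
  · have := lin4_one h3 hx (neg _ _ ho2) (neg _ _ ho3) h2
    rw [mul_left_comm, mul_comm (mx O (om ^ 2) x 1)] at this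
    exact this
  have h4 : O.valuation 3 ^ 3 ≤ O.valuation th * (O.valuation th * O.valuation th) := by
    calc O.valuation 3 ^ 3 = O.valuation th ^ 6 := by rw [← ht, ← pow_mul]
      _ = O.valuation th * (O.valuation th * O.valuation th) * O.valuation th ^ 3 := by
          rw [← pow_two, ← pow_succ', ← pow_add]
      _ ≤ O.valuation th * (O.valuation th * O.valuation th) * 1 := mul_le_mul_right (pow_le_one' ht1 _) _
      _ = _ := mul_one _
  exact h4.trans (mul_le_mul' (h0.trans (le_max_left _ _))
    (mul_le_mul' (h1.trans (le_max_left _ _)) (h2.trans (le_max_left _ _))))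

theorem lin4 {O : ValuationSubring ℂ} (h3 : O.valuation 3 < 1) (α β : ℂ) :
    max (O.valuation α) (O.valuation β) ^ 6 * O.valuation 3 ^ 3 ≤
      max (O.valuation α) (O.valuation (3 * β)) ^ 3 * (mx O 1 α β * mx O om α β * mx O (om ^ 2) α β) := by
  have hw0 : O.valuation (1 : ℂ) = 1 := map_one _
  have hw1 : O.valuation om = 1 := v_om O
  have hw2 : O.valuation (om ^ 2) = 1 := by rw [map_pow, v_om, one_pow]
  rcases lt_trichotomy (O.valuation β) (O.valuation α) with h | h | h
  · have hm : ∀ w : ℂ, O.valuation w = 1 → O.valuation α ≤ mx O w α β := by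
      intro w hw
      have h1 : O.valuation (α + w * β) = O.valuation α := by
        rw [Valuation.map_add_eq_of_lt_left]
        rw [map_mul, hw, one_mul]
        exact h
      exact h1.symm.le.trans (le_max_left _ _)
    rw [max_eq_left h.le]
    calc O.valuation α ^ 6 * O.valuation 3 ^ 3 ≤ O.valuation α ^ 6 * 1 :=
          mul_le_mul_right (pow_le_one' h3.le _) _
      _ = O.valuation α ^ 3 * (O.valuation α * O.valuation α * O.valuation α) := by
          rw [mul_one, ← pow_two, ← pow_succ, ← pow_add]
      _ ≤ _ := mul_le_mul' (pow_le_pow_left' (le_max_left _ _) _)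
          (mul_le_mul' (mul_le_mul' (hm _ hw0) (hm _ hw1)) (hm _ hw2))
  · rcases eq_or_ne β 0 with hb | hb
    · rw [← h, hb, map_zero, max_self, zero_pow (by norm_num), zero_mul]
      exact zero_le
    · have hb' : O.valuation β ≠ 0 := (Valuation.ne_zero_iff _).2 hb
      have hx : O.valuation (α / β) = 1 := by
        rw [map_div₀, ← h, div_self hb']
      have hu := lin4_unit h3 hx
      have hmx : ∀ w : ℂ, mx O w α β = mx O w (α / β) 1 * O.valuation β := by
        intro w
        have e1 : α + w * β = (α / β + w * 1) * β := by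
          rw [add_mul, div_mul_cancel₀ _ hb, mul_one]
        have e2 : 3 * (2 * α - w * β) = (3 * (2 * (α / β) - w * 1)) * β := by
          have : α / β * β = α := div_mul_cancel₀ _ hb
          linear_combination (-6 : ℂ) * this
        unfold mx
        rw [e1, e2, map_mul, map_mul (O.valuation) (3 * (2 * (α / β) - w * 1)) β, max_mul_mul_right]
      rw [hmx, hmx, hmx, ← h, max_self]
      have hf : O.valuation β ^ 3 ≤ max (O.valuation β) (O.valuation (3 * β)) ^ 3 :=
        pow_le_pow_left' (le_max_left _ _) _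
      calc O.valuation β ^ 6 * O.valuation 3 ^ 3
          ≤ O.valuation β ^ 6 * (mx O 1 (α / β) 1 * (mx O om (α / β) 1 * mx O (om ^ 2) (α / β) 1)) :=
            mul_le_mul_right hu _
        _ = O.valuation β ^ 3 * (mx O 1 (α / β) 1 * O.valuation β * (mx O om (α / β) 1 * O.valuation β) *
              (mx O (om ^ 2) (α / β) 1 * O.valuation β)) := by
            generalize mx O 1 (α / β) 1 = a
            generalize mx O om (α / β) 1 = b
            generalize mx O (om ^ 2) (α / β) 1 = c
            generalize O.valuation β = d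
            have e : d ^ 6 = d ^ 3 * (d * d * d) := by
              rw [← pow_two, ← pow_succ, ← pow_add]
            rw [e]
            ac_rfl
        _ ≤ _ := mul_le_mul_left hf _
  · have hm : ∀ w : ℂ, O.valuation w = 1 → O.valuation β ≤ mx O w α β := by
      intro w hw
      have h1 : O.valuation (α + w * β) = O.valuation β := by
        rw [Valuation.map_add_eq_of_lt_right, map_mul, hw, one_mul]
        rw [map_mul, hw, one_mul]
        exact h
      exact h1.symm.le.trans (le_max_left _ _)
    rw [max_eq_right h.le]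
    calc O.valuation β ^ 6 * O.valuation 3 ^ 3
        = (O.valuation 3 * O.valuation β) ^ 3 * (O.valuation β * O.valuation β * O.valuation β) := by
          have e : O.valuation β ^ 6 = O.valuation β ^ 3 * (O.valuation β * O.valuation β * O.valuation β) := by
            rw [← pow_two, ← pow_succ, ← pow_add]
          rw [e, mul_pow]
          ac_rfl
      _ ≤ _ := mul_le_mul' (pow_le_pow_left' (by rw [← map_mul]; exact le_max_right _ _) _)
          (mul_le_mul' (mul_le_mul' (hm _ hw0) (hm _ hw1)) (hm _ hw2))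

end Pool.Agent.Lib.MP_06b9d2_tls
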