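import Pool.Agent.Lib.MP_06b9d2_tls.PCm
import Pool.Agent.Lib.MP_06b9d2_tls.Lin4
import Pool.Agent.Lib.MP_06b9d2_tls.Fac

/-!
Module TLS-Four. The four cusp inequality.

`P = C c * ∏_{k < m} (C (α k) X 0 + C (β k) X 1)` (`hom_fac`). Component `0` of `ev .. P` is `c ∏ (α A + β Y)`; by `PC_lin`, `PC_prod` it has content `c ∏ c_k`, `v c_k = max (v α) (v (3 β)) =: m_k`; as it is
in `pr ^ (a 0)`: `v c ∏ m_k ≤ (v pr) ^ (a 0)`. Component `j + 1`: `α (A + 2 Y) / th + β w (A - Y) / th = th⁻¹ ((α + w β) A + (2 α - w β) Y)`, `w = 1, om, om ^ 2`: content `th⁻¹ * ..` with valuation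
`(v th)⁻¹ mx O w α β`. So `v c ∏_k mx O w (α k) (β k) ≤ (v pr) ^ (a (j+1)) (v th) ^ m`. Each coefficient of `P` has valuation `≤ v c ∏_k g_k`, `g_k = max (v α) (v β)` (expand the product; e.g. the coefficients of
`C α X 0 + C β X 1` are `≤ g_k` and products: induction over the finite product, `MvPolynomial.coeff_mul`). By `lin4`:
`(v (coeff)) ^ 6 (v 3) ^ (3 m) ≤ (v c) ^ 6 ∏ g_k ^ 6 (v 3) ^ 3 ≤ (v c ∏ m_k) ^ 3 ∏_j (v c ∏_k mx_j) ≤ (v pr) ^ (3 a 0 + a 1 + a 2 + a 3) (v th) ^ (3 m)`, `v th = (v pr) ^ 6`, `v 3 = (v pr) ^ 12`: so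
`(v coeff) ^ 6 (v pr) ^ (36 m) ≤ (v pr) ^ (3 a 0 + .. + 18 m)`, hence `(v coeff) ^ 6 (v pr) ^ (18 m) ≤ (v pr) ^ (3 a 0 + ..) ≤ (v pr) ^ (6 g + 18 m)` (`v pr < 1`), so `(v coeff) ^ 6 ≤ (v pr ^ g) ^ 6` and `v coeff ≤ v pr ^ g`
(`pow_le_pow_left` contraposed, `v pr ≠ 0`).
-/

namespace Pool.Agent.Lib.MP_06b9d2_tls

open PowerSeries Pool.Agent.L1

private theorem PC_smul' {O : ValuationSubring ℂ} {F : ℂ⟦X⟧} {c : ℂ} (hF : PC O F c) (x : ℂ) :
    PC O (x • F) (x * c) := by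
  refine ⟨In_smul hF.1 x, ?_⟩
  obtain ⟨n, hn⟩ := hF.2
  refine ⟨n, ?_⟩
  rw [coeff_smul, smul_eq_mul, map_mul, map_mul, hn]

private theorem PC_le {O : ValuationSubring ℂ} {F : ℂ⟦X⟧} {c r : ℂ} (hF : PC O F c) (h : In O F r) :
    O.valuation c ≤ O.valuation r := by
  obtain ⟨n, hn⟩ := hF.2
  rw [← hn]
  exact h n

private theorem coeff_lin (O : ValuationSubring ℂ) (α β : ℂ) (d : Fin 2 →₀ ℕ) :
    O.valuation (MvPolynomial.coeff d (MvPolynomial.C α * MvPolynomial.X 0 +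
      MvPolynomial.C β * MvPolynomial.X 1)) ≤ max (O.valuation α) (O.valuation β) := by
  rw [MvPolynomial.coeff_add, MvPolynomial.coeff_C_mul, MvPolynomial.coeff_C_mul,
    MvPolynomial.coeff_X, MvPolynomial.coeff_X]
  refine Valuation.map_add_le _ ?_ ?_
  · refine le_trans ?_ (le_max_left _ _)
    rw [map_mul]
    split_ifs
    · rw [map_one, mul_one]
    · rw [map_zero, mul_zero]
      exact zero_le
  · refine le_trans ?_ (le_max_right _ _)
    rw [map_mul]
    split_ifs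
    · rw [map_one, mul_one]
    · rw [map_zero, mul_zero]
      exact zero_le

private theorem coeff_prod_le {O : ValuationSubring ℂ} {ι : Type*} (s : Finset ι)
    (L : ι → MvPolynomial (Fin 2) ℂ) (g : ι → O.ValueGroup)
    (h : ∀ i ∈ s, ∀ d, O.valuation (MvPolynomial.coeff d (L i)) ≤ g i) :
    ∀ d, O.valuation (MvPolynomial.coeff d (∏ i ∈ s, L i)) ≤ ∏ i ∈ s, g i := by
  classical
  induction s using Finset.induction_on with
  | empty =>
    intro d
    rw [Finset.prod_empty, Finset.prod_empty, MvPolynomial.coeff_one]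
    split_ifs
    · rw [map_one]
    · rw [map_zero]
      exact zero_le
  | insert a s ha ih =>
    intro d
    rw [Finset.prod_insert ha, Finset.prod_insert ha, MvPolynomial.coeff_mul]
    refine Valuation.map_sum_le _ fun i _ => ?_
    rw [map_mul]
    exact mul_le_mul' (h a (Finset.mem_insert_self a s) _)
      (ih (fun i hi => h i (Finset.mem_insert_of_mem hi)) _)

private theorem ev_fac (F G : Fin 4 → ℂ⟦X⟧) (m : ℕ) (c : ℂ) (α β : Fin m → ℂ) (j : Fin 4) :
    ev F G (MvPolynomial.C c *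
      ∏ k, (MvPolynomial.C (α k) * MvPolynomial.X 0 + MvPolynomial.C (β k) * MvPolynomial.X 1)) j =
    c • ∏ k, (α k • F j + β k • G j) := by
  unfold ev
  rw [map_mul, map_prod, MvPolynomial.aeval_C, Pi.mul_apply, Finset.prod_apply]
  have h1 : (algebraMap ℂ (Fin 4 → ℂ⟦X⟧)) c j = algebraMap ℂ (ℂ⟦X⟧) c := rfl
  rw [h1, ← Algebra.smul_def]
  congr 1
  refine Finset.prod_congr rfl fun k _ => ?_
  rw [map_add, map_mul, map_mul, MvPolynomial.aeval_C, MvPolynomial.aeval_C, MvPolynomial.aeval_X,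
    MvPolynomial.aeval_X, Pi.add_apply, Pi.mul_apply, Pi.mul_apply]
  have h2 : ∀ x : ℂ, (algebraMap ℂ (Fin 4 → ℂ⟦X⟧)) x j = algebraMap ℂ (ℂ⟦X⟧) x := fun _ => rfl
  rw [h2, h2, ← Algebra.smul_def, ← Algebra.smul_def]
  rfl

private theorem lin_j (A Y : ℂ⟦X⟧) (w α β : ℂ) :
    α • ((1 / th) • (A + 2 * Y)) + β • ((w / th) • (A - Y)) =
      (1 / th) • ((α + w * β) • A + (2 * α - w * β) • Y) := by
  have h2 : (2 : ℂ⟦X⟧) * Y = (2 : ℂ) • Y := by
    rw [two_mul, two_smul]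
  rw [h2]
  simp only [smul_add, smul_sub, smul_smul]
  have e1 : α * (1 / th) = 1 / th * α := by ring
  have e2 : β * (w / th) = 1 / th * (w * β) := by ring
  rw [e2]
  have e3 : α * (1 / th * 2) = 1 / th * (2 * α) := by ring
  rw [e1, e3]
  rw [mul_add (1 / th), mul_sub (1 / th), add_smul, sub_smul]
  abel

private theorem cusp_le {O : ValuationSubring ℂ} {F G : ℂ⟦X⟧} {m : ℕ} {c r : ℂ} {α β : Fin m → ℂ}
    {t : Fin m → O.ValueGroup}
    (h : ∀ k, ∃ x : ℂ, PC O (α k • F + β k • G) x ∧ O.valuation x = t k)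
    (hr : In O (c • ∏ k, (α k • F + β k • G)) r) :
    O.valuation c * ∏ k, t k ≤ O.valuation r := by
  choose x hx ht using h
  have h1 := PC_smul' (PC_prod Finset.univ fun k _ => hx k) c
  have h2 := PC_le h1 hr
  rw [map_mul, map_prod] at h2
  rwa [Finset.prod_congr rfl fun k _ => ht k] at h2

theorem four {O : ValuationSubring ℂ} (h3 : O.valuation 3 < 1) {A Y : ℂ⟦X⟧} (hB : Bs O A Y) (m : ℕ)
    (P : MvPolynomial (Fin 2) ℂ) (hP : P.IsHomogeneous m) (a : Fin 4 → ℕ) (g : ℕ)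
    (ha : ∀ j, In O (ev (cA 1 A Y) (cY 1 om A Y) P j) (pr ^ a j))
    (hg : 6 * g + 18 * m ≤ 3 * a 0 + a 1 + a 2 + a 3) (d : Fin 2 →₀ ℕ) :
    O.valuation (MvPolynomial.coeff d P) ≤ O.valuation (pr ^ g) := by
  obtain ⟨c, α, β, rfl⟩ := hom_fac m P hP
  obtain ⟨hp12, hp1, hp0⟩ := v_pr h3
  have hth := v_th h3
  set p := O.valuation pr with hpdef
  have hth0 : O.valuation th ≠ 0 := by
    rw [hth]
    exact pow_ne_zero _ hp0
  have b0 : O.valuation c * ∏ k, max (O.valuation (α k)) (O.valuation (3 * β k)) ≤ p ^ a 0 := by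
    have h := ha 0
    rw [ev_fac] at h
    have h2 := cusp_le (fun k => PC_lin h3 hB (α k) (β k)) h
    rwa [map_pow] at h2
  have bj : ∀ (w : ℂ) (j : Fin 4), cA 1 A Y j = (1 / th) • (A + 2 * Y) →
      cY 1 om A Y j = (w / th) • (A - Y) →
      O.valuation c * ∏ k, mx O w (α k) (β k) ≤ p ^ a j * (p ^ 6) ^ m := by
    intro w j hA hY
    have h := ha j
    rw [ev_fac, hA, hY] at h
    have h2 := cusp_le (t := fun k => O.valuation (1 / th) * mx O w (α k) (β k)) (fun k => ?_) h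
    · rw [map_pow, Finset.prod_mul_distrib, Finset.prod_const, Finset.card_univ, Fintype.card_fin,
        map_div₀, map_one, hth] at h2
      have h4 : (p ^ 6) ^ m ≠ 0 := pow_ne_zero _ (pow_ne_zero _ hp0)
      have h5 : O.valuation c * ((1 / p ^ 6) ^ m * ∏ k, mx O w (α k) (β k)) * (p ^ 6) ^ m =
          O.valuation c * ∏ k, mx O w (α k) (β k) := by
        rw [one_div, inv_pow]
        rw [mul_assoc, mul_comm (((p ^ 6) ^ m)⁻¹), mul_assoc, inv_mul_cancel₀ h4, mul_one]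
      rw [← h5]
      exact mul_le_mul' h2 le_rfl
    · obtain ⟨x, hx, hv⟩ := PC_lin h3 hB (α k + w * β k) (2 * α k - w * β k)
      refine ⟨1 / th * x, ?_, ?_⟩
      · rw [lin_j]
        exact PC_smul' hx _
      · rw [map_mul, hv]
        rfl
  have b1 := bj 1 1 rfl (by simp [cY])
  have b2 := bj om 2 rfl (by simp [cY])
  have b3 := bj (om ^ 2) 3 rfl (by simp [cY])
  have hco : O.valuation (MvPolynomial.coeff d (MvPolynomial.C c *
      ∏ k, (MvPolynomial.C (α k) * MvPolynomial.X 0 + MvPolynomial.C (β k) * MvPolynomial.X 1))) ≤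
      O.valuation c * ∏ k, max (O.valuation (α k)) (O.valuation (β k)) := by
    rw [MvPolynomial.coeff_C_mul, map_mul]
    exact mul_le_mul' le_rfl (coeff_prod_le _ _ _ (fun k _ d => coeff_lin O (α k) (β k) d) d)
  refine hco.trans ?_
  rw [map_pow]
  set G := ∏ k, max (O.valuation (α k)) (O.valuation (β k)) with hG
  set M0 := ∏ k, max (O.valuation (α k)) (O.valuation (3 * β k)) with hM0
  set M1 := ∏ k, mx O 1 (α k) (β k) with hM1
  set M2 := ∏ k, mx O om (α k) (β k) with hM2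
  set M3 := ∏ k, mx O (om ^ 2) (α k) (β k) with hM3
  have hprod : G ^ 6 * (O.valuation 3 ^ 3) ^ m ≤ M0 ^ 3 * (M1 * M2 * M3) := by
    have h1 : ∏ k, (max (O.valuation (α k)) (O.valuation (β k)) ^ 6 * O.valuation 3 ^ 3) ≤
        ∏ k, (max (O.valuation (α k)) (O.valuation (3 * β k)) ^ 3 *
          (mx O 1 (α k) (β k) * mx O om (α k) (β k) * mx O (om ^ 2) (α k) (β k))) :=
      Finset.prod_le_prod' fun k _ => lin4 h3 (α k) (β k)
    rw [Finset.prod_mul_distrib, Finset.prod_mul_distrib, Finset.prod_mul_distrib,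
      Finset.prod_mul_distrib, Finset.prod_pow _ 6, Finset.prod_pow _ 3, Finset.prod_const,
      Finset.card_univ, Fintype.card_fin] at h1
    rw [Finset.prod_pow] at h1
    rw [← pow_mul, mul_comm 3 m, pow_mul]
    exact h1
  have hbig : (O.valuation c * G) ^ 6 * p ^ (36 * m) ≤ p ^ (6 * g) * p ^ (36 * m) := by
    calc (O.valuation c * G) ^ 6 * p ^ (36 * m)
        = O.valuation c ^ 6 * (G ^ 6 * (O.valuation 3 ^ 3) ^ m) := by
          rw [← hp12, mul_pow, ← pow_mul, ← pow_mul, mul_assoc]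
          have h12 : 36 * m = 12 * (3 * m) := by ring
          rw [h12]
      _ ≤ O.valuation c ^ 6 * (M0 ^ 3 * (M1 * M2 * M3)) := mul_le_mul' le_rfl hprod
      _ = (O.valuation c * M0) ^ 3 * ((O.valuation c * M1) * (O.valuation c * M2) *
          (O.valuation c * M3)) := by
          rw [mul_pow]
          have : O.valuation c ^ 6 = O.valuation c ^ 3 * (O.valuation c * O.valuation c *
              O.valuation c) := by
            rw [← pow_three', ← pow_add]
          rw [this]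
          ac_rfl
      _ ≤ (p ^ a 0) ^ 3 * ((p ^ a 1 * (p ^ 6) ^ m) * (p ^ a 2 * (p ^ 6) ^ m) *
          (p ^ a 3 * (p ^ 6) ^ m)) :=
          mul_le_mul' (pow_le_pow_left' b0 3) (mul_le_mul' (mul_le_mul' b1 b2) b3)
      _ = p ^ (3 * a 0 + a 1 + a 2 + a 3 + 18 * m) := by
          rw [← pow_mul, ← pow_mul, ← pow_add, ← pow_add, ← pow_add, ← pow_add, ← pow_add, ← pow_add]
          congr 1
          ring
      _ ≤ p ^ (6 * g + 36 * m) := pow_le_pow_right_of_le_one' hp1.le (by omega)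
      _ = p ^ (6 * g) * p ^ (36 * m) := pow_add _ _ _
  have h36 : 0 < p ^ (36 * m) := zero_lt_iff.2 (pow_ne_zero _ hp0)
  have h6 : (O.valuation c * G) ^ 6 ≤ (p ^ g) ^ 6 := by
    have h := le_of_mul_le_mul_right hbig h36
    rwa [mul_comm 6 g, pow_mul] at h
  exact le_of_pow_le_pow_left₀ (by norm_num) zero_le h6

end Pool.Agent.Lib.MP_06b9d2_tls
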