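import Pool.Agent.Lib.MP_06b9d2_tl2.TrfG

/-!
MP_06b9d2_nt. Every Hecke operator is a polynomial with rational coefficients in `T_n`, if `T_n` has a
simple spectrum.
-/

namespace Pool.Agent.Lib.MP_06b9d2_tls

open UpperHalfPlane Pool.Agent.L1 Pool.Agent.Lib.MP_06b9d2_nt
open Pool.Agent.Lib.MP_06b9d2_tl2 (MtxJ hecke_comm)
open scoped MatrixGroups ModularForm

/-- descent: a rational matrix which is a complex combination of powers of a rational matrix -/
theorem hp_desc {d : ℕ} (M M' : Matrix (Fin d) (Fin d) ℚ) (P : Polynomial ℂ)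
    (h : M'.map (algebraMap ℚ ℂ) = Polynomial.aeval (M.map (algebraMap ℚ ℂ)) P) :
    ∃ Q : Polynomial ℚ, M' = Polynomial.aeval M Q := by
  classical
  by_contra hcon
  have hW : M' ∉ (LinearMap.range (Polynomial.aeval (R := ℚ) M).toLinearMap) := by
    rintro ⟨Q, hQ⟩
    exact hcon ⟨Q, hQ.symm⟩
  obtain ⟨φ, hφ, hφ0⟩ := Submodule.exists_le_ker_of_notMem hW
  have hφQ : ∀ i : ℕ, φ (M ^ i) = 0 := by
    intro i
    have h1 : M ^ i ∈ LinearMap.range (Polynomial.aeval (R := ℚ) M).toLinearMap :=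
      ⟨Polynomial.X ^ i, by simp⟩
    exact hφ0 h1
  -- the complexification of `φ`
  let ψ : Matrix (Fin d) (Fin d) ℂ →ₗ[ℂ] ℂ :=
    ∑ i, ∑ j, ((φ (Matrix.single i j 1) : ℚ) : ℂ) • Matrix.entryLinearMap ℂ ℂ i j
  have hψ : ∀ X : Matrix (Fin d) (Fin d) ℚ, ψ (X.map (algebraMap ℚ ℂ)) = ((φ X : ℚ) : ℂ) := by
    intro X
    have h1 : φ X = ∑ i, ∑ j, X i j * φ (Matrix.single i j 1) := by
      conv_lhs => rw [Matrix.matrix_eq_sum_single X]
      rw [map_sum]
      refine Finset.sum_congr rfl fun i _ => ?_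
      rw [map_sum]
      refine Finset.sum_congr rfl fun j _ => ?_
      rw [← smul_eq_mul, ← map_smul, Matrix.smul_single, smul_eq_mul, mul_one]
    rw [h1]
    simp only [ψ, LinearMap.sum_apply, LinearMap.smul_apply, Matrix.entryLinearMap_apply,
      Matrix.map_apply, smul_eq_mul]
    push_cast
    refine Finset.sum_congr rfl fun i _ => Finset.sum_congr rfl fun j _ => ?_
    rw [mul_comm]
    rfl
  have h2 := hψ M'
  rw [h, Polynomial.aeval_eq_sum_range, map_sum] at h2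
  have h3 : ∀ i : ℕ, ψ (P.coeff i • (M.map (algebraMap ℚ ℂ)) ^ i) = 0 := by
    intro i
    have h4 : (M.map (algebraMap ℚ ℂ)) ^ i = (M ^ i).map (algebraMap ℚ ℂ) := by
      rw [Matrix.map_pow]
    rw [map_smul, h4, hψ, hφQ, Rat.cast_zero, smul_zero]
  rw [Finset.sum_eq_zero fun i _ => h3 i] at h2
  apply hφ
  exact_mod_cast h2.symm

theorem hecke_rat {n m : ℕ} [NeZero n] [NeZero m] (H : KerOne n) (k : ℤ) (hk : Even k)
    [Module.Finite ℂ (CuspForm 𝒮ℒ k)]
    (T T' : CuspForm 𝒮ℒ k →ₗ[ℂ] CuspForm 𝒮ℒ k) (hT : IsHecke k n T) (hT' : IsHecke k m T') :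
    ∃ Q : Polynomial ℚ, T' = Polynomial.aeval T (Q.map (algebraMap ℚ ℂ)) := by
  have hn : 0 < n := Nat.pos_of_ne_zero (NeZero.ne n)
  have hm : 0 < m := Nat.pos_of_ne_zero (NeZero.ne m)
  rcases lt_or_ge k 0 with hneg | hpos
  · have h1 : Module.finrank ℂ (CuspForm 𝒮ℒ k) = 0 := by
      rw [Module.finrank, CuspForm.rank_eq_zero_of_weight_lt_twelve (by omega)]
      exact Cardinal.zero_toNat
    have h2 : Subsingleton (CuspForm 𝒮ℒ k) := Module.finrank_zero_iff.1 h1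
    exact ⟨0, LinearMap.ext fun f => Subsingleton.elim _ _⟩
  · obtain ⟨w, rfl⟩ := Int.eq_ofNat_of_zero_le hpos
    obtain ⟨Φ, hΦ, hM⟩ := MtxJ w
    obtain ⟨M, hTM⟩ := hM n hn T hT
    obtain ⟨M', hTM'⟩ := hM m hm T' hT'
    obtain ⟨P, hP⟩ := comm H (w : ℤ) hk T hT T' (hecke_comm hT' hT)
    -- the operator of the power
    have hpow : ∀ (i : ℕ) (f : CuspForm 𝒮ℒ (w : ℤ)),
        Φ ((T ^ i) f) = ((M.map (Int.cast : ℤ → ℂ)) ^ i).mulVec (Φ f) := by
      intro i
      induction i with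
      | zero => intro f; simp
      | succ i ih =>
        intro f
        rw [pow_succ, Module.End.mul_apply, ih, hTM, Matrix.mulVec_mulVec, ← pow_succ]
    have hae : ∀ (Q : Polynomial ℂ) (f : CuspForm 𝒮ℒ (w : ℤ)),
        Φ (Polynomial.aeval T Q f) =
          (Polynomial.aeval (M.map (Int.cast : ℤ → ℂ)) Q).mulVec (Φ f) := by
      intro Q f
      rw [Polynomial.aeval_eq_sum_range, Polynomial.aeval_eq_sum_range, LinearMap.sum_apply,
        map_sum, Matrix.sum_mulVec]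
      refine Finset.sum_congr rfl fun i _ => ?_
      rw [LinearMap.smul_apply, map_smul, hpow, Matrix.smul_mulVec]
    have hcast : ∀ N : Matrix (Fin (dd w - 1)) (Fin (dd w - 1)) ℤ,
        (N.map (Int.cast : ℤ → ℚ)).map (algebraMap ℚ ℂ) = N.map (Int.cast : ℤ → ℂ) := by
      intro N
      ext i j
      simp
    have h1 : (M'.map (Int.cast : ℤ → ℚ)).map (algebraMap ℚ ℂ) =
        Polynomial.aeval ((M.map (Int.cast : ℤ → ℚ)).map (algebraMap ℚ ℂ)) P := by
      rw [hcast, hcast]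
      apply Matrix.ext_of_mulVec_single
      intro i
      obtain ⟨f, hf⟩ := hΦ.2 (Pi.single i 1)
      rw [← hf, ← hae, ← hTM', hP]
    obtain ⟨Q, hQ⟩ := hp_desc _ _ P h1
    refine ⟨Q, ?_⟩
    apply LinearMap.ext
    intro f
    apply hΦ.1
    rw [hae, hTM', ← hcast M', hQ, ← hcast M]
    congr 1
    have h2 : (Polynomial.aeval (M.map (Int.cast : ℤ → ℚ)) Q).map (algebraMap ℚ ℂ) =
        Polynomial.aeval ((M.map (Int.cast : ℤ → ℚ)).map (algebraMap ℚ ℂ))
          (Q.map (algebraMap ℚ ℂ)) := by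
      have h3 := Polynomial.map_aeval_eq_aeval_map (φ := algebraMap ℚ ℂ)
        (ψ := (algebraMap ℚ ℂ).mapMatrix (m := Fin (dd w - 1))) ?_ Q
          (M.map (Int.cast : ℤ → ℚ))
      · exact h3
      · ext x i j
        simp [Matrix.algebraMap_matrix_apply]
    rw [h2]

end Pool.Agent.Lib.MP_06b9d2_tls
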