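import Pool.Agent.Lib.MP_06b9d2_tls.Fam
import Pool.Agent.Lib.MP_06b9d2_tls.Root

/-!
Module TLS-IntM. `e = -1`: congruences between the branches.

`t = tt (V l A) (V l Y)`, `s = om ^ 2`. All by `root`.
`intM_A`, `intM_Y`: `K = Option (Fin l) × Option (Fin l)`, `fam_pair` for `z_i = zx i` (`fam_sum` with `1, 0, 0, 0`) resp. `zy i`; `a = ![12, 6, 6, 6]`, `g = 6`. Component `0`: `(br i A - 1) - (br j A - 1)`, in `3`; components `j + 1`:
`(e s ^ j / th) • (..)` of `(br i A - br j A) ± ..(br i Y - br j Y)`, in `(1 / th) 3`, valuation `(v pr) ^ 6`.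
`intM_Y4`: `z_i = zy i + bY` (`0, 1, 0, 1`), `a = ![12, 6, 0, 0]`, `g = 4`. Component `0`: `br i Y + V l Y` in `3`. Component `1`: `(-1 / th) (br A - br Y) + (1 / th) (V l A - V l Y) = (1 / th) (- (br A - 1) + br Y + (V l A - 1) - V l Y)` in `(1 / th) 3`.
Components `2`, `3` (`w = om`, `s = om ^ 2`; `w = om ^ 2`, `s ^ 2 = om ^ 4 = om`): `(- s ^ j / th) (br A - br Y) + (om ^ j / th) (V l A - V l Y) = ((om ^ j - s ^ j) / th) • 1 + (1 / th) 3 (..)`, and `om - om ^ 2 = th`: in `O`.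
`intM_A4`: `z_i = zx i - bA + 2 bY` (`1, 0, -1, 2`), `a = ![12, 6, 0, 0]`, `g = 4`. Component `0`: in `3`. Component `j + 1`: `(-1 / th) (br A + 2 br Y) - (1 / th) (V l A + 2 V l Y) + (2 om ^ j / th) (V l A - V l Y) = (2 (om ^ j - 1) / th) • 1 + (1 / th) 3 (..)`:
for `j = 0` in `(1 / th) 3`, for `j = 1, 2` in `O` (`v_om1`).
-/

namespace Pool.Agent.Lib.MP_06b9d2_tls

open PowerSeries Pool.Agent.L1

variable {A Y : ℂ⟦X⟧} {O : ValuationSubring ℂ} {l : ℕ} {s : ℂ}

private theorem In_le {F : ℂ⟦X⟧} {r t : ℂ} (hF : In O F r) (h : O.valuation r ≤ O.valuation t) :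
    In O F t := fun n => (hF n).trans h

private theorem th_ne : th ≠ 0 := by
  intro h0
  have h1 : om ^ 3 = 1 ∧ om ^ 2 + om + 1 = 0 ∧ th = om - om ^ 2 := om_cube
  have h2 : om = -1 / 2 := by
    unfold om
    rw [h0]
    norm_num
  have h3 := h1.1
  rw [h2] at h3
  norm_num at h3

private theorem v_3 (h3 : O.valuation 3 < 1) : O.valuation 3 = O.valuation (pr ^ 12) := by
  rw [map_pow, (v_pr h3).1]

private theorem v_3th (h3 : O.valuation 3 < 1) : O.valuation (3 / th) = O.valuation (pr ^ 6) := by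
  have h0 : O.valuation pr ≠ 0 := (v_pr h3).2.2
  have h1 : O.valuation pr ^ 12 = O.valuation pr ^ 6 * O.valuation pr ^ 6 := by rw [← pow_add]
  rw [map_div₀, v_th h3, v_3 h3, map_pow, map_pow, h1, mul_div_assoc, div_self (pow_ne_zero 6 h0), mul_one]

private theorem In_th (h3 : O.valuation 3 < 1) {F : ℂ⟦X⟧} (hF : In O F 3) {w : ℂ} (hw : O.valuation w ≤ 1) :
    In O ((w / th) • F) (pr ^ 6) := by
  refine In_le (In_smul hF (w / th)) ?_
  have h1 : w / th * 3 = w * (3 / th) := by ring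
  rw [h1, map_mul, v_3th h3]
  exact mul_le_of_le_one_left' hw

private theorem pr6_le (h3 : O.valuation 3 < 1) : O.valuation (pr ^ 6) ≤ O.valuation (pr ^ 0) := by
  rw [map_pow, pow_zero, map_one]
  exact pow_le_one' (v_pr h3).2.1.le 6

private theorem In_th0 (h3 : O.valuation 3 < 1) {F : ℂ⟦X⟧} (hF : In O F 3) {w : ℂ} (hw : O.valuation w ≤ 1) :
    In O ((w / th) • F) (pr ^ 0) := In_le (In_th h3 hF hw) (pr6_le h3)

private theorem In_C0 {w : ℂ} (hw : O.valuation w ≤ 1) : In O (C w) (pr ^ 0) := by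
  intro n
  rw [pow_zero, map_one, coeff_C]
  split_ifs
  · exact hw
  · simp

private theorem In_2 {F : ℂ⟦X⟧} {r : ℂ} (hF : In O F r) : In O (2 * F) r := by
  rw [two_mul]
  exact In_add hF hF

private theorem v_one' : O.valuation (1 : ℂ) ≤ 1 := (map_one _).le

private theorem v_neg1 : O.valuation (-1 : ℂ) ≤ 1 := by
  rw [Valuation.map_neg]
  exact v_one'

private theorem v_omk (k : ℕ) : O.valuation (om ^ k) ≤ 1 := by
  rw [map_pow, v_om, one_pow]

private theorem v_nomk (k : ℕ) : O.valuation (-om ^ k) ≤ 1 := by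
  rw [Valuation.map_neg]
  exact v_omk k

private theorem PL_s (hl : PL l (-1) s) : s = om ^ 2 := by
  obtain ⟨_, ⟨_, h2, _⟩ | ⟨_, _, h3⟩⟩ := hl
  · norm_num at h2
  · exact h3

private theorem om4 : om ^ 4 = om := by
  have : om ^ 4 = om ^ 3 * om := by ring
  rw [this, om_cube.1, one_mul]

theorem intM_A (h : Core A Y) (h3 : O.valuation 3 < 1) (hl : PL l (-1) s) (i j : Option (Fin l)) :
    Ig O (tt (V l A) (V l Y)) ((br l (-1) i A - br l (-1) j A) * (V l A)⁻¹ * C ((pr ^ 6)⁻¹)) := by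
  have hB : Bs O (V l A) (V l Y) := bs_V h O hl.1.ne_zero
  have hz0 : ∀ m, ∑ i : Option (Fin l), cA (-1) (br l (-1) i A) (br l (-1) i Y) ^ m ∈ HH (V l A) (V l Y) m := by
    intro m
    simpa only [one_smul, zero_smul, add_zero, zero_add] using fam_sum h hl 1 0 0 0 m
  have hz := fam_pair _ hz0
  refine root h3 hB _ hz ![12, 6, 6, 6] ?_ 6 (by decide) (i, j)
  rintro ⟨i, j⟩ k
  have hi := near_A h O hl i
  have hj := near_A h O hl j
  have gi := near_Y h O hl i
  have gj := near_Y h O hl j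
  have key : In O (((-1 : ℂ) / th) • (br l (-1) i A + 2 * br l (-1) i Y) -
      ((-1 : ℂ) / th) • (br l (-1) j A + 2 * br l (-1) j Y)) (pr ^ 6) := by
    have e1 : ((-1 : ℂ) / th) • (br l (-1) i A + 2 * br l (-1) i Y) -
      ((-1 : ℂ) / th) • (br l (-1) j A + 2 * br l (-1) j Y) =
      ((-1 : ℂ) / th) • ((br l (-1) i A - 1) - (br l (-1) j A - 1) + 2 * br l (-1) i Y - 2 * br l (-1) j Y) := by
      rw [← smul_sub]
      congr 1
      ring
    rw [e1]
    exact In_th h3 (In_sub (In_add (In_sub hi hj) (In_2 gi)) (In_2 gj)) v_neg1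
  fin_cases k
  · have e1 : br l (-1) i A - br l (-1) j A = (br l (-1) i A - 1) - (br l (-1) j A - 1) := by ring
    have e2 : In O (br l (-1) i A - br l (-1) j A) (pr ^ 12) := by
      rw [e1]
      exact In_le (In_sub hi hj) (v_3 h3).le
    exact e2
  · exact key
  · exact key
  · exact key

theorem intM_Y (h : Core A Y) (h3 : O.valuation 3 < 1) (hl : PL l (-1) s) (i j : Option (Fin l)) :
    Ig O (tt (V l A) (V l Y)) ((br l (-1) i Y - br l (-1) j Y) * (V l A)⁻¹ * C ((pr ^ 6)⁻¹)) := by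
  have hB : Bs O (V l A) (V l Y) := bs_V h O hl.1.ne_zero
  have hs := PL_s hl
  have hz0 : ∀ m, ∑ i : Option (Fin l), cY (-1) s (br l (-1) i A) (br l (-1) i Y) ^ m ∈ HH (V l A) (V l Y) m := by
    intro m
    simpa only [one_smul, zero_smul, add_zero, zero_add] using fam_sum h hl 0 1 0 0 m
  have hz := fam_pair _ hz0
  refine root h3 hB _ hz ![12, 6, 6, 6] ?_ 6 (by decide) (i, j)
  rintro ⟨i, j⟩ k
  have hi := near_A h O hl i
  have hj := near_A h O hl j
  have gi := near_Y h O hl i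
  have gj := near_Y h O hl j
  have key : ∀ w : ℂ, O.valuation w ≤ 1 → In O ((w / th) • (br l (-1) i A - br l (-1) i Y) -
      (w / th) • (br l (-1) j A - br l (-1) j Y)) (pr ^ 6) := by
    intro w hw
    have e1 : (w / th) • (br l (-1) i A - br l (-1) i Y) - (w / th) • (br l (-1) j A - br l (-1) j Y) =
      (w / th) • ((br l (-1) i A - 1) - (br l (-1) j A - 1) - br l (-1) i Y + br l (-1) j Y) := by
      rw [← smul_sub]
      congr 1
      ring
    rw [e1]
    exact In_th h3 (In_add (In_sub (In_sub hi hj) gi) gj) hw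
  fin_cases k
  · exact In_le (In_sub gi gj) (v_3 h3).le
  · exact key (-1) v_neg1
  · refine key (-1 * s) ?_
    rw [hs, neg_one_mul]
    exact v_nomk 2
  · refine key (-1 * s ^ 2) ?_
    rw [hs, neg_one_mul, ← pow_mul]
    exact v_nomk 4

theorem intM_Y4 (h : Core A Y) (h3 : O.valuation 3 < 1) (hl : PL l (-1) s) (i : Option (Fin l)) :
    Ig O (tt (V l A) (V l Y)) ((br l (-1) i Y + V l Y) * (V l A)⁻¹ * C ((pr ^ 4)⁻¹)) := by
  have hB : Bs O (V l A) (V l Y) := bs_V h O hl.1.ne_zero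
  have hs := PL_s hl
  have hz : ∀ m, ∑ i : Option (Fin l), (cY (-1) s (br l (-1) i A) (br l (-1) i Y) +
      cY 1 om (V l A) (V l Y)) ^ m ∈ HH (V l A) (V l Y) m := by
    intro m
    simpa only [one_smul, zero_smul, add_zero, zero_add] using fam_sum h hl 0 1 0 1 m
  refine root h3 hB _ hz ![12, 6, 0, 0] ?_ 4 (by decide) i
  intro i k
  have hi := near_A h O hl i
  have gi := near_Y h O hl i
  have hb := hB.aI
  have gb := hB.yI
  fin_cases k
  · exact In_le (In_add gi gb) (v_3 h3).le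
  · have e1 : ((-1 : ℂ) / th) • (br l (-1) i A - br l (-1) i Y) + ((1 : ℂ) / th) • (V l A - V l Y) =
        ((1 : ℂ) / th) • ((V l A - 1) - (br l (-1) i A - 1) + br l (-1) i Y - V l Y) := by
      rw [neg_div, neg_smul, ← smul_neg, ← smul_add]
      congr 1
      ring
    have e2 : In O (((-1 : ℂ) / th) • (br l (-1) i A - br l (-1) i Y) + ((1 : ℂ) / th) • (V l A - V l Y))
        (pr ^ 6) := by
      rw [e1]
      exact In_th h3 (In_sub (In_add (In_sub hb hi) gi) gb) v_one'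
    exact e2
  · have e1 : ((-1 * s) / th) • (br l (-1) i A - br l (-1) i Y) + ((1 * om) / th) • (V l A - V l Y) =
        C (1 : ℂ) + (((-om ^ 2) / th) • ((br l (-1) i A - 1) - br l (-1) i Y) +
          ((om ^ 1) / th) • ((V l A - 1) - V l Y)) := by
      have c1 : (C (1 : ℂ) : ℂ⟦X⟧) = ((-om ^ 2) / th) • (1 : ℂ⟦X⟧) + ((om ^ 1) / th) • (1 : ℂ⟦X⟧) := by
        rw [← add_smul, ← add_div, pow_one, neg_add_eq_sub, ← om_cube.2.2, div_self th_ne, one_smul, map_one]
      rw [c1, hs, smul_sub ((-om ^ 2) / th) (br l (-1) i A - 1), smul_sub ((-om ^ 2) / th) (br l (-1) i A),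
        smul_sub ((om ^ 1) / th) (V l A - 1), smul_sub ((om ^ 1) / th) (V l A) 1, neg_one_mul, one_mul, pow_one,
        smul_sub, smul_sub]
      abel
    have e2 : In O (((-1 * s) / th) • (br l (-1) i A - br l (-1) i Y) + ((1 * om) / th) • (V l A - V l Y))
        (pr ^ 0) := by
      rw [e1]
      exact In_add (In_C0 v_one') (In_add (In_th0 h3 (In_sub hi gi) (v_nomk 2)) (In_th0 h3 (In_sub hb gb) (v_omk 1)))
    exact e2
  · have e1 : ((-1 * s ^ 2) / th) • (br l (-1) i A - br l (-1) i Y) + ((1 * om ^ 2) / th) • (V l A - V l Y) =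
        C (-1 : ℂ) + (((-om ^ 1) / th) • ((br l (-1) i A - 1) - br l (-1) i Y) +
          ((om ^ 2) / th) • ((V l A - 1) - V l Y)) := by
      have c1 : (C (-1 : ℂ) : ℂ⟦X⟧) = ((-om ^ 1) / th) • (1 : ℂ⟦X⟧) + ((om ^ 2) / th) • (1 : ℂ⟦X⟧) := by
        rw [← add_smul, ← add_div, pow_one, neg_add_eq_sub]
        have : (om ^ 2 - om) / th = -1 := by
          rw [← neg_sub, ← om_cube.2.2, neg_div, div_self th_ne]
        rw [this, neg_one_smul, map_neg, map_one]
      rw [c1, hs, ← pow_mul, om4, smul_sub ((-om ^ 1) / th) (br l (-1) i A - 1),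
        smul_sub ((-om ^ 1) / th) (br l (-1) i A),
        smul_sub ((om ^ 2) / th) (V l A - 1), smul_sub ((om ^ 2) / th) (V l A) 1, neg_one_mul, one_mul, pow_one,
        smul_sub, smul_sub]
      abel
    have e2 : In O (((-1 * s ^ 2) / th) • (br l (-1) i A - br l (-1) i Y) + ((1 * om ^ 2) / th) • (V l A - V l Y))
        (pr ^ 0) := by
      rw [e1]
      exact In_add (In_C0 v_neg1) (In_add (In_th0 h3 (In_sub hi gi) (v_nomk 1)) (In_th0 h3 (In_sub hb gb) (v_omk 2)))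
    exact e2

theorem intM_A4 (h : Core A Y) (h3 : O.valuation 3 < 1) (hl : PL l (-1) s) (i : Option (Fin l)) :
    Ig O (tt (V l A) (V l Y))
      ((br l (-1) i A - V l A + 2 * V l Y) * (V l A)⁻¹ * C ((pr ^ 4)⁻¹)) := by
  have hB : Bs O (V l A) (V l Y) := bs_V h O hl.1.ne_zero
  have hz : ∀ m, ∑ i : Option (Fin l), (cA (-1) (br l (-1) i A) (br l (-1) i Y) +
      (-1 : ℂ) • cA 1 (V l A) (V l Y) + (2 : ℂ) • cY 1 om (V l A) (V l Y)) ^ m ∈ HH (V l A) (V l Y) m := by
    intro m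
    simpa only [one_smul, zero_smul, add_zero, zero_add] using fam_sum h hl 1 0 (-1) 2 m
  have two : ∀ F : ℂ⟦X⟧, (2 : ℂ) • F = 2 * F := by
    intro F
    rw [PowerSeries.smul_eq_C_mul, map_ofNat]
  have z0 : (cA (-1) (br l (-1) i A) (br l (-1) i Y) +
      (-1 : ℂ) • cA 1 (V l A) (V l Y) + (2 : ℂ) • cY 1 om (V l A) (V l Y)) 0 =
      br l (-1) i A - V l A + 2 * V l Y := by
    have e0 : (cA (-1) (br l (-1) i A) (br l (-1) i Y) +
      (-1 : ℂ) • cA 1 (V l A) (V l Y) + (2 : ℂ) • cY 1 om (V l A) (V l Y)) 0 =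
      br l (-1) i A + (-1 : ℂ) • V l A + (2 : ℂ) • V l Y := rfl
    rw [e0, two, neg_one_smul, sub_eq_add_neg]
  rw [← z0]
  refine root h3 hB _ hz ![12, 6, 0, 0] ?_ 4 (by decide) i
  clear z0 i
  intro i k
  have hi := near_A h O hl i
  have gi := near_Y h O hl i
  have hb := hB.aI
  have gb := hB.yI
  have main : ∀ w : ℂ, ((-1 : ℂ) / th) • (br l (-1) i A + 2 * br l (-1) i Y) +
      (-1 : ℂ) • (((1 : ℂ) / th) • (V l A + 2 * V l Y)) + (2 : ℂ) • ((w / th) • (V l A - V l Y)) =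
      C (2 * ((w - 1) / th)) + (((-1 : ℂ) / th) • ((br l (-1) i A - 1) + 2 * br l (-1) i Y) +
      ((-1 : ℂ) / th) • ((V l A - 1) + 2 * V l Y) + (w / th) • (2 * ((V l A - 1) - V l Y))) := by
    intro w
    simp only [PowerSeries.smul_eq_C_mul]
    have c1 : (C (2 * ((w - 1) / th)) : ℂ⟦X⟧) = 2 * C (w / th) + 2 * C (-1 / th) := by
      rw [← map_ofNat C 2, ← map_mul, ← map_mul, ← map_add]
      congr 1
      ring
    have c2 : (C (1 / th) : ℂ⟦X⟧) = - C (-1 / th) := by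
      rw [← map_neg]
      congr 1
      ring
    rw [c1, c2, map_ofNat, map_neg, map_one]
    ring
  have rest : ∀ w : ℂ, O.valuation w ≤ 1 → In O ((((-1 : ℂ) / th) • ((br l (-1) i A - 1) + 2 * br l (-1) i Y) +
      ((-1 : ℂ) / th) • ((V l A - 1) + 2 * V l Y) + (w / th) • (2 * ((V l A - 1) - V l Y)))) (pr ^ 6) := by
    intro w hw
    exact In_add (In_add (In_th h3 (In_add hi (In_2 gi)) v_neg1) (In_th h3 (In_add hb (In_2 gb)) v_neg1))
      (In_th h3 (In_2 (In_sub hb gb)) hw)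
  have v2 : O.valuation (2 : ℂ) ≤ 1 := by
    exact_mod_cast MP_06b9d2_ssp.int_mem O 2
  have fin : ∀ w : ℂ, O.valuation w ≤ 1 → O.valuation (w - 1) ≤ O.valuation th →
      In O (((-1 : ℂ) / th) • (br l (-1) i A + 2 * br l (-1) i Y) +
      (-1 : ℂ) • (((1 : ℂ) / th) • (V l A + 2 * V l Y)) + (2 : ℂ) • ((w / th) • (V l A - V l Y))) (pr ^ 0) := by
    intro w hw hw1
    rw [main]
    refine In_add (In_C0 ?_) (In_le (rest w hw) (pr6_le h3))
    rw [map_mul, map_div₀]
    refine mul_le_one' v2 ?_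
    exact div_le_one_of_le₀ hw1 zero_le
  fin_cases k
  · have e1 : (br l (-1) i A + (-1 : ℂ) • V l A + (2 : ℂ) • V l Y) =
        (br l (-1) i A - 1) - (V l A - 1) + 2 * V l Y := by
      rw [two, neg_one_smul]
      ring
    have e2 : In O (br l (-1) i A + (-1 : ℂ) • V l A + (2 : ℂ) • V l Y) (pr ^ 12) := by
      rw [e1]
      exact In_le (In_add (In_sub hi hb) (In_2 gb)) (v_3 h3).le
    exact e2
  · have e2 : In O (((-1 : ℂ) / th) • (br l (-1) i A + 2 * br l (-1) i Y) +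
      (-1 : ℂ) • (((1 : ℂ) / th) • (V l A + 2 * V l Y)) + (2 : ℂ) • (((1 : ℂ) / th) • (V l A - V l Y))) (pr ^ 6) := by
      rw [main, sub_self, zero_div, mul_zero, map_zero, zero_add]
      exact rest 1 v_one'
    exact e2
  · have e2 := fin (1 * om) (by rw [one_mul]; exact (v_om O).le) (by rw [one_mul]; exact (v_om1 O).1.le)
    exact e2
  · have e2 := fin (1 * om ^ 2) (by rw [one_mul]; exact v_omk 2) (by rw [one_mul]; exact (v_om1 O).2.le)
    exact e2

end Pool.Agent.Lib.MP_06b9d2_tls
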