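import Pool.Agent.Lib.MP_06b9d2_tls.Dbl
import Pool.Agent.Lib.MP_06b9d2_ssp.Lin
import Pool.Agent.Lib.MP_06b9d2_nt.MU.Mtx
import Pool.Agent.Lib.MP_06b9d2_nt.ME.EigN
import Pool.Agent.Lib.MP_06b9d2_nt.ME.HeckeN

/-!
Board TLS, algebra part. The eigenspaces of `T_l` on cusp forms have dimension at most one: the general
statement for a family of power series `mo s` on which `T_l` acts by a matrix.
-/

namespace Pool.Agent.Lib.MP_06b9d2_tls

open PowerSeries Pool.Agent.L1 UpperHalfPlane Pool.Agent.Lib.MP_06b9d2_nt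
open Pool.Agent.Lib.MP_06b9d2_nt.MU (Phi_ex)
open scoped MatrixGroups ModularForm

theorem q_T (k l : ℕ) (hl : l.Prime) (T : CuspForm 𝒮ℒ (k : ℤ) →ₗ[ℂ] CuspForm 𝒮ℒ (k : ℤ))
    (hT : IsHecke (k : ℤ) l T) (f : CuspForm 𝒮ℒ (k : ℤ)) :
    qExpansion 1 (T f) = Tl l k (qExpansion 1 f) := by
  have : NeZero l := ⟨hl.ne_zero⟩
  have hlC : (l : ℂ) ≠ 0 := by exact_mod_cast hl.ne_zero
  have h00 : ∀ g : CuspForm 𝒮ℒ (k : ℤ), coeff 0 (qExpansion 1 g) = 0 := by
    intro g
    exact CuspFormClass.qExpansion_coeff_zero g one_pos one_mem_strictPeriods_SL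
  ext m
  unfold Tl U V
  rw [map_add, coeff_smul, coeff_mk, coeff_mk, smul_eq_mul]
  rcases Nat.eq_zero_or_pos m with rfl | hm
  · rw [h00, Nat.mul_zero, Nat.zero_div, if_pos (dvd_zero l), h00]
    ring
  · rw [ME.hecke_qn hT f m hm]
    by_cases hlm : l ∣ m
    · have e1 : (Nat.gcd m l).divisors = {1, l} := by
        rw [Nat.gcd_eq_right hlm, hl.divisors]
      rw [e1, Finset.sum_pair hl.one_lt.ne, if_pos hlm, Nat.cast_one, one_zpow, one_mul, one_pow,
        Nat.div_one, zpow_sub_one₀ hlC, zpow_natCast, mul_comm m l]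
      congr 2
      obtain ⟨r, rfl⟩ := hlm
      rw [Nat.mul_div_cancel_left _ hl.pos, show l * (l * r) = r * l ^ 2 by ring,
        Nat.mul_div_cancel _ (pow_pos hl.pos 2)]
    · have e1 : (Nat.gcd m l).divisors = {1} := by
        have : Nat.gcd m l = 1 := by
          rw [Nat.gcd_comm]
          exact (Nat.Prime.coprime_iff_not_dvd hl).2 hlm
        rw [this, Nat.divisors_one]
      rw [e1, Finset.sum_singleton, if_neg hlm, Nat.cast_one, one_zpow, one_mul, one_pow,
        Nat.div_one, mul_zero, add_zero, mul_comm m l]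

theorem Tl_sum (l k n : ℕ) (x : ℕ → ℂ) (m : ℕ → ℂ⟦X⟧) :
    Tl l k (∑ s ∈ Finset.range n, x s • m s) = ∑ s ∈ Finset.range n, x s • Tl l k (m s) := by
  ext i
  have hU : ∀ f : ℂ⟦X⟧, coeff i (Tl l k f) = coeff (l * i) f + ((l : ℂ) ^ k / l) *
      (if l ∣ i then coeff (i / l) f else 0) := by
    intro f
    unfold Tl U V
    rw [map_add, coeff_smul, coeff_mk, coeff_mk, smul_eq_mul]
  have hc : ∀ s, coeff i (x s • Tl l k (m s)) = x s * (coeff (l * i) (m s) + ((l : ℂ) ^ k / l) *
      (if l ∣ i then coeff (i / l) (m s) else 0)) := by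
    intro s
    rw [coeff_smul, smul_eq_mul, hU]
  have hR : coeff i (∑ s ∈ Finset.range n, x s • Tl l k (m s)) =
      ∑ s ∈ Finset.range n, x s * (coeff (l * i) (m s) + ((l : ℂ) ^ k / l) *
      (if l ∣ i then coeff (i / l) (m s) else 0)) := by
    rw [map_sum]
    exact Finset.sum_congr rfl fun s _ => hc s
  rw [hR, hU, map_sum]
  simp only [coeff_smul, smul_eq_mul]
  split_ifs with h
  · rw [map_sum]
    simp only [coeff_smul, smul_eq_mul, Finset.mul_sum, ← Finset.sum_add_distrib]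
    refine Finset.sum_congr rfl fun s _ => ?_
    ring
  · simp

/-- `mo s`, `s ≤ N`, linearly independent power series; the basis `bas ℂ k j` (`1 ≤ j`) is a combination
of the `mo s`, `j ≤ s ≤ N - 2 j`; the action of `T_l` on the `mo s` is given by `Mx`, symmetric under the
reversal, with eigenspaces of dimension at most two. Then the eigenspaces of `T_l` on the cusp forms have
dimension at most one. -/
theorem ker_gen (l : ℕ) (hl : l.Prime) (k N : ℕ) (mo : ℕ → ℂ⟦X⟧) (Mx : ℕ → ℕ → ℂ)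
    (hMx : ∀ s ≤ N, Tl l k (mo s) = ∑ j ∈ Finset.range (N + 1), Mx j s • mo j)
    (hsym : ∀ j s, j ≤ N → s ≤ N → Mx (N - j) (N - s) = Mx j s) (h2 : Two Mx N)
    (ind : ∀ x : ℕ → ℂ, ∑ s ∈ Finset.range (N + 1), x s • mo s = 0 → ∀ s ≤ N, x s = 0)
    (rep : ∀ j, 1 ≤ j → j < dd k → ∃ y : ℕ → ℂ,
      (∀ s, s < j → y s = 0) ∧ y j ≠ 0 ∧ (∀ s, N - 2 * j < s → y s = 0) ∧ 2 * j ≤ N ∧
        bas ℂ k j = ∑ s ∈ Finset.range (N + 1), y s • mo s)
    (T : CuspForm 𝒮ℒ (k : ℤ) →ₗ[ℂ] CuspForm 𝒮ℒ (k : ℤ)) (hT : IsHecke (k : ℤ) l T) (lam : ℂ) :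
    Module.finrank ℂ (LinearMap.ker (T - lam • LinearMap.id)) ≤ 1 := by
  obtain ⟨Φ, hΦb, hΦ⟩ := Phi_ex k
  have hrep : ∀ j : Fin (dd k - 1), ∃ y : ℕ → ℂ,
      (∀ s, s < (j : ℕ) + 1 → y s = 0) ∧ y ((j : ℕ) + 1) ≠ 0 ∧
      (∀ s, N - 2 * ((j : ℕ) + 1) < s → y s = 0) ∧ 2 * ((j : ℕ) + 1) ≤ N ∧
      bas ℂ k ((j : ℕ) + 1) = ∑ s ∈ Finset.range (N + 1), y s • mo s := by
    intro j
    exact rep ((j : ℕ) + 1) (by omega) (by have := j.2; omega)
  choose y hy1 hy2 hy3 hy4 hy5 using hrep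
  -- the coordinate map
  let X : CuspForm 𝒮ℒ (k : ℤ) →ₗ[ℂ] (ℕ → ℂ) :=
    ∑ j : Fin (dd k - 1), ((LinearMap.proj j : (Fin (dd k - 1) → ℂ) →ₗ[ℂ] ℂ) ∘ₗ Φ).smulRight (y j)
  have hXs : ∀ f s, X f s = ∑ j, Φ f j * y j s := by
    intro f s
    simp only [X, LinearMap.sum_apply, LinearMap.smulRight_apply, LinearMap.comp_apply,
      LinearMap.proj_apply, Finset.sum_apply, Pi.smul_apply, smul_eq_mul]
  have hXq : ∀ f : CuspForm 𝒮ℒ (k : ℤ),
      qExpansion 1 f = ∑ s ∈ Finset.range (N + 1), X f s • mo s := by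
    intro f
    rw [hΦ f]
    calc ∑ j, Φ f j • bas ℂ k ((j : ℕ) + 1)
        = ∑ j, ∑ s ∈ Finset.range (N + 1), (Φ f j * y j s) • mo s := by
          refine Finset.sum_congr rfl fun j _ => ?_
          rw [hy5 j, Finset.smul_sum]
          refine Finset.sum_congr rfl fun s _ => ?_
          rw [smul_smul]
      _ = ∑ s ∈ Finset.range (N + 1), X f s • mo s := by
          rw [Finset.sum_comm]
          refine Finset.sum_congr rfl fun s _ => ?_
          rw [hXs, Finset.sum_smul]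
  have hX0 : ∀ f s, N < s → X f s = 0 := by
    intro f s hs
    rw [hXs]
    refine Finset.sum_eq_zero fun j _ => ?_
    rw [hy3 j s (by omega), mul_zero]
  have lead : ∀ f, f ≠ 0 → ∃ p, 1 ≤ p ∧ 2 * p ≤ N ∧ (∀ s, s < p → X f s = 0) ∧ X f p ≠ 0 ∧
      ∀ s, N - 2 * p < s → X f s = 0 := by
    intro f hf
    have hne : Φ f ≠ 0 := by
      intro h0
      apply hf
      apply hΦb.1
      rw [h0, map_zero]
    have hS : (Finset.univ.filter fun j : Fin (dd k - 1) => Φ f j ≠ 0).Nonempty := by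
      by_contra hS
      rw [Finset.not_nonempty_iff_eq_empty] at hS
      apply hne
      funext j
      by_contra hj
      have : j ∈ (Finset.univ.filter fun j : Fin (dd k - 1) => Φ f j ≠ 0) := by
        simp only [Finset.mem_filter, Finset.mem_univ, true_and]
        exact hj
      rw [hS] at this
      simp at this
    obtain ⟨j0, hj0, hmin⟩ := Finset.exists_min_image _ (fun j : Fin (dd k - 1) => (j : ℕ)) hS
    have hj0' : Φ f j0 ≠ 0 := by simpa using hj0
    have hlt : ∀ j : Fin (dd k - 1), (j : ℕ) < j0 → Φ f j = 0 := by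
      intro j hj
      by_contra hj'
      have := hmin j (by simpa using hj')
      omega
    have h4 := hy4 j0
    refine ⟨(j0 : ℕ) + 1, by omega, by omega, ?_, ?_, ?_⟩
    · intro s hs
      rw [hXs]
      refine Finset.sum_eq_zero fun j _ => ?_
      rcases lt_or_ge (j : ℕ) (j0 : ℕ) with hj | hj
      · rw [hlt j hj, zero_mul]
      · rw [hy1 j s (by omega), mul_zero]
    · rw [hXs, Finset.sum_eq_single j0]
      · exact mul_ne_zero hj0' (hy2 j0)
      · intro j _ hj
        rcases lt_or_ge (j : ℕ) (j0 : ℕ) with hj1 | hj1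
        · rw [hlt j hj1, zero_mul]
        · have : (j : ℕ) ≠ j0 := fun hh => hj (Fin.ext hh)
          rw [hy1 j _ (by omega), mul_zero]
      · intro hj
        exact absurd (Finset.mem_univ _) hj
    · intro s hs
      rw [hXs]
      refine Finset.sum_eq_zero fun j _ => ?_
      rcases lt_or_ge (j : ℕ) (j0 : ℕ) with hj | hj
      · rw [hlt j hj, zero_mul]
      · rw [hy3 j s (by omega), mul_zero]
  -- eigenvectors
  have hEg : ∀ f, T f = lam • f → EgG Mx N lam (X f) := by
    intro f hf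
    have h1 : Tl l k (qExpansion 1 f) = lam • qExpansion 1 f := by
      rw [← q_T k l hl T hT f, hf, hΦ (lam • f), hΦ f, map_smul, Finset.smul_sum]
      refine Finset.sum_congr rfl fun j _ => ?_
      rw [Pi.smul_apply, smul_eq_mul, mul_smul]
    rw [hXq f, Tl_sum] at h1
    have h2 : ∑ s ∈ Finset.range (N + 1), X f s • Tl l k (mo s) =
        ∑ j ∈ Finset.range (N + 1), (∑ s ∈ Finset.range (N + 1), Mx j s * X f s) •
          mo j := by
      calc ∑ s ∈ Finset.range (N + 1), X f s • Tl l k (mo s)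
          = ∑ s ∈ Finset.range (N + 1), ∑ j ∈ Finset.range (N + 1),
              (Mx j s * X f s) • mo j := by
            refine Finset.sum_congr rfl fun s hs => ?_
            have hs' : s ≤ N := Nat.lt_succ_iff.mp (Finset.mem_range.mp hs)
            rw [hMx s hs', Finset.smul_sum]
            refine Finset.sum_congr rfl fun j _ => ?_
            rw [smul_smul, mul_comm]
        _ = _ := by
            rw [Finset.sum_comm]
            refine Finset.sum_congr rfl fun j _ => ?_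
            rw [← Finset.sum_smul]
    rw [h2] at h1
    have h3 : ∑ j ∈ Finset.range (N + 1), ((∑ s ∈ Finset.range (N + 1), Mx j s * X f s) -
        lam * X f j) • mo j = 0 := by
      simp only [sub_smul]
      rw [Finset.sum_sub_distrib, h1, Finset.smul_sum, ← Finset.sum_sub_distrib]
      refine Finset.sum_eq_zero fun j _ => ?_
      rw [smul_smul, sub_self]
    have h4 := ind _ h3
    intro j hj
    exact sub_eq_zero.mp (h4 j hj)
  have := fin_cusp (k : ℤ)
  exact double T lam lam N Mx hsym h2 X hX0 lead hEg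

theorem semi_n {k : ℤ} {n : ℕ} [NeZero n] [Module.Finite ℂ (CuspForm 𝒮ℒ k)]
    {T : CuspForm 𝒮ℒ k →ₗ[ℂ] CuspForm 𝒮ℒ k} (hT : IsHecke k n T) :
    Module.End.IsSemisimple T := by
  let c : InnerProductSpace.Core ℂ (CuspForm 𝒮ℒ k) :=
    { inner := fun f g => ip k f g
      conj_inner_symm := fun f g => ip_conj g f
      re_inner_nonneg := fun f => ip_nonneg f
      add_left := fun f g h => by
        show ip k (f + g : CuspForm 𝒮ℒ k) h = ip k f h + ip k g h
        rw [← ip_conj h (f + g), ip_add, map_add, ip_conj, ip_conj]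
      smul_left := fun f g r => by
        show ip k (r • f : CuspForm 𝒮ℒ k) g = (starRingEnd ℂ) r * ip k f g
        rw [← ip_conj g (r • f), ip_smul, map_mul, ip_conj]
      definite := fun f hf => ip_def f hf }
  let : NormedAddCommGroup (CuspForm 𝒮ℒ k) := @InnerProductSpace.Core.toNormedAddCommGroup ℂ
    (CuspForm 𝒮ℒ k) _ _ _ c
  let : InnerProductSpace ℂ (CuspForm 𝒮ℒ k) := InnerProductSpace.ofCore c.toCore
  have hsym : LinearMap.IsSymmetric T := fun f g => ME.self_adj hT f g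
  exact Module.End.isFinitelySemisimple_iff_isSemisimple.1 hsym.isFinitelySemisimple

end Pool.Agent.Lib.MP_06b9d2_tls
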