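import Pool.Agent.Lib.MP_06b9d2_tls.Ayi
import Pool.Agent.Lib.MP_06b9d2_tls.Br

/-!
Module TLS-Mat1. The matrix of `TT l e k` on the forms `moX` and the statement at the cusp `S`.

`k = 3 N + a`, `P = X 0 ^ a * (X 0 ^ 3 - X 1 ^ 3) ^ (N - s) * (X 1 ^ 3) ^ s` is homogeneous of degree `k` and `aeval ![A, Y] P = moX A Y a N s`.
`h.hecke` gives `P'`. Component `0` (evaluation of a `Pi` ring at `0` is an algebra homomorphism, `cA e F G 0 = F`, `cY e s F G 0 = G`):
`∑ i, aeval ![br i A, br i Y] P = aeval ![V l A, V l Y] P' = V l (aeval ![A, Y] P')`; with `br_sum` and `V_inj`: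
`TT l e k (moX A Y a N s) = aeval ![A, Y] P'`. Write `P' = ∑_{r ≤ k} f_r X 0 ^ (k - r) X 1 ^ r`. Grading: `moX A Y a N s` has only coefficients with `3 ∣ n`
(`grA`, `grY`: `A`, `Y ^ 3`), so has `TT` of it (`l` prime, `l ≠ 3`); and `A ^ (k - r) Y ^ r` has only coefficients with `n ≡ r` modulo `3`. So the part of `aeval ![A, Y] P'`
with exponents `≡ 1, 2` modulo `3` vanishes: `∑_{r ≡ 1} f_r A ^ (k - r) Y ^ r = 0`, hence `f_r = 0` for `r ≡ 1, 2` modulo `3`
(independence of the `A ^ (k - r) Y ^ r`: lemma `AY_ind`, least `r` and the coefficient of `x ^ r`, which is `3 ^ r f_r`).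
So `P' = ∑_{j ≤ N} f_{3 j} X 0 ^ a (X 0 ^ 3) ^ (N - j) (X 1 ^ 3) ^ j`, and `X 0 ^ 3 = (X 0 ^ 3 - X 1 ^ 3) + X 1 ^ 3`: expand by the binomial theorem:
`P' = ∑_j g_j X 0 ^ a (X 0 ^ 3 - X 1 ^ 3) ^ (N - j) (X 1 ^ 3) ^ j`. Component `1` of `h.hecke`: `cA e F G 1 = (e / th) • (F + 2 G)`, `cY e s F G 1 = (e / th) • (F - G)`, `hom_smul`:
`(e / th) ^ k ∑ i, aeval ![x + 2 y, x - y] P = (1 / th) ^ k aeval ![V l A + 2 V l Y, V l A - V l Y] P'`, `e ^ 2 = 1`, `th ≠ 0`.
-/

namespace Pool.Agent.Lib.MP_06b9d2_tls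

open PowerSeries Pool.Agent.L1

private theorem aevalV (n : ℕ) (hn : n ≠ 0) (A Y : ℂ⟦X⟧) (P : MvPolynomial (Fin 2) ℂ) :
    MvPolynomial.aeval ![V n A, V n Y] P = V n (MvPolynomial.aeval ![A, Y] P) := by
  have h1 := MvPolynomial.comp_aeval (R := ℂ) ![A, Y] (PowerSeries.expand n hn)
  have h2 := congrArg (fun φ => φ P) h1
  have h3 : (fun i => PowerSeries.expand n hn ((![A, Y] : Fin 2 → ℂ⟦X⟧) i)) = ![V n A, V n Y] := by
    funext i
    fin_cases i
    · exact (V_eq n hn A).symm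
    · exact (V_eq n hn Y).symm
  rw [h3] at h2
  exact (h2.symm.trans (V_eq n hn _).symm)

private theorem aeval_hom (k : ℕ) (P : MvPolynomial (Fin 2) ℂ) (hP : P.IsHomogeneous k) :
    ∃ f : ℕ → ℂ, ∀ F G : ℂ⟦X⟧, MvPolynomial.aeval ![F, G] P =
      ∑ r ∈ Finset.range (k + 1), f r • (F ^ (k - r) * G ^ r) := by
  classical
  let D : ℕ → (Fin 2 →₀ ℕ) := fun r => Finsupp.single 0 (k - r) + Finsupp.single 1 r
  have hD0 : ∀ r, D r 0 = k - r := by intro r; simp [D]
  have hD1 : ∀ r, D r 1 = r := by intro r; simp [D]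
  refine ⟨fun r => P.coeff (D r), fun F G => ?_⟩
  have hsub : P.support ⊆ (Finset.range (k + 1)).image D := by
    intro d hd
    have h1 : d 0 + d 1 = k := by
      have h2 := hP (MvPolynomial.mem_support_iff.1 hd)
      rw [Finsupp.weight_apply, Finsupp.sum_fintype] at h2
      · simpa [Fin.sum_univ_two] using h2
      · simp
    refine Finset.mem_image.2 ⟨d 1, Finset.mem_range.2 (by omega), ?_⟩
    ext i
    fin_cases i
    · show D (d 1) 0 = d 0
      rw [hD0]; omega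
    · show D (d 1) 1 = d 1
      rw [hD1]
  rw [MvPolynomial.aeval_def, MvPolynomial.eval₂_eq']
  rw [Finset.sum_subset hsub (by
    intro d _ hd
    rw [MvPolynomial.notMem_support_iff.1 hd, map_zero, zero_mul])]
  rw [Finset.sum_image (by
    intro r _ r' _ h
    have := DFunLike.congr_fun h 1
    rwa [hD1, hD1] at this)]
  refine Finset.sum_congr rfl fun r _ => ?_
  rw [Fin.prod_univ_two, hD0, hD1, Algebra.smul_def]
  simp

private theorem mo_expand (F G : ℂ⟦X⟧) (a N : ℕ) (f : ℕ → ℂ) :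
    ∑ j ∈ Finset.range (N + 1), f j • (F ^ a * (F ^ 3) ^ (N - j) * (G ^ 3) ^ j) =
      ∑ j ∈ Finset.range (N + 1), (∑ i ∈ Finset.range (N + 1), f i * ((N - i).choose (N - j) : ℂ)) •
        moX F G a N j := by
  simp_rw [Finset.sum_smul]
  rw [Finset.sum_comm]
  refine Finset.sum_congr rfl fun i hi => ?_
  have hi' : i ≤ N := Nat.lt_succ_iff.1 (Finset.mem_range.1 hi)
  simp_rw [mul_smul]
  rw [← Finset.smul_sum]
  congr 1
  have h1 : (F ^ 3) ^ (N - i) = ∑ m ∈ Finset.range (N - i + 1),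
      (F ^ 3 - G ^ 3) ^ m * (G ^ 3) ^ (N - i - m) * ((N - i).choose m : ℂ⟦X⟧) := by
    rw [← add_pow]
    congr 1
    ring
  rw [h1, Finset.mul_sum, Finset.sum_mul]
  rw [← Finset.sum_range_reflect (fun j => ((N - i).choose (N - j) : ℂ) • moX F G a N j) (N + 1)]
  have h2 : Finset.range (N - i + 1) ⊆ Finset.range (N + 1) := by
    intro m hm
    rw [Finset.mem_range] at hm ⊢
    omega
  rw [← Finset.sum_subset h2 (fun m hm hm' => ?_)]
  · refine Finset.sum_congr rfl fun m hm => ?_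
    have hm' : m ≤ N - i := Nat.lt_succ_iff.1 (Finset.mem_range.1 hm)
    have e1 : N + 1 - 1 - m = N - m := by omega
    have e2 : N - (N - m) = m := by omega
    rw [e1, e2, moX, e2, show N - m = (N - i - m) + i by omega, pow_add, Algebra.smul_def]
    simp only [map_natCast]
    ring
  · have hm1 : m ≤ N := Nat.lt_succ_iff.1 (Finset.mem_range.1 hm)
    have hm2 : N - i < m := by
      rw [Finset.mem_range, not_lt] at hm'
      omega
    have e1 : N + 1 - 1 - m = N - m := by omega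
    have e2 : N - (N - m) = m := by omega
    rw [e1, e2, Nat.choose_eq_zero_of_lt hm2, Nat.cast_zero, zero_smul]

/- only exponents congruent to `c` modulo `3` -/
private def Gr (c : ℕ) (f : ℂ⟦X⟧) : Prop := ∀ n, n % 3 ≠ c % 3 → coeff n f = 0

private theorem Gr_mul {c d : ℕ} {f g : ℂ⟦X⟧} (hf : Gr c f) (hg : Gr d g) : Gr (c + d) (f * g) := by
  intro n hn
  rw [PowerSeries.coeff_mul]
  refine Finset.sum_eq_zero fun p hp => ?_
  have hpn : p.1 + p.2 = n := Finset.HasAntidiagonal.mem_antidiagonal.1 hp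
  by_cases h1 : p.1 % 3 = c % 3
  · have h2 : p.2 % 3 ≠ d % 3 := by omega
    rw [hg _ h2, mul_zero]
  · rw [hf _ h1, zero_mul]

private theorem Gr_one : Gr 0 1 := by
  intro n hn
  rw [PowerSeries.coeff_one, if_neg]
  intro h
  rw [h] at hn
  exact hn rfl

private theorem Gr_pow {c : ℕ} {f : ℂ⟦X⟧} (hf : Gr c f) (m : ℕ) : Gr (m * c) (f ^ m) := by
  induction m with
  | zero => rw [pow_zero, zero_mul]; exact Gr_one
  | succ m ih => rw [pow_succ, Nat.succ_mul]; exact Gr_mul ih hf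

private theorem Gr_congr {c d : ℕ} {f : ℂ⟦X⟧} (hf : Gr c f) (h : c % 3 = d % 3) : Gr d f := by
  intro n hn
  exact hf n (by rw [h]; exact hn)

private theorem Gr_sub {c : ℕ} {f g : ℂ⟦X⟧} (hf : Gr c f) (hg : Gr c g) : Gr c (f - g) := by
  intro n hn
  rw [map_sub, hf n hn, hg n hn, sub_zero]

private theorem Gr_A {A Y : ℂ⟦X⟧} (h : Core A Y) : Gr 0 A := fun n hn => h.grA n (by simpa using hn)

private theorem Gr_Y {A Y : ℂ⟦X⟧} (h : Core A Y) : Gr 1 Y := fun n hn => h.grY n (by simpa using hn)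

private theorem Gr_AY {A Y : ℂ⟦X⟧} (h : Core A Y) (i r : ℕ) : Gr r (A ^ i * Y ^ r) :=
  Gr_congr (Gr_mul (Gr_pow (Gr_A h) i) (Gr_pow (Gr_Y h) r)) (by simp)

private theorem Gr_moX {A Y : ℂ⟦X⟧} (h : Core A Y) (a N s : ℕ) : Gr 0 (moX A Y a N s) := by
  have hY3 : Gr 0 (Y ^ 3) := Gr_congr (Gr_pow (Gr_Y h) 3) (by norm_num)
  have hA3 : Gr 0 (A ^ 3) := Gr_congr (Gr_pow (Gr_A h) 3) (by norm_num)
  refine Gr_congr (Gr_mul (Gr_mul (Gr_pow (Gr_A h) a) (Gr_pow (Gr_sub hA3 hY3) (N - s)))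
    (Gr_pow hY3 s)) (by simp)

private theorem PL_ne3 {l : ℕ} {e s0 : ℂ} (hl : PL l e s0) : l % 3 ≠ 0 := by
  rcases hl.2 with ⟨h, -, -⟩ | ⟨h, -, -⟩ <;> omega

private theorem Gr_TT {l : ℕ} {e s0 : ℂ} (hl : PL l e s0) (w : ℕ) {f : ℂ⟦X⟧} (hf : Gr 0 f) :
    Gr 0 (TT l e w f) := by
  intro n hn
  have h3 := PL_ne3 hl
  have hn' : ¬ 3 ∣ n := by
    intro hd
    exact hn (by simpa using Nat.mod_eq_zero_of_dvd hd)
  have hl3 : ¬ 3 ∣ l := by
    intro hd
    exact h3 (Nat.mod_eq_zero_of_dvd hd)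
  rw [TT_coeff]
  have e1 : coeff (l * n) f = 0 := by
    apply hf
    intro hh
    have h5 : 3 ∣ l * n := Nat.dvd_of_mod_eq_zero (by simpa using hh)
    rcases (Nat.prime_three.dvd_mul).1 h5 with h6 | h6
    · exact hl3 h6
    · exact hn' h6
  rw [e1, mul_zero, zero_add]
  split_ifs with hd
  · have e2 : coeff (n / l) f = 0 := by
      apply hf
      intro hh
      have h5 : 3 ∣ n / l := Nat.dvd_of_mod_eq_zero (by simpa using hh)
      apply hn'
      obtain ⟨m, rfl⟩ := hd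
      rw [Nat.mul_div_cancel_left _ hl.1.pos] at h5
      exact Dvd.dvd.mul_left h5 l
    rw [e2, mul_zero]
  · rw [mul_zero]

theorem mat1 {A Y : ℂ⟦X⟧} (h : Core A Y) {l : ℕ} {e s0 : ℂ} (hl : PL l e s0) (a N s : ℕ) (hs : s ≤ N)
    [hfa : Fact (a < 3)] :
    ∃ g : ℕ → ℂ,
      TT l e (3 * N + a) (moX A Y a N s) = ∑ j ∈ Finset.range (N + 1), g j • moX A Y a N j ∧
      ∑ i : Option (Fin l), moX (br l e i A + 2 * br l e i Y) (br l e i A - br l e i Y) a N s =
        e ^ (3 * N + a) • ∑ j ∈ Finset.range (N + 1),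
          g j • moX (V l A + 2 * V l Y) (V l A - V l Y) a N j := by
  have ha : a < 3 := hfa.out
  have hl0 : l ≠ 0 := hl.1.ne_zero
  have he2 : e ^ 2 = 1 := by
    rcases hl.2 with ⟨-, h1, -⟩ | ⟨-, h1, -⟩ <;> rw [h1] <;> norm_num
  have hth : th ≠ 0 := by
    intro h0
    have := th_sq
    rw [h0] at this
    norm_num at this
  let P : MvPolynomial (Fin 2) ℂ := MvPolynomial.X 0 ^ a *
    (MvPolynomial.X 0 ^ 3 - MvPolynomial.X 1 ^ 3) ^ (N - s) * (MvPolynomial.X 1 ^ 3) ^ s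
  have hP : P.IsHomogeneous (3 * N + a) := by
    have h0 : (MvPolynomial.X 0 ^ a : MvPolynomial (Fin 2) ℂ).IsHomogeneous (1 * a) :=
      (MvPolynomial.isHomogeneous_X ℂ 0).pow a
    have h1 : (MvPolynomial.X 0 ^ 3 : MvPolynomial (Fin 2) ℂ).IsHomogeneous (1 * 3) :=
      (MvPolynomial.isHomogeneous_X ℂ 0).pow 3
    have h2 : (MvPolynomial.X 1 ^ 3 : MvPolynomial (Fin 2) ℂ).IsHomogeneous (1 * 3) :=
      (MvPolynomial.isHomogeneous_X ℂ 1).pow 3
    have h3 := (h0.mul ((h1.sub h2).pow (N - s))).mul (h2.pow s)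
    have h4 : 1 * a + 1 * 3 * (N - s) + 1 * 3 * s = 3 * N + a := by omega
    rw [h4] at h3
    exact h3
  have hPm : ∀ F G : ℂ⟦X⟧, MvPolynomial.aeval ![F, G] P = moX F G a N s := by
    intro F G
    simp [P, moX]
  obtain ⟨P', hP', hPP⟩ := h.hecke l e s0 hl (3 * N + a) P hP
  have comp : ∀ (c : Fin 4) (u v : Fin 4 → ℂ⟦X⟧) (Q : MvPolynomial (Fin 2) ℂ),
      (MvPolynomial.aeval ![u, v] Q) c = MvPolynomial.aeval ![u c, v c] Q := by
    intro c u v Q
    have h1 := MvPolynomial.comp_aeval (R := ℂ) ![u, v] (Pi.evalAlgHom ℂ (fun _ : Fin 4 => ℂ⟦X⟧) c)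
    have h2 := congrArg (fun φ => φ Q) h1
    have h3 : (fun i => Pi.evalAlgHom ℂ (fun _ : Fin 4 => ℂ⟦X⟧) c (![u, v] i)) = ![u c, v c] := by
      funext i
      fin_cases i <;> rfl
    rw [h3] at h2
    exact h2
  have H0 := congrFun hPP 0
  rw [Finset.sum_apply] at H0
  simp only [comp] at H0
  have H1 := congrFun hPP 1
  rw [Finset.sum_apply] at H1
  simp only [comp] at H1
  have c0 : ∀ (r : ℂ) (F G : ℂ⟦X⟧), cA r F G 0 = F := fun _ _ _ => rfl
  have d0 : ∀ (r r' : ℂ) (F G : ℂ⟦X⟧), cY r r' F G 0 = G := fun _ _ _ _ => rfl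
  have c1 : ∀ (r : ℂ) (F G : ℂ⟦X⟧), cA r F G 1 = (r / th) • (F + 2 * G) := fun _ _ _ => rfl
  have d1 : ∀ (r r' : ℂ) (F G : ℂ⟦X⟧), cY r r' F G 1 = (r / th) • (F - G) := fun _ _ _ _ => rfl
  simp only [c0, d0] at H0
  simp only [c1, d1] at H1
  rw [br_sum l hl0 e (3 * N + a) A Y P hP, aevalV l hl0, hPm] at H0
  have H0' : TT l e (3 * N + a) (moX A Y a N s) = MvPolynomial.aeval ![A, Y] P' := V_inj hl0 H0
  obtain ⟨f, hf⟩ := aeval_hom (3 * N + a) P' hP'
  have hz : ∀ r ≤ 3 * N + a, r % 3 ≠ 0 → f r = 0 := by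
    have hz0 : ∑ r ∈ Finset.range (3 * N + a + 1), (if r % 3 = 0 then 0 else f r) •
        (A ^ (3 * N + a - r) * Y ^ r) = 0 := by
      ext n
      rw [map_sum, map_zero]
      by_cases hn : n % 3 = 0
      · refine Finset.sum_eq_zero fun r _ => ?_
        split_ifs with hr
        · simp
        · rw [PowerSeries.coeff_smul, Gr_AY h _ r n (by omega), smul_zero]
      · have h1 : coeff n (MvPolynomial.aeval ![A, Y] P') = 0 := by
          rw [← H0']
          exact Gr_TT hl _ (Gr_moX h a N s) n (by simpa using hn)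
        rw [hf, map_sum] at h1
        refine Eq.trans (Finset.sum_congr rfl fun r _ => ?_) h1
        split_ifs with hr
        · rw [zero_smul, map_zero, PowerSeries.coeff_smul, Gr_AY h _ r n (by omega), smul_zero]
        · rfl
    intro r hr hr3
    have := AY_ind h (3 * N + a) (fun r => if r % 3 = 0 then 0 else f r) hz0 r hr
    simpa [hr3] using this
  have hfull : ∀ F G : ℂ⟦X⟧, MvPolynomial.aeval ![F, G] P' =
      ∑ j ∈ Finset.range (N + 1), (∑ i ∈ Finset.range (N + 1), f (3 * i) * ((N - i).choose (N - j) : ℂ)) •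
        moX F G a N j := by
    intro F G
    rw [← mo_expand F G a N (fun j => f (3 * j)), hf]
    have himg : (Finset.range (N + 1)).image (fun j => 3 * j) ⊆ Finset.range (3 * N + a + 1) := by
      intro r hr
      obtain ⟨j, hj, rfl⟩ := Finset.mem_image.1 hr
      rw [Finset.mem_range] at hj ⊢
      omega
    rw [← Finset.sum_subset himg (fun r hr hr' => ?_), Finset.sum_image (by
      intro i _ j _ hij
      have hij' : 3 * i = 3 * j := hij
      omega)]
    · refine Finset.sum_congr rfl fun j hj => ?_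
      have hj' : j ≤ N := Nat.lt_succ_iff.1 (Finset.mem_range.1 hj)
      rw [show 3 * N + a - 3 * j = a + 3 * (N - j) by omega, pow_add, pow_mul, pow_mul]
    · have h1 : r % 3 ≠ 0 := by
        intro h0
        apply hr'
        rw [Finset.mem_range] at hr
        refine Finset.mem_image.2 ⟨r / 3, Finset.mem_range.2 (by omega), ?_⟩
        show 3 * (r / 3) = r
        omega
      rw [hz r (Nat.lt_succ_iff.1 (Finset.mem_range.1 hr)) h1, zero_smul]
  refine ⟨fun j => ∑ i ∈ Finset.range (N + 1), f (3 * i) * ((N - i).choose (N - j) : ℂ), ?_, ?_⟩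
  · rw [H0', hfull]
  · rw [← hfull]
    have h1 : ∀ i : Option (Fin l), MvPolynomial.aeval ![(e / th) • (br l e i A + 2 * br l e i Y),
        (e / th) • (br l e i A - br l e i Y)] P = (e / th) ^ (3 * N + a) •
          moX (br l e i A + 2 * br l e i Y) (br l e i A - br l e i Y) a N s := by
      intro i
      rw [hom_smul (3 * N + a) _ _ _ P hP, hPm]
    rw [Finset.sum_congr rfl (fun i _ => h1 i), hom_smul (3 * N + a) _ _ _ P' hP', ← Finset.smul_sum] at H1
    have h2 : e ^ (3 * N + a) * e ^ (3 * N + a) = 1 := by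
      rw [← mul_pow, ← pow_two, he2, one_pow]
    have h3 : (th * e) ^ (3 * N + a) • ((e / th) ^ (3 * N + a) •
        ∑ i : Option (Fin l), moX (br l e i A + 2 * br l e i Y) (br l e i A - br l e i Y) a N s) =
        (th * e) ^ (3 * N + a) • ((1 / th) ^ (3 * N + a) •
          MvPolynomial.aeval ![V l A + 2 * V l Y, V l A - V l Y] P') := by
      rw [H1]
    rw [smul_smul, smul_smul, ← mul_pow, ← mul_pow] at h3
    have e1 : th * e * (e / th) = 1 := by
      field_simp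
      exact he2
    have e2 : th * e * (1 / th) = e := by
      field_simp
    rw [e1, e2, one_pow, one_smul] at h3
    exact h3

end Pool.Agent.Lib.MP_06b9d2_tls
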