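import Pool.Agent.Lib.MP_06b9d2_tls.Mat2

/-!
Module TLS-Mat3. Integrality of the matrix and the entries from constant terms.

Let `G' = Y ^ 3 / 27 = κ ^ 3` (integral coefficients, `x ^ 3 (1 + ..)`), `B = A ^ 3 - Y ^ 3` integral with constant coefficient `1`. `moX A Y a N s = 27 ^ s A ^ a B ^ (N - s) G' ^ s`. So
`27 ^ s TT (A ^ a B ^ (N - s) G' ^ s) = ∑_j M a N j s 27 ^ j A ^ a B ^ (N - j) G' ^ j`, and `TT` of an integral series is integral (`e = ±1`), with the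
coefficients of `x ^ n`, `n < 1`, ... : `int`: put `m_j = M a N j s 27 ^ j / 27 ^ s`; `∑_j m_j A ^ a B ^ (N - j) G' ^ j` has integral coefficients and the `j`-th summand is
`m_j x ^ (3 j) (1 + ..)` with integral coefficients: induction on `j`: `m_j` is an integer. For `j ≤ s`: `M a N j s = 27 ^ (s - j) m_j`. (`mat_int`)
`mat_low` (`0 < s ≤ N`): the constant coefficient of `TT (moX A Y a N s)` is `0` (that of `moX A Y a N s` is `0`), and the constant coefficient of the right side is `M a N 0 s`.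
`mat_00`: constant coefficients: `l + (e l) ^ (3 N + a)` (`l` from `U_l`). `mat_sym'`: from `sym` and `mat_int`, for `s ≤ j ≤ N`.
`mat_rat`: all entries are rational (`mat_int`, `sym`, `out`; for `N < s` no statement). `mat_NN`, `mat_top`: from `sym`.
-/

namespace Pool.Agent.Lib.MP_06b9d2_tls

open PowerSeries Pool.Agent.L1

private lemma m3_ind (N : ℕ) (W : ℕ → ℤ⟦X⟧) (hW1 : ∀ j, coeff (3 * j) (W j) = 1)
    (hW0 : ∀ i j, j < i → coeff (3 * j) (W i) = 0) (m : ℕ → ℂ) (F : ℤ⟦X⟧)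
    (h : ∑ j ∈ Finset.range (N + 1), m j • PowerSeries.map (Int.castRingHom ℂ) (W j) =
      PowerSeries.map (Int.castRingHom ℂ) F) :
    ∀ j ≤ N, m j ∈ (Int.castRingHom ℂ).range := by
  intro j
  induction j using Nat.strong_induction_on with
  | _ j ih =>
    intro hj
    have hc := congrArg (coeff (3 * j)) h
    simp only [map_sum, PowerSeries.coeff_smul, PowerSeries.coeff_map, smul_eq_mul] at hc
    have hsub : ∑ i ∈ Finset.range (j + 1), m i * (Int.castRingHom ℂ) (coeff (3 * j) (W i)) =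
        ∑ i ∈ Finset.range (N + 1), m i * (Int.castRingHom ℂ) (coeff (3 * j) (W i)) := by
      apply Finset.sum_subset
      · intro x hx
        simp only [Finset.mem_range] at hx ⊢
        omega
      · intro x _ hx
        simp only [Finset.mem_range] at hx
        rw [hW0 x j (by omega)]
        simp
    rw [← hsub, Finset.sum_range_succ, hW1 j, map_one, mul_one] at hc
    have e : m j = (Int.castRingHom ℂ) (coeff (3 * j) F) -
        ∑ i ∈ Finset.range j, m i * (Int.castRingHom ℂ) (coeff (3 * j) (W i)) := by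
      rw [← hc]; ring
    rw [e]
    apply Subring.sub_mem
    · exact ⟨_, rfl⟩
    · apply Subring.sum_mem
      intro i hi
      have hi' := Finset.mem_range.1 hi
      exact Subring.mul_mem _ (ih i hi' (by omega)) ⟨_, rfl⟩

private lemma m3_TT (l : ℕ) (e : ℤ) (w : ℕ) (F : ℤ⟦X⟧) :
    ∃ F' : ℤ⟦X⟧, TT l (e : ℂ) w (PowerSeries.map (Int.castRingHom ℂ) F) =
      PowerSeries.map (Int.castRingHom ℂ) F' := by
  refine ⟨PowerSeries.mk fun n => (l : ℤ) * coeff (l * n) F +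
    (e * l) ^ w * (if l ∣ n then coeff (n / l) F else 0), ?_⟩
  ext n
  rw [TT_coeff]
  simp only [PowerSeries.coeff_map, PowerSeries.coeff_mk]
  split_ifs <;> simp

private lemma m3_e {l : ℕ} {e s0 : ℂ} (hl : PL l e s0) : ∃ z : ℤ, e = (z : ℂ) ∧ e * e = 1 := by
  rcases hl.2 with h | h
  · exact ⟨1, by rw [h.2.1]; simp, by rw [h.2.1]; simp⟩
  · exact ⟨-1, by rw [h.2.1]; simp, by rw [h.2.1]; simp⟩

/-- the integral forms -/
private lemma m3_W {A Y : ℂ⟦X⟧} (h : Core A Y) (a N : ℕ) :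
    ∃ W : ℕ → ℤ⟦X⟧, (∀ j, coeff (3 * j) (W j) = 1) ∧
      (∀ i j, j < i → coeff (3 * j) (W i) = 0) ∧
      ∀ j, moX A Y a N j = ((27 : ℂ) ^ j) • PowerSeries.map (Int.castRingHom ℂ) (W j) := by
  obtain ⟨A₁, κ, hA, hY, hA0, hκ0, hκ1⟩ := h.int
  obtain ⟨κ', hκ'⟩ := PowerSeries.X_dvd_iff.2 hκ0
  have hc' : constantCoeff κ' = 1 := by
    have := hκ1
    rw [hκ'] at this
    rw [show (1 : ℕ) = 0 + 1 from rfl, PowerSeries.coeff_succ_X_mul] at this
    rw [← PowerSeries.coeff_zero_eq_constantCoeff_apply]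
    exact this
  refine ⟨fun j => PowerSeries.X ^ (3 * j) *
    ((1 + 3 * A₁) ^ a * ((1 + 3 * A₁) ^ 3 - 27 * κ ^ 3) ^ (N - j) * κ' ^ (3 * j)), ?_, ?_, ?_⟩
  · intro j
    show coeff (3 * j) (PowerSeries.X ^ (3 * j) * _) = 1
    rw [PowerSeries.coeff_X_pow_mul', if_pos le_rfl, Nat.sub_self,
      PowerSeries.coeff_zero_eq_constantCoeff_apply]
    simp [hA0, hκ0, hc']
  · intro i j hij
    show coeff (3 * j) (PowerSeries.X ^ (3 * i) * _) = 0
    rw [PowerSeries.coeff_X_pow_mul', if_neg (by omega)]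
  · intro j
    have e1 : (PowerSeries.X ^ (3 * j) *
      ((1 + 3 * A₁) ^ a * ((1 + 3 * A₁) ^ 3 - 27 * κ ^ 3) ^ (N - j) * κ' ^ (3 * j)) : ℤ⟦X⟧) =
      (1 + 3 * A₁) ^ a * ((1 + 3 * A₁) ^ 3 - 27 * κ ^ 3) ^ (N - j) * (κ ^ 3) ^ j := by
      rw [hκ', ← pow_mul, mul_pow PowerSeries.X κ' (3 * j)]
      ring
    show _ = ((27 : ℂ) ^ j) • PowerSeries.map (Int.castRingHom ℂ) (PowerSeries.X ^ (3 * j) *
      ((1 + 3 * A₁) ^ a * ((1 + 3 * A₁) ^ 3 - 27 * κ ^ 3) ^ (N - j) * κ' ^ (3 * j)))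
    rw [e1, moX, hA, hY]
    simp only [map_mul, map_pow, map_sub, map_add, map_one, map_ofNat]
    rw [PowerSeries.smul_eq_C_mul, map_pow, map_ofNat]
    ring

theorem mat_int {A Y : ℂ⟦X⟧} (h : Core A Y) {l : ℕ} {e s0 : ℂ} (hl : PL l e s0)
    {M : ℕ → ℕ → ℕ → ℕ → ℂ} (hM : MatD l e A Y M) (a N j s : ℕ) [Fact (a < 3)] (hj : j ≤ s) (hs : s ≤ N) :
    ∃ z : ℤ, M a N j s = 27 ^ (s - j) * (z : ℂ) := by
  obtain ⟨W, hW1, hW0, hWm⟩ := m3_W h a N
  obtain ⟨z, hz, _⟩ := m3_e hl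
  obtain ⟨F', hF'⟩ := m3_TT l z (3 * N + a) (W s)
  have hl0 : l ≠ 0 := hl.1.ne_zero
  have h27 : ∀ n : ℕ, (27 : ℂ) ^ n ≠ 0 := fun n => pow_ne_zero n (by norm_num)
  have heq := hM.eq a N s hs
  rw [hWm s, TT_smul l hl0, hz, hF'] at heq
  have key : ∑ i ∈ Finset.range (N + 1), (((27 : ℂ) ^ s)⁻¹ * (M a N i s * 27 ^ i)) •
      PowerSeries.map (Int.castRingHom ℂ) (W i) = PowerSeries.map (Int.castRingHom ℂ) F' := by
    have h2 := congrArg (fun f => ((27 : ℂ) ^ s)⁻¹ • f) heq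
    simp only [smul_smul, inv_mul_cancel₀ (h27 s), one_smul, Finset.smul_sum] at h2
    rw [h2]
    apply Finset.sum_congr rfl
    intro i _
    rw [hWm i, smul_smul]
    congr 1
    ring
  obtain ⟨y, hy⟩ := m3_ind N W hW1 hW0 _ F' key j (hj.trans hs)
  refine ⟨y, ?_⟩
  have hy' : (y : ℂ) = ((27 : ℂ) ^ s)⁻¹ * (M a N j s * 27 ^ j) := by rw [← hy]; simp
  rw [hy']
  have e2 : (27 : ℂ) ^ s = 27 ^ (s - j) * 27 ^ j := by rw [← pow_add]; congr 1; omega
  rw [e2]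
  have := h27 (s - j)
  have := h27 j
  field_simp

theorem mat_int' {A Y : ℂ⟦X⟧} (h : Core A Y) {l : ℕ} {e s0 : ℂ} (hl : PL l e s0)
    {M : ℕ → ℕ → ℕ → ℕ → ℂ} (hM : MatD l e A Y M) (a N j s : ℕ) [Fact (a < 3)] (hj : s ≤ j) (hs : j ≤ N) :
    ∃ z : ℤ, M a N j s = 27 ^ (j - s) * (z : ℂ) := by
  obtain ⟨z, hz, hee⟩ := m3_e hl
  obtain ⟨y, hy⟩ := mat_int h hl hM a N (N - j) (N - s) (by omega) (by omega)
  rw [hM.sym a N j s hs (hj.trans hs)] at hy
  refine ⟨z ^ (a + N) * y, ?_⟩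
  have h1 : e ^ (a + N) * e ^ (a + N) = 1 := by rw [← mul_pow, hee, one_pow]
  have h2 : M a N j s = e ^ (a + N) * (e ^ (a + N) * M a N j s) := by
    rw [← mul_assoc, h1, one_mul]
  rw [h2, hy, show N - s - (N - j) = j - s by omega, hz]
  push_cast
  ring

private lemma m3_cc {A Y : ℂ⟦X⟧} (h : Core A Y) (a N j : ℕ) :
    constantCoeff (moX A Y a N j) = if j = 0 then 1 else 0 := by
  obtain ⟨A₁, κ, hA, hY, hA0, hκ0, hκ1⟩ := h.int
  have hA' : constantCoeff A = 1 := by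
    rw [hA, ← PowerSeries.coeff_zero_eq_constantCoeff_apply, map_add]
    rw [PowerSeries.coeff_zero_eq_constantCoeff_apply, PowerSeries.coeff_zero_eq_constantCoeff_apply]
    rw [map_mul, map_one, ← PowerSeries.coeff_zero_eq_constantCoeff_apply (PowerSeries.map _ A₁),
      PowerSeries.coeff_map, PowerSeries.coeff_zero_eq_constantCoeff_apply, hA0]
    simp
  have hY' : constantCoeff Y = 0 := by
    rw [hY, map_mul, ← PowerSeries.coeff_zero_eq_constantCoeff_apply (PowerSeries.map _ κ),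
      PowerSeries.coeff_map, PowerSeries.coeff_zero_eq_constantCoeff_apply, hκ0]
    simp
  rw [moX]
  simp only [map_mul, map_pow, map_sub, hA', hY']
  split_ifs with h0
  · subst h0; simp
  · simp [h0]

private lemma m3_cc2 {A Y : ℂ⟦X⟧} (h : Core A Y) {l : ℕ} {e s0 : ℂ} (_hl : PL l e s0)
    {M : ℕ → ℕ → ℕ → ℕ → ℂ} (hM : MatD l e A Y M) (a N s : ℕ) [Fact (a < 3)] (hs : s ≤ N) :
    M a N 0 s = (l + (e * l) ^ (3 * N + a)) * (if s = 0 then 1 else 0) := by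
  have heq := congrArg constantCoeff (hM.eq a N s hs)
  rw [← PowerSeries.coeff_zero_eq_constantCoeff_apply, TT_coeff, mul_zero,
    if_pos (dvd_zero l), Nat.zero_div, PowerSeries.coeff_zero_eq_constantCoeff_apply, m3_cc h,
    map_sum] at heq
  rw [Finset.sum_eq_single 0] at heq
  · rw [PowerSeries.smul_eq_C_mul, map_mul, PowerSeries.constantCoeff_C, m3_cc h, if_pos rfl,
      mul_one] at heq
    rw [← heq]; ring
  · intro j _ hj
    rw [PowerSeries.smul_eq_C_mul, map_mul, m3_cc h, if_neg hj, mul_zero]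
  · intro hh
    exact absurd (Finset.mem_range.2 (Nat.succ_pos N)) hh

theorem mat_low {A Y : ℂ⟦X⟧} (h : Core A Y) {l : ℕ} {e s0 : ℂ} (hl : PL l e s0)
    {M : ℕ → ℕ → ℕ → ℕ → ℂ} (hM : MatD l e A Y M) (a N s : ℕ) [Fact (a < 3)] (h0 : 0 < s) (hs : s ≤ N) :
    M a N 0 s = 0 := by
  rw [m3_cc2 h hl hM a N s hs, if_neg h0.ne', mul_zero]

theorem mat_top {A Y : ℂ⟦X⟧} (h : Core A Y) {l : ℕ} {e s0 : ℂ} (hl : PL l e s0)
    {M : ℕ → ℕ → ℕ → ℕ → ℂ} (hM : MatD l e A Y M) (a N s : ℕ) [Fact (a < 3)] (hs : s < N) :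
    M a N N s = 0 := by
  obtain ⟨z, hz, hee⟩ := m3_e hl
  have h1 : e ^ (a + N) * e ^ (a + N) = 1 := by rw [← mul_pow, hee, one_pow]
  have h2 := hM.sym a N N s le_rfl hs.le
  rw [Nat.sub_self, mat_low h hl hM a N (N - s) (by omega) (by omega)] at h2
  calc M a N N s = e ^ (a + N) * (e ^ (a + N) * M a N N s) := by rw [← mul_assoc, h1, one_mul]
    _ = 0 := by rw [← h2, mul_zero]

theorem mat_00 {A Y : ℂ⟦X⟧} (h : Core A Y) {l : ℕ} {e s0 : ℂ} (hl : PL l e s0)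
    {M : ℕ → ℕ → ℕ → ℕ → ℂ} (hM : MatD l e A Y M) (a N : ℕ) [Fact (a < 3)] :
    M a N 0 0 = l + (e * l) ^ (3 * N + a) := by
  rw [m3_cc2 h hl hM a N 0 (Nat.zero_le N), if_pos rfl, mul_one]

theorem mat_NN {A Y : ℂ⟦X⟧} (h : Core A Y) {l : ℕ} {e s0 : ℂ} (hl : PL l e s0)
    {M : ℕ → ℕ → ℕ → ℕ → ℂ} (hM : MatD l e A Y M) (a N : ℕ) [Fact (a < 3)] :
    M a N N N = e ^ (a + N) * (l + (e * l) ^ (3 * N + a)) := by
  have h2 := hM.sym a N 0 0 (Nat.zero_le N) (Nat.zero_le N)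
  rw [Nat.sub_zero] at h2
  rw [h2, mat_00 h hl hM]

end Pool.Agent.Lib.MP_06b9d2_tls
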