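import Pool.Agent.Lib.MP_06b9d2_tls.Qd

/-!
Module TLS-Mono. Coefficients of polynomials in `a'`, `k` at `n ≡ 2` modulo `3`; the congruences for `e = -1`.

`a' = expand 3 a` has only exponents divisible by `3`, `k` only exponents `≡ 1`: `coeff n (k ^ i * a' ^ j) = 0` if `n % 3 ≠ i % 3` (`mono_co`). With `a = a' + 6 k`, `c = k (a' ^ 2 + 3 a' k + 9 k ^ 2)`, `a ^ 3 - 27 c = (a' - 3 k) ^ 3` expand everything (`ring`):
`(a ^ 3 - 27 c) c = k a'^5 - 6 k^2 a'^4 + 9 k^3 a'^3 - 27 k^4 a'^2 + 162 k^5 a' - 243 k^6`; `a ^ 2` times this has the part `6 k^2 a'^6 + 162 k^5 a'^3 - 8748 k^8` with exponents `≡ 2`;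
`e6` (`h6`): the part `-504 (33 k^2 a'^4 + 2268 k^5 a')`; `e4 ^ 2` (`h4`): the part `480 (129 k^2 a'^6 + 73224 k^5 a'^3 + 349920 k^8)`. So at a prime `l ≡ 2`:
`11 t_6 + 2 (1 + l^5) = 6318 [k^5 a']_l`, `6318 = 26 * 243`; `43 t_8 - 2 (1 + l^7) = -139482 [k^5 a'^3]_l - 1076004 [k^8]_l`, both divisible by `243`.
`cm_v`: `M a 2 0 0 = l + (-l) ^ (6 + a) = l (1 + l ^ (5 + a))` (`mat_00`, `a` even), `M a 2 1 1 = l t` (`q_t`): `11 (1 + l^5 + t_6) = 9 (1 + l^5) + 243 y`, `43 (1 + l^7 + t_8) = 45 (1 + l^7) + 243 y`; `1 + l^5` and `1 + l^7` are `3` times a number prime to `3`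
for `l ≡ 2, 5` modulo `9`. (`v` of integers: `val_int`, `v_prime`.)
-/

namespace Pool.Agent.Lib.MP_06b9d2_tls

open PowerSeries Pool.Agent.L1

private theorem mono_k {A Y : ℂ⟦X⟧} {a k c : ℤ⟦X⟧} (q : Qd A Y a k c) (i : ℕ) :
    ∀ n, n % 3 ≠ i % 3 → coeff n (k ^ i) = 0 := by
  induction i with
  | zero =>
    intro n hn
    rw [pow_zero, PowerSeries.coeff_one, if_neg]
    rintro rfl
    exact hn rfl
  | succ i ih =>
    intro n hn
    rw [pow_succ, PowerSeries.coeff_mul]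
    apply Finset.sum_eq_zero
    rintro ⟨u, v⟩ huv
    have huv := Finset.HasAntidiagonal.mem_antidiagonal.1 huv
    simp only at huv ⊢
    by_cases hu : u % 3 = i % 3
    · have hv : v % 3 ≠ 1 := by
        intro hv
        apply hn
        omega
      rw [q.gr v hv, mul_zero]
    · rw [ih u hu, zero_mul]

theorem mono_co {A Y : ℂ⟦X⟧} {a k c : ℤ⟦X⟧} (q : Qd A Y a k c) (n i j : ℕ) (hn : n % 3 ≠ i % 3) :
    coeff n (k ^ i * PowerSeries.expand 3 three_ne_zero a ^ j) = 0 := by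
  rw [← map_pow, PowerSeries.coeff_mul]
  apply Finset.sum_eq_zero
  rintro ⟨u, v⟩ huv
  have huv := Finset.HasAntidiagonal.mem_antidiagonal.1 huv
  simp only at huv ⊢
  by_cases hv : 3 ∣ v
  · have hu : u % 3 ≠ i % 3 := by
      intro hu
      apply hn
      omega
    rw [mono_k q i u hu, zero_mul]
  · rw [PowerSeries.coeff_expand_of_not_dvd 3 three_ne_zero _ hv, mul_zero]

end Pool.Agent.Lib.MP_06b9d2_tls
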