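import Pool.Agent.Lib.MP_06b9d2_tls.PcB
import Pool.Agent.Lib.MP_06b9d2_tls.IntP
import Pool.Agent.Lib.MP_06b9d2_tls.Low

/-!
Module TLS-P30. `e = 1`: the third order coefficients are divisible by `27`.

`p30_1` (`a = 1`): `r = 0`: `pc_m00`: `(1 - c) = (1 - l ^ 3) / (l + 1)`, `l ^ 3 - c = l (l ^ 3 - 1) / (l + 1)`, both in `9 O`: `(1 / 27) 9 ^ 3 = 27`. `r = 1`: `pc_301`, `mp_310`, `mp_10` (`729 / 27 = 27`, `3 * 243 / 27 = 27`). `r = 2`: `pc_302`, `mat_int'` with `(j, s) = (2, 0)`: `729 / 27`. `r = 3`: `pc_303`. `r > 3`: `pc_deg`.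
`p30_0`, `p30_2`: let `t = tt (V l A) (V l Y)`, `w = (V l A)⁻¹`, `ρ = C (pr ^ 6)`, `ρ ^ 2 = 3`, `u_i w ^ 3 = ρ u'_i` with `u'_i` integral (`intP_u`). `∑ u_i = 0`: `pc_sum 0 1 0`, `pc_m00` (`l (1 - c) + (l ^ 3 - c) = 0`), `pc_101`. In any commutative ring `(∑ x_i) ^ 3 - ∑ x_i ^ 3` is `3` times an element of the subring generated by the `x_i`
(induction), so `∑ u'_i ^ 3 = 3 y` with `y` integral, `∑ u_i ^ 3 w ^ 9 = ρ ^ 3 3 y = C (pr ^ 30) y`: `pc_bd` with `la = pr ^ 30`, `pc_rat`, `v_rat` with `k = 5`: `≤ (v 3) ^ 3`. (`p30_0`)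
`a = 2`: fix a branch `i₀`, `x_i = br i A * w = x₀ + ρ δ_i` (`intP_A` for `i` and `i₀`), `δ_i` integral. `∑ x_i ^ 2 (u_i w ^ 3) ^ 3 = x₀ ^ 2 S_0 + 2 x₀ ρ ∑ δ_i (u_i w ^ 3) ^ 3 + ρ ^ 2 ∑ δ_i ^ 2 (u_i w ^ 3) ^ 3`; `S_0 = ∑ (u_i w ^ 3) ^ 3` and `S_1 = ∑ x_i (u_i w ^ 3) ^ 3` are `27` times integral elements (`pc_sum` and `p30_0`,
`p30_1`: `∑_r pc_r (1 - t ^ 3) ^ (3 - r) t ^ (3 r)`), `ρ ∑ δ_i (..) = S_1 - x₀ S_0`, and `ρ ^ 2 δ_i ^ 2 (ρ u'_i) ^ 3 = C (pr ^ 30) (..)`. So the sum is `C (pr ^ 30)` times an integral element, and the conclusion is as before.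
-/

namespace Pool.Agent.Lib.MP_06b9d2_tls

open PowerSeries Pool.Agent.L1

private theorem p30_cube {O : ValuationSubring ℂ} {t : ℂ⟦X⟧} {ι : Type*} (s : Finset ι) (f : ι → ℂ⟦X⟧)
    (hf : ∀ i, Ig O t (f i)) :
    ∃ y, Ig O t y ∧ (∑ i ∈ s, f i) ^ 3 = ∑ i ∈ s, f i ^ 3 + 3 * y := by
  classical
  induction s using Finset.induction_on with
  | empty => exact ⟨0, by simpa using Ig_sub (Ig_t (O := O) (t := t)) Ig_t, by simp⟩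
  | insert a s ha ih =>
    obtain ⟨y, hy, he⟩ := ih
    refine ⟨y + (f a ^ 2 * (∑ i ∈ s, f i) + f a * (∑ i ∈ s, f i) ^ 2), ?_, ?_⟩
    · have hs : Ig O t (∑ i ∈ s, f i) := Ig_sum s fun i _ => hf i
      exact Ig_add hy (Ig_add (Ig_mul (Ig_pow (hf a) 2) hs) (Ig_mul (hf a) (Ig_pow hs 2)))
    · rw [Finset.sum_insert ha, Finset.sum_insert ha]
      linear_combination he

private theorem p30_sum {A Y : ℂ⟦X⟧} (h : Core A Y) {l : ℕ} {s0 : ℂ}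
    (hl : PL l 1 s0) {M : ℕ → ℕ → ℕ → ℕ → ℂ} (hM : MatD l 1 A Y M) :
    ∑ i : Option (Fin l), ub l 1 A Y i = 0 := by
  have h1 := pc_sum h hl hM 0 1 0
  have h2 : pc 1 (cl l 1) M 0 1 0 0 = 0 := by
    rw [pc_m00 h hl hM 0 1]
    have hl1 : (l : ℂ) + 1 ≠ 0 := by
      have : ((l + 1 : ℕ) : ℂ) ≠ 0 := Nat.cast_ne_zero.2 (Nat.succ_ne_zero l)
      push_cast at this
      exact this
    unfold cl
    field_simp
    ring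
  rw [Finset.sum_range_succ, Finset.sum_range_succ, Finset.sum_range_zero, h2,
    (pc_101 h hl hM 0).1] at h1
  simpa using h1

private theorem p30_pr : (pr : ℂ) ≠ 0 := by
  intro h
  have h1 := pr_pow
  rw [h] at h1
  norm_num at h1

theorem p30_0 {A Y : ℂ⟦X⟧} (h : Core A Y) {O : ValuationSubring ℂ} (h3 : O.valuation 3 < 1) {l : ℕ} {s0 : ℂ}
    (hl : PL l 1 s0) {M : ℕ → ℕ → ℕ → ℕ → ℂ} (hM : MatD l 1 A Y M) (r : ℕ) :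
    O.valuation (pc 1 (cl l 1) M 0 3 0 r) ≤ O.valuation 27 := by
  obtain ⟨q, hq⟩ := pc_rat h hl hM 0 3 0 r
  have key : O.valuation (pc 1 (cl l 1) M 0 3 0 r) ≤ O.valuation (pr ^ 30) := by
    refine pc_bd h h3 hl hM 0 3 0 (pr ^ 30) (pow_ne_zero _ p30_pr) ?_ r
    obtain ⟨y, hy, he⟩ := p30_cube (O := O) (t := tt (V l A) (V l Y)) Finset.univ
      (fun i : Option (Fin l) => ub l 1 A Y i * (V l A)⁻¹ ^ 3 * C ((pr ^ 6)⁻¹))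
      (fun i => intP_u h h3 hl i)
    have h0 : ∑ i : Option (Fin l), ub l 1 A Y i * (V l A)⁻¹ ^ 3 * C ((pr ^ 6)⁻¹) = 0 := by
      rw [← Finset.sum_mul, ← Finset.sum_mul, p30_sum h hl hM, zero_mul, zero_mul]
    rw [h0] at he
    have hc1 : (C ((pr ^ 6)⁻¹) : ℂ⟦X⟧) * C (pr ^ 6) = 1 := by
      rw [← map_mul, inv_mul_cancel₀ (pow_ne_zero _ p30_pr), map_one]
    have hc3 : (3 : ℂ⟦X⟧) * C (pr ^ 18) * C ((pr ^ 30)⁻¹) = 1 := by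
      have c3 : (3 : ℂ⟦X⟧) = C (3 : ℂ) := (map_ofNat C 3).symm
      rw [c3, ← map_mul, ← map_mul, ← pr_pow, ← pow_add, mul_inv_cancel₀ (pow_ne_zero _ p30_pr),
        map_one]
    have hc2 : (C (pr ^ 6) : ℂ⟦X⟧) ^ 3 = C (pr ^ 18) := by
      rw [← map_pow, ← pow_mul]
    have h4 : ∀ i : Option (Fin l), br l 1 i A ^ 0 * ub l 1 A Y i ^ 3 * vb l 1 Y i ^ 0 *
        (V l A)⁻¹ ^ 9 = (ub l 1 A Y i * (V l A)⁻¹ ^ 3 * C ((pr ^ 6)⁻¹)) ^ 3 * C (pr ^ 18) := by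
      intro i
      rw [← hc2]
      calc br l 1 i A ^ 0 * ub l 1 A Y i ^ 3 * vb l 1 Y i ^ 0 * (V l A)⁻¹ ^ 9
          = (ub l 1 A Y i * (V l A)⁻¹ ^ 3) ^ 3 * 1 ^ 3 := by ring
        _ = (ub l 1 A Y i * (V l A)⁻¹ ^ 3) ^ 3 * (C ((pr ^ 6)⁻¹) * C (pr ^ 6)) ^ 3 := by rw [hc1]
        _ = _ := by ring
    have h5 : (∑ i : Option (Fin l), br l 1 i A ^ 0 * ub l 1 A Y i ^ 3 * vb l 1 Y i ^ 0) *
        (V l A)⁻¹ ^ (0 + 3 * (3 + 0)) * C ((pr ^ 30)⁻¹) = -y := by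
      have h6 : (∑ i : Option (Fin l), br l 1 i A ^ 0 * ub l 1 A Y i ^ 3 * vb l 1 Y i ^ 0) *
          (V l A)⁻¹ ^ (0 + 3 * (3 + 0)) =
          (∑ i : Option (Fin l), (ub l 1 A Y i * (V l A)⁻¹ ^ 3 * C ((pr ^ 6)⁻¹)) ^ 3) * C (pr ^ 18) := by
        rw [Finset.sum_mul, Finset.sum_mul]
        exact Finset.sum_congr rfl fun i _ => h4 i
      rw [h6]
      have h7 : ∑ i : Option (Fin l), (ub l 1 A Y i * (V l A)⁻¹ ^ 3 * C ((pr ^ 6)⁻¹)) ^ 3 =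
          -(3 * y) := by
        linear_combination -he
      rw [h7]
      linear_combination -y * hc3
    rw [h5]
    have h8 : -y = (tt (V l A) (V l Y) - tt (V l A) (V l Y)) - y := by ring
    rw [h8]
    exact Ig_sub (Ig_sub Ig_t Ig_t) hy
  rw [hq] at key ⊢
  have h9 : O.valuation ((q : ℚ) : ℂ) ≤ O.valuation pr ^ (6 * 5) := by
    rw [← map_pow]
    exact key
  refine (v_rat h3 q 5 h9).trans (le_of_eq ?_)
  rw [← map_pow]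
  norm_num

end Pool.Agent.Lib.MP_06b9d2_tls
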