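import Pool.Agent.Lib.MP_06b9d2_tls.Mat3

/-!
Module TLS-Pc. The coefficients `pc` of the power sums, and the matrix in terms of `pc`.

Write `x_i = br l e i A`, `y_i = br l e i Y`, `β_i = x_i ^ 3 - y_i ^ 3`, `γ_i = y_i ^ 3`, `B = V l A ^ 3 - V l Y ^ 3`, `G = V l Y ^ 3`, `c = cl l e`.
`mo_br`: `∑ i, x_i ^ a β_i ^ m γ_i ^ n = ∑_{j ≤ m + n} M a (m + n) j n • V l A ^ a B ^ (m + n - j) G ^ j` (`br_sum` for the homogeneous polynomial of `moX`, `hM.eq` with
`N = m + n`, `s = n`, `V_mul`, ...).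
`pc_sum`: `ub = (β_i - e c B) / 3`, `vb = (γ_i - c G) / 3`: expand `(β_i - e c B) ^ m` and `(γ_i - c G) ^ n` by the binomial theorem, use `mo_br` for `(i, j)` in the place of
`(m, n)`: the term is `M a (i + j) r' j • V l A ^ a B ^ (i + j - r') G ^ r' * B ^ (m - i) G ^ (n - j)`, and `r = r' + n - j`. (Reindex `r' = r + j - n`, terms with
`r' > i + j` vanish by `hM.out`.)
`pc_mat`: conversely `β_i = e c B + 3 ub`, `γ_i = c G + 3 vb`: `∑ i, x_i ^ a β_i ^ (N - s) γ_i ^ s =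
∑_{m ≤ N - s, n ≤ s} C(N - s, m) C(s, n) (e c B) ^ (N - s - m) (c G) ^ (s - n) 3 ^ (m + n) ∑ i, x_i ^ a ub ^ m vb ^ n`, insert `pc_sum`, compare the coefficients of
`V l A ^ a B ^ (N - j) G ^ j` (`moX_ind` with `V_inj`): `j = s - n + r`. `(e c) ^ (N - s - m) c ^ (s - n) = (e c) ^ N e ^ s (e / c) ^ m (1 / c) ^ n` (`e ^ 2 = 1`, `c ≠ 0`). Alternatively a purely algebraic
proof by the binomial inversion. `pc_sym`: `hM.sym` in the definition of `pc` and `i + j - (r + j - n) = (m + n - r) + i - m` (the roles of `(i, m)` and `(j, n)` are exchanged).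
`pc_deg`: `hM.out`. `pc_rat`: `mat_int`, `mat_int'`, `hM.out` and `c`, `e` are rational.
-/

namespace Pool.Agent.Lib.MP_06b9d2_tls

open PowerSeries Pool.Agent.L1

private lemma pl_two {l : ℕ} {e s0 : ℂ} (hl : PL l e s0) : 2 ≤ l := hl.1.two_le

theorem e_sq {l : ℕ} {e s0 : ℂ} (hl : PL l e s0) : e ^ 2 = 1 := by
  rcases hl.2 with ⟨_, he, _⟩ | ⟨_, he, _⟩ <;> rw [he] <;> norm_num

private lemma pl_rat {l : ℕ} {e s0 : ℂ} (hl : PL l e s0) : e = 1 ∨ e = -1 := by
  rcases hl.2 with ⟨_, he, _⟩ | ⟨_, he, _⟩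
  · exact Or.inl he
  · exact Or.inr he

theorem cl_ne {l : ℕ} {e s0 : ℂ} (hl : PL l e s0) : cl l e ≠ 0 := by
  have h2 := pl_two hl
  have hl0 : (l : ℂ) ≠ 0 := by
    have : l ≠ 0 := by omega
    exact_mod_cast this
  have hl1 : (l : ℂ) + 1 ≠ 0 := by
    have : l + 1 ≠ 0 := by omega
    exact_mod_cast this
  have hq : (l : ℂ) ^ 2 + e ≠ 0 := by
    have h4 : 4 ≤ l ^ 2 := by nlinarith
    rcases pl_rat hl with he | he
    · rw [he]
      have : l ^ 2 + 1 ≠ 0 := by omega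
      exact_mod_cast this
    · rw [he]
      intro h0
      have h1 : (l : ℂ) ^ 2 = 1 := by linear_combination h0
      have h3 : l ^ 2 = 1 := by exact_mod_cast h1
      omega
  unfold cl
  exact div_ne_zero (mul_ne_zero hl0 hq) hl1

private lemma V_moX {l : ℕ} (hl : l ≠ 0) (A Y : ℂ⟦X⟧) (a N j : ℕ) :
    V l (moX A Y a N j) = moX (V l A) (V l Y) a N j := by
  unfold moX
  rw [V_mul hl, V_mul hl, V_pow hl, V_pow hl, V_pow hl, V_sub hl, V_pow hl, V_pow hl]

theorem mo_br {A Y : ℂ⟦X⟧} (h : Core A Y) {l : ℕ} {e s0 : ℂ} (hl : PL l e s0)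
    {M : ℕ → ℕ → ℕ → ℕ → ℂ} (hM : MatD l e A Y M) (a m n : ℕ) [Fact (a < 3)] :
    ∑ i : Option (Fin l), br l e i A ^ a * (br l e i A ^ 3 - br l e i Y ^ 3) ^ m * (br l e i Y ^ 3) ^ n =
      ∑ j ∈ Finset.range (m + n + 1), M a (m + n) j n • moX (V l A) (V l Y) a (m + n) j := by
  have hl0 : l ≠ 0 := by have := pl_two hl; omega
  set P : MvPolynomial (Fin 2) ℂ :=
    MvPolynomial.X 0 ^ a * (MvPolynomial.X 0 ^ 3 - MvPolynomial.X 1 ^ 3) ^ m * (MvPolynomial.X 1 ^ 3) ^ n with hP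
  have hX : ∀ i : Fin 2, (MvPolynomial.X i : MvPolynomial (Fin 2) ℂ).IsHomogeneous 1 := fun i =>
    MvPolynomial.isHomogeneous_X ℂ i
  have h3 : ∀ i : Fin 2, ((MvPolynomial.X i : MvPolynomial (Fin 2) ℂ) ^ 3).IsHomogeneous 3 := fun i => by
    simpa using (hX i).pow 3
  have hhom : P.IsHomogeneous (3 * (m + n) + a) := by
    have h1 : P.IsHomogeneous (1 * a + 3 * m + 3 * n) :=
      (((hX 0).pow a).mul (((h3 0).sub (h3 1)).pow m)).mul ((h3 1).pow n)
    have h2 : 1 * a + 3 * m + 3 * n = 3 * (m + n) + a := by ring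
    rwa [h2] at h1
  have hev : ∀ F G : ℂ⟦X⟧, MvPolynomial.aeval ![F, G] P = F ^ a * (F ^ 3 - G ^ 3) ^ m * (G ^ 3) ^ n := by
    intro F G
    rw [hP]
    simp [map_mul, map_pow, map_sub, MvPolynomial.aeval_X]
  have h1 := br_sum l hl0 e (3 * (m + n) + a) A Y P hhom
  simp only [hev] at h1
  rw [h1]
  have h2 : A ^ a * (A ^ 3 - Y ^ 3) ^ m * (Y ^ 3) ^ n = moX A Y a (m + n) n := by
    unfold moX
    rw [Nat.add_sub_cancel]
  rw [h2, hM.eq a (m + n) n (by omega), V_sum hl0]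
  refine Finset.sum_congr rfl fun j _ => ?_
  rw [V_smul hl0, V_moX hl0]

private lemma expand_aux (x β γ B G : ℂ⟦X⟧) (t p q : ℂ) (m n : ℕ) :
    x * (t • (β + p • B)) ^ m * (t • (γ + q • G)) ^ n =
      ∑ i ∈ Finset.range (m + 1), ∑ j ∈ Finset.range (n + 1),
        (t ^ (m + n) * ((m.choose i : ℂ) * (n.choose j : ℂ) * p ^ (m - i) * q ^ (n - j))) •
          ((x * β ^ i * γ ^ j) * (B ^ (m - i) * G ^ (n - j))) := by
  have h1 : (β + p • B) ^ m = ∑ i ∈ Finset.range (m + 1),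
      C (p ^ (m - i) * (m.choose i : ℂ)) * (β ^ i * B ^ (m - i)) := by
    rw [add_pow]
    refine Finset.sum_congr rfl fun i _ => ?_
    rw [PowerSeries.smul_eq_C_mul, mul_pow, map_mul, map_pow, map_natCast]
    ring
  have h2 : (γ + q • G) ^ n = ∑ j ∈ Finset.range (n + 1),
      C (q ^ (n - j) * (n.choose j : ℂ)) * (γ ^ j * G ^ (n - j)) := by
    rw [add_pow]
    refine Finset.sum_congr rfl fun i _ => ?_
    rw [PowerSeries.smul_eq_C_mul, mul_pow, map_mul, map_pow, map_natCast]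
    ring
  have h3 : x * (t • (β + p • B)) ^ m * (t • (γ + q • G)) ^ n =
      C (t ^ (m + n)) * x * ((β + p • B) ^ m * (γ + q • G) ^ n) := by
    have ht : ∀ Z : ℂ⟦X⟧, t • Z = C t * Z := fun Z => PowerSeries.smul_eq_C_mul Z t
    rw [ht, ht, mul_pow, mul_pow, map_pow, pow_add]
    ring
  rw [h3, h1, h2, Finset.sum_mul_sum, Finset.mul_sum]
  refine Finset.sum_congr rfl fun i _ => ?_
  rw [Finset.mul_sum]
  refine Finset.sum_congr rfl fun j _ => ?_
  rw [PowerSeries.smul_eq_C_mul]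
  simp only [map_mul]
  ring

private lemma sum3 (s t u : Finset ℕ) (f : ℕ → ℕ → ℕ → ℂ⟦X⟧) :
    ∑ p ∈ s, ∑ q ∈ t, ∑ r ∈ u, f p q r = ∑ r ∈ u, ∑ p ∈ s, ∑ q ∈ t, f p q r := by
  calc _ = ∑ p ∈ s, ∑ r ∈ u, ∑ q ∈ t, f p q r := Finset.sum_congr rfl (fun p _ => Finset.sum_comm)
    _ = _ := Finset.sum_comm

private lemma moX_shift (F G : ℂ⟦X⟧) (a m n i j r : ℕ) (hi : i ≤ m) (hj : j ≤ n) (hr : r ≤ i + j) :
    moX F G a (i + j) r * ((F ^ 3 - G ^ 3) ^ (m - i) * (G ^ 3) ^ (n - j)) =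
      moX F G a (m + n) (n - j + r) := by
  unfold moX
  have h1 : m + n - (n - j + r) = (i + j - r) + (m - i) := by omega
  rw [h1, pow_add, pow_add (G ^ 3)]
  ring

private lemma sum_shift (F G : ℂ⟦X⟧) (a m n i j : ℕ) (hi : i ≤ m) (hj : j ≤ n) (f : ℕ → ℂ)
    (hf : ∀ r, i + j < r → f r = 0) :
    (∑ r ∈ Finset.range (i + j + 1), f r • moX F G a (i + j) r) *
        ((F ^ 3 - G ^ 3) ^ (m - i) * (G ^ 3) ^ (n - j)) =
      ∑ r ∈ Finset.range (m + n + 1), (if n ≤ r + j then f (r + j - n) else 0) • moX F G a (m + n) r := by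
  have h1 : m + n + 1 = (n - j) + (m + j + 1) := by omega
  rw [h1, Finset.sum_range_add _ (n - j) (m + j + 1), Finset.sum_mul]
  have h2 : ∑ x ∈ Finset.range (n - j), (if n ≤ x + j then f (x + j - n) else 0) • moX F G a (m + n) x = 0 := by
    refine Finset.sum_eq_zero fun x hx => ?_
    rw [Finset.mem_range] at hx
    rw [if_neg (by omega), zero_smul]
  rw [h2, zero_add]
  have h3 : Finset.range (i + j + 1) ⊆ Finset.range (m + j + 1) := by
    intro x hx
    rw [Finset.mem_range] at hx ⊢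
    omega
  rw [← Finset.sum_subset h3]
  · refine Finset.sum_congr rfl fun r hr => ?_
    rw [Finset.mem_range] at hr
    rw [if_pos (by omega), smul_mul_assoc, moX_shift F G a m n i j r hi hj (by omega)]
    congr 2
    omega
  · intro x hx hx'
    rw [Finset.mem_range] at hx hx'
    rw [if_pos (by omega)]
    have h4 : n - j + x + j - n = x := by omega
    rw [h4, hf x (by omega), zero_smul]

theorem pc_sum {A Y : ℂ⟦X⟧} (h : Core A Y) {l : ℕ} {e s0 : ℂ} (hl : PL l e s0)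
    {M : ℕ → ℕ → ℕ → ℕ → ℂ} (hM : MatD l e A Y M) (a m n : ℕ) [Fact (a < 3)] :
    ∑ i : Option (Fin l), br l e i A ^ a * ub l e A Y i ^ m * vb l e Y i ^ n =
      ∑ r ∈ Finset.range (m + n + 1), pc e (cl l e) M a m n r • moX (V l A) (V l Y) a (m + n) r := by
  set c := cl l e with hc
  set F := V l A with hF
  set G := V l Y with hG
  -- expansion of a single summand
  have hexp : ∀ i : Option (Fin l), br l e i A ^ a * ub l e A Y i ^ m * vb l e Y i ^ n =
      ∑ p ∈ Finset.range (m + 1), ∑ q ∈ Finset.range (n + 1),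
        ((1 / 3 : ℂ) ^ (m + n) * ((m.choose p : ℂ) * (n.choose q : ℂ) * (-(e * c)) ^ (m - p) * (-c) ^ (n - q))) •
          ((br l e i A ^ a * (br l e i A ^ 3 - br l e i Y ^ 3) ^ p * (br l e i Y ^ 3) ^ q) *
            ((F ^ 3 - G ^ 3) ^ (m - p) * (G ^ 3) ^ (n - q))) := by
    intro i
    have hu : ub l e A Y i = (1 / 3 : ℂ) • ((br l e i A ^ 3 - br l e i Y ^ 3) + (-(e * c)) • (F ^ 3 - G ^ 3)) := by
      unfold ub
      rw [neg_smul, ← sub_eq_add_neg]
    have hv : vb l e Y i = (1 / 3 : ℂ) • ((br l e i Y ^ 3) + (-c) • (G ^ 3)) := by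
      unfold vb
      rw [neg_smul, ← sub_eq_add_neg]
    rw [hu, hv]
    exact expand_aux _ _ _ _ _ _ _ _ m n
  simp only [hexp]
  rw [Finset.sum_comm]
  have hstep : ∀ p ∈ Finset.range (m + 1),
      ∑ i : Option (Fin l), ∑ q ∈ Finset.range (n + 1),
        ((1 / 3 : ℂ) ^ (m + n) * ((m.choose p : ℂ) * (n.choose q : ℂ) * (-(e * c)) ^ (m - p) * (-c) ^ (n - q))) •
          ((br l e i A ^ a * (br l e i A ^ 3 - br l e i Y ^ 3) ^ p * (br l e i Y ^ 3) ^ q) *
            ((F ^ 3 - G ^ 3) ^ (m - p) * (G ^ 3) ^ (n - q))) =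
      ∑ q ∈ Finset.range (n + 1), ∑ r ∈ Finset.range (m + n + 1),
        ((1 / 3 : ℂ) ^ (m + n) * ((m.choose p : ℂ) * (n.choose q : ℂ) * (-(e * c)) ^ (m - p) * (-c) ^ (n - q) *
          (if n ≤ r + q then M a (p + q) (r + q - n) q else 0))) • moX F G a (m + n) r := by
    intro p hp
    rw [Finset.mem_range] at hp
    rw [Finset.sum_comm]
    refine Finset.sum_congr rfl fun q hq => ?_
    rw [Finset.mem_range] at hq
    rw [← Finset.smul_sum, ← Finset.sum_mul, mo_br h hl hM a p q, ← hF, ← hG,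
      sum_shift F G a m n p q (by omega) (by omega) (fun r => M a (p + q) r q)
        (fun r hr => hM.out a (p + q) r q hr), Finset.smul_sum]
    refine Finset.sum_congr rfl fun r _ => ?_
    rw [smul_smul]
    congr 1
    ring
  rw [Finset.sum_congr rfl hstep]
  have hc1 : ∑ p ∈ Finset.range (m + 1), ∑ q ∈ Finset.range (n + 1), ∑ r ∈ Finset.range (m + n + 1),
        ((1 / 3 : ℂ) ^ (m + n) * ((m.choose p : ℂ) * (n.choose q : ℂ) * (-(e * c)) ^ (m - p) * (-c) ^ (n - q) *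
          (if n ≤ r + q then M a (p + q) (r + q - n) q else 0))) • moX F G a (m + n) r =
      ∑ r ∈ Finset.range (m + n + 1), ∑ p ∈ Finset.range (m + 1), ∑ q ∈ Finset.range (n + 1),
        ((1 / 3 : ℂ) ^ (m + n) * ((m.choose p : ℂ) * (n.choose q : ℂ) * (-(e * c)) ^ (m - p) * (-c) ^ (n - q) *
          (if n ≤ r + q then M a (p + q) (r + q - n) q else 0))) • moX F G a (m + n) r := by
    exact sum3 _ _ _ _
  rw [hc1]
  refine Finset.sum_congr rfl fun r _ => ?_
  unfold pc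
  rw [Finset.mul_sum, Finset.sum_smul]
  refine Finset.sum_congr rfl fun p _ => ?_
  rw [Finset.mul_sum, Finset.sum_smul]

theorem pc_sym {A Y : ℂ⟦X⟧} {l : ℕ} {e : ℂ} (he : e ^ 2 = 1) (c : ℂ)
    {M : ℕ → ℕ → ℕ → ℕ → ℂ} (hM : MatD l e A Y M) (a m n r : ℕ) [Fact (a < 3)] (hr : r ≤ m + n) :
    pc e c M a n m (m + n - r) = e ^ (a + m + n) * pc e c M a m n r := by
  unfold pc
  rw [Finset.sum_comm, add_comm n m, mul_left_comm]
  congr 1
  rw [Finset.mul_sum]
  refine Finset.sum_congr rfl fun i hi => ?_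
  rw [Finset.mul_sum]
  refine Finset.sum_congr rfl fun j hj => ?_
  rw [Finset.mem_range] at hi hj
  have key : (-(e * c)) ^ (n - j) * (-c) ^ (m - i) *
      (if m ≤ m + n - r + i then M a (j + i) (m + n - r + i - m) i else 0) =
      e ^ (a + m + n) * ((-(e * c)) ^ (m - i) * (-c) ^ (n - j) *
      (if n ≤ r + j then M a (i + j) (r + j - n) j else 0)) := by
    have hji : j + i = i + j := add_comm j i
    rw [hji]
    by_cases h1 : m ≤ m + n - r + i
    · rw [if_pos h1]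
      by_cases h2 : n ≤ r + j
      · rw [if_pos h2]
        have hR : r + j - n ≤ i + j := by omega
        have hs := hM.sym a (i + j) (r + j - n) j hR (by omega)
        have e1 : i + j - (r + j - n) = m + n - r + i - m := by omega
        have e2 : i + j - j = i := by omega
        rw [e1, e2] at hs
        rw [hs]
        have h3 : -(e * c) = e * (-c) := by ring
        rw [h3, mul_pow, mul_pow]
        have h4 : e ^ (n - j) * e ^ (a + (i + j)) = e ^ (a + m + n) * e ^ (m - i) := by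
          rw [← pow_add e (a + m + n)]
          have h5 : a + m + n + (m - i) = (n - j + (a + (i + j))) + 2 * (m - i) := by omega
          rw [h5, pow_add e _ (2 * (m - i)), pow_mul, he, one_pow, mul_one, pow_add e (n - j)]
        linear_combination ((-c) ^ (n - j) * (-c) ^ (m - i) * M a (i + j) (r + j - n) j) * h4
      · rw [if_neg h2]
        rw [hM.out a (i + j) (m + n - r + i - m) i (by omega)]
        ring
    · rw [if_neg h1]
      by_cases h2 : n ≤ r + j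
      · rw [if_pos h2, hM.out a (i + j) (r + j - n) j (by omega)]
        ring
      · rw [if_neg h2]
        ring
  linear_combination ((n.choose j : ℂ) * (m.choose i : ℂ)) * key

theorem pc_deg {A Y : ℂ⟦X⟧} {l : ℕ} {e : ℂ} (c : ℂ)
    {M : ℕ → ℕ → ℕ → ℕ → ℂ} (hM : MatD l e A Y M) (a m n r : ℕ) (hr : m + n < r) :
    pc e c M a m n r = 0 := by
  unfold pc
  rw [Finset.sum_eq_zero, mul_zero]
  intro i hi
  refine Finset.sum_eq_zero fun j hj => ?_
  rw [Finset.mem_range] at hi hj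
  rw [if_pos (by omega), hM.out a (i + j) (r + j - n) j (by omega), mul_zero]

private noncomputable def RR : Subring ℂ := (algebraMap ℚ ℂ).range

private lemma mem_RR (q : ℚ) : (q : ℂ) ∈ RR := ⟨q, rfl⟩

private lemma mem_RR_int (z : ℤ) : (z : ℂ) ∈ RR := by
  have h1 := mem_RR (z : ℚ)
  rwa [Rat.cast_intCast] at h1

private lemma mem_RR_nat (z : ℕ) : (z : ℂ) ∈ RR := by
  have h1 := mem_RR (z : ℚ)
  rwa [Rat.cast_natCast] at h1

theorem pc_rat {A Y : ℂ⟦X⟧} (h : Core A Y) {l : ℕ} {e s0 : ℂ} (hl : PL l e s0)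
    {M : ℕ → ℕ → ℕ → ℕ → ℂ} (hM : MatD l e A Y M) (a m n r : ℕ) [Fact (a < 3)] :
    ∃ q : ℚ, pc e (cl l e) M a m n r = (q : ℂ) := by
  obtain ⟨qe, hqe⟩ : ∃ q : ℚ, e = (q : ℂ) := by
    rcases pl_rat hl with he | he
    · exact ⟨1, by rw [he]; norm_num⟩
    · exact ⟨-1, by rw [he]; norm_num⟩
  have he : e ∈ RR := by rw [hqe]; exact mem_RR qe
  have hc : cl l e ∈ RR := by
    have h1 : cl l e = (((l : ℚ) * ((l : ℚ) ^ 2 + qe) / ((l : ℚ) + 1) : ℚ) : ℂ) := by
      unfold cl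
      rw [hqe]
      push_cast
      ring
    rw [h1]
    exact mem_RR _
  have h3 : (1 / 3 : ℂ) ∈ RR := by
    have h1 : (1 / 3 : ℂ) = ((1 / 3 : ℚ) : ℂ) := by push_cast; ring
    rw [h1]
    exact mem_RR _
  have h27 : (27 : ℂ) ∈ RR := by
    exact mem_RR_nat 27
  have hMr : ∀ i j R : ℕ, M a (i + j) R j ∈ RR := by
    intro i j R
    by_cases hR : R ≤ i + j
    · rcases le_total R j with h1 | h1
      · obtain ⟨z, hz⟩ := mat_int h hl hM a (i + j) R j h1 (by omega)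
        rw [hz]
        exact RR.mul_mem (RR.pow_mem h27 _) (mem_RR_int z)
      · obtain ⟨z, hz⟩ := mat_int' h hl hM a (i + j) R j h1 hR
        rw [hz]
        exact RR.mul_mem (RR.pow_mem h27 _) (mem_RR_int z)
    · rw [hM.out a (i + j) R j (by omega)]
      exact RR.zero_mem
  have hmem : pc e (cl l e) M a m n r ∈ RR := by
    unfold pc
    refine RR.mul_mem (RR.pow_mem h3 _) (RR.sum_mem fun i _ => RR.sum_mem fun j _ => ?_)
    refine RR.mul_mem (RR.mul_mem (RR.mul_mem (RR.mul_mem (mem_RR_nat _) (mem_RR_nat _))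
      (RR.pow_mem (RR.neg_mem (RR.mul_mem he hc)) _)) (RR.pow_mem (RR.neg_mem hc) _)) ?_
    split_ifs
    · exact hMr _ _ _
    · exact RR.zero_mem
  obtain ⟨q, hq⟩ := hmem
  exact ⟨q, hq.symm⟩

end Pool.Agent.Lib.MP_06b9d2_tls
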