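import Pool.Agent.Lib.MP_06b9d2_tls.Pc
import Pool.Agent.Lib.MP_06b9d2_tls.Igc
import Pool.Agent.Lib.MP_06b9d2_tls.Igd
import Pool.Agent.Lib.MP_06b9d2_tls.Dehom

/-!
Module TLS-PcB. The coefficients `pc` are divisible by `3` (`e = -1`), by `pr ^ (6 (m + n))` (`e = 1`).

`t = tt (V l A) (V l Y)` (`constantCoeff t = 0`, `t ≠ 0`). `tri`: `moX (V l A) (V l Y) a K r * (V l A)⁻¹ ^ (a + 3 K) = (1 - t ^ 3) ^ (K - r) t ^ (3 r)` for `r ≤ K`. So `pc_sum` times `(V l A)⁻¹ ^ (a + 3 (m + n))` is `f(t)`,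
`f = ∑_r pc_r (1 - T ^ 3) ^ (m + n - r) T ^ (3 r)`. If `λ⁻¹ f(t)` is integral then all coefficients of `λ⁻¹ f` have valuation `≤ 1` (`Ig_desc`), and then all `λ⁻¹ pc_r` (induction on `r`: the coefficient of `T ^ (3 r)` of `f` is `pc_r` plus an integral
combination of the `pc_{r'}`, `r' < r`). (`pc_bd`.)
`e = 1`: `λ = pr ^ (6 (m + n))`: each summand `x ^ a u ^ m v ^ n` of the left side of `pc_sum` times the power of `(V l A)⁻¹` is `pr ^ (6 (m + n))` times an integral element (`intP_x`, `intP_u`, `intP_v`).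
`pcP`: with `pc_rat` and `v_rat` (`k = m + n`). `e = -1`: `λ = 3`: `tay` in the ring `S` of the integral elements (a subring of `ℂ⟦X⟧`: `Ig_add`, `Ig_mul`, ..; construct it as `Subring`), `ρ = C (pr ^ 6)`, `ρ ^ 2 = 3`,
`x i = br i A * (V l A)⁻¹`, ...: `∑ x i = 0`: `br_sum` for `P = X 0`, `hM.eq 1 0 0` and `mat_00`: `M 1 0 0 0 = l + e l = 0`; `∑ u i = ∑ v i = 0`: `pc_sum` for `(0, 1, 0)`, `(0, 0, 1)`: `pc_m00` (`1 - e c = 1 + c = l ^ 2 - l + 1`, `(e l) ^ 3 - e c = - l (1 + c)`: `l - l = 0`),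
`pc_101`, `pc_sym`. `card = l + 1 = 3 (..)`.
-/

namespace Pool.Agent.Lib.MP_06b9d2_tls

open PowerSeries Pool.Agent.L1

private theorem PcB_V0 (l : ℕ) (f : ℂ⟦X⟧) : constantCoeff (V l f) = constantCoeff f := by
  rw [← PowerSeries.coeff_zero_eq_constantCoeff_apply, ← PowerSeries.coeff_zero_eq_constantCoeff_apply]
  unfold V
  rw [PowerSeries.coeff_mk, if_pos (dvd_zero l), Nat.zero_div]

private theorem PcB_moX {A Y B : ℂ⟦X⟧} (hAB : A * B = 1) (a K r : ℕ) (hr : r ≤ K) :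
    moX A Y a K r * B ^ (a + 3 * K) = (1 - (Y * B) ^ 3) ^ (K - r) * ((Y * B) ^ 3) ^ r := by
  obtain ⟨d, rfl⟩ := Nat.exists_eq_add_of_le hr
  have h1 : r + d - r = d := by omega
  unfold moX
  rw [h1]
  have h2 : B ^ (a + 3 * (r + d)) = B ^ a * (B ^ 3) ^ d * (B ^ 3) ^ r := by
    rw [← pow_mul, ← pow_mul, ← pow_add, ← pow_add]
    congr 1
    ring
  have h3 : A ^ a * (A ^ 3 - Y ^ 3) ^ d * (Y ^ 3) ^ r * B ^ (a + 3 * (r + d)) =
      (A * B) ^ a * ((A ^ 3 - Y ^ 3) * B ^ 3) ^ d * (Y ^ 3 * B ^ 3) ^ r := by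
    rw [h2, mul_pow, mul_pow, mul_pow]
    ring
  have h4 : (A ^ 3 - Y ^ 3) * B ^ 3 = 1 - (Y * B) ^ 3 := by
    have : (A * B) ^ 3 = 1 := by rw [hAB, one_pow]
    linear_combination this
  rw [h3, hAB, one_pow, one_mul, h4, mul_pow Y B 3]

private theorem PcB_int (N j : ℕ) : ∃ z : ℤ, ((1 - Polynomial.X : Polynomial ℂ) ^ N).coeff j = (z : ℂ) := by
  refine ⟨((1 - Polynomial.X : Polynomial ℤ) ^ N).coeff j, ?_⟩
  have h : ((1 - Polynomial.X : Polynomial ℂ) ^ N) =
      Polynomial.map (Int.castRingHom ℂ) ((1 - Polynomial.X : Polynomial ℤ) ^ N) := by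
    simp
  rw [h, Polynomial.coeff_map]
  rfl

private theorem PcB_tri (O : ValuationSubring ℂ) (K : ℕ) (p : ℕ → ℂ)
    (hg : ∀ r, (∑ s ∈ Finset.range (K + 1), Polynomial.C (p s) * ((1 - Polynomial.X) ^ (K - s) *
      Polynomial.X ^ s) : Polynomial ℂ).coeff r ∈ O) (r : ℕ) (hr : r ≤ K) : p r ∈ O := by
  induction r using Nat.strong_induction_on with
  | _ r ih =>
    have h1 := hg r
    rw [Polynomial.finsetSum_coeff] at h1
    have hterm : ∀ s, (Polynomial.C (p s) * ((1 - Polynomial.X) ^ (K - s) *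
        Polynomial.X ^ s) : Polynomial ℂ).coeff r =
        if s ≤ r then p s * ((1 - Polynomial.X : Polynomial ℂ) ^ (K - s)).coeff (r - s) else 0 := by
      intro s
      rw [Polynomial.coeff_C_mul, Polynomial.coeff_mul_X_pow']
      split_ifs <;> simp
    simp only [hterm] at h1
    have hmem : r ∈ Finset.range (K + 1) := by
      rw [Finset.mem_range]; omega
    rw [← Finset.add_sum_erase _ _ hmem, if_pos le_rfl, Nat.sub_self] at h1
    have h0 : ((1 - Polynomial.X : Polynomial ℂ) ^ (K - r)).coeff 0 = 1 := by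
      rw [Polynomial.coeff_zero_eq_eval_zero]
      simp
    rw [h0, mul_one] at h1
    have h2 : ∑ s ∈ (Finset.range (K + 1)).erase r,
        (if s ≤ r then p s * ((1 - Polynomial.X : Polynomial ℂ) ^ (K - s)).coeff (r - s) else 0) ∈ O := by
      refine sum_mem fun s hs => ?_
      rw [Finset.mem_erase, Finset.mem_range] at hs
      split_ifs with hsr
      · obtain ⟨z, hz⟩ := PcB_int (K - s) (r - s)
        rw [hz]
        exact mul_mem (ih s (lt_of_le_of_ne hsr hs.1) (by omega)) (intCast_mem O z)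
      · exact zero_mem O
    have h3 := sub_mem h1 h2
    rwa [add_sub_cancel_right] at h3

theorem pc_bd {A Y : ℂ⟦X⟧} (h : Core A Y) {O : ValuationSubring ℂ} (h3 : O.valuation 3 < 1) {l : ℕ} {e s0 : ℂ}
    (hl : PL l e s0) {M : ℕ → ℕ → ℕ → ℕ → ℂ} (hM : MatD l e A Y M) (a m n : ℕ) [Fact (a < 3)] (la : ℂ) (hla : la ≠ 0)
    (hI : Ig O (tt (V l A) (V l Y)) ((∑ i : Option (Fin l), br l e i A ^ a * ub l e A Y i ^ m * vb l e Y i ^ n) *
      (V l A)⁻¹ ^ (a + 3 * (m + n)) * C la⁻¹)) (r : ℕ) :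
    O.valuation (pc e (cl l e) M a m n r) ≤ O.valuation la := by
  rcases Nat.lt_or_ge (m + n) r with hr | hr
  · rw [pc_deg (cl l e) hM a m n r hr, map_zero]
    exact zero_le'
  have hlp : l ≠ 0 := hl.1.ne_zero
  obtain ⟨A₁, κ, hA, hY, hA0, hκ0, hκ1⟩ := h.int
  have hcA : constantCoeff (V l A) = 1 := by
    rw [PcB_V0, hA, map_add, map_mul, map_one, ← PowerSeries.coeff_zero_eq_constantCoeff_apply
      (PowerSeries.map (Int.castRingHom ℂ) A₁), PowerSeries.coeff_map,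
      PowerSeries.coeff_zero_eq_constantCoeff_apply, hA0, map_zero, mul_zero, add_zero]
  have hAB : V l A * (V l A)⁻¹ = 1 := PowerSeries.mul_inv_cancel _ (by rw [hcA]; exact one_ne_zero)
  have hcY : constantCoeff (V l Y) = 0 := by
    rw [PcB_V0, hY, map_mul, ← PowerSeries.coeff_zero_eq_constantCoeff_apply
      (PowerSeries.map (Int.castRingHom ℂ) κ), PowerSeries.coeff_map,
      PowerSeries.coeff_zero_eq_constantCoeff_apply, hκ0, map_zero, mul_zero]
  have h30 : (3 : ℂ⟦X⟧) = C (3 : ℂ) := by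
    rw [map_ofNat]
  have hY1 : coeff 1 Y = 3 := by
    rw [hY, h30, PowerSeries.coeff_C_mul, PowerSeries.coeff_map, hκ1]
    simp
  have hVY : V l Y ≠ 0 := by
    intro h0
    have h1 : coeff l (V l Y) = 3 := by
      unfold V
      rw [PowerSeries.coeff_mk, if_pos (dvd_refl l), Nat.div_self (Nat.pos_of_ne_zero hlp), hY1]
    rw [h0, map_zero] at h1
    norm_num at h1
  have hAinv : (V l A)⁻¹ ≠ 0 := by
    intro h0
    rw [h0, mul_zero] at hAB
    exact zero_ne_one hAB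
  have ht0 : constantCoeff (tt (V l A) (V l Y)) = 0 := by
    unfold tt
    rw [map_mul, hcY, zero_mul]
  have ht : tt (V l A) (V l Y) ≠ 0 := mul_ne_zero hVY hAinv
  -- the polynomial
  let g : Polynomial ℂ := ∑ s ∈ Finset.range (m + n + 1), Polynomial.C (la⁻¹ * pc e (cl l e) M a m n s) *
    ((1 - Polynomial.X) ^ (m + n - s) * Polynomial.X ^ s)
  have hg : Polynomial.aeval (tt (V l A) (V l Y)) (Polynomial.expand ℂ 3 g) =
      (∑ i : Option (Fin l), br l e i A ^ a * ub l e A Y i ^ m * vb l e Y i ^ n) *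
      (V l A)⁻¹ ^ (a + 3 * (m + n)) * C la⁻¹ := by
    rw [Polynomial.expand_aeval, pc_sum h hl hM a m n, Finset.sum_mul, Finset.sum_mul]
    simp only [g, map_sum]
    refine Finset.sum_congr rfl fun s hs => ?_
    rw [Finset.mem_range] at hs
    have e1 : ∀ (T : ℂ⟦X⟧) (c : ℂ) (d s : ℕ), Polynomial.aeval T (Polynomial.C c *
        ((1 - Polynomial.X) ^ d * Polynomial.X ^ s)) = C c * ((1 - T) ^ d * T ^ s) := by
      intro T c d s
      rw [map_mul, Polynomial.aeval_C, map_mul, map_pow, map_pow, map_sub, map_one,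
        Polynomial.aeval_X]
      rfl
    rw [e1, smul_mul_assoc, PcB_moX hAB a (m + n) s (by omega), PowerSeries.smul_eq_C_mul, map_mul]
    unfold tt
    ring
  rw [← hg] at hI
  have hcoef : ∀ s, g.coeff s ∈ O := by
    intro s
    have h1 := Ig_desc ht0 ht _ hI (s * 3)
    rw [Polynomial.coeff_expand_mul (by norm_num)] at h1
    exact (O.valuation_le_one_iff _).1 h1
  have h4 := PcB_tri O (m + n) (fun s => la⁻¹ * pc e (cl l e) M a m n s) hcoef r hr
  have h5 : O.valuation (la⁻¹ * pc e (cl l e) M a m n r) ≤ 1 := (O.valuation_le_one_iff _).2 h4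
  have h6 : pc e (cl l e) M a m n r = la * (la⁻¹ * pc e (cl l e) M a m n r) := by
    rw [← mul_assoc, mul_inv_cancel₀ hla, one_mul]
  rw [h6, map_mul]
  exact mul_le_of_le_one_right' h5

end Pool.Agent.Lib.MP_06b9d2_tls
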