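import Mathlib

/-!
Board TLS, `l ≡ 8, 17` modulo `27`. A sum over branches is divisible by `ρ ^ 3`.

`G a`, `a < 3`, three families in a commutative ring `S`, whose differences are multiples of `ρ`. Modulo `ρ ^ 3` all monomials
in the `G a` are combinations of `1`, `G a`, `G a * G b`. So if the sums of these over `i` are divisible by `ρ ^ 3`, all sums are.
-/

namespace Pool.Agent.Lib.MP_06b9d2_tls

section

variable {S : Type*} [CommRing S] {ι : Type*}

/-- the generators -/
private def ty (ρ : S) (G : Fin 3 → ι → S) : Set (ι → S) :=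
  {g | g = 1 ∨ (∃ a, g = G a) ∨ (∃ a b, g = G a * G b) ∨ ∃ h : ι → S, g = ρ ^ 3 • h}

private theorem ty_mul {ρ : S} {G : Fin 3 → ι → S} (hG : ∀ a i j, ρ ∣ G a i - G a j) (i₀ : ι)
    {g : ι → S} (hg : g ∈ Submodule.span S (ty ρ G)) (c : Fin 3) :
    g * G c ∈ Submodule.span S (ty ρ G) := by
  have m1 : (1 : ι → S) ∈ Submodule.span S (ty ρ G) := Submodule.subset_span (Or.inl rfl)
  have mG : ∀ a, G a ∈ Submodule.span S (ty ρ G) := fun a =>
    Submodule.subset_span (Or.inr (Or.inl ⟨a, rfl⟩))
  have mGG : ∀ a b, G a * G b ∈ Submodule.span S (ty ρ G) := fun a b =>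
    Submodule.subset_span (Or.inr (Or.inr (Or.inl ⟨a, b, rfl⟩)))
  have mρ : ∀ h : ι → S, ρ ^ 3 • h ∈ Submodule.span S (ty ρ G) := fun h =>
    Submodule.subset_span (Or.inr (Or.inr (Or.inr ⟨h, rfl⟩)))
  induction hg using Submodule.span_induction with
  | mem g hg =>
    rcases hg with rfl | ⟨a, rfl⟩ | ⟨a, b, rfl⟩ | ⟨h, rfl⟩
    · rw [one_mul]
      exact mG c
    · exact mGG a c
    · choose p hp using fun i => hG a i i₀
      choose q hq using fun i => hG b i i₀
      choose r hr using fun i => hG c i i₀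
      have e : G a * G b * G c = ρ ^ 3 • (p * q * r) + G a i₀ • (G b * G c) + G b i₀ • (G a * G c) +
          G c i₀ • (G a * G b) - (G a i₀ * G b i₀) • G c - (G a i₀ * G c i₀) • G b -
          (G b i₀ * G c i₀) • G a + (G a i₀ * G b i₀ * G c i₀) • (1 : ι → S) := by
        funext i
        simp only [Pi.mul_apply, Pi.add_apply, Pi.sub_apply, Pi.smul_apply, smul_eq_mul, Pi.one_apply]
        have h1 : (G a i - G a i₀) * (G b i - G b i₀) * (G c i - G c i₀) = ρ ^ 3 * (p i * q i * r i) := by
          rw [hp, hq, hr]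
          ring
        linear_combination h1
      rw [e]
      exact Submodule.add_mem _ (Submodule.sub_mem _ (Submodule.sub_mem _ (Submodule.sub_mem _
        (Submodule.add_mem _ (Submodule.add_mem _ (Submodule.add_mem _ (mρ _)
          (Submodule.smul_mem _ _ (mGG b c))) (Submodule.smul_mem _ _ (mGG a c)))
          (Submodule.smul_mem _ _ (mGG a b))) (Submodule.smul_mem _ _ (mG c)))
          (Submodule.smul_mem _ _ (mG b))) (Submodule.smul_mem _ _ (mG a))) (Submodule.smul_mem _ _ m1)
    · rw [smul_mul_assoc]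
      exact mρ _
  | zero =>
    rw [zero_mul]
    exact Submodule.zero_mem _
  | add x y _ _ hx hy =>
    rw [add_mul]
    exact Submodule.add_mem _ hx hy
  | smul r x _ hx =>
    rw [smul_mul_assoc]
    exact Submodule.smul_mem _ _ hx

theorem tay3 [Fintype ι] (ρ : S) (G : Fin 3 → ι → S) (hG : ∀ a i j, ρ ∣ G a i - G a j)
    (hc : ρ ^ 3 ∣ (Fintype.card ι : S)) (h1 : ∀ a, ρ ^ 3 ∣ ∑ i, G a i)
    (h2 : ∀ a b, ρ ^ 3 ∣ ∑ i, G a i * G b i) (a m n : ℕ) :
    ρ ^ 3 ∣ ∑ i, G 0 i ^ a * G 1 i ^ m * G 2 i ^ n := by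
  classical
  rcases isEmpty_or_nonempty ι with hE | ⟨⟨i₀⟩⟩
  · simp
  · have key : ∀ (g : ι → S), g ∈ Submodule.span S (ty ρ G) → ∀ (c : Fin 3) (k : ℕ),
        g * G c ^ k ∈ Submodule.span S (ty ρ G) := by
      intro g hg c k
      induction k with
      | zero => rwa [pow_zero, mul_one]
      | succ k ih =>
        rw [pow_succ, ← mul_assoc]
        exact ty_mul hG i₀ ih c
    have m1 : (1 : ι → S) ∈ Submodule.span S (ty ρ G) := Submodule.subset_span (Or.inl rfl)
    have h3 := key _ (key _ (key _ m1 0 a) 1 m) 2 n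
    have h4 : ∀ g : ι → S, g ∈ Submodule.span S (ty ρ G) → ρ ^ 3 ∣ ∑ i, g i := by
      intro g hg
      induction hg using Submodule.span_induction with
      | mem g hg =>
        rcases hg with rfl | ⟨a, rfl⟩ | ⟨a, b, rfl⟩ | ⟨h, rfl⟩
        · simpa using hc
        · exact h1 a
        · exact h2 a b
        · simp only [Pi.smul_apply, smul_eq_mul, ← Finset.mul_sum]
          exact Dvd.intro _ rfl
      | zero => simp
      | add x y _ _ hx hy =>
        simp only [Pi.add_apply, Finset.sum_add_distrib]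
        exact dvd_add hx hy
      | smul r x _ hx =>
        simp only [Pi.smul_apply, smul_eq_mul, ← Finset.mul_sum]
        exact Dvd.dvd.mul_left hx r
    have h5 := h4 _ h3
    simpa only [Pi.mul_apply, Pi.pow_apply, one_mul] using h5

end

end Pool.Agent.Lib.MP_06b9d2_tls
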