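import Pool.Agent.Lib.MP_06b9d2_tls.Six
import Pool.Agent.Lib.MP_06b9d2_tls.Tay3
import Pool.Agent.Lib.MP_06b9d2_tls.Low
import Pool.Agent.Lib.MP_06b9d2_tls.Cm
import Pool.Agent.Lib.MP_06b9d2_tls.IntMu
import Pool.Agent.Lib.MP_06b9d2_tls.PcB

/-!
Board TLS, `9 ∣ l + 1`. The coefficients `pc` are divisible by `9`.

As in TLS-PcJ with `tay3`: the sums of the `x_i ^ 2`, `x_i u_i`, `x_i v_i`, `u_i ^ 2`, `u_i v_i`, `v_i ^ 2` have coefficients
`pc` divisible by `9`: from `pc_m00`, `pc_dif`, `pc_201`, `six`, `cm6`. So `∑ x ^ a u ^ m v ^ n` is `ρ ^ 3` times an integral element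
(`ρ ^ 2 = 3`); the coefficients are rational, so divisible by `9`.
-/

namespace Pool.Agent.Lib.MP_06b9d2_tls

open PowerSeries Pool.Agent.L1

/-- the subring of the integral elements -/
private def p9S (O : ValuationSubring ℂ) (t : ℂ⟦X⟧) : Subring ℂ⟦X⟧ where
  carrier := {z | Ig O t z}
  mul_mem' := fun hx hy => Ig_mul hx hy
  one_mem' := by
    have h : Ig O t (C (1 : ℂ)) := Ig_C (by rw [map_one])
    rwa [map_one] at h
  add_mem' := fun hx hy => Ig_add hx hy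
  zero_mem' := by
    have h : Ig O t (C (0 : ℂ)) := Ig_C (by rw [map_zero]; exact zero_le)
    rwa [map_zero] at h
  neg_mem' := by
    intro x hx
    have h0 : Ig O t (C (0 : ℂ)) := Ig_C (by rw [map_zero]; exact zero_le)
    rw [map_zero] at h0
    have h := Ig_sub h0 hx
    rwa [zero_sub] at h

private theorem p9_cc {r : ℂ} (hr : r ≠ 0) : (C r : ℂ⟦X⟧) * C (r⁻¹) = 1 := by
  rw [← map_mul, mul_inv_cancel₀ hr, map_one]

private theorem p9_dvd {O : ValuationSubring ℂ} {t : ℂ⟦X⟧} {r : ℂ} (hr0 : r ≠ 0) (hr : Ig O t (C r))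
    {x y : ℂ⟦X⟧} (hx : Ig O t x) (hy : Ig O t y) (hd : Ig O t ((x - y) * C (r⁻¹))) :
    (⟨C r, hr⟩ : p9S O t) ∣ (⟨x, hx⟩ : p9S O t) - ⟨y, hy⟩ := by
  refine ⟨⟨_, hd⟩, ?_⟩
  apply Subtype.ext
  change x - y = C r * ((x - y) * C (r⁻¹))
  have := p9_cc hr0
  linear_combination (-(x - y)) * this

private theorem p9_moX {A Y B : ℂ⟦X⟧} (hAB : A * B = 1) (a K r : ℕ) (hr : r ≤ K) :
    moX A Y a K r * B ^ (a + 3 * K) = (1 - (Y * B) ^ 3) ^ (K - r) * ((Y * B) ^ 3) ^ r := by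
  obtain ⟨d, rfl⟩ := Nat.exists_eq_add_of_le hr
  have h1 : r + d - r = d := by omega
  unfold moX
  rw [h1]
  have h2 : B ^ (a + 3 * (r + d)) = B ^ a * (B ^ 3) ^ d * (B ^ 3) ^ r := by
    rw [← pow_mul, ← pow_mul, ← pow_add, ← pow_add]
    congr 1
    ring
  have h3 : A ^ a * (A ^ 3 - Y ^ 3) ^ d * (Y ^ 3) ^ r * B ^ (a + 3 * (r + d)) =
      (A * B) ^ a * ((A ^ 3 - Y ^ 3) * B ^ 3) ^ d * (Y ^ 3 * B ^ 3) ^ r := by
    rw [h2, mul_pow, mul_pow, mul_pow]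
    ring
  have h4 : (A ^ 3 - Y ^ 3) * B ^ 3 = 1 - (Y * B) ^ 3 := by
    have : (A * B) ^ 3 = 1 := by rw [hAB, one_pow]
    linear_combination this
  rw [h3, hAB, one_pow, one_mul, h4, mul_pow Y B 3]

/-- if the coefficients are divisible by `9` then the sum is `ρ ^ 3` times an integral element -/
private theorem p9_sum {A Y : ℂ⟦X⟧} (h : Core A Y) {O : ValuationSubring ℂ} (h3 : O.valuation 3 < 1) {l : ℕ}
    {s0 : ℂ} (hl : PL l (-1) s0) {M : ℕ → ℕ → ℕ → ℕ → ℂ} (hM : MatD l (-1) A Y M)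
    (hAB : V l A * (V l A)⁻¹ = 1) (a m n : ℕ) [Fact (a < 3)]
    (hc : ∀ r ≤ m + n, O.valuation (pc (-1) (cl l (-1)) M a m n r) ≤ O.valuation 9) :
    ∃ z : ℂ⟦X⟧, Ig O (tt (V l A) (V l Y)) z ∧
      ∑ i : Option (Fin l), (br l (-1) i A * (V l A)⁻¹) ^ a * (ub l (-1) A Y i * (V l A)⁻¹ ^ 3) ^ m *
        (vb l (-1) Y i * (V l A)⁻¹ ^ 3) ^ n = C (pr ^ 6) ^ 3 * z := by
  have hpr := (v_pr h3).2.2
  have hpr0 : pr ≠ 0 := fun h0 => hpr (by rw [h0, map_zero])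
  have h18 : (pr ^ 6) ^ 3 ≠ 0 := pow_ne_zero _ (pow_ne_zero _ hpr0)
  set W := (V l A)⁻¹ with hW
  set t := tt (V l A) (V l Y) with ht
  have htW : V l Y * W = t := rfl
  refine ⟨∑ r ∈ Finset.range (m + n + 1), C (pc (-1) (cl l (-1)) M a m n r * ((pr ^ 6) ^ 3)⁻¹) *
    ((1 - t ^ 3) ^ (m + n - r) * (t ^ 3) ^ r), ?_, ?_⟩
  · refine Ig_sum _ fun r hr => ?_
    have hr' : r ≤ m + n := Nat.lt_succ_iff.1 (Finset.mem_range.1 hr)
    have h1 : Ig O t 1 := by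
      have h : Ig O t (C (1 : ℂ)) := Ig_C (by rw [map_one])
      rwa [map_one] at h
    refine Ig_mul (Ig_C ?_) (Ig_mul (Ig_pow (Ig_sub h1 (Ig_pow Ig_t 3)) _) (Ig_pow (Ig_pow Ig_t 3) _))
    rw [map_mul, map_inv₀]
    rw [← div_eq_mul_inv]
    refine div_le_one_of_le₀ ((hc r hr').trans ?_) zero_le
    have e9 : (9 : ℂ) = pr ^ 24 := by
      have : pr ^ 24 = (pr ^ 12) ^ 2 := by ring
      rw [this, pr_pow]
      norm_num
    rw [e9, ← pow_mul, map_pow, map_pow]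
    exact pow_le_pow_of_le_one zero_le (v_pr h3).2.1.le (by norm_num)
  · have e1 : ∑ i : Option (Fin l), (br l (-1) i A * W) ^ a * (ub l (-1) A Y i * W ^ 3) ^ m *
        (vb l (-1) Y i * W ^ 3) ^ n =
        (∑ i : Option (Fin l), br l (-1) i A ^ a * ub l (-1) A Y i ^ m * vb l (-1) Y i ^ n) *
          W ^ (a + 3 * (m + n)) := by
      rw [Finset.sum_mul]
      refine Finset.sum_congr rfl fun i _ => ?_
      rw [mul_pow, mul_pow, mul_pow]
      ring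
    rw [e1, pc_sum h hl hM a m n, Finset.sum_mul, Finset.mul_sum]
    refine Finset.sum_congr rfl fun r hr => ?_
    have hr' : r ≤ m + n := Nat.lt_succ_iff.1 (Finset.mem_range.1 hr)
    have e2 : C (pr ^ 6) ^ 3 * C (pc (-1) (cl l (-1)) M a m n r * ((pr ^ 6) ^ 3)⁻¹) =
        (C (pc (-1) (cl l (-1)) M a m n r) : ℂ⟦X⟧) := by
      rw [← map_pow, ← map_mul]
      congr 1
      field_simp
    rw [smul_mul_assoc, p9_moX hAB a (m + n) r hr', htW, smul_eq_C_mul, ← mul_assoc (C (pr ^ 6) ^ 3), e2]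

private theorem p9_mul {O : ValuationSubring ℂ} {x : ℂ} (z : ℤ) (h : x = 9 * (z : ℂ)) :
    O.valuation x ≤ O.valuation 9 := by
  rw [h, map_mul]
  exact mul_le_of_le_one_right' ((O.valuation_le_one_iff _).2 (intCast_mem O z))

private theorem p9_zero {O : ValuationSubring ℂ} {x : ℂ} (h : x = 0) :
    O.valuation x ≤ O.valuation 9 := by
  rw [h, map_zero]
  exact zero_le

section

variable {A Y : ℂ⟦X⟧} {O : ValuationSubring ℂ} {l : ℕ} {s0 : ℂ} {M : ℕ → ℕ → ℕ → ℕ → ℂ}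

private theorem p9_cl (l : ℕ) : cl l (-1) = (l : ℂ) ^ 2 - l := by
  have hl1 : ((l : ℂ) + 1) ≠ 0 := by exact_mod_cast Nat.succ_ne_zero l
  unfold cl
  field_simp
  ring

private theorem p9_k (h9 : 9 ∣ l + 1) : ∃ k : ℤ, (l : ℂ) = 9 * (k : ℂ) - 1 := by
  obtain ⟨k, hk⟩ := h9
  refine ⟨k, ?_⟩
  have : (l : ℂ) + 1 = 9 * (k : ℂ) := by exact_mod_cast hk
  push_cast
  linear_combination this

/-- `M00 + M11` is divisible by `81` -/
private theorem p9_81 (h : Core A Y) (hl : PL l (-1) s0) (h9 : 9 ∣ l + 1) (hM : MatD l (-1) A Y M) :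
    ∃ z : ℤ, 11 * (M 0 2 0 0 + M 0 2 1 1) = 81 * (z : ℂ) := by
  obtain ⟨a, k, c, q⟩ := qd_ex h
  have hp : l.Prime := hl.1
  have h2 : l % 3 = 2 := by omega
  obtain ⟨y, hy⟩ := cm6 q l hp h2
  have h00 := mat_00 h hl hM 0 2
  have h11 := q_t h q hl hM 0
  obtain ⟨m, hm⟩ : (9 : ℤ) ∣ 1 + (l : ℤ) ^ 5 := by
    have h1 : (l : ℤ) ≡ -1 [ZMOD 9] := by
      unfold Int.ModEq
      omega
    have h2 := (h1.pow 5).add_left 1
    exact (Int.modEq_zero_iff_dvd).1 (h2.trans (by decide))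
  refine ⟨(l : ℤ) * (m + 3 * y), ?_⟩
  rw [pow_zero, one_mul] at h11
  rw [h00, ← h11]
  have e1 : (1 : ℂ) + (l : ℂ) ^ 5 = 9 * (m : ℂ) := by exact_mod_cast hm
  have e2 : 11 * ((coeff l ((a ^ 3 - 27 * c) * c) : ℤ) : ℂ) + 2 * (1 + (l : ℂ) ^ 5) =
      243 * (y : ℂ) := by exact_mod_cast hy
  push_cast
  linear_combination (l : ℂ) * e2 + 9 * (l : ℂ) * e1

private theorem p9_val {x : ℂ} (h3 : O.valuation 3 < 1) (n : ℤ) (hn : ¬ (3 : ℤ) ∣ n) (z : ℤ) (w : ℂ)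
    (h : (n : ℂ) * x = w * (z : ℂ)) : O.valuation x ≤ O.valuation w := by
  have h1 := congrArg O.valuation h
  rw [map_mul, MP_06b9d2_ssp.val_int h3 n hn, one_mul, map_mul] at h1
  rw [h1]
  exact mul_le_of_le_one_right' ((O.valuation_le_one_iff _).2 (intCast_mem O z))

/-- the quadratic sums -/
private theorem p9_200 (h : Core A Y) (hl : PL l (-1) s0) (h9 : 9 ∣ l + 1) (hM : MatD l (-1) A Y M)
    (r : ℕ) (hr : r ≤ 0 + 0) : O.valuation (pc (-1) (cl l (-1)) M 2 0 0 r) ≤ O.valuation 9 := by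
  obtain rfl : r = 0 := by omega
  obtain ⟨k, hk⟩ := p9_k h9
  refine p9_mul ((9 * k - 1) * k) ?_
  rw [pc_m00 h hl hM 2 0, hk]
  push_cast
  ring

private theorem p9_110' (h : Core A Y) (hl : PL l (-1) s0) (h9 : 9 ∣ l + 1) (hM : MatD l (-1) A Y M) :
    O.valuation (pc (-1) (cl l (-1)) M 1 1 0 0) ≤ O.valuation 9 := by
  obtain ⟨k, hk⟩ := p9_k h9
  refine p9_mul ((9 * k - 1) * k * (27 * k ^ 2 - (9 * k - 1))) ?_
  rw [pc_m00 h hl hM 1 1, p9_cl, hk]
  push_cast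
  ring

private theorem p9_110 (h : Core A Y) (hl : PL l (-1) s0) (h9 : 9 ∣ l + 1) (hM : MatD l (-1) A Y M)
    (r : ℕ) (hr : r ≤ 1 + 0) : O.valuation (pc (-1) (cl l (-1)) M 1 1 0 r) ≤ O.valuation 9 := by
  obtain rfl | rfl : r = 0 ∨ r = 1 := by omega
  · exact p9_110' h hl h9 hM
  · exact p9_zero (pc_101 h hl hM 1).1

private theorem p9_101 (h : Core A Y) (hl : PL l (-1) s0) (h9 : 9 ∣ l + 1) (hM : MatD l (-1) A Y M)
    (r : ℕ) (hr : r ≤ 0 + 1) : O.valuation (pc (-1) (cl l (-1)) M 1 0 1 r) ≤ O.valuation 9 := by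
  obtain rfl | rfl : r = 0 ∨ r = 1 := by omega
  · exact p9_zero (pc_101 h hl hM 1).2
  · have h1 := pc_sym (by norm_num : (-1 : ℂ) ^ 2 = 1) (cl l (-1)) hM 1 1 0 0 (by omega)
    have h2 : pc (-1) (cl l (-1)) M 1 0 1 1 = pc (-1) (cl l (-1)) M 1 1 0 0 := by
      have h3 : 1 + 0 - 0 = 1 := rfl
      rw [h3] at h1
      rw [h1]
      norm_num
    rw [h2]
    exact p9_110' h hl h9 hM

private theorem p9_0200 (h : Core A Y) (hl : PL l (-1) s0) (h9 : 9 ∣ l + 1) (hM : MatD l (-1) A Y M) :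
    O.valuation (pc (-1) (cl l (-1)) M 0 2 0 0) ≤ O.valuation 9 := by
  obtain ⟨k, hk⟩ := p9_k h9
  refine p9_mul ((9 * k - 1) * k * (27 * k ^ 2 - (9 * k - 1)) ^ 2) ?_
  rw [pc_m00 h hl hM 0 2, p9_cl, hk]
  push_cast
  ring

private theorem p9_0201 (h : Core A Y) (h3 : O.valuation 3 < 1) (hl : PL l (-1) s0) (h9 : 9 ∣ l + 1)
    (hM : MatD l (-1) A Y M) : O.valuation (pc (-1) (cl l (-1)) M 0 2 0 1) ≤ O.valuation 9 := by
  obtain ⟨z, hz⟩ := p9_81 h hl h9 hM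
  have hs := six h hl hM
  have h00 := mat_00 h hl hM 0 2
  rw [pc_201 h hl hM 0]
  obtain ⟨m, hm⟩ : (9 : ℤ) ∣ 1 + (l : ℤ) ^ 5 := by
    have h1 : (l : ℤ) ≡ -1 [ZMOD 9] := by
      unfold Int.ModEq
      omega
    have h2 := (h1.pow 5).add_left 1
    exact (Int.modEq_zero_iff_dvd).1 (h2.trans (by decide))
  have e1 : (1 : ℂ) + (l : ℂ) ^ 5 = 9 * (m : ℂ) := by exact_mod_cast hm
  refine p9_val h3 143 (by norm_num) (22 * l * m - 9 * z) 9 ?_
  have e2 : M 0 2 0 0 = 9 * ((l : ℂ) * m) := by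
    rw [h00]
    linear_combination (l : ℂ) * e1
  push_cast
  linear_combination (11 / 9) * hs - hz + 22 * e2

private theorem p9_020 (h : Core A Y) (h3 : O.valuation 3 < 1) (hl : PL l (-1) s0) (h9 : 9 ∣ l + 1)
    (hM : MatD l (-1) A Y M) (r : ℕ) (hr : r ≤ 2 + 0) :
    O.valuation (pc (-1) (cl l (-1)) M 0 2 0 r) ≤ O.valuation 9 := by
  obtain rfl | rfl | rfl : r = 0 ∨ r = 1 ∨ r = 2 := by omega
  · exact p9_0200 h hl h9 hM
  · exact p9_0201 h h3 hl h9 hM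
  · exact p9_zero (pc_202 h hl hM 0).1

private theorem p9_002 (h : Core A Y) (h3 : O.valuation 3 < 1) (hl : PL l (-1) s0) (h9 : 9 ∣ l + 1)
    (hM : MatD l (-1) A Y M) (r : ℕ) (hr : r ≤ 0 + 2) :
    O.valuation (pc (-1) (cl l (-1)) M 0 0 2 r) ≤ O.valuation 9 := by
  have h1 := pc_sym (by norm_num : (-1 : ℂ) ^ 2 = 1) (cl l (-1)) hM 0 2 0 (2 - r) (by omega)
  have h2 : 2 + 0 - (2 - r) = r := by omega
  rw [h2] at h1
  rw [h1]
  have h4 : (-1 : ℂ) ^ (0 + 2 + 0) = 1 := by norm_num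
  rw [h4, one_mul]
  exact p9_020 h h3 hl h9 hM (2 - r) (by omega)

private theorem p9_011 (h : Core A Y) (h3 : O.valuation 3 < 1) (hl : PL l (-1) s0) (h9 : 9 ∣ l + 1)
    (hM : MatD l (-1) A Y M) (r : ℕ) (hr : r ≤ 1 + 1) :
    O.valuation (pc (-1) (cl l (-1)) M 0 1 1 r) ≤ O.valuation 9 := by
  obtain rfl | rfl | rfl : r = 0 ∨ r = 1 ∨ r = 2 := by omega
  · exact p9_zero (pc_110 h hl hM 0).1
  · have hd := pc_dif h hl hM 0 (by norm_num)
    obtain ⟨z, hz⟩ := p9_81 h hl h9 hM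
    have e1 : pc (-1) (cl l (-1)) M 0 1 1 1 =
        (M 0 2 0 0 + M 0 2 1 1) / 9 - pc (-1) (cl l (-1)) M 0 2 0 0 := by
      linear_combination hd
    rw [e1]
    refine Valuation.map_sub_le _ ?_ (p9_0200 h hl h9 hM)
    refine p9_val h3 11 (by norm_num) z 9 ?_
    push_cast
    linear_combination (1 / 9) * hz
  · exact p9_zero (pc_110 h hl hM 0).2

theorem pcM9 (h : Core A Y) (h3 : O.valuation 3 < 1) (hl : PL l (-1) s0) (h9 : 9 ∣ l + 1)
    (hM : MatD l (-1) A Y M) (a m n r : ℕ) [Fact (a < 3)] :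
    O.valuation (pc (-1) (cl l (-1)) M a m n r) ≤ O.valuation 9 := by
  have hcl := p9_cl l
  have hpr0 : pr ≠ 0 := by
    obtain ⟨-, -, h2⟩ := v_pr h3
    exact fun h0 => h2 (by rw [h0, map_zero])
  have hr0 : pr ^ 6 ≠ 0 := pow_ne_zero _ hpr0
  have hvr : O.valuation (pr ^ 6) ≤ 1 := by
    rw [map_pow]
    exact pow_le_one₀ zero_le (v_pr h3).2.1.le
  have hAB : V l A * (V l A)⁻¹ = 1 := by
    have h1 : constantCoeff (V l A) = 1 := by
      rw [V_cc hl.1.ne_zero]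
      obtain ⟨A₁, κ, hA, -, hA0, -, -⟩ := h.int
      rw [hA, map_add, map_mul, map_one]
      have : constantCoeff (PowerSeries.map (Int.castRingHom ℂ) A₁) = 0 := by
        rw [← coeff_zero_eq_constantCoeff_apply, coeff_map, coeff_zero_eq_constantCoeff_apply, hA0, map_zero]
      rw [this, mul_zero, add_zero]
    exact PowerSeries.mul_inv_cancel _ (by rw [h1]; exact one_ne_zero)
  -- the linear sums
  have sx : ∑ i : Option (Fin l), br l (-1) i A = 0 := by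
    have h1 := pc_sum h hl hM 1 0 0
    simp only [pow_zero, mul_one, pow_one, add_zero, zero_add, Finset.sum_range_one] at h1
    rw [h1, pc_m00 h hl hM 1 0]
    simp
  have hu0 : pc (-1) (cl l (-1)) M 0 1 0 0 = 0 := by
    rw [pc_m00 h hl hM 0 1, hcl]
    ring
  have su : ∑ i : Option (Fin l), ub l (-1) A Y i = 0 := by
    have h1 := pc_sum h hl hM 0 1 0
    simp only [pow_zero, mul_one, one_mul, pow_one, add_zero, Finset.sum_range_succ,
      Finset.sum_range_zero, zero_add] at h1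
    rw [h1, hu0, (pc_101 h hl hM 0).1]
    simp
  have sv : ∑ i : Option (Fin l), vb l (-1) Y i = 0 := by
    have h1 := pc_sum h hl hM 0 0 1
    simp only [pow_zero, mul_one, one_mul, pow_one, zero_add, Finset.sum_range_succ,
      Finset.sum_range_zero] at h1
    have h2 := pc_sym (e_sq hl) (cl l (-1)) hM 0 1 0 0 (by omega)
    simp only [add_zero, Nat.sub_zero, zero_add] at h2
    rw [hu0, mul_zero] at h2
    rw [h1, (pc_101 h hl hM 0).2, h2]
    simp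
  -- the quadratic sums
  have q0 := p9_sum h h3 hl hM hAB 2 0 0 (p9_200 h hl h9 hM)
  have q1 := p9_sum h h3 hl hM hAB 1 1 0 (p9_110 h hl h9 hM)
  have q2 := p9_sum h h3 hl hM hAB 1 0 1 (p9_101 h hl h9 hM)
  have q3 := p9_sum h h3 hl hM hAB 0 2 0 (p9_020 h h3 hl h9 hM)
  have q4 := p9_sum h h3 hl hM hAB 0 1 1 (p9_011 h h3 hl h9 hM)
  have q5 := p9_sum h h3 hl hM hAB 0 0 2 (p9_002 h h3 hl h9 hM)
  simp only [pow_zero, pow_one, mul_one, one_mul, sq] at q0 q1 q2 q3 q4 q5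
  -- the ring
  set t := tt (V l A) (V l Y) with ht
  set W := (V l A)⁻¹ with hW
  have hC : Ig O t (C (pr ^ 6)) := Ig_C hvr
  let ρ : p9S O t := ⟨C (pr ^ 6), hC⟩
  let x : Option (Fin l) → p9S O t := fun i => ⟨br l (-1) i A * W, intM_x h h3 hl i⟩
  let u : Option (Fin l) → p9S O t := fun i => ⟨ub l (-1) A Y i * W ^ 3, intM_u h h3 hl i⟩
  let v : Option (Fin l) → p9S O t := fun i => ⟨vb l (-1) Y i * W ^ 3, intM_v h h3 hl i⟩
  have hρ : ((ρ ^ 2 : p9S O t) : ℂ⟦X⟧) = 3 := by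
    change (C (pr ^ 6) : ℂ⟦X⟧) ^ 2 = 3
    rw [← map_pow, ← pow_mul]
    have : pr ^ (6 * 2) = 3 := pr_pow
    rw [this, map_ofNat]
  have dq : ∀ f g : Option (Fin l) → p9S O t, (∃ z : ℂ⟦X⟧, Ig O t z ∧
      ∑ i : Option (Fin l), (f i : ℂ⟦X⟧) * (g i : ℂ⟦X⟧) = C (pr ^ 6) ^ 3 * z) →
      ρ ^ 3 ∣ ∑ i, f i * g i := by
    rintro f g ⟨z, hz, hs⟩
    refine ⟨⟨z, hz⟩, ?_⟩
    apply Subtype.ext
    rw [AddSubmonoidClass.coe_finsetSum]
    exact hs
  have dq' : ∀ f g : Option (Fin l) → p9S O t, ρ ^ 3 ∣ ∑ i, f i * g i → ρ ^ 3 ∣ ∑ i, g i * f i := by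
    intro f g hfg
    have : ∑ i, g i * f i = ∑ i, f i * g i := Finset.sum_congr rfl fun i _ => mul_comm _ _
    rw [this]
    exact hfg
  have key : ρ ^ 3 ∣ ∑ i, x i ^ a * u i ^ m * v i ^ n := by
    refine tay3 ρ ![x, u, v] ?_ ?_ ?_ ?_ a m n
    · intro b i j
      fin_cases b
      · refine p9_dvd hr0 hC _ _ ?_
        have := intM_A h h3 hl i j
        rwa [sub_mul] at this
      · refine p9_dvd hr0 hC _ _ ?_
        have := intM_du h h3 hl i j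
        rwa [sub_mul] at this
      · refine p9_dvd hr0 hC _ _ ?_
        have := intM_dv h h3 hl i j
        rwa [sub_mul] at this
    · rw [Fintype.card_option, Fintype.card_fin]
      obtain ⟨k, hk⟩ := h9
      refine ⟨ρ * (k : p9S O t), ?_⟩
      have h33 : (3 : p9S O t) = ρ ^ 2 := by
        apply Subtype.ext
        rw [hρ]
        rfl
      have h99 : (9 : p9S O t) = ρ ^ 3 * ρ := by
        have : (9 : p9S O t) = 3 * 3 := by norm_num
        rw [this, h33]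
        ring
      rw [hk, Nat.cast_mul, ← mul_assoc, ← h99]
      norm_num
    · intro b
      fin_cases b
      · have : ∑ i, x i = 0 := by
          apply Subtype.ext
          rw [AddSubmonoidClass.coe_finsetSum]
          change ∑ i : Option (Fin l), br l (-1) i A * W = 0
          rw [← Finset.sum_mul, sx, zero_mul]
        change ρ ^ 3 ∣ ∑ i, x i
        rw [this]
        exact dvd_zero _
      · have : ∑ i, u i = 0 := by
          apply Subtype.ext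
          rw [AddSubmonoidClass.coe_finsetSum]
          change ∑ i : Option (Fin l), ub l (-1) A Y i * W ^ 3 = 0
          rw [← Finset.sum_mul, su, zero_mul]
        change ρ ^ 3 ∣ ∑ i, u i
        rw [this]
        exact dvd_zero _
      · have : ∑ i, v i = 0 := by
          apply Subtype.ext
          rw [AddSubmonoidClass.coe_finsetSum]
          change ∑ i : Option (Fin l), vb l (-1) Y i * W ^ 3 = 0
          rw [← Finset.sum_mul, sv, zero_mul]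
        change ρ ^ 3 ∣ ∑ i, v i
        rw [this]
        exact dvd_zero _
    · have a0 : ρ ^ 3 ∣ ∑ i, x i * x i := dq x x q0
      have a1 : ρ ^ 3 ∣ ∑ i, x i * u i := dq x u q1
      have a2 : ρ ^ 3 ∣ ∑ i, x i * v i := dq x v q2
      have a3 : ρ ^ 3 ∣ ∑ i, u i * u i := dq u u q3
      have a4 : ρ ^ 3 ∣ ∑ i, u i * v i := dq u v q4
      have a5 : ρ ^ 3 ∣ ∑ i, v i * v i := dq v v q5
      intro b c
      fin_cases b <;> fin_cases c
      · exact a0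
      · exact a1
      · exact a2
      · exact dq' _ _ a1
      · exact a3
      · exact a4
      · exact dq' _ _ a2
      · exact dq' _ _ a4
      · exact a5
  have hb : O.valuation (pc (-1) (cl l (-1)) M a m n r) ≤ O.valuation ((pr ^ 6) ^ 3) := by
    refine pc_bd h h3 hl hM a m n _ (pow_ne_zero _ hr0) ?_ r
    obtain ⟨y, hy⟩ := key
    have hy2 := congrArg (fun z : p9S O t => (z : ℂ⟦X⟧)) hy
    simp only [AddSubmonoidClass.coe_finsetSum, MulMemClass.coe_mul, SubmonoidClass.coe_pow] at hy2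
    have e1 : (∑ i : Option (Fin l), br l (-1) i A ^ a * ub l (-1) A Y i ^ m * vb l (-1) Y i ^ n) *
      W ^ (a + 3 * (m + n)) = ∑ i : Option (Fin l), (br l (-1) i A * W) ^ a *
        (ub l (-1) A Y i * W ^ 3) ^ m * (vb l (-1) Y i * W ^ 3) ^ n := by
      rw [Finset.sum_mul]
      refine Finset.sum_congr rfl fun i _ => ?_
      rw [mul_pow, mul_pow, mul_pow]
      ring
    have e2 : ∑ i : Option (Fin l), (br l (-1) i A * W) ^ a *
        (ub l (-1) A Y i * W ^ 3) ^ m * (vb l (-1) Y i * W ^ 3) ^ n =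
        C (pr ^ 6) ^ 3 * (y : ℂ⟦X⟧) := hy2
    have e3 : (C ((pr ^ 6) ^ 3) : ℂ⟦X⟧) * C ((pr ^ 6) ^ 3)⁻¹ = 1 := p9_cc (pow_ne_zero _ hr0)
    rw [e1, e2, ← map_pow]
    have e4 : C ((pr ^ 6) ^ 3) * (y : ℂ⟦X⟧) * C ((pr ^ 6) ^ 3)⁻¹ = y := by
      linear_combination (y : ℂ⟦X⟧) * e3
    rw [e4]
    exact y.2
  obtain ⟨q, hq⟩ := pc_rat h hl hM a m n r
  rw [hq] at hb ⊢
  have h9' : O.valuation (9 : ℂ) = O.valuation 3 ^ ((3 + 1) / 2) := by
    rw [← map_pow]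
    norm_num
  rw [h9']
  refine v_rat h3 q 3 ?_
  rw [← pow_mul, map_pow] at hb
  exact hb

end

end Pool.Agent.Lib.MP_06b9d2_tls
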