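import Pool.Agent.Lib.MP_06b9d2_tls.PrM

/-!
Board TLS, algebra part, pairs: the congruences (as in CgM, CgP).
-/

namespace Pool.Agent.Lib.MP_06b9d2_tls

open PowerSeries Pool.Agent.L1
open Pool.Agent.Lib.MP_06b9d2_ssp (PO PO_const PO_id PO_add PO_mul PO_shift int_mem val_int val_rat)

variable {O : ValuationSubring ℂ}

/-- the terms in `3 ^ (a + b) O` -/
theorem tqPr_mem (h3 : O.valuation 3 < 1) {c : ℂ}
    (hc : O.valuation c = 1) (κ : ℕ → ℕ → ℕ → ℂ) {N : ℕ} {x : ℕ → ℕ → ℂ} (hn : NmPr O N x) (π : ℕ)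
    {f : ℤ → ℂ} (hf : PO O f) (m n l a b r : ℕ) (hr : a + b = r)
    (ha : padicValNat 3 (m.factorial * n.factorial) + a ≤ m + n)
    (hκ : O.valuation (κ m n l) ≤ O.valuation 3 ^ b) :
    ∃ z ∈ O, tq c κ N x π f m n l = 3 ^ r * z := by
  have he : O.valuation (-1 : ℂ) = 1 := v_neg_one O
  obtain ⟨g, hg, hgs⟩ := dmG_pow h3 he hc N m n a ha
  have hv3 : O.valuation (3 : ℂ) ≠ 0 := (map_ne_zero _).mpr (by norm_num)
  have h1 : mq N x (π + n + l) (fun s => dmG (-1) c N m n s * f (s - n + l)) =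
      3 ^ a * mq N x (π + n + l) (fun s => g s * f (s + (-n + l))) := by
    rw [← mq_mul]
    refine mq_cg fun s _ => ?_
    rw [hgs, show ((s : ℤ) - n + l) = (s : ℤ) + (-n + l) by ring]
    ring
  have h2 : O.valuation (mq N x (π + n + l) (fun s => g s * f (s + (-n + l)))) ≤ 1 :=
    hn.mem _ _ (PO_mul hg (PO_shift hf _))
  refine ⟨(-1) ^ (π + n + l) * (κ m n l / 3 ^ b) *
    mq N x (π + n + l) (fun s => g s * f (s + (-n + l))), ?_, ?_⟩
  · rw [← ValuationSubring.valuation_le_one_iff, map_mul, map_mul, map_pow, he, one_pow, one_mul,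
      map_div₀, map_pow]
    refine mul_le_one' ?_ h2
    rw [div_le_iff₀ (zero_lt_iff.2 (pow_ne_zero _ hv3)), one_mul]
    exact hκ
  · unfold tq
    rw [h1, ← hr, pow_add (3 : ℂ) a b]
    field_simp

/-- the terms with an odd shift -/
theorem tqPr_odd (h3 : O.valuation 3 < 1) {c : ℂ}
    (hc : O.valuation c = 1) (κ : ℕ → ℕ → ℕ → ℂ) (N : ℕ) (x : ℕ → ℕ → ℂ) (π : ℕ)
    {f : ℤ → ℂ} (hf : PO O f) (m n l : ℕ)
    (ha : padicValNat 3 (m.factorial * n.factorial) + 2 ≤ m + n) (hodd : (n + l) % 2 = 1)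
    (hκ : O.valuation (κ m n l) ≤ 1) :
    ∃ w : ℤ → ℂ, PO O w ∧ tq c κ N x π f m n l = 9 * mq N x (π + 1) w := by
  have he : O.valuation (-1 : ℂ) = 1 := v_neg_one O
  obtain ⟨g, hg, hgs⟩ := dmG_pow h3 he hc N m n 2 ha
  refine ⟨fun s => (-1) ^ (π + n + l) * κ m n l * (g s * f (s + (-n + l))),
    PO_mul (PO_const _ ?_) (PO_mul hg (PO_shift hf _)), ?_⟩
  · rw [map_mul, map_pow, he, one_pow, one_mul]
    exact hκ
  · unfold tq
    have h1 : mq N x (π + 1) (fun s => dmG (-1) c N m n s * f (s - n + l)) =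
        9 * mq N x (π + 1) (fun s => g s * f (s + (-n + l))) := by
      rw [← mq_mul]
      refine mq_cg fun s _ => ?_
      rw [hgs, show ((s : ℤ) - n + l) = (s : ℤ) + (-n + l) by ring]
      ring
    have h2 : mq N x (π + n + l) (fun s => dmG (-1) c N m n s * f (s - n + l)) =
        mq N x (π + 1) (fun s => dmG (-1) c N m n s * f (s - n + l)) := mq_mod _ (by omega)
    rw [h2, h1, mq_mul]
    ring

/-- the set of all `9 mq N x (π + 1) w + 27 z` -/
noncomputable def J9Pr (O : ValuationSubring ℂ) (N : ℕ) (x : ℕ → ℕ → ℂ) (π : ℕ) : AddSubgroup ℂ where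
  carrier := {v | ∃ w : ℤ → ℂ, PO O w ∧ ∃ z ∈ O, v = 9 * mq N x (π + 1) w + 27 * z}
  zero_mem' := ⟨fun _ => 0, PO_const 0 (by rw [map_zero]; exact zero_le_one), 0, zero_mem _, by
    have : mq N x (π + 1) (fun _ => (0 : ℂ)) = 0 := by
      unfold mq
      exact Finset.sum_eq_zero fun s _ => mul_zero _
    rw [this]; ring⟩
  add_mem' := by
    rintro _ _ ⟨w, hw, z, hz, rfl⟩ ⟨w', hw', z', hz', rfl⟩
    refine ⟨fun s => w s + w' s, PO_add hw hw', z + z', add_mem hz hz', ?_⟩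
    rw [mq_add]
    ring
  neg_mem' := by
    rintro _ ⟨w, hw, z, hz, rfl⟩
    refine ⟨fun s => (-1) * w s, PO_mul (PO_const (-1) (by rw [Valuation.map_neg, map_one])) hw,
      -z, neg_mem hz, ?_⟩
    rw [mq_mul]
    ring

theorem J9Pr_of_J3 {N : ℕ} {x : ℕ → ℕ → ℂ} {π : ℕ} {v : ℂ} (h : ∃ z ∈ O, v = 3 ^ 3 * z) :
    v ∈ J9Pr O N x π := by
  obtain ⟨z, hz, h⟩ := h
  have h1 : (27 * z : ℂ) ∈ J9Pr O N x π := by
    refine ⟨fun _ => 0, PO_const 0 (by rw [map_zero]; exact zero_le_one), z, hz, ?_⟩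
    have : mq N x (π + 1) (fun _ => (0 : ℂ)) = 0 := by
      unfold mq
      exact Finset.sum_eq_zero fun s _ => mul_zero _
    rw [this]; ring
  rw [h]
  norm_num
  exact h1

theorem J9Pr_of_odd {N : ℕ} {x : ℕ → ℕ → ℂ} {π : ℕ} {v : ℂ}
    (h : ∃ w : ℤ → ℂ, PO O w ∧ v = 9 * mq N x (π + 1) w) : v ∈ J9Pr O N x π := by
  obtain ⟨w, hw, h⟩ := h
  exact ⟨w, hw, 0, zero_mem _, by rw [h]; ring⟩

private theorem pf_le (m n a : ℕ) (h : a ≤ (m + n + 1) / 2) :
    padicValNat 3 (m.factorial * n.factorial) + a ≤ m + n := by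
  have := fact_bound m n
  omega

private theorem pf21 (m n : ℕ) (h : (m = 2 ∧ n = 1) ∨ (m = 1 ∧ n = 2)) :
    padicValNat 3 (m.factorial * n.factorial) + 3 ≤ m + n := by
  have : Fact (Nat.Prime 3) := ⟨Nat.prime_three⟩
  rw [padicValNat.mul (Nat.factorial_ne_zero m) (Nat.factorial_ne_zero n)]
  have h1 := val_fact m
  have h2 := val_fact n
  omega

private theorem pf27 (m n : ℕ)
    (h : (m, n) ∉ ({(0, 0), (1, 0), (0, 1), (2, 0), (1, 1), (0, 2), (3, 0), (0, 3)} :
      Finset (ℕ × ℕ))) : padicValNat 3 (m.factorial * n.factorial) + 3 ≤ m + n := by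
  have h2 : 4 ≤ m + n ∨ (m = 2 ∧ n = 1) ∨ (m = 1 ∧ n = 2) := by
    by_contra hc
    apply h
    have : (m = 0 ∧ n = 0) ∨ (m = 1 ∧ n = 0) ∨ (m = 0 ∧ n = 1) ∨ (m = 2 ∧ n = 0) ∨
      (m = 1 ∧ n = 1) ∨ (m = 0 ∧ n = 2) ∨ (m = 3 ∧ n = 0) ∨ (m = 0 ∧ n = 3) := by omega
    rcases this with ⟨rfl, rfl⟩ | ⟨rfl, rfl⟩ | ⟨rfl, rfl⟩ | ⟨rfl, rfl⟩ | ⟨rfl, rfl⟩ |
      ⟨rfl, rfl⟩ | ⟨rfl, rfl⟩ | ⟨rfl, rfl⟩ <;> simp
  rcases h2 with h2 | h2
  · have : Fact (Nat.Prime 3) := ⟨Nat.prime_three⟩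
    rw [padicValNat.mul (Nat.factorial_ne_zero m) (Nat.factorial_ne_zero n)]
    have h1 := val_fact m
    have h2 := val_fact n
    omega
  · exact pf21 m n h2

private theorem diagM {c : ℂ} (hc0 : c ≠ 0) (κ : ℕ → ℕ → ℕ → ℂ) (h : κ 0 1 1 = -κ 1 0 0)
    (h22 : κ 0 2 2 = κ 2 0 0) (h33 : κ 0 3 3 = -κ 3 0 0) (N : ℕ) (s : ℤ) :
    ∑ p ∈ ({(0, 0), (1, 0), (0, 1), (2, 0), (1, 1), (0, 2), (3, 0), (0, 3)} : Finset (ℕ × ℕ)),
      κ p.1 p.2 p.2 * dmG (-1) c N p.1 p.2 s =
    (κ 0 0 0 - 3 * (κ 1 0 0 / c * N) + 9 * (κ 2 0 0 / c ^ 2 * (N * (N - 1) / 2)) -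
      27 * (κ 3 0 0 / c ^ 3 * (N * (N - 1) * (N - 2) / 6)) +
      9 * ((κ 2 0 0 + κ 1 1 1) / c ^ 2) * ((s : ℂ) ^ 2 - (N : ℂ) * (s : ℂ))) +
      27 * (-(κ 3 0 0 / c ^ 3) * ((N - 2) * (1 / 2)) * ((s : ℂ) ^ 2 - (N : ℂ) * (s : ℂ))) := by
  rw [Finset.sum_insert (by decide), Finset.sum_insert (by decide), Finset.sum_insert (by decide),
    Finset.sum_insert (by decide), Finset.sum_insert (by decide), Finset.sum_insert (by decide),
    Finset.sum_insert (by decide), Finset.sum_singleton]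
  simp only [dmG, Finset.prod_range_succ, Finset.prod_range_zero, Nat.factorial, h, h22, h33]
  push_cast
  field_simp
  ring

theorem cgPr (h3 : O.valuation 3 < 1) (N : ℕ) (c : ℂ) (κ : ℕ → ℕ → ℕ → ℂ) (h : DatM O c κ) :
    ∃ d t : ℂ, O.valuation d = 1 ∧ O.valuation t = 1 ∧ ∀ (lam : ℂ) (x : ℕ → ℕ → ℂ),
      StPr c κ N lam x → NmPr O N x → CgPr O N x lam d t := by
  have hc0 : c ≠ 0 := by
    rintro rfl
    have := h.hc
    rw [map_zero] at this
    exact zero_ne_one this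
  have hc1 := h.hc
  have v3le : O.valuation (3 : ℂ) ≤ 1 := h3.le
  have h2 : O.valuation (2 : ℂ) = 1 := by
    have := val_int h3 2 (by norm_num)
    simpa using this
  have hN : ∀ n : ℕ, O.valuation (n : ℂ) ≤ 1 := fun n => by
    have := int_mem O (n : ℤ)
    simpa using this
  have hch2 : O.valuation ((N : ℂ) * (N - 1) / 2) ≤ 1 := by
    have := hN (N.choose 2)
    rwa [Nat.cast_choose_two] at this
  have hch3 : O.valuation ((N : ℂ) * (N - 1) * (N - 2) / 6) ≤ 1 := by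
    have h5 := prod_desc N 3
    simp only [Finset.prod_range_succ, Finset.prod_range_zero, Nat.factorial] at h5
    have h6 : (N : ℂ) * (N - 1) * (N - 2) / 6 = (N.choose 3 : ℂ) := by
      push_cast at h5
      linear_combination (1 / 6 : ℂ) * h5
    rw [h6]
    exact hN _
  have hdc : ∀ (y : ℂ) (k : ℕ), O.valuation y ≤ 1 → O.valuation (y / c ^ k) ≤ 1 := by
    intro y k hy
    rw [map_div₀, map_pow, hc1, one_pow, div_one]
    exact hy
  set d : ℂ := κ 0 0 0 - 3 * (κ 1 0 0 / c * N) + 9 * (κ 2 0 0 / c ^ 2 * (N * (N - 1) / 2)) -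
      27 * (κ 3 0 0 / c ^ 3 * (N * (N - 1) * (N - 2) / 6)) with hd
  set t : ℂ := (κ 2 0 0 + κ 1 1 1) / c ^ 2 with ht
  refine ⟨d, t, ?_, ?_, ?_⟩
  · have e1 : d = κ 0 0 0 + 3 * (-(κ 1 0 0 / c ^ 1 * N) + 3 * (κ 2 0 0 / c ^ 2 * (N * (N - 1) / 2)) -
      9 * (κ 3 0 0 / c ^ 3 * (N * (N - 1) * (N - 2) / 6))) := by
      rw [hd]; ring
    rw [e1]
    have e2 : O.valuation (3 * (-(κ 1 0 0 / c ^ 1 * N) +
        3 * (κ 2 0 0 / c ^ 2 * (N * (N - 1) / 2)) -
        9 * (κ 3 0 0 / c ^ 3 * (N * (N - 1) * (N - 2) / 6)))) < 1 := by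
      rw [map_mul]
      refine lt_of_le_of_lt (mul_le_of_le_one_right' ?_) h3
      have i9 : O.valuation (9 : ℂ) ≤ 1 := by simpa using int_mem O 9
      refine Valuation.map_sub_le _ (Valuation.map_add_le _ ?_ ?_) ?_
      · rw [Valuation.map_neg, map_mul]
        exact mul_le_one' (hdc _ _ (h.int _ _ _)) (hN N)
      · rw [map_mul, map_mul]
        exact mul_le_one' v3le (mul_le_one' (hdc _ _ (h.int _ _ _)) hch2)
      · rw [map_mul, map_mul]
        exact mul_le_one' i9 (mul_le_one' (hdc _ _ (h.int _ _ _)) hch3)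
    rw [Valuation.map_add_eq_of_lt_left _ (by rw [h.h000]; exact e2), h.h000]
  · rw [ht, map_div₀, map_pow, hc1, one_pow, div_one]
    exact h.ht
  · intro lam x hE hn π f hf
    obtain ⟨z, hz, h1⟩ := starDPr c κ N lam x hE π f
      (J9Pr O N x π) {(0, 0), (1, 0), (0, 1), (2, 0), (1, 1), (0, 2), (3, 0), (0, 3)} (by
        intro m n l hl hmn
        by_cases hS : (m, n) ∈ ({(0, 0), (1, 0), (0, 1), (2, 0), (1, 1), (0, 2), (3, 0), (0, 3)} :
          Finset (ℕ × ℕ))
        swap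
        · exact J9Pr_of_J3 (tqPr_mem h3 hc1 κ hn π hf m n l 3 0 3 rfl (pf27 m n hS)
            (by rw [pow_zero]; exact h.int _ _ _))
        · have hln : l ≠ n := hmn.resolve_left (fun hh => hh hS)
          have hz0 : ∀ m n l, κ m n l = 0 → tq c κ N x π f m n l ∈ J9Pr O N x π := by
            intro m n l hk
            unfold tq
            rw [hk, mul_zero, zero_mul]
            exact zero_mem _
          have hod : ∀ m n l, 2 ≤ (m + n + 1) / 2 ∨ (m + n = 2) → (n + l) % 2 = 1 →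
              tq c κ N x π f m n l ∈ J9Pr O N x π := by
            intro m n l hh ho
            refine J9Pr_of_odd (tqPr_odd h3 hc1 κ N x π hf m n l ?_ ho (h.int _ _ _))
            rcases hh with hh | hh
            · exact pf_le m n 2 hh
            · have : Fact (Nat.Prime 3) := ⟨Nat.prime_three⟩
              rw [padicValNat.mul (Nat.factorial_ne_zero m) (Nat.factorial_ne_zero n)]
              have h1 := val_fact m
              have h2 := val_fact n
              omega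
          have hth : ∀ m n l, m + n = 3 → O.valuation (κ m n l) ≤ O.valuation 3 →
              tq c κ N x π f m n l ∈ J9Pr O N x π := by
            intro m n l hh hk
            exact J9Pr_of_J3 (tqPr_mem h3 hc1 κ hn π hf m n l 2 1 3 rfl
              (pf_le m n 2 (by omega)) (by rw [pow_one]; exact hk))
          simp only [Finset.mem_insert, Finset.mem_singleton, Prod.mk.injEq] at hS
          rcases hS with ⟨rfl, rfl⟩ | ⟨rfl, rfl⟩ | ⟨rfl, rfl⟩ | ⟨rfl, rfl⟩ | ⟨rfl, rfl⟩ |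
            ⟨rfl, rfl⟩ | ⟨rfl, rfl⟩ | ⟨rfl, rfl⟩
          · omega
          · have : l = 1 := by omega
            subst this
            exact hz0 _ _ _ h.h101
          · have : l = 0 := by omega
            subst this
            exact hz0 _ _ _ h.h010
          · have : l = 1 ∨ l = 2 := by omega
            rcases this with rfl | rfl
            · exact hod _ _ _ (Or.inr rfl) rfl
            · exact hz0 _ _ _ h.h202
          · have : l = 0 ∨ l = 2 := by omega
            rcases this with rfl | rfl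
            · exact hod _ _ _ (Or.inr rfl) rfl
            · exact hod _ _ _ (Or.inr rfl) rfl
          · have : l = 0 ∨ l = 1 := by omega
            rcases this with rfl | rfl
            · exact hz0 _ _ _ h.h020
            · exact hod _ _ _ (Or.inr rfl) rfl
          · have : l = 1 ∨ l = 2 ∨ l = 3 := by omega
            rcases this with rfl | rfl | rfl
            · exact hod _ _ _ (Or.inl (by norm_num)) rfl
            · exact hth _ _ _ rfl h.h302
            · exact hod _ _ _ (Or.inl (by norm_num)) rfl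
          · have : l = 0 ∨ l = 1 ∨ l = 2 := by omega
            rcases this with rfl | rfl | rfl
            · exact hod _ _ _ (Or.inl (by norm_num)) rfl
            · exact hth _ _ _ rfl h.h031
            · exact hod _ _ _ (Or.inl (by norm_num)) rfl)
    obtain ⟨w, hw, z', hz', hzz⟩ := hz
    -- the rest of the diagonal
    have hP : PO O (fun s => (-(κ 3 0 0 / c ^ 3) * ((N - 2) * (1 / 2)) *
        ((s : ℂ) ^ 2 - (N : ℂ) * (s : ℂ))) * f s) := by
      have p1 : PO O (fun _ => -(κ 3 0 0 / c ^ 3) * (((N : ℂ) - 2) * (1 / 2))) := by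
        refine PO_const _ ?_
        have h12 : O.valuation (1 / 2 : ℂ) = 1 := by rw [map_div₀, h2, map_one, div_one]
        rw [map_mul, map_mul, Valuation.map_neg, h12, mul_one]
        refine mul_le_one' (hdc _ _ (h.int _ _ _)) ?_
        have := int_mem O ((N : ℤ) - 2)
        push_cast at this
        exact this
      have p2 : PO O (fun s => (s : ℂ) ^ 2 - (N : ℂ) * (s : ℂ)) := by
        refine PO_cg (PO_mul PO_id (PO_add PO_id (PO_int O (-(N : ℤ))))) fun s => ?_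
        push_cast
        ring
      exact PO_cg (PO_mul (PO_mul p1 p2) hf) fun s => by ring
    have hPm := (ValuationSubring.valuation_le_one_iff O _).1 (hn.mem π _ hP)
    refine ⟨w, z' + (-1) ^ π * mq N x π (fun s => (-(κ 3 0 0 / c ^ 3) * ((N - 2) * (1 / 2)) *
        ((s : ℂ) ^ 2 - (N : ℂ) * (s : ℂ))) * f s), hw,
      add_mem hz' (mul_mem (pow_mem (neg_mem (one_mem _)) _) hPm), ?_⟩
    rw [h1, hzz]
    have e5 : mq N x π (fun s => (∑ p ∈ ({(0, 0), (1, 0), (0, 1), (2, 0), (1, 1), (0, 2), (3, 0),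
        (0, 3)} : Finset (ℕ × ℕ)), κ p.1 p.2 p.2 * dmG (-1) c N p.1 p.2 s) * f s) =
        mq N x π (fun s => (d + 9 * t * ((s : ℂ) ^ 2 - (N : ℂ) * (s : ℂ))) * f s) +
        27 * mq N x π (fun s => (-(κ 3 0 0 / c ^ 3) * ((N - 2) * (1 / 2)) *
        ((s : ℂ) ^ 2 - (N : ℂ) * (s : ℂ))) * f s) := by
      rw [← mq_mul, ← mq_add]
      refine mq_cg fun s _ => ?_
      rw [diagM hc0 κ h.h011 h.h022 h.h033]
      ring
    rw [e5]
    ring

private theorem pf2 (m n : ℕ) (h : 2 ≤ m + n) :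
    padicValNat 3 (m.factorial * n.factorial) + 2 ≤ m + n := by
  have : Fact (Nat.Prime 3) := ⟨Nat.prime_three⟩
  rw [padicValNat.mul (Nat.factorial_ne_zero m) (Nat.factorial_ne_zero n)]
  have h1 := val_fact m
  have h2 := val_fact n
  omega

theorem cgPr1 (h3 : O.valuation 3 < 1) (N : ℕ) (c : ℂ) (κ : ℕ → ℕ → ℕ → ℂ) (h : DatM1 O c κ) :
    ∃ q : ℂ, O.valuation q = 1 ∧ ∀ (lam : ℂ) (x : ℕ → ℕ → ℂ),
      StPr c κ N lam x → NmPr O N x → CgPr1 O N x lam q := by
  have hc0 : c ≠ 0 := by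
    rintro rfl
    have := h.hc
    rw [map_zero] at this
    exact zero_ne_one this
  have hc1 := h.hc
  refine ⟨κ 1 0 0 / c, by rw [map_div₀, h.hu, hc1, div_one], ?_⟩
  intro lam x hE hn π f hf
  obtain ⟨z, hz, h1⟩ := starDPr c κ N lam x hE π f
    (J3 O 2) {(0, 0), (1, 0), (0, 1)} (by
      intro m n l hl hmn
      by_cases h2 : 2 ≤ m + n
      · exact J3_mk (tqPr_mem h3 hc1 κ hn π hf m n l 2 0 2 rfl (pf2 m n h2)
          (by rw [pow_zero]; exact h.int _ _ _))
      · have hz0 : ∀ m n l, κ m n l = 0 → tq c κ N x π f m n l ∈ J3 O 2 := by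
          intro m n l hk
          unfold tq
          rw [hk, mul_zero, zero_mul]
          exact zero_mem _
        have hS : (m = 0 ∧ n = 0) ∨ (m = 1 ∧ n = 0) ∨ (m = 0 ∧ n = 1) := by omega
        rcases hS with ⟨rfl, rfl⟩ | ⟨rfl, rfl⟩ | ⟨rfl, rfl⟩
        · have : l = 0 := by omega
          subst this
          exact hz0 _ _ _ h.h000
        · have hln : l ≠ 0 := hmn.resolve_left (fun hh => hh (by simp))
          have : l = 1 := by omega
          subst this
          exact hz0 _ _ _ h.h101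
        · have hln : l ≠ 1 := hmn.resolve_left (fun hh => hh (by simp))
          have : l = 0 := by omega
          subst this
          exact hz0 _ _ _ h.h010)
  obtain ⟨z', hz', hzz⟩ := J3_ex hz
  refine ⟨z', hz', ?_⟩
  rw [h1, hzz]
  have e5 : mq N x π (fun s => (∑ p ∈ ({(0, 0), (1, 0), (0, 1)} : Finset (ℕ × ℕ)),
      κ p.1 p.2 p.2 * dmG (-1) c N p.1 p.2 s) * f s) =
      mq N x π (fun s => 3 * (κ 1 0 0 / c) * (2 * (s : ℂ) - (N : ℂ)) * f s) := by
    refine mq_cg fun s _ => ?_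
    rw [Finset.sum_insert (by decide), Finset.sum_insert (by decide), Finset.sum_singleton]
    simp only [dmG, Finset.prod_range_succ, Finset.prod_range_zero, Nat.factorial, h.h000, h.h011]
    push_cast
    field_simp
    ring
  rw [e5]
  norm_num

end Pool.Agent.Lib.MP_06b9d2_tls
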