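import Pool.Agent.Lib.MP_06b9d2_tls.PrT
import Pool.Agent.Lib.MP_06b9d2_tls.Dbl
import Pool.Agent.Lib.MP_06b9d2_tls.TwoM

/-!
Board TLS, algebra part, pairs. The doubling argument for pairs: `lam` and `-lam` are not both eigenvalues.
-/

namespace Pool.Agent.Lib.MP_06b9d2_tls

theorem no_pm {V : Type*} [AddCommGroup V] [Module ℂ V] (T : V →ₗ[ℂ] V) (N : ℕ) (Mx : ℕ → ℕ → ℂ)
    (hsym : ∀ j s, j ≤ N → s ≤ N → Mx (N - j) (N - s) = Mx j s) (h2 : TwoPm Mx N)
    (X : V →ₗ[ℂ] (ℕ → ℂ)) (hX0 : ∀ f s, N < s → X f s = 0)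
    (lead : ∀ f, f ≠ 0 → ∃ p, 1 ≤ p ∧ 2 * p ≤ N ∧ (∀ s, s < p → X f s = 0) ∧ X f p ≠ 0 ∧
      ∀ s, N - 2 * p < s → X f s = 0)
    (hEg : ∀ lam f, T f = lam • f → EgG Mx N lam (X f)) (lam : ℂ) (f g : V)
    (hf : T f = lam • f) (hg : T g = -lam • g) (hf0 : f ≠ 0) (hg0 : g ≠ 0) : False := by
  obtain ⟨L, hL⟩ := h2 lam
  obtain ⟨p, hp1, hp2, hp3, hp4, hp5⟩ := lead f hf0
  obtain ⟨q, hq1, hq2, hq3, hq4, hq5⟩ := lead g hg0
  let Ψ := L ∘ₗ (LinearMap.prodMap ((LinearMap.toSpanSingleton ℂ (ℕ → ℂ) (X f)).coprod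
    (LinearMap.toSpanSingleton ℂ (ℕ → ℂ) (Rv N (X f)))) (LinearMap.toSpanSingleton ℂ (ℕ → ℂ) (X g)))
  have hΨ : Function.Injective Ψ := by
    rw [← LinearMap.ker_eq_bot, LinearMap.ker_eq_bot']
    rintro ⟨⟨a, b⟩, c⟩ habc
    have h1 : L (a • X f + b • Rv N (X f), c • X g) = 0 := habc
    have hE := hEg lam f hf
    have hE' := hEg (-lam) g hg
    obtain ⟨h3, h4⟩ := hL (a • X f + b • Rv N (X f)) (c • X g)
      (EgG_add (EgG_smul hE a) (EgG_smul (EgG_rev hsym hE) b)) (EgG_smul hE' c)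
      (by
        intro s hs
        rw [Pi.add_apply, Pi.smul_apply, Pi.smul_apply, hX0 f s hs, Rv_gt _ hs, smul_zero,
          smul_zero, add_zero])
      (by
        intro s hs
        rw [Pi.smul_apply, hX0 g s hs, smul_zero]) h1
    have h5 : ∀ s, s ≤ N → a * X f s + b * X f (N - s) = 0 := by
      intro s hs
      have := congrFun h3 s
      rw [Pi.add_apply, Pi.smul_apply, Pi.smul_apply, Rv_le _ hs] at this
      exact this
    have ha : a = 0 := by
      have h6 := h5 p (by omega)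
      rw [hp5 (N - p) (by omega), mul_zero, add_zero] at h6
      exact (mul_eq_zero.mp h6).resolve_right hp4
    have hb : b = 0 := by
      have h6 := h5 (N - p) (by omega)
      rw [ha, zero_mul, zero_add, Nat.sub_sub_self (by omega)] at h6
      exact (mul_eq_zero.mp h6).resolve_right hp4
    have hc : c = 0 := by
      have h6 := congrFun h4 q
      rw [Pi.smul_apply, smul_eq_mul, Pi.zero_apply] at h6
      exact (mul_eq_zero.mp h6).resolve_right hq4
    rw [ha, hb, hc]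
    rfl
  have hfin := LinearMap.finrank_le_finrank_of_injective hΨ
  rw [Module.finrank_prod, Module.finrank_prod, Module.finrank_self, Module.finrank_fin_fun] at hfin
  omega

end Pool.Agent.Lib.MP_06b9d2_tls
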