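import Pool.Agent.Lib.MP_06b9d2_tls.PrC

/-!
Board TLS, algebra part, pairs: the end of the argument (as in FnM).
-/

namespace Pool.Agent.Lib.MP_06b9d2_tls

open PowerSeries Pool.Agent.L1
open Pool.Agent.Lib.MP_06b9d2_ssp (PO PO_const PO_id PO_add PO_mul PO_shift int_mem val_int val_rat)

private theorem Fn_lin (N : ℕ) (x : ℕ → ℕ → ℂ) (π : ℕ) (a b : ℂ) (f g h : ℤ → ℂ)
    (hh : ∀ s, h s = a * f s + b * g s) :
    mq N x π h = a * mq N x π f + b * mq N x π g := by
  unfold mq
  rw [Finset.mul_sum, Finset.mul_sum, ← Finset.sum_add_distrib]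
  exact Finset.sum_congr rfl fun s _ => by rw [hh]; ring

private theorem Fn_q (N : ℕ) (x : ℕ → ℕ → ℂ) (π : ℕ) (d t : ℂ) (f : ℤ → ℂ) :
    mq N x π (fun s => (d + 9 * t * ((s : ℂ) ^ 2 - (N : ℂ) * (s : ℂ))) * f s) =
      d * mq N x π f + 9 * t * mq N x π (fun s => ((s : ℂ) ^ 2 - (N : ℂ) * (s : ℂ)) * f s) :=
  Fn_lin N x π d (9 * t) f (fun s => ((s : ℂ) ^ 2 - (N : ℂ) * (s : ℂ)) * f s) _
    (fun s => by ring)

private theorem Fn_g2 (N : ℕ) (x : ℕ → ℕ → ℂ) (π : ℕ) (n : ℕ) :
    mq N x π (fun s => ((s : ℂ) ^ 2 - (N : ℂ) * (s : ℂ)) * (s : ℂ) ^ n) =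
      mq N x π (fun s => (s : ℂ) ^ (n + 2)) - N * mq N x π (fun s => (s : ℂ) ^ (n + 1)) := by
  rw [Fn_lin N x π 1 (-(N : ℂ)) (fun s => (s : ℂ) ^ (n + 2)) (fun s => (s : ℂ) ^ (n + 1))
    (fun s => ((s : ℂ) ^ 2 - (N : ℂ) * (s : ℂ)) * (s : ℂ) ^ n) (fun s => by ring)]
  ring

private theorem Fn_1 (N : ℕ) (x : ℕ → ℕ → ℂ) (π : ℕ) (q : ℂ) (n : ℕ) :
    mq N x π (fun s => 3 * q * (2 * (s : ℂ) - (N : ℂ)) * (s : ℂ) ^ n) =
      3 * q * (2 * mq N x π (fun s => (s : ℂ) ^ (n + 1)) -
        N * mq N x π (fun s => (s : ℂ) ^ n)) := by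
  rw [Fn_lin N x π (6 * q) (-(3 * q * (N : ℂ))) (fun s => (s : ℂ) ^ (n + 1)) (fun s => (s : ℂ) ^ n)
    (fun s => 3 * q * (2 * (s : ℂ) - (N : ℂ)) * (s : ℂ) ^ n) (fun s => by ring)]
  ring

private theorem Fn_pow (O : ValuationSubring ℂ) (n : ℕ) : PO O (fun s => (s : ℂ) ^ n) := by
  induction n with
  | zero =>
    have h := PO_const (O := O) 1 (by rw [map_one])
    simpa using h
  | succ n ih =>
    have h := PO_mul ih (PO_id (O := O))
    simpa only [pow_succ] using h

private theorem Fn_g (O : ValuationSubring ℂ) (N : ℕ) :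
    PO O (fun s => (s : ℂ) ^ 2 - (N : ℂ) * (s : ℂ)) := by
  have h1 : PO O (fun s => (-(N : ℂ)) * (s : ℂ)) := by
    refine PO_mul (PO_const (-(N : ℂ)) ?_) PO_id
    rw [Valuation.map_neg]
    have := int_mem O (N : ℤ)
    simpa using this
  have h2 := PO_add (Fn_pow O 2) h1
  have h3 : (fun s : ℤ => (s : ℂ) ^ 2 - (N : ℂ) * (s : ℂ)) =
      fun s : ℤ => (s : ℂ) ^ 2 + (-(N : ℂ)) * (s : ℂ) := by
    funext s
    ring
  rw [h3]
  exact h2

private theorem Fn_v0 (O : ValuationSubring ℂ) : O.valuation (3 : ℂ) ≠ 0 :=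
  (map_ne_zero _).mpr (by norm_num)

private theorem Fn_v2 {O : ValuationSubring ℂ} (h3 : O.valuation 3 < 1) : O.valuation (2 : ℂ) = 1 := by
  have h := val_int h3 2 (by norm_num)
  simpa using h

private theorem Fn_v9 (O : ValuationSubring ℂ) : O.valuation (9 : ℂ) = O.valuation 3 ^ 2 := by
  rw [← map_pow]
  norm_num

private theorem Fn_v27 (O : ValuationSubring ℂ) : O.valuation (27 : ℂ) = O.valuation 3 ^ 3 := by
  rw [← map_pow]
  norm_num

private theorem Fn_sgn (O : ValuationSubring ℂ) (π : ℕ) : O.valuation ((-1 : ℂ) ^ π) = 1 := by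
  rw [map_pow, Valuation.map_neg, map_one, one_pow]

private theorem Fn_par (π π' : ℕ) : π' % 2 = π % 2 ∨ π' % 2 = (π + 1) % 2 := by omega

private theorem Fn_mu (N : ℕ) (x : ℕ → ℕ → ℂ) (π π' : ℕ) (h : π' % 2 = π % 2) (f : ℤ → ℂ) :
    mq N x π' f = mq N x π f := by
  exact mq_mod f h

/-- the parity of the unit is decided -/
private theorem Fn_end {O : ValuationSubring ℂ} (N : ℕ) (x : ℕ → ℕ → ℂ) (hn : NmPr O N x) (π : ℕ)
    (h0 : ∀ n : ℕ, O.valuation (mq N x π fun s => (s : ℂ) ^ n) < 1)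
    (h1 : ∀ n : ℕ, O.valuation (mq N x (π + 1) fun s => (s : ℂ) ^ n) < 1) : False := by
  obtain ⟨π', n, hu⟩ := hn.unit
  rcases Fn_par π π' with h | h
  · rw [Fn_mu N x π π' h] at hu
    exact absurd hu (h0 n).ne
  · rw [Fn_mu N x (π + 1) π' h] at hu
    exact absurd hu (h1 n).ne

/-- step (c) -/
private theorem Fn_c {O : ValuationSubring ℂ} (N : ℕ) (lam d t : ℂ) (ht : O.valuation t ≤ 1)
    (π : ℕ) (hu : O.valuation (lam + (-1) ^ π * d) = 1) (x : ℕ → ℕ → ℂ) (hn : NmPr O N x)
    (hc : CgPr O N x lam d t) (f : ℤ → ℂ) (hf : PO O f) :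
    O.valuation (mq N x (π + 1) f) ≤ O.valuation 9 := by
  obtain ⟨w, z, hw, hz, h⟩ := hc (π + 1) f hf
  have hz' : O.valuation z ≤ 1 := (O.valuation_le_one_iff z).2 hz
  rw [Fn_q] at h
  set A := mq N x (π + 1) f
  set B := mq N x (π + 1) (fun s => ((s : ℂ) ^ 2 - (N : ℂ) * (s : ℂ)) * f s) with hB
  set C := mq N x (π + 1 + 1) w with hC
  have hBv : O.valuation B ≤ 1 := hn.mem _ _ (PO_mul (Fn_g O N) hf)
  have hCv : O.valuation C ≤ 1 := hn.mem _ _ hw
  have key : (lam + (-1) ^ π * d) * A = 9 * (-((-1) ^ π * (t * B)) + C + 3 * z) := by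
    have h5 : lam * A = -((-1) ^ π) * (d * A + 9 * t * B) + 9 * C + 27 * z := by
      rw [h, pow_succ]
      ring
    linear_combination h5
  have h1 : O.valuation ((lam + (-1) ^ π * d) * A) = O.valuation A := by
    rw [map_mul, hu, one_mul]
  rw [← h1, key, map_mul]
  have h2 : O.valuation (-((-1) ^ π * (t * B)) + C + 3 * z) ≤ 1 := by
    have e1 : O.valuation (-((-1) ^ π * (t * B))) ≤ 1 := by
      rw [Valuation.map_neg, map_mul, Fn_sgn, one_mul, map_mul]
      exact mul_le_one' ht hBv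
    have e2 : O.valuation (3 * z) ≤ 1 := by
      rw [map_mul]
      have : O.valuation (3 : ℂ) ≤ 1 := by
        have := int_mem O 3
        simpa using this
      exact mul_le_one' this hz'
    exact (Valuation.map_add_le _ (Valuation.map_add_le _ e1 hCv) e2)
  calc O.valuation 9 * O.valuation (-((-1) ^ π * (t * B)) + C + 3 * z) ≤ O.valuation 9 * 1 :=
        mul_le_mul_right h2 _
    _ = O.valuation 9 := mul_one _

/-- step (d) -/
private theorem Fn_d {O : ValuationSubring ℂ} (h3 : O.valuation 3 < 1) (N : ℕ) (lam d t : ℂ)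
    (ht : O.valuation t ≤ 1)
    (π : ℕ) (hu : O.valuation (lam + (-1) ^ π * d) = 1) (x : ℕ → ℕ → ℂ) (hn : NmPr O N x)
    (hc : CgPr O N x lam d t) (f : ℤ → ℂ) (hf : PO O f) :
    O.valuation ((lam - (-1) ^ π * d) * mq N x π f -
      9 * (-1) ^ π * t * mq N x π (fun s => ((s : ℂ) ^ 2 - (N : ℂ) * (s : ℂ)) * f s)) ≤
        O.valuation 27 := by
  obtain ⟨w, z, hw, hz, h⟩ := hc π f hf
  have hz' : O.valuation z ≤ 1 := (O.valuation_le_one_iff z).2 hz
  rw [Fn_q] at h
  have hC := Fn_c N lam d t ht π hu x hn hc w hw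
  set A := mq N x π f
  set B := mq N x π (fun s => ((s : ℂ) ^ 2 - (N : ℂ) * (s : ℂ)) * f s)
  set C := mq N x (π + 1) w
  have key : (lam - (-1) ^ π * d) * A - 9 * (-1) ^ π * t * B = 9 * C + 27 * z := by
    linear_combination h
  rw [key]
  refine Valuation.map_add_le _ ?_ ?_
  · rw [map_mul]
    calc O.valuation 9 * O.valuation C ≤ O.valuation 9 * O.valuation 9 := mul_le_mul_right hC _
      _ = O.valuation 3 ^ 3 * O.valuation 3 := by
          rw [Fn_v9, ← pow_add, ← pow_succ]
      _ ≤ O.valuation 3 ^ 3 * 1 := mul_le_mul_right h3.le _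
      _ = O.valuation 27 := by rw [mul_one, Fn_v27]
  · rw [map_mul]
    calc O.valuation 27 * O.valuation z ≤ O.valuation 27 * 1 := mul_le_mul_right hz' _
      _ = O.valuation 27 := mul_one _

theorem finPr {O : ValuationSubring ℂ} (h3 : O.valuation 3 < 1) (N : ℕ) (lam d t : ℂ)
    (hd : O.valuation d = 1) (htv : O.valuation t = 1) :
    ∃ π : ℕ, ∀ x : ℕ → ℕ → ℂ, NmPr O N x → CgPr O N x lam d t → mq N x π (fun _ => 1) = 0 →
      mq N x π (fun s => (s : ℂ)) = 0 → False := by
  have ht0 : t ≠ 0 := by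
    rintro rfl
    rw [map_zero] at htv
    exact zero_ne_one htv
  have htt : t * t⁻¹ = 1 := mul_inv_cancel₀ ht0
  have htv' : O.valuation t⁻¹ = 1 := by rw [map_inv₀, htv, inv_one]
  have hv3 := Fn_v0 O
  have hv9 : O.valuation (9 : ℂ) ≠ 0 := (map_ne_zero _).mpr (by norm_num)
  have h9lt : O.valuation (9 : ℂ) < 1 := by
    rw [Fn_v9]
    exact pow_lt_one₀ zero_le h3 (by norm_num)
  by_cases hex : ∃ x : ℕ → ℕ → ℂ, NmPr O N x ∧ CgPr O N x lam d t
  swap
  · exact ⟨0, fun x h1 h2 _ _ => hex ⟨x, h1, h2⟩⟩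
  -- `lam` is integral
  have hlam : O.valuation lam ≤ 1 := by
    obtain ⟨x, hn, hc⟩ := hex
    obtain ⟨π, n, hu⟩ := hn.unit
    obtain ⟨w, z, hw, hz, h⟩ := hc π _ (Fn_pow O n)
    have hz' : O.valuation z ≤ 1 := (O.valuation_le_one_iff z).2 hz
    rw [Fn_q] at h
    have h1 : O.valuation (lam * mq N x π (fun s => (s : ℂ) ^ n)) = O.valuation lam := by
      rw [map_mul, hu, mul_one]
    have hA : O.valuation (mq N x π (fun s => (s : ℂ) ^ n)) ≤ 1 := hu.le
    have hB : O.valuation (mq N x π (fun s => ((s : ℂ) ^ 2 - (N : ℂ) * (s : ℂ)) * (s : ℂ) ^ n)) ≤ 1 :=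
      hn.mem _ _ (PO_mul (Fn_g O N) (Fn_pow O n))
    have hC : O.valuation (mq N x (π + 1) w) ≤ 1 := hn.mem _ _ hw
    rw [← h1, h]
    have i9 : O.valuation (9 : ℂ) ≤ 1 := h9lt.le
    have i27 : O.valuation (27 : ℂ) ≤ 1 := by
      have := int_mem O 27
      simpa using this
    refine Valuation.map_add_le _ (Valuation.map_add_le _ ?_ ?_) ?_
    · rw [map_mul, Fn_sgn, one_mul]
      refine Valuation.map_add_le _ ?_ ?_
      · rw [map_mul, hd, one_mul]
        exact hA
      · rw [map_mul, map_mul, htv, mul_one]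
        exact mul_le_one' i9 hB
    · rw [map_mul]
      exact mul_le_one' i9 hC
    · rw [map_mul]
      exact mul_le_one' i27 hz'
  -- the parity
  obtain ⟨π, hπ⟩ : ∃ π : ℕ, O.valuation (lam + (-1) ^ π * d) = 1 := by
    by_cases h0 : O.valuation (lam + d) = 1
    · exact ⟨0, by rw [pow_zero, one_mul]; exact h0⟩
    · refine ⟨1, ?_⟩
      have h1 : O.valuation (lam + d) ≤ 1 := Valuation.map_add_le _ hlam hd.le
      have h2 : O.valuation (lam + d) < 1 := lt_of_le_of_ne h1 h0
      have h3' : O.valuation (lam - d) ≤ 1 := Valuation.map_sub_le _ hlam hd.le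
      have h4 : lam + (-1) ^ 1 * d = lam - d := by ring
      rw [h4]
      by_contra h5
      have h6 : O.valuation (lam - d) < 1 := lt_of_le_of_ne h3' h5
      have h7 : O.valuation (2 * d) < 1 := by
        have h8 : 2 * d = (lam + d) - (lam - d) := by ring
        rw [h8]
        exact Valuation.map_sub_lt _ h2 h6
      rw [map_mul, Fn_v2 h3, hd, mul_one] at h7
      exact lt_irrefl _ h7
  refine ⟨π, fun x hn hc hx0 hx1 => ?_⟩
  have hc1 : ∀ f, PO O f → O.valuation (mq N x (π + 1) f) ≤ O.valuation 9 :=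
    fun f hf => Fn_c N lam d t htv.le π hπ x hn hc f hf
  have hd1 : ∀ f, PO O f → O.valuation ((lam - (-1) ^ π * d) * mq N x π f -
      9 * (-1) ^ π * t * mq N x π (fun s => ((s : ℂ) ^ 2 - (N : ℂ) * (s : ℂ)) * f s)) ≤
        O.valuation 27 :=
    fun f hf => Fn_d h3 N lam d t htv.le π hπ x hn hc f hf
  have h27 : O.valuation (27 : ℂ) ≤ O.valuation 9 := by
    rw [Fn_v27, Fn_v9]
    calc O.valuation 3 ^ 3 = O.valuation 3 ^ 2 * O.valuation 3 := pow_succ _ 2
      _ ≤ O.valuation 3 ^ 2 * 1 := mul_le_mul_right h3.le _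
      _ = O.valuation 3 ^ 2 := mul_one _
  by_cases hcase : O.valuation 9 < O.valuation (lam - (-1) ^ π * d)
  · -- (e)
    refine Fn_end N x hn π (fun n => ?_) (fun n => lt_of_le_of_lt (hc1 _ (Fn_pow O n)) h9lt)
    have h5 := hd1 _ (Fn_pow O n)
    set A := mq N x π (fun s => (s : ℂ) ^ n)
    have hB : O.valuation (mq N x π (fun s => ((s : ℂ) ^ 2 - (N : ℂ) * (s : ℂ)) * (s : ℂ) ^ n)) ≤ 1 :=
      hn.mem _ _ (PO_mul (Fn_g O N) (Fn_pow O n))
    set B := mq N x π (fun s => ((s : ℂ) ^ 2 - (N : ℂ) * (s : ℂ)) * (s : ℂ) ^ n)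
    have h6 : O.valuation (9 * (-1) ^ π * t * B) ≤ O.valuation 9 := by
      rw [map_mul, map_mul, map_mul, Fn_sgn, mul_one, htv, mul_one]
      calc O.valuation 9 * O.valuation B ≤ O.valuation 9 * 1 := mul_le_mul_right hB _
        _ = O.valuation 9 := mul_one _
    have h7 : O.valuation ((lam - (-1) ^ π * d) * A) ≤ O.valuation 9 := by
      have h8 : (lam - (-1) ^ π * d) * A =
          ((lam - (-1) ^ π * d) * A - 9 * (-1) ^ π * t * B) + 9 * (-1) ^ π * t * B := by ring
      rw [h8]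
      exact Valuation.map_add_le _ (h5.trans h27) h6
    rw [map_mul] at h7
    by_contra h9
    rw [not_lt] at h9
    have h10 : O.valuation (lam - (-1) ^ π * d) ≤ O.valuation 9 :=
      calc O.valuation (lam - (-1) ^ π * d) = O.valuation (lam - (-1) ^ π * d) * 1 := (mul_one _).symm
        _ ≤ O.valuation (lam - (-1) ^ π * d) * O.valuation A := mul_le_mul_right h9 _
        _ ≤ O.valuation 9 := h7
    exact absurd hcase (not_lt.2 h10)
  · -- (f)
    rw [not_lt] at hcase
    obtain ⟨τ, hτ⟩ : ∃ τ : ℂ, lam - (-1) ^ π * d = 9 * τ :=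
      ⟨(lam - (-1) ^ π * d) / 9, by field_simp⟩
    have hτv : O.valuation τ ≤ 1 := by
      rw [hτ, map_mul] at hcase
      by_contra h5
      rw [not_le] at h5
      have h6 : O.valuation 9 * 1 < O.valuation 9 * O.valuation τ :=
        mul_lt_mul_of_pos_left h5 (zero_lt_iff.2 hv9)
      rw [mul_one] at h6
      exact absurd hcase (not_le.2 h6)
    have hstep : ∀ n : ℕ, O.valuation (mq N x π (fun s => (s : ℂ) ^ n)) ≤ O.valuation 3 →
        O.valuation (mq N x π (fun s => (s : ℂ) ^ (n + 1))) ≤ O.valuation 3 →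
        O.valuation (mq N x π (fun s => (s : ℂ) ^ (n + 2))) ≤ O.valuation 3 := by
      intro n e0 e1
      have h5 := hd1 _ (Fn_pow O n)
      rw [Fn_g2, hτ] at h5
      set A := mq N x π (fun s => (s : ℂ) ^ n)
      set B := mq N x π (fun s => (s : ℂ) ^ (n + 1))
      set C := mq N x π (fun s => (s : ℂ) ^ (n + 2))
      have h6 : 9 * τ * A - 9 * (-1) ^ π * t * (C - N * B) =
          9 * (τ * A - (-1) ^ π * t * (C - N * B)) := by ring
      rw [h6, map_mul] at h5
      have h7 : O.valuation (τ * A - (-1) ^ π * t * (C - N * B)) ≤ O.valuation 3 := by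
        by_contra h8
        rw [not_le] at h8
        have h9 : O.valuation 9 * O.valuation 3 <
            O.valuation 9 * O.valuation (τ * A - (-1) ^ π * t * (C - N * B)) :=
          mul_lt_mul_of_pos_left h8 (zero_lt_iff.2 hv9)
        have h10 : O.valuation 9 * O.valuation 3 = O.valuation 27 := by
          rw [Fn_v27, Fn_v9, ← pow_succ]
        rw [h10] at h9
        exact absurd h5 (not_le.2 h9)
      have h11 : C = N * B + (-1) ^ π * t⁻¹ * (τ * A) -
          (-1) ^ π * t⁻¹ * (τ * A - (-1) ^ π * t * (C - N * B)) := by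
        have h12 : ((-1 : ℂ) ^ π) * (-1) ^ π = 1 := by
          rw [← mul_pow]
          norm_num
        linear_combination (-(C - N * B)) * (t * t⁻¹) * h12 - (C - N * B) * htt
      have iN : O.valuation (N : ℂ) ≤ 1 := by
        have := int_mem O (N : ℤ)
        simpa using this
      rw [h11]
      refine Valuation.map_sub_le _ (Valuation.map_add_le _ ?_ ?_) ?_
      · rw [map_mul]
        exact (mul_le_mul' iN e1).trans (one_mul _).le
      · rw [map_mul, map_mul, Fn_sgn, htv', one_mul, one_mul, map_mul]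
        exact (mul_le_mul' hτv e0).trans (one_mul _).le
      · rw [map_mul, map_mul, Fn_sgn, htv', one_mul, one_mul]
        exact h7
    have hall : ∀ n : ℕ, O.valuation (mq N x π (fun s => (s : ℂ) ^ n)) ≤ O.valuation 3 ∧
        O.valuation (mq N x π (fun s => (s : ℂ) ^ (n + 1))) ≤ O.valuation 3 := by
      intro n
      induction n with
      | zero =>
        constructor
        · have h5 : mq N x π (fun s => (s : ℂ) ^ 0) = 0 := by
            simp only [pow_zero]
            exact hx0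
          rw [h5, map_zero]
          exact zero_le
        · have h5 : mq N x π (fun s => (s : ℂ) ^ (0 + 1)) = 0 := by
            simp only [zero_add, pow_one]
            exact hx1
          rw [h5, map_zero]
          exact zero_le
      | succ n ih => exact ⟨ih.2, hstep n ih.1 ih.2⟩
    exact Fn_end N x hn π (fun n => lt_of_le_of_lt (hall n).1 h3)
      (fun n => lt_of_le_of_lt (hc1 _ (Fn_pow O n)) h9lt)

theorem finPr1 {O : ValuationSubring ℂ} (h3 : O.valuation 3 < 1) (N : ℕ) (lam q : ℂ)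
    (hq : O.valuation q = 1) (x : ℕ → ℕ → ℂ)
    (hn : NmPr O N x) (h : CgPr1 O N x lam q) (h0 : mq N x 0 (fun _ => 1) = 0)
    (h1 : mq N x 1 (fun _ => 1) = 0) : False := by
  have hv3 := Fn_v0 O
  have iN : O.valuation (N : ℂ) ≤ 1 := by
    have := int_mem O (N : ℤ)
    simpa using this
  have i2 := Fn_v2 h3
  by_cases hcase : O.valuation 3 < O.valuation lam
  · have hlt : ∀ π n : ℕ, O.valuation (mq N x π (fun s => (s : ℂ) ^ n)) < 1 := by
      intro π n
      obtain ⟨z, hz, hzz⟩ := h π _ (Fn_pow O n)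
      have hz' : O.valuation z ≤ 1 := (O.valuation_le_one_iff z).2 hz
      rw [Fn_1] at hzz
      have hA : O.valuation (mq N x π (fun s => (s : ℂ) ^ n)) ≤ 1 := hn.mem _ _ (Fn_pow O n)
      have hB : O.valuation (mq N x π (fun s => (s : ℂ) ^ (n + 1))) ≤ 1 := hn.mem _ _ (Fn_pow O (n + 1))
      set A := mq N x π (fun s => (s : ℂ) ^ n)
      set B := mq N x π (fun s => (s : ℂ) ^ (n + 1))
      have h5 : lam * A = 3 * ((-1) ^ π * (q * (2 * B - N * A)) + 3 * z) := by
        rw [hzz]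
        ring
      have h6 : O.valuation ((-1) ^ π * (q * (2 * B - N * A)) + 3 * z) ≤ 1 := by
        refine Valuation.map_add_le _ ?_ ?_
        · rw [map_mul, Fn_sgn, one_mul, map_mul, hq, one_mul]
          refine Valuation.map_sub_le _ ?_ ?_
          · rw [map_mul, i2, one_mul]
            exact hB
          · rw [map_mul]
            exact mul_le_one' iN hA
        · rw [map_mul]
          exact mul_le_one' h3.le hz'
      have h7 : O.valuation lam * O.valuation A ≤ O.valuation 3 := by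
        rw [← map_mul, h5, map_mul]
        exact (mul_le_mul_right h6 _).trans (mul_one _).le
      by_contra h9
      rw [not_lt] at h9
      have h10 : O.valuation lam ≤ O.valuation 3 :=
        calc O.valuation lam = O.valuation lam * 1 := (mul_one _).symm
          _ ≤ O.valuation lam * O.valuation A := mul_le_mul_right h9 _
          _ ≤ O.valuation 3 := h7
      exact absurd hcase (not_lt.2 h10)
    exact Fn_end N x hn 0 (fun n => hlt 0 n) (fun n => hlt (0 + 1) n)
  · rw [not_lt] at hcase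
    obtain ⟨τ, hτ⟩ : ∃ τ : ℂ, lam = 3 * τ := ⟨lam / 3, by field_simp⟩
    have hτv : O.valuation τ ≤ 1 := by
      rw [hτ, map_mul] at hcase
      by_contra h5
      rw [not_le] at h5
      have h6 : O.valuation 3 * 1 < O.valuation 3 * O.valuation τ :=
        mul_lt_mul_of_pos_left h5 (zero_lt_iff.2 hv3)
      rw [mul_one] at h6
      exact absurd hcase (not_le.2 h6)
    have hall : ∀ π : ℕ, mq N x π (fun _ => 1) = 0 → ∀ n : ℕ,
        O.valuation (mq N x π (fun s => (s : ℂ) ^ n)) ≤ O.valuation 3 := by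
      intro π hπ0 n
      induction n with
      | zero =>
        have h5 : mq N x π (fun s => (s : ℂ) ^ 0) = 0 := by
          simp only [pow_zero]
          exact hπ0
        rw [h5, map_zero]
        exact zero_le
      | succ n ih =>
        obtain ⟨z, hz, hzz⟩ := h π _ (Fn_pow O n)
        have hz' : O.valuation z ≤ 1 := (O.valuation_le_one_iff z).2 hz
        rw [Fn_1, hτ] at hzz
        set A := mq N x π (fun s => (s : ℂ) ^ n)
        set B := mq N x π (fun s => (s : ℂ) ^ (n + 1))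
        have h12 : ((-1 : ℂ) ^ π) * (-1) ^ π = 1 := by
          rw [← mul_pow]
          norm_num
        have h5 : τ * A = (-1) ^ π * (q * (2 * B - N * A)) + 3 * z := by
          linear_combination hzz / 3
        have h6 : 2 * q * B = q * (N * A) + (-1) ^ π * (τ * A) - (-1) ^ π * (3 * z) := by
          linear_combination (-1) ^ π * (-h5) - (q * (2 * B - N * A)) * h12
        have h7 : O.valuation B = O.valuation (2 * q * B) := by
          rw [map_mul, map_mul, i2, hq, one_mul, one_mul]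
        rw [h7, h6]
        refine Valuation.map_sub_le _ (Valuation.map_add_le _ ?_ ?_) ?_
        · rw [map_mul, hq, one_mul, map_mul]
          exact (mul_le_mul' iN ih).trans (one_mul _).le
        · rw [map_mul, Fn_sgn, one_mul, map_mul]
          exact (mul_le_mul' hτv ih).trans (one_mul _).le
        · rw [map_mul, Fn_sgn, one_mul, map_mul]
          exact (mul_le_mul_right hz' _).trans (mul_one _).le
    exact Fn_end N x hn 0 (fun n => lt_of_le_of_lt (hall 0 h0 n) h3)
      (fun n => lt_of_le_of_lt (hall 1 h1 n) h3)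

end Pool.Agent.Lib.MP_06b9d2_tls
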