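import Pool.Agent.Lib.MP_06b9d2_tls.PrNm
import Pool.Agent.Lib.MP_06b9d2_tls.PrF

/-!
Board TLS, algebra part, pairs. The eigenvectors for `lam` and for `-lam` together are determined by two
linear forms.
-/

namespace Pool.Agent.Lib.MP_06b9d2_tls

open PowerSeries Pool.Agent.L1
open Pool.Agent.Lib.MP_06b9d2_ssp (PO)

/-- the eigenvectors for `lam` and for `-lam` together are determined by two linear forms -/
def TwoPm (Mx : ℕ → ℕ → ℂ) (N : ℕ) : Prop :=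
  ∀ lam : ℂ, ∃ L : ((ℕ → ℂ) × (ℕ → ℂ)) →ₗ[ℂ] (Fin 2 → ℂ),
    ∀ x y : ℕ → ℂ, EgG Mx N lam x → EgG Mx N (-lam) y → (∀ s, N < s → x s = 0) →
      (∀ s, N < s → y s = 0) → L (x, y) = 0 → x = 0 ∧ y = 0

/-- `mq N x π f` as a linear form in `x` -/
private noncomputable def mqL (N π : ℕ) (f : ℤ → ℂ) : (ℕ → ℕ → ℂ) →ₗ[ℂ] ℂ where
  toFun x := mq N x π f
  map_add' x y := mq_add' N x y π f
  map_smul' r x := mq_smul' N x r π f

private theorem key {O : ValuationSubring ℂ} {c : ℂ} {κ : ℕ → ℕ → ℕ → ℂ}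
    (hdeg : ∀ m n r, m + n < r → κ m n r = 0) (N : ℕ) (lam : ℂ) (π₁ π₂ : ℕ) (f₁ f₂ : ℤ → ℂ)
    (hfin : ∀ y : ℕ → ℕ → ℂ, NmPr O N y → StPr c κ N lam y → mq N y π₁ f₁ = 0 →
      mq N y π₂ f₂ = 0 → False) :
    ∃ L : ((ℕ → ℂ) × (ℕ → ℂ)) →ₗ[ℂ] (Fin 2 → ℂ),
    ∀ x y : ℕ → ℂ, EgG (MG (-1) c κ N) N lam x → EgG (MG (-1) c κ N) N (-lam) y →
      (∀ s, N < s → x s = 0) → (∀ s, N < s → y s = 0) → L (x, y) = 0 → x = 0 ∧ y = 0 := by
  refine ⟨(LinearMap.pi ![mqL N π₁ f₁, mqL N π₂ f₂]) ∘ₗ ((emb 0).coprod (emb 1)),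
    fun x y hx hy hxN hyN hL => ?_⟩
  by_contra hne
  have hex : ∃ π < 2, ∃ s ≤ N, (emb 0 x + emb 1 y) π s ≠ 0 := by
    by_contra hcon
    push Not at hcon
    have hval : ∀ π s, (emb 0 x + emb 1 y) π s =
        (if s % 2 = (π + 0) % 2 then x s else 0) + (if s % 2 = (π + 1) % 2 then y s else 0) :=
      fun π s => rfl
    refine hne ⟨funext fun s => ?_, funext fun s => ?_⟩
    · rcases Nat.lt_or_ge N s with h | h
      · exact hxN s h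
      · have h1 := hcon (s % 2) (Nat.mod_lt _ (by norm_num)) s h
        rw [hval, if_pos (by omega), if_neg (by omega), add_zero] at h1
        exact h1
    · rcases Nat.lt_or_ge N s with h | h
      · exact hyN s h
      · have h1 := hcon ((s + 1) % 2) (Nat.mod_lt _ (by norm_num)) s h
        rw [hval, if_neg (by omega), if_pos (by omega), zero_add] at h1
        exact h1
  obtain ⟨r, -, hr⟩ := nrmPr O N _ hex
  have h0 : mq N (emb 0 x + emb 1 y) π₁ f₁ = 0 := congrFun hL 0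
  have h1 : mq N (emb 0 x + emb 1 y) π₂ f₂ = 0 := congrFun hL 1
  refine hfin _ hr (StPr_smul (StPr_add (StPr_emb c κ hdeg hx) (StPr_emb' c κ hdeg hy)) r) ?_ ?_
  · rw [mq_smul', h0, mul_zero]
  · rw [mq_smul', h1, mul_zero]

theorem twoPm (O : ValuationSubring ℂ) (h3 : O.valuation 3 < 1) (N : ℕ) (c : ℂ)
    (κ : ℕ → ℕ → ℕ → ℂ) (h : DatM O c κ) : TwoPm (MG (-1) c κ N) N := by
  intro lam
  obtain ⟨d, t, hd, ht, hc⟩ := cgPr h3 N c κ h
  obtain ⟨π, hπ⟩ := finPr h3 N lam d t hd ht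
  exact key h.deg N lam π π _ _ fun y hy hE h1 h2 => hπ y hy (hc lam y hE hy) h1 h2

theorem twoPm1 (O : ValuationSubring ℂ) (h3 : O.valuation 3 < 1) (N : ℕ) (c : ℂ)
    (κ : ℕ → ℕ → ℕ → ℂ) (h : DatM1 O c κ) : TwoPm (MG (-1) c κ N) N := by
  intro lam
  obtain ⟨q, hq, hc⟩ := cgPr1 h3 N c κ h
  exact key h.deg N lam 0 1 _ _ fun y hy hE h1 h2 =>
    finPr1 h3 N lam q hq y hy (hc lam y hE hy) h1 h2

end Pool.Agent.Lib.MP_06b9d2_tls
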