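import Pool.Agent.Lib.MP_06b9d2_tls.Qd
import Pool.Agent.Lib.MP_06b9d2_tls.Eco

/-!
Board TLS, `l ≡ 8, 17` modulo `27`. The entry `M 0 2 1 0`, from `E6(q)` and `E6(q ^ 3)`.

With `B = a ^ 3 - 27 c`: `E6 = B ^ 2 - 486 B c - 19683 c ^ 2`, `E6(q ^ 3) = B ^ 2 + 18 B c - 27 c ^ 2`
(`a' = expand 3 a`, `expand 3 c = k ^ 3`, `B = (a' - 3 k) ^ 3`, `c = k (a' ^ 2 + 3 a' k + 9 k ^ 2)`), so
`729 E6(q ^ 3) - E6 = 728 B ^ 2 + 13608 B c`; the coefficient of `q ^ l`, `l ≠ 3`: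
`504 (1 + l ^ 5) = 728 [B ^ 2] + 13608 [B c]`.
-/

namespace Pool.Agent.Lib.MP_06b9d2_tls

open PowerSeries Pool.Agent.L1

theorem six_e {A Y : ℂ⟦X⟧} {a k c : ℤ⟦X⟧} (q : Qd A Y a k c) :
    729 * PowerSeries.expand 3 three_ne_zero (e6 ℤ) - e6 ℤ =
      728 * (a ^ 3 - 27 * c) ^ 2 + 13608 * ((a ^ 3 - 27 * c) * c) := by
  have h1 : PowerSeries.expand 3 three_ne_zero (e6 ℤ) =
      (PowerSeries.expand 3 three_ne_zero a) ^ 6 -
        540 * (PowerSeries.expand 3 three_ne_zero a) ^ 3 * k ^ 3 - 5832 * (k ^ 3) ^ 2 := by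
    rw [q.h6]
    simp only [map_sub, map_mul, map_pow, map_ofNat, ← q.r3]
  have hr1 := q.r1
  have hr2 := q.r2
  rw [h1, q.h6]
  generalize PowerSeries.expand 3 three_ne_zero a = E at *
  rw [hr2, hr1]
  ring

theorem six_q {A Y : ℂ⟦X⟧} {a k c : ℤ⟦X⟧} (q : Qd A Y a k c) (l : ℕ) (hl : l.Prime) (h3 : l ≠ 3) :
    13 * coeff l ((a ^ 3 - 27 * c) ^ 2) + 243 * coeff l ((a ^ 3 - 27 * c) * c) =
      9 * (1 + (l : ℤ) ^ 5) := by
  have h1 := congrArg (coeff l) (six_e q)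
  have e1 : ∀ (n : ℕ) (f : ℤ⟦X⟧), coeff l ((n : ℤ⟦X⟧) * f) = n * coeff l f := by
    intro n f
    rw [← nsmul_eq_mul, map_nsmul, nsmul_eq_mul]
  have e2 : coeff l (PowerSeries.expand 3 three_ne_zero (e6 ℤ)) = 0 := by
    rw [PowerSeries.coeff_expand, if_neg]
    intro hd
    exact h3 ((Nat.prime_dvd_prime_iff_eq Nat.prime_three hl).1 hd).symm
  have h6 := e6_co l hl
  have a1 := e1 729 (PowerSeries.expand 3 three_ne_zero (e6 ℤ))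
  have a2 := e1 728 ((a ^ 3 - 27 * c) ^ 2)
  have a3 := e1 13608 ((a ^ 3 - 27 * c) * c)
  push_cast at a1 a2 a3
  rw [map_sub, map_add, a1, a2, a3, e2, h6] at h1
  linarith

theorem six {A Y : ℂ⟦X⟧} (h : Core A Y) {l : ℕ} {s0 : ℂ} (hl : PL l (-1) s0)
    {M : ℕ → ℕ → ℕ → ℕ → ℂ} (hM : MatD l (-1) A Y M) :
    13 * M 0 2 1 0 = 9 * (M 0 2 0 0 - M 0 2 1 1) := by
  obtain ⟨a, k, c, q⟩ := qd_ex h
  have hp : l.Prime := hl.1
  have h3 : l ≠ 3 := by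
    rintro rfl
    rcases hl.2 with h1 | h1
    · have := h1.1
      omega
    · have := h1.1
      omega
  have h1 := six_q q l hp h3
  have h2 := q_M h q hl hM 0 2
  have h4 := q_t h q hl hM 0
  have h00 := mat_00 h hl hM 0 2
  rw [pow_zero, one_mul] at h2 h4
  have h5 : 13 * ((coeff l ((a ^ 3 - 27 * c) ^ 2) : ℤ) : ℂ) +
      243 * ((coeff l ((a ^ 3 - 27 * c) * c) : ℤ) : ℂ) = 9 * (1 + (l : ℂ) ^ 5) := by
    exact_mod_cast h1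
  push_cast at h2
  have h6 : M 0 2 0 0 = l * (1 + (l : ℂ) ^ 5) := by
    rw [h00]
    ring
  linear_combination ((l : ℂ) * h5 - 13 * h2 - 243 * h4 - 9 * h6) * (1 / 27)

end Pool.Agent.Lib.MP_06b9d2_tls
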